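import Pool.Agent.Q256.MP.Stm

/-!
# Project MP of helper256: auxiliary lemmas on iterates and on counting
-/

set_option autoImplicit false

open Height NumberField

noncomputable section

namespace Pool.Agent.Q96.MP

open Pool.Agent.W276.GE Pool.Agent.Q256.MP

theorem fm_smul {n d : ℕ} (F : Fin n → E n d → ℤ) (K : Type) [Field K] (c : K) (P : Fin n → K) :
    fm F K (c • P) = c ^ d • fm F K P := by
  funext i
  show ev (F i) (fun j => c * P j) = c ^ d * ev (F i) P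
  exact ev_smul c (F i) P

theorem fm_ne {N d : ℕ} {F : Sy N d} (hF : NoZero F) {K : Type} [Field K] [NumberField K]
    {P : Fin (N + 1) → K} (hP : P ≠ 0) : fm F K P ≠ 0 :=
  image_ne_zero hF (Classical.arbitrary (K →+* ℂ)) hP

theorem iter_ne {N d : ℕ} {F : Sy N d} (hF : NoZero F) {K : Type} [Field K] [NumberField K]
    {P : Fin (N + 1) → K} (hP : P ≠ 0) (k : ℕ) : (fm F K)^[k] P ≠ 0 := by
  induction k with
  | zero => exact hP
  | succ k ih => rw [Function.iterate_succ_apply']; exact fm_ne hF ih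

theorem pp_image {n d : ℕ} {F : Fin n → E n d → ℤ} {K : Type} [Field K] {P : Fin n → K}
    (h : Pp F K P) : Pp F K (fm F K P) := by
  obtain ⟨k, l, hkl, c, hc, he⟩ := h
  refine ⟨k, l, hkl, c ^ d, pow_ne_zero _ hc, ?_⟩
  rw [← Function.iterate_succ_apply, ← Function.iterate_succ_apply,
    Function.iterate_succ_apply', Function.iterate_succ_apply', he, fm_smul]

/-- a preperiodic point has smaller height than `2 ^ κ` if no point of such height has an image of
at most its own height -/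
theorem pp_height {N d D κ : ℕ} {F : Sy N d} (hF : NoZero F) (hT : ¬ Tl D 1 κ F) {K : Type}
    [Field K] [NumberField K] (hK : Module.finrank ℚ K ≤ D) {P : Fin (N + 1) → K} (hP : P ≠ 0)
    (h : Pp F K P) : mulHeight P < 2 ^ κ := by
  obtain ⟨k, l, hkl, c, hc, he⟩ := h
  by_contra hcon
  push Not at hcon
  have hl : (Finset.range l).Nonempty := ⟨0, Finset.mem_range.2 (by omega)⟩
  obtain ⟨j, hj, hmax⟩ := Finset.exists_max_image (Finset.range l)
    (fun i => mulHeight ((fm F K)^[i] P)) hl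
  apply hT
  refine ⟨K, inferInstance, inferInstance, hK, (fm F K)^[j] P, iter_ne hF hP j, ?_, ?_⟩
  · have e : fm F K ((fm F K)^[j] P) = (fm F K)^[j + 1] P :=
      (Function.iterate_succ_apply' (fm F K) j P).symm
    rw [pow_one, e]
    have hjl := Finset.mem_range.1 hj
    rcases Nat.lt_or_ge (j + 1) l with h1 | h1
    · exact hmax (j + 1) (Finset.mem_range.2 h1)
    · have h2 : j + 1 = l := by omega
      rw [h2, he, mulHeight_smul_eq_mulHeight _ hc]
      exact hmax k (Finset.mem_range.2 hkl)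
  · exact hcon.trans (hmax 0 (Finset.mem_range.2 (by omega)))

theorem cnt_set_finite {N d H : ℕ} (Φ : Sy N d → Prop) :
    {F : Sy N d | F ∈ Fb (N + 1) d H ∧ NoZero F ∧ Φ F}.Finite :=
  (Finset.finite_toSet (Fb (N + 1) d H)).subset fun _ h => h.1

theorem cnt_nonneg {N d H : ℕ} (Φ : Sy N d → Prop) : 0 ≤ cnt N d H Φ := Nat.cast_nonneg _

theorem cnt_mono {N d H : ℕ} {Φ Ψ : Sy N d → Prop}
    (h : ∀ F ∈ Fb (N + 1) d H, NoZero F → Φ F → Ψ F) : cnt N d H Φ ≤ cnt N d H Ψ := by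
  unfold cnt
  have : {F : Sy N d | F ∈ Fb (N + 1) d H ∧ NoZero F ∧ Φ F} ⊆
      {F : Sy N d | F ∈ Fb (N + 1) d H ∧ NoZero F ∧ Ψ F} :=
    fun F hF => ⟨hF.1, hF.2.1, h F hF.1 hF.2.1 hF.2.2⟩
  exact_mod_cast Set.ncard_le_ncard this (cnt_set_finite Ψ)

theorem cnt_or {N d H : ℕ} {Φ Ψ Θ : Sy N d → Prop}
    (h : ∀ F ∈ Fb (N + 1) d H, NoZero F → Φ F → Ψ F ∨ Θ F) :
    cnt N d H Φ ≤ cnt N d H Ψ + cnt N d H Θ := by
  unfold cnt
  have h1 : {F : Sy N d | F ∈ Fb (N + 1) d H ∧ NoZero F ∧ Φ F} ⊆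
      {F : Sy N d | F ∈ Fb (N + 1) d H ∧ NoZero F ∧ Ψ F} ∪
      {F : Sy N d | F ∈ Fb (N + 1) d H ∧ NoZero F ∧ Θ F} := by
    intro F hF
    rcases h F hF.1 hF.2.1 hF.2.2 with h2 | h2
    · exact Or.inl ⟨hF.1, hF.2.1, h2⟩
    · exact Or.inr ⟨hF.1, hF.2.1, h2⟩
  exact_mod_cast (Set.ncard_le_ncard h1 ((cnt_set_finite Ψ).union (cnt_set_finite Θ))).trans
    (Set.ncard_union_le _ _)

theorem cnt_ex {N d H : ℕ} {Φ : Sy N d → Prop} (Θ : ℕ → Sy N d → Prop) (k : ℕ)
    (h : ∀ F ∈ Fb (N + 1) d H, NoZero F → Φ F → ∃ κ < k, Θ κ F) :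
    cnt N d H Φ ≤ ∑ κ ∈ Finset.range k, cnt N d H (Θ κ) := by
  induction k generalizing Φ with
  | zero =>
    have h1 : cnt N d H Φ = 0 := by
      unfold cnt
      rw [Nat.cast_eq_zero, Set.ncard_eq_zero (cnt_set_finite Φ), Set.eq_empty_iff_forall_notMem]
      intro F hF
      obtain ⟨κ, hκ, -⟩ := h F hF.1 hF.2.1 hF.2.2
      omega
    rw [h1]
    simp
  | succ k ih =>
    rw [Finset.sum_range_succ]
    refine (cnt_or (Ψ := fun F => ∃ κ < k, Θ κ F) (Θ := Θ k) ?_).trans ?_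
    · intro F h1 h2 h3
      obtain ⟨κ, hκ, h4⟩ := h F h1 h2 h3
      rcases Nat.lt_or_ge κ k with h5 | h5
      · exact Or.inl ⟨κ, h5, h4⟩
      · have : κ = k := by omega
        subst this
        exact Or.inr h4
    · have := ih (Φ := fun F => ∃ κ < k, Θ κ F) (fun F _ _ h3 => h3)
      linarith

end Pool.Agent.Q96.MP
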