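import Pool.Agent.Q96.MP_Base

/-!
# Job UPF (project MP of helper256)
-/

set_option autoImplicit false

open Height NumberField

noncomputable section

namespace Pool.Agent.Q96.MP

open Pool.Agent.W276.GE Pool.Agent.Q256.MP

theorem emb_ne {K : Type} [Field K] {n : ℕ} (φ : K →+* ℂ) {P : Fin n → K} (hP : P ≠ 0) :
    (fun i => φ (P i)) ≠ 0 := by
  intro h
  apply hP
  funext i
  have := congrFun h i
  simpa using this

/-- proportional images come from proportional vectors -/
theorem prop_descent {K : Type} [Field K] {n : ℕ} (φ : K →+* ℂ) {P Q : Fin n → K} (hP : P ≠ 0)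
    (hQ : Q ≠ 0) {c : ℂ} (h : (fun i => φ (Q i)) = c • fun i => φ (P i)) :
    ∃ c' : K, c' ≠ 0 ∧ Q = c' • P := by
  obtain ⟨j, hj⟩ := Function.ne_iff.mp hP
  have hj' : P j ≠ 0 := hj
  have hc : c = φ (Q j / P j) := by
    have h1 : φ (Q j) = c * φ (P j) := congrFun h j
    rw [map_div₀, h1]
    field_simp [(map_ne_zero φ).2 hj']
  have hQP : Q = (Q j / P j) • P := by
    funext i
    have h1 : φ (Q i) = c * φ (P i) := congrFun h i
    apply φ.injective
    rw [h1, hc, ← map_mul]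
    rfl
  refine ⟨Q j / P j, ?_, hQP⟩
  intro h0
  rw [h0, zero_smul] at hQP
  exact hQ hQP

theorem upf (h1 : S_upe) (h2 : S_ppc) : S_upf := by
  classical
  intro N D m hN hD hm
  obtain ⟨d1, hd1⟩ := h1 N D m hN hD hm
  obtain ⟨d2, hd2⟩ := h2 N D m hN hD hm
  refine ⟨max (max d1 d2) 2, fun d hd => ?_⟩
  have hdd1 : d1 ≤ d := (le_max_left _ _).trans ((le_max_left _ _).trans hd)
  have hdd2 : d2 ≤ d := (le_max_right _ _).trans ((le_max_left _ _).trans hd)
  have hd2' : 2 ≤ d := (le_max_right _ _).trans hd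
  obtain ⟨C1, θ', hC1, hθ', hU⟩ := hd1 d hdd1
  obtain ⟨C2, hC2, hP⟩ := hd2 d hdd2
  have hdR : (1 : ℝ) ≤ d := by exact_mod_cast (by omega : 1 ≤ d)
  refine ⟨C1 + C2, θ' / (d : ℝ) ^ m, by positivity, by positivity, fun H hH => ?_⟩
  have hH1 : (1 : ℝ) ≤ H := by exact_mod_cast hH
  refine (cnt_or (Ψ := fun F => Many (N + 1) D (m + 1) (fun K _ _ P => ¬ Gr θ' H F K P))
    (Θ := fun F => Many (N + 1) D m (fun K _ _ P => Pp F K P)) ?_).trans ?_
  · rintro F - hF ⟨z, hz, hrep⟩
    by_cases hall : ∀ i, Rep (N + 1) D (fun K _ _ P => Pp F K P) (z i)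
    · exact Or.inr ⟨z, hz, hall⟩
    · left
      push Not at hall
      obtain ⟨i, hi⟩ := hall
      obtain ⟨K, i1, i2, φ, P, hK, hP0, hpg, hzi⟩ := hrep i
      have hnp : ¬ Pp F K P := fun h => hi ⟨K, i1, i2, φ, P, hK, hP0, h, hzi⟩
      have hng : ¬ Gr (θ' / (d : ℝ) ^ m) H F K P := by
        rcases hpg with h | h
        · exact absurd h hnp
        · exact h
      refine ⟨fun k => fun j => φ ((fm F K)^[k.1] P j), ⟨?_, ?_⟩, ?_⟩
      · intro k
        exact emb_ne φ (iter_ne hF hP0 _)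
      · intro k l hkl c hc
        have hkl' : k.1 ≠ l.1 := fun h => hkl (Fin.ext h)
        obtain ⟨c', hc', he⟩ := prop_descent φ (iter_ne hF hP0 l.1) (iter_ne hF hP0 k.1) hc
        rcases Nat.lt_or_gt_of_ne hkl' with h | h
        · apply hnp
          refine ⟨k.1, l.1, h, c'⁻¹, inv_ne_zero hc', ?_⟩
          rw [he, smul_smul, inv_mul_cancel₀ hc', one_smul]
        · exact hnp ⟨l.1, k.1, h, c', hc', he⟩
      · intro k
        refine ⟨K, i1, i2, φ, (fm F K)^[k.1] P, hK, iter_ne hF hP0 _, ?_, rfl⟩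
        rintro ⟨k₀, hk₀⟩
        apply hng
        refine ⟨k₀ + k.1, fun j hj => ?_⟩
        obtain ⟨t, rfl⟩ : ∃ t, j = t + k.1 := ⟨j - k.1, by omega⟩
        have h3 := hk₀ t (by omega)
        rw [← Function.iterate_add_apply] at h3
        refine le_trans ?_ h3
        have hlog : 0 ≤ Real.log H := Real.log_nonneg hH1
        have hfin : (0 : ℝ) ≤ (Module.finrank ℚ K : ℝ) := Nat.cast_nonneg _
        have h4 : θ' / (d : ℝ) ^ m * (d : ℝ) ^ (t + k.1) ≤ θ' * (d : ℝ) ^ t := by
          rw [div_mul_eq_mul_div, div_le_iff₀ (by positivity), mul_assoc, ← pow_add]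
          apply mul_le_mul_of_nonneg_left _ hθ'.le
          apply pow_le_pow_right₀ hdR
          have := k.2
          omega
        exact mul_le_mul_of_nonneg_right (mul_le_mul_of_nonneg_right h4 hlog) hfin
  · have e1 := hU H hH
    have e2 := hP H hH
    linarith

end Pool.Agent.Q96.MP
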