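import Pool.Agent.Q96.MP_Base

/-!
# Job LEV (project MP of helper256)
-/

set_option autoImplicit false

open Height NumberField

noncomputable section

namespace Pool.Agent.Q96.MP

open Pool.Agent.W276.GE Pool.Agent.Q256.MP

theorem nzj_scale {m n d T : ℕ} (z : Fin m → Fin n → ℂ) (b : Fin m → ℂ) (hb : ∀ i, b i ≠ 0) :
    nzj (fun i j => b i * z i j) d T = nzj z d T := by
  unfold nzj
  have h : {g : E n d → ℤ | g ∈ box n d T ∧ ∀ i, ev g (fun j => b i * z i j) = 0} =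
      {g : E n d → ℤ | g ∈ box n d T ∧ ∀ i, ev g (z i) = 0} := by
    ext g
    constructor
    · rintro ⟨h1, h2⟩
      refine ⟨h1, fun i => ?_⟩
      have h3 := h2 i
      rw [ev_smul] at h3
      exact (mul_eq_zero.1 h3).resolve_left (pow_ne_zero _ (hb i))
    · rintro ⟨h1, h2⟩
      refine ⟨h1, fun i => ?_⟩
      rw [ev_smul, h2 i, mul_zero]
  exact congrArg Set.ncard h

theorem succ_le_MM (N d : ℕ) (hN : 1 ≤ N) : d + 1 ≤ MM N d := by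
  show d + 1 ≤ Fintype.card (E (N + 1) d)
  rw [card_E, Nat.choose_symm_add]
  have h1 : (1 + d).choose d ≤ (N + d).choose d := Nat.choose_le_choose d (by omega)
  have h2 : (1 + d).choose d = d + 1 := by
    rw [Nat.add_comm 1 d]
    exact Nat.choose_succ_self_right d
  omega

theorem lev (h1 : S_tup) (h2 : S_norm) (h3 : S_jpk) : S_lev := by
  classical
  intro N D m hN hD hm
  obtain ⟨c, C₂, hc⟩ := Pool.Agent.W32.GE.pts D
  refine ⟨m + 2 * D * (N + 1) * (c * (2 * m * (N + 1)) + 1), fun d hd => ?_⟩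
  have hmd : m ≤ d + 1 := by
    have : m ≤ m + 2 * D * (N + 1) * (c * (2 * m * (N + 1)) + 1) := Nat.le_add_right _ _
    omega
  obtain ⟨C₁, hC₁, hT⟩ := h1 N d m hm
  obtain ⟨C₃, hC₃, hJ⟩ := h3 N D m d hN hD hm hmd
  have hC₂ : 0 ≤ C₂ := by
    obtain ⟨A, hA, -⟩ := hc 1 le_rfl
    rw [one_pow, mul_one] at hA
    exact (Nat.cast_nonneg _).trans hA
  refine ⟨C₁ * C₃ ^ N * (C₂ * 2 ^ c) ^ (2 * m * (N + 1)) + 1, by positivity,
    fun H hH κ hκ => ?_⟩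
  have hH1 : (1 : ℝ) ≤ H := by exact_mod_cast hH
  have hH0 : (0 : ℝ) < H := by linarith
  -- the parameter Y
  let e : ℕ := 2 * D * (N + 1)
  have he : 1 ≤ e := by
    show 1 ≤ 2 * D * (N + 1)
    have : 0 < 2 * D * (N + 1) := by positivity
    omega
  let Y : ℝ := (2 : ℝ) ^ ((κ : ℝ) / e)
  have hYe : Y ^ e = 2 ^ κ := by
    show ((2 : ℝ) ^ ((κ : ℝ) / e)) ^ e = 2 ^ κ
    rw [← Real.rpow_natCast ((2 : ℝ) ^ ((κ : ℝ) / e)) e, ← Real.rpow_mul (by norm_num),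
      div_mul_cancel₀ _ (by positivity), Real.rpow_natCast]
  have hY1 : 1 ≤ Y := Real.one_le_rpow (by norm_num) (by positivity)
  have hYH : Y ≤ H := by
    refine le_trans ?_ hκ
    rw [← hYe]
    exact le_self_pow₀ hY1 (by omega)
  obtain ⟨A, hA1, hA⟩ := hc (2 ^ (κ + 1)) (one_le_pow₀ (by norm_num))
  let R : ℝ := C₃ * (H : ℝ) ^ (MM N d - m) / Y ^ (d + 1 - m)
  have hR0 : 0 ≤ R := by positivity
  have hmain : cnt N d H (fun F => ∃ z : Fin m → Fin (N + 1) → ℂ, Sep z ∧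
      (∀ i, Rep (N + 1) D
        (fun K _ _ P => mulHeight P ≤ 2 ^ (κ + 1) ∧ mulHeight (fm F K P) ≤ 2 ^ (κ + 1)) (z i)) ∧
      ∃ i, Rep (N + 1) D (fun _ _ _ P => (2 : ℝ) ^ κ ≤ mulHeight P) (z i)) ≤
      ({F : Sy N d | F ∈ Fb (N + 1) d H ∧ ∃ z w : Fin m → Fin (N + 1) → ℂ, (∀ i j, z i j ∈ A) ∧
      (∀ i j, w i j ∈ A) ∧ (∀ i, w i ≠ 0) ∧ (nzj z d (2 * H) : ℝ) ≤ R ∧ Cf z w F}.ncard : ℝ) := by
    unfold cnt
    have hsub : {F : Sy N d | F ∈ Fb (N + 1) d H ∧ NoZero F ∧ ∃ z : Fin m → Fin (N + 1) → ℂ,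
      Sep z ∧ (∀ i, Rep (N + 1) D
        (fun K _ _ P => mulHeight P ≤ 2 ^ (κ + 1) ∧ mulHeight (fm F K P) ≤ 2 ^ (κ + 1)) (z i)) ∧
      ∃ i, Rep (N + 1) D (fun _ _ _ P => (2 : ℝ) ^ κ ≤ mulHeight P) (z i)} ⊆
      {F : Sy N d | F ∈ Fb (N + 1) d H ∧ ∃ z w : Fin m → Fin (N + 1) → ℂ, (∀ i j, z i j ∈ A) ∧
      (∀ i j, w i j ∈ A) ∧ (∀ i, w i ≠ 0) ∧ (nzj z d (2 * H) : ℝ) ≤ R ∧ Cf z w F} := by
      rintro F ⟨hF, hF0, z, hz, hrep, hbig⟩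
      obtain ⟨b, w, hb, hbz, hw, hw0, hcf⟩ := h2 N D d m (2 ^ (κ + 1)) A hA F hF0 z hrep
      refine ⟨hF, fun i j => b i * z i j, w, hbz, hw, hw0, ?_, hcf⟩
      rw [nzj_scale z b hb]
      have h4 := hJ H hH Y hY1 hYH z hz (fun i => by
        obtain ⟨K, i1, i2, φ, P, hK, hP, -, hzi⟩ := hrep i
        exact ⟨K, i1, i2, φ, P, hK, hP, trivial, hzi⟩) (by
        obtain ⟨i, K, i1, i2, φ, P, hK, hP, hh, hzi⟩ := hbig
        refine ⟨i, K, i1, i2, φ, P, hK, hP, ?_, hzi⟩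
        show Y ^ e ≤ mulHeight P
        rw [hYe]
        exact hh)
      show (nzj z d (2 * H) : ℝ) ≤ C₃ * (H : ℝ) ^ (MM N d - m) / Y ^ (d + 1 - m)
      rw [le_div_iff₀ (by positivity)]
      exact h4
    exact_mod_cast Set.ncard_le_ncard hsub
      ((Finset.finite_toSet (Fb (N + 1) d H)).subset fun _ h => h.1)
  refine hmain.trans ((hT H hH A R hR0).trans ?_)
  -- the numbers
  have hMM := succ_le_MM N d hN
  have eQ : (H : ℝ) ^ (QQ N d - m * N) = (H : ℝ) ^ (MM N d) * ((H : ℝ) ^ (MM N d - m)) ^ N := by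
    rw [← pow_mul, ← pow_add]
    congr 1
    show (N + 1) * MM N d - m * N = MM N d + (MM N d - m) * N
    obtain ⟨M', hM'⟩ : ∃ M', MM N d = M' + m := ⟨MM N d - m, by omega⟩
    rw [hM', Nat.add_sub_cancel]
    have : (N + 1) * (M' + m) = (M' + m) + M' * N + m * N := by ring
    omega
  have hu : (1 : ℝ) ≤ 2 ^ κ := one_le_pow₀ (by norm_num)
  have hYN : (2 ^ κ : ℝ) ^ (c * (2 * m * (N + 1)) + 1) ≤ (Y ^ (d + 1 - m)) ^ N := by
    rw [← hYe, ← pow_mul, ← pow_mul]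
    apply pow_le_pow_right₀ hY1
    have h5 : e * (c * (2 * m * (N + 1)) + 1) ≤ d + 1 - m := by
      show 2 * D * (N + 1) * (c * (2 * m * (N + 1)) + 1) ≤ d + 1 - m
      omega
    calc e * (c * (2 * m * (N + 1)) + 1) ≤ (d + 1 - m) * 1 := by rw [mul_one]; exact h5
      _ ≤ (d + 1 - m) * N := Nat.mul_le_mul_left _ hN
  have hAk : (A.card : ℝ) ^ (2 * m * (N + 1)) ≤
      (C₂ * 2 ^ c) ^ (2 * m * (N + 1)) * (2 ^ κ : ℝ) ^ (c * (2 * m * (N + 1))) := by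
    calc (A.card : ℝ) ^ (2 * m * (N + 1)) ≤ (C₂ * (2 ^ (κ + 1)) ^ c) ^ (2 * m * (N + 1)) := by
          gcongr
      _ = _ := by
          have e1 : C₂ * (2 ^ (κ + 1)) ^ c = (C₂ * 2 ^ c) * ((2 : ℝ) ^ κ) ^ c := by
            rw [pow_succ, mul_pow]; ring
          rw [e1, mul_pow (C₂ * 2 ^ c), ← pow_mul]
  have hRN : R ^ N = C₃ ^ N * ((H : ℝ) ^ (MM N d - m)) ^ N / (Y ^ (d + 1 - m)) ^ N := by
    show (C₃ * (H : ℝ) ^ (MM N d - m) / Y ^ (d + 1 - m)) ^ N = _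
    rw [div_pow, mul_pow]
  have hhalf : (1 / 2 : ℝ) ^ κ = 1 / 2 ^ κ := by rw [one_div_pow]
  have hRN2 : R ^ N ≤ C₃ ^ N * ((H : ℝ) ^ (MM N d - m)) ^ N /
      (2 ^ κ : ℝ) ^ (c * (2 * m * (N + 1)) + 1) := by
    rw [hRN]
    gcongr
  calc C₁ * (H : ℝ) ^ MM N d * R ^ N * (A.card : ℝ) ^ (2 * m * (N + 1))
      ≤ C₁ * (H : ℝ) ^ MM N d * (C₃ ^ N * ((H : ℝ) ^ (MM N d - m)) ^ N /
          (2 ^ κ : ℝ) ^ (c * (2 * m * (N + 1)) + 1)) *
          ((C₂ * 2 ^ c) ^ (2 * m * (N + 1)) * (2 ^ κ : ℝ) ^ (c * (2 * m * (N + 1)))) := by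
        gcongr
    _ = (C₁ * C₃ ^ N * (C₂ * 2 ^ c) ^ (2 * m * (N + 1))) *
          (H : ℝ) ^ (QQ N d - m * N) * (1 / 2) ^ κ := by
        rw [eQ, hhalf, pow_succ ((2 : ℝ) ^ κ)]
        field_simp
    _ ≤ _ := by
        have h6 : (0 : ℝ) ≤ (H : ℝ) ^ (QQ N d - m * N) := by positivity
        have h7 : (0 : ℝ) ≤ (1 / 2 : ℝ) ^ κ := by positivity
        apply mul_le_mul_of_nonneg_right _ h7
        apply mul_le_mul_of_nonneg_right _ h6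
        linarith

end Pool.Agent.Q96.MP
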