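import Pool.Agent.Q96.MP_Base

/-!
# Job PPC (project MP of helper256)
-/

set_option autoImplicit false

open Height NumberField

noncomputable section

namespace Pool.Agent.Q96.MP

open Pool.Agent.W276.GE Pool.Agent.Q256.MP

theorem sep_update {m n : ℕ} (hm : 1 ≤ m) {z : Fin m → Fin n → ℂ} (hz : Sep z) {w : Fin n → ℂ}
    (hw : w ≠ 0) : ∃ i₀ : Fin m, Sep (Function.update z i₀ w) := by
  classical
  have key : ∃ i₀ : Fin m, ∀ j, j ≠ i₀ → ∀ c : ℂ, w ≠ c • z j ∧ z j ≠ c • w := by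
    by_cases h : ∃ i, ∃ c : ℂ, w = c • z i
    · obtain ⟨i, c, hc⟩ := h
      have hc0 : c ≠ 0 := by
        rintro rfl
        rw [zero_smul] at hc
        exact hw hc
      refine ⟨i, fun j hj c' => ⟨fun h1 => ?_, fun h1 => ?_⟩⟩
      · apply hz.2 i j (fun h => hj h.symm) (c⁻¹ * c')
        rw [mul_smul, ← h1, hc, smul_smul, inv_mul_cancel₀ hc0, one_smul]
      · apply hz.2 j i hj (c' * c)
        rw [mul_smul, ← hc, h1]
    · push Not at h
      refine ⟨⟨0, by omega⟩, fun j _ c => ⟨h j c, fun h1 => ?_⟩⟩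
      have hc0 : c ≠ 0 := by
        rintro rfl
        rw [zero_smul] at h1
        exact hz.1 j h1
      apply h j c⁻¹
      rw [h1, smul_smul, inv_mul_cancel₀ hc0, one_smul]
  obtain ⟨i₀, hi₀⟩ := key
  refine ⟨i₀, fun i => ?_, fun i j hij c => ?_⟩
  · by_cases h : i = i₀
    · subst h
      rwa [Function.update_self]
    · rw [Function.update_of_ne h]
      exact hz.1 i
  · by_cases h : i = i₀
    · subst h
      rw [Function.update_self, Function.update_of_ne (fun h => hij h.symm)]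
      exact (hi₀ j (fun h => hij h.symm) c).1
    · rw [Function.update_of_ne h]
      by_cases h' : j = i₀
      · subst h'
        rw [Function.update_self]
        exact (hi₀ i h c).2
      · rw [Function.update_of_ne h']
        exact hz.2 i j hij c

theorem ppc (h1 : S_tail) (h2 : S_lev) : S_ppc := by
  classical
  intro N D m hN hD hm
  obtain ⟨d1, hd1⟩ := h1 N D 1 (m * N) hN hD le_rfl
  obtain ⟨d2, hd2⟩ := h2 N D m hN hD hm
  refine ⟨max d1 d2, fun d hd => ?_⟩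
  obtain ⟨C1, hC1, hT⟩ := hd1 d ((le_max_left _ _).trans hd)
  obtain ⟨C2, hC2, hL⟩ := hd2 d ((le_max_right _ _).trans hd)
  refine ⟨C1 + 2 * C2, by positivity, fun H hH => ?_⟩
  have hH1 : (1 : ℝ) ≤ H := by exact_mod_cast hH
  let κ₀ : ℕ := Nat.clog 2 H
  have hκ₀ : (H : ℝ) ≤ 2 ^ κ₀ := by
    have := Nat.le_pow_clog (b := 2) (by norm_num) H
    exact_mod_cast this
  have hκlt : ∀ κ < κ₀, (2 : ℝ) ^ κ ≤ H := by
    intro κ hκ
    have := Nat.pow_lt_of_lt_clog (b := 2) (x := H) (y := κ) hκ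
    exact_mod_cast this.le
  have hmain : cnt N d H (fun F => Many (N + 1) D m (fun K _ _ P => Pp F K P)) ≤
      cnt N d H (Tl D 1 κ₀) + ∑ κ ∈ Finset.range κ₀,
        cnt N d H (fun F => ∃ z : Fin m → Fin (N + 1) → ℂ, Sep z ∧
      (∀ i, Rep (N + 1) D
        (fun K _ _ P => mulHeight P ≤ 2 ^ (κ + 1) ∧ mulHeight (fm F K P) ≤ 2 ^ (κ + 1)) (z i)) ∧
      ∃ i, Rep (N + 1) D (fun _ _ _ P => (2 : ℝ) ^ κ ≤ mulHeight P) (z i)) := by
    refine (cnt_or (Ψ := Tl D 1 κ₀) (Θ := fun F => ¬ Tl D 1 κ₀ F ∧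
      Many (N + 1) D m (fun K _ _ P => Pp F K P)) ?_).trans ?_
    · intro F _ _ h
      by_cases hh : Tl D 1 κ₀ F
      · exact Or.inl hh
      · exact Or.inr ⟨hh, h⟩
    · gcongr
      apply cnt_ex (fun κ F => ∃ z : Fin m → Fin (N + 1) → ℂ, Sep z ∧
        (∀ i, Rep (N + 1) D
          (fun K _ _ P => mulHeight P ≤ 2 ^ (κ + 1) ∧ mulHeight (fm F K P) ≤ 2 ^ (κ + 1)) (z i)) ∧
        ∃ i, Rep (N + 1) D (fun _ _ _ P => (2 : ℝ) ^ κ ≤ mulHeight P) (z i))
      rintro F - hF ⟨hnT, z, hz, hrep⟩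
      let S : ℕ → Prop := fun κ => ∃ (K : Type) (_ : Field K) (_ : NumberField K),
        Module.finrank ℚ K ≤ D ∧ ∃ P : Fin (N + 1) → K, P ≠ 0 ∧ Pp F K P ∧
          (2 : ℝ) ^ κ ≤ mulHeight P
      have hSb : ∀ κ, S κ → κ < κ₀ := by
        rintro κ ⟨K, i1, i2, hK, P, hP, hpp, hk⟩
        have h3 := pp_height hF hnT hK hP hpp
        have h4 : (2 : ℝ) ^ κ < 2 ^ κ₀ := hk.trans_lt h3
        exact (pow_lt_pow_iff_right₀ (by norm_num)).1 h4
      have hS0 : S 0 := by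
        obtain ⟨K, i1, i2, φ, P, hK, hP, hpp, -⟩ := hrep ⟨0, by omega⟩
        exact ⟨K, i1, i2, hK, P, hP, hpp, by rw [pow_zero]; exact one_le_mulHeight P⟩
      -- the largest element
      obtain ⟨κ, hκS, hκmax⟩ : ∃ κ, S κ ∧ ∀ κ', S κ' → κ' ≤ κ := by
        refine ⟨Nat.findGreatest S κ₀, Nat.findGreatest_spec (Nat.zero_le _) hS0, ?_⟩
        intro κ' h'
        exact Nat.le_findGreatest (hSb κ' h').le h'
      have hlt : ∀ (K : Type) [Field K] [NumberField K], Module.finrank ℚ K ≤ D →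
          ∀ P : Fin (N + 1) → K, P ≠ 0 → Pp F K P → mulHeight P ≤ 2 ^ (κ + 1) := by
        intro K i1 i2 hK P hP hpp
        by_contra hcon
        push Not at hcon
        have := hκmax (κ + 1) ⟨K, i1, i2, hK, P, hP, hpp, hcon.le⟩
        omega
      obtain ⟨K, i1, i2, hK, P, hP, hpp, hk⟩ := hκS
      refine ⟨κ, hSb κ ⟨K, i1, i2, hK, P, hP, hpp, hk⟩, ?_⟩
      let φ : K →+* ℂ := Classical.arbitrary _
      have hw : (fun i => φ (P i)) ≠ 0 := by
        intro h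
        apply hP
        funext i
        have := congrFun h i
        simpa using this
      obtain ⟨i₀, hi₀⟩ := sep_update hm hz hw
      refine ⟨_, hi₀, fun i => ?_, i₀, ?_⟩
      · by_cases hi : i = i₀
        · subst hi
          rw [Function.update_self]
          exact ⟨K, i1, i2, φ, P, hK, hP, ⟨hlt K hK P hP hpp,
            hlt K hK _ (fm_ne hF hP) (pp_image hpp)⟩, rfl⟩
        · rw [Function.update_of_ne hi]
          obtain ⟨K', i1', i2', φ', P', hK', hP', hpp', hz'⟩ := hrep i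
          exact ⟨K', i1', i2', φ', P', hK', hP', ⟨hlt K' hK' P' hP' hpp',
            hlt K' hK' _ (fm_ne hF hP') (pp_image hpp')⟩, hz'⟩
      · rw [Function.update_self]
        exact ⟨K, i1, i2, φ, P, hK, hP, hk, rfl⟩
  refine hmain.trans ?_
  have hH0 : (0 : ℝ) ≤ (H : ℝ) ^ (QQ N d - m * N) := by positivity
  have e1 : cnt N d H (Tl D 1 κ₀) ≤ C1 * (H : ℝ) ^ (QQ N d - m * N) := by
    refine (hT H hH κ₀).trans ?_
    rw [mul_assoc]
    apply mul_le_mul_of_nonneg_left _ hC1.le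
    have h5 : (1 / 2 : ℝ) ^ (m * N * κ₀) = 1 / (2 ^ κ₀) ^ (m * N) := by
      rw [one_div_pow, ← pow_mul, mul_comm κ₀]
    rw [h5, mul_one_div, div_le_iff₀ (by positivity)]
    calc (H : ℝ) ^ (QQ N d - N) ≤ (H : ℝ) ^ ((QQ N d - m * N) + m * N) :=
          pow_le_pow_right₀ hH1 (by omega)
      _ = (H : ℝ) ^ (QQ N d - m * N) * (H : ℝ) ^ (m * N) := pow_add _ _ _
      _ ≤ _ := by gcongr
  have e2 : ∑ κ ∈ Finset.range κ₀,
        cnt N d H (fun F => ∃ z : Fin m → Fin (N + 1) → ℂ, Sep z ∧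
      (∀ i, Rep (N + 1) D
        (fun K _ _ P => mulHeight P ≤ 2 ^ (κ + 1) ∧ mulHeight (fm F K P) ≤ 2 ^ (κ + 1)) (z i)) ∧
      ∃ i, Rep (N + 1) D (fun _ _ _ P => (2 : ℝ) ^ κ ≤ mulHeight P) (z i)) ≤
      2 * C2 * (H : ℝ) ^ (QQ N d - m * N) := by
    calc _ ≤ ∑ κ ∈ Finset.range κ₀, C2 * (H : ℝ) ^ (QQ N d - m * N) * (1 / 2) ^ κ :=
          Finset.sum_le_sum fun κ hκ => hL H hH κ (hκlt κ (Finset.mem_range.1 hκ))
      _ = C2 * (H : ℝ) ^ (QQ N d - m * N) * ∑ κ ∈ Finset.range κ₀, (1 / 2 : ℝ) ^ κ := by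
          rw [Finset.mul_sum]
      _ ≤ C2 * (H : ℝ) ^ (QQ N d - m * N) * 2 := by
          apply mul_le_mul_of_nonneg_left _ (by positivity)
          have h5 := summable_geometric_two.sum_le_tsum (Finset.range κ₀)
            (fun i _ => by positivity)
          rwa [tsum_geometric_two] at h5
      _ = _ := by ring
  linarith

end Pool.Agent.Q96.MP
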