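import Mathlib

/-!
# Rotation averages of entire functions on `ℂⁿ` and sub-mean-value properties
-/

set_option autoImplicit false

open MeasureTheory Set Filter Topology ENNReal

namespace Q96.FockMean

/-- the space `ℂⁿ` -/
abbrev E (n : ℕ) : Type := EuclideanSpace ℂ (Fin n)

variable {n : ℕ}

/-- multiplication with a unimodular number as a real linear isometry -/
noncomputable def rot (a : ℂ) (ha : ‖a‖ = 1) : E n ≃ₗᵢ[ℝ] E n where
  toLinearEquiv := (LinearEquiv.smulOfNeZero ℂ (E n) a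
    (by intro h; rw [h] at ha; simp at ha)).restrictScalars ℝ
  norm_map' := fun x => by
    simp [norm_smul, ha]

lemma rot_apply (a : ℂ) (ha : ‖a‖ = 1) (x : E n) : rot a ha x = a • x := rfl

lemma measurePreserving_rot (a : ℂ) (ha : ‖a‖ = 1) :
    MeasurePreserving (fun x : E n => a • x) volume volume :=
  (rot a ha).measurePreserving

lemma lintegral_rot (a : ℂ) (ha : ‖a‖ = 1) (F : E n → ℝ≥0∞) (hF : Measurable F) :
    ∫⁻ x : E n, F (a • x) = ∫⁻ x : E n, F x :=
  (measurePreserving_rot a ha).lintegral_comp hF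

/-- the mean value inequality on the unit circle -/
lemma circle_mean (g : ℂ → ℂ) (hg : Differentiable ℂ g) :
    ENNReal.ofReal (2 * Real.pi) * ‖g 0‖ₑ ≤
      ∫⁻ θ in Ioc 0 (2 * Real.pi), ‖g (circleMap 0 1 θ)‖ₑ := by
  have h1 : Real.circleAverage g 0 1 = g 0 := by
    apply DiffContOnCl.circleAverage
    exact hg.diffContOnCl
  have h2 : (2 * Real.pi) • g 0 = ∫ θ in Ioc 0 (2 * Real.pi), g (circleMap 0 1 θ) := by
    rw [← h1, Real.circleAverage, smul_smul, mul_inv_cancel₀ (by positivity), one_smul,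
      intervalIntegral.integral_of_le (by positivity)]
  calc ENNReal.ofReal (2 * Real.pi) * ‖g 0‖ₑ = ‖(2 * Real.pi) • g 0‖ₑ := by
        rw [enorm_smul, Real.enorm_of_nonneg (by positivity)]
    _ = ‖∫ θ in Ioc 0 (2 * Real.pi), g (circleMap 0 1 θ)‖ₑ := by rw [h2]
    _ ≤ _ := enorm_integral_le_lintegral_enorm _

/-- the Cauchy inequality on the unit circle -/
lemma circle_deriv (g : ℂ → ℂ) (hg : Differentiable ℂ g) :
    ENNReal.ofReal (2 * Real.pi) * ‖deriv g 0‖ₑ ≤
      ∫⁻ θ in Ioc 0 (2 * Real.pi), ‖g (circleMap 0 1 θ)‖ₑ := by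
  have h1 := Complex.two_pi_I_inv_smul_circleIntegral_sub_sq_inv_smul_of_differentiable
    (isOpen_univ : IsOpen (univ : Set ℂ)) (subset_univ (Metric.closedBall (0 : ℂ) 1))
    hg.differentiableOn (w₀ := 0) (by simp)
  have h2 : (2 * Real.pi * Complex.I : ℂ) • deriv g 0 =
      ∮ z in C(0, 1), ((z - 0) ^ 2)⁻¹ • g z := by
    rw [← h1, smul_smul, mul_inv_cancel₀ (by simp [Real.pi_ne_zero, Complex.I_ne_zero]), one_smul]
  calc ENNReal.ofReal (2 * Real.pi) * ‖deriv g 0‖ₑ =
        ‖(2 * Real.pi * Complex.I : ℂ) • deriv g 0‖ₑ := by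
        rw [enorm_smul]
        congr 1
        rw [← ofReal_norm]
        congr 1
        simp [abs_of_pos Real.pi_pos]
    _ = ‖∫ θ in Ioc 0 (2 * Real.pi), deriv (circleMap 0 1) θ •
          ((circleMap 0 1 θ - 0) ^ 2)⁻¹ • g (circleMap 0 1 θ)‖ₑ := by
        rw [h2, circleIntegral, intervalIntegral.integral_of_le (by positivity)]
    _ ≤ ∫⁻ θ in Ioc 0 (2 * Real.pi), ‖deriv (circleMap 0 1) θ •
          ((circleMap 0 1 θ - 0) ^ 2)⁻¹ • g (circleMap 0 1 θ)‖ₑ :=
        enorm_integral_le_lintegral_enorm _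
    _ = _ := by
        apply lintegral_congr
        intro θ
        rw [enorm_smul, enorm_smul]
        have h3 : ‖deriv (circleMap 0 1) θ‖ₑ = 1 := by
          rw [← ofReal_norm]
          simp
        have h4 : ‖((circleMap 0 1 θ - 0) ^ 2)⁻¹‖ₑ = 1 := by
          rw [← ofReal_norm]
          simp
        rw [h3, h4, one_mul, one_mul]

/-- averaging over the rotations -/
lemma rot_avg (W : E n → ℝ≥0∞) (hW : Measurable W)
    (hWr : ∀ a : ℂ, ‖a‖ = 1 → ∀ x, W (a • x) = W x) (G : E n → ℂ) (hG : Continuous G)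
    (φ : E n → ℝ≥0∞) (hφ : ∀ s, ENNReal.ofReal (2 * Real.pi) * φ s ≤
      ∫⁻ θ in Ioc 0 (2 * Real.pi), ‖G (circleMap 0 1 θ • s)‖ₑ) :
    ∫⁻ s, φ s * W s ≤ ∫⁻ s, ‖G s‖ₑ * W s := by
  have hpi : ENNReal.ofReal (2 * Real.pi) ≠ 0 := by
    rw [Ne, ENNReal.ofReal_eq_zero, not_le]; positivity
  have hpi' : ENNReal.ofReal (2 * Real.pi) ≠ ∞ := ENNReal.ofReal_ne_top
  have hvol : (volume : Measure ℝ) (Ioc 0 (2 * Real.pi)) = ENNReal.ofReal (2 * Real.pi) := by
    rw [Real.volume_Ioc, sub_zero]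
  have hnorm : ∀ θ : ℝ, ‖circleMap 0 1 θ‖ = 1 := fun θ => by simp
  have h1 : ENNReal.ofReal (2 * Real.pi) * ∫⁻ s, ‖G s‖ₑ * W s =
      ∫⁻ θ in Ioc 0 (2 * Real.pi), ∫⁻ s, ‖G (circleMap 0 1 θ • s)‖ₑ * W s := by
    have h2 : ∀ θ : ℝ, ∫⁻ s, ‖G (circleMap 0 1 θ • s)‖ₑ * W s = ∫⁻ s, ‖G s‖ₑ * W s := by
      intro θ
      have := lintegral_rot (circleMap 0 1 θ) (hnorm θ) (fun s => ‖G s‖ₑ * W s)
        (hG.measurable.enorm.mul hW)
      rw [← this]
      apply lintegral_congr
      intro s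
      rw [hWr _ (hnorm θ)]
    simp_rw [h2]
    rw [lintegral_const, Measure.restrict_apply_univ, hvol, mul_comm]
  have h3 : ∫⁻ θ in Ioc 0 (2 * Real.pi), ∫⁻ s, ‖G (circleMap 0 1 θ • s)‖ₑ * W s =
      ∫⁻ s, ∫⁻ θ in Ioc 0 (2 * Real.pi), ‖G (circleMap 0 1 θ • s)‖ₑ * W s := by
    apply lintegral_lintegral_swap
    apply Measurable.aemeasurable
    apply Measurable.mul
    · apply Measurable.enorm
      apply Continuous.measurable
      apply hG.comp
      exact ((continuous_circleMap 0 1).comp continuous_fst).smul continuous_snd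
    · exact hW.comp measurable_snd
  have h4 : ENNReal.ofReal (2 * Real.pi) * ∫⁻ s, φ s * W s ≤
      ∫⁻ s, ∫⁻ θ in Ioc 0 (2 * Real.pi), ‖G (circleMap 0 1 θ • s)‖ₑ * W s := by
    rw [← lintegral_const_mul' _ _ hpi']
    apply lintegral_mono
    intro s
    simp only
    rw [lintegral_mul_const, ← mul_assoc]
    · gcongr
      exact hφ s
    · apply Measurable.enorm
      apply Continuous.measurable
      exact hG.comp ((continuous_circleMap 0 1).smul continuous_const)
  rw [← h3, ← h1] at h4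
  exact (ENNReal.mul_le_mul_iff_right hpi hpi').mp h4

/-- the sub-mean-value property for entire functions -/
lemma sub_mean (F : E n → ℂ) (hF : Differentiable ℂ F) (x : E n) (r : ℝ) :
    ‖F x‖ₑ * volume (Metric.ball (0 : E n) r) ≤ ∫⁻ y in Metric.ball x r, ‖F y‖ₑ := by
  have h1 := rot_avg ((Metric.ball (0 : E n) r).indicator 1)
    (measurable_one.indicator measurableSet_ball) (fun a ha y => by
      by_cases hy : y ∈ Metric.ball (0 : E n) r
      · rw [indicator_of_mem hy, indicator_of_mem]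
        · rfl
        · simpa [norm_smul, ha] using hy
      · rw [indicator_of_notMem hy, indicator_of_notMem]
        simpa [norm_smul, ha] using hy) (fun s => F (x + s)) (hF.continuous.comp (by fun_prop))
    (fun _ => ‖F x‖ₑ) (fun s => by
      have h2 := circle_mean (fun ζ => F (x + ζ • s)) (hF.comp (by fun_prop))
      simpa using h2)
  have h2 : ∫⁻ s, ‖F x‖ₑ * (Metric.ball (0 : E n) r).indicator 1 s =
      ‖F x‖ₑ * volume (Metric.ball (0 : E n) r) := by
    rw [lintegral_const_mul' _ _ enorm_ne_top, lintegral_indicator_one measurableSet_ball]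
  have h3 : ∫⁻ s, ‖F (x + s)‖ₑ * (Metric.ball (0 : E n) r).indicator 1 s =
      ∫⁻ y in Metric.ball x r, ‖F y‖ₑ := by
    have h4 : ∀ s, ‖F (x + s)‖ₑ * (Metric.ball (0 : E n) r).indicator 1 s =
        (Metric.ball x r).indicator (fun y => ‖F y‖ₑ) (x + s) := by
      intro s
      by_cases hs : s ∈ Metric.ball (0 : E n) r
      · rw [indicator_of_mem hs, indicator_of_mem]
        · simp
        · simpa using hs
      · rw [indicator_of_notMem hs, indicator_of_notMem]
        · simp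
        · simpa using hs
    simp_rw [h4]
    rw [lintegral_add_left_eq_self (fun y => (Metric.ball x r).indicator (fun y => ‖F y‖ₑ) y),
      lintegral_indicator measurableSet_ball]
  rw [h2, h3] at h1
  exact h1

end Q96.FockMean
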