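import Mathlib
import Pool.Agent.Q96.FockMean

/-!
# Sub-mean-value property of `|F|^p`, `0 < p < ∞`, for entire functions on `ℂⁿ`
-/

set_option autoImplicit false

open MeasureTheory Set Filter Topology ENNReal

namespace Q96.FockMean

variable {n : ℕ}

lemma rpow_le_aux {p a t : ℝ} (hp : 1 ≤ p) (ha : 0 < a) (ht : 0 ≤ t) :
    t ≤ a ^ (1 - p) * t ^ p + a := by
  rcases le_total t a with h | h
  · have : 0 ≤ a ^ (1 - p) * t ^ p := by positivity
    linarith
  · have ht' : 0 < t := lt_of_lt_of_le ha h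
    have h1 : t = t ^ (1 - p) * t ^ p := by
      rw [← Real.rpow_add ht']; simp
    have h2 : t ^ (1 - p) ≤ a ^ (1 - p) := Real.rpow_le_rpow_of_nonpos ha h (by linarith)
    have h3 : 0 ≤ t ^ p := by positivity
    calc t = t ^ (1 - p) * t ^ p := h1
      _ ≤ a ^ (1 - p) * t ^ p := mul_le_mul_of_nonneg_right h2 h3
      _ ≤ _ := by linarith

lemma enorm_rpow (w : ℂ) {p : ℝ} (hp : 0 ≤ p) : ‖w‖ₑ ^ p = ENNReal.ofReal (‖w‖ ^ p) := by
  rw [← ofReal_norm, ENNReal.ofReal_rpow_of_nonneg (norm_nonneg _) hp]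

lemma sub_mean_large {p : ℝ} (hp : 1 ≤ p) (F : E n → ℂ) (hF : Differentiable ℂ F) (x : E n) :
    ‖F x‖ₑ ^ p * (ENNReal.ofReal ((1 / 2) ^ p) * volume (Metric.ball (0 : E n) 1)) ≤
      ∫⁻ y in Metric.ball x 1, ‖F y‖ₑ ^ p := by
  have hV : volume (Metric.ball (0 : E n) 1) ≠ ∞ := measure_ball_lt_top.ne
  have hVx : volume (Metric.ball x 1) = volume (Metric.ball (0 : E n) 1) := by
    rw [Measure.addHaar_ball_center]
  rcases eq_or_lt_of_le (norm_nonneg (F x)) with h0 | h0
  · rw [← ofReal_norm, ← h0, ENNReal.ofReal_zero, ENNReal.zero_rpow_of_pos (by linarith), zero_mul]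
    exact zero_le
  set a : ℝ := ‖F x‖ / 2 with ha
  have ha0 : 0 < a := by positivity
  have h1 := sub_mean F hF x 1
  have h2 : ∫⁻ y in Metric.ball x 1, ‖F y‖ₑ ≤
      ENNReal.ofReal (a ^ (1 - p)) * (∫⁻ y in Metric.ball x 1, ‖F y‖ₑ ^ p) +
        ENNReal.ofReal a * volume (Metric.ball (0 : E n) 1) := by
    calc ∫⁻ y in Metric.ball x 1, ‖F y‖ₑ ≤ ∫⁻ y in Metric.ball x 1,
          (ENNReal.ofReal (a ^ (1 - p)) * ‖F y‖ₑ ^ p + ENNReal.ofReal a) := by
          apply lintegral_mono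
          intro y
          simp only
          rw [enorm_rpow _ (by linarith), ← ENNReal.ofReal_mul (by positivity),
            ← ENNReal.ofReal_add (by positivity) ha0.le, ← ofReal_norm]
          exact ENNReal.ofReal_le_ofReal (rpow_le_aux hp ha0 (norm_nonneg _))
      _ = _ := by
          rw [lintegral_add_right _ measurable_const, lintegral_const_mul' _ _ ENNReal.ofReal_ne_top,
            lintegral_const, Measure.restrict_apply_univ, hVx]
  have h3 : ‖F x‖ₑ = ENNReal.ofReal a + ENNReal.ofReal a := by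
    rw [← ofReal_norm, ← ENNReal.ofReal_add ha0.le ha0.le]
    congr 1
    rw [ha]; ring
  rw [h3, add_mul] at h1
  have h4 := h1.trans h2
  rw [add_comm (ENNReal.ofReal (a ^ (1 - p)) * _)] at h4
  have h5 := (ENNReal.add_le_add_iff_left (ENNReal.mul_ne_top ENNReal.ofReal_ne_top hV)).mp h4
  have h6 : ‖F x‖ₑ ^ p * ENNReal.ofReal ((1 / 2) ^ p) = ENNReal.ofReal (a ^ (p - 1)) *
      ENNReal.ofReal a := by
    rw [enorm_rpow _ (by linarith), ← ENNReal.ofReal_mul (by positivity),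
      ← ENNReal.ofReal_mul (by positivity)]
    congr 1
    rw [← Real.mul_rpow h0.le (by norm_num)]
    have : ‖F x‖ * (1 / 2) = a := by rw [ha]; ring
    rw [this, ← Real.rpow_add_one ha0.ne']
    congr 1
    ring
  rw [← mul_assoc, h6, mul_assoc]
  calc ENNReal.ofReal (a ^ (p - 1)) * (ENNReal.ofReal a * volume (Metric.ball (0 : E n) 1)) ≤
        ENNReal.ofReal (a ^ (p - 1)) * (ENNReal.ofReal (a ^ (1 - p)) *
          ∫⁻ y in Metric.ball x 1, ‖F y‖ₑ ^ p) := by gcongr
    _ = _ := by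
        rw [← mul_assoc, ← ENNReal.ofReal_mul (by positivity), ← Real.rpow_add ha0]
        simp

lemma sub_mean_small (hn : 1 ≤ n) {p : ℝ} (hp0 : 0 < p) (hp : p < 1) (F : E n → ℂ)
    (hF : Differentiable ℂ F) :
    ‖F 0‖ₑ ^ p * (ENNReal.ofReal ((1 / 2) ^ ((2 * n : ℕ) / p)) *
      volume (Metric.ball (0 : E n) 1)) ≤ ∫⁻ y in Metric.ball 0 1, ‖F y‖ₑ ^ p := by
  set d : ℕ := 2 * n with hd
  have hfin : Module.finrank ℝ (E n) = d := by
    rw [← Module.finrank_mul_finrank ℝ ℂ (E n)]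
    simp [hd]
  set q : ℝ := (d : ℝ) / p with hq
  have hd0 : (0 : ℝ) < d := by rw [hd]; push_cast; have : (1 : ℝ) ≤ n := by exact_mod_cast hn
                               linarith
  have hq0 : 0 < q := div_pos hd0 hp0
  have hqp : q * p = d := by rw [hq]; field_simp
  set Ψ : E n → ℝ := fun y => (1 - ‖y‖) ^ q * ‖F y‖ with hΨ
  have hΨc : ContinuousOn Ψ (Metric.closedBall 0 1) := by
    apply Continuous.continuousOn
    apply Continuous.mul
    · exact (Real.continuous_rpow_const hq0.le).comp (by fun_prop)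
    · exact hF.continuous.norm
  obtain ⟨x₀, hx₀, hmax⟩ := (isCompact_closedBall (0 : E n) 1).exists_isMaxOn
    ⟨0, by simp⟩ hΨc
  set M := Ψ x₀ with hM
  have h0M : ‖F 0‖ ≤ M := by
    have := hmax (show (0 : E n) ∈ Metric.closedBall 0 1 by simp)
    simpa [hΨ] using this
  rcases eq_or_lt_of_le (norm_nonneg (F 0)) with h0 | h0
  · rw [← ofReal_norm, ← h0, ENNReal.ofReal_zero, ENNReal.zero_rpow_of_pos hp0, zero_mul]
    exact zero_le
  have hM0 : 0 < M := lt_of_lt_of_le h0 h0M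
  have hx₀' : ‖x₀‖ ≤ 1 := by simpa using hx₀
  have hlt : ‖x₀‖ < 1 := by
    rcases eq_or_lt_of_le hx₀' with h | h
    · exfalso
      have : M = 0 := by
        rw [hM, hΨ]
        simp [h, hq0.ne']
      linarith
    · exact h
  set r : ℝ := (1 - ‖x₀‖) / 2 with hr
  have hr0 : 0 < r := by rw [hr]; linarith
  have hball : Metric.ball x₀ r ⊆ Metric.ball 0 1 := by
    intro y hy
    rw [mem_ball_zero_iff]
    rw [Metric.mem_ball, dist_eq_norm_sub] at hy
    have h1 : ‖y‖ ≤ ‖y - x₀‖ + ‖x₀‖ := by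
      have := norm_add_le (y - x₀) x₀
      rwa [sub_add_cancel] at this
    rw [hr] at hy
    linarith
  have hyb : ∀ y ∈ Metric.ball x₀ r, ‖F y‖ ≤ M * r ^ (-q) := by
    intro y hy
    have hy1 := hball hy
    rw [mem_ball_zero_iff] at hy1
    have h2 : r ≤ 1 - ‖y‖ := by
      rw [Metric.mem_ball, dist_eq_norm_sub] at hy
      have h1 : ‖y‖ ≤ ‖y - x₀‖ + ‖x₀‖ := by
        have := norm_add_le (y - x₀) x₀
        rwa [sub_add_cancel] at this
      rw [hr] at hy ⊢
      linarith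
    have h3 : Ψ y ≤ M := hmax (show y ∈ Metric.closedBall 0 1 by
      rw [mem_closedBall_zero_iff]; exact hy1.le)
    have h4 : r ^ q ≤ (1 - ‖y‖) ^ q := Real.rpow_le_rpow hr0.le h2 hq0.le
    have h5 : r ^ q * ‖F y‖ ≤ M := le_trans (mul_le_mul_of_nonneg_right h4 (norm_nonneg _)) h3
    rw [Real.rpow_neg hr0.le]
    have h6 : 0 < r ^ q := by positivity
    rw [← div_eq_mul_inv, le_div_iff₀ h6, mul_comm]
    exact h5
  have h1 := sub_mean F hF x₀ r
  have h2 : ∫⁻ y in Metric.ball x₀ r, ‖F y‖ₑ ≤ ENNReal.ofReal ((M * r ^ (-q)) ^ (1 - p)) *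
      ∫⁻ y in Metric.ball 0 1, ‖F y‖ₑ ^ p := by
    rw [← lintegral_const_mul' _ _ ENNReal.ofReal_ne_top]
    refine le_trans ?_ (lintegral_mono_set hball)
    apply setLIntegral_mono' measurableSet_ball
    intro y hy
    rw [enorm_rpow _ hp0.le, ← ENNReal.ofReal_mul (by positivity), ← ofReal_norm]
    apply ENNReal.ofReal_le_ofReal
    rcases eq_or_lt_of_le (norm_nonneg (F y)) with hz | hz
    · rw [← hz]; positivity
    · calc ‖F y‖ = ‖F y‖ ^ (1 - p) * ‖F y‖ ^ p := by
            rw [← Real.rpow_add hz]; simp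
        _ ≤ (M * r ^ (-q)) ^ (1 - p) * ‖F y‖ ^ p := by
            apply mul_le_mul_of_nonneg_right _ (by positivity)
            exact Real.rpow_le_rpow hz.le (hyb y hy) (by linarith)
  have h3 : ‖F x₀‖ = M * (2 * r) ^ (-q) := by
    have h4 : 2 * r = 1 - ‖x₀‖ := by rw [hr]; ring
    rw [h4, Real.rpow_neg (by linarith), hM, hΨ]
    have h5 : (1 - ‖x₀‖) ^ q ≠ 0 := (Real.rpow_pos_of_pos (by linarith) q).ne'
    simp only
    rw [mul_comm ((1 - ‖x₀‖) ^ q), mul_assoc, mul_inv_cancel₀ h5, mul_one]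
  have h4 : volume (Metric.ball (0 : E n) r) = ENNReal.ofReal (r ^ d) *
      volume (Metric.ball (0 : E n) 1) := by
    rw [Measure.addHaar_ball_of_pos _ _ hr0, hfin]
  rw [h4, ← ofReal_norm, h3, ← mul_assoc, ← ENNReal.ofReal_mul (by positivity)] at h1
  have h5 := h1.trans h2
  set I := ∫⁻ y in Metric.ball 0 1, ‖F y‖ₑ ^ p with hI
  set V := volume (Metric.ball (0 : E n) 1) with hV
  -- multiply with a suitable constant
  set κ : ℝ := M ^ (p - 1) * r ^ (q * (1 - p)) with hκ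
  have hκ0 : 0 < κ := by positivity
  have e1 : κ * (M * (2 * r) ^ (-q) * r ^ d) = M ^ p * (1 / 2) ^ q := by
    rw [hκ, Real.mul_rpow (by norm_num) hr0.le]
    have f1 : M ^ p = M ^ (p - 1) * M := by
      rw [← Real.rpow_add_one hM0.ne']; congr 1; ring
    have f2 : ((1 / 2 : ℝ)) ^ q = 2 ^ (-q) := by
      rw [one_div, Real.inv_rpow (by norm_num), Real.rpow_neg (by norm_num)]
    have f3 : r ^ (q * (1 - p)) * r ^ (-q) * r ^ d = 1 := by
      rw [← Real.rpow_natCast r d, ← Real.rpow_add hr0, ← Real.rpow_add hr0]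
      have : q * (1 - p) + -q + (d : ℝ) = 0 := by rw [← hqp]; ring
      rw [this, Real.rpow_zero]
    rw [f1, f2]
    calc M ^ (p - 1) * r ^ (q * (1 - p)) * (M * (2 ^ (-q) * r ^ (-q)) * r ^ d) =
        M ^ (p - 1) * M * 2 ^ (-q) * (r ^ (q * (1 - p)) * r ^ (-q) * r ^ d) := by ring
      _ = _ := by rw [f3, mul_one]
  have e2 : κ * (M * r ^ (-q)) ^ (1 - p) = 1 := by
    rw [hκ, Real.mul_rpow hM0.le (by positivity), ← Real.rpow_mul hr0.le]
    have f1 : M ^ (p - 1) * M ^ (1 - p) = 1 := by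
      rw [← Real.rpow_add hM0]; simp
    have f2 : r ^ (q * (1 - p)) * r ^ (-q * (1 - p)) = 1 := by
      rw [← Real.rpow_add hr0]
      have : q * (1 - p) + -q * (1 - p) = 0 := by ring
      rw [this, Real.rpow_zero]
    calc M ^ (p - 1) * r ^ (q * (1 - p)) * (M ^ (1 - p) * r ^ (-q * (1 - p))) =
        (M ^ (p - 1) * M ^ (1 - p)) * (r ^ (q * (1 - p)) * r ^ (-q * (1 - p))) := by ring
      _ = 1 := by rw [f1, f2, one_mul]
  have h6 : ENNReal.ofReal κ * (ENNReal.ofReal (M * (2 * r) ^ (-q) * r ^ d) * V) ≤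
      ENNReal.ofReal κ * (ENNReal.ofReal ((M * r ^ (-q)) ^ (1 - p)) * I) := by gcongr
  rw [← mul_assoc, ← ENNReal.ofReal_mul hκ0.le, e1, ← mul_assoc, ← ENNReal.ofReal_mul hκ0.le, e2,
    ENNReal.ofReal_one, one_mul] at h6
  refine le_trans ?_ h6
  rw [enorm_rpow _ hp0.le, ← mul_assoc, ← ENNReal.ofReal_mul (by positivity)]
  gcongr

/-- **Sub-mean-value property** of `|F|^p` for all `0 < p < ∞` -/
theorem sub_mean_rpow (hn : 1 ≤ n) {p : ℝ} (hp : 0 < p) :
    ∃ c : ℝ, 0 < c ∧ ∀ (F : E n → ℂ), Differentiable ℂ F → ∀ x : E n,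
      ENNReal.ofReal (c * ‖F x‖ ^ p) ≤ ∫⁻ y in Metric.ball x 1, ENNReal.ofReal (‖F y‖ ^ p) := by
  have hV0 : 0 < volume (Metric.ball (0 : E n) 1) := Metric.measure_ball_pos _ _ one_pos
  have hV : volume (Metric.ball (0 : E n) 1) ≠ ∞ := measure_ball_lt_top.ne
  set V : ℝ := (volume (Metric.ball (0 : E n) 1)).toReal with hVdef
  have hVpos : 0 < V := ENNReal.toReal_pos hV0.ne' hV
  have hVe : volume (Metric.ball (0 : E n) 1) = ENNReal.ofReal V := (ENNReal.ofReal_toReal hV).symm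
  rcases le_or_gt 1 p with h1 | h1
  · refine ⟨(1 / 2) ^ p * V, by positivity, fun F hF x => ?_⟩
    have := sub_mean_large h1 F hF x
    simp_rw [enorm_rpow _ hp.le] at this
    rw [hVe, ← ENNReal.ofReal_mul (by positivity), ← ENNReal.ofReal_mul (by positivity)] at this
    rwa [mul_comm]
  · refine ⟨(1 / 2) ^ ((2 * n : ℕ) / p) * V, by positivity, fun F hF x => ?_⟩
    have := sub_mean_small hn hp h1 (fun y => F (x + y)) (hF.comp (by fun_prop))
    simp_rw [enorm_rpow _ hp.le] at this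
    rw [hVe, ← ENNReal.ofReal_mul (by positivity), ← ENNReal.ofReal_mul (by positivity)] at this
    simp only [add_zero] at this
    rw [mul_comm]
    refine le_trans this (le_of_eq ?_)
    rw [← lintegral_indicator measurableSet_ball, ← lintegral_indicator measurableSet_ball,
      ← lintegral_add_left_eq_self ((Metric.ball x 1).indicator fun y =>
        ENNReal.ofReal (‖F y‖ ^ p)) x]
    apply lintegral_congr
    intro y
    by_cases hy : y ∈ Metric.ball (0 : E n) 1
    · rw [indicator_of_mem hy, indicator_of_mem]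
      simpa using hy
    · rw [indicator_of_notMem hy, indicator_of_notMem]
      simpa using hy

end Q96.FockMean
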