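import Mathlib

/-!
# Stationary generalized Bratteli diagrams: path space, tail-invariant measures

Definitions, and the construction of a measure from a positive harmonic sequence.
-/

set_option autoImplicit false

open MeasureTheory Filter Topology
open scoped ENNReal

namespace Q96.Bratteli

universe u

variable {V : Type u}

/-- `F` (with `F v w` the number of edges from `w` to `v`) is the incidence matrix of a stationary
generalized Bratteli diagram: every vertex meets finitely many edges, emits at least one edge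
and receives at least one edge. -/
structure IsDiagram (F : V → V → ℕ) : Prop where
  finite_out : ∀ w, {v | F v w ≠ 0}.Finite
  finite_in : ∀ v, {w | F v w ≠ 0}.Finite
  emits : ∀ w, ∃ v, F v w ≠ 0
  receives : ∀ v, ∃ w, F v w ≠ 0

/-- The edges between two consecutive levels: a pair (range, source) and a label. -/
def Edge (F : V → V → ℕ) : Type u := Σ p : V × V, Fin (F p.1 p.2)

/-- range of an edge -/
def rng {F : V → V → ℕ} (e : Edge F) : V := e.1.1

/-- source of an edge -/
def src {F : V → V → ℕ} (e : Edge F) : V := e.1.2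

/-- The path space: infinite sequences of composable edges (the `i`-th edge goes from
level `i` to level `i + 1`). -/
def Path (F : V → V → ℕ) : Type u := {x : ℕ → Edge F // ∀ i, rng (x i) = src (x (i + 1))}

/-- `e 0, …, e m` is a finite path (starting at level `0`) -/
def IsFinPath {F : V → V → ℕ} (e : ℕ → Edge F) (m : ℕ) : Prop :=
  ∀ i < m, rng (e i) = src (e (i + 1))

/-- the cylinder set of the finite path `e 0, …, e m` -/
def cyl {F : V → V → ℕ} (e : ℕ → Edge F) (m : ℕ) : Set (Path F) :=
  {x | ∀ i ≤ m, x.1 i = e i}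

/-- the Borel `σ`-algebra of the path space, generated by the cylinder sets -/
instance instMeasurableSpacePath (F : V → V → ℕ) : MeasurableSpace (Path F) :=
  MeasurableSpace.generateFrom {A | ∃ (e : ℕ → Edge F) (m : ℕ), IsFinPath e m ∧ A = cyl e m}

/-- tail-invariant measures: nonzero, and two finite paths from level `0` with the same end vertex
have cylinder sets of the same measure -/
def TailInvariant {F : V → V → ℕ} (μ : Measure (Path F)) : Prop :=
  μ ≠ 0 ∧ ∀ (m : ℕ) (e e' : ℕ → Edge F), IsFinPath e m → IsFinPath e' m →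
    rng (e m) = rng (e' m) → μ (cyl e m) = μ (cyl e' m)

open Classical in
/-- powers of the (row- and column-finite) infinite matrix `F` -/
noncomputable def mpow (F : V → V → ℕ) : ℕ → V → V → ℕ
  | 0, i, j => if i = j then 1 else 0
  | n + 1, i, j => ∑ᶠ k, F i k * mpow F n k j

/-- irreducibility: every entry is positive in some (positive) power -/
def Irred (F : V → V → ℕ) : Prop := ∀ i j, ∃ n, 0 < n ∧ 0 < mpow F n i j

/-- aperiodicity: `gcd {n : (F^n)_{ii} > 0} = 1` for every `i` -/
def Aperiodic (F : V → V → ℕ) : Prop :=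
  ∀ i, ∀ d : ℕ, (∀ n, 0 < mpow F n i i → d ∣ n) → d = 1

/-- no finite Perron eigenvalue: `lim ((F^n)_{ij})^{1/n} = ∞` -/
def PerronInfinite (F : V → V → ℕ) : Prop :=
  ∀ i j, Tendsto (fun n : ℕ => ((mpow F n i j : ℕ) : ℝ) ^ (1 / (n : ℝ))) atTop atTop

section construct

variable {F : V → V → ℕ}

/-- outgoing edges of `v` -/
def Out (F : V → V → ℕ) (v : V) : Type u := Σ w : V, Fin (F w v)

/-- the edge of an outgoing edge -/
def toEdge (v : V) (o : Out F v) : Edge F := ⟨(o.1, v), o.2⟩

/-- an edge as an outgoing edge of its source -/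
def ofEdge (e : Edge F) : Out F (src e) := ⟨e.1.1, e.2⟩

lemma toEdge_inj (v : V) : Function.Injective (toEdge (F := F) v) := by
  rintro ⟨w, k⟩ ⟨w', k'⟩ h
  unfold toEdge at h
  obtain ⟨h1, h2⟩ := Sigma.mk.inj_iff.mp h
  have h3 : w = w' := congrArg Prod.fst h1
  subst h3
  have h4 : k = k' := eq_of_heq h2
  subst h4
  rfl

lemma toEdge_ofEdge (e : Edge F) : toEdge (src e) (ofEdge e) = e := rfl

lemma src_toEdge (v : V) (o : Out F v) : src (toEdge v o) = v := rfl

lemma rng_toEdge (v : V) (o : Out F v) : rng (toEdge v o) = o.1 := rfl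

instance (v : V) : MeasurableSpace (Out F v) := ⊤

instance (v : V) : MeasurableSingletonClass (Out F v) := ⟨fun _ => trivial⟩

instance [Countable V] (v : V) : Countable (Out F v) := by unfold Out; infer_instance

instance [Countable V] : Countable (Edge F) := by unfold Edge; infer_instance

/-- sample of outgoing edges for all levels and vertices -/
abbrev Smp (F : V → V → ℕ) : Type u := (i : ℕ × V) → Out F i.2

/-- vertices of the path started at `v` that follows the sample `ω` -/
def vert (v : V) (ω : Smp F) : ℕ → V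
  | 0 => v
  | n + 1 => (ω (n, vert v ω n)).1

/-- the path started at `v` that follows the sample `ω` -/
def follow (v : V) (ω : Smp F) : Path F :=
  ⟨fun n => toEdge (vert v ω n) (ω (n, vert v ω n)), fun _ => rfl⟩

lemma follow_mem (v : V) (ω : Smp F) (e : ℕ → Edge F) (m : ℕ) (he : IsFinPath e m)
    (hv : v = src (e 0)) :
    follow v ω ∈ cyl e m ↔ ∀ i ≤ m, toEdge (src (e i)) (ω (i, src (e i))) = e i := by
  constructor
  · intro h i hi
    have h1 : toEdge (vert v ω i) (ω (i, vert v ω i)) = e i := h i hi
    have h2 : vert v ω i = src (e i) := by rw [← h1]; rfl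
    rw [← h2]; exact h1
  · intro h
    have key : ∀ i, i ≤ m → vert v ω i = src (e i) := by
      intro i
      induction i with
      | zero => intro _; exact hv
      | succ i ih =>
        intro hi
        have h1 := ih (by omega)
        have h2 := h i (by omega)
        have h3 : vert v ω (i + 1) = (ω (i, vert v ω i)).1 := rfl
        rw [h3, h1, ← he i (by omega), ← rng_toEdge, h2]
    intro i hi
    change toEdge (vert v ω i) (ω (i, vert v ω i)) = e i
    rw [key i hi]; exact h i hi

lemma follow_not_mem (v : V) (ω : Smp F) (e : ℕ → Edge F) (m : ℕ)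
    (hv : v ≠ src (e 0)) : follow v ω ∉ cyl e m := by
  intro h
  have h1 : toEdge (vert v ω 0) (ω (0, vert v ω 0)) = e 0 := h 0 (Nat.zero_le _)
  apply hv
  rw [← h1]; rfl

/-- weights of the outgoing edges sum to one -/
lemma tsum_out (v : V) (g : V → ℝ≥0∞) :
    ∑' o : Out F v, g o.1 = ∑' w, (F w v : ℝ≥0∞) * g w := by
  unfold Out
  rw [ENNReal.tsum_sigma']
  congr 1; ext w
  simp

/-- the transition probabilities -/
noncomputable def trans (p : ℕ → V → ℝ≥0∞) (hp0 : ∀ n v, p n v ≠ 0) (hpt : ∀ n v, p n v ≠ ∞)
    (hrec : ∀ n v, p n v = ∑' w, (F w v : ℝ≥0∞) * p (n + 1) w) (i : ℕ × V) : PMF (Out F i.2) :=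
  ⟨fun o => p (i.1 + 1) o.1 / p i.1 i.2, by
    have h : ∑' o : Out F i.2, p (i.1 + 1) o.1 / p i.1 i.2 = 1 := by
      rw [tsum_out (F := F) i.2 (fun w => p (i.1 + 1) w / p i.1 i.2)]
      simp_rw [div_eq_mul_inv, ← mul_assoc]
      rw [ENNReal.tsum_mul_right, ← hrec, ENNReal.mul_inv_cancel (hp0 _ _) (hpt _ _)]
    rw [← h]
    exact ENNReal.summable.hasSum⟩

lemma meas_follow_pre (v : V) (e : ℕ → Edge F) (m : ℕ) (he : IsFinPath e m) :
    MeasurableSet {ω : Smp F | follow v ω ∈ cyl e m} := by
  by_cases hv : v = src (e 0)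
  · have : {ω : Smp F | follow v ω ∈ cyl e m} =
        ⋂ i ∈ Set.Iic m, {ω : Smp F | toEdge (src (e i)) (ω (i, src (e i))) = e i} := by
      ext ω
      simp only [Set.mem_ofPred_eq, Set.mem_iInter, Set.mem_Iic]
      exact follow_mem v ω e m he hv
    rw [this]
    refine MeasurableSet.biInter (Set.to_countable _) fun i _ => ?_
    have h1 : Measurable fun ω : Smp F => ω (i, src (e i)) := measurable_pi_apply _
    exact h1 (show MeasurableSet {o : Out F (src (e i)) | toEdge (src (e i)) o = e i} from trivial)
  · have : {ω : Smp F | follow v ω ∈ cyl e m} = ∅ := by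
      ext ω; simp [follow_not_mem v ω e m hv]
    rw [this]; exact MeasurableSet.empty

lemma measurable_follow (v : V) : Measurable (follow (F := F) v) := by
  apply measurable_generateFrom
  rintro _ ⟨e, m, he, rfl⟩
  exact meas_follow_pre v e m he

lemma measurableSet_cyl (e : ℕ → Edge F) (m : ℕ) (he : IsFinPath e m) :
    MeasurableSet (cyl e m) := MeasurableSpace.measurableSet_generateFrom ⟨e, m, he, rfl⟩

lemma prob_cyl (p : ℕ → V → ℝ≥0∞) (hp0 : ∀ n v, p n v ≠ 0) (hpt : ∀ n v, p n v ≠ ∞)
    (hrec : ∀ n v, p n v = ∑' w, (F w v : ℝ≥0∞) * p (n + 1) w)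
    (e : ℕ → Edge F) (m : ℕ) (he : IsFinPath e m) :
    Measure.infinitePi (fun i => (trans p hp0 hpt hrec i).toMeasure)
      {ω : Smp F | follow (src (e 0)) ω ∈ cyl e m} = p (m + 1) (rng (e m)) / p 0 (src (e 0)) := by
  classical
  have hset : {ω : Smp F | follow (src (e 0)) ω ∈ cyl e m} =
      Set.pi (((Finset.range (m + 1)).image fun i => (i, src (e i)) : Finset (ℕ × V)) :
        Set (ℕ × V)) (fun j => {o : Out F j.2 | toEdge j.2 o = e j.1}) := by
    ext ω
    rw [Set.mem_ofPred_eq, follow_mem _ ω e m he rfl]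
    simp only [Set.mem_pi, Finset.coe_image, Finset.coe_range, Set.mem_image, Set.mem_Iio,
      Set.mem_ofPred_eq]
    constructor
    · rintro h _ ⟨i, hi, rfl⟩
      exact h i (by omega)
    · intro h i hi
      exact h (i, src (e i)) ⟨i, by omega, rfl⟩
  have hmt : ∀ j ∈ (Finset.range (m + 1)).image fun i => (i, src (e i)),
      MeasurableSet ({o : Out F j.2 | toEdge j.2 o = e j.1}) := fun j _ => trivial
  rw [hset, Measure.infinitePi_pi _ hmt, Finset.prod_image]
  · have hterm : ∀ i : ℕ, (trans p hp0 hpt hrec (i, src (e i))).toMeasure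
        {o : Out F (src (e i)) | toEdge (src (e i)) o = e i} =
        p (i + 1) (rng (e i)) / p i (src (e i)) := by
      intro i
      have h1 : {o : Out F (src (e i)) | toEdge (src (e i)) o = e i} = {ofEdge (e i)} := by
        ext o
        simp only [Set.mem_ofPred_eq, Set.mem_singleton_iff]
        constructor
        · intro h
          exact toEdge_inj _ (h.trans (toEdge_ofEdge (e i)).symm)
        · rintro rfl; rfl
      rw [h1, PMF.toMeasure_apply_singleton _ _ (MeasurableSet.singleton _)]
      rfl
    simp only [hterm]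
    clear hset hmt
    induction m with
    | zero => simp
    | succ m ih =>
      rw [Finset.prod_range_succ, ih (fun i hi => he i (by omega))]
      rw [he m (by omega), div_eq_mul_inv, div_eq_mul_inv, div_eq_mul_inv]
      calc p (m + 1) (src (e (m + 1))) * (p 0 (src (e 0)))⁻¹ *
            (p (m + 1 + 1) (rng (e (m + 1))) * (p (m + 1) (src (e (m + 1))))⁻¹)
          = (p (m + 1) (src (e (m + 1))) * (p (m + 1) (src (e (m + 1))))⁻¹) *
            (p (m + 1 + 1) (rng (e (m + 1))) * (p 0 (src (e 0)))⁻¹) := by ring
        _ = p (m + 1 + 1) (rng (e (m + 1))) * (p 0 (src (e 0)))⁻¹ := by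
            rw [ENNReal.mul_inv_cancel (hp0 _ _) (hpt _ _), one_mul]
  · intro i _ j _ h
    exact congrArg Prod.fst h

/-- **Existence of measures**: a positive solution `p` of `p n v = ∑_w F w v p (n+1) w` is the
sequence of cylinder masses of a measure on the path space. -/
theorem exists_measure [Countable V] (p : ℕ → V → ℝ≥0∞) (hp0 : ∀ n v, p n v ≠ 0)
    (hpt : ∀ n v, p n v ≠ ∞)
    (hrec : ∀ n v, p n v = ∑' w, (F w v : ℝ≥0∞) * p (n + 1) w) :
    ∃ μ : Measure (Path F), μ Set.univ = ∑' v, p 0 v ∧
      ∀ (e : ℕ → Edge F) (m : ℕ), IsFinPath e m → μ (cyl e m) = p (m + 1) (rng (e m)) := by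
  classical
  refine ⟨Measure.sum fun v => p 0 v •
    (Measure.infinitePi (fun i => (trans p hp0 hpt hrec i).toMeasure)).map (follow v), ?_, ?_⟩
  · rw [Measure.sum_apply _ MeasurableSet.univ]
    congr 1; ext v
    rw [Measure.smul_apply, Measure.map_apply (measurable_follow v) MeasurableSet.univ]
    simp
  · intro e m he
    rw [Measure.sum_apply _ (measurableSet_cyl e m he)]
    rw [tsum_eq_single (src (e 0))]
    · rw [Measure.smul_apply, Measure.map_apply (measurable_follow _) (measurableSet_cyl e m he)]
      have := prob_cyl p hp0 hpt hrec e m he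
      have h2 : follow (F := F) (src (e 0)) ⁻¹' cyl e m =
        {ω : Smp F | follow (src (e 0)) ω ∈ cyl e m} := rfl
      rw [h2, this, smul_eq_mul, ENNReal.mul_div_cancel (hp0 _ _) (hpt _ _)]
    · intro v hv
      rw [Measure.smul_apply, Measure.map_apply (measurable_follow _) (measurableSet_cyl e m he)]
      have : follow (F := F) v ⁻¹' cyl e m = ∅ := by
        ext ω
        simp only [Set.mem_preimage, Set.mem_empty_iff_false, iff_false]
        exact follow_not_mem v ω e m hv
      rw [this]; simp

end construct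

end Q96.Bratteli
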