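import Mathlib

/-!
# Ordered Banach spaces and a cone in the space of convergent sequences

Definitions for ordered Banach spaces given by a closed cone, and the cone
`{f : f ≥ 0, f 0 ≤ f ∞}` in `C(OnePoint ℕ, ℝ)` (the space of convergent sequences).
-/

set_option autoImplicit false

namespace Q96.ConeC

open Filter Topology

universe u v

section defs

variable {X : Type u} [NormedAddCommGroup X] [NormedSpace ℝ X]

/-- `K` is a closed (pointed, convex) cone in `X`. -/
structure IsClosedCone (K : Set X) : Prop where
  isClosed : IsClosed K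
  zero_mem : (0 : X) ∈ K
  add_mem : ∀ x ∈ K, ∀ y ∈ K, x + y ∈ K
  smul_mem : ∀ r : ℝ, 0 ≤ r → ∀ x ∈ K, r • x ∈ K
  pointed : ∀ x ∈ K, -x ∈ K → x = 0

/-- The order of the ordered Banach space `(X, K)`: `x ≤ y` iff `y - x ∈ K`. -/
def Le (K : Set X) (x y : X) : Prop := y - x ∈ K

/-- The cone `K` is normal: there is `C ≥ 1` such that `0 ≤ x ≤ y` implies `‖x‖ ≤ C ‖y‖`. -/
def IsNormalCone (K : Set X) : Prop :=
  ∃ C : ℝ, 1 ≤ C ∧ ∀ x y : X, Le K 0 x → Le K x y → ‖x‖ ≤ C * ‖y‖

/-- `x` is an increasing family for the order given by `K`. -/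
def Increasing {J : Type v} [Preorder J] (K : Set X) (x : J → X) : Prop :=
  ∀ i j : J, i ≤ j → Le K (x i) (x j)

/-- `u` is an upper bound of the family `x`. -/
def UpperBound {J : Type v} (K : Set X) (x : J → X) (u : X) : Prop :=
  ∀ j : J, Le K (x j) u

/-- `u` is a minimal upper bound of the family `x`. -/
def MinimalUpperBound {J : Type v} (K : Set X) (x : J → X) (u : X) : Prop :=
  UpperBound K x u ∧ ∀ w : X, UpperBound K x w → Le K w u → w = u

/-- `s` is a supremum (least upper bound) of the family `x`. -/
def Supremum {J : Type v} (K : Set X) (x : J → X) (s : X) : Prop :=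
  UpperBound K x s ∧ ∀ w : X, UpperBound K x w → Le K s w

end defs

/-- the space of convergent sequences, as continuous functions on `ℕ ∪ {∞}` -/
abbrev C : Type := C(OnePoint ℕ, ℝ)

/-- The cone of all nonnegative convergent sequences whose limit dominates the entry `0`. -/
def cone : Set C := {f | (∀ p, 0 ≤ f p) ∧ f ((0 : ℕ) : OnePoint ℕ) ≤ f OnePoint.infty}

lemma isClosedCone_cone : IsClosedCone cone where
  isClosed := by
    have h1 : IsClosed {f : C | ∀ p, 0 ≤ f p} := by
      simp only [Set.ofPred_forall]
      exact isClosed_iInter (fun p => isClosed_le continuous_const (continuous_eval_const p))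
    have h2 : IsClosed {f : C | f ((0 : ℕ) : OnePoint ℕ) ≤ f OnePoint.infty} :=
      isClosed_le (continuous_eval_const _) (continuous_eval_const _)
    exact h1.inter h2
  zero_mem := ⟨fun p => le_rfl, le_rfl⟩
  add_mem f hf g hg := ⟨fun p => add_nonneg (hf.1 p) (hg.1 p), add_le_add hf.2 hg.2⟩
  smul_mem r hr f hf := ⟨fun p => mul_nonneg hr (hf.1 p), mul_le_mul_of_nonneg_left hf.2 hr⟩
  pointed f hf hf' := by
    ext p
    have h1 := hf.1 p
    have h2 : 0 ≤ -(f p) := hf'.1 p
    simp only [ContinuousMap.zero_apply]
    linarith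

lemma isNormalCone_cone : IsNormalCone cone := by
  refine ⟨1, le_rfl, fun f g hf hfg => ?_⟩
  rw [one_mul, ContinuousMap.norm_le _ (norm_nonneg _)]
  intro p
  have h1 : 0 ≤ f p - 0 := hf.1 p
  have h2 : 0 ≤ g p - f p := hfg.1 p
  rw [Real.norm_eq_abs, abs_of_nonneg (by linarith)]
  calc f p ≤ g p := by linarith
    _ ≤ ‖g p‖ := le_abs_self _
    _ ≤ ‖g‖ := g.norm_coe_le_norm p

/-- the indicator of the point `n` -/
noncomputable def e (n : ℕ) : C :=
  ⟨fun p => p.elim (0 : ℝ) (fun m : ℕ => if m = n then (1 : ℝ) else 0), by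
    rw [OnePoint.continuous_iff_from_nat]
    simp only [OnePoint.elim_some, OnePoint.elim_infty]
    refine tendsto_const_nhds.congr' ?_
    filter_upwards [eventually_gt_atTop n] with m hm
    have : m ≠ n := by omega
    simp [this]⟩

@[simp] lemma e_infty (n : ℕ) : e n OnePoint.infty = 0 := rfl

@[simp] lemma e_coe (n m : ℕ) : e n (m : OnePoint ℕ) = if m = n then 1 else 0 := rfl

/-- minus the indicator of `{m : m > j} ∪ {∞}` -/
noncomputable def seq (j : ℕ) : C :=
  ⟨fun p => p.elim (-1 : ℝ) (fun m : ℕ => if j < m then (-1 : ℝ) else 0), by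
    rw [OnePoint.continuous_iff_from_nat]
    simp only [OnePoint.elim_some, OnePoint.elim_infty]
    refine tendsto_const_nhds.congr' ?_
    filter_upwards [eventually_gt_atTop j] with m hm
    simp [hm]⟩

@[simp] lemma seq_infty (j : ℕ) : seq j OnePoint.infty = -1 := rfl

@[simp] lemma seq_coe (j m : ℕ) : seq j (m : OnePoint ℕ) = if j < m then -1 else 0 := rfl

lemma increasing_seq : Increasing cone seq := by
  intro i j hij
  refine ⟨fun p => ?_, ?_⟩
  · induction p using OnePoint.rec with
    | infty => simp
    | coe m =>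
      simp only [ContinuousMap.sub_apply, seq_coe]
      by_cases h1 : j < m
      · have h2 : i < m := by omega
        simp [h1, h2]
      · by_cases h2 : i < m <;> simp [h1, h2]
  · simp

/-- `0` is a minimal upper bound of the sequence. -/
lemma minimal_seq : MinimalUpperBound cone seq 0 := by
  refine ⟨fun j => ⟨fun p => ?_, ?_⟩, fun w hw hw0 => ?_⟩
  · induction p using OnePoint.rec with
    | infty => simp
    | coe m =>
      simp only [ContinuousMap.sub_apply, seq_coe, ContinuousMap.zero_apply]
      by_cases h1 : j < m <;> simp [h1]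
  · simp
  · have h1 : ∀ m : ℕ, w (m : OnePoint ℕ) = 0 := by
      intro m
      have h2 : 0 ≤ (w - seq m) (m : OnePoint ℕ) := (hw m).1 _
      have h3 : 0 ≤ (0 - w) (m : OnePoint ℕ) := hw0.1 _
      simp only [ContinuousMap.sub_apply, seq_coe, lt_irrefl, if_false,
        ContinuousMap.zero_apply] at h2 h3
      linarith
    have h2 : w OnePoint.infty = 0 := by
      have h3 := (OnePoint.continuous_iff_from_nat w).mp w.continuous
      simp only [h1] at h3
      exact (tendsto_nhds_unique h3 tendsto_const_nhds)
    ext p
    induction p using OnePoint.rec with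
    | infty => simpa using h2
    | coe m => simpa using h1 m

/-- `e 0` is another upper bound. -/
lemma upper_e : UpperBound cone seq (e 0) := by
  intro j
  refine ⟨fun p => ?_, ?_⟩
  · induction p using OnePoint.rec with
    | infty => simp
    | coe m =>
      simp only [ContinuousMap.sub_apply, seq_coe, e_coe]
      split_ifs <;> norm_num
  · simp

lemma not_le_e : ¬ Le cone 0 (e 0) := by
  intro h
  have := h.2
  simp only [ContinuousMap.sub_apply, e_coe, e_infty, ContinuousMap.zero_apply, if_true] at this
  norm_num at this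

lemma no_supremum_seq (s : C) : ¬ Supremum cone seq s := by
  intro hs
  have h1 := hs.2 0 minimal_seq.1
  have h2 := minimal_seq.2 s hs.1 h1
  rw [h2] at hs
  exact not_le_e (hs.2 _ upper_e)

lemma not_tendsto_seq (b : C) : ¬ Tendsto seq atTop (𝓝 b) := by
  intro h
  have h1 := h.cauchySeq
  rw [Metric.cauchySeq_iff'] at h1
  obtain ⟨N, hN⟩ := h1 1 one_pos
  have h2 := hN (N + 1) (by omega)
  rw [dist_eq_norm] at h2
  have h3 := (seq (N + 1) - seq N).norm_coe_le_norm ((N + 1 : ℕ) : OnePoint ℕ)
  simp only [ContinuousMap.sub_apply, seq_coe] at h3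
  norm_num at h3
  linarith

/-- The cone has nonempty interior (in particular it is generating). -/
lemma interior_nonempty : (interior cone).Nonempty := by
  refine ⟨⟨fun _ => (2 : ℝ), continuous_const⟩ - e 0, ?_⟩
  rw [mem_interior_iff_mem_nhds, Metric.mem_nhds_iff]
  refine ⟨1 / 4, by norm_num, fun g hg => ?_⟩
  rw [Metric.mem_ball, dist_eq_norm] at hg
  have key : ∀ p, |g p - (2 - e 0 p)| < 1 / 4 := by
    intro p
    exact lt_of_le_of_lt
      ((g - (⟨fun _ => (2 : ℝ), continuous_const⟩ - e 0)).norm_coe_le_norm p) hg
  refine ⟨fun p => ?_, ?_⟩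
  · have h1 := key p
    rw [abs_lt] at h1
    have h2 : e 0 p ≤ 1 := by
      induction p using OnePoint.rec with
      | infty => simp
      | coe m => simp only [e_coe]; split_ifs <;> norm_num
    linarith [h1.1]
  · have h1 := key ((0 : ℕ) : OnePoint ℕ)
    have h2 := key OnePoint.infty
    rw [abs_lt] at h1 h2
    simp only [e_coe, e_infty, if_true] at h1 h2
    linarith [h1.2, h2.1]

/-- Every increasing net with a supremum converges in norm to it. -/
lemma net_tendsto {J : Type v} [Preorder J] [IsDirected J (· ≤ ·)] [Nonempty J] (x : J → C)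
    (hx : Increasing cone x) (s : C) (hs : Supremum cone x s) : Tendsto x atTop (𝓝 s) := by
  -- the decreasing net `s - x j`
  set d : J → C := fun j => s - x j with hd
  have hdK : ∀ j, d j ∈ cone := fun j => hs.1 j
  have hanti : ∀ i j, i ≤ j → d i - d j ∈ cone := by
    intro i j hij
    have := hx i j hij
    have e1 : d i - d j = x j - x i := by simp only [hd]; abel
    rw [e1]; exact this
  have hantip : ∀ (p : OnePoint ℕ) (i j : J), i ≤ j → d j p ≤ d i p := by
    intro p i j hij
    have : 0 ≤ d i p - d j p := (hanti i j hij).1 p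
    linarith
  have hpos : ∀ j p, 0 ≤ d j p := fun j p => (hdK j).1 p
  -- pointwise limits on `ℕ`
  have hlimN : ∀ (n : ℕ) (ε : ℝ), 0 < ε → ∃ j, d j (n : OnePoint ℕ) < ε := by
    intro n ε hε
    by_contra hcon
    push Not at hcon
    have hub : UpperBound cone x (s - ε • e n) := by
      intro j
      have e1 : (s - ε • e n) - x j = d j - ε • e n := by simp only [hd]; abel
      show (s - ε • e n) - x j ∈ cone
      rw [e1]
      refine ⟨fun p => ?_, ?_⟩
      · induction p using OnePoint.rec with
        | infty => simpa using hpos j OnePoint.infty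
        | coe m =>
          simp only [ContinuousMap.sub_apply, ContinuousMap.smul_apply, e_coe, smul_eq_mul]
          by_cases h : m = n
          · subst h; simp only [if_true]; linarith [hcon j]
          · simp only [h, if_false]; linarith [hpos j (m : OnePoint ℕ)]
      · simp only [ContinuousMap.sub_apply, ContinuousMap.smul_apply, e_coe, smul_eq_mul, e_infty]
        have h1 := (hdK j).2
        split_ifs <;> linarith
    have h2 := (hs.2 _ hub).1 (n : OnePoint ℕ)
    simp only [ContinuousMap.sub_apply, ContinuousMap.smul_apply, e_coe, smul_eq_mul,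
      if_true] at h2
    linarith
  have hlimInf : ∀ ε : ℝ, 0 < ε → ∃ j, d j OnePoint.infty < ε := by
    intro ε hε
    by_contra hcon
    push Not at hcon
    have hgap : ∀ j, d j ((0 : ℕ) : OnePoint ℕ) + ε ≤ d j OnePoint.infty := by
      intro j
      refine le_of_forall_pos_le_add (fun η hη => ?_)
      obtain ⟨k, hk⟩ := hlimN 0 η hη
      obtain ⟨l, hjl, hkl⟩ := exists_ge_ge j k
      have h1 := (hanti j l hjl).2
      simp only [ContinuousMap.sub_apply] at h1
      have h2 := hantip ((0 : ℕ) : OnePoint ℕ) k l hkl
      have h3 := hcon l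
      linarith
    have hub : UpperBound cone x (s + ε • e 0) := by
      intro j
      have e1 : (s + ε • e 0) - x j = d j + ε • e 0 := by simp only [hd]; abel
      show (s + ε • e 0) - x j ∈ cone
      rw [e1]
      refine ⟨fun p => ?_, ?_⟩
      · induction p using OnePoint.rec with
        | infty => simpa using hpos j OnePoint.infty
        | coe m =>
          simp only [ContinuousMap.add_apply, ContinuousMap.smul_apply, e_coe, smul_eq_mul]
          have := hpos j (m : OnePoint ℕ)
          split_ifs <;> linarith
      · simp only [ContinuousMap.add_apply, ContinuousMap.smul_apply, e_coe, smul_eq_mul, e_infty,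
          if_true]
        linarith [hgap j]
    have h2 := (hs.2 _ hub).2
    simp only [ContinuousMap.sub_apply, ContinuousMap.add_apply, ContinuousMap.smul_apply, e_coe,
      e_infty, smul_eq_mul, if_true] at h2
    linarith
  have hlim : ∀ (p : OnePoint ℕ) (ε : ℝ), 0 < ε → ∃ j, d j p < ε := by
    intro p
    induction p using OnePoint.rec with
    | infty => exact hlimInf
    | coe n => exact hlimN n
  have hmono : Monotone x := by
    intro i j hij p
    have : 0 ≤ x j p - x i p := (hx i j hij).1 p
    show x i p ≤ x j p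
    linarith
  refine ContinuousMap.tendsto_of_monotone_of_pointwise hmono (fun p => ?_)
  rw [Metric.tendsto_nhds]
  intro ε hε
  obtain ⟨j, hj⟩ := hlim p ε hε
  filter_upwards [eventually_ge_atTop j] with k hk
  rw [Real.dist_eq, abs_sub_comm]
  have h1 : s p - x k p = d k p := rfl
  rw [h1, abs_of_nonneg (hpos k p)]
  exact lt_of_le_of_lt (hantip p j k hk) hj

end Q96.ConeC
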