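import Mathlib

/-!
# Orthogonality of cosines and sines on `[0, L]`
-/

set_option autoImplicit false

open Real intervalIntegral

namespace Q96.CosOrtho

lemma integral_cos_int (L : ℝ) (hL : 0 < L) (n : ℤ) (hn : n ≠ 0) :
    ∫ x in (0 : ℝ)..L, cos (n * π * x / L) = 0 := by
  have hc : (n * π / L : ℝ) ≠ 0 := by
    have : (n : ℝ) ≠ 0 := by exact_mod_cast hn
    positivity
  have h1 : ∀ x, n * π * x / L = (n * π / L) * x := fun x => by ring
  simp_rw [h1]
  rw [integral_comp_mul_left (fun x => cos x) hc, integral_cos]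
  have h2 : (n * π / L : ℝ) * L = n * π := by field_simp
  rw [h2, mul_zero, sin_zero, sin_int_mul_pi]
  simp

lemma integral_cos_zero (L : ℝ) : ∫ x in (0 : ℝ)..L, cos ((0 : ℤ) * π * x / L) = L := by
  simp

/-- the cosines -/
noncomputable def cj (L : ℝ) (j : ℕ) (x : ℝ) : ℝ := cos (j * π * x / L)

/-- the sines -/
noncomputable def sj (L : ℝ) (j : ℕ) (x : ℝ) : ℝ := sin (j * π * x / L)

lemma continuous_cj (L : ℝ) (j : ℕ) : Continuous (cj L j) := by
  unfold cj; fun_prop

lemma continuous_sj (L : ℝ) (j : ℕ) : Continuous (sj L j) := by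
  unfold sj; fun_prop

lemma cj_mul (L : ℝ) (i j : ℕ) (x : ℝ) : cj L i x * cj L j x =
    (1 / 2) * cos ((((i : ℤ) - j : ℤ)) * π * x / L) +
      (1 / 2) * cos ((((i : ℤ) + j : ℤ)) * π * x / L) := by
  unfold cj
  have h1 : ((((i : ℤ) - j : ℤ) : ℝ)) * π * x / L = i * π * x / L - j * π * x / L := by
    push_cast; ring
  have h2 : ((((i : ℤ) + j : ℤ) : ℝ)) * π * x / L = i * π * x / L + j * π * x / L := by
    push_cast; ring
  rw [h1, h2, cos_sub, cos_add]; ring

lemma sj_mul (L : ℝ) (i j : ℕ) (x : ℝ) : sj L i x * sj L j x =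
    (1 / 2) * cos ((((i : ℤ) - j : ℤ)) * π * x / L) -
      (1 / 2) * cos ((((i : ℤ) + j : ℤ)) * π * x / L) := by
  unfold sj
  have h1 : ((((i : ℤ) - j : ℤ) : ℝ)) * π * x / L = i * π * x / L - j * π * x / L := by
    push_cast; ring
  have h2 : ((((i : ℤ) + j : ℤ) : ℝ)) * π * x / L = i * π * x / L + j * π * x / L := by
    push_cast; ring
  rw [h1, h2, cos_sub, cos_add]; ring

/-- the squared norm of the `j`-th cosine -/
noncomputable def nrm (L : ℝ) (j : ℕ) : ℝ := if j = 0 then L else L / 2

lemma nrm_pos {L : ℝ} (hL : 0 < L) (j : ℕ) : 0 < nrm L j := by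
  unfold nrm; split_ifs <;> positivity

lemma intI (L : ℝ) (n : ℤ) : IntervalIntegrable (fun x => (1 / 2) * cos (n * π * x / L))
    MeasureTheory.volume 0 L := by
  apply Continuous.intervalIntegrable
  fun_prop

lemma integral_cj_mul {L : ℝ} (hL : 0 < L) (i j : ℕ) :
    ∫ x in (0 : ℝ)..L, cj L i x * cj L j x = if i = j then nrm L j else 0 := by
  simp_rw [cj_mul]
  rw [integral_add (intI L _) (intI L _), integral_const_mul, integral_const_mul]
  by_cases hij : i = j
  · subst hij
    rw [if_pos rfl, sub_self, integral_cos_zero]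
    unfold nrm
    split_ifs with h0
    · subst h0
      simp only [CharP.cast_eq_zero, add_zero]
      rw [integral_cos_zero]; ring
    · rw [integral_cos_int L hL _ (by omega)]; ring
  · rw [if_neg hij, integral_cos_int L hL _ (by omega), integral_cos_int L hL _ (by omega)]
    ring

lemma integral_sj_mul {L : ℝ} (hL : 0 < L) (i j : ℕ) :
    ∫ x in (0 : ℝ)..L, sj L i x * sj L j x = if i = j ∧ i ≠ 0 then L / 2 else 0 := by
  simp_rw [sj_mul]
  rw [integral_sub (intI L _) (intI L _), integral_const_mul, integral_const_mul]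
  by_cases hij : i = j
  · subst hij
    rw [sub_self, integral_cos_zero]
    by_cases h0 : i = 0
    · subst h0
      rw [if_neg (by simp)]
      simp only [CharP.cast_eq_zero, add_zero]
      rw [integral_cos_zero]; ring
    · rw [if_pos ⟨rfl, h0⟩, integral_cos_int L hL _ (by omega)]; ring
  · rw [if_neg (by tauto), integral_cos_int L hL _ (by omega), integral_cos_int L hL _ (by omega)]
    ring

end Q96.CosOrtho
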