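import Mathlib

/-!
# A Poincaré inequality with a large constant on an exponential horn
-/

set_option autoImplicit false

open MeasureTheory Set Filter Topology

namespace Q96.Horn

/-- differentiation under the integral sign over a compact interval -/
lemma param_deriv (F F' : ℝ → ℝ → ℝ) (hF : Continuous (fun z : ℝ × ℝ => F z.1 z.2))
    (hF' : Continuous (fun z : ℝ × ℝ => F' z.1 z.2))
    (hd : ∀ x s, HasDerivAt (fun x => F x s) (F' x s) x) (a b x₀ : ℝ) :
    HasDerivAt (fun x => ∫ s in a..b, F x s) (∫ s in a..b, F' x₀ s) x₀ := by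
  have hK : IsCompact ((Metric.closedBall x₀ 1) ×ˢ (uIcc a b)) :=
    (isCompact_closedBall _ _).prod isCompact_uIcc
  obtain ⟨M, hM⟩ := hK.exists_bound_of_continuousOn hF'.continuousOn
  have hc : ∀ x, Continuous (F x) := fun x =>
    hF.comp (continuous_const.prodMk continuous_id)
  have hc' : ∀ x, Continuous (F' x) := fun x =>
    hF'.comp (continuous_const.prodMk continuous_id)
  refine (intervalIntegral.hasDerivAt_integral_of_dominated_loc_of_deriv_le (μ := volume)
    (bound := fun _ => M) (Metric.closedBall_mem_nhds x₀ one_pos) ?_ ?_ ?_ ?_ ?_ ?_).2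
  · exact Eventually.of_forall fun x => (hc x).aestronglyMeasurable
  · exact (hc x₀).intervalIntegrable _ _
  · exact (hc' x₀).aestronglyMeasurable
  · refine Eventually.of_forall fun s hs x hx => hM (x, s) ⟨hx, uIoc_subset_uIcc hs⟩
  · exact continuous_const.intervalIntegrable _ _
  · exact Eventually.of_forall fun s _ x _ => hd x s

/-- Hardy's inequality with an exponential weight -/
lemma hardy (u u' : ℝ → ℝ) (hu : ∀ x, HasDerivAt u (u' x) x) (hu' : Continuous u')
    (h0 : u 0 = 0) (lam : ℝ) (hlam : 0 < lam) :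
    ∫ x in (0 : ℝ)..1, u x ^ 2 * Real.exp (-lam * x) ≤
      (4 / lam ^ 2) * ∫ x in (0 : ℝ)..1, u' x ^ 2 * Real.exp (-lam * x) := by
  have huc : Continuous u := continuous_iff_continuousAt.mpr fun x => (hu x).continuousAt
  have hexp : Continuous fun x : ℝ => Real.exp (-lam * x) := by fun_prop
  have hE : ∀ x, HasDerivAt (fun x : ℝ => Real.exp (-lam * x)) (-lam * Real.exp (-lam * x)) x := by
    intro x
    have h1 : HasDerivAt (fun x : ℝ => -lam * x) (-lam) x := by
      simpa using (hasDerivAt_id x).const_mul (-lam)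
    have := h1.exp
    rwa [mul_comm] at this
  -- the primitive
  have hd : ∀ x, HasDerivAt (fun x => -(u x ^ 2 * Real.exp (-lam * x)) / lam)
      (u x ^ 2 * Real.exp (-lam * x) - (2 / lam) * (u x * u' x * Real.exp (-lam * x))) x := by
    intro x
    have h1 := (((hu x).pow 2).mul (hE x)).neg.div_const lam
    refine h1.congr_deriv ?_
    simp only [Pi.pow_apply]
    push_cast
    field_simp
    ring
  have hint : IntervalIntegrable (fun x => u x ^ 2 * Real.exp (-lam * x) -
      (2 / lam) * (u x * u' x * Real.exp (-lam * x))) volume 0 1 := by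
    apply Continuous.intervalIntegrable
    fun_prop
  have h1 := intervalIntegral.integral_eq_sub_of_hasDerivAt (fun x _ => hd x) hint
  rw [h0] at h1
  have h2 : ∫ x in (0 : ℝ)..1, (u x ^ 2 * Real.exp (-lam * x) -
      (2 / lam) * (u x * u' x * Real.exp (-lam * x))) ≤ 0 := by
    rw [h1]
    have : 0 ≤ u 1 ^ 2 * Real.exp (-lam * 1) / lam := by positivity
    simp only [ne_eq, OfNat.ofNat_ne_zero, not_false_eq_true, zero_pow, zero_mul, neg_zero,
      zero_div, sub_zero]
    rw [neg_div]
    linarith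
  have h3 : ∫ x in (0 : ℝ)..1, ((1 / 2) * (u x ^ 2 * Real.exp (-lam * x)) -
      (2 / lam ^ 2) * (u' x ^ 2 * Real.exp (-lam * x))) ≤
      ∫ x in (0 : ℝ)..1, (u x ^ 2 * Real.exp (-lam * x) -
      (2 / lam) * (u x * u' x * Real.exp (-lam * x))) := by
    apply intervalIntegral.integral_mono_on zero_le_one
    · apply Continuous.intervalIntegrable; fun_prop
    · exact hint
    · intro x _
      have hpos := Real.exp_pos (-lam * x)
      have key : (1 / 2) * u x ^ 2 - (2 / lam ^ 2) * u' x ^ 2 ≤
          u x ^ 2 - (2 / lam) * (u x * u' x) := by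
        have : 0 ≤ (1 / 2) * (u x - 2 / lam * u' x) ^ 2 := by positivity
        have e : (1 / 2) * (u x - 2 / lam * u' x) ^ 2 = (1 / 2) * u x ^ 2 -
            (2 / lam) * (u x * u' x) + (2 / lam ^ 2) * u' x ^ 2 := by
          field_simp
          ring
        rw [e] at this
        linarith
      have := mul_le_mul_of_nonneg_right key hpos.le
      linarith
  have h4 : ∫ x in (0 : ℝ)..1, ((1 / 2) * (u x ^ 2 * Real.exp (-lam * x)) -
      (2 / lam ^ 2) * (u' x ^ 2 * Real.exp (-lam * x))) =
      (1 / 2) * (∫ x in (0 : ℝ)..1, u x ^ 2 * Real.exp (-lam * x)) -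
      (2 / lam ^ 2) * ∫ x in (0 : ℝ)..1, u' x ^ 2 * Real.exp (-lam * x) := by
    rw [intervalIntegral.integral_sub, intervalIntegral.integral_const_mul, intervalIntegral.integral_const_mul]
    · apply Continuous.intervalIntegrable; fun_prop
    · apply Continuous.intervalIntegrable; fun_prop
  have h5 : 4 / lam ^ 2 = 2 * (2 / lam ^ 2) := by ring
  rw [h5]
  linarith

/-- the transverse inequality: `∫ g² ≤ 2 m² + 2 ∫ g'²` on `[-1,1]`, `m` the mean -/
lemma transverse (g g' : ℝ → ℝ) (hg : ∀ s, HasDerivAt g (g' s) s) (hg' : Continuous g') :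
    ∫ s in (-1 : ℝ)..1, g s ^ 2 ≤ 2 * ((1 / 2) * ∫ s in (-1 : ℝ)..1, g s) ^ 2 +
      2 * ∫ s in (-1 : ℝ)..1, g' s ^ 2 := by
  have hgc : Continuous g := continuous_iff_continuousAt.mpr fun x => (hg x).continuousAt
  set m := (1 / 2) * ∫ s in (-1 : ℝ)..1, g s with hm
  set D := ∫ s in (-1 : ℝ)..1, g' s ^ 2 with hD
  have hD0 : 0 ≤ D := intervalIntegral.integral_nonneg (by norm_num) fun s _ => sq_nonneg _
  -- pointwise bound
  have hpt : ∀ s ∈ Icc (-1 : ℝ) 1, (g s - g 0) ^ 2 ≤ D := by
    intro s hs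
    have h1 : g s - g 0 = ∫ r in (0 : ℝ)..s, g' r :=
      (intervalIntegral.integral_eq_sub_of_hasDerivAt (fun r _ => hg r) (hg'.intervalIntegrable _ _)).symm
    have key : ∀ a b : ℝ, -1 ≤ a → a ≤ b → b ≤ 1 → b - a ≤ 1 →
        (∫ r in a..b, g' r) ^ 2 ≤ D := by
      intro a b ha hab hb hba
      set I := ∫ r in a..b, g' r with hI
      have h3 : 0 ≤ ∫ r in a..b, (g' r - I) ^ 2 := intervalIntegral.integral_nonneg hab fun _ _ => sq_nonneg _
      have h4 : ∫ r in a..b, (g' r - I) ^ 2 = (∫ r in a..b, g' r ^ 2) - 2 * I * I +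
          (b - a) * I ^ 2 := by
        have h5 : ∀ r, (g' r - I) ^ 2 = (g' r ^ 2 - (2 * I) * g' r) + I ^ 2 := fun r => by ring
        simp_rw [h5]
        rw [intervalIntegral.integral_add, intervalIntegral.integral_sub, intervalIntegral.integral_const_mul, intervalIntegral.integral_const, ← hI, smul_eq_mul]
        · exact (hg'.pow 2).intervalIntegrable _ _
        · exact (hg'.const_mul _).intervalIntegrable _ _
        · apply Continuous.intervalIntegrable; fun_prop
        · apply Continuous.intervalIntegrable; fun_prop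
      have h5 : ∫ r in a..b, g' r ^ 2 ≤ D := by
        rw [hD]
        apply intervalIntegral.integral_mono_interval ha hab hb
        · exact Eventually.of_forall fun r => sq_nonneg _
        · exact (hg'.pow 2).intervalIntegrable _ _
      nlinarith [sq_nonneg I]
    rcases le_total 0 s with h | h
    · rw [h1]
      exact key 0 s (by norm_num) h hs.2 (by linarith [hs.2])
    · rw [h1, intervalIntegral.integral_symm, neg_sq]
      exact key s 0 hs.1 h (by norm_num) (by linarith [hs.1])
  have h1 : ∫ s in (-1 : ℝ)..1, (g s - g 0) ^ 2 ≤ 2 * D := by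
    calc ∫ s in (-1 : ℝ)..1, (g s - g 0) ^ 2 ≤ ∫ _s in (-1 : ℝ)..1, D := by
          apply intervalIntegral.integral_mono_on (by norm_num)
          · apply Continuous.intervalIntegrable; fun_prop
          · exact continuous_const.intervalIntegrable _ _
          · exact hpt
      _ = 2 * D := by rw [intervalIntegral.integral_const, smul_eq_mul]; norm_num
  have h2 : ∫ s in (-1 : ℝ)..1, (g s - g 0) ^ 2 = (∫ s in (-1 : ℝ)..1, g s ^ 2) -
      4 * g 0 * m + 2 * g 0 ^ 2 := by
    have h5 : ∀ r, (g r - g 0) ^ 2 = (g r ^ 2 - (2 * g 0) * g r) + g 0 ^ 2 := fun r => by ring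
    simp_rw [h5]
    rw [intervalIntegral.integral_add, intervalIntegral.integral_sub, intervalIntegral.integral_const_mul, intervalIntegral.integral_const, smul_eq_mul, hm]
    · ring
    · exact (hgc.pow 2).intervalIntegrable _ _
    · exact (hgc.const_mul _).intervalIntegrable _ _
    · apply Continuous.intervalIntegrable; fun_prop
    · apply Continuous.intervalIntegrable; fun_prop
  nlinarith [sq_nonneg (m - g 0)]

/-- the square of the length of the gradient of a function on the plane -/
noncomputable def grad2 (f : ℝ × ℝ → ℝ) (z : ℝ × ℝ) : ℝ :=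
  (fderiv ℝ f z (1, 0)) ^ 2 + (fderiv ℝ f z (0, 1)) ^ 2

lemma grad2_nonneg (f : ℝ × ℝ → ℝ) (z : ℝ × ℝ) : 0 ≤ grad2 f z := by unfold grad2; positivity

lemma continuous_part {f : ℝ × ℝ → ℝ} (hf : ContDiff ℝ 1 f) (v : ℝ × ℝ) :
    Continuous fun z => fderiv ℝ f z v := by
  have h1 : Continuous (fderiv ℝ f) := hf.continuous_fderiv (by norm_num)
  exact h1.clm_apply continuous_const

lemma continuous_grad2 {f : ℝ × ℝ → ℝ} (hf : ContDiff ℝ 1 f) : Continuous (grad2 f) := by
  unfold grad2
  exact ((continuous_part hf _).pow 2).add ((continuous_part hf _).pow 2)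

lemma jensen (h : ℝ → ℝ) (hh : Continuous h) :
    ((1 / 2) * ∫ s in (-1 : ℝ)..1, h s) ^ 2 ≤ (1 / 2) * ∫ s in (-1 : ℝ)..1, h s ^ 2 := by
  set m := (1 / 2) * ∫ s in (-1 : ℝ)..1, h s with hm
  have h1 : 0 ≤ ∫ s in (-1 : ℝ)..1, (h s - m) ^ 2 :=
    intervalIntegral.integral_nonneg (by norm_num) fun _ _ => sq_nonneg _
  have h2 : ∫ s in (-1 : ℝ)..1, (h s - m) ^ 2 = (∫ s in (-1 : ℝ)..1, h s ^ 2) -
      4 * m * m + 2 * m ^ 2 := by
    have h5 : ∀ r, (h r - m) ^ 2 = (h r ^ 2 - (2 * m) * h r) + m ^ 2 := fun r => by ring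
    simp_rw [h5]
    rw [intervalIntegral.integral_add, intervalIntegral.integral_sub,
      intervalIntegral.integral_const_mul, intervalIntegral.integral_const, smul_eq_mul]
    · have : ∫ s in (-1 : ℝ)..1, h s = 2 * m := by rw [hm]; ring
      rw [this]; ring
    · exact (hh.pow 2).intervalIntegrable _ _
    · exact (hh.const_mul _).intervalIntegrable _ _
    · apply Continuous.intervalIntegrable; fun_prop
    · apply Continuous.intervalIntegrable; fun_prop
  nlinarith

/-- the horn profile -/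
noncomputable def w (lam ε x : ℝ) : ℝ := ε * Real.exp (-lam * x)

lemma w_deriv (lam ε x : ℝ) : HasDerivAt (w lam ε) (-lam * w lam ε x) x := by
  have h1 : HasDerivAt (fun x : ℝ => -lam * x) (-lam) x := by
    simpa using (hasDerivAt_id x).const_mul (-lam)
  have := h1.exp.const_mul ε
  refine this.congr_deriv ?_
  unfold w; ring

lemma w_cont (lam ε : ℝ) : Continuous (w lam ε) := by unfold w; fun_prop

theorem horn_ineq (f : ℝ × ℝ → ℝ) (hf : ContDiff ℝ 1 f) (lam ε : ℝ) (hlam : 0 < lam)
    (hε : 0 < ε) (hle : lam * ε ≤ 1) (h0 : ∫ s in (-1 : ℝ)..1, f (0, s * ε) = 0) :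
    ∫ x in (0 : ℝ)..1, (∫ s in (-1 : ℝ)..1, f (x, s * w lam ε x) ^ 2) * w lam ε x ≤
      (8 / lam ^ 2 + 2 * ε ^ 2) * ∫ x in (0 : ℝ)..1,
        (∫ s in (-1 : ℝ)..1, grad2 f (x, s * w lam ε x)) * w lam ε x := by
  set W := w lam ε with hW
  have hWc : Continuous W := w_cont lam ε
  have hWpos : ∀ x, 0 < W x := fun x => by rw [hW]; unfold w; positivity
  have hWle : ∀ x, 0 ≤ x → W x ≤ ε := fun x hx => by
    rw [hW]; unfold w
    have : Real.exp (-lam * x) ≤ 1 := Real.exp_le_one_iff.mpr (by nlinarith)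
    nlinarith
  have hfc : Continuous f := hf.continuous
  have hx := continuous_part hf (1, 0)
  have hy := continuous_part hf (0, 1)
  have hmap : Continuous fun z : ℝ × ℝ => ((z.1, z.2 * W z.1) : ℝ × ℝ) := by fun_prop
  -- derivative in `x`
  have hdx : ∀ x s, HasDerivAt (fun x => f (x, s * W x))
      (fderiv ℝ f (x, s * W x) (1, 0) - lam * (s * W x) * fderiv ℝ f (x, s * W x) (0, 1)) x := by
    intro x s
    have h1 : HasDerivAt (fun x : ℝ => ((x, s * W x) : ℝ × ℝ)) (1, s * (-lam * W x)) x :=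
      (hasDerivAt_id x).prodMk ((w_deriv lam ε x).const_mul s)
    have h2 := ((hf.differentiable (by norm_num)) (x, s * W x)).hasFDerivAt.comp_hasDerivAt x h1
    refine h2.congr_deriv ?_
    have h3 : ((1, s * (-lam * W x)) : ℝ × ℝ) = (1, 0) + (-(lam * (s * W x))) • ((0, 1) : ℝ × ℝ) := by
      ext <;> simp <;> ring
    rw [h3, map_add, map_smul, smul_eq_mul]; ring
  -- derivative in `s`
  have hds : ∀ x s, HasDerivAt (fun s => f (x, s * W x)) (W x * fderiv ℝ f (x, s * W x) (0, 1)) s := by
    intro x s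
    have h1 : HasDerivAt (fun s : ℝ => ((x, s * W x) : ℝ × ℝ)) (0, 1 * W x) s :=
      (hasDerivAt_const s x).prodMk ((hasDerivAt_id s).mul_const (W x))
    have h2 := ((hf.differentiable (by norm_num)) (x, s * W x)).hasFDerivAt.comp_hasDerivAt s h1
    refine h2.congr_deriv ?_
    have h3 : ((0, 1 * W x) : ℝ × ℝ) = (W x) • ((0, 1) : ℝ × ℝ) := by
      ext <;> simp
    rw [h3, map_smul, smul_eq_mul]
  set F' : ℝ → ℝ → ℝ := fun x s => fderiv ℝ f (x, s * W x) (1, 0) -
    lam * (s * W x) * fderiv ℝ f (x, s * W x) (0, 1) with hF'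
  have hF'c : Continuous fun z : ℝ × ℝ => F' z.1 z.2 := by
    have h1 : Continuous fun z : ℝ × ℝ => fderiv ℝ f (z.1, z.2 * W z.1) (1, 0) := hx.comp hmap
    have h2 : Continuous fun z : ℝ × ℝ => fderiv ℝ f (z.1, z.2 * W z.1) (0, 1) := hy.comp hmap
    simp only [hF']
    fun_prop
  set u : ℝ → ℝ := fun x => (1 / 2) * ∫ s in (-1 : ℝ)..1, f (x, s * W x) with hu
  set u' : ℝ → ℝ := fun x => (1 / 2) * ∫ s in (-1 : ℝ)..1, F' x s with hu'
  have hud : ∀ x, HasDerivAt u (u' x) x := fun x =>
    (param_deriv (fun x s => f (x, s * W x)) F' (hfc.comp hmap) hF'c hdx (-1) 1 x).const_mul _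
  have hu'c : Continuous u' := by
    apply Continuous.const_mul
    exact intervalIntegral.continuous_parametric_intervalIntegral_of_continuous' hF'c (-1) 1
  have hu0 : u 0 = 0 := by
    have h1 : W 0 = ε := by rw [hW]; unfold w; simp
    simp only [hu, h1, h0, mul_zero]
  have hHardy := hardy u u' hud hu'c hu0 lam hlam
  -- continuity of the transverse integrals
  have hI1 : Continuous fun x => ∫ s in (-1 : ℝ)..1, f (x, s * W x) ^ 2 :=
    intervalIntegral.continuous_parametric_intervalIntegral_of_continuous'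
      (f := fun x s => f (x, s * W x) ^ 2)
      (show Continuous fun z : ℝ × ℝ => f (z.1, z.2 * W z.1) ^ 2 from (hfc.comp hmap).pow 2) (-1) 1
  have hI2 : Continuous fun x => ∫ s in (-1 : ℝ)..1, grad2 f (x, s * W x) :=
    intervalIntegral.continuous_parametric_intervalIntegral_of_continuous'
      (f := fun x s => grad2 f (x, s * W x)) ((continuous_grad2 hf).comp hmap) (-1) 1
  have huc : Continuous u := continuous_iff_continuousAt.mpr fun x => (hud x).continuousAt
  have hsx : ∀ x, Continuous fun s => ((x, s * W x) : ℝ × ℝ) := fun x => by fun_prop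
  -- step 1
  have step1 : ∀ x ∈ Icc (0 : ℝ) 1, (∫ s in (-1 : ℝ)..1, f (x, s * W x) ^ 2) * W x ≤
      2 * (u x ^ 2 * W x) + 2 * ε ^ 2 * ((∫ s in (-1 : ℝ)..1, grad2 f (x, s * W x)) * W x) := by
    intro x hx01
    have h1 := transverse (fun s => f (x, s * W x)) _ (hds x)
      (continuous_const.mul (hy.comp (hsx x)))
    have h2 : ∫ s in (-1 : ℝ)..1, (W x * fderiv ℝ f (x, s * W x) (0, 1)) ^ 2 ≤
        ε ^ 2 * ∫ s in (-1 : ℝ)..1, grad2 f (x, s * W x) := by
      rw [← intervalIntegral.integral_const_mul]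
      apply intervalIntegral.integral_mono_on (by norm_num)
      · exact ((continuous_const.mul (hy.comp (hsx x))).pow 2).intervalIntegrable _ _
      · exact (continuous_const.mul ((continuous_grad2 hf).comp (hsx x))).intervalIntegrable _ _
      · intro s _
        rw [mul_pow]
        have h3 : W x ^ 2 ≤ ε ^ 2 := pow_le_pow_left₀ (hWpos x).le (hWle x hx01.1) 2
        have h4 : (fderiv ℝ f (x, s * W x) (0, 1)) ^ 2 ≤ grad2 f (x, s * W x) := by
          unfold grad2
          linarith [sq_nonneg (fderiv ℝ f (x, s * W x) (1, 0))]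
        exact mul_le_mul h3 h4 (sq_nonneg _) (sq_nonneg _)
    have h3 : (∫ s in (-1 : ℝ)..1, f (x, s * W x) ^ 2) ≤ 2 * u x ^ 2 +
        2 * ε ^ 2 * ∫ s in (-1 : ℝ)..1, grad2 f (x, s * W x) := by
      refine le_trans h1 ?_
      simp only [hu]
      linarith
    have h4 := mul_le_mul_of_nonneg_right h3 (hWpos x).le
    linarith
  -- step 2
  have step2 : ∀ x ∈ Icc (0 : ℝ) 1, u' x ^ 2 ≤ ∫ s in (-1 : ℝ)..1, grad2 f (x, s * W x) := by
    intro x hx01
    have hFx : Continuous (F' x) := hF'c.comp (continuous_const.prodMk continuous_id)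
    refine le_trans (jensen (F' x) hFx) ?_
    rw [← intervalIntegral.integral_const_mul]
    apply intervalIntegral.integral_mono_on (by norm_num)
    · exact (continuous_const.mul (hFx.pow 2)).intervalIntegrable _ _
    · exact ((continuous_grad2 hf).comp (hsx x)).intervalIntegrable _ _
    · intro s hs
      simp only [hF']
      unfold grad2
      set A := fderiv ℝ f (x, s * W x) (1, 0)
      set B := fderiv ℝ f (x, s * W x) (0, 1)
      set c := lam * (s * W x) with hc
      have hc1 : c ^ 2 ≤ 1 := by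
        have h5 : |c| ≤ 1 := by
          rw [hc, abs_mul, abs_mul, abs_of_pos hlam, abs_of_pos (hWpos x)]
          have h6 : |s| ≤ 1 := abs_le.mpr hs
          have h7 := hWle x hx01.1
          have h8 := hWpos x
          have h9 : |s| * W x ≤ 1 * ε := mul_le_mul h6 h7 h8.le zero_le_one
          nlinarith
        have := (sq_le_one_iff_abs_le_one c).mpr h5
        exact this
      nlinarith [sq_nonneg (A + B * c), sq_nonneg (A * c + B), sq_nonneg B, sq_nonneg A,
        mul_nonneg (sub_nonneg.mpr hc1) (sq_nonneg B), sq_nonneg (A + c * B)]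
  -- assemble
  have e1 : ∀ x, W x = ε * Real.exp (-lam * x) := fun x => rfl
  have h5 : ∫ x in (0 : ℝ)..1, (∫ s in (-1 : ℝ)..1, f (x, s * W x) ^ 2) * W x ≤
      ∫ x in (0 : ℝ)..1, (2 * (u x ^ 2 * W x) +
        2 * ε ^ 2 * ((∫ s in (-1 : ℝ)..1, grad2 f (x, s * W x)) * W x)) := by
    apply intervalIntegral.integral_mono_on zero_le_one _ _ step1
    · exact (hI1.mul hWc).intervalIntegrable _ _
    · apply Continuous.intervalIntegrable
      exact ((huc.pow 2).mul hWc).const_mul 2 |>.add ((hI2.mul hWc).const_mul _)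
  rw [intervalIntegral.integral_add, intervalIntegral.integral_const_mul,
    intervalIntegral.integral_const_mul] at h5
  · have h6 : ∫ x in (0 : ℝ)..1, u x ^ 2 * W x ≤ (4 / lam ^ 2) *
        ∫ x in (0 : ℝ)..1, (∫ s in (-1 : ℝ)..1, grad2 f (x, s * W x)) * W x := by
      have h7 : ∫ x in (0 : ℝ)..1, u x ^ 2 * W x = ε * ∫ x in (0 : ℝ)..1, u x ^ 2 *
          Real.exp (-lam * x) := by
        rw [← intervalIntegral.integral_const_mul]
        apply intervalIntegral.integral_congr
        intro x _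
        simp only [e1]; ring
      have h8 : ε * ∫ x in (0 : ℝ)..1, u' x ^ 2 * Real.exp (-lam * x) ≤
          ∫ x in (0 : ℝ)..1, (∫ s in (-1 : ℝ)..1, grad2 f (x, s * W x)) * W x := by
        rw [← intervalIntegral.integral_const_mul]
        apply intervalIntegral.integral_mono_on zero_le_one
        · apply Continuous.intervalIntegrable
          fun_prop
        · exact (hI2.mul hWc).intervalIntegrable _ _
        · intro x hx01
          have h9 := mul_le_mul_of_nonneg_right (step2 x hx01) (hWpos x).le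
          rw [e1] at h9 ⊢
          linarith
      rw [h7]
      have h9 := mul_le_mul_of_nonneg_left hHardy hε.le
      have h10 : 0 < 4 / lam ^ 2 := by positivity
      calc ε * ∫ x in (0 : ℝ)..1, u x ^ 2 * Real.exp (-lam * x) ≤
          ε * ((4 / lam ^ 2) * ∫ x in (0 : ℝ)..1, u' x ^ 2 * Real.exp (-lam * x)) := h9
        _ = (4 / lam ^ 2) * (ε * ∫ x in (0 : ℝ)..1, u' x ^ 2 * Real.exp (-lam * x)) := by ring
        _ ≤ _ := mul_le_mul_of_nonneg_left h8 h10.le
    have h7 : (8 / lam ^ 2 + 2 * ε ^ 2) * ∫ x in (0 : ℝ)..1,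
        (∫ s in (-1 : ℝ)..1, grad2 f (x, s * W x)) * W x = 2 * ((4 / lam ^ 2) *
        ∫ x in (0 : ℝ)..1, (∫ s in (-1 : ℝ)..1, grad2 f (x, s * W x)) * W x) +
        2 * ε ^ 2 * ∫ x in (0 : ℝ)..1,
        (∫ s in (-1 : ℝ)..1, grad2 f (x, s * W x)) * W x := by ring
    rw [h7]
    linarith
  · apply Continuous.intervalIntegrable
    exact ((huc.pow 2).mul hWc).const_mul 2
  · apply Continuous.intervalIntegrable
    exact (hI2.mul hWc).const_mul _

end Q96.Horn
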