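import Mathlib
import Pool.Agent.Q96.Horn

/-!
# A Poincaré inequality with constant `1/9` on unit cubes of `ℝ³`
-/

set_option autoImplicit false

open MeasureTheory Set Filter Topology

namespace Q96.CubePoincare

/-- `∫ G² ≤ (1/9) ∫ g²` for a primitive `G` of `g` vanishing at both ends of `[0,1]` -/
lemma dirichlet (G g : ℝ → ℝ) (hG : ∀ x, HasDerivAt G (g x) x) (hg : Continuous g)
    (h0 : G 0 = 0) (h1 : G 1 = 0) :
    9 * ∫ x in (0 : ℝ)..1, G x ^ 2 ≤ ∫ x in (0 : ℝ)..1, g x ^ 2 := by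
  have hGc : Continuous G := continuous_iff_continuousAt.mpr fun x => (hG x).continuousAt
  set T : ℝ → ℝ := fun x => Real.tan (3 * (x - 1 / 2)) with hT
  have hcos : ∀ x ∈ uIcc (0 : ℝ) 1, Real.cos (3 * (x - 1 / 2)) ≠ 0 := by
    intro x hx
    rw [uIcc_of_le zero_le_one] at hx
    apply ne_of_gt
    apply Real.cos_pos_of_mem_Ioo
    have := Real.pi_gt_three
    constructor <;> linarith [hx.1, hx.2]
  have hTd : ∀ x ∈ uIcc (0 : ℝ) 1, HasDerivAt T (3 * (1 + T x ^ 2)) x := by
    intro x hx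
    have h2 : HasDerivAt (fun x : ℝ => 3 * (x - 1 / 2)) 3 x := by
      have := ((hasDerivAt_id x).sub_const (1 / 2)).const_mul 3
      simpa using this
    have h3 := (Real.hasDerivAt_tan (hcos x hx)).comp x h2
    refine h3.congr_deriv ?_
    have h4 : 1 / Real.cos (3 * (x - 1 / 2)) ^ 2 = 1 + T x ^ 2 := by
      simp only [hT]
      have hc2 : Real.cos (3 * (x - 1 / 2)) ^ 2 ≠ 0 := pow_ne_zero 2 (hcos x hx)
      rw [Real.tan_eq_sin_div_cos, div_pow, div_eq_iff hc2, add_mul, div_mul_cancel₀ _ hc2,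
        one_mul, add_comm, Real.sin_sq_add_cos_sq]
    rw [h4]; ring
  have hTc : ContinuousOn T (uIcc 0 1) := fun x hx => (hTd x hx).continuousAt.continuousWithinAt
  have hPd : ∀ x ∈ uIcc (0 : ℝ) 1, HasDerivAt (fun x => -3 * (G x ^ 2 * T x))
      (-6 * (G x * g x * T x) - 9 * (G x ^ 2 * (1 + T x ^ 2))) x := by
    intro x hx
    have := (((hG x).pow 2).mul (hTd x hx)).const_mul (-3)
    refine this.congr_deriv ?_
    simp only [Pi.pow_apply]
    push_cast
    ring
  have hint : IntervalIntegrable (fun x => -6 * (G x * g x * T x) - 9 * (G x ^ 2 * (1 + T x ^ 2)))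
      volume 0 1 := by
    apply ContinuousOn.intervalIntegrable
    fun_prop
  have h2 := intervalIntegral.integral_eq_sub_of_hasDerivAt hPd hint
  simp only [h0, h1] at h2
  have h3 : ∫ x in (0 : ℝ)..1, ((-6 * (G x * g x * T x) - 9 * (G x ^ 2 * (1 + T x ^ 2))) +
      9 * G x ^ 2) ≤ ∫ x in (0 : ℝ)..1, g x ^ 2 := by
    apply intervalIntegral.integral_mono_on zero_le_one
    · apply ContinuousOn.intervalIntegrable
      fun_prop
    · exact (hg.pow 2).intervalIntegrable _ _
    · intro x _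
      nlinarith [sq_nonneg (g x + 3 * T x * G x)]
  rw [intervalIntegral.integral_add hint (by apply Continuous.intervalIntegrable; fun_prop), h2,
    intervalIntegral.integral_const_mul] at h3
  linarith

/-- the one dimensional Poincaré inequality -/
lemma poincare (g g' : ℝ → ℝ) (hg : ∀ x, HasDerivAt g (g' x) x) (hg' : Continuous g') :
    ∫ x in (0 : ℝ)..1, g x ^ 2 ≤ (∫ x in (0 : ℝ)..1, g x) ^ 2 +
      (1 / 9) * ∫ x in (0 : ℝ)..1, g' x ^ 2 := by
  have hgc : Continuous g := continuous_iff_continuousAt.mpr fun x => (hg x).continuousAt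
  set m := ∫ x in (0 : ℝ)..1, g x with hm
  set u : ℝ → ℝ := fun x => g x - m with hu
  have huc : Continuous u := hgc.sub continuous_const
  have hud : ∀ x, HasDerivAt u (g' x) x := fun x => (hg x).sub_const m
  set G : ℝ → ℝ := fun x => ∫ t in (0 : ℝ)..x, u t with hG
  have hGd : ∀ x, HasDerivAt G (u x) x := fun x =>
    intervalIntegral.integral_hasDerivAt_right (huc.intervalIntegrable _ _)
      (huc.stronglyMeasurableAtFilter _ _) huc.continuousAt
  have hGc : Continuous G := continuous_iff_continuousAt.mpr fun x => (hGd x).continuousAt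
  have hG0 : G 0 = 0 := by simp [hG]
  have hG1 : G 1 = 0 := by
    simp only [hG, hu]
    rw [intervalIntegral.integral_sub (hgc.intervalIntegrable _ _)
      (continuous_const.intervalIntegrable _ _), intervalIntegral.integral_const, ← hm]
    simp
  have h1 := dirichlet G u hGd huc hG0 hG1
  -- integration by parts
  have h2 : ∫ x in (0 : ℝ)..1, (u x * u x + G x * g' x) = 0 := by
    have h3 : ∀ x ∈ uIcc (0 : ℝ) 1, HasDerivAt (fun x => G x * u x) (u x * u x + G x * g' x) x :=
      fun x _ => (hGd x).mul (hud x)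
    rw [intervalIntegral.integral_eq_sub_of_hasDerivAt h3
      (by apply Continuous.intervalIntegrable; fun_prop), hG0, hG1]
    ring
  have h3 : ∫ x in (0 : ℝ)..1, ((1 / 2) * u x ^ 2 + (u x * u x + G x * g' x)) ≥
      ∫ x in (0 : ℝ)..1, ((3 / 2) * u x ^ 2 - ((9 / 2) * G x ^ 2 + (1 / 18) * g' x ^ 2)) := by
    apply intervalIntegral.integral_mono_on zero_le_one
    · apply Continuous.intervalIntegrable; fun_prop
    · apply Continuous.intervalIntegrable; fun_prop
    · intro x _
      nlinarith [sq_nonneg (3 * G x + (1 / 3) * g' x)]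
  rw [intervalIntegral.integral_add (by apply Continuous.intervalIntegrable; fun_prop)
      (by apply Continuous.intervalIntegrable; fun_prop), h2,
    intervalIntegral.integral_sub (by apply Continuous.intervalIntegrable; fun_prop)
      (by apply Continuous.intervalIntegrable; fun_prop),
    intervalIntegral.integral_add (by apply Continuous.intervalIntegrable; fun_prop)
      (by apply Continuous.intervalIntegrable; fun_prop),
    intervalIntegral.integral_const_mul, intervalIntegral.integral_const_mul,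
    intervalIntegral.integral_const_mul, intervalIntegral.integral_const_mul] at h3
  have h4 : ∫ x in (0 : ℝ)..1, u x ^ 2 ≤ (1 / 9) * ∫ x in (0 : ℝ)..1, g' x ^ 2 := by linarith
  have h5 : ∫ x in (0 : ℝ)..1, u x ^ 2 = (∫ x in (0 : ℝ)..1, g x ^ 2) - m ^ 2 := by
    have h6 : ∀ x, u x ^ 2 = (g x ^ 2 - (2 * m) * g x) + m ^ 2 := fun x => by
      simp only [hu]; ring
    simp_rw [h6]
    rw [intervalIntegral.integral_add (by apply Continuous.intervalIntegrable; fun_prop)
        (by apply Continuous.intervalIntegrable; fun_prop),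
      intervalIntegral.integral_sub (by apply Continuous.intervalIntegrable; fun_prop)
        (by apply Continuous.intervalIntegrable; fun_prop),
      intervalIntegral.integral_const_mul, intervalIntegral.integral_const, ← hm]
    simp
    ring
  linarith

/-- Jensen on the unit interval -/
lemma jensen01 (h : ℝ → ℝ) (hh : Continuous h) :
    (∫ s in (0 : ℝ)..1, h s) ^ 2 ≤ ∫ s in (0 : ℝ)..1, h s ^ 2 := by
  set m := ∫ s in (0 : ℝ)..1, h s with hm
  have h1 : 0 ≤ ∫ s in (0 : ℝ)..1, (h s - m) ^ 2 :=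
    intervalIntegral.integral_nonneg (by norm_num) fun _ _ => sq_nonneg _
  have h2 : ∫ s in (0 : ℝ)..1, (h s - m) ^ 2 = (∫ s in (0 : ℝ)..1, h s ^ 2) - m ^ 2 := by
    have h5 : ∀ r, (h r - m) ^ 2 = (h r ^ 2 - (2 * m) * h r) + m ^ 2 := fun r => by ring
    simp_rw [h5]
    rw [intervalIntegral.integral_add (by apply Continuous.intervalIntegrable; fun_prop)
        (by apply Continuous.intervalIntegrable; fun_prop),
      intervalIntegral.integral_sub (by apply Continuous.intervalIntegrable; fun_prop)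
        (by apply Continuous.intervalIntegrable; fun_prop),
      intervalIntegral.integral_const_mul, intervalIntegral.integral_const, ← hm]
    simp
    ring
  linarith

/-- the square of the length of the gradient of a function on `ℝ³` -/
noncomputable def grad3 (f : ℝ × ℝ × ℝ → ℝ) (p : ℝ × ℝ × ℝ) : ℝ :=
  (fderiv ℝ f p (1, 0, 0)) ^ 2 + (fderiv ℝ f p (0, 1, 0)) ^ 2 + (fderiv ℝ f p (0, 0, 1)) ^ 2

lemma grad3_nonneg (f : ℝ × ℝ × ℝ → ℝ) (p : ℝ × ℝ × ℝ) : 0 ≤ grad3 f p := by
  unfold grad3; positivity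

lemma continuous_part {f : ℝ × ℝ × ℝ → ℝ} (hf : ContDiff ℝ 1 f) (v : ℝ × ℝ × ℝ) :
    Continuous fun z => fderiv ℝ f z v := by
  have h1 : Continuous (fderiv ℝ f) := hf.continuous_fderiv (by norm_num)
  exact h1.clm_apply continuous_const

lemma continuous_grad3 {f : ℝ × ℝ × ℝ → ℝ} (hf : ContDiff ℝ 1 f) : Continuous (grad3 f) := by
  unfold grad3
  exact (((continuous_part hf _).pow 2).add ((continuous_part hf _).pow 2)).add
    ((continuous_part hf _).pow 2)

/-- continuity of parametric integrals -/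
lemma cont_int {E : Type*} [TopologicalSpace E] (F : E → ℝ → ℝ)
    (hF : Continuous fun q : E × ℝ => F q.1 q.2) [FirstCountableTopology E]
    [LocallyCompactSpace E] (a b : ℝ) : Continuous fun x => ∫ s in a..b, F x s :=
  intervalIntegral.continuous_parametric_intervalIntegral_of_continuous' hF a b

/-- differentiation under the integral sign in the first variable of three -/
lemma param_deriv2 (F F' : ℝ → ℝ × ℝ → ℝ) (hF : Continuous (fun z : ℝ × ℝ × ℝ => F z.1 z.2))
    (hF' : Continuous (fun z : ℝ × ℝ × ℝ => F' z.1 z.2))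
    (hd : ∀ x q, HasDerivAt (fun x => F x q) (F' x q) x) (x₀ : ℝ) :
    HasDerivAt (fun x => ∫ y in (0 : ℝ)..1, ∫ z in (0 : ℝ)..1, F x (y, z))
      (∫ y in (0 : ℝ)..1, ∫ z in (0 : ℝ)..1, F' x₀ (y, z)) x₀ := by
  apply Q96.Horn.param_deriv (fun x y => ∫ z in (0 : ℝ)..1, F x (y, z))
    (fun x y => ∫ z in (0 : ℝ)..1, F' x (y, z))
  · exact cont_int (fun q : ℝ × ℝ => fun z => F q.1 (q.2, z)) (hF.comp
      (by fun_prop : Continuous fun q : (ℝ × ℝ) × ℝ => ((q.1.1, q.1.2, q.2) : ℝ × ℝ × ℝ))) 0 1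
  · exact cont_int (fun q : ℝ × ℝ => fun z => F' q.1 (q.2, z)) (hF'.comp
      (by fun_prop : Continuous fun q : (ℝ × ℝ) × ℝ => ((q.1.1, q.1.2, q.2) : ℝ × ℝ × ℝ))) 0 1
  · intro x y
    apply Q96.Horn.param_deriv (fun x z => F x (y, z)) (fun x z => F' x (y, z))
    · exact hF.comp (by fun_prop : Continuous fun q : ℝ × ℝ => ((q.1, y, q.2) : ℝ × ℝ × ℝ))
    · exact hF'.comp (by fun_prop : Continuous fun q : ℝ × ℝ => ((q.1, y, q.2) : ℝ × ℝ × ℝ))
    · exact fun x z => hd x (y, z)

section cube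

variable (f : ℝ × ℝ × ℝ → ℝ) (hf : ContDiff ℝ 1 f)

include hf

lemma hdx (x y z : ℝ) : HasDerivAt (fun x => f (x, y, z)) (fderiv ℝ f (x, y, z) (1, 0, 0)) x := by
  have h1 : HasDerivAt (fun x : ℝ => ((x, y, z) : ℝ × ℝ × ℝ)) (1, 0, 0) x :=
    (hasDerivAt_id x).prodMk ((hasDerivAt_const x y).prodMk (hasDerivAt_const x z))
  exact ((hf.differentiable (by norm_num)) (x, y, z)).hasFDerivAt.comp_hasDerivAt x h1

lemma hdy (x y z : ℝ) : HasDerivAt (fun y => f (x, y, z)) (fderiv ℝ f (x, y, z) (0, 1, 0)) y := by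
  have h1 : HasDerivAt (fun y : ℝ => ((x, y, z) : ℝ × ℝ × ℝ)) (0, 1, 0) y :=
    (hasDerivAt_const y x).prodMk ((hasDerivAt_id y).prodMk (hasDerivAt_const y z))
  exact ((hf.differentiable (by norm_num)) (x, y, z)).hasFDerivAt.comp_hasDerivAt y h1

lemma hdz (x y z : ℝ) : HasDerivAt (fun z => f (x, y, z)) (fderiv ℝ f (x, y, z) (0, 0, 1)) z := by
  have h1 : HasDerivAt (fun z : ℝ => ((x, y, z) : ℝ × ℝ × ℝ)) (0, 0, 1) z :=
    (hasDerivAt_const z x).prodMk ((hasDerivAt_const z y).prodMk (hasDerivAt_id z))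
  exact ((hf.differentiable (by norm_num)) (x, y, z)).hasFDerivAt.comp_hasDerivAt z h1

/-- the mean over the cross-section -/
noncomputable def sect (f : ℝ × ℝ × ℝ → ℝ) (x : ℝ) : ℝ :=
  ∫ y in (0 : ℝ)..1, ∫ z in (0 : ℝ)..1, f (x, y, z)

omit hf in
lemma cont_in {g : ℝ × ℝ × ℝ → ℝ} (hg : Continuous g) :
    Continuous fun q : ℝ × ℝ => ∫ z in (0 : ℝ)..1, g (q.1, q.2, z) :=
  cont_int (fun q : ℝ × ℝ => fun z => g (q.1, q.2, z)) (hg.comp (by fun_prop)) 0 1

omit hf in
lemma cont_sect {g : ℝ × ℝ × ℝ → ℝ} (hg : Continuous g) : Continuous (sect g) :=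
  cont_int (fun x : ℝ => fun y => ∫ z in (0 : ℝ)..1, g (x, y, z)) (cont_in hg) 0 1

omit hf in
lemma sect_mono {g h : ℝ × ℝ × ℝ → ℝ} (hg : Continuous g) (hh : Continuous h)
    (hgh : ∀ p, g p ≤ h p) (x : ℝ) : sect g x ≤ sect h x := by
  unfold sect
  apply intervalIntegral.integral_mono_on zero_le_one
  · exact ((cont_in hg).comp (by fun_prop : Continuous fun y : ℝ => ((x, y) : ℝ × ℝ))).intervalIntegrable _ _
  · exact ((cont_in hh).comp (by fun_prop : Continuous fun y : ℝ => ((x, y) : ℝ × ℝ))).intervalIntegrable _ _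
  · intro y _
    apply intervalIntegral.integral_mono_on zero_le_one
    · exact (hg.comp (by fun_prop : Continuous fun z : ℝ => ((x, y, z) : ℝ × ℝ × ℝ))).intervalIntegrable _ _
    · exact (hh.comp (by fun_prop : Continuous fun z : ℝ => ((x, y, z) : ℝ × ℝ × ℝ))).intervalIntegrable _ _
    · exact fun z _ => hgh _

/-- the cross-sectional inequality -/
lemma sect_ineq (x : ℝ) : sect (fun p => f p ^ 2) x ≤ sect f x ^ 2 +
    (1 / 9) * sect (fun p => (fderiv ℝ f p (0, 1, 0)) ^ 2 + (fderiv ℝ f p (0, 0, 1)) ^ 2) x := by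
  have hfc : Continuous f := hf.continuous
  have hy := continuous_part hf (0, 1, 0)
  have hz := continuous_part hf (0, 0, 1)
  -- integrate in `z`
  have h1 : ∀ y, ∫ z in (0 : ℝ)..1, f (x, y, z) ^ 2 ≤ (∫ z in (0 : ℝ)..1, f (x, y, z)) ^ 2 +
      (1 / 9) * ∫ z in (0 : ℝ)..1, (fderiv ℝ f (x, y, z) (0, 0, 1)) ^ 2 := fun y =>
    poincare _ _ (hdz f hf x y) (hz.comp (by fun_prop))
  -- the partial mean
  set g : ℝ → ℝ := fun y => ∫ z in (0 : ℝ)..1, f (x, y, z) with hg
  set g' : ℝ → ℝ := fun y => ∫ z in (0 : ℝ)..1, fderiv ℝ f (x, y, z) (0, 1, 0) with hg'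
  have hgd : ∀ y, HasDerivAt g (g' y) y := fun y =>
    Q96.Horn.param_deriv (fun y z => f (x, y, z)) (fun y z => fderiv ℝ f (x, y, z) (0, 1, 0))
      (hfc.comp (by fun_prop)) (hy.comp (by fun_prop)) (fun y z => hdy f hf x y z) 0 1 y
  have hg'c : Continuous g' :=
    (cont_in hy).comp (by fun_prop : Continuous fun y : ℝ => ((x, y) : ℝ × ℝ))
  have h2 := poincare g g' hgd hg'c
  have h3 : ∫ y in (0 : ℝ)..1, g' y ^ 2 ≤
      ∫ y in (0 : ℝ)..1, ∫ z in (0 : ℝ)..1, (fderiv ℝ f (x, y, z) (0, 1, 0)) ^ 2 := by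
    apply intervalIntegral.integral_mono_on zero_le_one
    · exact (hg'c.pow 2).intervalIntegrable _ _
    · exact ((cont_in (g := fun p => (fderiv ℝ f p (0, 1, 0)) ^ 2) (hy.pow 2)).comp
        (by fun_prop : Continuous fun y : ℝ => ((x, y) : ℝ × ℝ))).intervalIntegrable _ _
    · intro y _
      exact jensen01 _ (hy.comp (by fun_prop))
  have hgc : Continuous g := continuous_iff_continuousAt.mpr fun y => (hgd y).continuousAt
  have hI1 : Continuous fun y => ∫ z in (0 : ℝ)..1, (fderiv ℝ f (x, y, z) (0, 0, 1)) ^ 2 :=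
    (cont_in (g := fun p => (fderiv ℝ f p (0, 0, 1)) ^ 2) (hz.pow 2)).comp
        (by fun_prop : Continuous fun y : ℝ => ((x, y) : ℝ × ℝ))
  have hI2 : Continuous fun y => ∫ z in (0 : ℝ)..1, (fderiv ℝ f (x, y, z) (0, 1, 0)) ^ 2 :=
    (cont_in (g := fun p => (fderiv ℝ f p (0, 1, 0)) ^ 2) (hy.pow 2)).comp
        (by fun_prop : Continuous fun y : ℝ => ((x, y) : ℝ × ℝ))
  have h4 : sect (fun p => f p ^ 2) x ≤ ∫ y in (0 : ℝ)..1, (g y ^ 2 +
      (1 / 9) * ∫ z in (0 : ℝ)..1, (fderiv ℝ f (x, y, z) (0, 0, 1)) ^ 2) := by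
    unfold sect
    apply intervalIntegral.integral_mono_on zero_le_one
    · exact ((cont_in (g := fun p => f p ^ 2) (hfc.pow 2)).comp
        (by fun_prop : Continuous fun y : ℝ => ((x, y) : ℝ × ℝ))).intervalIntegrable _ _
    · exact ((hgc.pow 2).add (hI1.const_mul _)).intervalIntegrable _ _
    · exact fun y _ => h1 y
  have hgc2 : Continuous fun y => g y ^ 2 := hgc.pow 2
  have hI1' : Continuous fun y => (1 / 9) * ∫ z in (0 : ℝ)..1,
      (fderiv ℝ f (x, y, z) (0, 0, 1)) ^ 2 := hI1.const_mul _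
  rw [intervalIntegral.integral_add (hgc2.intervalIntegrable _ _)
    (hI1'.intervalIntegrable _ _), intervalIntegral.integral_const_mul] at h4
  have h5 : sect (fun p => (fderiv ℝ f p (0, 1, 0)) ^ 2 + (fderiv ℝ f p (0, 0, 1)) ^ 2) x =
      (∫ y in (0 : ℝ)..1, ∫ z in (0 : ℝ)..1, (fderiv ℝ f (x, y, z) (0, 1, 0)) ^ 2) +
      ∫ y in (0 : ℝ)..1, ∫ z in (0 : ℝ)..1, (fderiv ℝ f (x, y, z) (0, 0, 1)) ^ 2 := by
    unfold sect
    rw [← intervalIntegral.integral_add (hI2.intervalIntegrable _ _) (hI1.intervalIntegrable _ _)]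
    apply intervalIntegral.integral_congr
    intro y _
    simp only
    rw [intervalIntegral.integral_add]
    · exact ((hy.pow 2).comp (by fun_prop : Continuous fun z : ℝ => ((x, y, z) : ℝ × ℝ × ℝ))).intervalIntegrable _ _
    · exact ((hz.pow 2).comp (by fun_prop : Continuous fun z : ℝ => ((x, y, z) : ℝ × ℝ × ℝ))).intervalIntegrable _ _
  rw [h5]
  have h6 : sect f x = ∫ y in (0 : ℝ)..1, g y := rfl
  rw [h6]
  linarith

/-- the derivative of the cross-sectional mean -/
lemma sect_deriv (x : ℝ) : HasDerivAt (sect f) (sect (fun p => fderiv ℝ f p (1, 0, 0)) x) x :=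
  param_deriv2 (fun x q => f (x, q)) (fun x q => fderiv ℝ f (x, q) (1, 0, 0))
    hf.continuous (continuous_part hf (1, 0, 0)) (fun x q => hdx f hf x q.1 q.2) x

lemma sect_deriv_sq (x : ℝ) : sect (fun p => fderiv ℝ f p (1, 0, 0)) x ^ 2 ≤
    sect (fun p => (fderiv ℝ f p (1, 0, 0)) ^ 2) x := by
  have hx := continuous_part hf (1, 0, 0)
  unfold sect
  refine le_trans (jensen01 _ ((cont_in hx).comp
    (by fun_prop : Continuous fun y : ℝ => ((x, y) : ℝ × ℝ)))) ?_
  apply intervalIntegral.integral_mono_on zero_le_one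
  · exact (((cont_in hx).comp
      (by fun_prop : Continuous fun y : ℝ => ((x, y) : ℝ × ℝ))).pow 2).intervalIntegrable _ _
  · exact ((cont_in (g := fun p => (fderiv ℝ f p (1, 0, 0)) ^ 2) (hx.pow 2)).comp
        (by fun_prop : Continuous fun y : ℝ => ((x, y) : ℝ × ℝ))).intervalIntegrable _ _
  · intro y _
    exact jensen01 _ (hx.comp (by fun_prop))

/-- **Poincaré inequality on a rod** cut into unit cubes -/
theorem rod (k : ℕ) (h0 : ∀ i < k, ∫ x in (i : ℝ)..(i + 1 : ℕ), sect f x = 0) :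
    ∫ x in (0 : ℝ)..k, sect (fun p => f p ^ 2) x ≤
      (1 / 9) * ∫ x in (0 : ℝ)..k, sect (grad3 f) x := by
  have hfc : Continuous f := hf.continuous
  have hx := continuous_part hf (1, 0, 0)
  have hy := continuous_part hf (0, 1, 0)
  have hz := continuous_part hf (0, 0, 1)
  have hc1 : Continuous (sect fun p => f p ^ 2) := cont_sect (hfc.pow 2)
  have hc2 : Continuous (sect (grad3 f)) := cont_sect (continuous_grad3 hf)
  have hcube : ∀ i < k, ∫ x in (i : ℝ)..(i + 1 : ℕ), sect (fun p => f p ^ 2) x ≤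
      (1 / 9) * ∫ x in (i : ℝ)..(i + 1 : ℕ), sect (grad3 f) x := by
    intro i hi
    have hshift : ∀ F : ℝ → ℝ, ∫ x in (i : ℝ)..(i + 1 : ℕ), F x = ∫ x in (0 : ℝ)..1, F (x + i) := by
      intro F
      rw [intervalIntegral.integral_comp_add_right]
      simp only [zero_add]
      congr 1
      push_cast; ring
    have h1 := poincare (fun x => sect f (x + i))
      (fun x => sect (fun p => fderiv ℝ f p (1, 0, 0)) (x + i))
      (fun x => (sect_deriv f hf (x + i)).comp_add_const x i)
      ((cont_sect hx).comp (by fun_prop))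
    have h2 := h0 i hi
    rw [hshift] at h2
    rw [h2] at h1
    rw [hshift, hshift, ← intervalIntegral.integral_const_mul]
    have h3 : ∫ x in (0 : ℝ)..1, sect (fun p => f p ^ 2) (x + i) ≤
        ∫ x in (0 : ℝ)..1, (sect f (x + i) ^ 2 + (1 / 9) *
          sect (fun p => (fderiv ℝ f p (0, 1, 0)) ^ 2 + (fderiv ℝ f p (0, 0, 1)) ^ 2) (x + i)) := by
      apply intervalIntegral.integral_mono_on zero_le_one
      · exact (hc1.comp (by fun_prop)).intervalIntegrable _ _
      · exact ((((cont_sect hfc).comp (by fun_prop)).pow 2).add (((cont_sect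
          ((hy.pow 2).add (hz.pow 2))).comp (by fun_prop)).const_mul _)).intervalIntegrable _ _
      · exact fun x _ => sect_ineq f hf (x + i)
    have hcc1 : Continuous fun x : ℝ => sect f (x + i) ^ 2 :=
      ((cont_sect hfc).comp (by fun_prop : Continuous fun x : ℝ => x + (i : ℝ))).pow 2
    have hcc2 : Continuous fun x : ℝ => (1 / 9) *
          sect (fun p => (fderiv ℝ f p (0, 1, 0)) ^ 2 + (fderiv ℝ f p (0, 0, 1)) ^ 2) (x + i) :=
      ((cont_sect ((hy.pow 2).add (hz.pow 2))).comp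
        (by fun_prop : Continuous fun x : ℝ => x + (i : ℝ))).const_mul _
    rw [intervalIntegral.integral_add (hcc1.intervalIntegrable _ _)
      (hcc2.intervalIntegrable _ _)] at h3
    have hcc3 : Continuous fun x : ℝ => (1 / 9) *
          sect (fun p => (fderiv ℝ f p (1, 0, 0)) ^ 2) (x + i) :=
      ((cont_sect (hx.pow 2)).comp
        (by fun_prop : Continuous fun x : ℝ => x + (i : ℝ))).const_mul _
    have h4 : (1 / 9) * ∫ x in (0 : ℝ)..1, sect (fun p => fderiv ℝ f p (1, 0, 0)) (x + i) ^ 2 ≤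
        ∫ x in (0 : ℝ)..1, (1 / 9) * sect (fun p => (fderiv ℝ f p (1, 0, 0)) ^ 2) (x + i) := by
      rw [← intervalIntegral.integral_const_mul]
      apply intervalIntegral.integral_mono_on zero_le_one
      · exact ((((cont_sect hx).comp
          (by fun_prop : Continuous fun x : ℝ => x + (i : ℝ))).pow 2).const_mul _).intervalIntegrable _ _
      · exact hcc3.intervalIntegrable _ _
      · intro x _
        exact mul_le_mul_of_nonneg_left (sect_deriv_sq f hf (x + i)) (by norm_num)
    have h5 : ∫ x in (0 : ℝ)..1, (1 / 9) * sect (grad3 f) (x + i) =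
        (∫ x in (0 : ℝ)..1, (1 / 9) * sect (fun p => (fderiv ℝ f p (1, 0, 0)) ^ 2) (x + i)) +
        ∫ x in (0 : ℝ)..1, (1 / 9) *
          sect (fun p => (fderiv ℝ f p (0, 1, 0)) ^ 2 + (fderiv ℝ f p (0, 0, 1)) ^ 2) (x + i) := by
      rw [← intervalIntegral.integral_add (hcc3.intervalIntegrable _ _)
        (hcc2.intervalIntegrable _ _)]
      apply intervalIntegral.integral_congr
      intro x _
      simp only
      rw [← mul_add]
      congr 1
      unfold sect grad3
      rw [← intervalIntegral.integral_add]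
      · apply intervalIntegral.integral_congr
        intro y _
        simp only
        rw [← intervalIntegral.integral_add]
        · apply intervalIntegral.integral_congr
          intro z _
          simp only
          ring
        · exact ((hx.pow 2).comp (by fun_prop : Continuous fun z : ℝ => ((x + i, y, z) : ℝ × ℝ × ℝ))).intervalIntegrable _ _
        · exact (((hy.pow 2).add (hz.pow 2)).comp (by fun_prop : Continuous fun z : ℝ => ((x + i, y, z) : ℝ × ℝ × ℝ))).intervalIntegrable _ _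
      · exact ((cont_in (g := fun p => (fderiv ℝ f p (1, 0, 0)) ^ 2) (hx.pow 2)).comp
          (by fun_prop : Continuous fun y : ℝ => ((x + i, y) : ℝ × ℝ))).intervalIntegrable _ _
      · exact ((cont_in (g := fun p => (fderiv ℝ f p (0, 1, 0)) ^ 2 + (fderiv ℝ f p (0, 0, 1)) ^ 2)
          ((hy.pow 2).add (hz.pow 2))).comp
          (by fun_prop : Continuous fun y : ℝ => ((x + i, y) : ℝ × ℝ))).intervalIntegrable _ _
    rw [h5]
    have h6 : ((0 : ℝ)) ^ 2 = 0 := by norm_num
    rw [h6] at h1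
    linarith
  have hs1 : ∫ x in (0 : ℝ)..k, sect (fun p => f p ^ 2) x =
      ∑ i ∈ Finset.range k, ∫ x in (i : ℝ)..(i + 1 : ℕ), sect (fun p => f p ^ 2) x := by
    have := intervalIntegral.sum_integral_adjacent_intervals (a := fun i : ℕ => (i : ℝ)) (n := k)
      (f := sect fun p => f p ^ 2) (μ := volume) (fun i _ => hc1.intervalIntegrable _ _)
    simp only [Nat.cast_zero] at this
    rw [this]
  have hs2 : ∫ x in (0 : ℝ)..k, sect (grad3 f) x =
      ∑ i ∈ Finset.range k, ∫ x in (i : ℝ)..(i + 1 : ℕ), sect (grad3 f) x := by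
    have := intervalIntegral.sum_integral_adjacent_intervals (a := fun i : ℕ => (i : ℝ)) (n := k)
      (f := sect (grad3 f)) (μ := volume) (fun i _ => hc2.intervalIntegrable _ _)
    simp only [Nat.cast_zero] at this
    rw [this]
  rw [hs1, hs2, Finset.mul_sum]
  exact Finset.sum_le_sum fun i hi => hcube i (Finset.mem_range.mp hi)

end cube

end Q96.CubePoincare
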