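import Mathlib

/-!
# Multilinear forms on `ℓ_p` along the unit vector basis
-/

set_option autoImplicit false

open Filter Topology Set

namespace Q96.DiagLp

/-- a Banach space with an `ℓ_p`-like basis -/
structure LpBasis (X : Type*) [NormedAddCommGroup X] [NormedSpace ℝ X] (p : ℝ) where
  e : ℕ → X
  c : ℕ → StrongDual ℝ X
  hp : 1 ≤ p
  hce : ∀ i j, c i (e j) = if i = j then 1 else 0
  h1 : ∀ (S : Finset ℕ) (a : ℕ → ℝ), ‖∑ i ∈ S, a i • e i‖ ^ p = ∑ i ∈ S, |a i| ^ p
  h2 : ∀ (x : X) (S : Finset ℕ), ∑ i ∈ S, |c i x| ^ p ≤ ‖x‖ ^ p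
  h3 : ∀ (x : X) (η : ℝ), 0 < η → ∃ N, ∀ M ≥ N, ‖x‖ ^ p - η ≤ ∑ i ∈ Finset.range M, |c i x| ^ p

/-- the sign averaging lemma -/
lemma exists_signs (S : Finset ℕ) (M : ℕ → ℕ → ℝ) :
    ∃ η : ℕ → ℝ, (∀ i, η i = 1 ∨ η i = -1) ∧
      ∑ i ∈ S, M i i ≤ ∑ i ∈ S, ∑ k ∈ S, η i * (η k * M i k) := by
  classical
  induction S using Finset.induction_on with
  | empty => exact ⟨fun _ => 1, fun _ => Or.inl rfl, by simp⟩
  | insert a S ha ih =>
    obtain ⟨η, hη, h⟩ := ih
    set L := ∑ k ∈ S, η k * (M a k + M k a) with hL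
    set σ : ℝ := if 0 ≤ L then 1 else -1 with hσ
    have hσL : 0 ≤ σ * L := by
      rw [hσ]
      split_ifs with h0
      · linarith
      · linarith [not_le.mp h0]
    have hσ2 : σ = 1 ∨ σ = -1 := by rw [hσ]; split_ifs <;> simp
    have hσσ : σ * σ = 1 := by rcases hσ2 with h | h <;> rw [h] <;> norm_num
    refine ⟨Function.update η a σ, ?_, ?_⟩
    · intro i
      by_cases hi : i = a
      · rw [hi, Function.update_self]; exact hσ2
      · rw [Function.update_of_ne hi]; exact hη i
    · have hup : ∀ i ∈ S, Function.update η a σ i = η i := by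
        intro i hi
        rw [Function.update_of_ne]
        rintro rfl
        exact ha hi
      have h5 : ∀ i ∈ S, ∑ k ∈ insert a S, Function.update η a σ i *
          (Function.update η a σ k * M i k) =
          σ * (η i * M i a) + ∑ k ∈ S, η i * (η k * M i k) := by
        intro i hi
        rw [Finset.sum_insert ha, hup i hi, Function.update_self]
        congr 1
        · ring
        · apply Finset.sum_congr rfl
          intro k hk
          rw [hup k hk]
      have h6 : ∑ k ∈ insert a S, Function.update η a σ a *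
          (Function.update η a σ k * M a k) = M a a + σ * ∑ k ∈ S, η k * M a k := by
        rw [Finset.sum_insert ha, Function.update_self, Finset.mul_sum]
        congr 1
        · rw [← mul_assoc, hσσ, one_mul]
        · apply Finset.sum_congr rfl
          intro k hk
          rw [hup k hk]
      rw [Finset.sum_insert ha, Finset.sum_insert ha, h6, Finset.sum_congr rfl h5,
        Finset.sum_add_distrib, ← Finset.mul_sum]
      have h7 : σ * ∑ k ∈ S, η k * M a k + σ * ∑ i ∈ S, η i * M i a = σ * L := by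
        rw [hL, ← mul_add, ← Finset.sum_add_distrib]
        congr 1
        apply Finset.sum_congr rfl
        intro k _
        ring
      linarith

variable {X : Type*} [NormedAddCommGroup X] [NormedSpace ℝ X] {p : ℝ} (B : LpBasis X p)

namespace LpBasis

include B in
lemma ppos : 0 < p := lt_of_lt_of_le one_pos B.hp

lemma norm_sum_le (S : Finset ℕ) (a : ℕ → ℝ) (ha : ∀ i, |a i| ≤ 1) :
    ‖∑ i ∈ S, a i • B.e i‖ ≤ (S.card : ℝ) ^ (1 / p) := by
  have hp := B.ppos
  have h1 : ‖∑ i ∈ S, a i • B.e i‖ ^ p ≤ S.card := by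
    rw [B.h1]
    calc ∑ i ∈ S, |a i| ^ p ≤ ∑ _i ∈ S, (1 : ℝ) :=
          Finset.sum_le_sum fun i _ => Real.rpow_le_one (abs_nonneg _) (ha i) hp.le
      _ = S.card := by simp
  have h2 := Real.rpow_le_rpow (Real.rpow_nonneg (norm_nonneg _) _) h1
    (show 0 ≤ 1 / p by positivity)
  rwa [← Real.rpow_mul (norm_nonneg _), mul_one_div_cancel hp.ne', Real.rpow_one] at h2

lemma norm_e (n : ℕ) : ‖B.e n‖ = 1 := by
  have hp := B.ppos
  have h1 := B.h1 {n} (fun _ => 1)
  simp only [Finset.sum_singleton, one_smul, abs_one, Real.one_rpow] at h1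
  have h2 : (‖B.e n‖ ^ p) ^ (1 / p) = 1 := by rw [h1, Real.one_rpow]
  rwa [← Real.rpow_mul (norm_nonneg _), mul_one_div_cancel hp.ne', Real.rpow_one] at h2

/-- the key bound -/
lemma diag_bound {j : ℕ} (A : ContinuousMultilinearMap ℝ (fun _ : Fin j => X) ℝ)
    (S : Finset ℕ) (s : Finset (Fin j)) (hs : s.Nonempty) :
    ∀ (w : Fin j → X), (∀ l, ‖w l‖ ≤ 1) → ∀ θ : ℕ → ℝ, (∀ i, |θ i| ≤ 1) →
      |∑ i ∈ S, θ i * A (s.piecewise (fun _ => B.e i) w)| ≤
        ‖A‖ * ((S.card : ℝ) ^ (1 / p)) ^ s.card := by
  classical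
  set c : ℝ := (S.card : ℝ) ^ (1 / p) with hc
  have hc0 : 0 ≤ c := Real.rpow_nonneg (Nat.cast_nonneg _) _
  have hAle : ∀ v : Fin j → X, (∀ l, ‖v l‖ ≤ 1) → |A v| ≤ ‖A‖ := by
    intro v hv
    refine le_trans (A.le_opNorm v) (mul_le_of_le_one_right (norm_nonneg _) ?_)
    exact Finset.prod_le_one (fun _ _ => norm_nonneg _) fun l _ => hv l
  -- a linear slot
  have hslot : ∀ (v : Fin j → X) (l : Fin j) (a : ℕ → ℝ),
      ∑ k ∈ S, a k * A (Function.update v l (B.e k)) =
        A (Function.update v l (∑ k ∈ S, a k • B.e k)) := by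
    intro v l a
    have h1 : ∀ y, A (Function.update v l y) = A.toMultilinearMap.toLinearMap v l y := fun y => rfl
    rw [h1, map_sum]
    apply Finset.sum_congr rfl
    intro k _
    rw [map_smul, smul_eq_mul]
    rfl
  induction hs using Finset.Nonempty.cons_induction with
  | singleton l =>
    intro w hw θ hθ
    have h1 : ∀ i, ({l} : Finset (Fin j)).piecewise (fun _ => B.e i) w =
        Function.update w l (B.e i) := by
      intro i
      rw [Finset.piecewise_singleton]
    simp_rw [h1]
    rw [hslot w l θ, Finset.card_singleton, pow_one]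
    refine le_trans (A.le_opNorm _) (mul_le_mul_of_nonneg_left ?_ (norm_nonneg _))
    rw [← Finset.mul_prod_erase Finset.univ _ (Finset.mem_univ l), Function.update_self]
    calc ‖∑ k ∈ S, θ k • B.e k‖ * ∏ x ∈ Finset.univ.erase l,
          ‖Function.update w l (∑ k ∈ S, θ k • B.e k) x‖ ≤ c * 1 := by
          apply mul_le_mul (B.norm_sum_le S θ hθ) _ (Finset.prod_nonneg fun _ _ => norm_nonneg _)
            hc0
          apply Finset.prod_le_one (fun _ _ => norm_nonneg _)
          intro x hx
          rw [Function.update_of_ne (Finset.ne_of_mem_erase hx)]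
          exact hw x
      _ = c := mul_one _
  | cons l s hl hs ih =>
    intro w hw θ hθ
    rw [Finset.card_cons, pow_succ, ← mul_assoc]
    -- the one-sided estimate
    have key : ∀ θ : ℕ → ℝ, (∀ i, |θ i| ≤ 1) →
        ∑ i ∈ S, θ i * A ((Finset.cons l s hl).piecewise (fun _ => B.e i) w) ≤
          ‖A‖ * c ^ s.card * c := by
      intro θ hθ
      obtain ⟨η, hη, h⟩ := exists_signs S (fun i k => θ k * A (Function.update
        (s.piecewise (fun _ => B.e i) w) l (B.e k)))
      have h1 : ∀ i, A ((Finset.cons l s hl).piecewise (fun _ => B.e i) w) =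
          A (Function.update (s.piecewise (fun _ => B.e i) w) l (B.e i)) := by
        intro i
        rw [Finset.cons_eq_insert, Finset.piecewise_insert]
      simp_rw [h1]
      refine le_trans h ?_
      have hηθ : ∀ k, |η k * θ k| ≤ 1 := by
        intro k
        rw [abs_mul]
        rcases hη k with h | h <;> rw [h] <;> simpa using hθ k
      have hη1 : ∀ k, |η k| ≤ 1 := by
        intro k
        rcases hη k with h | h <;> rw [h] <;> simp
      set y : X := ∑ k ∈ S, (η k * θ k) • B.e k with hy
      have hyc : ‖y‖ ≤ c := B.norm_sum_le S _ hηθ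
      have h2 : ∀ i ∈ S, ∑ k ∈ S, η i * (η k * (θ k * A (Function.update
          (s.piecewise (fun _ => B.e i) w) l (B.e k)))) =
          η i * A (s.piecewise (fun _ => B.e i) (Function.update w l y)) := by
        intro i _
        rw [← Finset.mul_sum]
        congr 1
        rw [← Finset.update_piecewise_of_notMem _ _ _ hl, hy, ← hslot]
        apply Finset.sum_congr rfl
        intro k _
        ring
      rw [Finset.sum_congr rfl h2]
      by_cases hc1 : c = 0
      · have hy0 : y = 0 := norm_le_zero_iff.mp (by rw [← hc1]; exact hyc)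
        have h3 : ∀ i ∈ S, η i * A (s.piecewise (fun _ => B.e i) (Function.update w l y)) = 0 := by
          intro i _
          rw [A.map_coord_zero (i := l)]
          · rw [mul_zero]
          · rw [Finset.piecewise_eq_of_notMem _ _ _ hl, Function.update_self, hy0]
        rw [Finset.sum_eq_zero h3, hc1]
        simp
      · have hcpos : 0 < c := lt_of_le_of_ne hc0 (Ne.symm hc1)
        have h3 : ∀ i ∈ S, η i * A (s.piecewise (fun _ => B.e i) (Function.update w l y)) =
            c * (η i * A (s.piecewise (fun _ => B.e i) (Function.update w l (c⁻¹ • y)))) := by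
          intro i _
          rw [← Finset.update_piecewise_of_notMem _ _ _ hl,
            ← Finset.update_piecewise_of_notMem _ _ _ hl, A.map_update_smul, smul_eq_mul]
          field_simp
        rw [Finset.sum_congr rfl h3, ← Finset.mul_sum, mul_comm]
        apply mul_le_mul_of_nonneg_right _ hc0
        refine le_trans (le_abs_self _) ?_
        apply ih (Function.update w l (c⁻¹ • y)) _ η hη1
        intro l'
        by_cases hl' : l' = l
        · rw [hl', Function.update_self, norm_smul, norm_inv, Real.norm_eq_abs, abs_of_pos hcpos,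
            inv_mul_le_iff₀ hcpos, mul_one]
          exact hyc
        · rw [Function.update_of_ne hl']
          exact hw l'
    rw [abs_le]
    constructor
    · have h1 := key (fun i => -θ i) (by simpa using hθ)
      simp only [neg_mul, Finset.sum_neg_distrib] at h1
      linarith
    · exact key θ hθ

lemma diag_tendsto {j : ℕ} (A : ContinuousMultilinearMap ℝ (fun _ : Fin j => X) ℝ)
    (s : Finset (Fin j)) (hs : s.Nonempty) (hsp : (s.card : ℝ) < p) (w : Fin j → X)
    (hw : ∀ l, ‖w l‖ ≤ 1) :
    Tendsto (fun n => A (s.piecewise (fun _ => B.e n) w)) atTop (𝓝 0) := by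
  classical
  have hp := B.ppos
  rw [Metric.tendsto_atTop]
  by_contra hcon
  have hcon' : ∃ ε > 0, ∀ N, ∃ n ≥ N, ε ≤ |A (s.piecewise (fun _ => B.e n) w)| := by
    by_contra h
    apply hcon
    intro ε hε
    by_contra h2
    apply h
    refine ⟨ε, hε, fun N => ?_⟩
    by_contra h3
    apply h2
    refine ⟨N, fun n hn => ?_⟩
    rw [dist_zero_right, Real.norm_eq_abs]
    by_contra h4
    exact h3 ⟨n, hn, not_lt.mp h4⟩
  obtain ⟨ε, hε, h⟩ := hcon'
  set T : Set ℕ := {n | ε ≤ |A (s.piecewise (fun _ => B.e n) w)|} with hT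
  have hinf : T.Infinite := by
    apply Set.infinite_of_not_bddAbove
    rintro ⟨N, hN⟩
    obtain ⟨n, hn, hn2⟩ := h (N + 1)
    have := hN hn2
    omega
  have hK : ∀ K : ℕ, 0 < K → (K : ℝ) ^ (1 - s.card / p) ≤ ‖A‖ / ε := by
    intro K hKpos
    obtain ⟨S, hST, hSK⟩ := hinf.exists_subset_card_eq K
    have h1 := B.diag_bound A S s hs w hw
      (fun i => (SignType.sign (A (s.piecewise (fun _ => B.e i) w)) : ℝ)) (by
        intro i
        rcases lt_trichotomy (A (s.piecewise (fun _ => B.e i) w)) 0 with h | h | h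
        · simp [sign_neg h]
        · simp [h]
        · simp [sign_pos h])
    have h2 : ∀ i ∈ S, ε ≤ (SignType.sign (A (s.piecewise (fun _ => B.e i) w)) : ℝ) *
        A (s.piecewise (fun _ => B.e i) w) := by
      intro i hi
      rw [sign_mul_self]
      exact hST hi
    have h3 := Finset.sum_le_sum h2
    rw [Finset.sum_const, nsmul_eq_mul, hSK] at h3
    have h4 := le_trans h3 (le_trans (le_abs_self _) h1)
    rw [hSK] at h4
    have hK0 : (0 : ℝ) < K := by exact_mod_cast hKpos
    have h5 : ((K : ℝ) ^ (1 / p)) ^ s.card = (K : ℝ) ^ ((s.card : ℝ) / p) := by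
      rw [← Real.rpow_natCast, ← Real.rpow_mul hK0.le]
      congr 1
      field_simp
    rw [h5] at h4
    rw [Real.rpow_sub hK0, Real.rpow_one, div_le_div_iff₀ (Real.rpow_pos_of_pos hK0 _) hε]
    exact h4
  have hlim : Tendsto (fun K : ℕ => (K : ℝ) ^ (1 - s.card / p)) atTop atTop := by
    apply (tendsto_rpow_atTop _).comp tendsto_natCast_atTop_atTop
    rw [sub_pos, div_lt_one hp]
    exact hsp
  obtain ⟨K, hK1, hK2⟩ := ((hlim.eventually_gt_atTop (‖A‖ / ε)).and
    (eventually_gt_atTop 0)).exists
  exact absurd (hK K hK2) (not_le.mpr hK1)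

/-- bounded sequences converge along ultrafilters -/
lemma exists_ultralim (U : Ultrafilter ℕ) (a : ℕ → ℝ) (M : ℝ) (ha : ∀ n, |a n| ≤ M) :
    ∃ L : ℝ, Tendsto a U (𝓝 L) ∧ |L| ≤ M := by
  have h1 : ((U.map a : Ultrafilter ℝ) : Filter ℝ) ≤ 𝓟 (Icc (-M) M) := by
    rw [Filter.le_principal_iff]
    exact Filter.mem_map.mpr (Filter.univ_mem' fun n => abs_le.mp (ha n))
  obtain ⟨L, hL, hle⟩ := isCompact_Icc.ultrafilter_le_nhds _ h1
  exact ⟨L, hle, abs_le.mpr hL⟩

lemma iter_small {j : ℕ} (hj : 1 ≤ j) (hjp : (j : ℝ) ≤ p) (hpe : ∀ k : ℕ, p ≠ 2 * k)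
    (A : ContinuousMultilinearMap ℝ (fun _ : Fin j => X) ℝ) (U : Ultrafilter ℕ)
    (hU : (U : Filter ℕ) ≤ atTop) {τ : ℝ} (hτ : 0 < τ) :
    ∀ᶠ n2 in (U : Filter ℕ), ∀ᶠ n1 in (U : Filter ℕ), |A (fun _ => B.e n1 - B.e n2)| < τ := by
  classical
  set a : ℕ → ℝ := fun n => A (fun _ => B.e n) with ha
  have hab : ∀ n, |a n| ≤ ‖A‖ := by
    intro n
    refine le_trans (A.le_opNorm _) (mul_le_of_le_one_right (norm_nonneg _) ?_)
    exact Finset.prod_le_one (fun _ _ => norm_nonneg _) fun l _ => (B.norm_e n).le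
  obtain ⟨L, hL, _⟩ := exists_ultralim U a ‖A‖ hab
  have huniv : (Finset.univ : Finset (Fin j)).Nonempty := ⟨⟨0, by omega⟩, Finset.mem_univ _⟩
  have hLL : L + (-1) ^ j * L = 0 := by
    rcases hjp.lt_or_eq with hlt | heq
    · have h1 := B.diag_tendsto A Finset.univ huniv (by
        rwa [Finset.card_univ, Fintype.card_fin]) (fun _ => 0) (fun _ => by simp)
      simp only [Finset.piecewise_univ] at h1
      have h2 : L = 0 := tendsto_nhds_unique hL (h1.mono_left hU)
      rw [h2]; simp
    · have hodd : Odd j := by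
        rw [← Nat.not_even_iff_odd]
        rintro ⟨k, hk⟩
        apply hpe k
        rw [← heq, hk]; push_cast; ring
      rw [hodd.neg_one_pow]; ring
  have hlimn2 : ∀ n2, Tendsto (fun n1 => A (fun _ => B.e n1 - B.e n2)) U
      (𝓝 (L + (-1) ^ j * a n2)) := by
    intro n2
    have h1 : ∀ n1, A (fun _ => B.e n1 - B.e n2) = ∑ s : Finset (Fin j),
        A (s.piecewise (fun _ => B.e n1) (fun _ => -B.e n2)) := by
      intro n1
      have h2 : (fun _ : Fin j => B.e n1 - B.e n2) = (fun _ => B.e n1) + (fun _ => -B.e n2) := by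
        funext l
        simp [sub_eq_add_neg]
      rw [h2]
      exact A.toMultilinearMap.map_add_univ _ _
    simp_rw [h1]
    have h2 : L + (-1) ^ j * a n2 = ∑ s : Finset (Fin j),
        ((if s = Finset.univ then L else 0) + (if s = ∅ then (-1) ^ j * a n2 else 0)) := by
      rw [Finset.sum_add_distrib, Finset.sum_ite_eq', Finset.sum_ite_eq']
      simp
    rw [h2]
    apply tendsto_finset_sum
    intro s _
    by_cases hsu : s = Finset.univ
    · have hse : s ≠ ∅ := by rw [hsu]; exact huniv.ne_empty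
      rw [if_pos hsu, if_neg hse, add_zero, hsu]
      simp only [Finset.piecewise_univ]
      exact hL
    · by_cases hse : s = ∅
      · rw [if_neg hsu, if_pos hse, zero_add, hse]
        simp only [Finset.piecewise_empty]
        have h3 : A (fun _ => -B.e n2) = (-1) ^ j * a n2 := by
          have h4 := A.toMultilinearMap.map_smul_univ (fun _ : Fin j => (-1 : ℝ))
            (fun _ => B.e n2)
          rw [Finset.prod_const, Finset.card_univ, Fintype.card_fin, smul_eq_mul] at h4
          have h5 : (fun _ : Fin j => (-1 : ℝ) • B.e n2) = fun _ => -B.e n2 := by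
            funext l; simp
          rw [h5] at h4
          exact h4
        rw [h3]
        exact tendsto_const_nhds
      · rw [if_neg hsu, if_neg hse, add_zero]
        have hcard : s.card < j := by
          have := Finset.card_lt_univ_of_notMem (s := s) (x := (Finset.exists_mem_notMem_of_card_lt_card
            (s := s) (t := Finset.univ) (by
              apply Finset.card_lt_card
              exact Finset.ssubset_univ_iff.mpr hsu)).choose) (by
              exact (Finset.exists_mem_notMem_of_card_lt_card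
                (s := s) (t := Finset.univ) (by
                  apply Finset.card_lt_card
                  exact Finset.ssubset_univ_iff.mpr hsu)).choose_spec.2)
          rwa [Fintype.card_fin] at this
        refine (B.diag_tendsto A s (Finset.nonempty_iff_ne_empty.mpr hse) ?_ _ ?_).mono_left hU
        · refine lt_of_lt_of_le ?_ hjp
          exact_mod_cast hcard
        · intro l
          rw [norm_neg, B.norm_e]
  have h3 : Tendsto (fun n2 => |L + (-1) ^ j * a n2|) U (𝓝 |L + (-1) ^ j * L|) :=
    ((hL.const_mul _).const_add _).abs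
  rw [hLL, abs_zero] at h3
  filter_upwards [h3.eventually (gt_mem_nhds hτ)] with n2 hn2
  exact (hlimn2 n2).abs.eventually (gt_mem_nhds hn2)

lemma norm_c_le (n : ℕ) (x : X) : |B.c n x| ≤ ‖x‖ := by
  have hp := B.ppos
  have h1 := B.h2 x {n}
  rw [Finset.sum_singleton] at h1
  exact (Real.rpow_le_rpow_iff (abs_nonneg _) (norm_nonneg _) hp).mp h1

lemma c_tendsto (x : X) : Tendsto (fun n => B.c n x) atTop (𝓝 0) := by
  have hp := B.ppos
  have hs : Summable fun n => |B.c n x| ^ p :=
    summable_of_sum_le (fun n => Real.rpow_nonneg (abs_nonneg _) _) (B.h2 x)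
  have h1 := hs.tendsto_atTop_zero
  have h2 : Tendsto (fun n => (|B.c n x| ^ p) ^ (1 / p)) atTop (𝓝 (0 ^ (1 / p))) :=
    h1.rpow_const (Or.inr (by positivity))
  rw [Real.zero_rpow (by positivity)] at h2
  have h3 : ∀ n, (|B.c n x| ^ p) ^ (1 / p) = |B.c n x| := by
    intro n
    rw [← Real.rpow_mul (abs_nonneg _), mul_one_div_cancel hp.ne', Real.rpow_one]
  simp only [h3] at h2
  exact tendsto_zero_iff_abs_tendsto_zero _ |>.mpr h2

/-- the diagonal limit functional -/
lemma exists_Lam (U : Ultrafilter ℕ) : ∃ Λ : (X →L[ℝ] X) →L[ℝ] ℝ,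
    ∀ T, Tendsto (fun n => B.c n (T (B.e n))) U (𝓝 (Λ T)) := by
  have hb : ∀ (T : X →L[ℝ] X) n, |B.c n (T (B.e n))| ≤ ‖T‖ := by
    intro T n
    refine le_trans (B.norm_c_le n _) (le_trans (T.le_opNorm _) ?_)
    rw [B.norm_e, mul_one]
  choose f hf1 hf2 using fun T : X →L[ℝ] X => exists_ultralim U _ _ (hb T)
  refine ⟨LinearMap.mkContinuous { toFun := f, map_add' := ?_, map_smul' := ?_ } 1 ?_, ?_⟩
  · intro S T
    apply tendsto_nhds_unique (hf1 (S + T))
    have := (hf1 S).add (hf1 T)
    refine this.congr fun n => ?_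
    rw [add_apply, map_add]
  · intro r T
    apply tendsto_nhds_unique (hf1 (r • T))
    have := (hf1 T).const_mul r
    refine this.congr fun n => ?_
    rw [smul_apply, map_smul, smul_eq_mul]
  · intro T
    rw [one_mul]
    exact hf2 T
  · exact fun T => hf1 T

end LpBasis

end Q96.DiagLp
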