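import Mathlib

/-!
# The Banach envelope of a quasi-normed space
-/

set_option autoImplicit false

open Filter Topology

namespace Q96.Envelope

section

variable (𝕜 : Type) {X : Type} [RCLike 𝕜] [AddCommGroup X] [Module 𝕜 X] (N : X → ℝ)

/-- the functionals dominated by `N` -/
def Ball : Type := {f : X →ₗ[𝕜] 𝕜 // ∀ x, ‖f x‖ ≤ N x}

/-- `X` with the envelope seminorm -/
def EPre (_ : X → ℝ) (_ : Type) : Type := X

noncomputable instance : AddCommGroup (EPre N 𝕜) := inferInstanceAs (AddCommGroup X)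

noncomputable instance : Module 𝕜 (EPre N 𝕜) := inferInstanceAs (Module 𝕜 X)

/-- the envelope seminorm -/
noncomputable def env (x : X) : ℝ := ⨆ f : Ball 𝕜 N, ‖f.1 x‖

variable {𝕜 N}

lemma env_bdd (x : X) : BddAbove (Set.range fun f : Ball 𝕜 N => ‖f.1 x‖) :=
  ⟨N x, by rintro _ ⟨f, rfl⟩; exact f.2 x⟩

lemma le_env (x : X) (f : Ball 𝕜 N) : ‖f.1 x‖ ≤ env 𝕜 N x := le_ciSup (env_bdd x) f

lemma env_nonneg (x : X) : 0 ≤ env 𝕜 N x := Real.iSup_nonneg fun _ => norm_nonneg _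

lemma env_le (x : X) {c : ℝ} (hc : 0 ≤ c) (h : ∀ f : Ball 𝕜 N, ‖f.1 x‖ ≤ c) : env 𝕜 N x ≤ c :=
  Real.iSup_le h hc

variable (𝕜 N)

/-- the envelope seminorm as a seminorm -/
noncomputable def envSemi : Seminorm 𝕜 (EPre N 𝕜) :=
  Seminorm.of (fun x : EPre N 𝕜 => env 𝕜 N (show X from x))
    (fun x y => by
      apply env_le _ (add_nonneg (env_nonneg _) (env_nonneg _))
      intro f
      have h : f.1 (show X from x + y) = f.1 (show X from x) + f.1 (show X from y) :=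
        f.1.map_add _ _
      rw [h]
      exact le_trans (norm_add_le _ _) (add_le_add (le_env _ f) (le_env _ f)))
    (fun a x => by
      unfold env
      have h : ∀ f : Ball 𝕜 N, ‖f.1 (show X from a • x)‖ = ‖a‖ * ‖f.1 (show X from x)‖ := by
        intro f
        have h : f.1 (show X from a • x) = a • f.1 (show X from x) := f.1.map_smul _ _
        rw [h, norm_smul]
      simp only [h]
      rw [Real.mul_iSup_of_nonneg (norm_nonneg a)])

noncomputable instance : SeminormedAddCommGroup (EPre N 𝕜) :=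
  (envSemi 𝕜 N).toAddGroupSeminorm.toSeminormedAddCommGroup

variable {𝕜 N} in
lemma norm_epre (x : EPre N 𝕜) : ‖x‖ = env 𝕜 N (show X from x) := rfl

noncomputable instance : NormedSpace 𝕜 (EPre N 𝕜) where
  norm_smul_le a x := le_of_eq (map_smul_eq_mul (envSemi 𝕜 N) a x)

/-- the envelope -/
abbrev Env : Type := UniformSpace.Completion (EPre N 𝕜)

/-- reinterpretation as a linear map -/
def toEPre : X →ₗ[𝕜] EPre N 𝕜 where
  toFun := fun x => x
  map_add' := fun _ _ => rfl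
  map_smul' := fun _ _ => rfl

/-- the envelope map -/
noncomputable def JJ : X →ₗ[𝕜] Env 𝕜 N :=
  (UniformSpace.Completion.toComplL (𝕜 := 𝕜) (E := EPre N 𝕜)).toLinearMap ∘ₗ toEPre 𝕜 N

variable {𝕜 N}

lemma norm_JJ (x : X) : ‖JJ 𝕜 N x‖ = env 𝕜 N x := by
  change ‖((toEPre 𝕜 N x : EPre N 𝕜) : UniformSpace.Completion (EPre N 𝕜))‖ = _
  rw [UniformSpace.Completion.norm_coe]
  rfl

lemma norm_JJ_le (hN : ∀ x, 0 ≤ N x) (x : X) : ‖JJ 𝕜 N x‖ ≤ N x := by
  rw [norm_JJ]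
  exact env_le _ (hN x) fun f => f.2 x

lemma universal (Y : Type) [NormedAddCommGroup Y] [NormedSpace 𝕜 Y] [CompleteSpace Y]
    (T : X →ₗ[𝕜] Y) (hT : ∀ x, ‖T x‖ ≤ N x) :
    ∃ T' : Env 𝕜 N →ₗ[𝕜] Y, (∀ e, ‖T' e‖ ≤ ‖e‖) ∧ ∀ x, T' (JJ 𝕜 N x) = T x := by
  have hb : ∀ x : X, ‖T x‖ ≤ env 𝕜 N x := by
    intro x
    obtain ⟨g, hg1, hg2⟩ := exists_dual_vector'' 𝕜 (T x)
    have h1 := le_env x (⟨g.toLinearMap ∘ₗ T, fun y => by
      refine le_trans (g.le_opNorm _) ?_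
      calc ‖g‖ * ‖T y‖ ≤ 1 * ‖T y‖ := mul_le_mul_of_nonneg_right hg1 (norm_nonneg _)
        _ ≤ N y := by rw [one_mul]; exact hT y⟩ : Ball 𝕜 N)
    have h2 : ‖(g.toLinearMap ∘ₗ T) x‖ = ‖T x‖ := by
      change ‖g (T x)‖ = ‖T x‖
      rw [hg2, RCLike.norm_ofReal, abs_of_nonneg (norm_nonneg _)]
    rwa [h2] at h1
  let T0 : EPre N 𝕜 →ₗ[𝕜] Y :=
    { toFun := fun x => T (show X from x)
      map_add' := fun x y => T.map_add _ _
      map_smul' := fun a x => T.map_smul _ _ }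
  let T1 : EPre N 𝕜 →L[𝕜] Y := T0.mkContinuous 1 (fun x => by rw [one_mul]; exact hb x)
  have hd : DenseRange (UniformSpace.Completion.toComplL (𝕜 := 𝕜) (E := EPre N 𝕜)) :=
    UniformSpace.Completion.denseRange_coe
  have hu : IsUniformInducing (UniformSpace.Completion.toComplL (𝕜 := 𝕜) (E := EPre N 𝕜)) :=
    UniformSpace.Completion.isUniformInducing_coe _
  set T' := T1.extend (UniformSpace.Completion.toComplL (𝕜 := 𝕜) (E := EPre N 𝕜)) with hT'
  have hext : ∀ x : EPre N 𝕜, T' (x : UniformSpace.Completion (EPre N 𝕜)) = T0 x := fun x =>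
    T1.extend_eq hd hu x
  refine ⟨T'.toLinearMap, ?_, fun x => hext (toEPre 𝕜 N x)⟩
  intro e
  change ‖T' e‖ ≤ ‖e‖
  induction e using UniformSpace.Completion.induction_on with
  | hp => exact isClosed_le T'.continuous.norm continuous_norm
  | ih x =>
    rw [hext, UniformSpace.Completion.norm_coe]
    exact hb x

end

/-- `(E, J)` is a Banach envelope of `(X, N)` -/
def IsEnvelope {𝕜 X E : Type} [RCLike 𝕜] [AddCommGroup X] [Module 𝕜 X] [NormedAddCommGroup E]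
    [NormedSpace 𝕜 E] (N : X → ℝ) (J : X →ₗ[𝕜] E) : Prop :=
  (∀ x, ‖J x‖ ≤ N x) ∧
    ∀ (Y : Type) [NormedAddCommGroup Y] [NormedSpace 𝕜 Y] [CompleteSpace Y] (T : X →ₗ[𝕜] Y),
      (∀ x, ‖T x‖ ≤ N x) → ∃ T' : E →ₗ[𝕜] Y, (∀ e, ‖T' e‖ ≤ ‖e‖) ∧ ∀ x, T' (J x) = T x

lemma isEnvelope_JJ {𝕜 X : Type} [RCLike 𝕜] [AddCommGroup X] [Module 𝕜 X] (N : X → ℝ)
    (hN : ∀ x, 0 ≤ N x) : IsEnvelope N (JJ 𝕜 N) :=
  ⟨norm_JJ_le hN, fun Y _ _ _ T hT => universal Y T hT⟩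

end Q96.Envelope
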