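import Mathlib

/-!
# Banach spaces generated by families of finite sets, copies of `c₀`
-/

set_option autoImplicit false

open Filter Topology

namespace Q96.FamSpace

/-- the norm `‖x‖_F = sup {∑_{k ∈ A} |x k| : A ∈ F}` on finitely supported vectors -/
noncomputable def famNorm {Ω : Type} (F : Set (Finset Ω)) (x : Ω →₀ ℝ) : ℝ :=
  ⨆ A : F, ∑ k ∈ A.1, |x k|

/-- `c₀₀(Ω)` with the norm `‖·‖_F` -/
def C00 {Ω : Type} (_ : Set (Finset Ω)) : Type := Ω →₀ ℝ

section

variable {Ω : Type} (F : Set (Finset Ω))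

noncomputable instance : AddCommGroup (C00 F) := inferInstanceAs (AddCommGroup (Ω →₀ ℝ))

noncomputable instance : Module ℝ (C00 F) := inferInstanceAs (Module ℝ (Ω →₀ ℝ))

/-- the `ℓ₁` norm of a finitely supported vector -/
noncomputable def l1 (x : Ω →₀ ℝ) : ℝ := ∑ k ∈ x.support, |x k|

variable {F}

lemma l1_eq (x : Ω →₀ ℝ) (s : Finset Ω) (hs : x.support ⊆ s) : l1 x = ∑ k ∈ s, |x k| := by
  unfold l1
  apply Finset.sum_subset hs
  intro k _ hk
  rw [Finsupp.notMem_support_iff.mp hk, abs_zero]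

lemma sum_le_l1 (x : Ω →₀ ℝ) (A : Finset Ω) : ∑ k ∈ A, |x k| ≤ l1 x := by
  classical
  rw [l1_eq x (x.support ∪ A) Finset.subset_union_left]
  exact Finset.sum_le_sum_of_subset_of_nonneg Finset.subset_union_right
    fun _ _ _ => abs_nonneg _

lemma bdd (x : Ω →₀ ℝ) : BddAbove (Set.range fun A : F => ∑ k ∈ A.1, |x k|) :=
  ⟨l1 x, by rintro _ ⟨A, rfl⟩; exact sum_le_l1 x A.1⟩

lemma le_famNorm (x : Ω →₀ ℝ) {A : Finset Ω} (hA : A ∈ F) : ∑ k ∈ A, |x k| ≤ famNorm F x :=
  le_ciSup (bdd x) (⟨A, hA⟩ : F)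

lemma famNorm_nonneg (x : Ω →₀ ℝ) : 0 ≤ famNorm F x :=
  Real.iSup_nonneg fun _ => Finset.sum_nonneg fun _ _ => abs_nonneg _

lemma famNorm_le (x : Ω →₀ ℝ) {c : ℝ} (hc : 0 ≤ c) (h : ∀ A ∈ F, ∑ k ∈ A, |x k| ≤ c) :
    famNorm F x ≤ c := Real.iSup_le (fun A => h A.1 A.2) hc

lemma famNorm_le_l1 (x : Ω →₀ ℝ) : famNorm F x ≤ l1 x :=
  famNorm_le x (Finset.sum_nonneg fun _ _ => abs_nonneg _) fun A _ => sum_le_l1 x A

variable (F) in
/-- the seminorm `‖·‖_F` -/
noncomputable def famSemi : Seminorm ℝ (C00 F) :=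
  Seminorm.of (fun x : C00 F => famNorm F (show Ω →₀ ℝ from x))
    (fun x y => by
      apply famNorm_le _ (add_nonneg (famNorm_nonneg _) (famNorm_nonneg _))
      intro A hA
      calc ∑ k ∈ A, |(show Ω →₀ ℝ from x + y) k|
          ≤ ∑ k ∈ A, (|(show Ω →₀ ℝ from x) k| + |(show Ω →₀ ℝ from y) k|) :=
            Finset.sum_le_sum fun k _ => abs_add_le _ _
        _ = ∑ k ∈ A, |(show Ω →₀ ℝ from x) k| + ∑ k ∈ A, |(show Ω →₀ ℝ from y) k| :=
            Finset.sum_add_distrib
        _ ≤ _ := add_le_add (le_famNorm _ hA) (le_famNorm _ hA))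
    (fun a x => by
      unfold famNorm
      have h : ∀ A : F, ∑ k ∈ A.1, |(show Ω →₀ ℝ from a • x) k| =
          ‖a‖ * ∑ k ∈ A.1, |(show Ω →₀ ℝ from x) k| := by
        intro A
        rw [Finset.mul_sum]
        apply Finset.sum_congr rfl
        intro k _
        exact abs_mul _ _
      simp only [h]
      rw [Real.mul_iSup_of_nonneg (norm_nonneg a)])

noncomputable instance : SeminormedAddCommGroup (C00 F) :=
  (famSemi F).toAddGroupSeminorm.toSeminormedAddCommGroup

lemma norm_def (x : C00 F) : ‖x‖ = famNorm F (show Ω →₀ ℝ from x) := rfl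

noncomputable instance : NormedSpace ℝ (C00 F) where
  norm_smul_le a x := le_of_eq (map_smul_eq_mul (famSemi F) a x)

variable (F) in
/-- the Banach space `X_F`: the completion of `c₀₀(Ω)` under `‖·‖_F` -/
abbrev XF : Type := UniformSpace.Completion (C00 F)

/-- `X` contains a subspace isomorphic to `c₀` -/
def ContainsC0 (X : Type) [NormedAddCommGroup X] [NormedSpace ℝ X] : Prop :=
  ∃ T : ZeroAtInftyContinuousMap ℕ ℝ →L[ℝ] X, ∃ c : ℝ, 0 < c ∧ ∀ x, c * ‖x‖ ≤ ‖T x‖

end

/-! ### constructing copies of `c₀` -/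

lemma norm_coord_le (a : ZeroAtInftyContinuousMap ℕ ℝ) (k : ℕ) : |a k| ≤ ‖a‖ := by
  have := a.toBCF.norm_coe_le_norm k
  simpa using this

lemma norm_le_of_coord (a : ZeroAtInftyContinuousMap ℕ ℝ) (c : ℝ) (hc : 0 ≤ c)
    (h : ∀ k, |a k| ≤ c) : ‖a‖ ≤ c := by
  have : ‖a.toBCF‖ ≤ c := (BoundedContinuousFunction.norm_le hc).mpr h
  simpa using this

lemma tendsto_coord (a : ZeroAtInftyContinuousMap ℕ ℝ) : Tendsto (fun k => a k) atTop (𝓝 0) := by
  have := a.zero_at_infty'
  rwa [cocompact_eq_cofinite, Nat.cofinite_eq_atTop] at this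

theorem containsC0_of_seq {X : Type} [NormedAddCommGroup X] [NormedSpace ℝ X] [CompleteSpace X]
    (u : ℕ → X) (C : ℝ) (hC : 0 < C)
    (hup : ∀ (s : Finset ℕ) (a : ℕ → ℝ) (M : ℝ), 0 ≤ M → (∀ k ∈ s, |a k| ≤ M) →
      ‖∑ k ∈ s, a k • u k‖ ≤ C * M)
    (hlow : ∀ (s : Finset ℕ) (a : ℕ → ℝ), ∀ k ∈ s, |a k| ≤ ‖∑ k ∈ s, a k • u k‖) :
    ContainsC0 X := by
  have hsum : ∀ a : ZeroAtInftyContinuousMap ℕ ℝ, Summable fun k => a k • u k := by
    intro a
    rw [summable_iff_vanishing_norm]
    intro ε hε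
    have h1 := (tendsto_coord a).eventually (Metric.ball_mem_nhds 0 (show 0 < ε / (2 * C) by
      positivity))
    obtain ⟨n, hn⟩ := eventually_atTop.mp h1
    refine ⟨Finset.range n, fun t ht => ?_⟩
    refine lt_of_le_of_lt (hup t _ (ε / (2 * C)) (by positivity) ?_) ?_
    · intro k hk
      have hkn : n ≤ k := by
        by_contra h
        exact (Finset.disjoint_left.mp ht hk) (Finset.mem_range.mpr (by omega))
      have := hn k hkn
      rw [dist_zero_right, Real.norm_eq_abs] at this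
      exact this.le
    · have : C * (ε / (2 * C)) = ε / 2 := by field_simp
      rw [this]; linarith
  have hbound : ∀ a : ZeroAtInftyContinuousMap ℕ ℝ, ‖∑' k, a k • u k‖ ≤ C * ‖a‖ := by
    intro a
    apply le_of_tendsto ((hsum a).hasSum.norm)
    exact Eventually.of_forall fun s => hup s _ _ (norm_nonneg _) fun k _ => norm_coord_le a k
  set T : ZeroAtInftyContinuousMap ℕ ℝ →ₗ[ℝ] X :=
    { toFun := fun a => ∑' k, a k • u k
      map_add' := fun a b => by
        rw [← (hsum a).tsum_add (hsum b)]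
        congr 1; ext1 k
        rw [ZeroAtInftyContinuousMap.add_apply, add_smul]
      map_smul' := fun r a => by
        rw [RingHom.id_apply, ← (hsum a).tsum_const_smul]
        congr 1; ext1 k
        rw [ZeroAtInftyContinuousMap.smul_apply, smul_assoc] } with hT
  refine ⟨T.mkContinuous C hbound, 1, one_pos, fun a => ?_⟩
  rw [one_mul]
  apply norm_le_of_coord _ _ (norm_nonneg _)
  intro k
  change |a k| ≤ ‖∑' k, a k • u k‖
  apply ge_of_tendsto ((hsum a).hasSum.norm)
  filter_upwards [eventually_ge_atTop ({k} : Finset ℕ)] with s hs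
  exact hlow s _ k (hs (Finset.mem_singleton_self k))

/-! ### no copies of `c₀` in spaces of `ℓ₁` type -/

section noC0

variable {Ω : Type}

lemma l1_add_ge (y z : Ω →₀ ℝ) : l1 y + l1 z - 2 * ∑ k ∈ y.support, |z k| ≤ l1 (y + z) := by
  classical
  set s := y.support ∪ z.support ∪ (y + z).support with hs
  have h1 : y.support ⊆ s :=
    Finset.subset_union_left.trans Finset.subset_union_left
  have h2 : z.support ⊆ s :=
    Finset.subset_union_right.trans Finset.subset_union_left
  have h3 : (y + z).support ⊆ s := by rw [hs]; exact Finset.subset_union_right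
  rw [l1_eq y s h1, l1_eq z s h2, l1_eq (y + z) s h3]
  have h4 : ∑ k ∈ y.support, |z k| = ∑ k ∈ s, if k ∈ y.support then |z k| else 0 := by
    rw [Finset.sum_ite_mem, Finset.inter_eq_right.mpr h1]
  rw [h4, Finset.mul_sum, ← Finset.sum_add_distrib, ← Finset.sum_sub_distrib]
  apply Finset.sum_le_sum
  intro k _
  split_ifs with hk
  · rw [Finsupp.add_apply]
    have := abs_sub_abs_le_abs_sub (y k) (-z k)
    rw [abs_neg, sub_neg_eq_add] at this
    linarith
  · rw [Finsupp.add_apply, Finsupp.notMem_support_iff.mp hk]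
    simp

/-- there is no bounded unconditional sequence bounded below in `ℓ₁` -/
lemma no_seq (y : ℕ → (Ω →₀ ℝ)) (c C : ℝ) (hc : 0 < c) (hlow : ∀ n, c ≤ l1 (y n))
    (hup : ∀ (s : Finset ℕ) (θ : ℕ → ℝ), (∀ n, |θ n| ≤ 1) → l1 (∑ n ∈ s, θ n • y n) ≤ C) :
    False := by
  classical
  have hcoord : ∀ k : Ω, Tendsto (fun n => |y n k|) atTop (𝓝 0) := by
    intro k
    have hs : Summable fun n => |y n k| := by
      apply summable_of_sum_le (c := C) (fun _ => abs_nonneg _)
      intro s
      set θ : ℕ → ℝ := fun n => SignType.sign (y n k) with hθ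
      have h1 := hup s θ (by
        intro n
        simp only [hθ]
        rcases lt_trichotomy (y n k) 0 with h | h | h
        · simp [sign_neg h]
        · simp [h]
        · simp [sign_pos h])
      have h2 : |(∑ n ∈ s, θ n • y n) k| ≤ l1 (∑ n ∈ s, θ n • y n) := by
        have := sum_le_l1 (∑ n ∈ s, θ n • y n) {k}
        simpa using this
      have h3 : (∑ n ∈ s, θ n • y n) k = ∑ n ∈ s, |y n k| := by
        rw [Finsupp.finset_sum_apply]
        apply Finset.sum_congr rfl
        intro n _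
        rw [Finsupp.smul_apply, smul_eq_mul]
        exact sign_mul_self (y n k)
      rw [h3] at h2
      exact le_trans (le_abs_self _) (le_trans h2 h1)
    exact hs.tendsto_atTop_zero
  have key : ∀ K : ℕ, ∃ s : Finset ℕ, K * (c / 2) ≤ l1 (∑ n ∈ s, y n) := by
    intro K
    induction K with
    | zero => exact ⟨∅, by simp [l1]⟩
    | succ K ih =>
      obtain ⟨s, hs⟩ := ih
      set z := ∑ n ∈ s, y n with hz
      have h1 : Tendsto (fun n => ∑ k ∈ z.support, |y n k|) atTop (𝓝 0) := by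
        have := tendsto_finset_sum z.support (fun k _ => hcoord k)
        simpa using this
      have h2 := h1.eventually (gt_mem_nhds (show 0 < c / 4 by positivity))
      obtain ⟨N, hN⟩ := eventually_atTop.mp h2
      set n := max N (s.sup id + 1) with hn
      have hns : n ∉ s := by
        intro h
        have : n ≤ s.sup id := Finset.le_sup (f := id) h
        have h' : s.sup id + 1 ≤ n := le_max_right _ _
        omega
      refine ⟨insert n s, ?_⟩
      rw [Finset.sum_insert hns, add_comm (y n), ← hz]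
      have h3 := l1_add_ge z (y n)
      have h4 := hN n (le_max_left _ _)
      have h5 := hlow n
      push_cast
      linarith
  obtain ⟨K, hK⟩ := exists_nat_gt (C / (c / 2))
  obtain ⟨s, hs⟩ := key K
  have h1 := hup s (fun _ => 1) (by simp)
  simp only [one_smul] at h1
  rw [div_lt_iff₀ (by positivity)] at hK
  linarith

/-- if `‖·‖_F` dominates a multiple of the `ℓ₁` norm then `X_F` does not contain `c₀` -/
theorem not_containsC0 (F : Set (Finset Ω)) (N : ℝ) (hN : 0 < N)
    (h : ∀ x : Ω →₀ ℝ, l1 x ≤ N * famNorm F x) : ¬ ContainsC0 (XF F) := by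
  classical
  rintro ⟨T, c, hc, hT⟩
  -- the unit vectors of c₀
  set e : ℕ → ZeroAtInftyContinuousMap ℕ ℝ := fun n =>
    ⟨⟨fun k => if k = n then 1 else 0, continuous_of_discreteTopology⟩, by
      rw [cocompact_eq_cofinite, Nat.cofinite_eq_atTop]
      apply tendsto_const_nhds.congr'
      filter_upwards [eventually_gt_atTop n] with k hk
      change (0 : ℝ) = if k = n then 1 else 0
      rw [if_neg (by omega)]⟩ with he
  have heval : ∀ n k, e n k = if k = n then 1 else 0 := fun n k => rfl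
  have hen : ∀ n, 1 ≤ ‖e n‖ := by
    intro n
    have := norm_coord_le (e n) n
    rw [heval, if_pos rfl, abs_one] at this
    exact this
  have hes : ∀ (s : Finset ℕ) (θ : ℕ → ℝ), (∀ n, |θ n| ≤ 1) → ‖∑ n ∈ s, θ n • e n‖ ≤ 1 := by
    intro s θ hθ
    apply norm_le_of_coord _ _ zero_le_one
    intro k
    have h1 : (∑ n ∈ s, θ n • e n) k = if k ∈ s then θ k else 0 := by
      have h2 : (∑ n ∈ s, θ n • e n) k = ∑ n ∈ s, (θ n • e n) k := by
        induction s using Finset.induction_on with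
        | empty => simp
        | insert a s ha ih =>
          rw [Finset.sum_insert ha, Finset.sum_insert ha, ZeroAtInftyContinuousMap.add_apply, ih]
      rw [h2]
      simp only [ZeroAtInftyContinuousMap.smul_apply, heval, smul_eq_mul, mul_ite, mul_one,
        mul_zero]
      rw [Finset.sum_ite_eq]
    rw [h1]
    split_ifs
    · exact hθ k
    · simp
  -- approximation by finitely supported vectors
  have happ : ∀ n : ℕ, ∃ y : C00 F, ‖T (e n) - (y : XF F)‖ < (c / 2) * (1 / 2) ^ (n + 1) := by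
    intro n
    have hd : DenseRange ((↑) : C00 F → XF F) := UniformSpace.Completion.denseRange_coe
    obtain ⟨y, hy⟩ := hd.exists_dist_lt (T (e n)) (ε := (c / 2) * (1 / 2) ^ (n + 1))
      (by positivity)
    exact ⟨y, by rwa [dist_eq_norm] at hy⟩
  choose y hy using happ
  have hsmall : ∀ n : ℕ, (c / 2) * (1 / 2 : ℝ) ^ (n + 1) ≤ c / 2 := by
    intro n
    have : (1 / 2 : ℝ) ^ (n + 1) ≤ 1 := pow_le_one₀ (by norm_num) (by norm_num)
    nlinarith
  apply no_seq (fun n => (show Ω →₀ ℝ from y n)) (c / 2) (N * (‖T‖ + c / 2)) (by positivity)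
  · intro n
    have h1 : ‖(y n : XF F)‖ = famNorm F (show Ω →₀ ℝ from y n) := by
      rw [UniformSpace.Completion.norm_coe]; rfl
    have h2 := hT (e n)
    have h3 : ‖T (e n)‖ ≤ ‖T (e n) - (y n : XF F)‖ + ‖(y n : XF F)‖ := by
      have := norm_add_le (T (e n) - (y n : XF F)) (y n : XF F)
      rwa [sub_add_cancel] at this
    have h4 := hy n
    have h5 := hsmall n
    have h6 := famNorm_le_l1 (F := F) (show Ω →₀ ℝ from y n)
    have h7 := hen n
    nlinarith
  · intro s θ hθ
    refine le_trans (h _) (mul_le_mul_of_nonneg_left ?_ hN.le)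
    have e1 : famNorm F (∑ n ∈ s, θ n • (show Ω →₀ ℝ from y n)) =
        ‖((∑ n ∈ s, θ n • y n : C00 F) : XF F)‖ := by
      rw [UniformSpace.Completion.norm_coe]; rfl
    rw [e1]
    have e2 : ((∑ n ∈ s, θ n • y n : C00 F) : XF F) = ∑ n ∈ s, θ n • (y n : XF F) := by
      have : ∀ z : C00 F, (z : XF F) = UniformSpace.Completion.toComplL (𝕜 := ℝ) z := fun z => rfl
      simp only [this, map_sum, map_smul]
    rw [e2]
    have e3 : ∑ n ∈ s, θ n • (y n : XF F) = T (∑ n ∈ s, θ n • e n) -
        ∑ n ∈ s, θ n • (T (e n) - (y n : XF F)) := by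
      rw [map_sum, ← Finset.sum_sub_distrib]
      apply Finset.sum_congr rfl
      intro n _
      rw [map_smul, smul_sub, sub_sub_cancel]
    rw [e3]
    have h1 : ‖T (∑ n ∈ s, θ n • e n)‖ ≤ ‖T‖ := by
      refine le_trans (T.le_opNorm _) ?_
      exact mul_le_of_le_one_right (norm_nonneg T) (hes s θ hθ)
    have h2 : ‖∑ n ∈ s, θ n • (T (e n) - (y n : XF F))‖ ≤ c / 2 := by
      calc ‖∑ n ∈ s, θ n • (T (e n) - (y n : XF F))‖
          ≤ ∑ n ∈ s, ‖θ n • (T (e n) - (y n : XF F))‖ := norm_sum_le _ _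
        _ ≤ ∑ n ∈ s, (c / 2) * (1 / 2 : ℝ) ^ (n + 1) := by
            apply Finset.sum_le_sum
            intro n _
            rw [norm_smul, Real.norm_eq_abs]
            calc |θ n| * ‖T (e n) - (y n : XF F)‖ ≤ 1 * ‖T (e n) - (y n : XF F)‖ :=
                  mul_le_mul_of_nonneg_right (hθ n) (norm_nonneg _)
              _ ≤ _ := by rw [one_mul]; exact (hy n).le
        _ = (c / 2) * ∑ n ∈ s, (1 / 2 : ℝ) ^ (n + 1) := by rw [Finset.mul_sum]
        _ ≤ (c / 2) * 1 := by
            apply mul_le_mul_of_nonneg_left _ (by positivity)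
            have hs : Summable fun n : ℕ => (1 / 2 : ℝ) ^ (n + 1) :=
              (summable_nat_add_iff 1).mpr summable_geometric_two
            refine le_trans (hs.sum_le_tsum s fun _ _ => by positivity) ?_
            have : ∑' n : ℕ, (1 / 2 : ℝ) ^ (n + 1) = 1 := by
              have h3 : ∀ n : ℕ, (1 / 2 : ℝ) ^ (n + 1) = (1 / 2) * (1 / 2) ^ n := fun n => by ring
              simp_rw [h3]
              rw [tsum_mul_left, tsum_geometric_two]; norm_num
            rw [this]
        _ = c / 2 := mul_one _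
    linarith [norm_sub_le (T (∑ n ∈ s, θ n • e n)) (∑ n ∈ s, θ n • (T (e n) - (y n : XF F)))]

end noC0

end Q96.FamSpace
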