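import Mathlib

/-!
# Norm attainment through Pietsch domination

The abstract core of the theorem on norm attainment of lattice extensions in free `p`-convex Banach
lattices.
-/

set_option autoImplicit false

open Filter Topology
open scoped BoundedContinuousFunction

namespace Q96.FblCore

universe u

section Groth

variable {E : Type u} [NormedAddCommGroup E] [NormedSpace ℝ E]

/-- evaluation at `x` -/
def evx (x : E) : (E →L[ℝ] ℝ) →ₗ[ℝ] ℝ where
  toFun := fun h => h x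
  map_add' := fun _ _ => rfl
  map_smul' := fun _ _ => rfl

lemma exists_approx (z : (E →L[ℝ] ℝ) →L[ℝ] ℝ)
    (hz : ∀ ε > 0, ∃ s : Finset E, ∀ h : E →L[ℝ] ℝ, ‖h‖ ≤ 1 → (∀ x ∈ s, h x = 0) → |z h| ≤ ε)
    (ε : ℝ) (hε : 0 < ε) : ∃ y : E, ∀ h : E →L[ℝ] ℝ, |z h - h y| ≤ ε * ‖h‖ := by
  obtain ⟨s, hs⟩ := hz ε hε
  let A : Submodule ℝ (E →L[ℝ] ℝ) :=
    { carrier := {h | ∀ x ∈ s, h x = 0}
      zero_mem' := fun x _ => rfl
      add_mem' := fun {a b} ha hb x hx => by
        change a x + b x = 0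
        rw [ha x hx, hb x hx, add_zero]
      smul_mem' := fun c a ha x hx => by
        change c * a x = 0
        rw [ha x hx, mul_zero] }
  have hA1 : ∀ h ∈ A, z h ≤ ε * ‖h‖ := by
    intro h hA
    by_cases h0 : ‖h‖ = 0
    · have : h = 0 := norm_eq_zero.1 h0
      subst this
      simp
    · have hpos : 0 < ‖h‖ := lt_of_le_of_ne (norm_nonneg _) (Ne.symm h0)
      have h1 := hs (‖h‖⁻¹ • h) (by
        rw [norm_smul, norm_inv, norm_norm]
        rw [inv_mul_cancel₀ h0]) (fun x hx => by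
          change ‖h‖⁻¹ * h x = 0
          rw [hA x hx, mul_zero])
      rw [map_smul, smul_eq_mul, abs_mul, abs_of_pos (inv_pos.2 hpos),
        inv_mul_le_iff₀ hpos] at h1
      have := le_abs_self (z h)
      linarith
  obtain ⟨g, hg, hgn⟩ := exists_extension_of_le_sublinear (E := E →L[ℝ] ℝ)
    (⟨A, z.toLinearMap.comp A.subtype⟩ : (E →L[ℝ] ℝ) →ₗ.[ℝ] ℝ)
    (fun h => ε * ‖h‖) (by
      intro c hc h
      rw [norm_smul, Real.norm_eq_abs, abs_of_pos hc]
      ring) (by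
      intro a b
      rw [← mul_add]
      exact mul_le_mul_of_nonneg_left (norm_add_le a b) hε.le) (fun h => hA1 h.1 h.2)
  let w : (E →L[ℝ] ℝ) →ₗ[ℝ] ℝ :=
    { toFun := fun h => z h - g h
      map_add' := fun a b => by rw [map_add, map_add]; ring
      map_smul' := fun c a => by
        rw [map_smul, map_smul, RingHom.id_apply, smul_eq_mul, smul_eq_mul, smul_eq_mul]; ring }
  have hspan : w ∈ Submodule.span ℝ (Set.range fun x : s => evx x.1) := by
    apply mem_span_of_iInf_ker_le_ker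
    intro h hh
    rw [Submodule.mem_iInf] at hh
    have hA : h ∈ A := fun x hx => by
      have := hh ⟨x, hx⟩
      rw [LinearMap.mem_ker] at this
      exact this
    rw [LinearMap.mem_ker]
    have := hg ⟨h, hA⟩
    change z h - g h = 0
    change g h = z h at this
    rw [this, sub_self]
  have hex : ∀ w ∈ Submodule.span ℝ (Set.range fun x : s => evx x.1), ∃ y : E,
      ∀ h : E →L[ℝ] ℝ, w h = h y := by
    intro w hw
    induction hw using Submodule.span_induction with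
    | mem w hw =>
      obtain ⟨x, rfl⟩ := hw
      exact ⟨x.1, fun h => rfl⟩
    | zero => exact ⟨0, fun h => by simp⟩
    | add a b _ _ ha hb =>
      obtain ⟨y, hy⟩ := ha
      obtain ⟨y', hy'⟩ := hb
      exact ⟨y + y', fun h => by rw [LinearMap.add_apply, hy, hy', map_add]⟩
    | smul c a _ ha =>
      obtain ⟨y, hy⟩ := ha
      exact ⟨c • y, fun h => by rw [LinearMap.smul_apply, hy, map_smul]⟩
  obtain ⟨y, hy⟩ := hex w hspan
  refine ⟨y, fun h => ?_⟩
  have h1 : z h - h y = g h := by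
    have := hy h
    change z h - g h = h y at this
    linarith
  rw [h1, abs_le]
  refine ⟨?_, hgn h⟩
  have h2 := hgn (-h)
  rw [map_neg, norm_neg] at h2
  linarith

/-- Grothendieck's completeness argument -/
theorem mem_range [CompleteSpace E] (z : (E →L[ℝ] ℝ) →L[ℝ] ℝ)
    (hz : ∀ ε > 0, ∃ s : Finset E, ∀ h : E →L[ℝ] ℝ, ‖h‖ ≤ 1 → (∀ x ∈ s, h x = 0) → |z h| ≤ ε) :
    ∃ x : E, (∀ h : E →L[ℝ] ℝ, z h = h x) ∧ ‖x‖ ≤ ‖z‖ := by
  choose y hy using fun n : ℕ => exists_approx z hz (1 / ((n : ℝ) + 1)) (by positivity)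
  have hlim : Tendsto (fun n : ℕ => 1 / ((n : ℝ) + 1)) atTop (𝓝 0) :=
    tendsto_one_div_add_atTop_nhds_zero_nat
  have hcau : CauchySeq y := by
    rw [Metric.cauchySeq_iff']
    intro ε hε
    obtain ⟨N, hN⟩ := (hlim.eventually (gt_mem_nhds (half_pos hε))).exists_forall_of_atTop
    refine ⟨N, fun n hn => ?_⟩
    rw [dist_eq_norm]
    obtain ⟨g, hg, hgx⟩ := exists_dual_vector'' ℝ (y n - y N)
    have h0 : ‖y n - y N‖ = g (y n) - g (y N) := by
      rw [← map_sub, hgx]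
      rfl
    have h1 := abs_le.1 (hy n g)
    have h2 := abs_le.1 (hy N g)
    have h3 : 1 / ((n : ℝ) + 1) * ‖g‖ ≤ 1 / ((n : ℝ) + 1) :=
      mul_le_of_le_one_right (by positivity) hg
    have h4 : 1 / ((N : ℝ) + 1) * ‖g‖ ≤ 1 / ((N : ℝ) + 1) :=
      mul_le_of_le_one_right (by positivity) hg
    have h5 := hN n hn
    have h6 := hN N le_rfl
    rw [h0]
    linarith [h1.1, h1.2, h2.1, h2.2]
  obtain ⟨x, hx⟩ := cauchySeq_tendsto_of_complete hcau
  have hzx : ∀ h : E →L[ℝ] ℝ, z h = h x := by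
    intro h
    have h1 : Tendsto (fun n => h (y n)) atTop (𝓝 (h x)) := (h.continuous.tendsto x).comp hx
    have h2 : Tendsto (fun n => h (y n)) atTop (𝓝 (z h)) := by
      rw [tendsto_iff_norm_sub_tendsto_zero]
      refine squeeze_zero (g := fun n : ℕ => 1 / ((n : ℝ) + 1) * ‖h‖) (fun _ => norm_nonneg _)
        (fun n => ?_) ?_
      · rw [norm_sub_rev]
        exact hy n h
      · have := hlim.mul_const ‖h‖
        rwa [zero_mul] at this
    exact tendsto_nhds_unique h2 h1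
  refine ⟨x, hzx, ?_⟩
  obtain ⟨g, hg, hgx⟩ := exists_dual_vector'' ℝ x
  have h1 : ‖x‖ = z g := by
    rw [hzx, hgx]
    rfl
  rw [h1]
  exact (le_abs_self _).trans ((z.le_opNorm g).trans
    (mul_le_of_le_one_right (norm_nonneg _) hg))

end Groth

section Pietsch

variable {E : Type u} [NormedAddCommGroup E] [NormedSpace ℝ E]

/-- the unit ball -/
abbrev B (E : Type u) [NormedAddCommGroup E] : Type u := {x : E // ‖x‖ ≤ 1}

/-- the sum of the `p`-th powers of the functionals of a list -/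
noncomputable def PL (p : ℝ) (L : List (E →L[ℝ] ℝ)) (x : E) : ℝ := (L.map fun y => |y x| ^ p).sum

/-- the sum of the `p`-th powers of `φ` on a list -/
noncomputable def PhiL (p : ℝ) (φ : (E →L[ℝ] ℝ) → ℝ) (L : List (E →L[ℝ] ℝ)) : ℝ :=
  (L.map fun y => (φ y) ^ p).sum

variable {p : ℝ} {φ : (E →L[ℝ] ℝ) → ℝ}

lemma PL_append (L L' : List (E →L[ℝ] ℝ)) (x : E) : PL p (L ++ L') x = PL p L x + PL p L' x := by
  simp [PL]

lemma PhiL_append (L L' : List (E →L[ℝ] ℝ)) : PhiL p φ (L ++ L') = PhiL p φ L + PhiL p φ L' := by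
  simp [PhiL]

lemma PL_scale (hp : 0 < p) {c : ℝ} (hc : 0 < c) (L : List (E →L[ℝ] ℝ)) (x : E) :
    PL p (L.map fun y => c ^ (1 / p) • y) x = c * PL p L x := by
  unfold PL
  induction L with
  | nil => simp
  | cons y L ih =>
    simp only [List.map_cons, List.sum_cons]
    rw [ih, mul_add]
    congr 1
    have h1 : (c ^ (1 / p) • y) x = c ^ (1 / p) * y x := rfl
    rw [h1, abs_mul, abs_of_pos (Real.rpow_pos_of_pos hc _),
      Real.mul_rpow (Real.rpow_nonneg hc.le _) (abs_nonneg _), ← Real.rpow_mul hc.le,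
      one_div_mul_cancel hp.ne', Real.rpow_one]

lemma PhiL_scale (hp : 0 < p) (hφ0 : ∀ y, 0 ≤ φ y) (hhom : ∀ c > 0, ∀ y, φ (c • y) = c * φ y)
    {c : ℝ} (hc : 0 < c) (L : List (E →L[ℝ] ℝ)) :
    PhiL p φ (L.map fun y => c ^ (1 / p) • y) = c * PhiL p φ L := by
  unfold PhiL
  induction L with
  | nil => simp
  | cons y L ih =>
    simp only [List.map_cons, List.sum_cons]
    rw [ih, mul_add]
    congr 1
    rw [hhom _ (Real.rpow_pos_of_pos hc _), Real.mul_rpow (Real.rpow_nonneg hc.le _) (hφ0 _),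
      ← Real.rpow_mul hc.le, one_div_mul_cancel hp.ne', Real.rpow_one]

/-- the set defining the sublinear functional -/
def QS (p : ℝ) (φ : (E →L[ℝ] ℝ) → ℝ) (g : B E → ℝ) : Set ℝ :=
  {t | ∃ L : List (E →L[ℝ] ℝ), ∀ x : B E, g x + PL p L x.1 ≤ t + PhiL p φ L}

/-- bounded functions on the unit ball -/
def V (E : Type u) [NormedAddCommGroup E] : Submodule ℝ (B E → ℝ) where
  carrier := {g | ∃ C, ∀ x, |g x| ≤ C}
  zero_mem' := ⟨0, fun x => by simp⟩
  add_mem' := by
    rintro a b ⟨C, hC⟩ ⟨D, hD⟩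
    exact ⟨C + D, fun x => (abs_add_le _ _).trans (add_le_add (hC x) (hD x))⟩
  smul_mem' := by
    rintro c a ⟨C, hC⟩
    refine ⟨|c| * C, fun x => ?_⟩
    change |c * a x| ≤ _
    rw [abs_mul]
    exact mul_le_mul_of_nonneg_left (hC x) (abs_nonneg _)

lemma QS_nonempty (g : V E) : (QS p φ g.1).Nonempty := by
  obtain ⟨C, hC⟩ := g.2
  refine ⟨C, [], fun x => ?_⟩
  simp only [PL, PhiL, List.map_nil, List.sum_nil, add_zero]
  exact (le_abs_self _).trans (hC x)

/-- the summing property -/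
def Summing (p : ℝ) (φ : (E →L[ℝ] ℝ) → ℝ) : Prop :=
  ∀ (L : List (E →L[ℝ] ℝ)) (s : ℝ), (∀ x : E, ‖x‖ ≤ 1 → PL p L x ≤ s) → PhiL p φ L ≤ s

lemma QS_lower (hs : Summing p φ) (g : V E) {C : ℝ} (hC : ∀ x, |g.1 x| ≤ C) {t : ℝ}
    (ht : t ∈ QS p φ g.1) : -C ≤ t := by
  obtain ⟨L, hL⟩ := ht
  have := hs L (t + PhiL p φ L + C) fun x hx => by
    have h1 := hL ⟨x, hx⟩
    have h2 := (abs_le.1 (hC ⟨x, hx⟩)).1
    linarith
  linarith

lemma QS_bdd (hs : Summing p φ) (g : V E) : BddBelow (QS p φ g.1) := by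
  obtain ⟨C, hC⟩ := g.2
  exact ⟨-C, fun t ht => QS_lower hs g hC ht⟩

/-- **Pietsch domination** with a finitely additive measure on the unit ball. -/
theorem pietsch (hp : 0 < p) (hφ0 : ∀ y, 0 ≤ φ y) (hhom : ∀ c > 0, ∀ y, φ (c • y) = c * φ y)
    (hs : Summing p φ) : ∃ Λ : V E →ₗ[ℝ] ℝ, (∀ (g : V E) (c : ℝ), (∀ x, g.1 x ≤ c) → Λ g ≤ c) ∧
      ∀ (y : E →L[ℝ] ℝ) (g : V E), (∀ x : B E, g.1 x = |y x.1| ^ p) → (φ y) ^ p ≤ Λ g := by
  have hle : ∀ (c : ℝ), 0 < c → ∀ g : V E, sInf (QS p φ (c • g).1) ≤ c * sInf (QS p φ g.1) := by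
    intro c hc g
    have h1 : ∀ t ∈ QS p φ g.1, sInf (QS p φ (c • g).1) / c ≤ t := by
      rintro t ⟨L, hL⟩
      rw [div_le_iff₀ hc]
      refine csInf_le (QS_bdd hs _) ⟨L.map fun y => c ^ (1 / p) • y, fun x => ?_⟩
      rw [PL_scale hp hc, PhiL_scale hp hφ0 hhom hc]
      have h2 := mul_le_mul_of_nonneg_left (hL x) hc.le
      change c * g.1 x + c * PL p L x.1 ≤ t * c + c * PhiL p φ L
      linarith
    have h2 := le_csInf (QS_nonempty g) h1
    rwa [div_le_iff₀ hc, mul_comm] at h2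
  obtain ⟨Λ, -, hΛ⟩ := exists_extension_of_le_sublinear (E := V E) (⟨⊥, 0⟩ : V E →ₗ.[ℝ] ℝ)
    (fun g => sInf (QS p φ g.1)) (by
      intro c hc g
      refine le_antisymm (hle c hc g) ?_
      have h1 := hle c⁻¹ (inv_pos.2 hc) (c • g)
      rw [smul_smul, inv_mul_cancel₀ hc.ne', one_smul] at h1
      rwa [inv_mul_eq_div, le_div_iff₀ hc, mul_comm] at h1) (by
      intro g g'
      have h1 : ∀ t ∈ QS p φ g.1, ∀ t' ∈ QS p φ g'.1, sInf (QS p φ (g + g').1) ≤ t + t' := by
        rintro t ⟨L, hL⟩ t' ⟨L', hL'⟩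
        refine csInf_le (QS_bdd hs _) ⟨L ++ L', fun x => ?_⟩
        rw [PL_append, PhiL_append]
        change g.1 x + g'.1 x + _ ≤ _
        have := hL x
        have := hL' x
        linarith
      have h2 : ∀ t ∈ QS p φ g.1, sInf (QS p φ (g + g').1) - t ≤ sInf (QS p φ g'.1) := by
        intro t ht
        apply le_csInf (QS_nonempty g')
        intro t' ht'
        have := h1 t ht t' ht'
        linarith
      have h3 : sInf (QS p φ (g + g').1) - sInf (QS p φ g'.1) ≤ sInf (QS p φ g.1) := by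
        apply le_csInf (QS_nonempty g)
        intro t ht
        have := h2 t ht
        linarith
      change sInf (QS p φ (g + g').1) ≤ _
      linarith) (by
      rintro ⟨x, hx⟩
      rw [Submodule.mem_bot] at hx
      subst hx
      change (0 : ℝ) ≤ sInf (QS p φ (0 : V E).1)
      apply le_csInf (QS_nonempty 0)
      intro t ht
      have := QS_lower hs (0 : V E) (C := 0) (fun x => by
        change |(0 : ℝ)| ≤ 0
        simp) ht
      linarith)
  refine ⟨Λ, fun g c hg => (hΛ g).trans ?_, fun y g hg => ?_⟩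
  · refine csInf_le (QS_bdd hs _) ⟨[], fun x => ?_⟩
    simpa [PL, PhiL] using hg x
  · have h1 : Λ (-g) ≤ -(φ y) ^ p := by
      refine (hΛ _).trans (csInf_le (QS_bdd hs _) ⟨[y], fun x => ?_⟩)
      simp only [PL, PhiL, List.map_cons, List.map_nil, List.sum_cons, List.sum_nil, add_zero]
      change -g.1 x + _ ≤ _
      rw [hg x]
      simp
    rw [map_neg] at h1
    linarith

end Pietsch

section Core

variable {E : Type u} [NormedAddCommGroup E] [NormedSpace ℝ E]

lemma abs_apply_le (h : E →L[ℝ] ℝ) (x : B E) : |h x.1| ≤ ‖h‖ := by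
  have := h.le_opNorm x.1
  have h2 := x.2
  calc |h x.1| = ‖h x.1‖ := rfl
    _ ≤ ‖h‖ * ‖x.1‖ := this
    _ ≤ ‖h‖ * 1 := mul_le_mul_of_nonneg_left h2 (norm_nonneg _)
    _ = ‖h‖ := mul_one _

/-- products of functionals as bounded functions on the ball -/
noncomputable def prodV (x0 h : E →L[ℝ] ℝ) : V E :=
  ⟨fun x => x0 x.1 * h x.1, ‖x0‖ * ‖h‖, fun x => by
    rw [abs_mul]
    exact mul_le_mul (abs_apply_le x0 x) (abs_apply_le h x) (abs_nonneg _) (norm_nonneg _)⟩

/-- powers of functionals as bounded functions on the ball -/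
noncomputable def powV {p : ℝ} (hp : 0 < p) (y : E →L[ℝ] ℝ) : V E :=
  ⟨fun x => |y x.1| ^ p, ‖y‖ ^ p, fun x => by
    rw [abs_of_nonneg (Real.rpow_nonneg (abs_nonneg _) _)]
    exact Real.rpow_le_rpow (abs_nonneg _) (abs_apply_le y x) hp.le⟩

/-- constants as bounded functions on the ball -/
noncomputable def constV (E : Type u) [NormedAddCommGroup E] (c : ℝ) : V E :=
  ⟨fun _ => c, |c|, fun _ => le_rfl⟩

/-- the elementary inequality -/
lemma elem {p : ℝ} (hp : 1 ≤ p) {a b t : ℝ} (ha : |a| ≤ 1) (hb : |b| ≤ 1) (ht : 0 < t)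
    (htp : 2 * p * t ≤ 1) : |a + t * b| ^ p ≤ 1 + p * t * (a * b) + 3 * p ^ 2 * t ^ 2 := by
  have hp0 : 0 < p := by linarith
  have ht1 : t ≤ 1 / 2 := by nlinarith
  have ha2 : a ^ 2 ≤ 1 := by nlinarith [abs_nonneg a, sq_abs a]
  have hb2 : b ^ 2 ≤ 1 := by nlinarith [abs_nonneg b, sq_abs b]
  have hab : |a * b| ≤ 1 := by
    rw [abs_mul]
    nlinarith [abs_nonneg a, abs_nonneg b]
  obtain ⟨hab1, hab2⟩ := abs_le.1 hab
  set v := 2 * t * (a * b) + t ^ 2 * b ^ 2 with hv
  have h1 : |a + t * b| ^ 2 ≤ 1 + v := by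
    rw [sq_abs]
    nlinarith
  have h1' : 0 ≤ 1 + v := (sq_nonneg _).trans h1
  have hvle : |v| ≤ 3 * t := by
    rw [abs_le]
    constructor <;> nlinarith [sq_nonneg t, mul_pos ht ht, sq_nonneg b]
  have h2 : |a + t * b| ^ p = (|a + t * b| ^ 2) ^ (p / 2) := by
    rw [← Real.rpow_natCast, ← Real.rpow_mul (abs_nonneg _)]
    congr 1
    push_cast
    ring
  have h3 : (|a + t * b| ^ 2) ^ (p / 2) ≤ (1 + v) ^ (p / 2) :=
    Real.rpow_le_rpow (by positivity) h1 (by positivity)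
  have h4 : (1 + v) ^ (p / 2) ≤ Real.exp (p / 2 * v) := by
    have h5 : 1 + v ≤ Real.exp v := by
      have := Real.add_one_le_exp v
      linarith
    refine (Real.rpow_le_rpow h1' h5 (by positivity)).trans (le_of_eq ?_)
    rw [← Real.exp_mul]
    congr 1
    ring
  have hsm : |p / 2 * v| ≤ 1 := by
    rw [abs_mul, abs_of_pos (by positivity : 0 < p / 2)]
    nlinarith [abs_nonneg v]
  have h5 := Real.abs_exp_sub_one_sub_id_le hsm
  have h6 := (abs_le.1 h5).2
  have h7 : (p / 2 * v) ^ 2 ≤ 9 / 4 * p ^ 2 * t ^ 2 := by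
    have : v ^ 2 ≤ 9 * t ^ 2 := by
      rw [← sq_abs v]
      nlinarith [abs_nonneg v]
    nlinarith [sq_nonneg p]
  have h8 : p / 2 * v ≤ p * t * (a * b) + 1 / 2 * p ^ 2 * t ^ 2 := by
    rw [hv]
    have h9 : t ^ 2 * b ^ 2 ≤ t ^ 2 := by nlinarith [sq_nonneg t]
    have h10 : p / 2 * (t ^ 2 * b ^ 2) ≤ 1 / 2 * p ^ 2 * t ^ 2 := by
      have : p / 2 * (t ^ 2 * b ^ 2) ≤ p / 2 * t ^ 2 := mul_le_mul_of_nonneg_left h9 (by positivity)
      nlinarith [sq_nonneg t, mul_nonneg (sub_nonneg.2 hp) (mul_nonneg hp0.le (sq_nonneg t))]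
    nlinarith
  rw [h2]
  nlinarith [h3, h4, sq_nonneg (p * t)]

/-- **The abstract core.** -/
theorem core [CompleteSpace E] {p : ℝ} (hp : 1 ≤ p) {φ : (E →L[ℝ] ℝ) → ℝ} (hφ0 : ∀ y, 0 ≤ φ y)
    (hhom : ∀ c > 0, ∀ y, φ (c • y) = c * φ y) (hs : Summing p φ) (x0 : E →L[ℝ] ℝ)
    (hx0 : ‖x0‖ = 1) (hφ1 : φ x0 = 1)
    (hcont : ∀ t : ℝ, 0 < t → ∀ ε : ℝ, 0 < ε → ∃ s : Finset E, ∀ h : E →L[ℝ] ℝ, ‖h‖ ≤ 1 →
      (∀ x ∈ s, h x = 0) → 1 - ε ≤ φ (x0 + t • h)) :
    ∃ x : E, ‖x‖ ≤ 1 ∧ x0 x = 1 := by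
  have hp0 : 0 < p := by linarith
  obtain ⟨Λ, hΛ1, hΛ2⟩ := pietsch hp0 hφ0 hhom hs
  have hmono : ∀ g g' : V E, (∀ x, g.1 x ≤ g'.1 x) → Λ g ≤ Λ g' := by
    intro g g' h
    have := hΛ1 (g - g') 0 fun x => by
      change g.1 x - g'.1 x ≤ 0
      linarith [h x]
    rw [map_sub] at this
    linarith
  -- the functional `z`
  let zl : (E →L[ℝ] ℝ) →ₗ[ℝ] ℝ :=
    { toFun := fun h => Λ (prodV x0 h)
      map_add' := fun h h' => by
        rw [← map_add]
        congr 1
        apply Subtype.ext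
        funext x
        change x0 x.1 * (h x.1 + h' x.1) = x0 x.1 * h x.1 + x0 x.1 * h' x.1
        ring
      map_smul' := fun c h => by
        rw [RingHom.id_apply, smul_eq_mul, ← smul_eq_mul, ← map_smul]
        congr 1
        apply Subtype.ext
        funext x
        change x0 x.1 * (c * h x.1) = c * (x0 x.1 * h x.1)
        ring }
  have hzl : ∀ h, zl h ≤ 1 * ‖h‖ := fun h => hΛ1 _ _ fun x => by
    have h1 := abs_apply_le x0 x
    have h2 := abs_apply_le h x
    rw [hx0] at h1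
    calc x0 x.1 * h x.1 ≤ |x0 x.1 * h x.1| := le_abs_self _
      _ = |x0 x.1| * |h x.1| := abs_mul _ _
      _ ≤ 1 * ‖h‖ := mul_le_mul h1 h2 (abs_nonneg _) zero_le_one
  let z : (E →L[ℝ] ℝ) →L[ℝ] ℝ := zl.mkContinuous 1 fun h => by
    rw [Real.norm_eq_abs, abs_le]
    refine ⟨?_, hzl h⟩
    have := hzl (-h)
    rw [map_neg, norm_neg] at this
    linarith
  have hz : ∀ h, z h = Λ (prodV x0 h) := fun h => rfl
  have hzn : ‖z‖ ≤ 1 := LinearMap.mkContinuous_norm_le _ zero_le_one _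
  -- the expansion
  have hexp : ∀ (h : E →L[ℝ] ℝ), ‖h‖ ≤ 1 → ∀ t > 0, 2 * p * t ≤ 1 →
      φ (x0 + t • h) ^ p ≤ 1 + p * t * z h + 3 * p ^ 2 * t ^ 2 := by
    intro h hh t ht htp
    have h1 := hΛ2 (x0 + t • h) (powV hp0 (x0 + t • h)) fun x => rfl
    refine h1.trans ?_
    have h2 : Λ (powV hp0 (x0 + t • h)) ≤
        Λ ((p * t) • prodV x0 h + constV E (1 + 3 * p ^ 2 * t ^ 2)) := by
      apply hmono
      intro x
      change |x0 x.1 + t * h x.1| ^ p ≤ p * t * (x0 x.1 * h x.1) + (1 + 3 * p ^ 2 * t ^ 2)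
      have h3 := elem hp (a := x0 x.1) (b := h x.1) (by
        have := abs_apply_le x0 x
        rwa [hx0] at this) ((abs_apply_le h x).trans hh) ht htp
      linarith
    refine h2.trans ?_
    rw [map_add, map_smul, smul_eq_mul, ← hz]
    have h3 := hΛ1 (constV E (1 + 3 * p ^ 2 * t ^ 2)) (1 + 3 * p ^ 2 * t ^ 2) fun x => le_rfl
    linarith
  -- `z x0 = 1`
  have hz1 : 1 ≤ z x0 := by
    by_contra hlt
    rw [not_le] at hlt
    set d := 1 - z x0 with hd
    have hd0 : 0 < d := by linarith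
    set t := min (1 / (2 * p)) (d / (6 * p)) with ht
    have ht0 : 0 < t := lt_min (by positivity) (by positivity)
    have ht1 : 2 * p * t ≤ 1 := by
      have : t ≤ 1 / (2 * p) := min_le_left _ _
      rw [le_div_iff₀ (by positivity)] at this
      linarith
    have ht2 : 6 * p * t ≤ d := by
      have : t ≤ d / (6 * p) := min_le_right _ _
      rw [le_div_iff₀ (by positivity)] at this
      linarith
    have h1 := hexp x0 hx0.le t ht0 ht1
    have h2 : x0 + t • x0 = (1 + t) • x0 := by rw [add_smul, one_smul]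
    rw [h2, hhom _ (by positivity), hφ1, mul_one] at h1
    have h3 : 1 + p * t ≤ (1 + t) ^ p := by
      have := one_add_mul_self_le_rpow_one_add (s := t) (by linarith) hp
      linarith
    have h4 : p * t * d ≤ 3 * p ^ 2 * t ^ 2 := by
      rw [hd]
      nlinarith
    have h5 : 0 < p * t := by positivity
    nlinarith
  obtain ⟨x, hx, hxn⟩ := mem_range z (by
    intro ε hε
    set t := min (1 / (2 * p)) (ε / (6 * p)) with ht
    have ht0 : 0 < t := lt_min (by positivity) (by positivity)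
    have ht1 : 2 * p * t ≤ 1 := by
      have : t ≤ 1 / (2 * p) := min_le_left _ _
      rw [le_div_iff₀ (by positivity)] at this
      linarith
    have ht2 : 6 * p * t ≤ ε := by
      have : t ≤ ε / (6 * p) := min_le_right _ _
      rw [le_div_iff₀ (by positivity)] at this
      linarith
    set e := min 1 (t * ε / 2) with he
    have he0 : 0 < e := lt_min one_pos (by positivity)
    obtain ⟨s, hs'⟩ := hcont t ht0 e he0
    have key : ∀ h : E →L[ℝ] ℝ, ‖h‖ ≤ 1 → (∀ x ∈ s, h x = 0) → -ε ≤ z h := by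
      intro h hh hhs
      have h1 := hexp h hh t ht0 ht1
      have h2 := hs' h hh hhs
      have he1 : e ≤ 1 := min_le_left _ _
      have he2 : e ≤ t * ε / 2 := min_le_right _ _
      have h3 : 1 - p * e ≤ φ (x0 + t • h) ^ p := by
        have h4 := one_add_mul_self_le_rpow_one_add (s := -e) (by linarith) hp
        have h5 : (1 + -e) ^ p ≤ φ (x0 + t • h) ^ p :=
          Real.rpow_le_rpow (by linarith) (by linarith) hp0.le
        linarith
      have h6 : -(p * e) ≤ p * t * z h + 3 * p ^ 2 * t ^ 2 := by linarith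
      have h7 : -(p * (t * ε / 2)) ≤ p * t * z h + 3 * p ^ 2 * t ^ 2 := by nlinarith
      have h8 : 0 < p * t := by positivity
      have h9 : 3 * p ^ 2 * t ^ 2 = (p * t) * (3 * p * t) := by ring
      have h10 : 3 * p * t ≤ ε / 2 := by linarith
      by_contra hlt
      rw [not_le] at hlt
      nlinarith
    refine ⟨s, fun h hh hhs => ?_⟩
    rw [abs_le]
    refine ⟨key h hh hhs, ?_⟩
    have := key (-h) (by rwa [norm_neg]) (fun x hx => by
      change -h x = 0
      rw [hhs x hx, neg_zero])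
    rw [map_neg] at this
    linarith)
  refine ⟨x, ?_, ?_⟩
  · exact hxn.trans hzn
  · have h1 : x0 x = z x0 := (hx x0).symm
    rw [h1]
    refine le_antisymm ?_ hz1
    have := hzl x0
    rw [hx0, mul_one] at this
    exact this

end Core

end Q96.FblCore
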