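import Mathlib

/-!
# Moreau envelopes of convex functions on finite dimensional inner product spaces
-/

set_option autoImplicit false
set_option linter.unusedSectionVars false

open Filter Topology
open scoped RealInnerProductSpace

namespace Q96.MoreauEnv

variable {E : Type*} [NormedAddCommGroup E] [InnerProductSpace ℝ E] [FiniteDimensional ℝ E]

lemma exists_min (φ : E → ℝ) (hcont : Continuous φ) (h0 : ∀ y, 0 ≤ φ y) (x : E) :
    ∃ y, ∀ z, φ y + ‖x - y‖ ^ 2 / 2 ≤ φ z + ‖x - z‖ ^ 2 / 2 := by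
  have hc : Continuous fun z => φ z + ‖x - z‖ ^ 2 / 2 := by fun_prop
  have hlim : Tendsto (fun z => φ z + ‖x - z‖ ^ 2 / 2) (cocompact E) atTop := by
    have h1 : Tendsto (fun z : E => ‖z‖ + (-(‖x‖ + 1 / 2))) (cocompact E) atTop :=
      tendsto_atTop_add_const_right _ _ tendsto_norm_cocompact_atTop
    refine tendsto_atTop_mono (fun z => ?_) h1
    have h2 := h0 z
    have h3 : ‖z‖ ≤ ‖x‖ + ‖x - z‖ := by
      have := norm_sub_le x (x - z)
      rwa [sub_sub_cancel] at this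
    nlinarith [sq_nonneg (‖x - z‖ - 1)]
  exact hc.exists_forall_le hlim

lemma variational (φ : E → ℝ) (hconv : ConvexOn ℝ Set.univ φ) {x y : E}
    (hy : ∀ z, φ y + ‖x - y‖ ^ 2 / 2 ≤ φ z + ‖x - z‖ ^ 2 / 2) (z : E) :
    φ y + ⟪x - y, z - y⟫ ≤ φ z := by
  have key : ∀ t : ℝ, 0 < t → t ≤ 1 → ⟪x - y, z - y⟫ ≤ φ z - φ y + t * (‖z - y‖ ^ 2 / 2) := by
    intro t ht ht1
    have h1 := hconv.2 (Set.mem_univ y) (Set.mem_univ z) (sub_nonneg.2 ht1) ht.le (by ring)
    simp only [smul_eq_mul] at h1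
    have h2 := hy ((1 - t) • y + t • z)
    have h3 : x - ((1 - t) • y + t • z) = (x - y) - t • (z - y) := by
      rw [sub_smul, one_smul, smul_sub]
      abel
    rw [h3, norm_sub_sq_real (x - y) (t • (z - y)), inner_smul_right, norm_smul,
      Real.norm_eq_abs, abs_of_pos ht] at h2
    have h4 : t * ⟪x - y, z - y⟫ ≤ t * (φ z - φ y + t * (‖z - y‖ ^ 2 / 2)) := by nlinarith
    exact le_of_mul_le_mul_left h4 ht
  have h2 : ⟪x - y, z - y⟫ ≤ φ z - φ y := by
    apply le_of_forall_pos_le_add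
    intro ε hε
    set K := ‖z - y‖ ^ 2 / 2 with hK
    have hK0 : 0 ≤ K := by positivity
    have ht : 0 < min 1 (ε / (K + 1)) := lt_min one_pos (by positivity)
    have h3 := key _ ht (min_le_left _ _)
    have h4 : min 1 (ε / (K + 1)) * K ≤ ε := by
      calc min 1 (ε / (K + 1)) * K ≤ ε / (K + 1) * K :=
            mul_le_mul_of_nonneg_right (min_le_right _ _) hK0
        _ ≤ ε := by
            rw [div_mul_eq_mul_div, div_le_iff₀ (by positivity)]
            nlinarith
    linarith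
  linarith

lemma unique (φ : E → ℝ) {x y y' : E} (hy : ∀ z, φ y + ⟪x - y, z - y⟫ ≤ φ z)
    (hy' : ∀ z, φ y' + ⟪x - y', z - y'⟫ ≤ φ z) : y = y' := by
  have h1 := hy y'
  have h2 := hy' y
  have h3 : ⟪x - y, y' - y⟫ + ⟪x - y', y - y'⟫ = ‖y' - y‖ ^ 2 := by
    have h4 : ⟪x - y', y - y'⟫ = -⟪x - y', y' - y⟫ := by
      rw [← inner_neg_right, neg_sub]
    rw [h4, ← sub_eq_add_neg, ← inner_sub_left, sub_sub_sub_cancel_left, real_inner_self_eq_norm_sq]
  have h5 : ‖y' - y‖ ^ 2 ≤ 0 := by linarith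
  have h6 : ‖y' - y‖ = 0 := by
    have := sq_nonneg ‖y' - y‖
    exact pow_eq_zero_iff (two_ne_zero) |>.1 (le_antisymm h5 this)
  have h7 := norm_eq_zero.1 h6
  exact (sub_eq_zero.1 h7).symm

/-- the Moreau envelope is convex and `1`-smooth, and its gradient is given by subgradients -/
theorem exists_envelope (φ : E → ℝ) (hconv : ConvexOn ℝ Set.univ φ) (hcont : Continuous φ)
    (h0 : ∀ y, 0 ≤ φ y) (hφ0 : φ 0 = 0) :
    ∃ f : E → ℝ, ∃ G : E → E, ConvexOn ℝ Set.univ f ∧ (∀ x, HasGradientAt f (G x) x) ∧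
      (∀ x x', ‖G x - G x'‖ ≤ ‖x - x'‖) ∧ (∀ x, f 0 ≤ f x) ∧
      ∀ y g, (∀ z, φ y + ⟪g, z - y⟫ ≤ φ z) → G (y + g) = g := by
  choose P hP using fun x => exists_min φ hcont h0 x
  have hv : ∀ x z, φ (P x) + ⟪x - P x, z - P x⟫ ≤ φ z := fun x z => variational φ hconv (hP x) z
  set f : E → ℝ := fun x => φ (P x) + ‖x - P x‖ ^ 2 / 2 with hf
  set G : E → E := fun x => x - P x with hG
  have hlow : ∀ x x', f x + ⟪G x, x' - x⟫ + ‖G x - G x'‖ ^ 2 / 2 ≤ f x' := by
    intro x x'
    have h1 := hv x (P x')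
    have h2 : P x' - P x = (x' - x) + (G x - G x') := by
      simp only [hG]
      abel
    rw [h2] at h1
    change φ (P x) + ⟪G x, (x' - x) + (G x - G x')⟫ ≤ φ (P x') at h1
    rw [inner_add_right, inner_sub_right (G x) (G x) (G x'), real_inner_self_eq_norm_sq] at h1
    have h3 := norm_sub_sq_real (G x) (G x')
    simp only [hf]
    change φ (P x) + ‖G x‖ ^ 2 / 2 + ⟪G x, x' - x⟫ + ‖G x - G x'‖ ^ 2 / 2 ≤
      φ (P x') + ‖G x'‖ ^ 2 / 2
    rw [h3]
    linarith
  have hup : ∀ x x', f x' ≤ f x + ⟪G x, x' - x⟫ + ‖x' - x‖ ^ 2 / 2 := by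
    intro x x'
    have h1 := hP x' (P x)
    have h2 : x' - P x = G x + (x' - x) := by
      simp only [hG]
      abel
    rw [h2, norm_add_sq_real] at h1
    simp only [hf]
    change φ (P x') + ‖x' - P x'‖ ^ 2 / 2 ≤ φ (P x) + ‖G x‖ ^ 2 / 2 + ⟪G x, x' - x⟫ +
      ‖x' - x‖ ^ 2 / 2
    linarith
  refine ⟨f, G, ⟨convex_univ, ?_⟩, ?_, ?_, ?_, ?_⟩
  · intro x _ y _ a b ha hb hab
    set z := a • x + b • y with hz
    have h1 := hlow z x
    have h2 := hlow z y
    have h3 : a * ⟪G z, x - z⟫ + b * ⟪G z, y - z⟫ = 0 := by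
      rw [← inner_smul_right, ← inner_smul_right, ← inner_add_right]
      have : a • (x - z) + b • (y - z) = 0 := by
        have h4 : a • (x - z) + b • (y - z) = (a • x + b • y) - (a + b) • z := by
          rw [smul_sub, smul_sub, add_smul]
          abel
        rw [h4, hab, one_smul, ← hz, sub_self]
      rw [this, inner_zero_right]
    have h5 : 0 ≤ ‖G z - G x‖ ^ 2 / 2 := by positivity
    have h6 : 0 ≤ ‖G z - G y‖ ^ 2 / 2 := by positivity
    simp only [smul_eq_mul]
    have h7 : a * (f z + ⟪G z, x - z⟫) ≤ a * f x := mul_le_mul_of_nonneg_left (by linarith) ha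
    have h8 : b * (f z + ⟪G z, y - z⟫) ≤ b * f y := mul_le_mul_of_nonneg_left (by linarith) hb
    have h9 : f z = (a + b) * f z := by rw [hab, one_mul]
    nlinarith
  · intro x
    rw [hasGradientAt_iff_isLittleO]
    have h1 : (fun x' => f x' - f x - ⟪G x, x' - x⟫) =O[𝓝 x] fun x' => ‖x' - x‖ ^ 2 := by
      apply Asymptotics.IsBigO.of_bound 1
      refine Eventually.of_forall fun x' => ?_
      rw [Real.norm_eq_abs, Real.norm_eq_abs, abs_of_nonneg (by positivity : 0 ≤ ‖x' - x‖ ^ 2),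
        one_mul, abs_le]
      have h2 := hlow x x'
      have h3 := hup x x'
      have h4 : 0 ≤ ‖G x - G x'‖ ^ 2 / 2 := by positivity
      have h5 : 0 ≤ ‖x' - x‖ ^ 2 := by positivity
      constructor <;> linarith
    refine h1.trans_isLittleO ?_
    have h2 : (fun x' : E => ‖x' - x‖ ^ 2) =o[𝓝 x] fun x' => ‖x' - x‖ := by
      have h3 : Tendsto (fun x' : E => ‖x' - x‖) (𝓝 x) (𝓝 0) := by
        have : Continuous fun x' : E => ‖x' - x‖ := by fun_prop
        simpa using this.tendsto x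
      have h4 : (fun t : ℝ => t ^ 2) =o[𝓝 0] fun t => t := by
        have := Asymptotics.isLittleO_pow_pow (𝕜 := ℝ) (show 1 < 2 by norm_num)
        simpa using this
      exact h4.comp_tendsto h3
    exact h2.norm_right.trans_isBigO (by simpa using Asymptotics.isBigO_refl _ _)
  · intro x x'
    have h1 := hlow x x'
    have h2 := hlow x' x
    have h3 : ⟪G x, x' - x⟫ + ⟪G x', x - x'⟫ = -⟪G x - G x', x - x'⟫ := by
      rw [inner_sub_left (G x) (G x'), ← neg_sub x x', inner_neg_right]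
      ring
    have h4 : ‖G x' - G x‖ = ‖G x - G x'‖ := norm_sub_rev _ _
    rw [h4] at h2
    have h5 : ‖G x - G x'‖ ^ 2 ≤ ⟪G x - G x', x - x'⟫ := by linarith
    have h6 := real_inner_le_norm (G x - G x') (x - x')
    by_cases h7 : ‖G x - G x'‖ = 0
    · rw [h7]
      exact norm_nonneg _
    · have h8 : 0 < ‖G x - G x'‖ := lt_of_le_of_ne (norm_nonneg _) (Ne.symm h7)
      nlinarith
  · intro x
    have h1 : P 0 = 0 := unique φ (hv 0) fun z => by
      rw [hφ0, sub_zero, inner_zero_left, add_zero]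
      exact h0 z
    have h2 : f 0 = 0 := by
      simp only [hf]
      rw [h1, hφ0]
      simp
    rw [h2]
    simp only [hf]
    have := h0 (P x)
    positivity
  · intro y g hg
    have h1 : P (y + g) = y := unique φ (hv (y + g)) fun z => by
      rw [add_sub_cancel_left]
      exact hg z
    change y + g - P (y + g) = g
    rw [h1, add_sub_cancel_left]

section MaxAffine

variable {ι : Type} [Fintype ι] [Nonempty ι]

/-- a finite maximum of affine functions -/
noncomputable def mx (s : ι → E) (b : ι → ℝ) (z : E) : ℝ :=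
  Finset.univ.sup' Finset.univ_nonempty fun i => ⟪s i, z⟫ + b i

lemma le_mx (s : ι → E) (b : ι → ℝ) (z : E) (i : ι) : ⟪s i, z⟫ + b i ≤ mx s b z :=
  Finset.le_sup' (fun i => ⟪s i, z⟫ + b i) (Finset.mem_univ i)

lemma mx_le (s : ι → E) (b : ι → ℝ) (z : E) {t : ℝ} (h : ∀ i, ⟪s i, z⟫ + b i ≤ t) :
    mx s b z ≤ t := Finset.sup'_le _ _ fun i _ => h i

lemma mx_convex (s : ι → E) (b : ι → ℝ) : ConvexOn ℝ Set.univ (mx s b) := by
  refine ⟨convex_univ, fun x _ y _ α β hα hβ hαβ => mx_le _ _ _ fun i => ?_⟩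
  have h1 := mul_le_mul_of_nonneg_left (le_mx s b x i) hα
  have h2 := mul_le_mul_of_nonneg_left (le_mx s b y i) hβ
  rw [inner_add_right, inner_smul_right, inner_smul_right]
  simp only [smul_eq_mul]
  have h3 : b i = (α + β) * b i := by rw [hαβ, one_mul]
  linarith

lemma mx_continuous (s : ι → E) (b : ι → ℝ) : Continuous (mx s b) := by
  unfold mx
  apply Continuous.finset_sup'_apply
  intro i _
  fun_prop

/-- an active slope is a subgradient -/
lemma mx_subgrad (s : ι → E) (b : ι → ℝ) (y : E) (i : ι)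
    (h : ∀ j, ⟪s j, y⟫ + b j ≤ ⟪s i, y⟫ + b i) (z : E) :
    mx s b y + ⟪s i, z - y⟫ ≤ mx s b z := by
  have h1 : mx s b y ≤ ⟪s i, y⟫ + b i := mx_le _ _ _ h
  have h2 := le_mx s b z i
  rw [inner_sub_right]
  linarith

end MaxAffine

end Q96.MoreauEnv
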