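import Mathlib
import Pool.Agent.Q96.MoreauEnv

/-!
# Convex `1`-smooth functions with a prescribed gradient descent trajectory of stepsize one
-/

set_option autoImplicit false
set_option linter.unusedSectionVars false

open Filter Topology Finset
open scoped RealInnerProductSpace

namespace Q96.GdTraj

open Q96.MoreauEnv

variable {E : Type*} [NormedAddCommGroup E] [InnerProductSpace ℝ E] [FiniteDimensional ℝ E]

/-- positions -/
def Y (y0 : E) (g : ℕ → E) (j : ℕ) : E := y0 + ∑ i ∈ range j, g i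

/-- values -/
def Ph (p y0 : E) (g : ℕ → E) (j : ℕ) : ℝ := ⟪p, y0⟫ + ∑ i ∈ range j, ‖g i‖ ^ 2

lemma Y_eq (y0 : E) (g : ℕ → E) {j k : ℕ} (h : j ≤ k) :
    Y y0 g k = Y y0 g j + ∑ i ∈ Ico j k, g i := by
  unfold Y
  rw [add_assoc, Finset.sum_range_add_sum_Ico _ h]

lemma Ph_eq (p y0 : E) (g : ℕ → E) {j k : ℕ} (h : j ≤ k) :
    Ph p y0 g k = Ph p y0 g j + ∑ i ∈ Ico j k, ‖g i‖ ^ 2 := by
  unfold Ph
  rw [add_assoc, Finset.sum_range_add_sum_Ico _ h]

/-- existence of the function -/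
theorem exists_fun (N : ℕ) (p y0 : E) (g : ℕ → E)
    (h1b : ∀ j i, j ≤ i → i < N → ⟪g j, g i⟫ ≤ ‖g i‖ ^ 2)
    (h1a : ∀ j k, j < k → k < N → 0 ≤ ∑ i ∈ Ico j k, (⟪g k, g i⟫ - ‖g i‖ ^ 2))
    (h2 : ∀ k, k < N → ⟪p, y0⟫ ≤ ⟪g k, y0⟫ + ∑ i ∈ range k, (⟪g k, g i⟫ - ‖g i‖ ^ 2))
    (h3 : ∀ i, i < N → ⟪p, g i⟫ ≤ ‖g i‖ ^ 2) (h4 : 0 ≤ ⟪p, y0⟫) :
    ∃ f : E → ℝ, ∃ G : E → E, ConvexOn ℝ Set.univ f ∧ (∀ x, HasGradientAt f (G x) x) ∧
      (∀ x x', ‖G x - G x'‖ ≤ ‖x - x'‖) ∧ (∀ x, f 0 ≤ f x) ∧ G p = p ∧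
      ∀ j, j < N → G (Y y0 g (j + 1)) = g j := by
  let s : Option (Option (Fin N)) → E := fun i => match i with
    | none => 0
    | some none => p
    | some (some j) => g j
  let b : Option (Option (Fin N)) → ℝ := fun i => match i with
    | none => 0
    | some none => 0
    | some (some j) => Ph p y0 g j - ⟪g j, Y y0 g j⟫
  have hPh0 : ∀ j, 0 ≤ Ph p y0 g j := fun j =>
    add_nonneg h4 (Finset.sum_nonneg fun i _ => sq_nonneg _)
  -- the affine pieces at zero
  have hz : ∀ i, ⟪s i, (0 : E)⟫ + b i ≤ ⟪s (some none), (0 : E)⟫ + b (some none) := by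
    intro i
    rcases i with _ | _ | j
    · change ⟪(0 : E), 0⟫ + 0 ≤ ⟪p, 0⟫ + 0
      rw [inner_zero_right, inner_zero_right]
    · exact le_rfl
    · change ⟪g j, 0⟫ + (Ph p y0 g j - ⟪g j, Y y0 g j⟫) ≤ ⟪p, 0⟫ + 0
      rw [inner_zero_right, inner_zero_right]
      unfold Ph Y
      rw [inner_add_right, inner_sum]
      have := h2 j j.2
      rw [Finset.sum_sub_distrib] at this
      linarith
  -- the affine pieces at `Y j`
  have hy : ∀ j : Fin N, ∀ i, ⟪s i, Y y0 g j⟫ + b i ≤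
      ⟪s (some (some j)), Y y0 g j⟫ + b (some (some j)) := by
    intro j i
    have hj : ⟪s (some (some j)), Y y0 g j⟫ + b (some (some j)) = Ph p y0 g j := by
      change ⟪g j, Y y0 g j⟫ + (Ph p y0 g j - ⟪g j, Y y0 g j⟫) = _
      ring
    rw [hj]
    rcases i with _ | _ | k
    · change ⟪(0 : E), Y y0 g j⟫ + 0 ≤ _
      rw [inner_zero_left, add_zero]
      exact hPh0 j
    · change ⟪p, Y y0 g j⟫ + 0 ≤ _
      unfold Y Ph
      rw [inner_add_right, inner_sum, add_zero]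
      have : ∑ i ∈ range (j : ℕ), ⟪p, g i⟫ ≤ ∑ i ∈ range (j : ℕ), ‖g i‖ ^ 2 :=
        Finset.sum_le_sum fun i hi => h3 i ((Finset.mem_range.1 hi).trans j.2)
      linarith
    · change ⟪g k, Y y0 g j⟫ + (Ph p y0 g k - ⟪g k, Y y0 g k⟫) ≤ _
      rcases lt_trichotomy (j : ℕ) (k : ℕ) with h | h | h
      · rw [Y_eq y0 g h.le, Ph_eq p y0 g h.le, inner_add_right, inner_sum]
        have := h1a j k h k.2
        rw [Finset.sum_sub_distrib] at this
        linarith
      · rw [h]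
        linarith
      · rw [Y_eq y0 g h.le, Ph_eq p y0 g h.le, inner_add_right, inner_sum]
        have : ∑ i ∈ Ico (k : ℕ) j, ⟪g k, g i⟫ ≤ ∑ i ∈ Ico (k : ℕ) j, ‖g i‖ ^ 2 :=
          Finset.sum_le_sum fun i hi => h1b k i (Finset.mem_Ico.1 hi).1
            ((Finset.mem_Ico.1 hi).2.trans j.2)
        linarith
  obtain ⟨f, G, hc, hg, hl, hmin, hG⟩ := exists_envelope (mx s b) (mx_convex s b)
    (mx_continuous s b) (fun y => by
      have := le_mx s b y none
      change ⟪(0 : E), y⟫ + 0 ≤ _ at this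
      rwa [inner_zero_left, add_zero] at this) (by
      apply le_antisymm
      · apply mx_le
        intro i
        refine (hz i).trans ?_
        change ⟪p, (0 : E)⟫ + 0 ≤ 0
        rw [inner_zero_right, add_zero]
      · have := le_mx s b 0 none
        change ⟪(0 : E), 0⟫ + 0 ≤ _ at this
        rwa [inner_zero_left, add_zero] at this)
  refine ⟨f, G, hc, hg, hl, hmin, ?_, ?_⟩
  · have := hG 0 p (mx_subgrad s b 0 (some none) hz)
    rwa [zero_add] at this
  · intro j hj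
    have h5 := hG (Y y0 g j) (g j) (mx_subgrad s b (Y y0 g j) (some (some ⟨j, hj⟩)) (hy ⟨j, hj⟩))
    have h6 : Y y0 g (j + 1) = Y y0 g j + g j := by
      unfold Y
      rw [Finset.sum_range_succ, add_assoc]
    rw [h6]
    exact h5

/-! ### Harmonic numbers -/

/-- harmonic numbers -/
noncomputable def H (n : ℕ) : ℝ := ∑ k ∈ range n, 1 / ((k : ℝ) + 1)

lemma H_succ (n : ℕ) : H (n + 1) = H n + 1 / ((n : ℝ) + 1) := by
  unfold H
  rw [Finset.sum_range_succ]

lemma H_zero : H 0 = 0 := by simp [H]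

lemma H_mono {m n : ℕ} (h : m ≤ n) : H m ≤ H n := by
  unfold H
  apply Finset.sum_le_sum_of_subset_of_nonneg
  · exact Finset.range_mono h
  · intro k _ _
    positivity

lemma H_nonneg (n : ℕ) : 0 ≤ H n := by
  have := H_mono (Nat.zero_le n)
  rwa [H_zero] at this

lemma H_le (n : ℕ) : H n ≤ n := by
  induction n with
  | zero => simp [H_zero]
  | succ n ih =>
    rw [H_succ]
    push_cast
    have : 1 / ((n : ℝ) + 1) ≤ 1 := by
      rw [div_le_one (by positivity)]
      linarith [(Nat.cast_nonneg n : (0 : ℝ) ≤ n)]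
    linarith

lemma H_sq_le (n : ℕ) : H n ^ 2 ≤ 2 * n := by
  induction n with
  | zero => simp [H_zero]
  | succ n ih =>
    rw [H_succ]
    push_cast
    have hn : (0 : ℝ) < (n : ℝ) + 1 := by positivity
    have h1 := H_le n
    have h2 : 2 * H n * (1 / ((n : ℝ) + 1)) + (1 / ((n : ℝ) + 1)) ^ 2 ≤ 2 := by
      have h3 : 2 * H n * (1 / ((n : ℝ) + 1)) ≤ 2 * n * (1 / ((n : ℝ) + 1)) :=
        mul_le_mul_of_nonneg_right (by linarith) (by positivity)
      have h4 : 2 * (n : ℝ) * (1 / ((n : ℝ) + 1)) + (1 / ((n : ℝ) + 1)) ^ 2 =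
          2 - (2 * ((n : ℝ) + 1) - 1) / ((n : ℝ) + 1) ^ 2 := by
        field_simp
        ring
      have h5 : 0 ≤ (2 * ((n : ℝ) + 1) - 1) / ((n : ℝ) + 1) ^ 2 := by
        apply div_nonneg
        · linarith [(Nat.cast_nonneg n : (0 : ℝ) ≤ n)]
        · positivity
      linarith
    nlinarith

lemma sum_H (n : ℕ) : ∑ i ∈ range n, H i = n * H n - n := by
  induction n with
  | zero => simp
  | succ n ih =>
    rw [Finset.sum_range_succ, ih, H_succ]
    push_cast
    field_simp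
    ring

lemma sum_diff (n : ℕ) : ∑ i ∈ range n, (H n - H i) = n := by
  rw [Finset.sum_sub_distrib, sum_H]
  simp

lemma sum_diff_sq (n : ℕ) : ∑ i ∈ range n, (H n - H i) ^ 2 = 2 * n - H n := by
  induction n with
  | zero => simp [H_zero]
  | succ n ih =>
    rw [Finset.sum_range_succ, H_succ]
    have h1 : ∀ i ∈ range n, (H n + 1 / ((n : ℝ) + 1) - H i) ^ 2 =
        (H n - H i) ^ 2 + 2 / ((n : ℝ) + 1) * (H n - H i) + (1 / ((n : ℝ) + 1)) ^ 2 := by
      intro i _
      ring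
    rw [Finset.sum_congr rfl h1, Finset.sum_add_distrib, Finset.sum_add_distrib, ih,
      ← Finset.mul_sum, sum_diff, Finset.sum_const, Finset.card_range, nsmul_eq_mul]
    push_cast
    field_simp
    ring

/-- the key inequality for the logarithmic rotation -/
lemma sum_Ico_nonneg {j k : ℕ} (hjk : j < k) :
    0 ≤ ∑ i ∈ Ico j k, (6 * (H k - H i) - (H k - H i) ^ 2) := by
  by_cases hj : H k - H j ≤ 6
  · apply Finset.sum_nonneg
    intro i hi
    rw [Finset.mem_Ico] at hi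
    have h1 : 0 ≤ H k - H i := sub_nonneg.2 (H_mono hi.2.le)
    have h2 : H k - H i ≤ 6 := by
      have := H_mono hi.1
      linarith
    nlinarith
  · push Not at hj
    have htot : ∑ i ∈ range k, (6 * (H k - H i) - (H k - H i) ^ 2) = 4 * k + H k := by
      rw [Finset.sum_sub_distrib, ← Finset.mul_sum, sum_diff, sum_diff_sq]
      ring
    have hsplit := Finset.sum_range_add_sum_Ico
      (fun i => 6 * (H k - H i) - (H k - H i) ^ 2) hjk.le
    have hneg : ∑ i ∈ range j, (6 * (H k - H i) - (H k - H i) ^ 2) ≤ 0 := by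
      apply Finset.sum_nonpos
      intro i hi
      have h1 := H_mono (Finset.mem_range.1 hi).le
      nlinarith
    have h2 := H_nonneg k
    have h3 : (0 : ℝ) ≤ k := Nat.cast_nonneg k
    linarith

end Q96.GdTraj
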