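import Mathlib
import Pool.Agent.Q96.GdTraj

/-!
# Logarithmically rotating gradients

For `0 < e ≤ 1` and `N` with `H_N - 1 ≥ 16 / e^2` an explicit gradient descent trajectory of stepsize
one in the plane.
-/

set_option autoImplicit false
set_option linter.unusedSectionVars false

open Filter Topology Finset
open scoped RealInnerProductSpace

namespace Q96.GdInst

open Q96.GdTraj

/-- the parameters -/
structure Par where
  (e w ε hb : ℝ)
  N : ℕ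
  hN : 0 < N
  he : 0 < e
  he1 : e ≤ 1
  hw : w = e / 8
  hhb : hb = H N - 1
  hε : ε * hb = w
  hbig : 16 ≤ e ^ 2 * hb

namespace Par

variable (P : Par)

lemma hb_pos : 0 < P.hb := by
  have h1 := P.hbig
  have h2 := P.he
  by_contra h
  have : P.e ^ 2 * P.hb ≤ 0 := mul_nonpos_of_nonneg_of_nonpos (by positivity) (not_lt.1 h)
  linarith

lemma hb_big : 16 ≤ P.hb := by
  have h1 := P.hbig
  have h2 := P.hb_pos
  have h3 : P.e ^ 2 ≤ 1 := by
    have := P.he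
    have := P.he1
    nlinarith
  nlinarith

lemma w_pos : 0 < P.w := by
  rw [P.hw]
  have := P.he
  positivity

lemma w_le : P.w ^ 2 ≤ 1 / 64 := by
  rw [P.hw]
  have := P.he
  have := P.he1
  nlinarith

lemma ε_pos : 0 < P.ε := by
  by_contra h
  have h1 : P.ε * P.hb ≤ 0 := mul_nonpos_of_nonpos_of_nonneg (not_lt.1 h) P.hb_pos.le
  rw [P.hε] at h1
  exact absurd h1 (not_le.2 P.w_pos)

/-- `16 ε ≤ e^2 w` -/
lemma ε_small : 16 * P.ε ≤ P.e ^ 2 * P.w := by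
  rw [← P.hε]
  have h1 := P.hbig
  have h2 := P.ε_pos
  nlinarith

lemma ε_small' : 4 * P.ε ≤ P.e * P.w := by
  have h1 := P.ε_small
  have h2 := P.he
  have h3 := P.he1
  have h4 := P.w_pos
  have h5 : P.e ^ 2 * P.w ≤ P.e * P.w := by nlinarith [mul_pos h2 h4]
  have h6 := P.ε_pos
  linarith

lemma εH_le {j : ℕ} (hj : j ≤ P.N) : P.ε * H j ≤ 2 * P.w := by
  have h1 := H_mono hj
  have h2 := P.hhb
  have h3 := P.hb_big
  have h4 : H j ≤ 2 * P.hb := by linarith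
  have h5 : P.ε * H j ≤ P.ε * (2 * P.hb) := mul_le_mul_of_nonneg_left h4 P.ε_pos.le
  have h6 : P.ε * (2 * P.hb) = 2 * P.w := by rw [← P.hε]; ring
  linarith

lemma εH_nonneg (j : ℕ) : 0 ≤ P.ε * H j := mul_nonneg P.ε_pos.le (H_nonneg j)

/-- second coordinates of the gradients -/
noncomputable def a (j : ℕ) : ℝ := P.e * P.w + P.ε * H j

/-- first coordinates of the gradients, minus one -/
noncomputable def c (j : ℕ) : ℝ :=
  -(P.e ^ 2 * P.w ^ 2) + 4 * P.ε ^ 2 * H j - P.e * P.w * (P.ε * H j) - (P.ε * H j) ^ 2 / 2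

lemma a_nonneg (j : ℕ) : 0 ≤ P.a j := by
  have := P.he
  have := P.w_pos
  have := P.εH_nonneg j
  unfold a
  positivity

lemma a_mono {i j : ℕ} (h : i ≤ j) : P.a i ≤ P.a j := by
  unfold a
  have := mul_le_mul_of_nonneg_left (H_mono h) P.ε_pos.le
  linarith

lemma c_nonpos (j : ℕ) : P.c j ≤ 0 := by
  unfold c
  have h1 := P.ε_small'
  have h2 := P.εH_nonneg j
  have h3 : 4 * P.ε ^ 2 * H j = 4 * P.ε * (P.ε * H j) := by ring
  have h4 : 4 * P.ε * (P.ε * H j) ≤ P.e * P.w * (P.ε * H j) := mul_le_mul_of_nonneg_right h1 h2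
  rw [h3]
  nlinarith [sq_nonneg (P.ε * H j), sq_nonneg (P.e * P.w)]

lemma c_lower {j : ℕ} (hj : j ≤ P.N) : -(5 * P.w ^ 2) ≤ P.c j := by
  unfold c
  have h1 := P.εH_le hj
  have h2 := P.εH_nonneg j
  have h3 := P.he
  have h4 := P.he1
  have h5 := P.w_pos
  have h6 : 0 ≤ 4 * P.ε ^ 2 * H j := mul_nonneg (by positivity) (H_nonneg j)
  have h7 : P.e ^ 2 * P.w ^ 2 ≤ P.w ^ 2 := by
    have : P.e ^ 2 ≤ 1 := by nlinarith
    nlinarith [sq_nonneg P.w]
  have h8 : P.e * P.w * (P.ε * H j) ≤ 2 * P.w ^ 2 := by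
    have : P.e * P.w ≤ P.w := by nlinarith
    calc P.e * P.w * (P.ε * H j) ≤ P.w * (2 * P.w) := mul_le_mul this h1 h2 h5.le
      _ = 2 * P.w ^ 2 := by ring
  have h9 : (P.ε * H j) ^ 2 ≤ 4 * P.w ^ 2 := by nlinarith
  linarith

lemma c_lower' {j : ℕ} (hj : j ≤ P.N) : -(1 / 4) ≤ P.c j := by
  have h1 := P.c_lower hj
  have h2 := P.w_le
  linarith

lemma c_sub (i j : ℕ) : P.c j - P.c i =
    4 * P.ε * (P.a j - P.a i) - (P.a j - P.a i) * (P.a j + P.a i) / 2 := by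
  unfold a c
  ring

/-- lower bound for inner products -/
lemma T_lower {i j : ℕ} (hij : i ≤ j) (hi : i ≤ P.N) :
    P.ε ^ 2 * (6 * (H j - H i) - (H j - H i) ^ 2) / 2 ≤
      (P.c j - P.c i) * (1 + P.c i) + (P.a j - P.a i) * P.a i := by
  rw [P.c_sub i j]
  have hd : 0 ≤ P.a j - P.a i := sub_nonneg.2 (P.a_mono hij)
  have hde : P.a j - P.a i = P.ε * (H j - H i) := by unfold a; ring
  have h1 := P.c_lower' hi
  have h2 := P.c_nonpos i
  have h3 := P.a_nonneg i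
  have h4 := P.ε_pos
  set d := P.a j - P.a i with hdd
  have h5 : P.a j = P.a i + d := by rw [hdd]; ring
  rw [h5]
  have h6 : P.ε ^ 2 * (6 * (H j - H i) - (H j - H i) ^ 2) / 2 = (6 * P.ε * d - d ^ 2) / 2 := by
    rw [hde]; ring
  rw [h6]
  have h7 : 0 ≤ (1 / 4 + P.c i) * (P.ε * d) := mul_nonneg (by linarith) (by positivity)
  have h8 : 0 ≤ -P.c i * (P.a i * d) := mul_nonneg (by linarith) (by positivity)
  have h9 : 0 ≤ -P.c i * d ^ 2 := mul_nonneg (by linarith) (by positivity)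
  nlinarith

lemma h1b {i j : ℕ} (hji : j ≤ i) (hi : i ≤ P.N) :
    (1 + P.c j) * (1 + P.c i) + P.a j * P.a i ≤ (1 + P.c i) ^ 2 + P.a i ^ 2 := by
  have hd : 0 ≤ P.a i - P.a j := sub_nonneg.2 (P.a_mono hji)
  have h0 := P.c_sub j i
  have h1 := P.c_lower' hi
  have h2 := P.c_nonpos i
  have h3 := P.a_nonneg i
  have h3' := P.a_nonneg j
  have h4 := P.ε_pos
  have h5 : (1 + P.c i) ^ 2 + P.a i ^ 2 - ((1 + P.c j) * (1 + P.c i) + P.a j * P.a i) =
      (1 + P.c i) * (P.c i - P.c j) + P.a i * (P.a i - P.a j) := by ring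
  have h6 : 0 ≤ (1 + P.c i) * (P.c i - P.c j) + P.a i * (P.a i - P.a j) := by
    rw [h0]
    have h7 : 0 ≤ (1 + P.c i) * (4 * P.ε * (P.a i - P.a j)) := by
      apply mul_nonneg
      · linarith
      · positivity
    have h8 : (1 + P.c i) * ((P.a i - P.a j) * (P.a i + P.a j) / 2) ≤
        1 * ((P.a i - P.a j) * (P.a i + P.a j) / 2) := by
      apply mul_le_mul_of_nonneg_right (by linarith)
      positivity
    have h9 : 0 ≤ (P.a i - P.a j) * (P.a i - P.a j) := mul_nonneg hd hd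
    nlinarith
  linarith

lemma h3 (i : ℕ) : 1 + P.c i ≤ (1 + P.c i) ^ 2 + P.a i ^ 2 := by
  have h1 : P.c i + P.a i ^ 2 = 4 * P.ε ^ 2 * H i + P.e * P.w * (P.ε * H i) +
      (P.ε * H i) ^ 2 / 2 := by
    unfold a c
    ring
  have h2 := P.εH_nonneg i
  have h3 := P.he
  have h4 := P.w_pos
  have h5 : 0 ≤ 4 * P.ε ^ 2 * H i := mul_nonneg (by positivity) (H_nonneg i)
  have h6 : 0 ≤ P.c i + P.a i ^ 2 := by
    rw [h1]
    positivity
  nlinarith [sq_nonneg (P.c i)]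

/-- averages -/
noncomputable def cb : ℝ := (∑ j ∈ range P.N, P.c j) / P.N

noncomputable def ab : ℝ := (∑ j ∈ range P.N, P.a j) / P.N

lemma N_pos : (0 : ℝ) < P.N := by exact_mod_cast P.hN

lemma ab_eq : P.ab = (1 + P.e) * P.w := by
  unfold ab a
  rw [Finset.sum_add_distrib, Finset.sum_const, ← Finset.mul_sum, sum_H, Finset.card_range,
    nsmul_eq_mul]
  have hN := P.N_pos
  have h1 : (P.N : ℝ) * H P.N - P.N = P.N * P.hb := by rw [P.hhb]; ring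
  rw [h1]
  have h2 : (P.N * (P.e * P.w) + P.ε * (P.N * P.hb)) / (P.N : ℝ) = P.e * P.w + P.ε * P.hb := by
    field_simp
  rw [h2, P.hε]
  ring

lemma cb_nonpos : P.cb ≤ 0 :=
  div_nonpos_of_nonpos_of_nonneg (Finset.sum_nonpos fun j _ => P.c_nonpos j) P.N_pos.le

lemma cb_lower : -(5 * P.w ^ 2) ≤ P.cb := by
  unfold cb
  rw [le_div_iff₀ P.N_pos]
  calc -(5 * P.w ^ 2) * (P.N : ℝ) = ∑ _j ∈ range P.N, -(5 * P.w ^ 2) := by
        rw [Finset.sum_const, Finset.card_range, nsmul_eq_mul]; ring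
    _ ≤ _ := Finset.sum_le_sum fun j hj => P.c_lower (Finset.mem_range.1 hj).le

lemma cb_upper : P.cb ≤ -(P.e ^ 2 * P.w ^ 2) + 4 * P.ε * P.w - P.e * P.w ^ 2 - P.w ^ 2 / 2 := by
  have hN := P.N_pos
  unfold cb
  rw [div_le_iff₀ hN]
  have h1 : ∑ j ∈ range P.N, P.c j = P.N * (-(P.e ^ 2 * P.w ^ 2)) +
      (4 * P.ε ^ 2 - P.e * P.w * P.ε) * ∑ j ∈ range P.N, H j -
      P.ε ^ 2 / 2 * ∑ j ∈ range P.N, (H j) ^ 2 := by
    have h2 : ∀ j ∈ range P.N, P.c j = -(P.e ^ 2 * P.w ^ 2) +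
        (4 * P.ε ^ 2 - P.e * P.w * P.ε) * H j - P.ε ^ 2 / 2 * (H j) ^ 2 := by
      intro j _
      unfold c
      ring
    rw [Finset.sum_congr rfl h2, Finset.sum_sub_distrib, Finset.sum_add_distrib,
      ← Finset.mul_sum, ← Finset.mul_sum, Finset.sum_const, Finset.card_range, nsmul_eq_mul]
  have h3 : (P.N : ℝ) * H P.N - P.N = P.N * P.hb := by rw [P.hhb]; ring
  have h4 : (P.N * P.hb) ^ 2 ≤ P.N * ∑ j ∈ range P.N, (H j) ^ 2 := by
    have h5 := sq_sum_le_card_mul_sum_sq (s := range P.N) (f := fun j => H j)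
    rw [Finset.card_range, sum_H, h3] at h5
    exact h5
  have h6 : P.N * P.hb ^ 2 ≤ ∑ j ∈ range P.N, (H j) ^ 2 := by
    have h7 : (P.N : ℝ) * (P.N * P.hb ^ 2) ≤ P.N * ∑ j ∈ range P.N, (H j) ^ 2 := by
      calc (P.N : ℝ) * (P.N * P.hb ^ 2) = (P.N * P.hb) ^ 2 := by ring
        _ ≤ _ := h4
    exact le_of_mul_le_mul_left h7 hN
  rw [h1, sum_H, h3]
  have h8 : P.ε ^ 2 / 2 * (P.N * P.hb ^ 2) ≤ P.ε ^ 2 / 2 * ∑ j ∈ range P.N, (H j) ^ 2 :=
    mul_le_mul_of_nonneg_left h6 (by positivity)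
  have h9 : P.ε ^ 2 / 2 * (P.N * P.hb ^ 2) = P.N * (P.w ^ 2 / 2) := by
    rw [← P.hε]; ring
  have h10 : (4 * P.ε ^ 2 - P.e * P.w * P.ε) * (P.N * P.hb) =
      P.N * (4 * P.ε * P.w - P.e * P.w ^ 2) := by
    rw [← P.hε]; ring
  rw [h9] at h8
  rw [h10]
  linarith

/-- the decisive inequality -/
lemma goal : 2 * P.cb + P.cb ^ 2 + P.ab ^ 2 < 0 := by
  have h1 := P.cb_upper
  have h2 := P.cb_lower
  have h3 := P.cb_nonpos
  have h4 := P.ε_small
  have h5 := P.w_pos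
  have h6 := P.he
  have hsq : P.cb ^ 2 ≤ 25 * P.w ^ 4 := by nlinarith [sq_nonneg P.w]
  have h7 : 2 * P.cb + P.ab ^ 2 ≤ -(P.e ^ 2 * P.w ^ 2) / 2 := by
    rw [P.ab_eq]
    have h8 : 16 * P.ε * P.w ≤ P.e ^ 2 * P.w * P.w := mul_le_mul_of_nonneg_right h4 h5.le
    nlinarith
  have h9 : 25 * P.w ^ 4 < P.e ^ 2 * P.w ^ 2 / 2 := by
    have h10 : P.w ^ 2 = P.e ^ 2 / 64 := by rw [P.hw]; ring
    have h11 : P.w ^ 4 = P.w ^ 2 * (P.e ^ 2 / 64) := by
      rw [← h10]; ring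
    rw [h11]
    have : 0 < P.w ^ 2 * P.e ^ 2 := by positivity
    nlinarith
  linarith

lemma h2 {k : ℕ} (hk : k < P.N) :
    0 ≤ P.c k * (1 + P.e * (1 + P.cb)) + P.a k * (P.e * P.ab) +
      ∑ i ∈ range k, ((P.c k - P.c i) * (1 + P.c i) + (P.a k - P.a i) * P.a i) := by
  have h1 : P.ε ^ 2 * (4 * k + H k) / 2 ≤
      ∑ i ∈ range k, ((P.c k - P.c i) * (1 + P.c i) + (P.a k - P.a i) * P.a i) := by
    calc P.ε ^ 2 * (4 * k + H k) / 2
        = ∑ i ∈ range k, P.ε ^ 2 * (6 * (H k - H i) - (H k - H i) ^ 2) / 2 := by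
          rw [← Finset.sum_div, ← Finset.mul_sum, Finset.sum_sub_distrib, ← Finset.mul_sum,
            sum_diff, sum_diff_sq]
          ring
      _ ≤ _ := Finset.sum_le_sum fun i hi => P.T_lower (Finset.mem_range.1 hi).le
            ((Finset.mem_range.1 hi).trans hk).le
  have h2 : 0 ≤ P.c k * (P.e * P.cb) :=
    mul_nonneg_of_nonpos_of_nonpos (P.c_nonpos k)
      (mul_nonpos_of_nonneg_of_nonpos P.he.le P.cb_nonpos)
  have h3 : (1 + P.e) * P.c k + P.a k * (P.e * P.ab) =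
      (1 + P.e) * (P.ε ^ 2 * (4 * H k - H k ^ 2 / 2)) := by
    rw [P.ab_eq]
    unfold a c
    ring
  have h4 := H_sq_le k
  have h5 := H_nonneg k
  have h6 := P.he
  have h7 := P.he1
  have h8 := P.ε_pos
  have h9 : 0 ≤ (1 + P.e) * (4 * H k - H k ^ 2 / 2) + (4 * k + H k) / 2 := by
    have h10 : (1 + P.e) * (H k ^ 2 / 2) ≤ 2 * (H k ^ 2 / 2) :=
      mul_le_mul_of_nonneg_right (by linarith) (by positivity)
    have h11 : 0 ≤ (1 + P.e) * (4 * H k) := by positivity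
    nlinarith
  have h12 : 0 ≤ P.ε ^ 2 * ((1 + P.e) * (4 * H k - H k ^ 2 / 2) + (4 * k + H k) / 2) :=
    mul_nonneg (by positivity) h9
  nlinarith

end Par

end Q96.GdInst
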