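import Mathlib

/-!
# The Lorentz sequence space `ℓ_{2,r}`, `0 < r < 1`, through injections

`S r J π a = ∑_{j ∈ J} (j+1)^{r/2-1} |a (π j)|^r` and `F r a` is the supremum of these numbers over
all finite `J` and all `π` which are injective on `J`.
-/

set_option autoImplicit false

open Filter Topology

namespace Q96.LorentzQ

variable {𝕜 : Type} [RCLike 𝕜]

/-- the weight -/
noncomputable def w (r : ℝ) (j : ℕ) : ℝ := ((j : ℝ) + 1) ^ (r / 2 - 1)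

lemma w_pos (r : ℝ) (j : ℕ) : 0 < w r j := by unfold w; positivity

lemma w_zero (r : ℝ) : w r 0 = 1 := by simp [w]

lemma w_anti {r : ℝ} (hr : r ≤ 1) {i j : ℕ} (h : i ≤ j) : w r j ≤ w r i := by
  unfold w
  apply Real.rpow_le_rpow_of_nonpos (by positivity)
  · have : (i : ℝ) ≤ j := by exact_mod_cast h
    linarith
  · linarith

/-- partial sums of `(j+1)^(s-1)` -/
lemma pow_step {s : ℝ} (hs : 0 < s) (hs1 : s ≤ 1) (j : ℕ) :
    s * ((j : ℝ) + 1) ^ (s - 1) ≤ ((j : ℝ) + 1) ^ s - (j : ℝ) ^ s := by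
  have hj : (0 : ℝ) < (j : ℝ) + 1 := by positivity
  have h1 := rpow_one_add_le_one_add_mul_self (s := -(1 / ((j : ℝ) + 1)))
    (by
      rw [neg_le_neg_iff, div_le_one hj]
      linarith [(Nat.cast_nonneg j : (0 : ℝ) ≤ j)]) hs.le hs1
  have h2 : (j : ℝ) ^ s = ((j : ℝ) + 1) ^ s * (1 + -(1 / ((j : ℝ) + 1))) ^ s := by
    rw [← Real.mul_rpow hj.le]
    · congr 1
      field_simp
      ring
    · rw [← sub_eq_add_neg, sub_nonneg, div_le_one hj]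
      linarith [(Nat.cast_nonneg j : (0 : ℝ) ≤ j)]
  have h3 : ((j : ℝ) + 1) ^ (s - 1) = ((j : ℝ) + 1) ^ s / ((j : ℝ) + 1) := by
    rw [Real.rpow_sub hj, Real.rpow_one]
  have h4 : 0 < ((j : ℝ) + 1) ^ s := Real.rpow_pos_of_pos hj _
  rw [h2, h3]
  have h5 : ((j : ℝ) + 1) ^ s * (1 + -(1 / ((j : ℝ) + 1))) ^ s ≤
      ((j : ℝ) + 1) ^ s * (1 + s * -(1 / ((j : ℝ) + 1))) := mul_le_mul_of_nonneg_left h1 h4.le
  have h6 : ((j : ℝ) + 1) ^ s * (1 + s * -(1 / ((j : ℝ) + 1))) =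
      ((j : ℝ) + 1) ^ s - s * (((j : ℝ) + 1) ^ s / ((j : ℝ) + 1)) := by ring
  linarith

lemma sum_pow_le {s : ℝ} (hs : 0 < s) (hs1 : s ≤ 1) (k : ℕ) :
    ∑ j ∈ Finset.range k, ((j : ℝ) + 1) ^ (s - 1) ≤ (1 / s) * (k : ℝ) ^ s := by
  induction k with
  | zero => simp [Real.zero_rpow hs.ne']
  | succ k ih =>
    rw [Finset.sum_range_succ]
    have h := pow_step hs hs1 k
    have h2 : ((k : ℝ) + 1) ^ (s - 1) ≤ (1 / s) * (((k : ℝ) + 1) ^ s - (k : ℝ) ^ s) := by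
      rw [one_div, ← div_eq_inv_mul, le_div_iff₀ hs]
      linarith
    push_cast
    calc _ ≤ (1 / s) * (k : ℝ) ^ s + (1 / s) * (((k : ℝ) + 1) ^ s - (k : ℝ) ^ s) := add_le_add ih h2
      _ = _ := by ring

lemma le_sum_w {r : ℝ} (hr : r ≤ 1) (k : ℕ) (hk : 0 < k) :
    (k : ℝ) ^ (r / 2) ≤ ∑ j ∈ Finset.range k, w r j := by
  have hk' : (0 : ℝ) < k := by exact_mod_cast hk
  have h : ∀ j ∈ Finset.range k, (k : ℝ) ^ (r / 2 - 1) ≤ w r j := by
    intro j hj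
    unfold w
    apply Real.rpow_le_rpow_of_nonpos (by positivity)
    · have := Finset.mem_range.1 hj
      exact_mod_cast this
    · linarith
  calc (k : ℝ) ^ (r / 2) = ∑ j ∈ Finset.range k, (k : ℝ) ^ (r / 2 - 1) := by
        rw [Finset.sum_const, Finset.card_range, nsmul_eq_mul, Real.rpow_sub hk', Real.rpow_one]
        field_simp
    _ ≤ _ := Finset.sum_le_sum h

lemma sum_w_le_range {r : ℝ} (hr : r ≤ 1) (J : Finset ℕ) :
    ∑ j ∈ J, w r j ≤ ∑ j ∈ Finset.range J.card, w r j := by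
  induction hn : J.card generalizing J with
  | zero =>
    rw [Finset.card_eq_zero] at hn
    subst hn
    simp
  | succ n ih =>
    have hne : J.Nonempty := by
      rw [← Finset.card_pos]; omega
    set M := J.max' hne
    have hM : M ∈ J := J.max'_mem hne
    have h1 := ih (J.erase M) (by rw [Finset.card_erase_of_mem hM, hn]; rfl)
    have hsub : J ⊆ Finset.range (M + 1) := by
      intro j hj
      rw [Finset.mem_range]
      exact Nat.lt_succ_of_le (J.le_max' j hj)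
    have hcard : n + 1 ≤ M + 1 := by
      have := Finset.card_le_card hsub
      rwa [hn, Finset.card_range] at this
    rw [Finset.sum_range_succ, ← Finset.sum_erase_add J _ hM]
    exact add_le_add h1 (w_anti hr (by omega))

/-- the weighted sums -/
noncomputable def S (r : ℝ) (J : Finset ℕ) (π : ℕ → ℕ) (a : ℕ → 𝕜) : ℝ :=
  ∑ j ∈ J, w r j * ‖a (π j)‖ ^ r

lemma S_nonneg (r : ℝ) (J : Finset ℕ) (π : ℕ → ℕ) (a : ℕ → 𝕜) : 0 ≤ S r J π a :=
  Finset.sum_nonneg fun j _ => mul_nonneg (w_pos r j).le (Real.rpow_nonneg (norm_nonneg _) _)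

lemma rpow_add_le {r : ℝ} (hr : 0 < r) (hr1 : r ≤ 1) {x y : ℝ} (hx : 0 ≤ x) (hy : 0 ≤ y) :
    (x + y) ^ r ≤ x ^ r + y ^ r := by
  have := NNReal.rpow_add_le_add_rpow ⟨x, hx⟩ ⟨y, hy⟩ hr.le hr1
  exact_mod_cast this

lemma norm_add_rpow_le {r : ℝ} (hr : 0 < r) (hr1 : r ≤ 1) (x y : 𝕜) :
    ‖x + y‖ ^ r ≤ ‖x‖ ^ r + ‖y‖ ^ r :=
  (Real.rpow_le_rpow (norm_nonneg _) (norm_add_le x y) hr.le).trans
    (rpow_add_le hr hr1 (norm_nonneg _) (norm_nonneg _))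

lemma S_add_le {r : ℝ} (hr : 0 < r) (hr1 : r ≤ 1) (J : Finset ℕ) (π : ℕ → ℕ) (a b : ℕ → 𝕜) :
    S r J π (a + b) ≤ S r J π a + S r J π b := by
  unfold S
  rw [← Finset.sum_add_distrib]
  apply Finset.sum_le_sum
  intro j _
  rw [← mul_add]
  exact mul_le_mul_of_nonneg_left (norm_add_rpow_le hr hr1 _ _) (w_pos r j).le

lemma S_smul (r : ℝ) (J : Finset ℕ) (π : ℕ → ℕ) (c : 𝕜) (a : ℕ → 𝕜) :
    S r J π (c • a) = ‖c‖ ^ r * S r J π a := by
  unfold S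
  rw [Finset.mul_sum]
  apply Finset.sum_congr rfl
  intro j _
  rw [Pi.smul_apply, smul_eq_mul, norm_mul, Real.mul_rpow (norm_nonneg _) (norm_nonneg _)]
  ring

/-- the Lorentz space: bounded sums, and small sums far out -/
def LX (𝕜 : Type) [RCLike 𝕜] (r : ℝ) (hr : 0 < r) (hr1 : r ≤ 1) : Submodule 𝕜 (ℕ → 𝕜) where
  carrier := {a | (∃ t : ℝ, ∀ (J : Finset ℕ) (π : ℕ → ℕ), Set.InjOn π J → S r J π a ≤ t) ∧
    ∀ ε > 0, ∃ N : ℕ, ∀ (J : Finset ℕ) (π : ℕ → ℕ), Set.InjOn π J → (∀ j ∈ J, N ≤ π j) →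
      S r J π a ≤ ε}
  zero_mem' := by
    have h0 : ∀ (J : Finset ℕ) (π : ℕ → ℕ), S r J π (0 : ℕ → 𝕜) = 0 := by
      intro J π
      simp [S, Real.zero_rpow hr.ne']
    exact ⟨⟨0, fun J π _ => (h0 J π).le⟩, fun ε hε => ⟨0, fun J π _ _ => (h0 J π).le.trans hε.le⟩⟩
  add_mem' := by
    rintro a b ⟨⟨t, ht⟩, ha⟩ ⟨⟨t', ht'⟩, hb⟩
    refine ⟨⟨t + t', fun J π h => (S_add_le hr hr1 J π a b).trans (add_le_add (ht J π h) (ht' J π h))⟩,
      fun ε hε => ?_⟩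
    obtain ⟨N, hN⟩ := ha (ε / 2) (by positivity)
    obtain ⟨N', hN'⟩ := hb (ε / 2) (by positivity)
    refine ⟨max N N', fun J π h h2 => (S_add_le hr hr1 J π a b).trans ?_⟩
    have h3 := hN J π h fun j hj => (le_max_left N N').trans (h2 j hj)
    have h4 := hN' J π h fun j hj => (le_max_right N N').trans (h2 j hj)
    linarith
  smul_mem' := by
    rintro c a ⟨⟨t, ht⟩, ha⟩
    have hc : 0 ≤ ‖c‖ ^ r := Real.rpow_nonneg (norm_nonneg _) _
    refine ⟨⟨‖c‖ ^ r * t, fun J π h => by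
      rw [S_smul]; exact mul_le_mul_of_nonneg_left (ht J π h) hc⟩, fun ε hε => ?_⟩
    obtain ⟨N, hN⟩ := ha (ε / (‖c‖ ^ r + 1)) (by positivity)
    refine ⟨N, fun J π h h2 => ?_⟩
    rw [S_smul]
    have h3 := hN J π h h2
    rw [le_div_iff₀ (by positivity)] at h3
    nlinarith [S_nonneg r J π a]

/-- the functional -/
noncomputable def F (r : ℝ) (a : ℕ → 𝕜) : ℝ :=
  sSup {s | ∃ (J : Finset ℕ) (π : ℕ → ℕ), Set.InjOn π J ∧ s = S r J π a}

variable {r : ℝ} {hr : 0 < r} {hr1 : r ≤ 1}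

lemma S_le_F (a : LX 𝕜 r hr hr1) (J : Finset ℕ) (π : ℕ → ℕ) (h : Set.InjOn π J) :
    S r J π a.1 ≤ F r a.1 := by
  apply le_csSup
  · obtain ⟨⟨t, ht⟩, -⟩ := a.2
    refine ⟨t, ?_⟩
    rintro _ ⟨J, π, h, rfl⟩
    exact ht J π h
  · exact ⟨J, π, h, rfl⟩

lemma F_le (a : ℕ → 𝕜) (t : ℝ) (ht : ∀ (J : Finset ℕ) (π : ℕ → ℕ), Set.InjOn π J → S r J π a ≤ t) :
    F r a ≤ t := by
  apply csSup_le
  · exact ⟨_, ∅, id, by simp, rfl⟩
  · rintro _ ⟨J, π, h, rfl⟩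
    exact ht J π h

lemma F_nonneg (a : LX 𝕜 r hr hr1) : 0 ≤ F r a.1 :=
  (S_nonneg r ∅ id a.1).trans (S_le_F a ∅ id (by simp))

lemma exists_lt_S (a : LX 𝕜 r hr hr1) {t : ℝ} (ht : t < F r a.1) :
    ∃ (J : Finset ℕ) (π : ℕ → ℕ), Set.InjOn π J ∧ t < S r J π a.1 := by
  by_contra hcon
  push Not at hcon
  exact absurd (F_le a.1 t fun J π h => hcon J π h) (not_le.2 ht)

lemma coord_le (a : LX 𝕜 r hr hr1) (i : ℕ) : ‖a.1 i‖ ^ r ≤ F r a.1 := by
  have := S_le_F a {0} (fun _ => i) (by simp)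
  simpa [S, w_zero] using this

lemma F_add_le (a b : LX 𝕜 r hr hr1) : F r (a + b : LX 𝕜 r hr hr1).1 ≤ F r a.1 + F r b.1 :=
  F_le _ _ fun J π h => (S_add_le hr hr1 J π a.1 b.1).trans
    (add_le_add (S_le_F a J π h) (S_le_F b J π h))

lemma F_smul (c : 𝕜) (a : LX 𝕜 r hr hr1) : F r (c • a : LX 𝕜 r hr hr1).1 = ‖c‖ ^ r * F r a.1 := by
  have key : ∀ (c : 𝕜) (a : LX 𝕜 r hr hr1), F r (c • a : LX 𝕜 r hr hr1).1 ≤ ‖c‖ ^ r * F r a.1 := by
    intro c a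
    refine F_le _ _ fun J π h => ?_
    have : S r J π (c • a : LX 𝕜 r hr hr1).1 = ‖c‖ ^ r * S r J π a.1 := S_smul r J π c a.1
    rw [this]
    exact mul_le_mul_of_nonneg_left (S_le_F a J π h) (Real.rpow_nonneg (norm_nonneg _) _)
  refine le_antisymm (key c a) ?_
  by_cases hc : c = 0
  · subst hc
    rw [norm_zero, Real.zero_rpow hr.ne', zero_mul]
    exact F_nonneg _
  · have h1 := key c⁻¹ (c • a)
    rw [smul_smul, inv_mul_cancel₀ hc, one_smul, norm_inv, Real.inv_rpow (norm_nonneg _)] at h1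
    have h2 : 0 < ‖c‖ ^ r := Real.rpow_pos_of_pos (norm_pos_iff.2 hc) _
    rwa [← div_eq_inv_mul, le_div_iff₀ h2, mul_comm] at h1

lemma F_eq_zero (a : LX 𝕜 r hr hr1) (h : F r a.1 = 0) : a = 0 := by
  apply Subtype.ext
  funext i
  have h1 := coord_le a i
  rw [h] at h1
  have h2 : ‖a.1 i‖ ^ r = 0 := le_antisymm h1 (Real.rpow_nonneg (norm_nonneg _) _)
  rw [Real.rpow_eq_zero (norm_nonneg _) hr.ne', norm_eq_zero] at h2
  exact h2

/-- completeness for `F` -/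
theorem complete (u : ℕ → LX 𝕜 r hr hr1)
    (hu : ∀ ε > 0, ∃ n0, ∀ m ≥ n0, ∀ n ≥ n0, F r (u m - u n).1 < ε) :
    ∃ x : LX 𝕜 r hr hr1, ∀ ε > 0, ∃ n0, ∀ n ≥ n0, F r (u n - x).1 < ε := by
  have hcau : ∀ i, CauchySeq fun n => (u n).1 i := by
    intro i
    rw [Metric.cauchySeq_iff]
    intro ε hε
    obtain ⟨n0, hn0⟩ := hu (ε ^ r) (Real.rpow_pos_of_pos hε _)
    refine ⟨n0, fun m hm n hn => ?_⟩
    have h1 := (coord_le (u m - u n) i).trans_lt (hn0 m hm n hn)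
    have h2 := (Real.rpow_lt_rpow_iff (norm_nonneg _) hε.le hr).1 h1
    rw [dist_eq_norm]
    exact h2
  choose a ha using fun i => cauchySeq_tendsto_of_complete (hcau i)
  have hS : ∀ (n : ℕ) (J : Finset ℕ) (π : ℕ → ℕ),
      Tendsto (fun m => S r J π (u n - u m).1) atTop (𝓝 (S r J π ((u n).1 - a))) := by
    intro n J π
    unfold S
    refine tendsto_finsetSum _ fun j _ => Tendsto.const_mul _ ?_
    have h1 : Tendsto (fun m => ‖(u n - u m).1 (π j)‖) atTop (𝓝 ‖((u n).1 - a) (π j)‖) :=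
      (tendsto_const_nhds.sub (ha (π j))).norm
    exact h1.rpow_const (Or.inr hr.le)
  have hle : ∀ ε > 0, ∃ n0, ∀ n ≥ n0, ∀ (J : Finset ℕ) (π : ℕ → ℕ), Set.InjOn π J →
      S r J π ((u n).1 - a) ≤ ε := by
    intro ε hε
    obtain ⟨n0, hn0⟩ := hu ε hε
    refine ⟨n0, fun n hn J π h => ?_⟩
    refine le_of_tendsto (hS n J π) ?_
    filter_upwards [eventually_ge_atTop n0] with m hm
    exact (S_le_F _ J π h).trans (hn0 n hn m hm).le
  have hsymm : ∀ (b : ℕ → 𝕜) (J : Finset ℕ) (π : ℕ → ℕ), S r J π (-b) = S r J π b := by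
    intro b J π
    simp [S]
  have hmem : a ∈ LX 𝕜 r hr hr1 := by
    refine ⟨?_, fun ε hε => ?_⟩
    · obtain ⟨n0, hn0⟩ := hle 1 one_pos
      refine ⟨F r (u n0).1 + 1, fun J π h => ?_⟩
      have h1 := S_add_le hr hr1 J π (u n0).1 (-((u n0).1 - a))
      rw [hsymm] at h1
      have h2 : (u n0).1 + -((u n0).1 - a) = a := by abel
      rw [h2] at h1
      exact h1.trans (add_le_add (S_le_F _ J π h) (hn0 n0 le_rfl J π h))
    · obtain ⟨n0, hn0⟩ := hle (ε / 2) (by positivity)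
      obtain ⟨N, hN⟩ := (u n0).2.2 (ε / 2) (by positivity)
      refine ⟨N, fun J π h h' => ?_⟩
      have h1 := S_add_le hr hr1 J π (u n0).1 (-((u n0).1 - a))
      rw [hsymm] at h1
      have h2 : (u n0).1 + -((u n0).1 - a) = a := by abel
      rw [h2] at h1
      have h3 := hN J π h h'
      have h4 := hn0 n0 le_rfl J π h
      linarith
  refine ⟨⟨a, hmem⟩, fun ε hε => ?_⟩
  obtain ⟨n0, hn0⟩ := hle (ε / 2) (by positivity)
  refine ⟨n0, fun n hn => ?_⟩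
  have : F r (u n - ⟨a, hmem⟩ : LX 𝕜 r hr hr1).1 ≤ ε / 2 := F_le _ _ fun J π h => hn0 n hn J π h
  linarith

end Q96.LorentzQ
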