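import Mathlib
import Pool.Agent.Q96.LorentzQ

/-!
# Infinite dimensional subspaces of `ℓ_{2,r}` carry no equivalent `p`-norm, `p > r`
-/

set_option autoImplicit false

open Filter Topology

namespace Q96.LorentzQ

variable {𝕜 : Type} [RCLike 𝕜] {r : ℝ} {hr : 0 < r} {hr1 : r ≤ 1}

lemma coord_tail (a : LX 𝕜 r hr hr1) {ε : ℝ} (hε : 0 < ε) :
    ∃ N, ∀ i ≥ N, ‖a.1 i‖ ^ r ≤ ε := by
  obtain ⟨N, hN⟩ := a.2.2 ε hε
  refine ⟨N, fun i hi => ?_⟩
  have := hN {0} (fun _ => i) (by simp) (by simpa using hi)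
  simpa [S, w_zero] using this

lemma exists_enum (B : Finset ℕ) :
    ∃ π : ℕ → ℕ, Set.InjOn π (Finset.range B.card) ∧ ∀ j ∈ Finset.range B.card, π j ∈ B := by
  refine ⟨fun j => if h : j < B.card then B.orderEmbOfFin rfl ⟨j, h⟩ else 0, ?_, ?_⟩
  · intro i hi j hj hij
    have hi' : i < B.card := by simpa using hi
    have hj' : j < B.card := by simpa using hj
    simp only [hi', hj', dif_pos] at hij
    have := (B.orderEmbOfFin rfl).injective hij
    simpa using this
  · intro j hj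
    have hj' : j < B.card := by simpa using hj
    simp only [hj', dif_pos]
    exact B.orderEmbOfFin_mem rfl _

lemma F_ge_of_card (a : LX 𝕜 r hr hr1) (B : Finset ℕ) {t : ℝ} (h : ∀ n ∈ B, t ≤ ‖a.1 n‖ ^ r) :
    t * ∑ j ∈ Finset.range B.card, w r j ≤ F r a.1 := by
  obtain ⟨π, hπ, hπB⟩ := exists_enum B
  refine le_trans ?_ (S_le_F a (Finset.range B.card) π hπ)
  unfold S
  rw [Finset.mul_sum]
  apply Finset.sum_le_sum
  intro j hj
  rw [mul_comm]
  exact mul_le_mul_of_nonneg_left (h _ (hπB j hj)) (w_pos r j).le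

lemma exists_scale {t : ℝ} (ht : 0 < t) (hr : 0 < r) : ∃ c : 𝕜, ‖c‖ ^ r = t⁻¹ := by
  refine ⟨((t⁻¹ ^ (1 / r) : ℝ) : 𝕜), ?_⟩
  have h0 : 0 ≤ t⁻¹ := inv_nonneg.2 ht.le
  rw [RCLike.norm_ofReal, abs_of_nonneg (Real.rpow_nonneg h0 _), ← Real.rpow_mul h0,
    one_div_mul_cancel hr.ne', Real.rpow_one]

lemma exists_unit (Y : Submodule 𝕜 (LX 𝕜 r hr hr1)) (hY : ¬ FiniteDimensional 𝕜 Y) (N : ℕ) :
    ∃ y ∈ Y, (∀ i < N, y.1 i = 0) ∧ F r y.1 = 1 := by
  let φ : Y →ₗ[𝕜] (Fin N → 𝕜) :=
    { toFun := fun y i => y.1.1 i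
      map_add' := fun _ _ => rfl
      map_smul' := fun _ _ => rfl }
  have hinj : ¬ Function.Injective φ := fun h => hY (FiniteDimensional.of_injective φ h)
  unfold Function.Injective at hinj
  push Not at hinj
  obtain ⟨a, b, hab, hne⟩ := hinj
  obtain ⟨y, hy, hy0⟩ : ∃ y : Y, (∀ i < N, y.1.1 i = 0) ∧ y ≠ 0 := by
    refine ⟨a - b, fun i hi => ?_, sub_ne_zero.2 hne⟩
    have h1 : φ a ⟨i, hi⟩ = φ b ⟨i, hi⟩ := by rw [hab]
    have h2 : a.1.1 i = b.1.1 i := h1
    change a.1.1 i - b.1.1 i = 0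
    rw [h2, sub_self]
  have hFy : 0 < F r y.1.1 := by
    rcases (F_nonneg y.1).lt_or_eq with h | h
    · exact h
    · exact absurd (Subtype.ext (F_eq_zero y.1 h.symm)) hy0
  obtain ⟨c, hc⟩ := exists_scale (𝕜 := 𝕜) hFy hr
  refine ⟨c • y.1, Y.smul_mem c y.2, fun i hi => ?_, ?_⟩
  · change c * y.1.1 i = 0
    rw [hy i hi, mul_zero]
  · rw [F_smul, hc, inv_mul_cancel₀ hFy.ne']

lemma sum_w_unbounded (hr : 0 < r) (hr1 : r ≤ 1) (t : ℝ) :
    ∃ m, t < ∑ j ∈ Finset.range m, w r j := by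
  have h1 : Tendsto (fun k : ℕ => ((k + 1 : ℕ) : ℝ) ^ (r / 2)) atTop atTop :=
    (tendsto_rpow_atTop (by positivity)).comp
      ((tendsto_natCast_atTop_atTop).comp (tendsto_add_atTop_nat 1))
  obtain ⟨k, hk⟩ := (h1.eventually (eventually_gt_atTop t)).exists
  exact ⟨k + 1, hk.trans_le (le_sum_w hr1 (k + 1) (by omega))⟩

/-- flat vectors -/
lemma exists_flat (Y : Submodule 𝕜 (LX 𝕜 r hr hr1)) (hY : ¬ FiniteDimensional 𝕜 Y) (N : ℕ)
    {δ : ℝ} (hδ : 0 < δ) :
    ∃ y ∈ Y, (∀ i < N, y.1 i = 0) ∧ F r y.1 = 1 ∧ ∀ i, ‖y.1 i‖ ^ r ≤ δ := by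
  by_contra hcon
  push Not at hcon
  have hm : ∀ m : ℕ, ∃ z ∈ Y, (∀ i < N, z.1 i = 0) ∧ (∀ i, ‖z.1 i‖ ^ r ≤ 1 + δ / 2) ∧
      ∃ B : Finset ℕ, B.card = m ∧ ∀ n ∈ B, δ / 2 ≤ ‖z.1 n‖ ^ r := by
    intro m
    induction m with
    | zero =>
      refine ⟨0, Y.zero_mem, fun i _ => rfl, fun i => ?_, ∅, rfl, by simp⟩
      change ‖(0 : 𝕜)‖ ^ r ≤ _
      rw [norm_zero, Real.zero_rpow hr.ne']
      positivity
    | succ m ih =>
      obtain ⟨z, hzY, hz0, hzb, B, hBm, hB⟩ := ih
      obtain ⟨N1, hN1⟩ := coord_tail z (ε := δ / 2) (by positivity)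
      set N' := max N (max N1 (B.sup id + 1)) with hN'
      obtain ⟨u, huY, hu0, huF⟩ := exists_unit Y hY N'
      obtain ⟨n', hn'⟩ := hcon u huY (fun i hi => hu0 i (hi.trans_le (le_max_left _ _))) huF
      have hn'N : N' ≤ n' := by
        by_contra h
        rw [hu0 n' (not_le.1 h), norm_zero, Real.zero_rpow hr.ne'] at hn'
        linarith
      have hBlt : ∀ n ∈ B, n < N' := by
        intro n hn
        have h1 : n ≤ B.sup id := Finset.le_sup (f := id) hn
        have h2 : B.sup id + 1 ≤ N' := (le_max_right _ _).trans (le_max_right _ _)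
        omega
      have htail : ∀ i, N' ≤ i → ‖z.1 i‖ ^ r ≤ δ / 2 := fun i hi =>
        hN1 i (((le_max_left _ _).trans (le_max_right _ _)).trans hi)
      refine ⟨z + u, Y.add_mem hzY huY, ?_, ?_, insert n' B, ?_, ?_⟩
      · intro i hi
        change z.1 i + u.1 i = 0
        rw [hz0 i hi, hu0 i (hi.trans_le (le_max_left _ _)), add_zero]
      · intro i
        change ‖z.1 i + u.1 i‖ ^ r ≤ _
        rcases lt_or_ge i N' with h | h
        · rw [hu0 i h, add_zero]
          exact hzb i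
        · refine (norm_add_rpow_le hr hr1 _ _).trans ?_
          have h1 := coord_le u i
          rw [huF] at h1
          have h2 := htail i h
          linarith
      · rw [Finset.card_insert_of_notMem, hBm]
        intro h
        have := hBlt n' h
        omega
      · intro n hn
        change _ ≤ ‖z.1 n + u.1 n‖ ^ r
        rcases Finset.mem_insert.1 hn with rfl | hn
        · have h1 : ‖u.1 n‖ ^ r ≤ ‖z.1 n + u.1 n‖ ^ r + ‖-z.1 n‖ ^ r := by
            have := norm_add_rpow_le hr hr1 (z.1 n + u.1 n) (-z.1 n)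
            rwa [show z.1 n + u.1 n + -z.1 n = u.1 n by ring] at this
          rw [norm_neg] at h1
          have h2 := htail n hn'N
          linarith
        · rw [hu0 n (hBlt n hn), add_zero]
          exact hB n hn
  obtain ⟨m, hm'⟩ := sum_w_unbounded hr hr1 ((1 + δ / 2) / (δ * (δ / 2)))
  obtain ⟨z, hzY, hz0, hzb, B, hBm, hB⟩ := hm m
  have hF := F_ge_of_card z B hB
  rw [hBm] at hF
  rw [div_lt_iff₀ (by positivity)] at hm'
  have hW : (1 + δ / 2) < δ * F r z.1 := by
    have : δ * (δ / 2 * ∑ j ∈ Finset.range m, w r j) ≤ δ * F r z.1 :=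
      mul_le_mul_of_nonneg_left hF hδ.le
    linarith
  have hFpos : 0 < F r z.1 := by
    by_contra h
    have : δ * F r z.1 ≤ 0 := mul_nonpos_of_nonneg_of_nonpos hδ.le (not_lt.1 h)
    linarith
  obtain ⟨c, hc⟩ := exists_scale (𝕜 := 𝕜) hFpos hr
  obtain ⟨i, hi⟩ := hcon (c • z) (Y.smul_mem c hzY) (fun i hi => by
    change c * z.1 i = 0
    rw [hz0 i hi, mul_zero]) (by rw [F_smul, hc, inv_mul_cancel₀ hFpos.ne'])
  change δ < ‖c * z.1 i‖ ^ r at hi
  rw [norm_mul, Real.mul_rpow (norm_nonneg _) (norm_nonneg _), hc, ← div_eq_inv_mul,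
    lt_div_iff₀ hFpos] at hi
  have := hzb i
  linarith

/-- many flat, nearly disjoint vectors -/
theorem key (Y : Submodule 𝕜 (LX 𝕜 r hr hr1)) (hY : ¬ FiniteDimensional 𝕜 Y) (M : Y → ℝ)
    (hM0 : ∀ y, 0 ≤ M y) {p : ℝ} (hp : 0 < p) {C : ℝ}
    (hM1 : ∀ x y, M (x + y) ^ p ≤ M x ^ p + M y ^ p)
    (hM2 : ∀ y : Y, M y ≤ C * F r y.1.1 ^ (1 / r)) (n : ℕ) :
    ∃ s : Y, M s ^ p ≤ n * C ^ p ∧
      ∃ (J : Finset ℕ) (π : ℕ → ℕ), Set.InjOn π J ∧ (n : ℝ) / 4 ≤ S r J π s.1.1 := by
  induction n with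
  | zero =>
    refine ⟨0, ?_, ∅, id, by simp, by simp [S]⟩
    have h0 : F r (0 : Y).1.1 = 0 := by
      have := F_smul (0 : 𝕜) (0 : LX 𝕜 r hr hr1)
      rw [norm_zero, Real.zero_rpow hr.ne', zero_mul, smul_zero] at this
      exact this
    have h1 := hM2 0
    rw [h0, Real.zero_rpow (by positivity), mul_zero] at h1
    rw [le_antisymm h1 (hM0 0), Real.zero_rpow hp.ne']
    simp
  | succ n ih =>
    obtain ⟨s, hs, J, π, hπ, hS⟩ := ih
    obtain ⟨N1, hN1⟩ := s.1.2.2 (1 / 4) (by norm_num)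
    set K := J.sup id + 1 with hK
    set N := max N1 ((J.image π).sup id + 1) with hN
    have hJK : ∀ j ∈ J, j < K := fun j hj => by
      have h1 : j ≤ J.sup id := Finset.le_sup (f := id) hj
      omega
    have hJN : ∀ j ∈ J, π j < N := fun j hj => by
      have h1 : π j ≤ (J.image π).sup id :=
        Finset.le_sup (f := id) (Finset.mem_image_of_mem π hj)
      have h2 := le_max_right N1 ((J.image π).sup id + 1)
      omega
    set W := ∑ j ∈ Finset.range K, w r j with hW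
    have hWpos : 0 < W := Finset.sum_pos (fun j _ => w_pos r j) ⟨0, by simp [hK]⟩
    obtain ⟨u, huY, hu0, huF, hub⟩ := exists_flat Y hY N (δ := 1 / (4 * W)) (by positivity)
    obtain ⟨J', π', hπ', hS'⟩ := exists_lt_S u (t := 15 / 16) (by rw [huF]; norm_num)
    set J'' := J'.filter (fun j => K ≤ j ∧ N ≤ π' j) with hJ''
    have hu : 11 / 16 ≤ S r J'' π' u.1 := by
      have h1 : S r J' π' u.1 ≤ S r J'' π' u.1 +
          ∑ j ∈ Finset.range K, w r j * (1 / (4 * W)) := by
        have h2 : S r J' π' u.1 = S r J'' π' u.1 +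
            ∑ j ∈ J'.filter (fun j => ¬ (K ≤ j ∧ N ≤ π' j)), w r j * ‖u.1 (π' j)‖ ^ r := by
          unfold S
          rw [hJ'', Finset.sum_filter_add_sum_filter_not]
        rw [h2]
        refine add_le_add le_rfl ?_
        calc ∑ j ∈ J'.filter (fun j => ¬ (K ≤ j ∧ N ≤ π' j)), w r j * ‖u.1 (π' j)‖ ^ r
            ≤ ∑ j ∈ J'.filter (fun j => ¬ (K ≤ j ∧ N ≤ π' j)),
                (if j < K then w r j * (1 / (4 * W)) else 0) := by
              apply Finset.sum_le_sum
              intro j hj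
              rw [Finset.mem_filter] at hj
              split_ifs with h
              · exact mul_le_mul_of_nonneg_left (hub _) (w_pos r j).le
              · have h3 : π' j < N := by
                  by_contra h4
                  exact hj.2 ⟨not_lt.1 h, not_lt.1 h4⟩
                rw [hu0 _ h3, norm_zero, Real.zero_rpow hr.ne', mul_zero]
          _ = ∑ j ∈ (J'.filter (fun j => ¬ (K ≤ j ∧ N ≤ π' j))).filter (fun j => j < K),
                w r j * (1 / (4 * W)) := (Finset.sum_filter _ _).symm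
          _ ≤ ∑ j ∈ Finset.range K, w r j * (1 / (4 * W)) := by
              apply Finset.sum_le_sum_of_subset_of_nonneg
              · intro j hj
                rw [Finset.mem_filter] at hj
                exact Finset.mem_range.2 hj.2
              · intro j _ _
                have := w_pos r j
                positivity
      have h3 : ∑ j ∈ Finset.range K, w r j * (1 / (4 * W)) = 1 / 4 := by
        rw [← Finset.sum_mul, ← hW]
        field_simp
      rw [h3] at h1
      linarith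
    have hinj'' : Set.InjOn π' (J'' : Set ℕ) := hπ'.mono (by
      intro j hj
      have : j ∈ J'' := hj
      rw [hJ'', Finset.mem_filter] at this
      exact this.1)
    have htail : S r J'' π' s.1.1 ≤ 1 / 4 := hN1 J'' π' hinj'' (fun j hj => by
      rw [hJ'', Finset.mem_filter] at hj
      exact (le_max_left _ _).trans hj.2.2)
    refine ⟨s + ⟨u, huY⟩, ?_, J ∪ J'', fun j => if j < K then π j else π' j, ?_, ?_⟩
    · have h1 := hM1 s ⟨u, huY⟩
      have h2 : M ⟨u, huY⟩ ^ p ≤ C ^ p := by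
        apply Real.rpow_le_rpow (hM0 _) _ hp.le
        have := hM2 ⟨u, huY⟩
        rwa [show F r (⟨u, huY⟩ : Y).1.1 = 1 from huF, Real.one_rpow, mul_one] at this
      push_cast
      linarith
    · intro i hi j hj hij
      have hi' : i ∈ J ∨ i ∈ J'' := by simpa using hi
      have hj' : j ∈ J ∨ j ∈ J'' := by simpa using hj
      have hfar : ∀ k ∈ J'', ¬ k < K ∧ N ≤ π' k := by
        intro k hk
        rw [hJ'', Finset.mem_filter] at hk
        exact ⟨not_lt.2 hk.2.1, hk.2.2⟩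
      rcases hi' with hi' | hi' <;> rcases hj' with hj' | hj'
      · simp only [hJK i hi', hJK j hj', if_true] at hij
        exact hπ hi' hj' hij
      · simp only [hJK i hi', (hfar j hj').1, if_true, if_false] at hij
        have := hJN i hi'
        have := (hfar j hj').2
        omega
      · simp only [hJK j hj', (hfar i hi').1, if_true, if_false] at hij
        have := hJN j hj'
        have := (hfar i hi').2
        omega
      · simp only [(hfar i hi').1, (hfar j hj').1, if_false] at hij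
        exact hinj'' hi' hj' hij
    · have hdisj : Disjoint J J'' := by
        rw [Finset.disjoint_left]
        intro j hj hj2
        rw [hJ'', Finset.mem_filter] at hj2
        have := hJK j hj
        omega
      have h1 : S r (J ∪ J'') (fun j => if j < K then π j else π' j) (s + ⟨u, huY⟩ : Y).1.1 =
          S r J π s.1.1 + S r J'' π' (s.1.1 + u.1) := by
        unfold S
        rw [Finset.sum_union hdisj]
        congr 1
        · apply Finset.sum_congr rfl
          intro j hj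
          simp only [hJK j hj, if_true]
          change w r j * ‖s.1.1 (π j) + u.1 (π j)‖ ^ r = _
          rw [hu0 _ (hJN j hj), add_zero]
        · apply Finset.sum_congr rfl
          intro j hj
          rw [hJ'', Finset.mem_filter] at hj
          simp only [not_lt.2 hj.2.1, if_false]
          rfl
      rw [h1]
      have h2 : S r J'' π' u.1 ≤ S r J'' π' (s.1.1 + u.1) + S r J'' π' (-s.1.1) := by
        have := S_add_le hr hr1 J'' π' (s.1.1 + u.1) (-s.1.1)
        rwa [show s.1.1 + u.1 + -s.1.1 = u.1 by abel] at this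
      have h3 : S r J'' π' (-s.1.1) = S r J'' π' s.1.1 := by simp [S]
      rw [h3] at h2
      push_cast
      linarith

/-- no equivalent `p`-norm for `p > r` -/
theorem no_pnorm (Y : Submodule 𝕜 (LX 𝕜 r hr hr1)) (hY : ¬ FiniteDimensional 𝕜 Y) (M : Y → ℝ)
    (hM0 : ∀ y, 0 ≤ M y) {p : ℝ} (hrp : r < p) {C : ℝ} (hC : 0 < C)
    (hM1 : ∀ x y, M (x + y) ^ p ≤ M x ^ p + M y ^ p)
    (hM2 : ∀ y : Y, M y ≤ C * F r y.1.1 ^ (1 / r))
    (hM3 : ∀ y : Y, F r y.1.1 ^ (1 / r) ≤ C * M y) : False := by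
  have hp : 0 < p := hr.trans hrp
  have hbound : ∀ n : ℕ, (n : ℝ) / 4 ≤ (C ^ p * C ^ p) ^ (r / p) * (n : ℝ) ^ (r / p) := by
    intro n
    obtain ⟨s, hs, J, π, hπ, hS⟩ := key Y hY M hM0 hp hM1 hM2 n
    have h1 : (n : ℝ) / 4 ≤ F r s.1.1 := hS.trans (S_le_F s.1 J π hπ)
    have h2 : F r s.1.1 = (F r s.1.1 ^ (1 / r)) ^ r := by
      rw [← Real.rpow_mul (F_nonneg s.1), one_div_mul_cancel hr.ne', Real.rpow_one]
    have h3 : (F r s.1.1 ^ (1 / r)) ^ r ≤ (C * M s) ^ r :=
      Real.rpow_le_rpow (Real.rpow_nonneg (F_nonneg s.1) _) (hM3 s) hr.le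
    have h4 : (C * M s) ^ r = (C ^ p * M s ^ p) ^ (r / p) := by
      rw [← Real.mul_rpow hC.le (hM0 s), ← Real.rpow_mul (mul_nonneg hC.le (hM0 s))]
      congr 1
      field_simp
    have h5 : (C ^ p * M s ^ p) ^ (r / p) ≤ (C ^ p * (n * C ^ p)) ^ (r / p) := by
      apply Real.rpow_le_rpow
      · have := Real.rpow_nonneg (hM0 s) p
        positivity
      · exact mul_le_mul_of_nonneg_left hs (by positivity)
      · positivity
    have h6 : (C ^ p * (n * C ^ p)) ^ (r / p) = (C ^ p * C ^ p) ^ (r / p) * (n : ℝ) ^ (r / p) := by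
      rw [← Real.mul_rpow (by positivity) (by positivity)]
      congr 1
      ring
    rw [h2] at h1
    calc (n : ℝ) / 4 ≤ _ := h1
      _ ≤ _ := h3
      _ = _ := h4
      _ ≤ _ := h5
      _ = _ := h6
  have hexp : 0 < 1 - r / p := by
    rw [sub_pos, div_lt_one hp]
    exact hrp
  have hlim : Tendsto (fun n : ℕ => (n : ℝ) ^ (1 - r / p)) atTop atTop :=
    (tendsto_rpow_atTop hexp).comp tendsto_natCast_atTop_atTop
  obtain ⟨n, hn, hn1⟩ := ((hlim.eventually (eventually_gt_atTop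
    (4 * (C ^ p * C ^ p) ^ (r / p)))).and (eventually_ge_atTop 1)).exists
  have hn' : (0 : ℝ) < n := by exact_mod_cast hn1
  have h1 := hbound n
  have h2 : (n : ℝ) = (n : ℝ) ^ (1 - r / p) * (n : ℝ) ^ (r / p) := by
    rw [← Real.rpow_add hn']
    simp
  have h3 : 0 < (n : ℝ) ^ (r / p) := Real.rpow_pos_of_pos hn' _
  have h4 : 4 * (C ^ p * C ^ p) ^ (r / p) * (n : ℝ) ^ (r / p) <
      (n : ℝ) ^ (1 - r / p) * (n : ℝ) ^ (r / p) := mul_lt_mul_of_pos_right hn h3
  rw [← h2] at h4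
  linarith

end Q96.LorentzQ
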