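import Mathlib

/-!
# `L_p` over a finite index set with the counting measure, as a lattice
-/

set_option autoImplicit false
set_option linter.unusedSectionVars false

open MeasureTheory Filter Topology
open scoped ENNReal

universe u

namespace Q96.LpFin

variable {ι : Type u} [Fintype ι] [MeasurableSpace ι] [DiscreteMeasurableSpace ι] {p : ℝ}

/-- `ℓ_p(ι)` -/
abbrev LI (ι : Type u) [MeasurableSpace ι] (p : ℝ) : Type u :=
  Lp ℝ (ENNReal.ofReal p) (Measure.count : Measure ι)

lemma ae_eq {f g : ι → ℝ} (h : f =ᵐ[Measure.count] g) (i : ι) : f i = g i := by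
  have := Measure.ae_count_iff.1 h
  exact this i

/-- the element with given coordinates -/
noncomputable def mk (p : ℝ) (v : ι → ℝ) : LI ι p := MemLp.toLp v MemLp.of_discrete

lemma mk_apply (v : ι → ℝ) (i : ι) : mk p v i = v i := ae_eq (MemLp.coeFn_toLp _) i

lemma ext' {f g : LI ι p} (h : ∀ i, f i = g i) : f = g :=
  Lp.ext (Eventually.of_forall h)

lemma add_apply (f g : LI ι p) (i : ι) : (f + g : LI ι p) i = f i + g i :=
  ae_eq (Lp.coeFn_add f g) i

lemma smul_apply (c : ℝ) (f : LI ι p) (i : ι) : (c • f : LI ι p) i = c * f i :=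
  ae_eq (Lp.coeFn_smul c f) i

lemma sup_apply (f g : LI ι p) (i : ι) : (f ⊔ g : LI ι p) i = f i ⊔ g i :=
  ae_eq (Lp.coeFn_sup f g) i

lemma inf_apply (f g : LI ι p) (i : ι) : (f ⊓ g : LI ι p) i = f i ⊓ g i :=
  ae_eq (Lp.coeFn_inf f g) i

lemma le_iff (f g : LI ι p) : f ≤ g ↔ ∀ i, f i ≤ g i := by
  rw [← Lp.coeFn_le]
  exact Measure.ae_count_iff

lemma zero_apply (i : ι) : (0 : LI ι p) i = 0 := ae_eq (Lp.coeFn_zero _ _ _) i

lemma sum_apply {κ : Type} (s : Finset κ) (f : κ → LI ι p) (i : ι) :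
    (∑ k ∈ s, f k : LI ι p) i = ∑ k ∈ s, f k i := by
  classical
  induction s using Finset.induction_on with
  | empty =>
    rw [Finset.sum_empty, Finset.sum_empty]
    exact zero_apply i
  | insert a s ha ih => rw [Finset.sum_insert ha, Finset.sum_insert ha, add_apply, ih]

lemma norm_rpow (hp : 1 ≤ p) (f : LI ι p) : ‖f‖ ^ p = ∑ i, |f i| ^ p := by
  have hp0 : 0 < p := by linarith
  have h1 : ENNReal.ofReal p ≠ 0 := by simpa using hp0
  rw [Lp.norm_def, eLpNorm_eq_lintegral_rpow_enorm_toReal h1 ENNReal.ofReal_ne_top,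
    ENNReal.toReal_ofReal hp0.le, lintegral_count, tsum_fintype, ENNReal.toReal_rpow,
    ← ENNReal.rpow_mul, one_div_mul_cancel hp0.ne', ENNReal.rpow_one, ENNReal.toReal_sum]
  · apply Finset.sum_congr rfl
    intro i _
    rw [← ENNReal.toReal_rpow]
    congr 1
  · intro i _
    exact ENNReal.rpow_ne_top_of_nonneg hp0.le enorm_ne_top

end Q96.LpFin
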