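import Pool.Agent.Q256.MP.Stm

/-!
# Job STAR (project MP of helper256)
-/

set_option autoImplicit false

open Height NumberField Polynomial

noncomputable section

namespace Pool.Agent.Q96.MP

open Pool.Agent.W276.GE Pool.Agent.W376.GE Pool.Agent.Q256.MP

theorem exists_poly (m d : ℕ) (hm : 1 ≤ m) (hmd : m ≤ d) (σ : Fin m → Fin m) :
    ∃ (L : ℕ) (p : Polynomial ℤ), 1 ≤ L ∧ p.natDegree ≤ d ∧ p.coeff d = L ∧
      ∀ i : Fin m, p.eval (((i : ℕ) : ℤ)) = L * ((σ i : ℕ) : ℤ) := by
  classical
  let v : Fin m → ℚ := fun i => ((i : ℕ) : ℚ)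
  have hv : Set.InjOn v (Finset.univ : Finset (Fin m)) := by
    intro a _ b _ h
    have : ((a : ℕ) : ℚ) = ((b : ℕ) : ℚ) := h
    exact Fin.ext (by exact_mod_cast this)
  let q : ℚ[X] := Lagrange.interpolate Finset.univ v (fun i => ((σ i : ℕ) : ℚ))
  have hqd : q.degree < m := by
    have := Lagrange.degree_interpolate_lt (s := Finset.univ) (v := v)
      (fun i => ((σ i : ℕ) : ℚ)) hv
    rw [Finset.card_univ, Fintype.card_fin] at this
    exact this
  have hqe : ∀ i, q.eval (v i) = ((σ i : ℕ) : ℚ) := fun i =>
    Lagrange.eval_interpolate_at_node (s := Finset.univ) (v := v)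
      (fun i => ((σ i : ℕ) : ℚ)) hv (Finset.mem_univ i)
  obtain ⟨b, hb0, hb⟩ := IsLocalization.integerNormalization_spec (nonZeroDivisors ℤ) q
  have hb0' : b ≠ 0 := nonZeroDivisors.ne_zero hb0
  let P : ℤ[X] := IsLocalization.integerNormalization (nonZeroDivisors ℤ) q
  have hP : P.map (Int.castRingHom ℚ) = Polynomial.C (b : ℚ) * q := by
    have h1 : P.map (algebraMap ℤ ℚ) = b • q := hb
    have h2 : (Int.castRingHom ℚ) = algebraMap ℤ ℚ := rfl
    rw [h2, h1]
    ext k
    simp
  have hPd : P.natDegree < m := by
    have h1 : (P.map (Int.castRingHom ℚ)).natDegree = P.natDegree :=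
      Polynomial.natDegree_map_eq_of_injective (RingHom.injective_int _) P
    rw [← h1, hP]
    refine lt_of_le_of_lt (Polynomial.natDegree_C_mul_le _ _) ?_
    rcases eq_or_ne q 0 with h0 | h0
    · rw [h0, Polynomial.natDegree_zero]
      omega
    · exact (Polynomial.natDegree_lt_iff_degree_lt h0).2 hqd
  have hPe : ∀ i : Fin m, P.eval (((i : ℕ) : ℤ)) = b * ((σ i : ℕ) : ℤ) := by
    intro i
    have h1 : ((P.eval (((i : ℕ) : ℤ)) : ℤ) : ℚ) = (P.map (Int.castRingHom ℚ)).eval (v i) := by
      have := Polynomial.eval_intCast_map (Int.castRingHom ℚ) P ((i : ℕ) : ℤ)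
      simp only [v]
      simp
    rw [hP, Polynomial.eval_mul, Polynomial.eval_C, hqe] at h1
    exact_mod_cast h1
  let R : ℤ[X] := X ^ (d - m) * ∏ i : Fin m, (X - Polynomial.C (((i : ℕ) : ℤ)))
  have hprod : (∏ i : Fin m, (X - Polynomial.C (((i : ℕ) : ℤ))) : ℤ[X]).Monic :=
    Polynomial.monic_prod_of_monic _ _ (fun i _ => Polynomial.monic_X_sub_C _)
  have hRm : R.Monic := (Polynomial.monic_X_pow _).mul hprod
  have hRd : R.natDegree = d := by
    rw [(Polynomial.monic_X_pow (d - m)).natDegree_mul hprod, Polynomial.natDegree_X_pow,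
      Polynomial.natDegree_prod_of_monic _ _ (fun i _ => Polynomial.monic_X_sub_C _)]
    simp only [Polynomial.natDegree_X_sub_C, Finset.sum_const, Finset.card_univ, Fintype.card_fin,
      smul_eq_mul, mul_one]
    omega
  have hLL : (((b.natAbs) ^ 2 : ℕ) : ℤ) = b * b := by
    push_cast
    rw [sq_abs]
    ring
  refine ⟨b.natAbs ^ 2, Polynomial.C b * P + Polynomial.C ((b.natAbs ^ 2 : ℕ) : ℤ) * R, ?_, ?_,
    ?_, ?_⟩
  · have : 1 ≤ b.natAbs := Int.natAbs_pos.2 hb0'
    exact Nat.one_le_pow _ _ this
  · refine Polynomial.natDegree_add_le_of_degree_le ?_ ?_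
    · exact (Polynomial.natDegree_C_mul_le _ _).trans (by omega)
    · exact (Polynomial.natDegree_C_mul_le _ _).trans hRd.le
  · rw [Polynomial.coeff_add, Polynomial.coeff_C_mul, Polynomial.coeff_C_mul,
      Polynomial.coeff_eq_zero_of_natDegree_lt (show P.natDegree < d by omega)]
    have h1 : R.coeff d = 1 := by
      have := hRm.coeff_natDegree
      rwa [hRd] at this
    rw [h1]
    ring
  · intro i
    rw [Polynomial.eval_add, Polynomial.eval_mul, Polynomial.eval_mul, Polynomial.eval_C,
      Polynomial.eval_C, hPe, Polynomial.eval_mul, Polynomial.eval_prod,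
      Finset.prod_eq_zero (Finset.mem_univ i) (by simp), hLL]
    ring

theorem star : S_star := by
  intro N d m hN hm hmd σ
  classical
  obtain ⟨N, rfl⟩ : ∃ N', N = N' + 1 := ⟨N - 1, by omega⟩
  obtain ⟨L, p, hL, hpd, hpc, hpe⟩ := exists_poly m d hm hmd σ
  have hd : 1 ≤ d := by omega
  let G : E (N + 1 + 1) d → ℤ := fun α =>
    if ∀ k : Fin (N + 1 + 1), 2 ≤ k.1 → α.1 k = 0 then p.coeff (α.1 1) else 0
  let F : Sy (N + 1) d := fun j => if j = 1 then G else fun α => if α = pw d j then (L : ℤ) else 0
  have hF1 : F 1 = G := by simp [F]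
  have hFj : ∀ j : Fin (N + 1 + 1), j ≠ 1 → F j = fun α => if α = pw d j then (L : ℤ) else 0 := by
    intro j hj
    simp [F, hj]
  have hone : (1 : Fin (N + 1 + 1)).1 = 1 := rfl
  -- sums of exponents
  have hsum : ∀ α : E (N + 1 + 1) d, (∀ k : Fin (N + 1 + 1), 2 ≤ k.1 → α.1 k = 0) →
      α.1 0 + α.1 1 = d := by
    intro α hα
    have h1 := E_sum α
    rw [Fin.sum_univ_succ, Fin.sum_univ_succ] at h1
    have h2 : ∑ i : Fin N, α.1 i.succ.succ = 0 := by
      apply Finset.sum_eq_zero
      intro i _
      apply hα
      simp [Fin.val_succ]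
    rw [h2] at h1
    have h3 : (Fin.succ 0 : Fin (N + 1 + 1)) = 1 := rfl
    rw [h3] at h1
    omega
  refine ⟨L, F, hL, ?_, ?_, ?_⟩
  · intro j
    by_cases hj : j = 1
    · subst hj
      rw [hF1]
      have h1 : ∀ k : Fin (N + 1 + 1), 2 ≤ k.1 → (pw d 1 : E (N + 1 + 1) d).1 k = 0 := by
        intro k hk
        rw [pw_val, Pi.single_eq_of_ne]
        rintro rfl
        rw [hone] at hk
        omega
      simp only [G, if_pos h1]
      rw [pw_val, Pi.single_eq_same, hpc]
    · rw [hFj j hj]
      simp
  · intro j α hα hne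
    by_cases hj : j = 1
    · subst hj
      refine ⟨by simp, ?_⟩
      rw [hF1] at hne
      by_contra h0
      have h0' : α.1 0 = 0 := by omega
      by_cases hc : ∀ k : Fin (N + 1 + 1), 2 ≤ k.1 → α.1 k = 0
      · apply hα
        have h1 := hsum α hc
        apply Subtype.ext
        funext k
        rw [pw_val]
        by_cases hk : k = 1
        · subst hk
          rw [Pi.single_eq_same]
          omega
        · rw [Pi.single_eq_of_ne hk]
          by_cases hk0 : k = 0
          · subst hk0
            exact h0'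
          · apply hc
            have h3 : k.1 ≠ 0 := fun h => hk0 (Fin.ext h)
            have h4 : k.1 ≠ 1 := fun h => hk (Fin.ext h)
            omega
      · apply hne
        simp only [G, if_neg hc]
    · rw [hFj j hj] at hne
      simp [hα] at hne
  · intro i j
    by_cases hj : j = 1
    · subst hj
      rw [hF1]
      have hmem : ∀ k : Fin (d + 1), (fun j : Fin (N + 1 + 1) => if j.1 = 0 then d - k.1 else
          if j.1 = 1 then k.1 else 0) ∈ Finset.Nat.antidiagonalTuple (N + 1 + 1) d := by
        intro k
        rw [mem_E, Fin.sum_univ_succ, Fin.sum_univ_succ]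
        simp
        have := k.2
        omega
      let f : Fin (d + 1) → E (N + 1 + 1) d := fun k => ⟨_, hmem k⟩
      have hfv : ∀ k j, (f k).1 j = if j.1 = 0 then d - k.1 else if j.1 = 1 then k.1 else 0 :=
        fun k j => rfl
      have hcf : ∀ k, ∀ l : Fin (N + 1 + 1), 2 ≤ l.1 → (f k).1 l = 0 := by
        intro k l hl
        rw [hfv, if_neg (by omega), if_neg (by omega)]
      have hf1 : ∀ k, (f k).1 1 = k.1 := by
        intro k
        rw [hfv]
        simp
      have hev : ev G (pt (N + 1) (i : ℕ)) = p.eval (((i : ℕ) : ℤ)) := by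
        rw [Polynomial.eval_eq_sum_range' (Nat.lt_succ_of_le hpd), Finset.sum_range, ev]
        symm
        refine Finset.sum_of_injOn f ?_ (fun _ _ => Finset.mem_coe.2 (Finset.mem_univ _)) ?_ ?_
        · intro a _ b _ hab
          have h1 := hf1 a
          rw [hab, hf1] at h1
          exact Fin.ext h1.symm
        · intro α _ hα
          by_cases hc : ∀ k : Fin (N + 1 + 1), 2 ≤ k.1 → α.1 k = 0
          · exfalso
            apply hα
            have h1 := hsum α hc
            refine ⟨⟨α.1 1, by omega⟩, Finset.mem_coe.2 (Finset.mem_univ _), ?_⟩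
            apply Subtype.ext
            funext k
            rw [hfv]
            split_ifs with h2 h3
            · have : k = 0 := Fin.ext h2
              subst this
              simp only
              omega
            · have : k = 1 := Fin.ext h3
              subst this
              rfl
            · exact (hc k (by omega)).symm
          · simp only [G, if_neg hc]
            simp
        · intro k _
          simp only [G, if_pos (hcf k), hf1]
          rw [Int.cast_id]
          congr 1
          rw [Fin.prod_univ_succ, Fin.prod_univ_succ]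
          have h2 : ∏ l : Fin N, pt (N + 1) (i : ℕ) l.succ.succ ^ (f k).1 l.succ.succ = 1 := by
            apply Finset.prod_eq_one
            intro l _
            rw [hcf k _ (by simp [Fin.val_succ]), pow_zero]
          rw [h2, mul_one]
          have h3 : pt (N + 1) (i : ℕ) 0 = 1 := by simp [pt]
          have h4 : pt (N + 1) (i : ℕ) (Fin.succ 0) = ((i : ℕ) : ℤ) := by simp [pt]
          have h5 : (f k).1 (Fin.succ 0) = k.1 := hf1 k
          rw [h3, h4, h5, one_pow, one_mul]
      rw [hev, hpe]
      simp [pt]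
    · rw [hFj j hj, ev, Finset.sum_eq_single (pw d j)]
      · have h1 : ∏ k, pt (N + 1) (i : ℕ) k ^ (pw d j : E (N + 1 + 1) d).1 k =
            pt (N + 1) (i : ℕ) j ^ d := by
          rw [Finset.prod_eq_single j]
          · rw [pw_val, Pi.single_eq_same]
          · intro k _ hk
            rw [pw_val, Pi.single_eq_of_ne hk, pow_zero]
          · intro h
            exact absurd (Finset.mem_univ _) h
        rw [h1]
        simp only [if_true, Int.cast_id]
        congr 1
        by_cases hj0 : j = 0
        · subst hj0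
          simp [pt]
        · have h3 : j.1 ≠ 0 := fun h => hj0 (Fin.ext h)
          have h4 : j.1 ≠ 1 := fun h => hj (Fin.ext h)
          simp only [pt, h3, h4, if_false]
          exact zero_pow (by omega)
      · intro α _ hα
        simp [hα]
      · intro h
        exact absurd (Finset.mem_univ _) h

end Pool.Agent.Q96.MP
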