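import Mathlib
import Pool.Agent.Q49.MR.Stm

/-! Job DIM of project MR: `dim W = 4`, `dim Em = 2`. -/

namespace Q96.MR_DIM

open Q49.MR Module

/-- `σ` has order 8. -/
theorem order {K L : Type} [Field K] [Finite K] [Field L] [Finite L] [Algebra K L]
    (σ : L ≃ₐ[K] L) (h : Cyc σ) : orderOf σ = 8 := by
  have := Fintype.ofFinite K
  obtain ⟨s, hs, hp⟩ := h.pow
  have h1 : σ = (FiniteField.frobeniusAlgEquivOfAlgebraic K L) ^ s := by
    ext x
    rw [AlgEquiv.coe_pow, FiniteField.coe_frobeniusAlgEquivOfAlgebraic_iterate, hp x,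
      Fintype.card_eq_nat_card]
  rw [h1, orderOf_pow, FiniteField.orderOf_frobeniusAlgEquivOfAlgebraic, h.rank]
  have h2 : Nat.gcd 8 s = 1 := by
    have h3 : Nat.Coprime 2 s := (Nat.coprime_two_left).2 hs
    exact Nat.Coprime.pow_left 3 h3
  rw [h2]

/-- Independence of the eight automorphisms. -/
theorem indep8 {K L : Type} [Field K] [Finite K] [Field L] [Finite L] [Algebra K L]
    (σ : L ≃ₐ[K] L) (h : Cyc σ) (c : Fin 8 → L)
    (hc : ∀ y : L, ∑ i, c i * (σ ^ (i : ℕ)) y = 0) : ∀ i, c i = 0 := by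
  have hinj : Function.Injective fun i : Fin 8 => (((σ ^ (i : ℕ) : L ≃ₐ[K] L) : L →* L)) := by
    intro i j hij
    have h1 : (σ ^ (i : ℕ)) = (σ ^ (j : ℕ)) := by
      ext x
      exact DFunLike.congr_fun hij x
    have h2 := pow_inj_mod.1 h1
    rw [order σ h, Nat.mod_eq_of_lt i.2, Nat.mod_eq_of_lt j.2] at h2
    exact Fin.ext h2
  have hl := (linearIndependent_monoidHom L L).comp _ hinj
  rw [Fintype.linearIndependent_iff] at hl
  apply hl
  funext y
  have := hc y
  simpa [Finset.sum_apply, Pi.smul_apply, smul_eq_mul] using this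

/-- The same, written out. -/
theorem indep8' {K L : Type} [Field K] [Finite K] [Field L] [Finite L] [Algebra K L]
    (σ : L ≃ₐ[K] L) (h : Cyc σ) (c0 c1 c2 c3 c4 c5 c6 c7 : L)
    (hc : ∀ y : L, c0 * y + c1 * σ y + c2 * σ (σ y) + c3 * σ (σ (σ y)) +
      c4 * σ (σ (σ (σ y))) + c5 * σ (σ (σ (σ (σ y)))) + c6 * σ (σ (σ (σ (σ (σ y))))) +
      c7 * σ (σ (σ (σ (σ (σ (σ y)))))) = 0) :
    c0 = 0 ∧ c1 = 0 ∧ c2 = 0 ∧ c3 = 0 ∧ c4 = 0 ∧ c5 = 0 ∧ c6 = 0 ∧ c7 = 0 := by
  have h1 := indep8 σ h ![c0, c1, c2, c3, c4, c5, c6, c7] (by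
    intro y
    rw [← hc y]
    simp [Fin.sum_univ_eight])
  exact ⟨h1 0, h1 1, h1 2, h1 3, h1 4, h1 5, h1 6, h1 7⟩

/-- the fixed points of `σ⁴`. -/
def E4 {K L : Type} [Field K] [Field L] [Algebra K L] (σ : L ≃ₐ[K] L) : Submodule K L where
  carrier := {x | σ (σ (σ (σ x))) = x}
  add_mem' := by
    intro a b ha hb
    simp only [Set.mem_ofPred_eq, map_add] at *
    rw [ha, hb]
  zero_mem' := by simp
  smul_mem' := by
    intro c x hx
    simp only [Set.mem_ofPred_eq, map_smul] at *
    rw [hx]

/-- the fixed points of `σ²`. -/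
def E2 {K L : Type} [Field K] [Field L] [Algebra K L] (σ : L ≃ₐ[K] L) : Submodule K L where
  carrier := {x | σ (σ x) = x}
  add_mem' := by
    intro a b ha hb
    simp only [Set.mem_ofPred_eq, map_add] at *
    rw [ha, hb]
  zero_mem' := by simp
  smul_mem' := by
    intro c x hx
    simp only [Set.mem_ofPred_eq, map_smul] at *
    rw [hx]

/-- Multiplication by `t` carries `U` onto `V`. -/
theorem finrank_mul {K L : Type} [Field K] [Field L] [Algebra K L] (U V : Submodule K L)
    (t : L) (ht : t ≠ 0) (h : ∀ x, x ∈ U ↔ t * x ∈ V) : finrank K U = finrank K V := by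
  have h1 : U.map (LinearMap.mulLeft K t) = V := by
    ext y
    constructor
    · rintro ⟨x, hx, rfl⟩
      exact (h x).1 hx
    · intro hy
      refine ⟨t⁻¹ * y, (h _).2 ?_, ?_⟩
      · rwa [mul_inv_cancel_left₀ ht]
      · show t * (t⁻¹ * y) = y
        rw [mul_inv_cancel_left₀ ht]
  rw [← h1]
  have hi : Function.Injective (LinearMap.mulLeft K t) := fun a b hab => mul_left_cancel₀ ht hab
  exact (LinearEquiv.finrank_eq (Submodule.equivMapOfInjective _ hi U))

theorem dim (h8 : S_B8) : S_DIM := by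
  intro K L _ _ _ _ _ σ h
  have two : (2 : L) ≠ 0 := by
    have := (map_ne_zero (algebraMap K L)).2 h.two
    rwa [map_ofNat] at this
  have hW : ∀ x, x ∈ W σ ↔ σ (σ (σ (σ x))) = -x := fun x => Iff.rfl
  have hE : ∀ x, x ∈ E4 σ ↔ σ (σ (σ (σ x))) = x := fun x => Iff.rfl
  have hm : ∀ x, x ∈ Em σ ↔ σ (σ x) = -x := fun x => Iff.rfl
  have h2 : ∀ x, x ∈ E2 σ ↔ σ (σ x) = x := fun x => Iff.rfl
  -- an element of W
  obtain ⟨t, ht0, htW⟩ : ∃ t : L, t ≠ 0 ∧ t ∈ W σ := by
    by_contra hcon
    push Not at hcon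
    have := (indep8' σ h 1 0 0 0 (-1) 0 0 0 (by
      intro y
      by_contra hy
      refine hcon (y - σ (σ (σ (σ y)))) ?_ ?_
      · intro h0
        apply hy
        linear_combination h0
      · rw [hW]
        simp only [map_sub, h8 K L σ h y]
        ring)).1
    exact one_ne_zero this
  obtain ⟨u, hu0, hum⟩ : ∃ u : L, u ≠ 0 ∧ u ∈ Em σ := by
    by_contra hcon
    push Not at hcon
    have := (indep8' σ h 1 0 (-1) 0 1 0 (-1) 0 (by
      intro y
      by_contra hy
      refine hcon (y - σ (σ y) + σ (σ (σ (σ y))) - σ (σ (σ (σ (σ (σ y)))))) ?_ ?_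
      · intro h0
        apply hy
        linear_combination h0
      · rw [hm]
        simp only [map_sub, map_add, h8 K L σ h y]
        ring)).1
    exact one_ne_zero this
  have e1 : finrank K (W σ) = finrank K (E4 σ) := by
    refine finrank_mul _ _ t ht0 fun x => ?_
    rw [hW, hE, map_mul, map_mul, map_mul, map_mul, (hW t).1 htW]
    constructor
    · intro hx; rw [hx]; ring
    · intro hx
      have : t * (σ (σ (σ (σ x))) + x) = 0 := by linear_combination -hx
      rcases mul_eq_zero.1 this with h3 | h3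
      · exact absurd h3 ht0
      · linear_combination h3
  have e2 : finrank K (Em σ) = finrank K (E2 σ) := by
    refine finrank_mul _ _ u hu0 fun x => ?_
    rw [hm, h2, map_mul, map_mul, (hm u).1 hum]
    constructor
    · intro hx; rw [hx]; ring
    · intro hx
      have : u * (σ (σ x) + x) = 0 := by linear_combination -hx
      rcases mul_eq_zero.1 this with h3 | h3
      · exact absurd h3 hu0
      · linear_combination h3
  have e3 : finrank K (W σ) + finrank K (E4 σ) = 8 := by
    rw [← h.rank]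
    refine Submodule.finrank_add_eq_of_isCompl ⟨?_, ?_⟩
    · rw [Submodule.disjoint_def]
      intro x hx hy
      rw [hW] at hx
      rw [hE, hx] at hy
      have : 2 * x = 0 := by linear_combination -hy
      exact (mul_eq_zero.1 this).resolve_left two
    · rw [codisjoint_iff, eq_top_iff]
      intro x _
      have hx : x = (x - σ (σ (σ (σ x)))) / 2 + (x + σ (σ (σ (σ x)))) / 2 := by
        field_simp
        ring
      rw [hx]
      refine Submodule.add_mem_sup ?_ ?_
      · rw [hW]
        simp only [map_sub, map_div₀, map_ofNat, h8 K L σ h x]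
        ring
      · rw [hE]
        simp only [map_add, map_div₀, map_ofNat, h8 K L σ h x]
        ring
  have e4 : finrank K (Em σ) + finrank K (E2 σ) = finrank K (E4 σ) := by
    rw [← Submodule.finrank_sup_add_finrank_inf_eq]
    have h5 : Em σ ⊓ E2 σ = ⊥ := by
      rw [eq_bot_iff]
      rintro x ⟨hx, hy⟩
      have hx := (hm x).1 hx
      have hy := (h2 x).1 hy
      have : 2 * x = 0 := by linear_combination hx - hy
      exact (mul_eq_zero.1 this).resolve_left two
    have h6 : Em σ ⊔ E2 σ = E4 σ := by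
      apply le_antisymm
      · refine sup_le ?_ ?_
        · intro x hx
          rw [hm] at hx
          rw [hE, hx, map_neg, map_neg, hx, neg_neg]
        · intro x hx
          rw [h2] at hx
          rw [hE, hx, hx]
      · intro x hx
        rw [hE] at hx
        have hx' : x = (x - σ (σ x)) / 2 + (x + σ (σ x)) / 2 := by
          field_simp
          ring
        rw [hx']
        refine Submodule.add_mem_sup ?_ ?_
        · rw [hm]
          simp only [map_sub, map_div₀, map_ofNat, hx]
          ring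
        · rw [h2]
          simp only [map_add, map_div₀, map_ofNat, hx]
          ring
    rw [h5, h6, finrank_bot, add_zero]
  omega

end Q96.MR_DIM
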