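import Mathlib
import Pool.Agent.Q49.MR.Stm

/-! Job DUAL of project MR: every functional on `W` is `c ↦ Tr(β c)`, `β ∈ W`. -/

namespace Q96.MR_DUAL

open Q49.MR Module

theorem dual (h8 : S_B8) : S_DUAL := by
  intro K L _ _ _ _ _ σ h ℓ
  have two : (2 : L) ≠ 0 := by
    have := (map_ne_zero (algebraMap K L)).2 h.two
    rwa [map_ofNat] at this
  obtain ⟨g, hg⟩ := LinearMap.exists_extend ℓ
  have hnd := traceForm_nondegenerate K L
  let e := (Algebra.traceForm K L).toDual hnd
  obtain ⟨b, hb⟩ := e.surjective g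
  have hb' : ∀ x, g x = Algebra.trace K L (b * x) := by
    intro x
    rw [← hb]
    simp [e, LinearMap.BilinForm.toDual_def, Algebra.traceForm_apply]
  have hinv : ∀ x, Algebra.trace K L (σ x) = Algebra.trace K L x := fun x =>
    Algebra.trace_eq_of_algEquiv σ x
  refine ⟨(b - σ (σ (σ (σ b)))) / 2, ?_, ?_⟩
  · show σ (σ (σ (σ ((b - σ (σ (σ (σ b)))) / 2)))) = -((b - σ (σ (σ (σ b)))) / 2)
    simp only [map_sub, map_div₀, map_ofNat, h8 K L σ h b]
    ring
  · intro c
    have hc : σ (σ (σ (σ (c : L)))) = -(c : L) := c.2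
    have h1 : ℓ c = g c := by rw [← hg]; rfl
    rw [h1, hb']
    have h2 : Algebra.trace K L (σ (σ (σ (σ b))) * c) = -Algebra.trace K L (b * c) := by
      have h3 : Algebra.trace K L (σ (σ (σ (σ (σ (σ (σ (σ b))) * c))))) =
          Algebra.trace K L (σ (σ (σ (σ b))) * c) := by
        rw [hinv, hinv, hinv, hinv]
      rw [← h3]
      simp only [map_mul, h8 K L σ h b, hc]
      rw [mul_neg, map_neg]
    have h4 : (2 : K) * Algebra.trace K L ((b - σ (σ (σ (σ b)))) / 2 * c) =
        2 * Algebra.trace K L (b * c) := by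
      have h5 : (2 : K) * Algebra.trace K L ((b - σ (σ (σ (σ b)))) / 2 * c) =
          Algebra.trace K L ((b - σ (σ (σ (σ b)))) * c) := by
        rw [← smul_eq_mul, ← map_smul]
        congr 1
        rw [Algebra.smul_def]
        simp only [map_ofNat]
        field_simp
      rw [h5, sub_mul, map_sub, h2]
      ring
    exact (mul_left_cancel₀ h.two h4).symm

end Q96.MR_DUAL
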