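import Mathlib
import Pool.Agent.Q49.MR.Stm

/-! Job IND of project MR: independence of `1, σ, σ², σ³` on `W`. -/

namespace Q96.MR_IND

open Q49.MR Module

/-- `σ` has order 8. -/
theorem order {K L : Type} [Field K] [Finite K] [Field L] [Finite L] [Algebra K L]
    (σ : L ≃ₐ[K] L) (h : Cyc σ) : orderOf σ = 8 := by
  have := Fintype.ofFinite K
  obtain ⟨s, hs, hp⟩ := h.pow
  have h1 : σ = (FiniteField.frobeniusAlgEquivOfAlgebraic K L) ^ s := by
    ext x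
    rw [AlgEquiv.coe_pow, FiniteField.coe_frobeniusAlgEquivOfAlgebraic_iterate, hp x,
      Fintype.card_eq_nat_card]
  rw [h1, orderOf_pow, FiniteField.orderOf_frobeniusAlgEquivOfAlgebraic, h.rank]
  have h2 : Nat.gcd 8 s = 1 := by
    have h3 : Nat.Coprime 2 s := (Nat.coprime_two_left).2 hs
    exact Nat.Coprime.pow_left 3 h3
  rw [h2]

/-- Independence of the eight automorphisms. -/
theorem indep8 {K L : Type} [Field K] [Finite K] [Field L] [Finite L] [Algebra K L]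
    (σ : L ≃ₐ[K] L) (h : Cyc σ) (c : Fin 8 → L)
    (hc : ∀ y : L, ∑ i, c i * (σ ^ (i : ℕ)) y = 0) : ∀ i, c i = 0 := by
  have hinj : Function.Injective fun i : Fin 8 => (((σ ^ (i : ℕ) : L ≃ₐ[K] L) : L →* L)) := by
    intro i j hij
    have h1 : (σ ^ (i : ℕ)) = (σ ^ (j : ℕ)) := by
      ext x
      exact DFunLike.congr_fun hij x
    have h2 := pow_inj_mod.1 h1
    rw [order σ h, Nat.mod_eq_of_lt i.2, Nat.mod_eq_of_lt j.2] at h2
    exact Fin.ext h2
  have hl := (linearIndependent_monoidHom L L).comp _ hinj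
  rw [Fintype.linearIndependent_iff] at hl
  apply hl
  funext y
  have := hc y
  simpa [Finset.sum_apply, Pi.smul_apply, smul_eq_mul] using this

/-- The same, written out. -/
theorem indep8' {K L : Type} [Field K] [Finite K] [Field L] [Finite L] [Algebra K L]
    (σ : L ≃ₐ[K] L) (h : Cyc σ) (c0 c1 c2 c3 c4 c5 c6 c7 : L)
    (hc : ∀ y : L, c0 * y + c1 * σ y + c2 * σ (σ y) + c3 * σ (σ (σ y)) +
      c4 * σ (σ (σ (σ y))) + c5 * σ (σ (σ (σ (σ y)))) + c6 * σ (σ (σ (σ (σ (σ y))))) +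
      c7 * σ (σ (σ (σ (σ (σ (σ y)))))) = 0) :
    c0 = 0 ∧ c1 = 0 ∧ c2 = 0 ∧ c3 = 0 ∧ c4 = 0 ∧ c5 = 0 ∧ c6 = 0 ∧ c7 = 0 := by
  have h1 := indep8 σ h ![c0, c1, c2, c3, c4, c5, c6, c7] (by
    intro y
    rw [← hc y]
    simp [Fin.sum_univ_eight])
  exact ⟨h1 0, h1 1, h1 2, h1 3, h1 4, h1 5, h1 6, h1 7⟩

theorem ind (h8 : S_B8) : S_IND := by
  intro K L _ _ _ _ _ σ h c0 c1 c2 c3 hc
  have h1 := indep8' σ h c0 c1 c2 c3 (-c0) (-c1) (-c2) (-c3) (by
    intro y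
    have h2 := h8 K L σ h y
    have hW : y - σ (σ (σ (σ y))) ∈ W σ := by
      show σ (σ (σ (σ (y - σ (σ (σ (σ y))))))) = -(y - σ (σ (σ (σ y))))
      simp only [map_sub, h2]
      ring
    have h3 := hc _ hW
    simp only [map_sub] at h3
    linear_combination h3)
  exact ⟨h1.1, h1.2.1, h1.2.2.1, h1.2.2.2.1⟩

end Q96.MR_IND
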