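import Mathlib
import Pool.Agent.Q49.MR.Stm

/-! Job POLY of project MR: the polynomial lemma. -/

namespace Q96.MR_POLY

open Q49.MR Polynomial

theorem poly : S_POLY := by
  intro F _ q a b c S hodd h5 hq h2 ha hc hD hcard hroot
  by_contra hcon
  push Not at hcon
  obtain ⟨h, hqh⟩ := hodd
  have hh : (q - 1) / 2 = h := by omega
  rw [hh] at hcon
  obtain ⟨m, rfl⟩ : ∃ m, h = m + 1 := ⟨h - 1, by omega⟩
  have hhF : (2 : F) * ((m : F) + 1) = -1 := by
    have : ((q : ℕ) : F) = 2 * ((m : F) + 1) + 1 := by
      rw [hqh]; push_cast; ring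
    rw [hq] at this
    linear_combination -this
  have hC2 : (C (2 : F) : F[X]) = 2 := map_ofNat C 2
  set Φ : F[X] := C a + C b * X ^ 2 + C c * X ^ 4 with hΦ
  set Z : F[X] := X ^ (q + 1) - C 1 with hZ
  set E : F[X] := 2 * C a + C b * X ^ 2 with hE
  set N : F[X] := C b * X + 2 * C c * X ^ 3 with hN
  have hZm : Z.Monic := monic_X_pow_sub_C 1 (by omega)
  have hZd : Z.natDegree = q + 1 := natDegree_X_pow_sub_C
  have hZ' : derivative Z = X ^ q := by
    rw [hZ, derivative_sub, derivative_C, derivative_X_pow, sub_zero]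
    simp [hq]
  have hXZ' : X * derivative Z = Z + 1 := by
    rw [hZ', hZ, C_1]; ring
  have hΦd : Φ.natDegree = 4 := by
    rw [hΦ]; compute_degree!
  have hEd : E.natDegree ≤ 2 := by
    rw [hE]; compute_degree
  have hΦ' : derivative Φ = 2 * N := by
    rw [hΦ, hN]
    simp only [derivative_add, derivative_C, derivative_C_mul, derivative_X_pow, zero_add]
    simp only [Nat.cast_ofNat, map_ofNat]
    ring
  have hEN : 2 * Φ - X * N = E := by
    rw [hΦ, hN, hE]; ring
  have hP0 : ∃ R : F[X], X ^ 2 * Φ ^ (m + 1) - 1 = Z * R := by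
    have h0 : (X ^ 2 * Φ ^ (m + 1) - 1) %ₘ Z = 0 := by
      refine eq_zero_of_natDegree_lt_card_of_eval_eq_zero' _ S ?_ ?_
      · intro w hw
        have e1 : eval w Z = 0 := by
          rw [hZ]; simp [hroot w hw]
        have e2 := congrArg (eval w) (modByMonic_add_div (X ^ 2 * Φ ^ (m + 1) - 1) Z)
        rw [eval_add, eval_mul, e1, zero_mul, add_zero] at e2
        rw [e2]
        have := hcon w hw
        simp only [hΦ, eval_sub, eval_mul, eval_pow, eval_add, eval_C, eval_X, eval_one]
        rw [this, sub_self]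
      · rw [hcard, ← hZd]
        exact natDegree_modByMonic_lt _ hZm (by
          intro h1
          rw [h1, natDegree_one] at hZd
          omega)
    exact ⟨_, by
      have := modByMonic_add_div (X ^ 2 * Φ ^ (m + 1) - 1) Z
      rw [h0, zero_add] at this
      exact this.symm⟩
  obtain ⟨R, hR⟩ := hP0
  have hPd : (Z * R).natDegree ≤ 2 * q := by
    rw [← hR]
    refine (natDegree_sub_le _ _).trans ?_
    rw [natDegree_one, max_eq_left (Nat.zero_le _)]
    refine natDegree_mul_le.trans ?_
    rw [natDegree_pow, natDegree_pow, hΦd, natDegree_X]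
    omega
  have hRd : R.natDegree ≤ q - 1 := by
    by_cases hR0 : R = 0
    · rw [hR0, natDegree_zero]; omega
    · rw [hZm.natDegree_mul' hR0, hZd] at hPd
      omega
  have hder : X * Φ * derivative (Z * R) = E * (Z * R + 1) := by
    have h1 : derivative (Z * R) = 2 * X * Φ ^ (m + 1) + X ^ 2 * (C ((m : F) + 1) * Φ ^ m * (2 * N)) := by
      rw [← hR, derivative_sub, derivative_one, sub_zero, derivative_mul, derivative_X_pow,
        derivative_pow, hΦ']
      simp [hC2]
    have h3 : (2 : F[X]) * C ((m : F) + 1) = -1 := by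
      have := congrArg (C : F →+* F[X]) hhF
      rw [map_mul, hC2, map_neg, map_one] at this
      exact this
    rw [h1, ← hR]
    have e1 : X * Φ * (2 * X * Φ ^ (m + 1) + X ^ 2 * (C ((m : F) + 1) * Φ ^ m * (2 * N))) =
        (2 * Φ + 2 * C ((m : F) + 1) * (X * N)) * (X ^ 2 * Φ ^ (m + 1)) := by ring
    rw [e1, h3, ← hEN]
    ring
  have hK : Φ * ((Z + 1) * R + X * Z * derivative R) = E * (Z * R + 1) := by
    rw [← hder, derivative_mul, ← hXZ']
    ring
  set U : F[X] := X * Φ * derivative R + Φ * R - E * R with hU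
  have hG : Φ * R = E - Z * U := by
    rw [hU]; linear_combination hK
  have hUd : U.natDegree ≤ 2 := by
    by_cases hU0 : U = 0
    · rw [hU0, natDegree_zero]; omega
    · have h1 : (Z * U).natDegree ≤ q + 3 := by
        have : Z * U = E - Φ * R := by linear_combination hG
        rw [this]
        refine (natDegree_sub_le _ _).trans (max_le (by omega) ?_)
        refine natDegree_mul_le.trans ?_
        rw [hΦd]; omega
      rw [hZm.natDegree_mul' hU0, hZd] at h1
      omega
  have hdG : X * derivative (Φ * R) = X * derivative E - (Z + 1) * U - X * Z * derivative U := by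
    rw [hG, derivative_sub, derivative_mul, ← hXZ']
    ring
  have hV : 2 * Φ * U - X * Φ * derivative E + (Φ + X * N) * E =
      Z * (X * N * U - X * Φ * derivative U) := by
    have e1 : Φ * U = Φ * (X * derivative (Φ * R)) - (Φ + X * N) * (Φ * R) := by
      rw [hU, derivative_mul, hΦ', ← hEN]
      ring
    rw [hdG, hG] at e1
    linear_combination e1
  have hV0 : X * N * U - X * Φ * derivative U = 0 := by
    by_contra hVne
    have hE' : (X * derivative E).natDegree ≤ 2 := by
      refine natDegree_mul_le.trans ?_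
      have := natDegree_derivative_le E
      rw [natDegree_X]; omega
    have hXN : (X * N).natDegree ≤ 4 := by
      rw [hN]
      refine natDegree_mul_le.trans ?_
      have : (C b * X + 2 * C c * X ^ 3 : F[X]).natDegree ≤ 3 := by compute_degree
      rw [natDegree_X]; omega
    have hl : (2 * Φ * U - X * Φ * derivative E + (Φ + X * N) * E).natDegree ≤ 6 := by
      refine (natDegree_add_le _ _).trans (max_le ((natDegree_sub_le _ _).trans (max_le ?_ ?_)) ?_)
      · refine natDegree_mul_le.trans ?_
        have : (2 * Φ : F[X]).natDegree ≤ 4 := by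
          rw [← hC2]
          exact (natDegree_C_mul_le _ _).trans hΦd.le
        omega
      · have : X * Φ * derivative E = Φ * (X * derivative E) := by ring
        rw [this]
        refine natDegree_mul_le.trans ?_
        omega
      · refine natDegree_mul_le.trans ?_
        have : (Φ + X * N).natDegree ≤ 4 := (natDegree_add_le _ _).trans (max_le hΦd.le hXN)
        omega
    rw [hV, hZm.natDegree_mul' hVne, hZd] at hl
    have h0 : (X * N * U - X * Φ * derivative U).natDegree = 0 := by omega
    apply hVne
    rw [eq_C_of_natDegree_eq_zero h0]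
    simp [mul_assoc]
  have hNU : N * U = Φ * derivative U := by
    have : X * (N * U - Φ * derivative U) = 0 := by linear_combination hV0
    have := (mul_eq_zero.1 this).resolve_left X_ne_zero
    linear_combination this
  have hU0 : U = 0 := by
    have hd : Φ ∣ C (2 * a * (b ^ 2 - 4 * a * c)) * U := by
      refine ⟨2 * (C (b ^ 2 - 4 * a * c) + 2 * C b * C c * X ^ 2) * U -
        (X * (C (b ^ 2 - 4 * a * c) + 2 * C b * C c * X ^ 2) + C b ^ 2 * X) * derivative U, ?_⟩
      have e1 : C (2 * a * (b ^ 2 - 4 * a * c)) =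
          2 * (C (b ^ 2 - 4 * a * c) + 2 * C b * C c * X ^ 2) * Φ -
          (X * (C (b ^ 2 - 4 * a * c) + 2 * C b * C c * X ^ 2) + C b ^ 2 * X) * N := by
        rw [hΦ, hN]
        simp only [map_mul, map_sub, map_pow, map_ofNat]
        ring
      rw [e1]
      linear_combination
        -(X * (C (b ^ 2 - 4 * a * c) + 2 * C b * C c * X ^ 2) + C b ^ 2 * X) * hNU
    have hne : (2 * a * (b ^ 2 - 4 * a * c)) ≠ 0 := mul_ne_zero (mul_ne_zero h2 ha) hD
    have h1 := eq_zero_of_dvd_of_natDegree_lt hd (by
      refine (natDegree_C_mul_le _ _).trans_lt ?_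
      omega)
    exact (mul_eq_zero.1 h1).resolve_left (fun h0 => hne (C_eq_zero.1 h0))
  rw [hU0, mul_zero, sub_zero] at hG
  have hE0 : E = 0 := eq_zero_of_dvd_of_natDegree_lt ⟨R, hG.symm⟩ (by omega)
  have : eval 0 E = 0 := by rw [hE0, eval_zero]
  rw [hE] at this
  simp at this
  rcases this with h | h
  · exact h2 h
  · exact ha h

end Q96.MR_POLY
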