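import Mathlib

/-!
# Taylor's formula with locally uniform remainder for maps between normed spaces
-/

set_option autoImplicit false

open Filter Topology Set

namespace Q96.TaylorMulti

variable {X Y : Type*} [NormedAddCommGroup X] [NormedSpace ℝ X] [NormedAddCommGroup Y]
  [NormedSpace ℝ Y]

lemma iteratedDeriv_line (F : X → Y) (n : ℕ) (hF : ContDiff ℝ n F) (x h : X) (s : ℝ) (j : ℕ)
    (hj : j ≤ n) :
    iteratedDeriv j (fun s : ℝ => F (x + s • h)) s =
      iteratedFDeriv ℝ j F (x + s • h) (fun _ => h) := by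
  rw [iteratedDeriv_eq_iteratedFDeriv]
  set g : ℝ →L[ℝ] X := (ContinuousLinearMap.id ℝ ℝ).smulRight h with hg
  have h1 : (fun s : ℝ => F (x + s • h)) = (fun y => F (x + y)) ∘ g := by
    funext s
    simp [hg]
  rw [h1]
  have hF' : ContDiff ℝ n (fun y => F (x + y)) := hF.comp (contDiff_const.add contDiff_id)
  rw [g.iteratedFDeriv_comp_right hF' s (by exact_mod_cast hj)]
  rw [ContinuousMultilinearMap.compContinuousLinearMap_apply, iteratedFDeriv_comp_add_left]
  have h2 : g s = s • h := by simp [hg]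
  have h3 : g 1 = h := by simp [hg]
  rw [h2, h3]

theorem taylor_local (F : X → Y) (n : ℕ) (hF : ContDiff ℝ (n + 1 : ℕ) F) (x0 : X) :
    ∃ ρ > 0, ∃ C ≥ 0, ∀ x h : X, ‖x - x0‖ < ρ → ‖h‖ < ρ →
      ‖F (x + h) - ∑ j ∈ Finset.range (n + 1), ((j.factorial : ℝ)⁻¹) •
        iteratedFDeriv ℝ j F x (fun _ => h)‖ ≤ C * ‖h‖ ^ (n + 1) := by
  have hc : Continuous (iteratedFDeriv ℝ (n + 1) F) :=
    hF.continuous_iteratedFDeriv (by exact_mod_cast le_refl _)
  obtain ⟨ρ, hρ, hball⟩ := Metric.continuousAt_iff.mp (hc.continuousAt (x := x0)) 1 one_pos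
  set C := ‖iteratedFDeriv ℝ (n + 1) F x0‖ + 1 with hC
  have hbound : ∀ y, ‖y - x0‖ < ρ → ‖iteratedFDeriv ℝ (n + 1) F y‖ ≤ C := by
    intro y hy
    have h1 := hball (show dist y x0 < ρ by rwa [dist_eq_norm])
    rw [dist_eq_norm] at h1
    have h2 := norm_sub_norm_le (iteratedFDeriv ℝ (n + 1) F y) (iteratedFDeriv ℝ (n + 1) F x0)
    linarith
  refine ⟨ρ / 2, by positivity, C, by positivity, fun x h hx hh => ?_⟩
  set f : ℝ → Y := fun s => F (x + s • h) with hf
  have hfc : ContDiff ℝ (n + 1 : ℕ) f :=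
    hF.comp (contDiff_const.add (contDiff_id.smul contDiff_const))
  have hud : UniqueDiffOn ℝ (Icc (0 : ℝ) 1) := uniqueDiffOn_Icc one_pos
  have hit : ∀ j, j ≤ n + 1 → ∀ s ∈ Icc (0 : ℝ) 1, iteratedDerivWithin j f (Icc 0 1) s =
      iteratedFDeriv ℝ j F (x + s • h) (fun _ => h) := by
    intro j hj s hs
    have h1 : ContDiffAt ℝ j f s := (hfc.of_le (by exact_mod_cast hj)).contDiffAt
    rw [iteratedDerivWithin_eq_iteratedDeriv hud h1 hs]
    exact iteratedDeriv_line F (n + 1) hF x h s j hj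
  have h1 := taylor_mean_remainder_bound (f := f) (a := 0) (b := 1) (x := 1) (n := n)
    (C := C * ‖h‖ ^ (n + 1)) zero_le_one (by exact_mod_cast hfc.contDiffOn)
    (right_mem_Icc.mpr zero_le_one) (by
      intro s hs
      rw [hit (n + 1) le_rfl s hs]
      refine le_trans (ContinuousMultilinearMap.le_opNorm _ _) ?_
      rw [Finset.prod_const, Finset.card_univ, Fintype.card_fin]
      apply mul_le_mul_of_nonneg_right _ (by positivity)
      apply hbound
      have h2 : x + s • h - x0 = (x - x0) + s • h := by abel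
      rw [h2]
      have h3 : ‖s • h‖ ≤ ‖h‖ := by
        rw [norm_smul, Real.norm_eq_abs, abs_of_nonneg hs.1]
        exact mul_le_of_le_one_left (norm_nonneg _) hs.2
      linarith [norm_add_le (x - x0) (s • h)])
  rw [taylor_within_apply] at h1
  have h2 : ∑ k ∈ Finset.range (n + 1), ((k.factorial : ℝ)⁻¹ * (1 - 0) ^ k) •
      iteratedDerivWithin k f (Icc 0 1) 0 = ∑ j ∈ Finset.range (n + 1), ((j.factorial : ℝ)⁻¹) •
        iteratedFDeriv ℝ j F x (fun _ => h) := by
    apply Finset.sum_congr rfl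
    intro j hj
    rw [Finset.mem_range] at hj
    rw [hit j (by omega) 0 (left_mem_Icc.mpr zero_le_one), sub_zero, one_pow, mul_one, zero_smul,
      add_zero]
  rw [h2] at h1
  have h3 : f 1 = F (x + h) := by simp [hf]
  rw [h3, sub_zero, one_pow, mul_one] at h1
  refine le_trans h1 ?_
  apply div_le_self (by positivity)
  exact_mod_cast Nat.one_le_iff_ne_zero.mpr (Nat.factorial_ne_zero n)

end Q96.TaylorMulti
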