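import Mathlib
import Pool.Agent.Q96.DiagLp
import Pool.Agent.Q96.TaylorMulti

/-!
# Spaces with an `ℓ_p`-basis, `p` not an even integer, admit no smooth blid maps
-/

set_option autoImplicit false

open Filter Topology Set Q96.DiagLp Q96.TaylorMulti

namespace Q96.NoBlidLp

lemma bernoulli {p a b K s : ℝ} (hp : 1 ≤ p) (ha : 0 ≤ a) (hb : 0 ≤ b) (hbK : b ≤ K)
    (hs : 0 ≤ s) (h : b - s ≤ a) : b ^ p - p * K ^ (p - 1) * s ≤ a ^ p := by
  have hp0 : 0 < p := by linarith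
  have hK : 0 ≤ K := hb.trans hbK
  rcases hb.eq_or_lt with hb0 | hb0
  · rw [← hb0, Real.zero_rpow hp0.ne']
    have h1 : 0 ≤ p * K ^ (p - 1) * s := by positivity
    have h2 : 0 ≤ a ^ p := Real.rpow_nonneg ha _
    linarith
  · have h1 := one_add_mul_self_le_rpow_one_add (s := (a - b) / b) (by
      rw [le_div_iff₀ hb0]; linarith) hp
    have h2 : 1 + (a - b) / b = a / b := by field_simp; ring
    rw [h2, Real.div_rpow ha hb, le_div_iff₀ (Real.rpow_pos_of_pos hb0 _)] at h1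
    have h3 : b ^ p = b ^ (p - 1) * b := by
      rw [← Real.rpow_add_one hb0.ne']; congr 1; ring
    have h4 : (1 + p * ((a - b) / b)) * b ^ p = b ^ p + p * b ^ (p - 1) * (a - b) := by
      rw [h3]; field_simp
    rw [h4] at h1
    have h5 : b ^ (p - 1) ≤ K ^ (p - 1) := Real.rpow_le_rpow hb hbK (by linarith)
    have h6 : 0 ≤ b ^ (p - 1) := Real.rpow_nonneg hb _
    have h7 : p * b ^ (p - 1) * (b - a) ≤ p * K ^ (p - 1) * s := by
      have h8 : p * b ^ (p - 1) * (b - a) ≤ p * b ^ (p - 1) * s :=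
        mul_le_mul_of_nonneg_left (by linarith) (by positivity)
      refine h8.trans ?_
      apply mul_le_mul_of_nonneg_right _ hs
      exact mul_le_mul_of_nonneg_left h5 hp0.le
    linarith

lemma small_power {p : ℝ} {m : ℕ} (hpm : p < m) (D η : ℝ) (hη : 0 < η) :
    ∃ δ > 0, ∀ t : ℝ, 0 < t → t < δ → D * t ^ m ≤ η * t ^ p := by
  have h1 : Tendsto (fun t : ℝ => D * t ^ ((m : ℝ) - p)) (𝓝 0) (𝓝 (D * 0 ^ ((m : ℝ) - p))) :=
    ((Real.continuousAt_rpow_const _ _ (Or.inr (by linarith))).tendsto).const_mul D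
  rw [Real.zero_rpow (by linarith), mul_zero] at h1
  obtain ⟨δ, hδ, h⟩ := Metric.eventually_nhds_iff.mp (h1.eventually (gt_mem_nhds hη))
  refine ⟨δ, hδ, fun t ht htδ => ?_⟩
  have h2 := h (show dist t 0 < δ by rwa [dist_zero_right, Real.norm_eq_abs, abs_of_pos ht])
  have h3 : t ^ m = t ^ ((m : ℝ) - p) * t ^ p := by
    rw [← Real.rpow_add ht, sub_add_cancel, Real.rpow_natCast]
  rw [h3, ← mul_assoc]
  exact mul_le_mul_of_nonneg_right h2.le (Real.rpow_nonneg ht.le _)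

variable {X : Type*} [NormedAddCommGroup X] [NormedSpace ℝ X] {p : ℝ} (B : LpBasis X p)

/-- the initial projections -/
def P (N : ℕ) (x : X) : X := ∑ i ∈ Finset.range N, B.c i x • B.e i

lemma norm_P_pow (N : ℕ) (x : X) : ‖P B N x‖ ^ p = ∑ i ∈ Finset.range N, |B.c i x| ^ p :=
  B.h1 _ _

lemma norm_P_le (N : ℕ) (x : X) : ‖P B N x‖ ≤ ‖x‖ := by
  have hp := B.ppos
  have h1 := norm_P_pow B N x
  have h2 := B.h2 x (Finset.range N)
  rw [← h1] at h2
  exact (Real.rpow_le_rpow_iff (norm_nonneg _) (norm_nonneg _) hp).mp h2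

lemma norm_P_le_sum (N : ℕ) (x : X) : ‖P B N x‖ ≤ ∑ i ∈ Finset.range N, |B.c i x| := by
  refine le_trans (norm_sum_le _ _) (le_of_eq ?_)
  apply Finset.sum_congr rfl
  intro i _
  rw [norm_smul, B.norm_e, mul_one, Real.norm_eq_abs]

lemma P_add (N : ℕ) (x y : X) : P B N (x + y) = P B N x + P B N y := by
  unfold P
  rw [← Finset.sum_add_distrib]
  apply Finset.sum_congr rfl
  intro i _
  rw [map_add, add_smul]

lemma P_sum (N : ℕ) {ι : Type*} (s : Finset ι) (f : ι → X) :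
    P B N (∑ j ∈ s, f j) = ∑ j ∈ s, P B N (f j) := by
  unfold P
  rw [Finset.sum_comm]
  apply Finset.sum_congr rfl
  intro i _
  rw [map_sum, Finset.sum_smul]

lemma iter_small_smul {j : ℕ} (hj : 1 ≤ j) (hjp : (j : ℝ) ≤ p) (hpe : ∀ k : ℕ, p ≠ 2 * k)
    (A : ContinuousMultilinearMap ℝ (fun _ : Fin j => X) ℝ) (U : Ultrafilter ℕ)
    (hU : (U : Filter ℕ) ≤ atTop) (c t : ℝ) {τ : ℝ} (hτ : 0 < τ) :
    ∀ᶠ n2 in (U : Filter ℕ), ∀ᶠ n1 in (U : Filter ℕ),
      |c * A (fun _ => t • (B.e n1 - B.e n2))| < τ := by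
  have h1 := B.iter_small hj hjp hpe A U hU (τ := τ / (|c| * |t| ^ j + 1)) (by positivity)
  filter_upwards [h1] with n2 hn2
  filter_upwards [hn2] with n1 hn1
  have h2 : A (fun _ => t • (B.e n1 - B.e n2)) = t ^ j * A (fun _ => B.e n1 - B.e n2) := by
    have h4 := A.toMultilinearMap.map_smul_univ (fun _ : Fin j => t)
      (fun _ => B.e n1 - B.e n2)
    rw [Finset.prod_const, Finset.card_univ, Fintype.card_fin, smul_eq_mul] at h4
    exact h4
  rw [h2, abs_mul, abs_mul, abs_pow]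
  rw [lt_div_iff₀ (by positivity)] at hn1
  have h3 : 0 ≤ |A (fun _ => B.e n1 - B.e n2)| := abs_nonneg _
  nlinarith

/-- the gain constant -/
noncomputable def gain (p : ℝ) : ℝ := (1 / 4) ^ p / 2

lemma gain_pos (p : ℝ) : 0 < gain p := by unfold gain; positivity

/-- the coordinate estimate -/
lemma coord_est {x h v : X} {L : X →L[ℝ] X} {t ψ C : ℝ} {n1 n2 : ℕ} (ht : 0 < t)
    (hh : h = t • (B.e n1 - B.e n2))
    (hψ : 1 / 2 ≤ ψ) (h1 : |B.c n1 x| ≤ t / 32) (h2 : |B.c n1 (L (B.e n1)) - ψ| ≤ 1 / 32)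
    (h3 : |B.c n1 (L (B.e n2))| ≤ 1 / 32) (h4 : ‖v - x - L h‖ ≤ C * ‖h‖ ^ 2)
    (hC : 0 ≤ C) (h5 : C * (4 * t) ≤ 1 / 32) : t / 4 ≤ |B.c n1 v| := by
  have hhn : ‖h‖ ≤ 2 * t := by
    rw [hh, norm_smul, Real.norm_eq_abs, abs_of_pos ht, mul_comm]
    have := norm_sub_le (B.e n1) (B.e n2)
    rw [B.norm_e, B.norm_e] at this
    nlinarith
  have h6 : C * ‖h‖ ^ 2 ≤ t / 32 := by
    have : ‖h‖ ^ 2 ≤ (2 * t) ^ 2 := pow_le_pow_left₀ (norm_nonneg _) hhn 2
    have h7 := mul_le_mul_of_nonneg_left this hC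
    nlinarith
  have h7 : |B.c n1 (v - x - L h)| ≤ t / 32 :=
    le_trans (B.norm_c_le _ _) (le_trans h4 h6)
  have h8 : B.c n1 v = B.c n1 (v - x - L h) + B.c n1 x + t * B.c n1 (L (B.e n1)) -
      t * B.c n1 (L (B.e n2)) := by
    have h9 : B.c n1 (L h) = t * B.c n1 (L (B.e n1)) - t * B.c n1 (L (B.e n2)) := by
      rw [hh, map_smul, map_smul, map_sub, map_sub, smul_eq_mul, mul_sub]
    rw [map_sub, map_sub, h9]; ring
  have h9 := (abs_le.mp h7).1
  have h10 := (abs_le.mp h1).1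
  have h11 := (abs_le.mp h2).1
  have h12 := (abs_le.mp h3).2
  refine le_trans ?_ (le_abs_self _)
  rw [h8]
  nlinarith

theorem local_step (hpe : ∀ k : ℕ, p ≠ 2 * k) (U : Ultrafilter ℕ) (hU : (U : Filter ℕ) ≤ atTop)
    (Λ : (X →L[ℝ] X) →L[ℝ] ℝ) (hΛ : ∀ T, Tendsto (fun n => B.c n (T (B.e n))) U (𝓝 (Λ T)))
    (H : X → X) (hH : ContDiff ℝ (⌊p⌋₊ + 2 : ℕ) H) (K : ℝ) (hK : ∀ x, ‖H x‖ ≤ K) (x0 : X)
    (ε : ℝ) (hε : 0 < ε) :
    ∃ r > 0, ∃ δ > 0, ∀ x, ‖x - x0‖ < r → 1 / 2 ≤ Λ (fderiv ℝ H x) → ∀ t, 0 < t → t < δ →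
      ∀ N0 : ℕ, ∃ n1 n2 : ℕ, N0 ≤ n1 ∧ N0 ≤ n2 ∧ n1 ≠ n2 ∧
        |Λ (fderiv ℝ H (x + t • (B.e n1 - B.e n2))) - Λ (fderiv ℝ H x)| ≤ ε * t ^ p ∧
        ‖H x‖ ^ p + gain p * t ^ p ≤ ‖H (x + t • (B.e n1 - B.e n2))‖ ^ p := by
  have hp := B.ppos
  have hp1 := B.hp
  have hK0 : 0 ≤ K := le_trans (norm_nonneg _) (hK 0)
  set n := ⌊p⌋₊ with hn
  have hn1 : 1 ≤ n := Nat.le_floor (by exact_mod_cast hp1)
  have hnp : (n : ℝ) ≤ p := Nat.floor_le hp.le
  have hpm : p < ((n + 1 : ℕ) : ℝ) := by push_cast; exact Nat.lt_floor_add_one p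
  set ψ : X → ℝ := fun x => Λ (fderiv ℝ H x) with hψdef
  have hψc : ContDiff ℝ (n + 1 : ℕ) ψ := by
    apply Λ.contDiff.comp
    exact hH.fderiv_right (by norm_cast)
  have hH1 : ContDiff ℝ (n + 1 : ℕ) H := hH.of_le (by norm_cast; omega)
  have hH2 : ContDiff ℝ (1 + 1 : ℕ) H := hH.of_le (by norm_cast; omega)
  obtain ⟨ρ1, hρ1, C1, hC1, hT1⟩ := taylor_local H n hH1 x0
  obtain ⟨ρ2, hρ2, C2, hC2, hT2⟩ := taylor_local ψ n hψc x0
  obtain ⟨ρ3, hρ3, C3, hC3, hT3⟩ := taylor_local H 1 hH2 x0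
  set g4 : ℝ := (1 / 4) ^ p with hg4
  have hg4pos : 0 < g4 := by positivity
  obtain ⟨δ1, hδ1, hd1⟩ := small_power hpm (C2 * 2 ^ (n + 1)) (ε / 2) (by positivity)
  obtain ⟨δ2, hδ2, hd2⟩ := small_power hpm (p * K ^ (p - 1) * (C1 * 2 ^ (n + 1))) (g4 / 8)
    (by positivity)
  set ρ := min ρ1 (min ρ2 ρ3) with hρ
  have hρpos : 0 < ρ := by positivity
  have hρ1' : ρ ≤ ρ1 := min_le_left _ _
  have hρ2' : ρ ≤ ρ2 := le_trans (min_le_right _ _) (min_le_left _ _)
  have hρ3' : ρ ≤ ρ3 := le_trans (min_le_right _ _) (min_le_right _ _)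
  refine ⟨ρ, hρpos, min (min δ1 δ2) (min (ρ / 2) (1 / (128 * (C3 + 1)))), by positivity, ?_⟩
  intro x hx hψx t ht htδ N0
  have htδ1 : t < δ1 := lt_of_lt_of_le htδ (le_trans (min_le_left _ _) (min_le_left _ _))
  have htδ2 : t < δ2 := lt_of_lt_of_le htδ (le_trans (min_le_left _ _) (min_le_right _ _))
  have htρ : t < ρ / 2 := lt_of_lt_of_le htδ (le_trans (min_le_right _ _) (min_le_left _ _))
  have htC : t < 1 / (128 * (C3 + 1)) :=
    lt_of_lt_of_le htδ (le_trans (min_le_right _ _) (min_le_right _ _))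
  have htp : 0 < t ^ p := Real.rpow_pos_of_pos ht _
  have hC3t : C3 * (4 * t) ≤ 1 / 32 := by
    rw [lt_div_iff₀ (by positivity)] at htC
    nlinarith
  -- the cut-off for the coordinates of `H x`
  obtain ⟨N1, hN1⟩ := B.h3 (H x) (g4 * t ^ p / 8) (by positivity)
  set N := max N1 N0 with hN
  -- tolerances
  set τ1 : ℝ := ε * t ^ p / 2 / n with hτ1
  have hn0 : (0 : ℝ) < n := by exact_mod_cast hn1
  have hτ1pos : 0 < τ1 := by positivity
  set τ2 : ℝ := g4 * t ^ p / 8 / ((p * K ^ (p - 1) + 1) * (n * (N + 1))) with hτ2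
  have hτ2pos : 0 < τ2 := by positivity
  -- the eventual conditions
  have e1 : ∀ᶠ n2 in (U : Filter ℕ), ∀ᶠ n1 in (U : Filter ℕ), ∀ j ∈ Finset.Ico 1 (n + 1),
      |((j.factorial : ℝ)⁻¹) * iteratedFDeriv ℝ j ψ x (fun _ => t • (B.e n1 - B.e n2))| < τ1 := by
    have h1 : ∀ᶠ n2 in (U : Filter ℕ), ∀ j ∈ Finset.Ico 1 (n + 1), ∀ᶠ n1 in (U : Filter ℕ),
        |((j.factorial : ℝ)⁻¹) * iteratedFDeriv ℝ j ψ x (fun _ => t • (B.e n1 - B.e n2))| <
          τ1 := by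
      rw [Filter.eventually_all_finset]
      intro j hj
      rw [Finset.mem_Ico] at hj
      exact iter_small_smul B hj.1 (le_trans (by exact_mod_cast (by omega : j ≤ n)) hnp) hpe _ U hU
        _ t hτ1pos
    filter_upwards [h1] with n2 hn2
    rw [Filter.eventually_all_finset]
    exact hn2
  have e2 : ∀ᶠ n2 in (U : Filter ℕ), ∀ᶠ n1 in (U : Filter ℕ), ∀ j ∈ Finset.Ico 1 (n + 1),
      ∀ k ∈ Finset.range N, |((j.factorial : ℝ)⁻¹) *
        B.c k (iteratedFDeriv ℝ j H x (fun _ => t • (B.e n1 - B.e n2)))| < τ2 := by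
    have h1 : ∀ᶠ n2 in (U : Filter ℕ), ∀ j ∈ Finset.Ico 1 (n + 1), ∀ k ∈ Finset.range N,
        ∀ᶠ n1 in (U : Filter ℕ), |((j.factorial : ℝ)⁻¹) *
        B.c k (iteratedFDeriv ℝ j H x (fun _ => t • (B.e n1 - B.e n2)))| < τ2 := by
      rw [Filter.eventually_all_finset]
      intro j hj
      rw [Filter.eventually_all_finset]
      intro k _
      rw [Finset.mem_Ico] at hj
      exact iter_small_smul B hj.1 (le_trans (by exact_mod_cast (by omega : j ≤ n)) hnp) hpe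
        ((B.c k).compContinuousMultilinearMap (iteratedFDeriv ℝ j H x)) U hU _ t hτ2pos
    filter_upwards [h1] with n2 hn2
    rw [Filter.eventually_all_finset]
    intro j hj
    rw [Filter.eventually_all_finset]
    exact fun k hk => hn2 j hj k hk
  obtain ⟨n2, ⟨he1, he2⟩, hn2N⟩ := ((e1.and e2).and ((eventually_ge_atTop N).filter_mono hU)).exists
  have e3 : ∀ᶠ n1 in (U : Filter ℕ), |B.c n1 (H x)| < t / 32 := by
    have := ((B.c_tendsto (H x)).mono_left hU).abs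
    rw [abs_zero] at this
    exact this.eventually (gt_mem_nhds (by positivity))
  have e4 : ∀ᶠ n1 in (U : Filter ℕ), |B.c n1 (fderiv ℝ H x (B.e n1)) - ψ x| < 1 / 32 := by
    have := ((hΛ (fderiv ℝ H x)).sub_const (ψ x)).abs
    rw [sub_self, abs_zero] at this
    exact this.eventually (gt_mem_nhds (by norm_num))
  have e5 : ∀ᶠ n1 in (U : Filter ℕ), |B.c n1 (fderiv ℝ H x (B.e n2))| < 1 / 32 := by
    have := ((B.c_tendsto (fderiv ℝ H x (B.e n2))).mono_left hU).abs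
    rw [abs_zero] at this
    exact this.eventually (gt_mem_nhds (by norm_num))
  obtain ⟨n1, ⟨⟨⟨⟨he1', he2'⟩, he3⟩, he4⟩, he5⟩, hn1N⟩ :=
    (((((he1.and he2).and e3).and e4).and e5).and
      ((eventually_ge_atTop (max N (n2 + 1))).filter_mono hU)).exists
  have hn1N' : N ≤ n1 := le_trans (le_max_left _ _) hn1N
  have hn12 : n1 ≠ n2 := by
    have : n2 + 1 ≤ n1 := le_trans (le_max_right _ _) hn1N
    omega
  set h : X := t • (B.e n1 - B.e n2) with hh
  have hhn : ‖h‖ ≤ 2 * t := by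
    rw [hh, norm_smul, Real.norm_eq_abs, abs_of_pos ht, mul_comm]
    have := norm_sub_le (B.e n1) (B.e n2)
    rw [B.norm_e, B.norm_e] at this
    nlinarith
  have hhρ : ‖h‖ < ρ := by linarith
  have hpow : ‖h‖ ^ (n + 1) ≤ 2 ^ (n + 1) * t ^ (n + 1) := by
    rw [← mul_pow]; exact pow_le_pow_left₀ (norm_nonneg _) hhn _
  refine ⟨n1, n2, le_trans (le_max_right _ _) hn1N', le_trans (le_max_right _ _) hn2N, hn12, ?_, ?_⟩
  · -- the variation of `ψ`
    have h1 := hT2 x h (lt_of_lt_of_le hx hρ2') (lt_of_lt_of_le hhρ hρ2')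
    rw [Finset.range_eq_Ico, Finset.sum_eq_sum_Ico_succ_bot (Nat.succ_pos n)] at h1
    have h2 : ((Nat.factorial 0 : ℝ)⁻¹) • iteratedFDeriv ℝ 0 ψ x (fun _ => h) = ψ x := by
      rw [iteratedFDeriv_zero_apply]; simp
    rw [h2] at h1
    have h3 : |∑ j ∈ Finset.Ico (0 + 1) (n + 1), ((j.factorial : ℝ)⁻¹) •
        iteratedFDeriv ℝ j ψ x (fun _ => h)| ≤ ε * t ^ p / 2 := by
      refine le_trans (Finset.abs_sum_le_sum_abs _ _) ?_
      calc ∑ j ∈ Finset.Ico (0 + 1) (n + 1), |((j.factorial : ℝ)⁻¹) •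
            iteratedFDeriv ℝ j ψ x (fun _ => h)| ≤ ∑ _j ∈ Finset.Ico (0 + 1) (n + 1), τ1 := by
            apply Finset.sum_le_sum
            intro j hj
            rw [smul_eq_mul]
            exact (he1' j hj).le
        _ = ε * t ^ p / 2 := by
          rw [Finset.sum_const, Nat.card_Ico, nsmul_eq_mul, hτ1]
          have : ((n + 1 - (0 + 1) : ℕ) : ℝ) = n := by
            norm_num
          rw [this]
          field_simp
    have h4 : C2 * ‖h‖ ^ (n + 1) ≤ ε / 2 * t ^ p := by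
      refine le_trans (mul_le_mul_of_nonneg_left hpow hC2) ?_
      rw [← mul_assoc]
      exact hd1 t ht htδ1
    rw [Real.norm_eq_abs] at h1
    have h5 := abs_le.mp h1
    have h6 := abs_le.mp h3
    change |ψ (x + h) - ψ x| ≤ ε * t ^ p
    rw [abs_le]
    constructor <;> linarith [h5.1, h5.2, h6.1, h6.2]
  · -- the gain
    have h1 := hT1 x h (lt_of_lt_of_le hx hρ1') (lt_of_lt_of_le hhρ hρ1')
    rw [Finset.range_eq_Ico, Finset.sum_eq_sum_Ico_succ_bot (Nat.succ_pos n)] at h1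
    have h2 : ((Nat.factorial 0 : ℝ)⁻¹) • iteratedFDeriv ℝ 0 H x (fun _ => h) = H x := by
      rw [iteratedFDeriv_zero_apply]; simp
    rw [h2] at h1
    set v := H (x + h) with hv
    set W := ∑ j ∈ Finset.Ico (0 + 1) (n + 1), ((j.factorial : ℝ)⁻¹) •
        iteratedFDeriv ℝ j H x (fun _ => h) with hW
    have hPW : ‖P B N W‖ ≤ n * (N * τ2) := by
      rw [hW, P_sum]
      refine le_trans (norm_sum_le _ _) ?_
      have h3 : ∀ j ∈ Finset.Ico (0 + 1) (n + 1), ‖P B N (((j.factorial : ℝ)⁻¹) •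
          iteratedFDeriv ℝ j H x (fun _ => h))‖ ≤ N * τ2 := by
        intro j hj
        refine le_trans (norm_P_le_sum B N _) ?_
        calc ∑ i ∈ Finset.range N, |B.c i (((j.factorial : ℝ)⁻¹) •
              iteratedFDeriv ℝ j H x (fun _ => h))| ≤ ∑ _i ∈ Finset.range N, τ2 := by
              apply Finset.sum_le_sum
              intro i hi
              rw [map_smul, smul_eq_mul]
              exact (he2' j hj i hi).le
          _ = N * τ2 := by simp
      refine le_trans (Finset.sum_le_sum h3) ?_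
      rw [Finset.sum_const, Nat.card_Ico, nsmul_eq_mul]
      have : ((n + 1 - (0 + 1) : ℕ) : ℝ) = n := by norm_num
      rw [this]
    set s : ℝ := C1 * ‖h‖ ^ (n + 1) + n * (N * τ2) with hs
    have hs0 : 0 ≤ s := by positivity
    have h3 : ‖P B N (H x)‖ - s ≤ ‖P B N v‖ := by
      have h4 : P B N v = P B N (H x) + (P B N W + P B N (v - (H x + W))) := by
        rw [← P_add, ← P_add]; congr 1; abel
      have h5 : ‖P B N (v - (H x + W))‖ ≤ C1 * ‖h‖ ^ (n + 1) := le_trans (norm_P_le B N _) h1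
      have h6 := norm_sub_norm_le (P B N (H x)) (-(P B N W + P B N (v - (H x + W))))
      rw [sub_neg_eq_add, ← h4, norm_neg] at h6
      have h7 := norm_add_le (P B N W) (P B N (v - (H x + W)))
      linarith
    have h4 := bernoulli (p := p) (K := K) hp1 (norm_nonneg (P B N v)) (norm_nonneg (P B N (H x)))
      (le_trans (norm_P_le B N _) (hK x)) hs0 h3
    have h5 : p * K ^ (p - 1) * s ≤ g4 * t ^ p / 4 := by
      have h6 : p * K ^ (p - 1) * (C1 * ‖h‖ ^ (n + 1)) ≤ g4 / 8 * t ^ p := by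
        have h7 : C1 * ‖h‖ ^ (n + 1) ≤ C1 * (2 ^ (n + 1) * t ^ (n + 1)) :=
          mul_le_mul_of_nonneg_left hpow hC1
        have h8 : 0 ≤ p * K ^ (p - 1) := by positivity
        refine le_trans (mul_le_mul_of_nonneg_left h7 h8) ?_
        have h9 := hd2 t ht htδ2
        calc p * K ^ (p - 1) * (C1 * (2 ^ (n + 1) * t ^ (n + 1))) =
            p * K ^ (p - 1) * (C1 * 2 ^ (n + 1)) * t ^ (n + 1) := by ring
          _ ≤ _ := h9
      have h7 : p * K ^ (p - 1) * (n * (N * τ2)) ≤ g4 * t ^ p / 8 := by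
        have h8 : 0 ≤ p * K ^ (p - 1) := by positivity
        have h9 : (n : ℝ) * (N * τ2) ≤ (n * (N + 1)) * τ2 := by nlinarith [hτ2pos, hn0]
        have h10 : p * K ^ (p - 1) * (n * (N * τ2)) ≤
            (p * K ^ (p - 1) + 1) * ((n * (N + 1)) * τ2) := by
          apply mul_le_mul (by linarith) h9 (by positivity) (by positivity)
        refine le_trans h10 (le_of_eq ?_)
        rw [hτ2]
        have hne : (p * K ^ (p - 1) + 1) * ((n : ℝ) * (N + 1)) ≠ 0 := by positivity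
        rw [← mul_assoc]
        exact mul_div_cancel₀ _ hne
      have h8 : p * K ^ (p - 1) * s = p * K ^ (p - 1) * (C1 * ‖h‖ ^ (n + 1)) +
          p * K ^ (p - 1) * (n * (N * τ2)) := by rw [hs]; ring
      rw [h8]; linarith
    have h6 : ‖H x‖ ^ p - g4 * t ^ p / 8 ≤ ‖P B N (H x)‖ ^ p := by
      rw [norm_P_pow]
      exact hN1 N (le_max_left _ _)
    have h7 : ‖P B N v‖ ^ p + |B.c n1 v| ^ p ≤ ‖v‖ ^ p := by
      have h8 := B.h2 v (insert n1 (Finset.range N))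
      rw [Finset.sum_insert (by rw [Finset.mem_range]; omega)] at h8
      rw [norm_P_pow]
      linarith
    have h8 := hT3 x h (lt_of_lt_of_le hx hρ3') (lt_of_lt_of_le hhρ hρ3')
    have h9 : ∑ j ∈ Finset.range (1 + 1), ((j.factorial : ℝ)⁻¹) •
        iteratedFDeriv ℝ j H x (fun _ => h) = H x + fderiv ℝ H x h := by
      rw [Finset.sum_range_succ, Finset.sum_range_one, iteratedFDeriv_zero_apply,
        iteratedFDeriv_one_apply]
      simp
    rw [h9] at h8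
    have h10 : t / 4 ≤ |B.c n1 v| := by
      apply coord_est B (x := H x) (h := h) (L := fderiv ℝ H x) (C := C3) ht hh hψx he3.le he4.le
        he5.le _ hC3 hC3t
      rw [sub_sub]
      exact h8
    have h11 : g4 * t ^ p ≤ |B.c n1 v| ^ p := by
      have h12 := Real.rpow_le_rpow (by positivity) h10 hp.le
      have h13 : (t / 4) ^ p = g4 * t ^ p := by
        rw [hg4, ← Real.mul_rpow (by norm_num) ht.le]
        congr 1; ring
      rwa [h13] at h12
    have h12 : gain p = g4 / 2 := rfl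
    rw [h12]
    have h13 : 0 ≤ g4 * t ^ p := by positivity
    linarith

/-- vectors supported on finitely many coordinates below `N` -/
def Fin' (z : X) (N : ℕ) : Prop :=
  ∃ (S : Finset ℕ) (a : ℕ → ℝ), (∀ i ∈ S, i < N) ∧ z = ∑ i ∈ S, a i • B.e i

lemma fin_mono {z : X} {N M : ℕ} (h : Fin' B z N) (hNM : N ≤ M) : Fin' B z M := by
  obtain ⟨S, a, h1, h2⟩ := h
  exact ⟨S, a, fun i hi => lt_of_lt_of_le (h1 i hi) hNM, h2⟩

lemma fin_step {z : X} {N : ℕ} (h : Fin' B z N) {n1 n2 : ℕ} (h1 : N ≤ n1) (h2 : N ≤ n2)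
    (h12 : n1 ≠ n2) {t : ℝ} (ht : 0 < t) :
    Fin' B (z + t • (B.e n1 - B.e n2)) (max n1 n2 + 1) ∧
      ‖z + t • (B.e n1 - B.e n2)‖ ^ p = ‖z‖ ^ p + 2 * t ^ p := by
  classical
  obtain ⟨S, a, hS, hz⟩ := h
  have hn2 : n2 ∉ S := fun hn => by have := hS n2 hn; omega
  have hn1 : n1 ∉ insert n2 S := by
    rw [Finset.mem_insert]
    rintro (h | h)
    · exact h12 h
    · have := hS n1 h; omega
  set a' : ℕ → ℝ := fun i => if i = n1 then t else if i = n2 then -t else a i with ha'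
  have ha1 : a' n1 = t := by rw [ha']; simp
  have ha2 : a' n2 = -t := by rw [ha']; simp [h12.symm]
  have haS : ∀ i ∈ S, a' i = a i := by
    intro i hi
    have hi1 : i ≠ n1 := by rintro rfl; exact hn1 (Finset.mem_insert_of_mem hi)
    have hi2 : i ≠ n2 := by rintro rfl; exact hn2 hi
    rw [ha']
    simp [hi1, hi2]
  have hsum : ∑ i ∈ S, a' i • B.e i = z := by
    rw [hz]
    exact Finset.sum_congr rfl fun i hi => by rw [haS i hi]
  have hrep : z + t • (B.e n1 - B.e n2) = ∑ i ∈ insert n1 (insert n2 S), a' i • B.e i := by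
    rw [Finset.sum_insert hn1, Finset.sum_insert hn2, ha1, ha2, hsum]
    rw [smul_sub, neg_smul]
    abel
  constructor
  · refine ⟨insert n1 (insert n2 S), a', ?_, hrep⟩
    intro i hi
    rw [Finset.mem_insert, Finset.mem_insert] at hi
    rcases hi with rfl | rfl | hi
    · omega
    · omega
    · have := hS i hi; omega
  · have hsum' : ∑ i ∈ S, |a' i| ^ p = ‖z‖ ^ p := by
      rw [hz, B.h1]
      exact Finset.sum_congr rfl fun i hi => by rw [haS i hi]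
    rw [hrep, B.h1, Finset.sum_insert hn1, Finset.sum_insert hn2, ha1, ha2, hsum']
    rw [abs_neg, abs_of_pos ht]
    ring

include B in
/-- **No smooth blid maps.** -/
theorem no_blid [CompleteSpace X] (hpe : ∀ k : ℕ, p ≠ 2 * k) (H : X → X)
    (hH : ContDiff ℝ (⌊p⌋₊ + 2 : ℕ) H) (K : ℝ) (hK : ∀ x, ‖H x‖ ≤ K)
    (hid : ∀ᶠ x in 𝓝 (0 : X), H x = x) : False := by
  have hp := B.ppos
  have hK0 : 0 ≤ K := le_trans (norm_nonneg _) (hK 0)
  set U : Ultrafilter ℕ := Ultrafilter.of atTop with hUdef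
  have hU : (U : Filter ℕ) ≤ atTop := Ultrafilter.of_le _
  obtain ⟨Λ, hΛ⟩ := B.exists_Lam U
  set ψ : X → ℝ := fun x => Λ (fderiv ℝ H x) with hψdef
  have hψ0 : ψ 0 = 1 := by
    have h1 : H =ᶠ[𝓝 0] id := hid
    have h2 : fderiv ℝ H 0 = ContinuousLinearMap.id ℝ X := by
      rw [h1.fderiv_eq, fderiv_id]
    have h3 := hΛ (fderiv ℝ H 0)
    rw [h2] at h3
    have h4 : (fun n => B.c n ((ContinuousLinearMap.id ℝ X) (B.e n))) = fun _ => 1 := by
      funext n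
      simp [B.hce]
    rw [h4] at h3
    rw [hψdef]
    simp only [h2]
    exact tendsto_nhds_unique h3 tendsto_const_nhds |>.symm ▸ rfl
  have hH0 : H 0 = 0 := hid.self_of_nhds
  set c := gain p with hc
  have hcpos : 0 < c := gain_pos p
  set ε : ℝ := c / (2 * (K ^ p + 1)) with hε
  have hKp : 0 ≤ K ^ p := Real.rpow_nonneg hK0 _
  have hεpos : 0 < ε := by positivity
  -- available steps
  set Avail : X → ℕ → ℝ → Prop := fun x N0 t => ∃ n1 n2 : ℕ, N0 ≤ n1 ∧ N0 ≤ n2 ∧ n1 ≠ n2 ∧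
        |ψ (x + t • (B.e n1 - B.e n2)) - ψ x| ≤ ε * t ^ p ∧
        ‖H x‖ ^ p + c * t ^ p ≤ ‖H (x + t • (B.e n1 - B.e n2))‖ ^ p with hAvail
  have hloc : ∀ x0 : X, ∃ r > 0, ∃ i : ℕ, ∀ x, ‖x - x0‖ < r → 1 / 2 ≤ ψ x → ∀ N0 : ℕ,
      Avail x N0 ((1 / 2) ^ i) := by
    intro x0
    obtain ⟨r, hr, δ, hδ, h⟩ := local_step B hpe U hU Λ hΛ H hH K hK x0 ε hεpos
    obtain ⟨i, hi⟩ := exists_pow_lt_of_lt_one hδ (show (1 / 2 : ℝ) < 1 by norm_num)
    exact ⟨r, hr, i, fun x hx hψx N0 => h x hx hψx _ (by positivity) hi N0⟩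
  -- states
  let Good : X × ℕ × ℝ → Prop := fun q =>
    0 ≤ q.2.2 ∧ 1 - ε * q.2.2 ≤ ψ q.1 ∧ c * q.2.2 ≤ ‖H q.1‖ ^ p
  have hgoodT : ∀ q, Good q → q.2.2 ≤ K ^ p / c := by
    rintro q ⟨h1, h2, h3⟩
    rw [le_div_iff₀ hcpos, mul_comm]
    exact le_trans h3 (Real.rpow_le_rpow (norm_nonneg _) (hK _) hp.le)
  have hgoodψ : ∀ q, Good q → 1 / 2 ≤ ψ q.1 := by
    rintro q hq
    have h1 := hgoodT q hq
    have h2 : ε * q.2.2 ≤ 1 / 2 := by
      calc ε * q.2.2 ≤ ε * (K ^ p / c) := mul_le_mul_of_nonneg_left h1 hεpos.le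
        _ = K ^ p / (2 * (K ^ p + 1)) := by rw [hε]; field_simp
        _ ≤ 1 / 2 := by
          rw [div_le_div_iff₀ (by positivity) (by norm_num)]
          linarith
    linarith [hq.2.1]
  -- the greedy step
  have hstep : ∀ q : X × ℕ × ℝ, Good q → ∃ (n1 n2 i : ℕ), q.2.1 ≤ n1 ∧ q.2.1 ≤ n2 ∧ n1 ≠ n2 ∧
      Good (q.1 + ((1 / 2 : ℝ) ^ i) • (B.e n1 - B.e n2), max n1 n2 + 1,
        q.2.2 + ((1 / 2 : ℝ) ^ i) ^ p) ∧ ∀ j, Avail q.1 q.2.1 ((1 / 2) ^ j) → i ≤ j := by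
    classical
    rintro ⟨x, N, T⟩ hq
    obtain ⟨r, hr, i0, hi0⟩ := hloc x
    have hex : ∃ i : ℕ, Avail x N ((1 / 2) ^ i) :=
      ⟨i0, hi0 x (by simpa using hr) (hgoodψ _ hq) N⟩
    obtain ⟨n1, n2, h1, h2, h12, h3, h4⟩ := Nat.find_spec hex
    refine ⟨n1, n2, Nat.find hex, h1, h2, h12, ⟨?_, ?_, ?_⟩, fun j hj => Nat.find_min' hex hj⟩
    · have := hq.1
      simp only
      positivity
    · simp only
      have h5 := hq.2.1
      simp only at h5
      have h6 := (abs_le.mp h3).1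
      linarith
    · simp only
      have h5 := hq.2.2
      simp only at h5
      linarith
  choose! n1 n2 ix hs1 hs2 hs3 hs4 hs5 using hstep
  let nx : X × ℕ × ℝ → X × ℕ × ℝ := fun q =>
    (q.1 + ((1 / 2 : ℝ) ^ (ix q)) • (B.e (n1 q) - B.e (n2 q)), max (n1 q) (n2 q) + 1,
        q.2.2 + ((1 / 2 : ℝ) ^ (ix q)) ^ p)
  let st : ℕ → X × ℕ × ℝ := fun k => Nat.rec (0, 0, 0) (fun _ q => nx q) k
  have hst : ∀ k, st (k + 1) = nx (st k) := fun k => rfl
  have hgood : ∀ k, Good (st k) := by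
    intro k
    induction k with
    | zero =>
      refine ⟨le_rfl, ?_, ?_⟩
      · change 1 - ε * 0 ≤ ψ 0
        rw [hψ0]; simp
      · change c * 0 ≤ ‖H 0‖ ^ p
        rw [mul_zero]; positivity
    | succ k ih => rw [hst]; exact hs4 _ ih
  have hT1 : ∀ k, (st (k + 1)).2.2 = (st k).2.2 + ((1 / 2 : ℝ) ^ (ix (st k))) ^ p := fun k => rfl
  have hTmono : Monotone fun k => (st k).2.2 := monotone_nat_of_le_succ fun k => by
    rw [hT1]
    have : 0 ≤ ((1 / 2 : ℝ) ^ (ix (st k))) ^ p := by positivity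
    linarith
  have hTbdd : BddAbove (range fun k => (st k).2.2) :=
    ⟨K ^ p / c, by rintro _ ⟨k, rfl⟩; exact hgoodT _ (hgood k)⟩
  have hTlim := tendsto_atTop_ciSup hTmono hTbdd
  set Ts := ⨆ k, (st k).2.2 with hTs
  -- differences
  have hdiff : ∀ k l, k ≤ l → Fin' B ((st l).1 - (st k).1) (st l).2.1 ∧
      ‖(st l).1 - (st k).1‖ ^ p = 2 * ((st l).2.2 - (st k).2.2) := by
    intro k l hkl
    induction l, hkl using Nat.le_induction with
    | base =>
      refine ⟨⟨∅, fun _ => 0, by simp, by simp⟩, ?_⟩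
      rw [sub_self, norm_zero, Real.zero_rpow hp.ne', sub_self, mul_zero]
    | succ l _ ih =>
      obtain ⟨ih1, ih2⟩ := ih
      have h1 : (st (l + 1)).1 - (st k).1 = ((st l).1 - (st k).1) +
          ((1 / 2 : ℝ) ^ (ix (st l))) • (B.e (n1 (st l)) - B.e (n2 (st l))) := by
        rw [hst]
        change (st l).1 + _ - (st k).1 = _
        abel
      have h2 := fin_step B ih1 (hs1 _ (hgood l)) (hs2 _ (hgood l)) (hs3 _ (hgood l))
        (t := (1 / 2 : ℝ) ^ (ix (st l))) (by positivity)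
      rw [← h1] at h2
      refine ⟨h2.1, ?_⟩
      rw [h2.2, ih2, hT1]
      ring
  have hcau : CauchySeq fun k => (st k).1 := by
    apply cauchySeq_of_le_tendsto_0' (fun k => (2 * (Ts - (st k).2.2)) ^ (1 / p))
    · intro k l hkl
      rw [dist_eq_norm, norm_sub_rev]
      have h1 := (hdiff k l hkl).2
      have h2 : (st l).2.2 ≤ Ts := le_ciSup hTbdd l
      have h3 : ‖(st l).1 - (st k).1‖ ^ p ≤ 2 * (Ts - (st k).2.2) := by rw [h1]; linarith
      have h4 := Real.rpow_le_rpow (Real.rpow_nonneg (norm_nonneg _) _) h3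
        (show 0 ≤ 1 / p by positivity)
      rwa [← Real.rpow_mul (norm_nonneg _), mul_one_div_cancel hp.ne', Real.rpow_one] at h4
    · have h1 : Tendsto (fun k => 2 * (Ts - (st k).2.2)) atTop (𝓝 (2 * (Ts - Ts))) :=
        (hTlim.const_sub Ts).const_mul 2
      rw [sub_self, mul_zero] at h1
      have h2 := h1.rpow_const (p := 1 / p) (Or.inr (by positivity))
      rwa [Real.zero_rpow (by positivity)] at h2
  obtain ⟨xi, hxi⟩ := cauchySeq_tendsto_of_complete hcau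
  obtain ⟨r, hr, i0, hi0⟩ := hloc xi
  have h1 : ∀ᶠ k in atTop, ‖(st k).1 - xi‖ < r := by
    have := (Metric.tendsto_nhds.mp hxi) r hr
    filter_upwards [this] with k hk
    rwa [dist_eq_norm] at hk
  have h2 : ∀ᶠ k in atTop, ((1 / 2 : ℝ) ^ i0) ^ p ≤ (st (k + 1)).2.2 - (st k).2.2 := by
    filter_upwards [h1] with k hk
    have h3 := hs5 _ (hgood k) i0 (hi0 _ hk (hgoodψ _ (hgood k)) _)
    rw [hT1]
    have h4 : (1 / 2 : ℝ) ^ i0 ≤ (1 / 2) ^ (ix (st k)) :=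
      pow_le_pow_of_le_one (by norm_num) (by norm_num) h3
    have h5 := Real.rpow_le_rpow (by positivity) h4 hp.le
    linarith
  have h3 : Tendsto (fun k => (st (k + 1)).2.2 - (st k).2.2) atTop (𝓝 (Ts - Ts)) :=
    (hTlim.comp (tendsto_add_atTop_nat 1)).sub hTlim
  rw [sub_self] at h3
  have h4 := ge_of_tendsto h3 h2
  have h5 : 0 < ((1 / 2 : ℝ) ^ i0) ^ p := by positivity
  linarith

end Q96.NoBlidLp
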