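import Mathlib

/-!
# Rough norms and differentiable bump functions

If every point `x` has, at every scale `s`, a vector `h` of norm `s` with `‖x ± h‖ ≥ ‖x‖ + s/2`,
then every differentiable function with bounded support is zero.
-/

set_option autoImplicit false

open Filter Topology Set

namespace Q96.NoBump

/-- the norm is rough at all points and all scales -/
def Rough (X : Type*) [NormedAddCommGroup X] : Prop :=
  ∀ (x : X) (s : ℝ), 0 < s → ∃ h : X, ‖h‖ = s ∧ ‖x‖ + s / 2 ≤ ‖x + h‖ ∧ ‖x‖ + s / 2 ≤ ‖x - h‖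

section

variable {X : Type*} [NormedAddCommGroup X]

/-- the order used in the proof -/
def le' (ψ : X → ℝ) (c : ℝ) (x y : X) : Prop :=
  ‖y - x‖ ≤ 2 * (‖y‖ - ‖x‖) ∧ ψ x - ψ y ≤ c * (‖y‖ - ‖x‖)

lemma le'_refl (ψ : X → ℝ) (c : ℝ) (x : X) : le' ψ c x x := by simp [le']

lemma le'_trans {ψ : X → ℝ} {c : ℝ} {x y z : X} (h1 : le' ψ c x y) (h2 : le' ψ c y z) :
    le' ψ c x z := by
  refine ⟨?_, ?_⟩
  · have : z - x = (z - y) + (y - x) := by abel
    rw [this]
    linarith [norm_add_le (z - y) (y - x), h1.1, h2.1]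
  · linarith [h1.2, h2.2]

lemma le'_norm {ψ : X → ℝ} {c : ℝ} {x y : X} (h : le' ψ c x y) : ‖x‖ ≤ ‖y‖ := by
  have := h.1
  linarith [norm_nonneg (y - x)]

/-- existence of maximal elements in closed bounded sets -/
lemma exists_max [CompleteSpace X] (ψ : X → ℝ) (hψ : Continuous ψ) (c : ℝ) (A : Set X)
    (hA : IsClosed A) (R : ℝ) (hR : ∀ x ∈ A, ‖x‖ ≤ R) (x₀ : X) (hx₀ : x₀ ∈ A) :
    ∃ x ∈ A, ∀ y ∈ A, le' ψ c x y → y = x := by
  classical
  set T : X → Set ℝ := fun x => {t | ∃ y ∈ A, le' ψ c x y ∧ ‖y‖ = t} with hT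
  have hTb : ∀ x, BddAbove (T x) := fun x => ⟨R, by rintro _ ⟨y, hy, _, rfl⟩; exact hR y hy⟩
  have hnext : ∀ x : A, ∃ y : A, le' ψ c x.1 y.1 ∧ (‖x.1‖ + sSup (T x.1)) / 2 ≤ ‖y.1‖ := by
    rintro ⟨x, hx⟩
    have hxT : ‖x‖ ∈ T x := ⟨x, hx, le'_refl _ _ _, rfl⟩
    have h1 : ‖x‖ ≤ sSup (T x) := le_csSup (hTb x) hxT
    rcases h1.lt_or_eq with h1 | h1
    · obtain ⟨t, ⟨y, hy, hxy, rfl⟩, ht⟩ := exists_lt_of_lt_csSup ⟨_, hxT⟩
        (show (‖x‖ + sSup (T x)) / 2 < sSup (T x) by linarith)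
      exact ⟨⟨y, hy⟩, hxy, ht.le⟩
    · exact ⟨⟨x, hx⟩, le'_refl _ _ _, by rw [← h1]; simp⟩
  choose nx hnx1 hnx2 using hnext
  set u : ℕ → A := fun n => Nat.rec ⟨x₀, hx₀⟩ (fun _ x => nx x) n with hu
  have hus : ∀ n, u (n + 1) = nx (u n) := fun n => rfl
  have hmono : ∀ n m, n ≤ m → le' ψ c (u n).1 (u m).1 := by
    intro n m hnm
    induction m, hnm using Nat.le_induction with
    | base => exact le'_refl _ _ _
    | succ m _ ih =>
      rw [hus]; exact le'_trans ih (hnx1 _)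
  have hnm : Monotone fun n => ‖(u n).1‖ := fun n m h => le'_norm (hmono n m h)
  have hbd : BddAbove (range fun n => ‖(u n).1‖) :=
    ⟨R, by rintro _ ⟨n, rfl⟩; exact hR _ (u n).2⟩
  have hlim := tendsto_atTop_ciSup hnm hbd
  set L := ⨆ n, ‖(u n).1‖ with hL
  have hLn : ∀ n, ‖(u n).1‖ ≤ L := fun n => le_ciSup hbd n
  have hcau : CauchySeq fun n => (u n).1 := by
    apply cauchySeq_of_le_tendsto_0 (fun n => 2 * (2 * (L - ‖(u n).1‖)))
    · intro n m N hn hm
      have a := (hmono N n hn).1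
      have b := (hmono N m hm).1
      rw [dist_eq_norm]
      have e : (u n).1 - (u m).1 = ((u n).1 - (u N).1) - ((u m).1 - (u N).1) := by abel
      rw [e]
      linarith [norm_sub_le ((u n).1 - (u N).1) ((u m).1 - (u N).1), hLn n, hLn m]
    · have := ((tendsto_const_nhds (x := L)).sub hlim).const_mul 2 |>.const_mul 2
      simpa using this
  obtain ⟨x, hx⟩ := cauchySeq_tendsto_of_complete hcau
  have hxA : x ∈ A := hA.mem_of_tendsto hx (Eventually.of_forall fun n => (u n).2)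
  have hxL : ‖x‖ = L := tendsto_nhds_unique hx.norm hlim
  have hux : ∀ n, le' ψ c (u n).1 x := by
    intro n
    constructor
    · apply le_of_tendsto_of_tendsto (hx.sub_const (u n).1).norm
        ((hx.norm.sub_const ‖(u n).1‖).const_mul 2)
      filter_upwards [eventually_ge_atTop n] with m hm
      exact (hmono n m hm).1
    · apply le_of_tendsto_of_tendsto (((hψ.tendsto x).comp hx).const_sub (ψ (u n).1))
        ((hx.norm.sub_const ‖(u n).1‖).const_mul c)
      filter_upwards [eventually_ge_atTop n] with m hm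
      exact (hmono n m hm).2
  refine ⟨x, hxA, fun y hy hxy => ?_⟩
  have h1 : ∀ n, ‖y‖ ≤ 2 * ‖(u (n + 1)).1‖ - ‖(u n).1‖ := by
    intro n
    have h2 : ‖y‖ ≤ sSup (T (u n).1) :=
      le_csSup (hTb _) ⟨y, hy, le'_trans (hux n) hxy, rfl⟩
    have h3 := hnx2 (u n)
    rw [← hus] at h3
    linarith
  have h2 : ‖y‖ ≤ 2 * L - L :=
    ge_of_tendsto' (((hlim.comp (tendsto_add_atTop_nat 1)).const_mul 2).sub hlim) h1
  have h3 := hxy.1
  have h4 : ‖y - x‖ ≤ 0 := by rw [hxL] at h3; linarith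
  exact sub_eq_zero.mp (norm_le_zero_iff.mp h4)

/-- **No differentiable bump functions on spaces with a rough norm.** -/
theorem no_bump [NormedSpace ℝ X] [CompleteSpace X] (hX : Rough X) (b : X → ℝ) (hb : Differentiable ℝ b) (R : ℝ)
    (hR : ∀ x, R < ‖x‖ → b x = 0) (x₀ : X) : b x₀ = 0 := by
  by_contra hne
  -- normalise
  set ψ : X → ℝ := fun x => b (x₀ + x) / b x₀ with hψdef
  have hψd : Differentiable ℝ ψ := by
    intro x
    have h1 : DifferentiableAt ℝ (fun x => b (x₀ + x)) x :=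
      DifferentiableAt.comp x (hb (x₀ + x)) ((differentiableAt_const x₀).add differentiableAt_id)
    have e : ψ = fun x => (b x₀)⁻¹ * b (x₀ + x) := by
      funext x; simp only [hψdef]; ring
    rw [e]
    exact h1.const_mul _
  have hψ0 : ψ 0 = 1 := by simp [hψdef, hne]
  set R' : ℝ := max R 0 + ‖x₀‖ with hR'
  have hR'0 : 0 ≤ R' := by positivity
  have hψR : ∀ x, R' < ‖x‖ → ψ x = 0 := by
    intro x hx
    have : R < ‖x₀ + x‖ := by
      have h1 : ‖x‖ ≤ ‖x₀ + x‖ + ‖x₀‖ := by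
        have := norm_sub_le (x₀ + x) x₀
        rwa [add_sub_cancel_left] at this
      have h2 := le_max_left R 0
      linarith
    simp [hψdef, hR _ this]
  set c : ℝ := 1 / (R' + 2) with hc
  have hc0 : 0 < c := by positivity
  have hcR : c * (R' + 1) < 1 := by
    rw [hc, one_div, inv_mul_lt_iff₀ (by positivity)]; linarith
  set A : Set X := {x | ‖x‖ ≤ R' ∧ 1 - c * ‖x‖ ≤ ψ x} with hA
  have hAc : IsClosed A := by
    apply IsClosed.inter
    · exact isClosed_le continuous_norm continuous_const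
    · exact isClosed_le (continuous_const.sub (continuous_const.mul continuous_norm))
        hψd.continuous
  obtain ⟨x, ⟨hxR, hxψ⟩, hmax⟩ := exists_max ψ hψd.continuous c A hAc R' (fun x hx => hx.1) 0
    ⟨by simpa using hR'0, by simp [hψ0]⟩
  -- a small step
  have hd := (hψd x).hasFDerivAt
  rw [hasFDerivAt_iff_isLittleO_nhds_zero] at hd
  have hd2 := hd.def (show (0 : ℝ) < c / 2 by positivity)
  obtain ⟨δ, hδ, hδh⟩ := Metric.eventually_nhds_iff.mp hd2
  set s := min (δ / 2) 1 with hs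
  have hs0 : 0 < s := by positivity
  have hsδ : s < δ := lt_of_le_of_lt (min_le_left _ _) (by linarith)
  have hs1 : s ≤ 1 := min_le_right _ _
  obtain ⟨h, hh, hp, hm⟩ := hX x s hs0
  have key : ∀ k : X, ‖k‖ = s → ‖x‖ + s / 2 ≤ ‖x + k‖ → 0 ≤ fderiv ℝ ψ x k → False := by
    intro k hk hk2 hk3
    have h1 := hδh (show dist k 0 < δ by rw [dist_zero_right, hk]; exact hsδ)
    rw [Real.norm_eq_abs, hk] at h1
    have h2 := neg_abs_le (ψ (x + k) - ψ x - fderiv ℝ ψ x k)
    have hle : le' ψ c x (x + k) := by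
      constructor
      · rw [add_sub_cancel_left, hk]; linarith
      · nlinarith
    have hkA : x + k ∈ A := by
      have h4 : 1 - c * ‖x + k‖ ≤ ψ (x + k) := by linarith [hle.2]
      have h5 : ‖x + k‖ ≤ R' + 1 := by
        linarith [norm_add_le x k]
      refine ⟨?_, h4⟩
      by_contra h6
      push Not at h6
      rw [hψR _ h6] at h4
      have : c * ‖x + k‖ ≤ c * (R' + 1) := mul_le_mul_of_nonneg_left h5 hc0.le
      linarith
    have h7 := hmax _ hkA hle
    have h8 : k = 0 := by simpa using h7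
    rw [h8, norm_zero] at hk
    linarith
  rcases le_total 0 (fderiv ℝ ψ x h) with h0 | h0
  · exact key h hh hp h0
  · apply key (-h) (by rw [norm_neg, hh]) (by rw [← sub_eq_add_neg]; exact hm)
    rw [map_neg]; linarith

end

/-! ### `C[0,1]` is rough -/

lemma near_point (t₀ : Set.Icc (0 : ℝ) 1) (W : Set (Set.Icc (0 : ℝ) 1)) (hW : W ∈ 𝓝 t₀) :
    ∃ t ∈ W, t ≠ t₀ := by
  obtain ⟨δ, hδ, hball⟩ := Metric.mem_nhds_iff.mp hW
  obtain ⟨t, ht0, ht1⟩ := t₀
  by_cases h : t < 1
  · refine ⟨⟨min (t + δ / 2) 1, le_min (by linarith) zero_le_one, min_le_right _ _⟩, hball ?_, ?_⟩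
    · rw [Metric.mem_ball, Subtype.dist_eq, Real.dist_eq]
      have h1 : t < min (t + δ / 2) 1 := lt_min (by linarith) h
      have h2 : min (t + δ / 2) 1 ≤ t + δ / 2 := min_le_left _ _
      rw [abs_of_pos (by linarith)]
      linarith
    · intro he
      have h1 : t < min (t + δ / 2) 1 := lt_min (by linarith) h
      have h2 : min (t + δ / 2) 1 = t := congrArg Subtype.val he
      linarith
  · have h1 : t = 1 := le_antisymm ht1 (not_lt.mp h)
    subst h1
    refine ⟨⟨max (1 - δ / 2) 0, le_max_right _ _, max_le (by linarith) zero_le_one⟩, hball ?_, ?_⟩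
    · rw [Metric.mem_ball, Subtype.dist_eq, Real.dist_eq]
      have h2 : max (1 - δ / 2) 0 < 1 := max_lt (by linarith) zero_lt_one
      have h3 : 1 - δ / 2 ≤ max (1 - δ / 2) 0 := le_max_left _ _
      rw [abs_of_neg (by linarith)]
      linarith
    · intro he
      have h2 : max (1 - δ / 2) 0 < 1 := max_lt (by linarith) zero_lt_one
      have h3 : max (1 - δ / 2) 0 = (1 : ℝ) := congrArg Subtype.val he
      linarith

lemma rough_C : Rough C(Set.Icc (0 : ℝ) 1, ℝ) := by
  intro x s hs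
  obtain ⟨t₀, ht₀⟩ : ∃ t, ‖x t‖ = ‖x‖ := by
    obtain ⟨t, _, ht⟩ := isCompact_univ.exists_isMaxOn (s := (Set.univ : Set (Set.Icc (0 : ℝ) 1)))
      ⟨⟨0, by simp⟩, trivial⟩ (x.continuous.norm.continuousOn)
    refine ⟨t, le_antisymm (x.norm_coe_le_norm t) ?_⟩
    rw [ContinuousMap.norm_le _ (norm_nonneg _)]
    intro u
    exact ht (Set.mem_univ u)
  obtain ⟨t₁, ht₁, hne⟩ := near_point t₀ {t | |x t - x t₀| < s / 2} (by
    have : Tendsto (fun t => |x t - x t₀|) (𝓝 t₀) (𝓝 |x t₀ - x t₀|) :=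
      ((x.continuous.sub continuous_const).abs).tendsto t₀
    rw [sub_self, abs_zero] at this
    exact this.eventually (gt_mem_nhds (by positivity)))
  have hd : 0 < dist t₁ t₀ := dist_pos.mpr hne
  have ht₁' : |x t₁ - x t₀| < s / 2 := ht₁
  set h : C(Set.Icc (0 : ℝ) 1, ℝ) :=
    ⟨fun t => s * max (-1) (min 1 (1 - 2 * dist t t₀ / dist t₁ t₀)), by fun_prop⟩ with hh
  have h0 : h t₀ = s := by
    change s * max (-1) (min 1 (1 - 2 * dist t₀ t₀ / dist t₁ t₀)) = s
    simp
  have h1 : h t₁ = -s := by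
    change s * max (-1) (min 1 (1 - 2 * dist t₁ t₀ / dist t₁ t₀)) = -s
    rw [mul_div_assoc, div_self hd.ne']
    norm_num
  have hn : ‖h‖ = s := by
    apply le_antisymm
    · rw [ContinuousMap.norm_le _ hs.le]
      intro t
      change ‖s * max (-1) (min 1 (1 - 2 * dist t t₀ / dist t₁ t₀))‖ ≤ s
      rw [norm_mul, Real.norm_eq_abs, Real.norm_eq_abs, abs_of_pos hs]
      have : |max (-1) (min 1 (1 - 2 * dist t t₀ / dist t₁ t₀))| ≤ 1 := by
        rw [abs_le]
        exact ⟨le_max_left _ _, max_le (by norm_num) (min_le_left _ _)⟩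
      nlinarith
    · have := h.norm_coe_le_norm t₀
      rwa [h0, Real.norm_eq_abs, abs_of_pos hs] at this
  have a0 := (x + h).norm_coe_le_norm t₀
  have a1 := (x + h).norm_coe_le_norm t₁
  have b0 := (x - h).norm_coe_le_norm t₀
  have b1 := (x - h).norm_coe_le_norm t₁
  rw [ContinuousMap.add_apply, Real.norm_eq_abs] at a0 a1
  rw [ContinuousMap.sub_apply, Real.norm_eq_abs] at b0 b1
  rw [h0] at a0 b0
  rw [h1] at a1 b1
  rw [Real.norm_eq_abs] at ht₀
  rw [abs_lt] at ht₁'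
  refine ⟨h, hn, ?_, ?_⟩
  · rcases le_total 0 (x t₀) with hx | hx
    · rw [abs_of_nonneg hx] at ht₀
      have := le_abs_self (x t₀ + s)
      linarith
    · rw [abs_of_nonpos hx] at ht₀
      have := neg_abs_le (x t₁ + -s)
      linarith
  · rcases le_total 0 (x t₀) with hx | hx
    · rw [abs_of_nonneg hx] at ht₀
      have := le_abs_self (x t₁ - -s)
      linarith
    · rw [abs_of_nonpos hx] at ht₀
      have := neg_abs_le (x t₀ - s)
      linarith

end Q96.NoBump
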