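import Mathlib

/-!
# Lipschitz extension into p-Banach spaces: definitions, three points and a path, retractions
-/

set_option autoImplicit false

open Filter Topology Set
open scoped ENNReal

namespace Q96.PExt

/-- `nm` is a `p`-norm on the real vector space `Z` -/
structure IsPNorm (p : ℝ) {Z : Type} [AddCommGroup Z] [Module ℝ Z] (nm : Z → ℝ) : Prop where
  nonneg : ∀ z, 0 ≤ nm z
  pos : ∀ z, z ≠ 0 → 0 < nm z
  smul : ∀ (c : ℝ) (z : Z), nm (c • z) = |c| * nm z
  add : ∀ z w, nm (z + w) ^ p ≤ nm z ^ p + nm w ^ p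

/-- completeness for the metric `nm (x - y) ^ p` -/
def IsCompleteFor (p : ℝ) {Z : Type} [AddCommGroup Z] (nm : Z → ℝ) : Prop :=
  ∀ u : ℕ → Z, (∀ ε > 0, ∃ n₀, ∀ m ≥ n₀, ∀ n ≥ n₀, nm (u m - u n) ^ p < ε) →
    ∃ z, ∀ ε > 0, ∃ n₀, ∀ n ≥ n₀, nm (u n - z) ^ p < ε

/-- the Lipschitz constant `sup_{x ≠ y} nm (f x - f y) / d(x, y)`, in `[0, ∞]` -/
noncomputable def lipC {Z : Type} [AddCommGroup Z] (nm : Z → ℝ) {M : Type} [MetricSpace M]
    (f : M → Z) : ℝ≥0∞ :=
  ⨆ (x : M) (y : M) (_ : x ≠ y), ENNReal.ofReal (nm (f x - f y) / dist x y)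

/-- every Lipschitz map from `N ⊆ M` into a `p`-Banach space extends to `M` with Lipschitz
constant multiplied by at most `C` -/
def ExtBound (p : ℝ) {M : Type} [MetricSpace M] (N : Set M) (C : ℝ≥0∞) : Prop :=
  ∀ (Z : Type) [AddCommGroup Z] [Module ℝ Z] (nm : Z → ℝ), IsPNorm p nm → IsCompleteFor p nm →
    ∀ f : N → Z, lipC nm f < ∞ →
      ∃ g : M → Z, (∀ x : N, g x = f x) ∧ lipC nm g ≤ C * lipC nm f

/-- the `p`-trace of `N` in `M` -/
noncomputable def trace (p : ℝ) {M : Type} [MetricSpace M] (N : Set M) : ℝ≥0∞ :=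
  sInf {C : ℝ≥0∞ | 0 < C ∧ ExtBound p N C}

/-- the absolute `p`-extendability constant of `N` -/
noncomputable def aext (p : ℝ) (N : Type) [MetricSpace N] : ℝ≥0∞ :=
  ⨆ (M : Type) (_ : MetricSpace M) (ι : N → M) (_ : Isometry ι), trace p (Set.range ι)

/-! ### the p-norm on the plane -/

/-- cost of a representation -/
noncomputable def cost (p : ℝ) (v : ℝ × ℝ) (u : ℝ) : ℝ := |u| ^ p + |v.2 + u| ^ p + |v.1 - u| ^ p

/-- the `p`-norm of the plane whose unit ball is spanned by three directions -/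
noncomputable def nrm (p : ℝ) (v : ℝ × ℝ) : ℝ := (⨅ u : ℝ, cost p v u) ^ (1 / p)

lemma abs_add_rpow {p : ℝ} (hp : 0 < p) (hp1 : p ≤ 1) (a b : ℝ) :
    |a + b| ^ p ≤ |a| ^ p + |b| ^ p :=
  le_trans (Real.rpow_le_rpow (abs_nonneg _) (abs_add_le a b) hp.le)
    (Real.rpow_add_le_add_rpow (abs_nonneg _) (abs_nonneg _) hp.le hp1)

lemma cost_nonneg (p : ℝ) (v : ℝ × ℝ) (u : ℝ) : 0 ≤ cost p v u := by
  unfold cost; positivity

lemma bdd (p : ℝ) (v : ℝ × ℝ) : BddBelow (range (cost p v)) :=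
  ⟨0, by rintro _ ⟨u, rfl⟩; exact cost_nonneg p v u⟩

lemma inf_nonneg (p : ℝ) (v : ℝ × ℝ) : 0 ≤ ⨅ u : ℝ, cost p v u :=
  Real.iInf_nonneg (cost_nonneg p v)

lemma nrm_nonneg (p : ℝ) (v : ℝ × ℝ) : 0 ≤ nrm p v := Real.rpow_nonneg (inf_nonneg p v) _

lemma nrm_rpow {p : ℝ} (hp : 0 < p) (v : ℝ × ℝ) : nrm p v ^ p = ⨅ u : ℝ, cost p v u := by
  unfold nrm
  rw [← Real.rpow_mul (inf_nonneg p v), one_div, inv_mul_cancel₀ hp.ne', Real.rpow_one]

lemma nrm_rpow_le {p : ℝ} (hp : 0 < p) (v : ℝ × ℝ) (u : ℝ) : nrm p v ^ p ≤ cost p v u := by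
  rw [nrm_rpow hp]; exact ciInf_le (bdd p v) u

lemma le_nrm_rpow {p : ℝ} (hp : 0 < p) (v : ℝ × ℝ) (c : ℝ) (h : ∀ u, c ≤ cost p v u) :
    c ≤ nrm p v ^ p := by
  rw [nrm_rpow hp]; exact le_ciInf h

lemma fst_le_nrm {p : ℝ} (hp : 0 < p) (hp1 : p ≤ 1) (v : ℝ × ℝ) : |v.1| ≤ nrm p v := by
  have h : |v.1| ^ p ≤ nrm p v ^ p := by
    apply le_nrm_rpow hp
    intro u
    have h1 := abs_add_rpow hp hp1 u (v.1 - u)
    rw [add_sub_cancel] at h1
    unfold cost
    have : 0 ≤ |v.2 + u| ^ p := by positivity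
    linarith
  exact (Real.rpow_le_rpow_iff (abs_nonneg _) (nrm_nonneg p v) hp).mp h

lemma snd_le_nrm {p : ℝ} (hp : 0 < p) (hp1 : p ≤ 1) (v : ℝ × ℝ) : |v.2| ≤ nrm p v := by
  have h : |v.2| ^ p ≤ nrm p v ^ p := by
    apply le_nrm_rpow hp
    intro u
    have h1 := abs_add_rpow hp hp1 (v.2 + u) (-u)
    rw [add_neg_cancel_right, abs_neg] at h1
    unfold cost
    have : 0 ≤ |v.1 - u| ^ p := by positivity
    linarith
  exact (Real.rpow_le_rpow_iff (abs_nonneg _) (nrm_nonneg p v) hp).mp h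

/-- a vector of controlled norm is close to one of the three directions -/
lemma near_dir {p : ℝ} (hp : 0 < p) {ε K : ℝ} (hε : 0 < ε)
    (hsmall : K ^ p < 2 * (ε / 2) ^ p) (v : ℝ × ℝ) (hv : nrm p v ≤ K) :
    |v.1| ≤ ε ∨ |v.2| ≤ ε ∨ |v.1 + v.2| ≤ ε := by
  by_contra hcon
  push Not at hcon
  obtain ⟨h1, h2, h3⟩ := hcon
  have h : 2 * (ε / 2) ^ p ≤ nrm p v ^ p := by
    apply le_nrm_rpow hp
    intro u
    unfold cost
    have hA : 0 ≤ |u| ^ p := by positivity
    have hB : 0 ≤ |v.2 + u| ^ p := by positivity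
    have hG : 0 ≤ |v.1 - u| ^ p := by positivity
    have mono : ∀ x : ℝ, ε / 2 ≤ |x| → (ε / 2) ^ p ≤ |x| ^ p :=
      fun x hx => Real.rpow_le_rpow (by positivity) hx hp.le
    have t1 : |v.1| ≤ |u| + |v.1 - u| := by
      have := abs_add_le u (v.1 - u); rwa [add_sub_cancel] at this
    have t2 : |v.2| ≤ |v.2 + u| + |u| := by
      have := abs_add_le (v.2 + u) (-u); rwa [add_neg_cancel_right, abs_neg] at this
    have t3 : |v.1 + v.2| ≤ |v.1 - u| + |v.2 + u| := by
      have := abs_add_le (v.1 - u) (v.2 + u)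
      have e : v.1 - u + (v.2 + u) = v.1 + v.2 := by ring
      rwa [e] at this
    by_cases a : ε / 2 ≤ |u|
    · by_cases b : ε / 2 ≤ |v.2 + u|
      · linarith [mono _ a, mono _ b]
      · have c : ε / 2 ≤ |v.1 - u| := by push Not at b; linarith
        linarith [mono _ a, mono _ c]
    · push Not at a
      have b : ε / 2 ≤ |v.2 + u| := by linarith
      have c : ε / 2 ≤ |v.1 - u| := by linarith
      linarith [mono _ b, mono _ c]
  have h4 : nrm p v ^ p ≤ K ^ p := Real.rpow_le_rpow (nrm_nonneg p v) hv hp.le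
  linarith

lemma isPNorm_nrm {p : ℝ} (hp : 0 < p) (hp1 : p ≤ 1) : IsPNorm p (nrm p) where
  nonneg := nrm_nonneg p
  pos z hz := by
    have h1 := fst_le_nrm hp hp1 z
    have h2 := snd_le_nrm hp hp1 z
    rcases (nrm_nonneg p z).lt_or_eq with h | h
    · exact h
    · exfalso
      apply hz
      rw [← h] at h1 h2
      exact Prod.ext (abs_nonpos_iff.mp h1) (abs_nonpos_iff.mp h2)
  smul c z := by
    rcases eq_or_ne c 0 with rfl | hc
    · rw [zero_smul, abs_zero, zero_mul]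
      have h1 := nrm_rpow_le hp 0 0
      have h2 : cost p 0 0 = 0 := by simp [cost, Real.zero_rpow hp.ne']
      rw [h2] at h1
      have h3 : nrm p 0 ^ p ≤ (0 : ℝ) ^ p := by rwa [Real.zero_rpow hp.ne']
      exact le_antisymm ((Real.rpow_le_rpow_iff (nrm_nonneg p _) le_rfl hp).mp h3)
        (nrm_nonneg p _)
    · have key : ∀ (c : ℝ) (z : ℝ × ℝ), c ≠ 0 → nrm p (c • z) ^ p ≤ (|c| * nrm p z) ^ p := by
        intro c z hc
        rw [Real.mul_rpow (abs_nonneg _) (nrm_nonneg p _)]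
        have hcp : 0 < |c| ^ p := Real.rpow_pos_of_pos (abs_pos.mpr hc) p
        rw [← div_le_iff₀' hcp]
        apply le_nrm_rpow hp
        intro u
        rw [div_le_iff₀' hcp]
        refine le_trans (nrm_rpow_le hp _ (c * u)) (le_of_eq ?_)
        unfold cost
        simp only [Prod.smul_fst, Prod.smul_snd, smul_eq_mul]
        rw [← mul_add, ← mul_sub, abs_mul, abs_mul, abs_mul,
          Real.mul_rpow (abs_nonneg _) (abs_nonneg _), Real.mul_rpow (abs_nonneg _) (abs_nonneg _),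
          Real.mul_rpow (abs_nonneg _) (abs_nonneg _)]
        ring
      have key2 : ∀ (c : ℝ) (z : ℝ × ℝ), c ≠ 0 → nrm p (c • z) ≤ |c| * nrm p z := by
        intro c z hc
        exact (Real.rpow_le_rpow_iff (nrm_nonneg p _)
          (mul_nonneg (abs_nonneg _) (nrm_nonneg p _)) hp).mp (key c z hc)
      apply le_antisymm (key2 c z hc)
      have h1 := key2 c⁻¹ (c • z) (inv_ne_zero hc)
      rw [inv_smul_smul₀ hc, abs_inv] at h1
      have hcp : 0 < |c| := abs_pos.mpr hc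
      calc |c| * nrm p z ≤ |c| * (|c|⁻¹ * nrm p (c • z)) := by gcongr
        _ = nrm p (c • z) := by rw [← mul_assoc, mul_inv_cancel₀ hcp.ne', one_mul]
  add z w := by
    have h1 : ∀ u u' : ℝ, nrm p (z + w) ^ p ≤ cost p z u + cost p w u' := by
      intro u u'
      refine le_trans (nrm_rpow_le hp _ (u + u')) ?_
      unfold cost
      simp only [Prod.fst_add, Prod.snd_add]
      have a := abs_add_rpow hp hp1 u u'
      have b := abs_add_rpow hp hp1 (z.2 + u) (w.2 + u')
      have c := abs_add_rpow hp hp1 (z.1 - u) (w.1 - u')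
      have e1 : z.2 + u + (w.2 + u') = z.2 + w.2 + (u + u') := by ring
      have e2 : z.1 - u + (w.1 - u') = z.1 + w.1 - (u + u') := by ring
      rw [e1] at b
      rw [e2] at c
      linarith
    have h2 : ∀ u : ℝ, nrm p (z + w) ^ p - cost p z u ≤ nrm p w ^ p := by
      intro u
      apply le_nrm_rpow hp
      intro u'
      linarith [h1 u u']
    have h3 : nrm p (z + w) ^ p - nrm p w ^ p ≤ nrm p z ^ p := by
      apply le_nrm_rpow hp
      intro u
      linarith [h2 u]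
    linarith

lemma complete_nrm {p : ℝ} (hp : 0 < p) (hp1 : p ≤ 1) : IsCompleteFor p (nrm p) := by
  intro u hu
  have hc1 : CauchySeq fun n => (u n).1 := by
    rw [Metric.cauchySeq_iff']
    intro ε hε
    obtain ⟨n₀, hn₀⟩ := hu (ε ^ p) (Real.rpow_pos_of_pos hε p)
    refine ⟨n₀, fun n hn => ?_⟩
    have h1 := hn₀ n hn n₀ le_rfl
    have h2 := (Real.rpow_lt_rpow_iff (nrm_nonneg p _) hε.le hp).mp h1
    exact lt_of_le_of_lt (fst_le_nrm hp hp1 (u n - u n₀)) h2
  have hc2 : CauchySeq fun n => (u n).2 := by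
    rw [Metric.cauchySeq_iff']
    intro ε hε
    obtain ⟨n₀, hn₀⟩ := hu (ε ^ p) (Real.rpow_pos_of_pos hε p)
    refine ⟨n₀, fun n hn => ?_⟩
    have h1 := hn₀ n hn n₀ le_rfl
    have h2 := (Real.rpow_lt_rpow_iff (nrm_nonneg p _) hε.le hp).mp h1
    exact lt_of_le_of_lt (snd_le_nrm hp hp1 (u n - u n₀)) h2
  obtain ⟨a, ha⟩ := cauchySeq_tendsto_of_complete hc1
  obtain ⟨b, hb⟩ := cauchySeq_tendsto_of_complete hc2
  refine ⟨(a, b), fun ε hε => ?_⟩
  have ha' : Tendsto (fun n => |(u n).2 - b| ^ p + |(u n).1 - a| ^ p) atTop (𝓝 0) := by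
    have h1 : Tendsto (fun n => |(u n).2 - b|) atTop (𝓝 0) := by
      have := (hb.sub_const b).abs
      simpa using this
    have h2 : Tendsto (fun n => |(u n).1 - a|) atTop (𝓝 0) := by
      have := (ha.sub_const a).abs
      simpa using this
    have h3 := (h1.rpow_const (p := p) (Or.inr hp.le)).add (h2.rpow_const (p := p) (Or.inr hp.le))
    simpa [Real.zero_rpow hp.ne'] using h3
  obtain ⟨n₀, hn₀⟩ := (ha'.eventually (gt_mem_nhds hε)).exists_forall_of_atTop
  refine ⟨n₀, fun n hn => lt_of_le_of_lt (nrm_rpow_le hp _ 0) ?_⟩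
  have h := hn₀ n hn
  unfold cost
  simp only [abs_zero, Real.zero_rpow hp.ne', zero_add, add_zero, sub_zero, Prod.fst_sub,
    Prod.snd_sub]
  exact h

/-- **Core estimate.** For `p` small there is no chain from `(1,0)` to `(0,1)` with small steps and
controlled distances to the three points `(1,0), (0,1), (0,0)`. -/
lemma core {p : ℝ} (hp : 0 < p) (hp1 : p ≤ 1) {ε K : ℝ} (hε : 0 < ε) (hε4 : ε < 1 / 4)
    (hsmall : K ^ p < 2 * (ε / 2) ^ p) (n : ℕ) (z : ℕ → ℝ × ℝ)
    (h0 : z 0 = (1, 0)) (hn : z n = (0, 1))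
    (ha : ∀ i ≤ n, nrm p (z i - (1, 0)) ≤ K) (hb : ∀ i ≤ n, nrm p (z i - (0, 1)) ≤ K)
    (hx : ∀ i ≤ n, nrm p (z i - (0, 0)) ≤ K)
    (hstep : ∀ i < n, nrm p (z i - z (i + 1)) < 1 - 4 * ε) : False := by
  have hnear : ∀ i ≤ n, |(z i).1| ≤ 2 * ε ∨ |(z i).1 - 1| ≤ 2 * ε := by
    intro i hi
    have A := near_dir hp hε hsmall _ (ha i hi)
    have B := near_dir hp hε hsmall _ (hb i hi)
    have O := near_dir hp hε hsmall _ (hx i hi)
    simp only [Prod.fst_sub, Prod.snd_sub, sub_zero] at A B O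
    rcases O with O | O | O
    · left; linarith
    · rcases B with B | B | B
      · left; linarith
      · exfalso
        rw [abs_le] at B O
        linarith [B.1, O.2]
      · right
        rw [abs_le] at B O ⊢
        constructor <;> linarith [B.1, B.2, O.1, O.2]
    · rcases A with A | A | A
      · right; linarith
      · left
        rw [abs_le] at A O ⊢
        constructor <;> linarith [A.1, A.2, O.1, O.2]
      · exfalso
        rw [abs_le] at A O
        linarith [A.1, O.2]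
  have hall : ∀ i ≤ n, |(z i).1 - 1| ≤ 2 * ε := by
    intro i
    induction i with
    | zero => intro _; rw [h0]; simp; linarith
    | succ i ih =>
      intro hi
      have h1 := ih (by omega)
      rcases hnear (i + 1) hi with h2 | h2
      · exfalso
        have h3 := hstep i (by omega)
        have h4 := fst_le_nrm hp hp1 (z i - z (i + 1))
        simp only [Prod.fst_sub] at h4
        rw [abs_le] at h1 h2
        have h5 := le_abs_self ((z i).1 - (z (i + 1)).1)
        linarith [h1.1, h2.2]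
      · exact h2
  have := hall n le_rfl
  rw [hn] at this
  simp at this
  linarith

/-- the smallness condition holds for small `p` -/
lemma small_eventually {ε K : ℝ} (hε : 0 < ε) (hK : 0 < K) :
    ∀ᶠ p : ℝ in 𝓝[>] 0, K ^ p < 2 * (ε / 2) ^ p := by
  have h1 : Tendsto (fun p : ℝ => 2 * (ε / 2) ^ p - K ^ p) (𝓝[>] 0) (𝓝 (2 * (ε / 2) ^ (0 : ℝ)
      - K ^ (0 : ℝ))) := by
    apply Tendsto.mono_left _ nhdsWithin_le_nhds
    have hc : Continuous fun p : ℝ => 2 * (ε / 2) ^ p - K ^ p := by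
      have a : Continuous fun p : ℝ => (ε / 2) ^ p :=
        Real.continuous_const_rpow (by positivity)
      have b : Continuous fun p : ℝ => K ^ p := Real.continuous_const_rpow hK.ne'
      exact (continuous_const.mul a).sub b
    exact hc.tendsto 0
  have h2 : (0 : ℝ) < 2 * (ε / 2) ^ (0 : ℝ) - K ^ (0 : ℝ) := by simp
  filter_upwards [h1.eventually (lt_mem_nhds h2)] with p hp
  linarith

/-! ### Lipschitz constants -/

lemma lipC_le_iff {Z : Type} [AddCommGroup Z] (nm : Z → ℝ) (hz : nm 0 = 0) {M : Type}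
    [MetricSpace M] (f : M → Z) {K : ℝ} (hK : 0 ≤ K) :
    lipC nm f ≤ ENNReal.ofReal K ↔ ∀ x y, nm (f x - f y) ≤ K * dist x y := by
  unfold lipC
  simp only [iSup_le_iff]
  constructor
  · intro h x y
    rcases eq_or_ne x y with rfl | hxy
    · simp [hz]
    · have h1 := h x y hxy
      rw [ENNReal.ofReal_le_ofReal_iff hK, div_le_iff₀ (dist_pos.mpr hxy)] at h1
      exact h1
  · intro h x y hxy
    apply ENNReal.ofReal_le_ofReal
    rw [div_le_iff₀ (dist_pos.mpr hxy)]
    exact h x y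

lemma pnorm_zero {p : ℝ} {Z : Type} [AddCommGroup Z] [Module ℝ Z] {nm : Z → ℝ}
    (h : IsPNorm p nm) : nm 0 = 0 := by
  have := h.smul 0 0
  simpa using this

lemma nrm_le_one {p : ℝ} (hp : 0 < p) (v : ℝ × ℝ) (u : ℝ) (h : cost p v u ≤ 1) :
    nrm p v ≤ 1 := by
  have h1 : nrm p v ^ p ≤ (1 : ℝ) ^ p := by
    rw [Real.one_rpow]; exact le_trans (nrm_rpow_le hp v u) h
  exact (Real.rpow_le_rpow_iff (nrm_nonneg p v) zero_le_one hp).mp h1

lemma nrm_10 {p : ℝ} (hp : 0 < p) : nrm p (1, 0) ≤ 1 :=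
  nrm_le_one hp _ 0 (by simp [cost, Real.zero_rpow hp.ne'])

lemma nrm_01 {p : ℝ} (hp : 0 < p) : nrm p (0, 1) ≤ 1 :=
  nrm_le_one hp _ 0 (by simp [cost, Real.zero_rpow hp.ne'])

lemma nrm_11 {p : ℝ} (hp : 0 < p) : nrm p (1, -1) ≤ 1 :=
  nrm_le_one hp _ 1 (by simp [cost, Real.zero_rpow hp.ne'])

lemma nrm_neg {p : ℝ} (hp : 0 < p) (hp1 : p ≤ 1) (v : ℝ × ℝ) : nrm p (-v) = nrm p v := by
  have := (isPNorm_nrm hp hp1).smul (-1) v
  simpa using this

lemma nrm_zero {p : ℝ} (hp : 0 < p) (hp1 : p ≤ 1) : nrm p 0 = 0 := pnorm_zero (isPNorm_nrm hp hp1)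

/-- lower bound for the trace of a three point set that has a fine chain between two points -/
lemma trace_lower {M : Type} [MetricSpace M] (a b x : M) (hab : 1 ≤ dist a b)
    (hax : 1 ≤ dist a x) (hbx : 1 ≤ dist b x) (n : ℕ) (hn0 : 0 < n) (y : ℕ → M) (hy0 : y 0 = a)
    (hyn : y n = b) (hstep : ∀ i < n, dist (y i) (y (i + 1)) ≤ 1 / n) (D : ℝ)
    (hDa : ∀ i ≤ n, dist (y i) a ≤ D) (hDb : ∀ i ≤ n, dist (y i) b ≤ D)
    (hDx : ∀ i ≤ n, dist (y i) x ≤ D) (c : ℝ) (hc0 : 0 < c) (hc : c < n) :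
    ∀ᶠ p : ℝ in 𝓝[>] 0, ENNReal.ofReal c ≤ trace p ({a, b, x} : Set M) := by
  classical
  have hn0' : (0 : ℝ) < n := by exact_mod_cast hn0
  have hne1 : a ≠ b := by intro h; rw [h, dist_self] at hab; linarith
  have hne2 : a ≠ x := by intro h; rw [h, dist_self] at hax; linarith
  have hne3 : b ≠ x := by intro h; rw [h, dist_self] at hbx; linarith
  set ε := (1 - c / n) / 8 with hε
  have hcn : c / n < 1 := by rw [div_lt_one hn0']; exact hc
  have hcn0 : 0 < c / n := by positivity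
  have hε0 : 0 < ε := by rw [hε]; linarith
  have hε4 : ε < 1 / 4 := by rw [hε]; linarith
  have hD : 1 ≤ D := le_trans hab (by have := hDb 0 (Nat.zero_le _); rwa [hy0] at this)
  have hK0 : 0 < c * D := by positivity
  filter_upwards [small_eventually hε0 hK0, self_mem_nhdsWithin,
    Ioc_mem_nhdsGT (show (0 : ℝ) < 1 by norm_num)] with p hsmall hp' hp1'
  have hp : 0 < p := hp'
  have hp1 : p ≤ 1 := hp1'.2
  apply le_sInf
  rintro C ⟨_, hC⟩
  by_contra hlt
  push Not at hlt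
  set F : M → ℝ × ℝ := fun z => if z = a then (1, 0) else if z = b then (0, 1) else (0, 0) with hF
  have hFa : F a = (1, 0) := by simp [hF]
  have hFb : F b = (0, 1) := by simp [hF, hne1.symm]
  have hFx : F x = (0, 0) := by simp [hF, hne2.symm, hne3.symm]
  set f : ({a, b, x} : Set M) → ℝ × ℝ := fun z => F z with hf
  have hPN := isPNorm_nrm hp hp1
  have hf1 : lipC (nrm p) f ≤ ENNReal.ofReal 1 := by
    rw [lipC_le_iff _ (nrm_zero hp hp1) _ zero_le_one]
    rintro ⟨u, hu⟩ ⟨v, hv⟩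
    rw [one_mul, Subtype.dist_eq]
    change nrm p (F u - F v) ≤ dist u v
    have e1 : ((1, 0) : ℝ × ℝ) - (0, 1) = (1, -1) := by simp
    have e2 : ((0, 1) : ℝ × ℝ) - (1, 0) = -(1, -1) := by simp
    have e3 : ((0, 0) : ℝ × ℝ) - (0, 1) = -(0, 1) := by simp
    have e4 : ((0, 0) : ℝ × ℝ) - (1, 0) = -(1, 0) := by simp
    have e5 : ((0, 1) : ℝ × ℝ) - (0, 0) = (0, 1) := by simp
    have e6 : ((1, 0) : ℝ × ℝ) - (0, 0) = (1, 0) := by simp
    have n1 := nrm_10 hp
    have n2 := nrm_01 hp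
    have n3 := nrm_11 hp
    have z0 := nrm_zero hp hp1
    simp only [mem_insert_iff, mem_singleton_iff] at hu hv
    rcases hu with rfl | rfl | rfl <;> rcases hv with rfl | rfl | rfl
    · simp [z0]
    · rw [hFa, hFb, e1]; linarith
    · rw [hFa, hFx, e6]; linarith
    · rw [hFa, hFb, e2, nrm_neg hp hp1, dist_comm]; linarith
    · simp [z0]
    · rw [hFb, hFx, e5]; linarith
    · rw [hFa, hFx, e4, nrm_neg hp hp1, dist_comm]; linarith
    · rw [hFx, hFb, e3, nrm_neg hp hp1, dist_comm]; linarith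
    · simp [z0]
  obtain ⟨g, hg, hgl⟩ := hC (ℝ × ℝ) (nrm p) hPN (complete_nrm hp hp1) f
    (lt_of_le_of_lt hf1 ENNReal.ofReal_lt_top)
  have hgl2 : lipC (nrm p) g ≤ ENNReal.ofReal c := by
    refine le_trans hgl ?_
    calc C * lipC (nrm p) f ≤ ENNReal.ofReal c * ENNReal.ofReal 1 := by gcongr
      _ = ENNReal.ofReal c := by simp
  rw [lipC_le_iff _ (nrm_zero hp hp1) _ hc0.le] at hgl2
  have hga : g a = (1, 0) := by
    have := hg ⟨a, by simp⟩
    rw [this]; exact hFa
  have hgb : g b = (0, 1) := by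
    have := hg ⟨b, by simp⟩
    rw [this]; exact hFb
  have hgx : g x = (0, 0) := by
    have := hg ⟨x, by simp⟩
    rw [this]; exact hFx
  apply core hp hp1 hε0 hε4 hsmall n (fun i => g (y i))
  · rw [hy0, hga]
  · rw [hyn, hgb]
  · intro i hi
    have := hgl2 (y i) a
    rw [hga] at this
    refine le_trans this ?_
    exact mul_le_mul_of_nonneg_left (hDa i hi) hc0.le
  · intro i hi
    have := hgl2 (y i) b
    rw [hgb] at this
    refine le_trans this ?_
    exact mul_le_mul_of_nonneg_left (hDb i hi) hc0.le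
  · intro i hi
    have := hgl2 (y i) x
    rw [hgx] at this
    refine le_trans this ?_
    exact mul_le_mul_of_nonneg_left (hDx i hi) hc0.le
  · intro i hi
    have h1 := hgl2 (y i) (y (i + 1))
    have h2 : c * dist (y i) (y (i + 1)) ≤ c * (1 / n) :=
      mul_le_mul_of_nonneg_left (hstep i hi) hc0.le
    have h3 : c * (1 / n) = c / n := by ring
    have h4 : c / n < 1 - 4 * ε := by rw [hε]; linarith
    linarith

/-! ### retractions of finite metric spaces (Basso's bound) -/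

section retract

variable {M : Type} [MetricSpace M]

lemma rtg_mono {α : Type} {r p : α → α → Prop} (h : ∀ a b, r a b → p a b) {x y : α}
    (hxy : Relation.ReflTransGen r x y) : Relation.ReflTransGen p x y := by
  induction hxy with
  | refl => exact Relation.ReflTransGen.refl
  | tail _ h2 ih => exact ih.tail (h _ _ h2)

lemma rtg_symm {α : Type} {r : α → α → Prop} (h : ∀ a b, r a b → r b a) {x y : α}
    (hxy : Relation.ReflTransGen r x y) : Relation.ReflTransGen r y x := by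
  induction hxy with
  | refl => exact Relation.ReflTransGen.refl
  | tail _ h2 ih => exact Relation.ReflTransGen.head (h _ _ h2) ih

/-- `p` and `b` are joined by a chain of points outside `V` with steps at most `ℓ` -/
def Conn (V : Finset M) (ℓ : ℝ) (p b : M) : Prop :=
  ∃ x y, x ∉ V ∧ y ∉ V ∧ dist p x ≤ ℓ ∧
    Relation.ReflTransGen (fun u v => u ∉ V ∧ v ∉ V ∧ dist u v ≤ ℓ) x y ∧ dist y b ≤ ℓ

lemma Conn.symm' {V : Finset M} {ℓ : ℝ} {p b : M} (h : Conn V ℓ p b) : Conn V ℓ b p := by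
  obtain ⟨x, y, hx, hy, h1, h2, h3⟩ := h
  refine ⟨y, x, hy, hx, by rwa [dist_comm], ?_, by rwa [dist_comm]⟩
  exact rtg_symm (fun u v h => ⟨h.2.1, h.1, by rw [dist_comm]; exact h.2.2⟩) h2

lemma Conn.mono' {V V' : Finset M} (hV : V ⊆ V') {ℓ : ℝ} {p b : M} (h : Conn V' ℓ p b) :
    Conn V ℓ p b := by
  obtain ⟨x, y, hx, hy, h1, h2, h3⟩ := h
  refine ⟨x, y, fun h => hx (hV h), fun h => hy (hV h), h1, ?_, h3⟩
  exact rtg_mono
    (fun u v h => ⟨fun h' => h.1 (hV h'), fun h' => h.2.1 (hV h'), h.2.2⟩) h2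

/-- the invariant of the greedy algorithm -/
structure Inv [DecidableEq M] (N V : Finset M) (r : M → M) (D : M → ℝ) (i : ℕ) : Prop where
  sub : N ⊆ V
  card : (V \ N).card = i
  mem : ∀ a ∈ V, r a ∈ N
  fix : ∀ a ∈ N, r a = a
  dst : ∀ a ∈ V, dist a (r a) ≤ D a
  lip : ∀ a ∈ V, ∀ b ∈ V, dist (r a) (r b) ≤ (i + 1) * dist a b
  inv : ∀ p ∈ V, ∀ b ∈ V, r p ≠ r b → ∀ ℓ, Conn V ℓ p b → D p + D b ≤ i * ℓ

lemma inv_step [DecidableEq M] [Fintype M] {N V : Finset M} {r : M → M} {D : M → ℝ} {i : ℕ}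
    (hN : N.Nonempty) (h : Inv N V r D i) (hV : V ≠ Finset.univ) :
    ∃ V' r' D', Inv N V' r' D' (i + 1) := by
  have hVc : Vᶜ.Nonempty := by
    rw [Finset.nonempty_iff_ne_empty]
    intro h0
    exact hV (by rwa [Finset.compl_eq_empty_iff] at h0)
  have hVn : V.Nonempty := hN.mono h.sub
  obtain ⟨⟨y, q⟩, hyq, hmin⟩ := (Vᶜ ×ˢ V).exists_min_image (fun z => dist z.1 z.2)
    (hVc.product hVn)
  rw [Finset.mem_product, Finset.mem_compl] at hyq
  have hy : y ∉ V := hyq.1
  have hq : q ∈ V := hyq.2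
  have hmin' : ∀ u ∉ V, ∀ v ∈ V, dist y q ≤ dist u v := by
    intro u hu v hv
    exact hmin (u, v) (by rw [Finset.mem_product, Finset.mem_compl]; exact ⟨hu, hv⟩)
  have hne : ∀ a ∈ V, a ≠ y := fun a ha h => hy (h ▸ ha)
  set r' := Function.update r y (r q) with hr'
  set D' := Function.update D y (dist y q + D q) with hD'
  have r'V : ∀ a ∈ V, r' a = r a := fun a ha => Function.update_of_ne (hne a ha) _ _
  have D'V : ∀ a ∈ V, D' a = D a := fun a ha => Function.update_of_ne (hne a ha) _ _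
  have r'y : r' y = r q := Function.update_self _ _ _
  have D'y : D' y = dist y q + D q := Function.update_self _ _ _
  have hi0 : (0 : ℝ) ≤ i := Nat.cast_nonneg _
  -- the new pair, Lipschitz bound
  have hlipy : ∀ b ∈ V, dist (r q) (r b) ≤ ((i : ℝ) + 1 + 1) * dist y b := by
    intro b hb
    by_cases hrb : r q = r b
    · rw [hrb, dist_self]; positivity
    · have hc : Conn V (dist y b) q b := by
        refine ⟨y, y, hy, hy, ?_, Relation.ReflTransGen.refl, le_rfl⟩
        rw [dist_comm]; exact hmin' y hy b hb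
      have h1 := h.inv q hq b hb hrb _ hc
      have h2 := h.dst q hq
      have h3 := h.dst b hb
      have h4 := hmin' y hy b hb
      have h5 : dist (r q) (r b) ≤ dist (r q) q + dist q y + dist y b + dist b (r b) := by
        have a1 := dist_triangle4 (r q) q y b
        have a2 := dist_triangle (r q) b (r b)
        linarith
      rw [dist_comm (r q) q, dist_comm q y] at h5
      nlinarith
  have hinvy : ∀ b ∈ V, r q ≠ r b → ∀ ℓ, Conn (insert y V) ℓ y b →
      (dist y q + D q) + D b ≤ ((i : ℝ) + 1) * ℓ := by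
    intro b hb hrb ℓ hc
    obtain ⟨x1, x2, hx1, hx2, h1, h2, h3⟩ := hc
    rw [Finset.mem_insert, not_or] at hx1 hx2
    have ht : dist y q ≤ ℓ := le_trans (hmin' x2 hx2.2 b hb) h3
    have hc' : Conn V ℓ q b := by
      refine ⟨y, x2, hy, hx2.2, by rwa [dist_comm], ?_, h3⟩
      refine Relation.ReflTransGen.head ⟨hy, hx1.2, h1⟩ ?_
      exact rtg_mono (fun u v h => ⟨fun h' => h.1 (Finset.mem_insert_of_mem h'),
        fun h' => h.2.1 (Finset.mem_insert_of_mem h'), h.2.2⟩) h2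
    have := h.inv q hq b hb hrb ℓ hc'
    linarith
  refine ⟨insert y V, r', D', ⟨h.sub.trans (Finset.subset_insert _ _), ?_, ?_, ?_, ?_, ?_, ?_⟩⟩
  · rw [Finset.insert_sdiff_of_notMem _ (fun hyN => hy (h.sub hyN)),
      Finset.card_insert_of_notMem (fun h' => hy (Finset.mem_sdiff.mp h').1), h.card]
  · intro a ha
    rcases Finset.mem_insert.mp ha with rfl | ha
    · rw [r'y]; exact h.mem q hq
    · rw [r'V a ha]; exact h.mem a ha
  · intro a ha
    rw [r'V a (h.sub ha)]; exact h.fix a ha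
  · intro a ha
    rcases Finset.mem_insert.mp ha with rfl | ha
    · rw [r'y, D'y]
      linarith [dist_triangle a q (r q), h.dst q hq]
    · rw [r'V a ha, D'V a ha]; exact h.dst a ha
  · intro a ha b hb
    push_cast
    rcases Finset.mem_insert.mp ha with rfl | ha <;> rcases Finset.mem_insert.mp hb with rfl | hb
    · rw [dist_self, dist_self]; simp
    · rw [r'y, r'V b hb]; exact hlipy b hb
    · rename_i ha'
      rw [r'y, r'V a ha', dist_comm, dist_comm a]; exact hlipy a ha'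
    · rw [r'V a ha, r'V b hb]
      have := h.lip a ha b hb
      have h0 : 0 ≤ dist a b := dist_nonneg
      linarith
  · intro p hp b hb hpb ℓ hc
    push_cast
    rcases Finset.mem_insert.mp hp with rfl | hp <;> rcases Finset.mem_insert.mp hb with rfl | hb
    · exact absurd rfl hpb
    · rw [r'y, r'V b hb] at hpb
      rw [D'y, D'V b hb]; exact hinvy b hb hpb ℓ hc
    · rename_i hp'
      rw [r'y, r'V p hp'] at hpb
      rw [D'y, D'V p hp', add_comm]; exact hinvy p hp' hpb.symm ℓ hc.symm'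
    · rw [r'V p hp, r'V b hb] at hpb
      rw [D'V p hp, D'V b hb]
      have h1 := h.inv p hp b hb hpb ℓ (hc.mono' (Finset.subset_insert _ _))
      have h2 : 0 ≤ ℓ := by
        obtain ⟨x, _, _, _, h3, _⟩ := hc
        exact le_trans dist_nonneg h3
      linarith

lemma exists_retraction [Fintype M] [DecidableEq M] (N : Finset M) (hN : N.Nonempty) :
    ∃ r : M → M, (∀ a, r a ∈ N) ∧ (∀ a ∈ N, r a = a) ∧
      ∀ a b, dist (r a) (r b) ≤ ((Nᶜ.card : ℝ) + 1) * dist a b := by
  have key : ∀ i ≤ Nᶜ.card, ∃ V r D, Inv (M := M) N V r D i := by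
    intro i
    induction i with
    | zero =>
      intro _
      refine ⟨N, id, fun _ => 0, ⟨subset_rfl, by simp, fun a ha => ha, fun a _ => rfl, ?_, ?_, ?_⟩⟩
      · intro a _; simp
      · intro a _ b _; simp
      · intro p _ b _ _ ℓ _; simp
    | succ i ih =>
      intro hi
      obtain ⟨V, r, D, h⟩ := ih (by omega)
      apply inv_step hN h
      rintro rfl
      have := h.card
      rw [← Finset.compl_eq_univ_sdiff] at this
      omega
  obtain ⟨V, r, D, h⟩ := key _ le_rfl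
  have hV : V = Finset.univ := by
    have h1 : V \ N ⊆ Nᶜ := by
      intro a ha
      rw [Finset.mem_compl]; exact (Finset.mem_sdiff.mp ha).2
    have h2 : V \ N = Nᶜ := Finset.eq_of_subset_of_card_le h1 (by rw [h.card])
    rw [Finset.eq_univ_iff_forall]
    intro a
    by_cases ha : a ∈ N
    · exact h.sub ha
    · have : a ∈ V \ N := by rw [h2, Finset.mem_compl]; exact ha
      exact (Finset.mem_sdiff.mp this).1
  subst hV
  exact ⟨r, fun a => h.mem a (Finset.mem_univ _), h.fix,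
    fun a b => h.lip a (Finset.mem_univ _) b (Finset.mem_univ _)⟩

lemma trace_le [Finite M] (p : ℝ) (N : Set M) (hN : N.Nonempty) :
    trace p N ≤ (Nᶜ.ncard : ℝ≥0∞) + 1 := by
  classical
  have : Fintype M := Fintype.ofFinite M
  obtain ⟨r, hr1, hr2, hr3⟩ := exists_retraction (M := M) N.toFinset (by simpa using hN)
  have hcard : (N.toFinset)ᶜ.card = Nᶜ.ncard := by
    rw [Set.ncard_eq_toFinset_card', Set.toFinset_compl]
  rw [hcard] at hr3
  apply sInf_le
  refine ⟨by positivity, ?_⟩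
  intro Z _ _ nm hnm _ f hf
  have hr1' : ∀ a, r a ∈ N := fun a => by simpa using hr1 a
  refine ⟨fun z => f ⟨r z, hr1' z⟩, ?_, ?_⟩
  · rintro ⟨x, hx⟩
    simp only
    congr 2
    exact hr2 x (by simpa using hx)
  · unfold lipC
    simp only [iSup_le_iff]
    intro x y hxy
    by_cases hrr : r x = r y
    · have e : f ⟨r x, hr1' x⟩ - f ⟨r y, hr1' y⟩ = 0 := by
        rw [sub_eq_zero]; congr 2
      rw [e, pnorm_zero hnm]; simp
    · have h1 : ENNReal.ofReal (nm (f ⟨r x, hr1' x⟩ - f ⟨r y, hr1' y⟩) / dist (r x) (r y)) ≤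
          lipC nm f := by
        have hne : (⟨r x, hr1' x⟩ : N) ≠ ⟨r y, hr1' y⟩ := by
          intro h; exact hrr (congrArg Subtype.val h)
        exact le_iSup_of_le (⟨r x, hr1' x⟩ : N) (le_iSup_of_le ⟨r y, hr1' y⟩
          (le_iSup_of_le hne (by rfl)))
      refine le_trans ?_ (mul_le_mul_right h1 _)
      have e : ((Nᶜ.ncard : ℝ≥0∞) + 1) = ENNReal.ofReal ((Nᶜ.ncard : ℝ) + 1) := by
        rw [ENNReal.ofReal_add (by positivity) zero_le_one]; simp
      rw [e, ← ENNReal.ofReal_mul (by positivity)]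
      apply ENNReal.ofReal_le_ofReal
      have d1 : 0 < dist (r x) (r y) := dist_pos.mpr hrr
      have d2 : 0 < dist x y := dist_pos.mpr hxy
      have h2 := hr3 x y
      have h3 := hnm.nonneg (f ⟨r x, hr1' x⟩ - f ⟨r y, hr1' y⟩)
      rw [← mul_div_assoc, div_le_div_iff₀ d2 d1]
      nlinarith

end retract

end Q96.PExt
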