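import Mathlib
import Pool.Agent.Q96.PExt

/-!
# The three-point space: absolute extendability constants blow up as p tends to 0
-/

set_option autoImplicit false

open Filter Topology Set
open scoped ENNReal

namespace Q96.PExt

/-- the three-point subspace `{(0,0), (1,0), (1/2, D)}` of the plane with the sup metric -/
def three (D : ℝ) : Set (ℝ × ℝ) := {(0, 0), (1, 0), (1 / 2, D)}

lemma dist_ab : dist ((0, 0) : ℝ × ℝ) (1, 0) = 1 := by
  simp [Prod.dist_eq]

lemma dist_line (t D : ℝ) (hD : 1 ≤ D) (h0 : 0 ≤ t) (h1 : t ≤ 1) :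
    dist ((t, 0) : ℝ × ℝ) (1 / 2, D) = D := by
  simp only [Prod.dist_eq, Real.dist_eq, zero_sub, abs_neg]
  rw [abs_of_pos (by linarith : (0 : ℝ) < D)]
  apply max_eq_right
  rw [abs_le]
  constructor <;> linarith

lemma dist_line_line (s t : ℝ) : dist ((s, 0) : ℝ × ℝ) (t, 0) = |s - t| := by
  simp [Prod.dist_eq, Real.dist_eq]

lemma abs_le_one_of (s t : ℝ) (hs : 0 ≤ s) (hs1 : s ≤ 1) (ht : 0 ≤ t) (ht1 : t ≤ 1) :
    |s - t| ≤ 1 := by
  rw [abs_le]; constructor <;> linarith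

lemma trace_plane (D : ℝ) (hD : 1 ≤ D) (c : ℝ) (hc : 0 < c) :
    ∀ᶠ p : ℝ in 𝓝[>] 0, ENNReal.ofReal c ≤ trace p (three D) := by
  obtain ⟨n, hn⟩ := exists_nat_gt c
  have hn0 : 0 < n := by
    have : (0 : ℝ) < n := lt_trans hc hn
    exact_mod_cast this
  have hn0' : (0 : ℝ) < n := by exact_mod_cast hn0
  have hin : ∀ i : ℕ, i ≤ n → (0 : ℝ) ≤ i / n ∧ (i : ℝ) / n ≤ 1 := by
    intro i hi
    refine ⟨by positivity, ?_⟩
    rw [div_le_one hn0']; exact_mod_cast hi
  have h := trace_lower (M := ℝ × ℝ) (0, 0) (1, 0) (1 / 2, D) (by rw [dist_ab])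
    (by rw [dist_line 0 D hD le_rfl zero_le_one]; exact hD)
    (by rw [dist_line 1 D hD zero_le_one le_rfl]; exact hD) n hn0 (fun i => ((i : ℝ) / n, 0))
    (by simp) (by simp [hn0'.ne']) ?_ D ?_ ?_ ?_ c hc hn
  · exact h
  · intro i _
    rw [dist_line_line]
    push_cast
    have : (i : ℝ) / n - (i + 1) / n = -(1 / n) := by ring
    rw [this, abs_neg, abs_of_pos (by positivity)]
  · intro i hi
    rw [dist_line_line]
    exact le_trans (abs_le_one_of _ _ (hin i hi).1 (hin i hi).2 le_rfl zero_le_one) hD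
  · intro i hi
    rw [dist_line_line]
    exact le_trans (abs_le_one_of _ _ (hin i hi).1 (hin i hi).2 zero_le_one le_rfl) hD
  · intro i hi
    rw [dist_line _ D hD (hin i hi).1 (hin i hi).2]

/-- the absolute `p`-extendability constant of the three-point space tends to infinity -/
theorem aext_three (D : ℝ) (hD : 1 ≤ D) :
    Tendsto (fun p => aext p (three D)) (𝓝[>] 0) (𝓝 ∞) := by
  rw [ENNReal.tendsto_nhds_top_iff_nat]
  intro n
  have h := trace_plane D hD ((n : ℝ) + 1) (by positivity)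
  filter_upwards [h] with p hp
  have h1 : trace p (three D) ≤ aext p (three D) := by
    unfold aext
    refine le_iSup_of_le (ℝ × ℝ) (le_iSup_of_le inferInstance (le_iSup_of_le Subtype.val
      (le_iSup_of_le isometry_subtype_coe ?_)))
    rw [Subtype.range_coe]
  refine lt_of_lt_of_le ?_ (le_trans hp h1)
  rw [ENNReal.ofReal_add (by positivity) zero_le_one]
  simp only [ENNReal.ofReal_natCast, ENNReal.ofReal_one]
  exact_mod_cast Nat.lt_succ_self n

lemma phi_lip {M : Type} [MetricSpace M] (a u v : M) :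
    |max 0 (1 - dist u a) - max 0 (1 - dist v a)| ≤ dist u v := by
  rw [max_comm, max_comm 0]
  refine le_trans (abs_max_sub_max_le_abs _ _ _) ?_
  · have : 1 - dist u a - (1 - dist v a) = dist v a - dist u a := by ring
    rw [this, dist_comm u v]
    exact abs_dist_sub_le v u a

/-- a bound for Banach targets, i.e. `p = 1` -/
lemma extBound_one {M : Type} [MetricSpace M] (a b x : M) (hab : 1 ≤ dist a b)
    (hax : 1 ≤ dist a x) (hbx : 1 ≤ dist b x) (D : ℝ) (hD0 : 0 ≤ D) (hDa : dist a x ≤ D)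
    (hDb : dist b x ≤ D) (N : Set M) (hN : N = {a, b, x}) :
    ExtBound 1 N (ENNReal.ofReal (2 * D)) := by
  intro Z _ _ nm hnm _ f hf
  have ha : a ∈ N := by rw [hN]; simp
  have hb : b ∈ N := by rw [hN]; simp
  have hx : x ∈ N := by rw [hN]; simp
  have z0 := pnorm_zero hnm
  set K := (lipC nm f).toReal with hK
  have hKf : lipC nm f = ENNReal.ofReal K := (ENNReal.ofReal_toReal hf.ne).symm
  have hK0 : 0 ≤ K := ENNReal.toReal_nonneg
  have hfK := (lipC_le_iff nm z0 f hK0).mp hKf.le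
  have hadd : ∀ z w, nm (z + w) ≤ nm z + nm w := by
    intro z w
    have := hnm.add z w
    simpa using this
  refine ⟨fun z => f ⟨x, hx⟩ + (max 0 (1 - dist z a)) • (f ⟨a, ha⟩ - f ⟨x, hx⟩) +
    (max 0 (1 - dist z b)) • (f ⟨b, hb⟩ - f ⟨x, hx⟩), ?_, ?_⟩
  · rintro ⟨z, hz⟩
    have hz' := hz
    rw [hN] at hz'
    simp only [mem_insert_iff, mem_singleton_iff] at hz'
    rcases hz' with rfl | rfl | rfl
    · simp [hab]
    · simp [dist_comm z a, hab]
    · simp [dist_comm z a, dist_comm z b, hax, hbx]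
  · rw [hKf, ← ENNReal.ofReal_mul (by positivity), lipC_le_iff nm z0 _ (by positivity)]
    intro u v
    have e : (f ⟨x, hx⟩ + (max 0 (1 - dist u a)) • (f ⟨a, ha⟩ - f ⟨x, hx⟩) +
        (max 0 (1 - dist u b)) • (f ⟨b, hb⟩ - f ⟨x, hx⟩)) -
        (f ⟨x, hx⟩ + (max 0 (1 - dist v a)) • (f ⟨a, ha⟩ - f ⟨x, hx⟩) +
        (max 0 (1 - dist v b)) • (f ⟨b, hb⟩ - f ⟨x, hx⟩)) =
        (max 0 (1 - dist u a) - max 0 (1 - dist v a)) • (f ⟨a, ha⟩ - f ⟨x, hx⟩) +
        (max 0 (1 - dist u b) - max 0 (1 - dist v b)) • (f ⟨b, hb⟩ - f ⟨x, hx⟩) := by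
      module
    rw [e]
    refine le_trans (hadd _ _) ?_
    rw [hnm.smul, hnm.smul]
    have h1 := phi_lip a u v
    have h2 := phi_lip b u v
    have h3 := hfK ⟨a, ha⟩ ⟨x, hx⟩
    have h4 := hfK ⟨b, hb⟩ ⟨x, hx⟩
    rw [Subtype.dist_eq] at h3 h4
    simp only at h3 h4
    have h5 : nm (f ⟨a, ha⟩ - f ⟨x, hx⟩) ≤ K * D :=
      le_trans h3 (mul_le_mul_of_nonneg_left hDa hK0)
    have h6 : nm (f ⟨b, hb⟩ - f ⟨x, hx⟩) ≤ K * D :=
      le_trans h4 (mul_le_mul_of_nonneg_left hDb hK0)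
    calc |max 0 (1 - dist u a) - max 0 (1 - dist v a)| * nm (f ⟨a, ha⟩ - f ⟨x, hx⟩) +
          |max 0 (1 - dist u b) - max 0 (1 - dist v b)| * nm (f ⟨b, hb⟩ - f ⟨x, hx⟩)
        ≤ dist u v * (K * D) + dist u v * (K * D) := by
          apply add_le_add
          · exact mul_le_mul h1 h5 (hnm.nonneg _) dist_nonneg
          · exact mul_le_mul h2 h6 (hnm.nonneg _) dist_nonneg
      _ = 2 * D * K * dist u v := by ring

lemma aext_one_three (D : ℝ) (hD : 1 ≤ D) : aext 1 (three D) ≤ ENNReal.ofReal (2 * D) := by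
  unfold aext
  simp only [iSup_le_iff]
  intro M _ ι hι
  apply sInf_le
  refine ⟨by rw [ENNReal.ofReal_pos]; linarith, ?_⟩
  set a : three D := ⟨(0, 0), by simp [three]⟩ with ha
  set b : three D := ⟨(1, 0), by simp [three]⟩ with hb
  set x : three D := ⟨(1 / 2, D), by simp [three]⟩ with hx
  have hab : dist a b = 1 := by rw [Subtype.dist_eq]; exact dist_ab
  have hax : dist a x = D := by
    rw [Subtype.dist_eq]; exact dist_line 0 D hD le_rfl zero_le_one
  have hbx : dist b x = D := by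
    rw [Subtype.dist_eq]; exact dist_line 1 D hD zero_le_one le_rfl
  apply extBound_one (ι a) (ι b) (ι x) (by rw [hι.dist_eq, hab]) (by rw [hι.dist_eq, hax]; exact hD)
    (by rw [hι.dist_eq, hbx]; exact hD) D (by linarith) (by rw [hι.dist_eq, hax])
    (by rw [hι.dist_eq, hbx])
  ext z
  constructor
  · rintro ⟨⟨y, hy⟩, rfl⟩
    have hy' := hy
    simp only [three, mem_insert_iff, mem_singleton_iff] at hy'
    rcases hy' with rfl | rfl | rfl
    · left; rfl
    · right; left; rfl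
    · right; right; rfl
  · rintro (rfl | rfl | rfl) <;> exact ⟨_, rfl⟩

end Q96.PExt
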