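import Mathlib
import Pool.Agent.Q96.Horn

/-!
# Plane domains between graphs
-/

set_option autoImplicit false

open MeasureTheory Set Filter Topology
open scoped NNReal

namespace Q96.PlaneDom

/-- the domain `{0 < x < 1, |y| < w x}` -/
def Reg (w : ℝ → ℝ) : Set (ℝ × ℝ) := {z | 0 < z.1 ∧ z.1 < 1 ∧ |z.2| < w z.1}

lemma isOpen_Reg {w : ℝ → ℝ} (hw : Continuous w) : IsOpen (Reg w) := by
  apply IsOpen.inter (isOpen_lt continuous_const continuous_fst)
  apply IsOpen.inter (isOpen_lt continuous_fst continuous_const)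
  exact isOpen_lt (continuous_snd.abs) (hw.comp continuous_fst)

lemma Reg_subset {w : ℝ → ℝ} (hw : Continuous w) :
    ∃ M : ℝ, Reg w ⊆ Icc (0 : ℝ) 1 ×ˢ Icc (-M) M := by
  obtain ⟨M, hM⟩ := (isCompact_Icc (a := (0 : ℝ)) (b := 1)).exists_bound_of_continuousOn
    hw.continuousOn
  refine ⟨M, ?_⟩
  rintro ⟨x, y⟩ ⟨h0, h1, hy⟩
  have h2 := hM x ⟨h0.le, h1.le⟩
  rw [Real.norm_eq_abs] at h2
  have h3 : |y| ≤ M := le_trans hy.le (le_trans (le_abs_self _) h2)
  exact ⟨⟨h0.le, h1.le⟩, abs_le.mp h3⟩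

lemma integrableOn_Reg {w : ℝ → ℝ} (hw : Continuous w) {G : ℝ × ℝ → ℝ} (hG : Continuous G) :
    IntegrableOn G (Reg w) := by
  obtain ⟨M, hM⟩ := Reg_subset hw
  exact (hG.continuousOn.integrableOn_compact (isCompact_Icc.prod isCompact_Icc)).mono_set hM

lemma region_integral {w : ℝ → ℝ} (hw : Continuous w) (hpos : ∀ x, 0 < w x) {G : ℝ × ℝ → ℝ}
    (hG : Continuous G) :
    ∫ z in Reg w, G z = ∫ x in (0 : ℝ)..1, (∫ s in (-1 : ℝ)..1, G (x, s * w x)) * w x := by
  have hmeas : MeasurableSet (Reg w) := (isOpen_Reg hw).measurableSet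
  have hint : Integrable (indicator (Reg w) G) (volume.prod volume) :=
    (integrable_indicator_iff hmeas).mpr (integrableOn_Reg hw hG)
  rw [← integral_indicator hmeas, Measure.volume_eq_prod, integral_prod _ hint]
  have h1 : ∀ x, ∫ y, indicator (Reg w) G (x, y) = indicator (Ioo 0 1)
      (fun x => (∫ s in (-1 : ℝ)..1, G (x, s * w x)) * w x) x := by
    intro x
    by_cases hx : x ∈ Ioo (0 : ℝ) 1
    · rw [indicator_of_mem hx]
      have h2 : (fun y => indicator (Reg w) G (x, y)) =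
          indicator (Ioo (-w x) (w x)) (fun y => G (x, y)) := by
        funext y
        by_cases hy : y ∈ Ioo (-w x) (w x)
        · rw [indicator_of_mem hy, indicator_of_mem (show (x, y) ∈ Reg w from
            ⟨hx.1, hx.2, abs_lt.mpr hy⟩)]
        · rw [indicator_of_notMem hy, indicator_of_notMem]
          rintro ⟨_, _, h⟩
          exact hy (abs_lt.mp h)
      rw [h2, integral_indicator measurableSet_Ioo, ← integral_Ioc_eq_integral_Ioo,
        ← intervalIntegral.integral_of_le (by linarith [hpos x])]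
      have h3 := intervalIntegral.integral_comp_mul_right (a := (-1 : ℝ)) (b := 1)
        (fun y => G (x, y)) (hpos x).ne'
      simp only [smul_eq_mul, neg_one_mul, one_mul] at h3
      rw [h3, mul_comm, ← mul_assoc, mul_inv_cancel₀ (hpos x).ne', one_mul]
    · rw [indicator_of_notMem hx]
      have h2 : (fun y => indicator (Reg w) G (x, y)) = fun _ => 0 := by
        funext y
        rw [indicator_of_notMem]
        rintro ⟨h3, h4, _⟩
        exact hx ⟨h3, h4⟩
      rw [h2]; simp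
  simp_rw [h1]
  rw [integral_indicator measurableSet_Ioo, ← integral_Ioc_eq_integral_Ioo,
    ← intervalIntegral.integral_of_le zero_le_one]

/-- a bounded Lipschitz domain of the plane: open, connected, bounded, and near every boundary
point, in the orthonormal frame `(a, b), (-b, a)`, the set above the graph of a Lipschitz function -/
def IsLipschitzDomain (Ω : Set (ℝ × ℝ)) : Prop :=
  IsOpen Ω ∧ IsConnected Ω ∧ Bornology.IsBounded Ω ∧ ∀ z₀ ∈ frontier Ω,
    ∃ (a b : ℝ) (K : ℝ≥0) (γ : ℝ → ℝ), a ^ 2 + b ^ 2 = 1 ∧ LipschitzWith K γ ∧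
      ∃ U ∈ 𝓝 z₀, ∀ z ∈ U, z ∈ Ω ↔ γ (-b * z.1 + a * z.2) < a * z.1 + b * z.2

lemma exists_graph (Φ : ℝ × ℝ → ℝ) (a b c : ℝ) (L : ℝ) (hab : a ^ 2 + b ^ 2 = 1) (hc : 0 < c)
    (hL : 0 ≤ L) (hlip : ∀ z z' : ℝ × ℝ, |Φ z - Φ z'| ≤ L * (|z.1 - z'.1| + |z.2 - z'.2|))
    (hinc : ∀ (z : ℝ × ℝ) (t : ℝ), 0 ≤ t → Φ z + c * t ≤ Φ (z.1 + t * a, z.2 + t * b)) :
    ∃ (K : ℝ≥0) (γ : ℝ → ℝ), LipschitzWith K γ ∧
      ∀ z : ℝ × ℝ, 0 < Φ z ↔ γ (-b * z.1 + a * z.2) < a * z.1 + b * z.2 := by
  have ha : |a| ≤ 1 := by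
    rw [← sq_le_one_iff_abs_le_one]; nlinarith [sq_nonneg b]
  have hb : |b| ≤ 1 := by
    rw [← sq_le_one_iff_abs_le_one]; nlinarith [sq_nonneg a]
  set P : ℝ → ℝ → ℝ × ℝ := fun τ σ => (a * σ - b * τ, b * σ + a * τ) with hP
  have hlin : ∀ τ σ t, 0 ≤ t → Φ (P τ σ) + c * t ≤ Φ (P τ (σ + t)) := by
    intro τ σ t ht
    have := hinc (P τ σ) t ht
    have e : ((P τ σ).1 + t * a, (P τ σ).2 + t * b) = P τ (σ + t) := by
      simp only [hP]; ext <;> simp <;> ring
    rwa [e] at this
  have hcont : ∀ τ, Continuous fun σ => Φ (P τ σ) := by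
    intro τ
    rw [Metric.continuous_iff]
    intro σ ε hε
    refine ⟨ε / (2 * L + 1), by positivity, fun σ' h => ?_⟩
    rw [Real.dist_eq] at h ⊢
    have h1 := hlip (P τ σ') (P τ σ)
    have h2 : |(P τ σ').1 - (P τ σ).1| ≤ |σ' - σ| := by
      have : (P τ σ').1 - (P τ σ).1 = a * (σ' - σ) := by simp only [hP]; ring
      rw [this, abs_mul]
      exact mul_le_of_le_one_left (abs_nonneg _) ha
    have h3 : |(P τ σ').2 - (P τ σ).2| ≤ |σ' - σ| := by
      have : (P τ σ').2 - (P τ σ).2 = b * (σ' - σ) := by simp only [hP]; ring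
      rw [this, abs_mul]
      exact mul_le_of_le_one_left (abs_nonneg _) hb
    rw [lt_div_iff₀ (by positivity)] at h
    have h4 : 0 ≤ |σ' - σ| := abs_nonneg _
    nlinarith
  have hsurj : ∀ τ, ∃ σ, Φ (P τ σ) = 0 := by
    intro τ
    apply (hcont τ).surjective
    · apply tendsto_atTop_mono' _ (f₁ := fun σ => Φ (P τ 0) + c * σ)
      · filter_upwards [eventually_ge_atTop 0] with σ hσ
        have := hlin τ 0 σ hσ
        rwa [zero_add] at this
      · exact tendsto_atTop_add_const_left _ _ (tendsto_id.const_mul_atTop hc)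
    · apply tendsto_atBot_mono' _ (f₁ := fun σ => Φ (P τ 0) + c * σ)
      · filter_upwards [eventually_le_atBot 0] with σ hσ
        have := hlin τ σ (-σ) (by linarith)
        rw [add_neg_cancel] at this
        linarith
      · exact tendsto_atBot_add_const_left _ _ (tendsto_id.const_mul_atBot hc)
  choose γ hγ using hsurj
  have hτ : ∀ τ τ', γ τ ≤ γ τ' → γ τ' - γ τ ≤ (2 * L / c) * |τ - τ'| := by
    intro τ τ' h
    have h1 := hlin τ' (γ τ) (γ τ' - γ τ) (by linarith)
    rw [add_sub_cancel, hγ] at h1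
    have h2 := hlip (P τ (γ τ)) (P τ' (γ τ))
    rw [hγ, zero_sub, abs_neg] at h2
    have h3 : |(P τ (γ τ)).1 - (P τ' (γ τ)).1| ≤ |τ - τ'| := by
      have : (P τ (γ τ)).1 - (P τ' (γ τ)).1 = -(b * (τ - τ')) := by simp only [hP]; ring
      rw [this, abs_neg, abs_mul]
      exact mul_le_of_le_one_left (abs_nonneg _) hb
    have h4 : |(P τ (γ τ)).2 - (P τ' (γ τ)).2| ≤ |τ - τ'| := by
      have : (P τ (γ τ)).2 - (P τ' (γ τ)).2 = a * (τ - τ') := by simp only [hP]; ring
      rw [this, abs_mul]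
      exact mul_le_of_le_one_left (abs_nonneg _) ha
    have h5 : c * (γ τ' - γ τ) ≤ 2 * L * |τ - τ'| := by
      have h6 := neg_abs_le (Φ (P τ' (γ τ)))
      nlinarith
    rw [div_mul_eq_mul_div, le_div_iff₀ hc]
    linarith
  refine ⟨Real.toNNReal (2 * L / c), γ, ?_, ?_⟩
  · apply LipschitzWith.of_dist_le_mul
    intro τ τ'
    rw [Real.dist_eq, Real.dist_eq, Real.coe_toNNReal _ (by positivity)]
    rcases le_total (γ τ) (γ τ') with h | h
    · rw [abs_sub_comm, abs_of_nonneg (by linarith)]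
      exact hτ τ τ' h
    · rw [abs_of_nonneg (by linarith), abs_sub_comm]
      exact hτ τ' τ h
  · intro z
    set τ := -b * z.1 + a * z.2 with hτd
    set σ := a * z.1 + b * z.2 with hσd
    have hz : P τ σ = z := by
      simp only [hP, hτd, hσd]
      ext
      · simp only
        have : a * (a * z.1 + b * z.2) - b * (-b * z.1 + a * z.2) = (a ^ 2 + b ^ 2) * z.1 := by
          ring
        rw [this, hab, one_mul]
      · simp only
        have : b * (a * z.1 + b * z.2) + a * (-b * z.1 + a * z.2) = (a ^ 2 + b ^ 2) * z.2 := by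
          ring
        rw [this, hab, one_mul]
    constructor
    · intro h
      by_contra hcon
      have h1 := hlin τ σ (γ τ - σ) (by linarith [not_lt.mp hcon])
      rw [add_sub_cancel, hγ, hz] at h1
      have := not_lt.mp hcon
      nlinarith
    · intro h
      have h1 := hlin τ (γ τ) (σ - γ τ) (by linarith)
      rw [add_sub_cancel, hγ, hz] at h1
      have : 0 < c * (σ - γ τ) := mul_pos hc (by linarith)
      linarith

theorem reg_lipschitz {w : ℝ → ℝ} (hlip : ∀ x y, |w x - w y| ≤ (1 / 2) * |x - y|)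
    (hpos : ∀ x, 0 < w x) : IsLipschitzDomain (Reg w) := by
  have hw : Continuous w := by
    rw [Metric.continuous_iff]
    intro x ε hε
    refine ⟨ε, hε, fun y h => ?_⟩
    rw [Real.dist_eq] at h ⊢
    have := hlip y x
    linarith [abs_nonneg (y - x)]
  refine ⟨isOpen_Reg hw, ?_, ?_, ?_⟩
  · have h1 : Reg w = (fun z : ℝ × ℝ => ((z.1, z.2 * w z.1) : ℝ × ℝ)) ''
        (Ioo (0 : ℝ) 1 ×ˢ Ioo (-1 : ℝ) 1) := by
      ext ⟨x, y⟩
      constructor
      · rintro ⟨h0, h1, hy⟩
        simp only at h0 h1 hy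
        refine ⟨(x, y / w x), ⟨⟨h0, h1⟩, ?_⟩, ?_⟩
        · rw [abs_lt] at hy
          constructor
          · rw [lt_div_iff₀ (hpos x)]; linarith
          · rw [div_lt_iff₀ (hpos x)]; linarith
        · simp only
          rw [div_mul_cancel₀ _ (hpos x).ne']
      · rintro ⟨⟨x', s⟩, ⟨⟨h0, h1⟩, h2, h3⟩, h4⟩
        simp only [Prod.mk.injEq] at h4 h0 h1 h2 h3
        obtain ⟨rfl, rfl⟩ := h4
        refine ⟨h0, h1, ?_⟩
        simp only
        rw [abs_mul, abs_of_pos (hpos x')]
        have : |s| < 1 := abs_lt.mpr ⟨h2, h3⟩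
        have h5 := hpos x'
        nlinarith
    rw [h1]
    apply IsConnected.image
    · exact (isConnected_Ioo (by norm_num)).prod (isConnected_Ioo (by norm_num))
    · apply Continuous.continuousOn
      fun_prop
  · obtain ⟨M, hM⟩ := Reg_subset hw
    exact ((isCompact_Icc.prod isCompact_Icc).isBounded).subset hM
  · intro z₀ _
    -- signs
    set s1 : ℝ := if z₀.1 ≤ 1 / 2 then 1 else -1 with hs1
    set s2 : ℝ := if 0 ≤ z₀.2 then -1 else 1 with hs2
    have hs1' : s1 = 1 ∨ s1 = -1 := by rw [hs1]; split_ifs <;> simp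
    have hs2' : s2 = 1 ∨ s2 = -1 := by rw [hs2]; split_ifs <;> simp
    set q : ℝ := Real.sqrt 2 / 2 with hq
    have hq2 : q ^ 2 = 1 / 2 := by
      rw [hq, div_pow, Real.sq_sqrt (by norm_num)]; norm_num
    have hqpos : 0 < q := by rw [hq]; positivity
    set Φ : ℝ × ℝ → ℝ := fun z => min ((1 - s1) / 2 + s1 * z.1) (w z.1 + s2 * z.2) with hΦ
    have habs1 : |s1| = 1 := by rcases hs1' with h | h <;> rw [h] <;> simp
    have habs2 : |s2| = 1 := by rcases hs2' with h | h <;> rw [h] <;> simp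
    have hs11 : s1 * s1 = 1 := by rcases hs1' with h | h <;> rw [h] <;> norm_num
    have hs22 : s2 * s2 = 1 := by rcases hs2' with h | h <;> rw [h] <;> norm_num
    obtain ⟨K, γ, hK, hγ⟩ := exists_graph Φ (s1 * q) (s2 * q) (q / 2) 1 (by
      rw [mul_pow, mul_pow, sq s1, sq s2, hs11, hs22, hq2]; norm_num) (by positivity)
      zero_le_one (by
      intro z z'
      simp only [hΦ]
      refine le_trans (abs_min_sub_min_le_max _ _ _ _) ?_
      rw [one_mul]
      apply max_le
      · have : (1 - s1) / 2 + s1 * z.1 - ((1 - s1) / 2 + s1 * z'.1) = s1 * (z.1 - z'.1) := by ring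
        rw [this, abs_mul, habs1, one_mul]
        linarith [abs_nonneg (z.2 - z'.2)]
      · have : w z.1 + s2 * z.2 - (w z'.1 + s2 * z'.2) = (w z.1 - w z'.1) +
            s2 * (z.2 - z'.2) := by ring
        rw [this]
        refine le_trans (abs_add_le _ _) ?_
        rw [abs_mul, habs2, one_mul]
        have := hlip z.1 z'.1
        linarith [abs_nonneg (z.1 - z'.1)]) (by
      intro z t ht
      simp only [hΦ]
      apply le_min
      · have h1 : (1 - s1) / 2 + s1 * (z.1 + t * (s1 * q)) = ((1 - s1) / 2 + s1 * z.1) +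
            (s1 * s1) * (t * q) := by ring
        rw [h1, hs11, one_mul]
        have h2 := min_le_left ((1 - s1) / 2 + s1 * z.1) (w z.1 + s2 * z.2)
        have : 0 ≤ t * q := by positivity
        linarith
      · have h1 : w (z.1 + t * (s1 * q)) + s2 * (z.2 + t * (s2 * q)) =
            (w z.1 + s2 * z.2) + (w (z.1 + t * (s1 * q)) - w z.1) + (s2 * s2) * (t * q) := by ring
        rw [h1, hs22, one_mul]
        have h2 := min_le_right ((1 - s1) / 2 + s1 * z.1) (w z.1 + s2 * z.2)
        have h3 := hlip (z.1 + t * (s1 * q)) z.1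
        rw [add_sub_cancel_left, abs_mul, abs_mul, habs1, abs_of_nonneg ht,
          abs_of_pos hqpos] at h3
        have h4 := neg_abs_le (w (z.1 + t * (s1 * q)) - w z.1)
        nlinarith)
    refine ⟨s1 * q, s2 * q, K, γ, ?_, hK, ?_⟩
    · rw [mul_pow, mul_pow, sq s1, sq s2, hs11, hs22, hq2]; norm_num
    · -- the neighbourhood
      have hU1 : {z : ℝ × ℝ | 0 < (1 + s1) / 2 - s1 * z.1} ∈ 𝓝 z₀ := by
        apply (isOpen_lt continuous_const (by fun_prop)).mem_nhds
        change 0 < (1 + s1) / 2 - s1 * z₀.1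
        rw [hs1]
        split_ifs with h
        · linarith
        · linarith [not_le.mp h]
      have hU2 : {z : ℝ × ℝ | 0 < w z.1 - s2 * z.2} ∈ 𝓝 z₀ := by
        apply (isOpen_lt continuous_const (by fun_prop)).mem_nhds
        change 0 < w z₀.1 - s2 * z₀.2
        have := hpos z₀.1
        rw [hs2]
        split_ifs with h
        · linarith
        · linarith [not_le.mp h]
      refine ⟨_, inter_mem hU1 hU2, ?_⟩
      rintro z ⟨hz1, hz2⟩
      rw [← hγ z]
      simp only [mem_setOf_eq] at hz1 hz2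
      simp only [hΦ, lt_min_iff]
      unfold Reg
      rw [mem_setOf_eq, abs_lt]
      rcases hs1' with h1 | h1 <;> rcases hs2' with h2 | h2 <;> rw [h1] at hz1 ⊢ <;>
        rw [h2] at hz2 ⊢
      all_goals
        constructor
        · rintro ⟨h3, h4, h5, h6⟩
          constructor <;> linarith
        · rintro ⟨h3, h4⟩
          refine ⟨?_, ?_, ?_, ?_⟩ <;> linarith

end Q96.PlaneDom
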