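import Mathlib

/-!
# Quotients of `ℓ_p` (`0 < p < 1`) by sparse relations have the Schur `p`-property
-/

set_option autoImplicit false

open Filter Topology

namespace Q96.SchurP

section defs

variable {𝕜 : Type} [RCLike 𝕜] {Γ : Type}

/-- `S p v = ∑ |v i|^p` -/
noncomputable def S (p : ℝ) (v : Γ →₀ 𝕜) : ℝ := ∑ i ∈ v.support, ‖v i‖ ^ p

variable {p : ℝ}

lemma S_eq (hp : 0 < p) (v : Γ →₀ 𝕜) (s : Finset Γ) (h : v.support ⊆ s) :
    S p v = ∑ i ∈ s, ‖v i‖ ^ p := by
  unfold S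
  apply Finset.sum_subset h
  intro i _ hi
  rw [Finsupp.notMem_support_iff.mp hi, norm_zero, Real.zero_rpow hp.ne']

lemma S_nonneg (v : Γ →₀ 𝕜) : 0 ≤ S p v :=
  Finset.sum_nonneg fun _ _ => Real.rpow_nonneg (norm_nonneg _) _

lemma rpow_add_le (hp : 0 < p) (hp1 : p < 1) {a b : ℝ} (ha : 0 ≤ a) (hb : 0 ≤ b) :
    (a + b) ^ p ≤ a ^ p + b ^ p := by
  have := NNReal.rpow_add_le_add_rpow (p := p) ⟨a, ha⟩ ⟨b, hb⟩ hp.le hp1.le
  exact_mod_cast this

lemma norm_rpow_add_le (hp : 0 < p) (hp1 : p < 1) (a b : 𝕜) :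
    ‖a + b‖ ^ p ≤ ‖a‖ ^ p + ‖b‖ ^ p :=
  le_trans (Real.rpow_le_rpow (norm_nonneg _) (norm_add_le _ _) hp.le)
    (rpow_add_le hp hp1 (norm_nonneg _) (norm_nonneg _))

lemma S_add_le (hp : 0 < p) (hp1 : p < 1) (v w : Γ →₀ 𝕜) : S p (v + w) ≤ S p v + S p w := by
  classical
  set s := v.support ∪ w.support ∪ (v + w).support with hs
  rw [S_eq hp v s (Finset.subset_union_left.trans Finset.subset_union_left),
    S_eq hp w s (Finset.subset_union_right.trans Finset.subset_union_left),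
    S_eq hp (v + w) s Finset.subset_union_right, ← Finset.sum_add_distrib]
  exact Finset.sum_le_sum fun i _ => norm_rpow_add_le hp hp1 _ _

lemma S_neg (v : Γ →₀ 𝕜) : S p (-v) = S p v := by
  unfold S
  rw [Finsupp.support_neg]
  apply Finset.sum_congr rfl
  intro i _
  rw [Finsupp.neg_apply, norm_neg]

lemma S_sub_le (hp : 0 < p) (hp1 : p < 1) (v w : Γ →₀ 𝕜) : S p (v - w) ≤ S p v + S p w := by
  rw [sub_eq_add_neg, ← S_neg w]
  exact S_add_le hp hp1 _ _

lemma S_zero : S p (0 : Γ →₀ 𝕜) = 0 := by simp [S]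

lemma S_smul (hp : 0 < p) (a : 𝕜) (v : Γ →₀ 𝕜) : S p (a • v) = ‖a‖ ^ p * S p v := by
  rw [S_eq hp (a • v) v.support Finsupp.support_smul]
  unfold S
  rw [Finset.mul_sum]
  apply Finset.sum_congr rfl
  intro i _
  rw [Finsupp.smul_apply, smul_eq_mul, norm_mul, Real.mul_rpow (norm_nonneg _) (norm_nonneg _)]

lemma S_add_disj (hp : 0 < p) (v w : Γ →₀ 𝕜) (h : Disjoint v.support w.support) :
    S p (v + w) = S p v + S p w := by
  classical
  rw [S_eq hp (v + w) (v.support ∪ w.support) Finsupp.support_add, Finset.sum_union h]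
  congr 1
  · apply Finset.sum_congr rfl
    intro i hi
    rw [Finsupp.add_apply, Finsupp.notMem_support_iff.mp (Finset.disjoint_left.mp h hi), add_zero]
  · apply Finset.sum_congr rfl
    intro i hi
    rw [Finsupp.add_apply, Finsupp.notMem_support_iff.mp (Finset.disjoint_right.mp h hi), zero_add]

lemma S_sum_le (hp : 0 < p) (hp1 : p < 1) {ι : Type} (s : Finset ι) (v : ι → (Γ →₀ 𝕜)) :
    S p (∑ n ∈ s, v n) ≤ ∑ n ∈ s, S p (v n) := by
  classical
  induction s using Finset.induction_on with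
  | empty => simp [S_zero]
  | insert a s ha ih =>
    rw [Finset.sum_insert ha, Finset.sum_insert ha]
    exact le_trans (S_add_le hp hp1 _ _) (by linarith)

lemma S_sum_disj (hp : 0 < p) {ι : Type} (s : Finset ι) (v : ι → (Γ →₀ 𝕜))
    (h : ∀ m ∈ s, ∀ n ∈ s, m ≠ n → Disjoint (v m).support (v n).support) :
    S p (∑ n ∈ s, v n) = ∑ n ∈ s, S p (v n) := by
  classical
  induction s using Finset.induction_on with
  | empty => simp [S_zero]
  | insert a s ha ih =>
    rw [Finset.sum_insert ha, Finset.sum_insert ha, S_add_disj hp, ih]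
    · intro m hm n hn hmn
      exact h m (Finset.mem_insert_of_mem hm) n (Finset.mem_insert_of_mem hn) hmn
    · rw [Finset.disjoint_right]
      intro i hi
      have := Finsupp.support_finset_sum hi
      rw [Finset.mem_biUnion] at this
      obtain ⟨n, hn, hi⟩ := this
      exact Finset.disjoint_right.mp (h a (Finset.mem_insert_self _ _) n
        (Finset.mem_insert_of_mem hn) (by rintro rfl; exact ha hn)) hi

end defs

/-- the data defining the quotient: relations `u n - g n` -/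
structure Data (𝕜 : Type) [RCLike 𝕜] (Γ : Type) where
  p : ℝ
  hp : 0 < p
  hp1 : p < 1
  u : ℕ → (Γ →₀ 𝕜)
  g : ℕ → (Γ →₀ 𝕜)
  T : ℕ → Finset Γ
  e : ℕ → ℝ
  hdisj : ∀ m n, m ≠ n → Disjoint (g m).support (g n).support
  hT : Monotone T
  hTc : ∀ i, ∃ k, i ∈ T k
  hu : ∀ n k, n < k → (u n).support ⊆ T k
  hg : ∀ n k, n < k → (g n).support ⊆ T k
  hg' : ∀ n k, k ≤ n → Disjoint (g n).support (T k)
  he : Tendsto e atTop (𝓝 0)
  he0 : ∀ n, 0 ≤ e n
  he1 : ∀ n, e n ≤ 1 / 2
  hea : Antitone e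
  hS : ∀ n, S p (u n) ≤ e n * S p (g n)

section

variable {𝕜 : Type} [RCLike 𝕜] {Γ : Type} (D : Data 𝕜 Γ)

namespace Data

/-- the combination of the relations with coefficients `c` -/
noncomputable def R (c : ℕ →₀ 𝕜) : Γ →₀ 𝕜 := ∑ n ∈ c.support, c n • (D.u n - D.g n)

lemma R_eq (c : ℕ →₀ 𝕜) (s : Finset ℕ) (h : c.support ⊆ s) :
    D.R c = ∑ n ∈ s, c n • (D.u n - D.g n) := by
  unfold R
  apply Finset.sum_subset h
  intro n _ hn
  rw [Finsupp.notMem_support_iff.mp hn, zero_smul]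

lemma R_add (c d : ℕ →₀ 𝕜) : D.R (c + d) = D.R c + D.R d := by
  classical
  set s := c.support ∪ d.support ∪ (c + d).support with hs
  rw [D.R_eq c s (Finset.subset_union_left.trans Finset.subset_union_left),
    D.R_eq d s (Finset.subset_union_right.trans Finset.subset_union_left),
    D.R_eq (c + d) s Finset.subset_union_right, ← Finset.sum_add_distrib]
  apply Finset.sum_congr rfl
  intro n _
  rw [Finsupp.add_apply, add_smul]

lemma R_smul (a : 𝕜) (c : ℕ →₀ 𝕜) : D.R (a • c) = a • D.R c := by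
  rw [D.R_eq (a • c) c.support Finsupp.support_smul]
  unfold R
  rw [Finset.smul_sum]
  apply Finset.sum_congr rfl
  intro n _
  rw [Finsupp.smul_apply, smul_assoc]

lemma R_neg (c : ℕ →₀ 𝕜) : D.R (-c) = -D.R c := by
  have := D.R_smul (-1) c
  simpa using this

lemma R_zero : D.R 0 = 0 := by simp [R]

/-- the quotient `p`-norm, to the power `p` -/
noncomputable def rho (v : Γ →₀ 𝕜) : ℝ := ⨅ c : ℕ →₀ 𝕜, S D.p (v - D.R c)

lemma rho_bdd (v : Γ →₀ 𝕜) : BddBelow (Set.range fun c : ℕ →₀ 𝕜 => S D.p (v - D.R c)) :=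
  ⟨0, by rintro _ ⟨c, rfl⟩; exact S_nonneg _⟩

lemma rho_le (v : Γ →₀ 𝕜) (c : ℕ →₀ 𝕜) : D.rho v ≤ S D.p (v - D.R c) := ciInf_le (D.rho_bdd v) c

lemma rho_le_S (v : Γ →₀ 𝕜) : D.rho v ≤ S D.p v := by
  have := D.rho_le v 0
  rwa [D.R_zero, sub_zero] at this

lemma rho_nonneg (v : Γ →₀ 𝕜) : 0 ≤ D.rho v := Real.iInf_nonneg fun _ => S_nonneg _

lemma le_rho (v : Γ →₀ 𝕜) (b : ℝ) (h : ∀ c, b ≤ S D.p (v - D.R c)) : b ≤ D.rho v := le_ciInf h

lemma exists_lt (v : Γ →₀ 𝕜) {b : ℝ} (h : D.rho v < b) : ∃ c, S D.p (v - D.R c) < b :=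
  exists_lt_of_ciInf_lt h

lemma rho_zero : D.rho 0 = 0 :=
  le_antisymm (by have := D.rho_le_S 0; rwa [S_zero] at this) (D.rho_nonneg _)

lemma rho_add_le (v w : Γ →₀ 𝕜) : D.rho (v + w) ≤ D.rho v + D.rho w := by
  apply le_of_forall_pos_le_add
  intro ε hε
  obtain ⟨c, hc⟩ := D.exists_lt v (show D.rho v < D.rho v + ε / 2 by linarith)
  obtain ⟨d, hd⟩ := D.exists_lt w (show D.rho w < D.rho w + ε / 2 by linarith)
  have h1 := D.rho_le (v + w) (c + d)
  have h2 : v + w - D.R (c + d) = (v - D.R c) + (w - D.R d) := by rw [D.R_add]; abel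
  rw [h2] at h1
  have h3 := S_add_le D.hp D.hp1 (v - D.R c) (w - D.R d)
  linarith

lemma rho_neg (v : Γ →₀ 𝕜) : D.rho (-v) = D.rho v := by
  have key : ∀ v, D.rho (-v) ≤ D.rho v := by
    intro v
    apply D.le_rho
    intro c
    have h1 := D.rho_le (-v) (-c)
    have h2 : -v - D.R (-c) = -(v - D.R c) := by rw [D.R_neg]; abel
    rwa [h2, S_neg] at h1
  apply le_antisymm (key v)
  have := key (-v)
  rwa [neg_neg] at this

lemma rho_smul (a : 𝕜) (v : Γ →₀ 𝕜) : D.rho (a • v) = ‖a‖ ^ D.p * D.rho v := by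
  by_cases ha : a = 0
  · rw [ha, zero_smul, D.rho_zero, norm_zero, Real.zero_rpow D.hp.ne', zero_mul]
  have key : ∀ (a : 𝕜) (v : Γ →₀ 𝕜), a ≠ 0 → ‖a‖ ^ D.p * D.rho v ≤ D.rho (a • v) := by
    intro a v ha
    have hpos : 0 < ‖a‖ ^ D.p := Real.rpow_pos_of_pos (norm_pos_iff.mpr ha) _
    apply D.le_rho
    intro c
    have h1 := D.rho_le v (a⁻¹ • c)
    have h2 : a • v - D.R c = a • (v - D.R (a⁻¹ • c)) := by
      rw [D.R_smul, smul_sub, smul_inv_smul₀ ha]
    rw [h2, S_smul D.hp]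
    exact mul_le_mul_of_nonneg_left h1 hpos.le
  apply le_antisymm _ (key a v ha)
  have h1 := key a⁻¹ (a • v) (inv_ne_zero ha)
  rw [inv_smul_smul₀ ha, norm_inv, Real.inv_rpow (norm_nonneg _)] at h1
  have hpos : 0 < ‖a‖ ^ D.p := Real.rpow_pos_of_pos (norm_pos_iff.mpr ha) _
  rwa [inv_mul_le_iff₀ hpos] at h1

lemma rho_sub_le (v w : Γ →₀ 𝕜) : D.rho (v - w) ≤ D.rho v + D.rho w := by
  rw [sub_eq_add_neg, ← D.rho_neg w]; exact D.rho_add_le _ _

lemma rho_sub_R (v : Γ →₀ 𝕜) (c : ℕ →₀ 𝕜) : D.rho (v - D.R c) = D.rho v := by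
  have h0 : ∀ c, D.rho (D.R c) = 0 := by
    intro c
    apply le_antisymm _ (D.rho_nonneg _)
    have := D.rho_le (D.R c) c
    rwa [sub_self, S_zero] at this
  apply le_antisymm
  · have := D.rho_sub_le v (D.R c)
    rw [h0] at this; linarith
  · have := D.rho_add_le (v - D.R c) (D.R c)
    rw [sub_add_cancel, h0] at this; linarith

/-- the pre-space -/
def Pre (_ : Data 𝕜 Γ) : Type := Γ →₀ 𝕜

noncomputable instance : AddCommGroup (Pre D) := inferInstanceAs (AddCommGroup (Γ →₀ 𝕜))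

noncomputable instance : Module 𝕜 (Pre D) := inferInstanceAs (Module 𝕜 (Γ →₀ 𝕜))

/-- the group seminorm `rho` -/
noncomputable def semi : AddGroupSeminorm (Pre D) where
  toFun := fun v => D.rho (show Γ →₀ 𝕜 from v)
  map_zero' := D.rho_zero
  add_le' := fun v w => D.rho_add_le v w
  neg' := fun v => D.rho_neg v

noncomputable instance : SeminormedAddCommGroup (Pre D) := D.semi.toSeminormedAddCommGroup

lemma norm_pre (v : Pre D) : ‖v‖ = D.rho (show Γ →₀ 𝕜 from v) := rfl

lemma norm_smul_pre (a : 𝕜) (v : Pre D) : ‖a • v‖ = ‖a‖ ^ D.p * ‖v‖ := D.rho_smul a v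

instance : UniformContinuousConstSMul 𝕜 (Pre D) where
  uniformContinuous_const_smul a := by
    have h : LipschitzWith (Real.toNNReal (‖a‖ ^ D.p)) (fun v : Pre D => a • v) := by
      apply LipschitzWith.of_dist_le_mul
      intro v w
      rw [dist_eq_norm, dist_eq_norm, ← smul_sub, D.norm_smul_pre,
        Real.coe_toNNReal _ (Real.rpow_nonneg (norm_nonneg _) _)]
    exact h.uniformContinuous

/-- the space: a complete `p`-normed space -/
abbrev Sp : Type := UniformSpace.Completion (Pre D)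

lemma norm_smul_sp (a : 𝕜) (x : D.Sp) : ‖a • x‖ = ‖a‖ ^ D.p * ‖x‖ := by
  induction x using UniformSpace.Completion.induction_on with
  | hp =>
    apply isClosed_eq
    · exact (continuous_const_smul a).norm
    · exact continuous_const.mul continuous_norm
  | ih v =>
    rw [← UniformSpace.Completion.coe_smul, UniformSpace.Completion.norm_coe,
      UniformSpace.Completion.norm_coe, D.norm_smul_pre]

/-- reinterpretation -/
def toPre (v : Γ →₀ 𝕜) : Pre D := v

/-- the canonical map -/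
noncomputable def q (v : Γ →₀ 𝕜) : D.Sp := @UniformSpace.Completion.coe' (Pre D) _ (D.toPre v)

lemma norm_q (v : Γ →₀ 𝕜) : ‖D.q v‖ = D.rho v := by
  unfold q
  rw [UniformSpace.Completion.norm_coe]
  rfl

lemma q_add (v w : Γ →₀ 𝕜) : D.q (v + w) = D.q v + D.q w :=
  UniformSpace.Completion.coe_add (D.toPre v) (D.toPre w)

lemma q_sub (v w : Γ →₀ 𝕜) : D.q (v - w) = D.q v - D.q w :=
  UniformSpace.Completion.coe_sub (D.toPre v) (D.toPre w)

lemma q_smul (a : 𝕜) (v : Γ →₀ 𝕜) : D.q (a • v) = a • D.q v :=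
  UniformSpace.Completion.coe_smul a (D.toPre v)

/-- the canonical map as a linear map -/
noncomputable def Q : (Γ →₀ 𝕜) →ₗ[𝕜] D.Sp where
  toFun := D.q
  map_add' := D.q_add
  map_smul' := D.q_smul

lemma Q_apply (v : Γ →₀ 𝕜) : D.Q v = D.q v := rfl

lemma dense_q : DenseRange D.q := by
  have h : DenseRange (@UniformSpace.Completion.coe' (Pre D) _) :=
    UniformSpace.Completion.denseRange_coe
  exact h

lemma exists_rep (x : D.Sp) {ε : ℝ} (hε : 0 < ε) :
    ∃ v : Γ →₀ 𝕜, ‖x - D.q v‖ < ε ∧ S D.p v < ‖x‖ + ε := by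
  obtain ⟨v, hv⟩ := D.dense_q.exists_dist_lt x (show 0 < ε / 2 by positivity)
  rw [dist_eq_norm] at hv
  have h1 : D.rho v < ‖x‖ + ε := by
    rw [← D.norm_q]
    have := norm_sub_norm_le (D.q v) x
    rw [norm_sub_rev] at this
    linarith
  obtain ⟨c, hc⟩ := D.exists_lt v h1
  refine ⟨v - D.R c, ?_, hc⟩
  have h2 : D.q (v - D.R c) = D.q v := by
    have : ‖D.q (v - D.R c) - D.q v‖ = 0 := by
      rw [← D.q_sub, D.norm_q]
      have h3 : v - D.R c - v = -D.R c := by abel
      have h4 := D.rho_sub_R 0 c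
      rw [zero_sub, D.rho_zero] at h4
      rw [h3, h4]
    exact sub_eq_zero.mp (norm_eq_zero.mp this)
  rw [h2]
  linarith

lemma supp_smul_sum_subset {ι : Type} (s : Finset ι) (a : ι → 𝕜) (f : ι → (Γ →₀ 𝕜)) (t : Finset Γ)
    (h : ∀ n ∈ s, (f n).support ⊆ t) : (∑ n ∈ s, a n • f n).support ⊆ t := by
  classical
  intro i hi
  have := Finsupp.support_finset_sum hi
  rw [Finset.mem_biUnion] at this
  obtain ⟨n, hn, hi⟩ := this
  exact h n hn (Finsupp.support_smul hi)

/-- the main estimate -/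
lemma main_est (k : ℕ) (w z : Γ →₀ 𝕜) (hw : w.support ⊆ D.T k)
    (hz : Disjoint z.support (D.T k)) :
    (1 - 4 * D.e k) * D.rho w + D.rho z - 8 * D.e k * S D.p z ≤ D.rho (w + z) := by
  classical
  apply D.le_rho
  intro c
  set c1 : ℕ →₀ 𝕜 := c.filter (fun n => n < k) with hc1
  set c2 : ℕ →₀ 𝕜 := c.filter (fun n => ¬ n < k) with hc2
  have hc : c = c1 + c2 := (Finsupp.filter_pos_add_filter_neg c _).symm
  have hc2k : ∀ n ∈ c2.support, k ≤ n := by
    intro n hn
    rw [hc2, Finsupp.support_filter, Finset.mem_filter] at hn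
    exact not_lt.mp hn.2
  set U : Γ →₀ 𝕜 := ∑ n ∈ c2.support, c2 n • D.u n with hU
  set G : Γ →₀ 𝕜 := ∑ n ∈ c2.support, c2 n • D.g n with hG
  have hR2 : D.R c2 = U - G := by
    unfold R
    rw [hU, hG, ← Finset.sum_sub_distrib]
    exact Finset.sum_congr rfl fun n _ => smul_sub _ _ _
  set ut : Γ →₀ 𝕜 := U.filter (fun i => i ∈ D.T k) with hut
  set ub : Γ →₀ 𝕜 := U.filter (fun i => ¬ i ∈ D.T k) with hub
  have hUs : U = ut + ub := (Finsupp.filter_pos_add_filter_neg U _).symm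
  have hdutub : Disjoint ut.support ub.support := by
    rw [hut, hub, Finsupp.support_filter, Finsupp.support_filter]
    exact Finset.disjoint_filter_filter_not _ _ _
  have hSU : S D.p U = S D.p ut + S D.p ub := by
    conv_lhs => rw [hUs]
    exact S_add_disj D.hp _ _ hdutub
  have hSUG : S D.p U ≤ D.e k * S D.p G := by
    have h1 : S D.p G = ∑ n ∈ c2.support, S D.p (c2 n • D.g n) := by
      apply S_sum_disj D.hp
      intro m _ n _ hmn
      exact (D.hdisj m n hmn).mono Finsupp.support_smul Finsupp.support_smul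
    rw [h1, Finset.mul_sum]
    refine le_trans (S_sum_le D.hp D.hp1 _ _) ?_
    apply Finset.sum_le_sum
    intro n hn
    rw [S_smul D.hp, S_smul D.hp, mul_left_comm]
    apply mul_le_mul_of_nonneg_left _ (Real.rpow_nonneg (norm_nonneg _) _)
    exact le_trans (D.hS n) (mul_le_mul_of_nonneg_right (D.hea (hc2k n hn)) (S_nonneg _))
  -- the decomposition
  set yt : Γ →₀ 𝕜 := w - ut - D.R c1 with hyt
  set yb : Γ →₀ 𝕜 := z - ub + G with hyb
  have hy : w + z - D.R c = yt + yb := by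
    rw [hc, D.R_add, hR2, hUs, hyt, hyb]; abel
  have hRc1 : (D.R c1).support ⊆ D.T k := by
    unfold R
    apply supp_smul_sum_subset
    intro n hn
    rw [hc1, Finsupp.support_filter, Finset.mem_filter] at hn
    refine Finsupp.support_sub.trans (Finset.union_subset (D.hu n k hn.2) (D.hg n k hn.2))
  have hyts : yt.support ⊆ D.T k := by
    rw [hyt]
    refine Finsupp.support_sub.trans (Finset.union_subset ?_ hRc1)
    refine Finsupp.support_sub.trans (Finset.union_subset hw ?_)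
    rw [hut, Finsupp.support_filter]
    intro i hi
    exact (Finset.mem_filter.mp hi).2
  have hGs : Disjoint G.support (D.T k) := by
    rw [Finset.disjoint_left]
    intro i hi
    have := Finsupp.support_finset_sum hi
    rw [Finset.mem_biUnion] at this
    obtain ⟨n, hn, hi⟩ := this
    exact Finset.disjoint_left.mp (D.hg' n k (hc2k n hn)) (Finsupp.support_smul hi)
  have hybs : Disjoint yb.support (D.T k) := by
    rw [Finset.disjoint_left]
    intro i hi hiT
    have h1 := Finsupp.support_add hi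
    rw [Finset.mem_union] at h1
    rcases h1 with h1 | h1
    · have h2 := Finsupp.support_sub h1
      rw [Finset.mem_union] at h2
      rcases h2 with h2 | h2
      · exact Finset.disjoint_left.mp hz h2 hiT
      · rw [hub, Finsupp.support_filter, Finset.mem_filter] at h2
        exact h2.2 hiT
    · exact Finset.disjoint_left.mp hGs h1 hiT
  have hT : S D.p (w + z - D.R c) = S D.p yt + S D.p yb := by
    rw [hy]
    exact S_add_disj D.hp _ _ (Finset.disjoint_of_subset_left hyts hybs.symm)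
  have h1 : D.rho w - S D.p ut ≤ S D.p yt := by
    have h2 := D.rho_le (w - ut) c1
    have h3 := D.rho_add_le (w - ut) ut
    rw [sub_add_cancel] at h3
    have h4 := D.rho_le_S ut
    linarith
  have h2 : D.rho z - S D.p ut ≤ S D.p yb := by
    have h2 := D.rho_le (z + ut) c2
    have h3 : z + ut - D.R c2 = yb := by rw [hR2, hUs, hyb]; abel
    rw [h3] at h2
    have h4 := D.rho_sub_le (z + ut) ut
    rw [add_sub_cancel_right] at h4
    have h5 := D.rho_le_S ut
    linarith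
  have h3 : S D.p G ≤ S D.p yb + S D.p z + S D.p ub := by
    have h4 : G = yb - z + ub := by rw [hyb]; abel
    calc S D.p G = S D.p (yb - z + ub) := by rw [← h4]
      _ ≤ S D.p (yb - z) + S D.p ub := S_add_le D.hp D.hp1 _ _
      _ ≤ _ := by
        have := S_sub_le D.hp D.hp1 yb z
        linarith
  have he0 := D.he0 k
  have he1 := D.he1 k
  have hb0 : 0 ≤ S D.p ub := S_nonneg _
  have ht0 : 0 ≤ S D.p ut := S_nonneg _
  have hG0 : 0 ≤ S D.p G := S_nonneg _
  have hz0 : 0 ≤ S D.p z := S_nonneg _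
  have hyt0 : 0 ≤ S D.p yt := S_nonneg _
  have hyb0 : 0 ≤ S D.p yb := S_nonneg _
  have h4 : S D.p G ≤ 2 * (S D.p yb + S D.p z) := by nlinarith
  have h5 : S D.p ut ≤ 2 * D.e k * (S D.p yb + S D.p z) := by nlinarith
  have hρz : D.rho z ≤ S D.p z := D.rho_le_S z
  have hρw : 0 ≤ D.rho w := D.rho_nonneg w
  rw [hT]
  by_cases hcase : D.rho w + S D.p z ≤ S D.p yt + S D.p yb
  · nlinarith
  · have hcase' := not_le.mp hcase
    nlinarith

lemma norm_sum_smul_le {ι : Type} (s : Finset ι) (a : ι → 𝕜) (x : ι → D.Sp) (c : ℝ)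
    (h : ∀ n ∈ s, ‖x n‖ ≤ c) : ‖∑ n ∈ s, a n • x n‖ ≤ (∑ n ∈ s, ‖a n‖ ^ D.p) * c := by
  refine le_trans (norm_sum_le _ _) ?_
  rw [Finset.sum_mul]
  apply Finset.sum_le_sum
  intro n hn
  rw [D.norm_smul_sp]
  exact mul_le_mul_of_nonneg_left (h n hn) (Real.rpow_nonneg (norm_nonneg _) _)

include D in
lemma countable : Countable Γ := by
  have h : (Set.univ : Set Γ) = ⋃ k, (D.T k : Set Γ) := by
    ext i
    simp only [Set.mem_univ, Set.mem_iUnion, Finset.mem_coe, true_iff]
    exact D.hTc i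
  have h2 : (Set.univ : Set Γ).Countable := by
    rw [h]
    exact Set.countable_iUnion fun k => (D.T k).countable_toSet
  exact Set.countable_univ_iff.mp h2

lemma exists_T (F : Finset Γ) : ∃ k, F ⊆ D.T k := by
  classical
  induction F using Finset.induction_on with
  | empty => exact ⟨0, Finset.empty_subset _⟩
  | insert i F _ ih =>
    obtain ⟨k, hk⟩ := ih
    obtain ⟨l, hl⟩ := D.hTc i
    refine ⟨max k l, ?_⟩
    intro j hj
    rcases Finset.mem_insert.mp hj with rfl | hj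
    · exact D.hT (le_max_right _ _) hl
    · exact D.hT (le_max_left _ _) (hk hj)

/-- bounded sequences of finitely supported vectors have coordinatewise convergent subsequences -/
lemma exists_limit (y : ℕ → (Γ →₀ 𝕜)) (C : ℝ) (hC : ∀ n, S D.p (y n) ≤ C) :
    ∃ (yi : Γ → 𝕜) (φ : ℕ → ℕ), StrictMono φ ∧
      (∀ i, Tendsto (fun n => y (φ n) i) atTop (𝓝 (yi i))) ∧
      ∀ F : Finset Γ, ∑ i ∈ F, ‖yi i‖ ^ D.p ≤ C := by
  classical
  have : Countable Γ := Data.countable D
  have hcoord : ∀ n i, ‖y n i‖ ≤ C ^ (1 / D.p) := by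
    intro n i
    have h1 : ‖y n i‖ ^ D.p ≤ C := by
      refine le_trans ?_ (hC n)
      rw [S_eq D.hp (y n) (insert i (y n).support) (Finset.subset_insert _ _)]
      exact Finset.single_le_sum (f := fun j => ‖y n j‖ ^ D.p)
        (fun j _ => Real.rpow_nonneg (norm_nonneg _) _) (Finset.mem_insert_self _ _)
    have h2 := Real.rpow_le_rpow (Real.rpow_nonneg (norm_nonneg _) _) h1
      (show 0 ≤ 1 / D.p from by have := D.hp; positivity)
    rwa [← Real.rpow_mul (norm_nonneg _), mul_one_div_cancel D.hp.ne', Real.rpow_one] at h2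
  have hK : IsCompact (Set.univ.pi fun _ : Γ => Metric.closedBall (0 : 𝕜) (C ^ (1 / D.p))) :=
    isCompact_univ_pi fun _ => isCompact_closedBall _ _
  obtain ⟨yi, _, φ, hφ, hlim⟩ := hK.tendsto_subseq (x := fun n => (y n : Γ → 𝕜)) (by
    intro n i _
    rw [mem_closedBall_zero_iff]
    exact hcoord n i)
  have hlim' : ∀ i, Tendsto (fun n => y (φ n) i) atTop (𝓝 (yi i)) := fun i =>
    (tendsto_pi_nhds.mp hlim) i
  refine ⟨yi, φ, hφ, hlim', fun F => ?_⟩
  have h1 : Tendsto (fun n => ∑ i ∈ F, ‖y (φ n) i‖ ^ D.p) atTop (𝓝 (∑ i ∈ F, ‖yi i‖ ^ D.p)) := by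
    apply tendsto_finset_sum
    intro i _
    exact ((hlim' i).norm).rpow_const (Or.inr D.hp.le)
  refine le_of_tendsto h1 (Eventually.of_forall fun n => le_trans ?_ (hC (φ n)))
  rw [S_eq D.hp (y (φ n)) (F ∪ (y (φ n)).support) Finset.subset_union_right]
  exact Finset.sum_le_sum_of_subset_of_nonneg Finset.subset_union_left
    fun _ _ _ => Real.rpow_nonneg (norm_nonneg _) _

/-- the selection of the subsequence -/
lemma exists_selection (y : ℕ → (Γ →₀ 𝕜)) (yi : Γ → 𝕜) (φ : ℕ → ℕ)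
    (hlim : ∀ i, Tendsto (fun n => y (φ n) i) atTop (𝓝 (yi i))) (η θ : ℝ) (hη : 0 < η)
    (hθ : 0 < θ) (k00 : ℕ) :
    ∃ (kk nn : ℕ → ℕ), k00 ≤ kk 0 ∧ Monotone kk ∧ StrictMono nn ∧
      (∀ j, ∑ i ∈ D.T (kk j), ‖y (φ (nn j)) i - yi i‖ ^ D.p < η) ∧
      (∀ j, (y (φ (nn j))).support ⊆ D.T (kk (j + 1))) ∧
      ∀ j, D.e (kk j) ≤ θ * (1 / 2) ^ (j + 1) := by
  have hstep : ∀ j k n0 : ℕ, ∃ n k' : ℕ, n0 < n ∧
      ∑ i ∈ D.T k, ‖y (φ n) i - yi i‖ ^ D.p < η ∧ k ≤ k' ∧
      (y (φ n)).support ⊆ D.T k' ∧ D.e k' ≤ θ * (1 / 2) ^ (j + 2) := by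
    intro j k n0
    have h1 : Tendsto (fun n => ∑ i ∈ D.T k, ‖y (φ n) i - yi i‖ ^ D.p) atTop (𝓝 0) := by
      have : (0 : ℝ) = ∑ i ∈ D.T k, (0 : ℝ) := by simp
      rw [this]
      apply tendsto_finset_sum
      intro i _
      have h2 : Tendsto (fun n => ‖y (φ n) i - yi i‖) atTop (𝓝 0) := by
        have := (hlim i).sub_const (yi i)
        rw [sub_self] at this
        exact tendsto_zero_iff_norm_tendsto_zero.mp this
      have h3 := h2.rpow_const (p := D.p) (Or.inr D.hp.le)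
      rwa [Real.zero_rpow D.hp.ne'] at h3
    obtain ⟨n, hn1, hn2⟩ := ((h1.eventually (gt_mem_nhds hη)).and (eventually_gt_atTop n0)).exists
    obtain ⟨k1, hk1⟩ := D.exists_T (y (φ n)).support
    have h2 := D.he.eventually (gt_mem_nhds (show 0 < θ * (1 / 2) ^ (j + 2) by positivity))
    obtain ⟨k2, hk2⟩ := eventually_atTop.mp h2
    exact ⟨n, max (max k k1) k2, hn2, hn1, le_trans (le_max_left _ _) (le_max_left _ _),
      hk1.trans (D.hT (le_trans (le_max_right _ _) (le_max_left _ _))),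
      (hk2 _ (le_max_right _ _)).le⟩
  choose nx kx h1 h2 h3 h4 h5 using hstep
  have h0 := D.he.eventually (gt_mem_nhds (show 0 < θ * (1 / 2) ^ 1 by positivity))
  obtain ⟨k01, hk01⟩ := eventually_atTop.mp h0
  let st : ℕ → ℕ × ℕ := fun j =>
    Nat.rec (max k00 k01, 0) (fun j q => (kx j q.1 q.2, nx j q.1 q.2)) j
  have hst0 : st 0 = (max k00 k01, 0) := rfl
  have hst : ∀ j, st (j + 1) = (kx j (st j).1 (st j).2, nx j (st j).1 (st j).2) := fun j => rfl
  refine ⟨fun j => (st j).1, fun j => (st (j + 1)).2, ?_, ?_, ?_, ?_, ?_, ?_⟩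
  · simp only [hst0]; exact le_max_left _ _
  · apply monotone_nat_of_le_succ
    intro j
    simp only [hst]; exact h3 _ _ _
  · apply strictMono_nat_of_lt_succ
    intro j
    rw [hst (j + 1)]
    exact h1 _ _ _
  · intro j
    simp only [hst]
    exact h2 _ _ _
  · intro j
    simp only [hst]
    exact h4 _ _ _
  · intro j
    cases j with
    | zero => simp only [hst0]; exact (hk01 _ (le_max_right _ _)).le
    | succ j => simp only [hst]; exact h5 _ _ _

/-- the restriction of a function to a finite set -/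
noncomputable def restr (yi : Γ → 𝕜) (F : Finset Γ) : Γ →₀ 𝕜 := by
  classical
  exact Finsupp.onFinset F (fun i => if i ∈ F then yi i else 0) (by
    intro i hi
    by_contra h
    exact hi (if_neg h))

lemma restr_apply [DecidableEq Γ] (yi : Γ → 𝕜) (F : Finset Γ) (i : Γ) :
    restr yi F i = if i ∈ F then yi i else 0 := by
  unfold restr
  rw [Finsupp.onFinset_apply]
  congr

lemma support_restr (yi : Γ → 𝕜) (F : Finset Γ) : (restr yi F).support ⊆ F := by
  classical
  intro i hi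
  rw [Finsupp.mem_support_iff, restr_apply] at hi
  by_contra h
  exact hi (if_neg h)

/-- the lower estimate along the selected blocks -/
lemma block_est (w0 : Γ →₀ 𝕜) (z : ℕ → (Γ →₀ 𝕜)) (kk : ℕ → ℕ) (hkk : Monotone kk)
    (hw0 : w0.support ⊆ D.T (kk 0)) (hz1 : ∀ j, Disjoint (z j).support (D.T (kk j)))
    (hz2 : ∀ j, (z j).support ⊆ D.T (kk (j + 1))) (θ δ1 : ℝ) (hθ : 0 ≤ θ) (hθ1 : θ ≤ 1 / 8)
    (hδ1 : 0 ≤ δ1)
    (he : ∀ j, D.e (kk j) ≤ θ * (1 / 2) ^ (j + 1)) (j0 : ℕ)
    (hδ : ∀ j, j0 ≤ j → δ1 ≤ D.rho (z j) - 8 * D.e (kk j) * S D.p (z j))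
    (α : 𝕜) (a : ℕ → 𝕜) (ha : ∀ j, j < j0 → a j = 0) (m : ℕ) :
    (1 - 4 * θ * (1 - (1 / 2) ^ m)) * (δ1 * ∑ j ∈ Finset.range m, ‖a j‖ ^ D.p) ≤
        D.rho (α • w0 + ∑ j ∈ Finset.range m, a j • z j) ∧
      (α • w0 + ∑ j ∈ Finset.range m, a j • z j).support ⊆ D.T (kk m) := by
  induction m with
  | zero =>
    simp only [Finset.range_zero, Finset.sum_empty, add_zero, mul_zero]
    exact ⟨D.rho_nonneg _, Finsupp.support_smul.trans hw0⟩
  | succ m ih =>
    obtain ⟨ih1, ih2⟩ := ih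
    set W := α • w0 + ∑ j ∈ Finset.range m, a j • z j with hW
    have hW' : α • w0 + ∑ j ∈ Finset.range (m + 1), a j • z j = W + a m • z m := by
      rw [Finset.sum_range_succ, ← add_assoc]
    rw [hW']
    constructor
    · have h1 := D.main_est (kk m) W (a m • z m) ih2
        (Finset.disjoint_of_subset_left Finsupp.support_smul (hz1 m))
      rw [D.rho_smul, S_smul D.hp] at h1
      rw [Finset.sum_range_succ]
      set Sg := ∑ j ∈ Finset.range m, ‖a j‖ ^ D.p with hSg
      have hSg0 : 0 ≤ Sg := Finset.sum_nonneg fun _ _ => Real.rpow_nonneg (norm_nonneg _) _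
      have ham : 0 ≤ ‖a m‖ ^ D.p := Real.rpow_nonneg (norm_nonneg _) _
      have h2 : δ1 * ‖a m‖ ^ D.p ≤
          ‖a m‖ ^ D.p * D.rho (z m) - 8 * D.e (kk m) * (‖a m‖ ^ D.p * S D.p (z m)) := by
        by_cases hm : m < j0
        · rw [ha m hm, norm_zero, Real.zero_rpow D.hp.ne']; simp
        · have := mul_le_mul_of_nonneg_left (hδ m (not_lt.mp hm)) ham
          nlinarith
      have he0 := D.he0 (kk m)
      have hem := he m
      have hp2 : (0 : ℝ) < (1 / 2) ^ m := by positivity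
      have hp3 : (1 / 2 : ℝ) ^ m ≤ 1 := pow_le_one₀ (by norm_num) (by norm_num)
      have hp4 : (1 / 2 : ℝ) ^ (m + 1) = (1 / 2) ^ m / 2 := by rw [pow_succ]; ring
      rw [hp4] at hem ⊢
      set τ : ℝ := (1 / 2) ^ m with hτ
      have h4e : 4 * D.e (kk m) ≤ 2 * θ * τ := by linarith
      have h4e1 : 4 * D.e (kk m) ≤ 1 := by nlinarith
      have hA : 0 ≤ 1 - 4 * θ * (1 - τ) := by nlinarith
      have hA1 : 1 - 4 * θ * (1 - τ) ≤ 1 := by nlinarith [mul_nonneg hθ (sub_nonneg.mpr hp3)]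
      have hB : 0 ≤ δ1 * Sg := mul_nonneg hδ1 hSg0
      have h5 : (1 - 4 * D.e (kk m)) * ((1 - 4 * θ * (1 - τ)) * (δ1 * Sg)) ≤
          (1 - 4 * D.e (kk m)) * D.rho W := mul_le_mul_of_nonneg_left ih1 (by linarith)
      have h6 : (1 - 4 * θ * (1 - τ / 2)) ≤ (1 - 4 * D.e (kk m)) * (1 - 4 * θ * (1 - τ)) := by
        nlinarith
      have h7 := mul_le_mul_of_nonneg_right h6 hB
      have h8 : (1 - 4 * θ * (1 - τ / 2)) * (δ1 * ‖a m‖ ^ D.p) ≤ δ1 * ‖a m‖ ^ D.p := by
        have : 1 - 4 * θ * (1 - τ / 2) ≤ 1 := by nlinarith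
        have h9 : 0 ≤ δ1 * ‖a m‖ ^ D.p := mul_nonneg hδ1 ham
        nlinarith
      nlinarith
    · classical
      refine Finsupp.support_add.trans ?_
      apply Finset.union_subset (ih2.trans (D.hT (hkk (Nat.le_succ m))))
      exact Finsupp.support_smul.trans (hz2 m)

/-- **the Schur `p`-property** -/
theorem schur (A : Set D.Sp) (hA : A.Infinite) (C : ℝ) (hC : ∀ x ∈ A, ‖x‖ ≤ C) (δ : ℝ)
    (hδ : 0 < δ) (hsep : ∀ x ∈ A, ∀ y ∈ A, x ≠ y → δ ≤ ‖x - y‖) :
    ∃ f : ℕ → D.Sp, Function.Injective f ∧ (∀ n, f n ∈ A) ∧ ∃ c : ℝ, 0 < c ∧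
      ∀ (s : Finset ℕ) (a : ℕ → 𝕜), c * ∑ n ∈ s, ‖a n‖ ^ D.p ≤ ‖∑ n ∈ s, a n • f n‖ := by
  classical
  set x : ℕ → D.Sp := fun n => (hA.natEmbedding A n : D.Sp) with hx
  have hxA : ∀ n, x n ∈ A := fun n => (hA.natEmbedding A n).2
  have hxinj : Function.Injective x := fun m n h =>
    (hA.natEmbedding A).injective (Subtype.ext h)
  have hC0 : 0 ≤ C := le_trans (norm_nonneg _) (hC _ (hxA 0))
  set η : ℝ := δ / 32 with hη
  have hηpos : 0 < η := by positivity
  choose y hy1 hy2 using fun n => D.exists_rep (x n) hηpos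
  set C1 : ℝ := C + η with hC1
  have hC1pos : 0 < C1 := by positivity
  have hSy : ∀ n, S D.p (y n) ≤ C1 := fun n => by
    have h1 := hy2 n
    have h2 := hC _ (hxA n)
    linarith
  obtain ⟨yi, φ, hφ, hlim, hyi⟩ := D.exists_limit y C1 hSy
  -- the tail of the limit
  have hsum : Summable fun i => ‖yi i‖ ^ D.p :=
    summable_of_sum_le (fun i => Real.rpow_nonneg (norm_nonneg _) _) hyi
  obtain ⟨F0, hF0⟩ := (summable_iff_vanishing_norm.mp hsum) η hηpos
  obtain ⟨k00, hk00⟩ := D.exists_T F0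
  set θ : ℝ := min (1 / 8) (δ / (128 * C1)) with hθ
  have hθpos : 0 < θ := lt_min (by norm_num) (by positivity)
  obtain ⟨kk, nn, hkk0, hkk, hnn, h1, h2, h3⟩ :=
    D.exists_selection y yi φ hlim η θ hηpos hθpos k00
  set w0 : Γ →₀ 𝕜 := restr yi (D.T (kk 0)) with hw0
  set z : ℕ → (Γ →₀ 𝕜) := fun j => (y (φ (nn j))).filter (fun i => i ∉ D.T (kk j)) with hz
  have hz1 : ∀ j, Disjoint (z j).support (D.T (kk j)) := by
    intro j
    rw [Finset.disjoint_left]
    intro i hi
    rw [hz] at hi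
    simp only [Finsupp.support_filter, Finset.mem_filter] at hi
    exact hi.2
  have hz2 : ∀ j, (z j).support ⊆ D.T (kk (j + 1)) := by
    intro j i hi
    rw [hz] at hi
    simp only [Finsupp.support_filter, Finset.mem_filter] at hi
    exact h2 j hi.1
  have hSz : ∀ j, S D.p (z j) ≤ C1 := by
    intro j
    refine le_trans ?_ (hSy (φ (nn j)))
    have h4 := S_add_disj D.hp ((y (φ (nn j))).filter (fun i => i ∈ D.T (kk j))) (z j) (by
      rw [hz]
      simp only [Finsupp.support_filter]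
      exact Finset.disjoint_filter_filter_not _ _ _)
    have h5 : (y (φ (nn j))).filter (fun i => i ∈ D.T (kk j)) + z j = y (φ (nn j)) :=
      Finsupp.filter_pos_add_filter_neg _ _
    rw [h5] at h4
    have h6 : 0 ≤ S D.p ((y (φ (nn j))).filter (fun i => i ∈ D.T (kk j))) := S_nonneg _
    linarith
  -- the error
  have herr : ∀ j, S D.p (y (φ (nn j)) - (w0 + z j)) ≤ 2 * η := by
    intro j
    have hs : (y (φ (nn j)) - (w0 + z j)).support ⊆ D.T (kk j) := by
      intro i hi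
      by_contra hiT
      rw [Finsupp.mem_support_iff] at hi
      apply hi
      have hi0 : i ∉ D.T (kk 0) := fun h => hiT (D.hT (hkk (Nat.zero_le j)) h)
      rw [Finsupp.sub_apply, Finsupp.add_apply, hw0, restr_apply, if_neg hi0, hz]
      simp only [Finsupp.filter_apply, if_pos hiT]
      ring
    rw [S_eq D.hp _ _ hs]
    have hpt : ∀ i ∈ D.T (kk j), ‖(y (φ (nn j)) - (w0 + z j)) i‖ ^ D.p ≤
        ‖y (φ (nn j)) i - yi i‖ ^ D.p + (if i ∈ D.T (kk 0) then 0 else ‖yi i‖ ^ D.p) := by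
      intro i hi
      rw [Finsupp.sub_apply, Finsupp.add_apply, hw0, restr_apply, hz]
      simp only [Finsupp.filter_apply, if_neg (not_not.mpr hi), add_zero]
      split_ifs with h0
      · rw [add_zero]
      · rw [sub_zero]
        have := norm_rpow_add_le D.hp D.hp1 (y (φ (nn j)) i - yi i) (yi i)
        rwa [sub_add_cancel] at this
    refine le_trans (Finset.sum_le_sum hpt) ?_
    rw [Finset.sum_add_distrib]
    have h4 := h1 j
    have h5 : ∑ i ∈ D.T (kk j), (if i ∈ D.T (kk 0) then 0 else ‖yi i‖ ^ D.p) ≤ η := by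
      have h6 := hF0 ((D.T (kk j)).filter (fun i => i ∉ D.T (kk 0))) (by
        rw [Finset.disjoint_left]
        intro i hi hi0
        exact (Finset.mem_filter.mp hi).2 (D.hT hkk0 (hk00 hi0)))
      rw [Finset.sum_filter] at h6
      have h7 := le_trans (le_abs_self _) (h6.le)
      refine le_trans (le_of_eq ?_) h7
      apply Finset.sum_congr rfl
      intro i _
      split_ifs <;> rfl
    linarith
  have happ : ∀ j, ‖x (φ (nn j)) - D.q (w0 + z j)‖ ≤ 3 * η := by
    intro j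
    have h4 := hy1 (φ (nn j))
    have h5 : ‖D.q (y (φ (nn j))) - D.q (w0 + z j)‖ ≤ 2 * η := by
      rw [← D.q_sub, D.norm_q]
      exact le_trans (D.rho_le_S _) (herr j)
    have h6 := norm_add_le (x (φ (nn j)) - D.q (y (φ (nn j))))
      (D.q (y (φ (nn j))) - D.q (w0 + z j))
    rw [sub_add_sub_cancel] at h6
    linarith
  have hsepz : ∀ j l, j ≠ l → 26 * η ≤ D.rho (z j) + D.rho (z l) := by
    intro j l hjl
    have h4 : x (φ (nn j)) ≠ x (φ (nn l)) := fun h =>
      hjl (hnn.injective (hφ.injective (hxinj h)))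
    have h5 := hsep _ (hxA _) _ (hxA _) h4
    have h6 := happ j
    have h7 := happ l
    have h8 : x (φ (nn j)) - x (φ (nn l)) = (x (φ (nn j)) - D.q (w0 + z j)) -
        (x (φ (nn l)) - D.q (w0 + z l)) + D.q (z j - z l) := by
      rw [D.q_add, D.q_add, D.q_sub]; abel
    have h9 : ‖x (φ (nn j)) - x (φ (nn l))‖ ≤ ‖x (φ (nn j)) - D.q (w0 + z j)‖ +
        ‖x (φ (nn l)) - D.q (w0 + z l)‖ + ‖D.q (z j - z l)‖ := by
      rw [h8]
      exact le_trans (norm_add_le _ _) (add_le_add_left (norm_sub_le _ _) _)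
    rw [D.norm_q] at h9
    have h10 := D.rho_sub_le (z j) (z l)
    have h11 : δ = 32 * η := by rw [hη]; ring
    linarith
  obtain ⟨j0, hj0⟩ : ∃ j0, ∀ j, j0 ≤ j → 13 * η ≤ D.rho (z j) := by
    by_cases hex : ∃ j1, D.rho (z j1) < 13 * η
    · obtain ⟨j1, hj1⟩ := hex
      refine ⟨j1 + 1, fun j hj => ?_⟩
      have := hsepz j j1 (by omega)
      linarith
    · refine ⟨0, fun j _ => ?_⟩
      by_contra h
      exact hex ⟨j, not_le.mp h⟩
  have hδz : ∀ j, j0 ≤ j → 12 * η ≤ D.rho (z j) - 8 * D.e (kk j) * S D.p (z j) := by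
    intro j hj
    have h4 := hj0 j hj
    have h5 : 8 * D.e (kk j) * S D.p (z j) ≤ η := by
      have h6 : D.e (kk j) ≤ δ / (128 * C1) * (1 / 2) := by
        refine le_trans (h3 j) ?_
        have h7 : (1 / 2 : ℝ) ^ (j + 1) ≤ 1 / 2 := by
          rw [pow_succ]
          have : (1 / 2 : ℝ) ^ j ≤ 1 := pow_le_one₀ (by norm_num) (by norm_num)
          linarith
        have h8 : θ ≤ δ / (128 * C1) := min_le_right _ _
        exact mul_le_mul h8 h7 (by positivity) (by positivity)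
      have h9 := hSz j
      have h10 : 0 ≤ S D.p (z j) := S_nonneg _
      have h11 := D.he0 (kk j)
      calc 8 * D.e (kk j) * S D.p (z j) ≤ 8 * (δ / (128 * C1) * (1 / 2)) * C1 := by
            apply mul_le_mul (by linarith) h9 h10 (by positivity)
        _ = η := by rw [hη]; field_simp; ring
    linarith
  -- the lower estimate for initial segments
  have hkey : ∀ (m : ℕ) (a : ℕ → 𝕜), (∀ j, j < j0 → a j = 0) →
      (3 * η) * ∑ j ∈ Finset.range m, ‖a j‖ ^ D.p ≤
        ‖∑ j ∈ Finset.range m, a j • x (φ (nn j))‖ := by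
    intro m a ha
    set α := ∑ j ∈ Finset.range m, a j with hα
    have h4 := (D.block_est w0 z kk hkk (support_restr _ _) hz1 hz2 θ (12 * η) hθpos.le
      (min_le_left _ _) (by positivity) h3 j0 hδz α a ha m).1
    have h5 : ∑ j ∈ Finset.range m, a j • x (φ (nn j)) =
        ∑ j ∈ Finset.range m, a j • (x (φ (nn j)) - D.q (w0 + z j)) +
          D.q (α • w0 + ∑ j ∈ Finset.range m, a j • z j) := by
      have h6 : D.q (α • w0 + ∑ j ∈ Finset.range m, a j • z j) =
          ∑ j ∈ Finset.range m, a j • D.q (w0 + z j) := by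
        have h7 : α • w0 + ∑ j ∈ Finset.range m, a j • z j =
            ∑ j ∈ Finset.range m, a j • (w0 + z j) := by
          rw [hα, Finset.sum_smul, ← Finset.sum_add_distrib]
          exact Finset.sum_congr rfl fun j _ => (smul_add _ _ _).symm
        rw [h7, ← D.Q_apply, map_sum]
        exact Finset.sum_congr rfl fun j _ => map_smul _ _ _
      rw [h6, ← Finset.sum_add_distrib]
      apply Finset.sum_congr rfl
      intro j _
      rw [← smul_add, sub_add_cancel]
    have h6 := D.norm_sum_smul_le (Finset.range m) a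
      (fun j => x (φ (nn j)) - D.q (w0 + z j)) (3 * η) (fun j _ => happ j)
    have h7 : ‖D.q (α • w0 + ∑ j ∈ Finset.range m, a j • z j)‖ -
        ‖∑ j ∈ Finset.range m, a j • (x (φ (nn j)) - D.q (w0 + z j))‖ ≤
        ‖∑ j ∈ Finset.range m, a j • x (φ (nn j))‖ := by
      rw [h5]
      have := norm_sub_le (∑ j ∈ Finset.range m, a j • (x (φ (nn j)) - D.q (w0 + z j)) +
          D.q (α • w0 + ∑ j ∈ Finset.range m, a j • z j))
        (∑ j ∈ Finset.range m, a j • (x (φ (nn j)) - D.q (w0 + z j)))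
      rw [add_sub_cancel_left] at this
      linarith
    rw [D.norm_q] at h7
    set Sg := ∑ j ∈ Finset.range m, ‖a j‖ ^ D.p with hSg
    have hSg0 : 0 ≤ Sg := Finset.sum_nonneg fun _ _ => Real.rpow_nonneg (norm_nonneg _) _
    have h8 : (1 / 2 : ℝ) ≤ 1 - 4 * θ * (1 - (1 / 2) ^ m) := by
      have h9 : θ ≤ 1 / 8 := min_le_left _ _
      have h10 : (0 : ℝ) < (1 / 2) ^ m := by positivity
      nlinarith
    have h9 : (1 / 2 : ℝ) * (12 * η * Sg) ≤ (1 - 4 * θ * (1 - (1 / 2) ^ m)) * (12 * η * Sg) :=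
      mul_le_mul_of_nonneg_right h8 (by positivity)
    linarith
  refine ⟨fun n => x (φ (nn (n + j0))), ?_, fun n => hxA _, 3 * η, by positivity, ?_⟩
  · intro m n h
    have := hnn.injective (hφ.injective (hxinj h))
    omega
  · intro s a
    set a' : ℕ → 𝕜 := fun j => if j0 ≤ j ∧ j - j0 ∈ s then a (j - j0) else 0 with ha'
    have hmap : s.map (addRightEmbedding j0) ⊆ Finset.range (s.sup id + j0 + 1) := by
      intro j hj
      obtain ⟨n, hn, rfl⟩ := Finset.mem_map.mp hj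
      have : n ≤ s.sup id := Finset.le_sup (f := id) hn
      rw [Finset.mem_range, addRightEmbedding_apply]
      omega
    have hzero : ∀ j ∈ Finset.range (s.sup id + j0 + 1), j ∉ s.map (addRightEmbedding j0) →
        a' j = 0 := by
      intro j _ hj
      rw [ha']
      apply if_neg
      rintro ⟨h4, h5⟩
      apply hj
      rw [Finset.mem_map]
      exact ⟨j - j0, h5, by rw [addRightEmbedding_apply]; omega⟩
    have hval : ∀ n ∈ s, a' (n + j0) = a n := by
      intro n hn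
      rw [ha']
      simp only [Nat.add_sub_cancel]
      rw [if_pos ⟨Nat.le_add_left _ _, hn⟩]
    have h4 := hkey (s.sup id + j0 + 1) a' (by
      intro j hj
      rw [ha']
      exact if_neg (by omega))
    rw [← Finset.sum_subset hmap (f := fun j => ‖a' j‖ ^ D.p) (by
        intro j hj hj'
        rw [hzero j hj hj', norm_zero, Real.zero_rpow D.hp.ne']),
      ← Finset.sum_subset hmap (f := fun j => a' j • x (φ (nn j))) (by
        intro j hj hj'
        rw [hzero j hj hj', zero_smul]), Finset.sum_map, Finset.sum_map] at h4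
    have h5 : ∑ n ∈ s, ‖a' (addRightEmbedding j0 n)‖ ^ D.p = ∑ n ∈ s, ‖a n‖ ^ D.p := by
      apply Finset.sum_congr rfl
      intro n hn
      rw [addRightEmbedding_apply, hval n hn]
    have h6 : ∑ n ∈ s, a' (addRightEmbedding j0 n) • x (φ (nn (addRightEmbedding j0 n))) =
        ∑ n ∈ s, a n • x (φ (nn (n + j0))) := by
      apply Finset.sum_congr rfl
      intro n hn
      rw [addRightEmbedding_apply, hval n hn]
    rwa [h5, h6] at h4

end Data

end

end Q96.SchurP
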