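import Mathlib
import Pool.Agent.Q96.SchurP

/-!
# Quasi-Banach spaces: the spaces of `Q96.SchurP` in the language of quasi-norms
-/

set_option autoImplicit false

open Filter Topology

namespace Q96.QuasiBanach

/-- `N` is a quasi-norm on `X` for which `X` is complete -/
structure IsQuasiBanach (𝕜 : Type) {X : Type} [RCLike 𝕜] [AddCommGroup X] [Module 𝕜 X]
    (N : X → ℝ) : Prop where
  nonneg : ∀ x, 0 ≤ N x
  eq_zero : ∀ x, N x = 0 → x = 0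
  smul : ∀ (a : 𝕜) (x : X), N (a • x) = ‖a‖ * N x
  quasi : ∃ κ : ℝ, ∀ x y, N (x + y) ≤ κ * (N x + N y)
  complete : ∀ s : ℕ → X, (∀ ε > 0, ∃ n0, ∀ m ≥ n0, ∀ n ≥ n0, N (s m - s n) < ε) →
    ∃ x, ∀ ε > 0, ∃ n0, ∀ n ≥ n0, N (s n - x) < ε

/-- the set `A` is bounded for `N` -/
def Bdd {X : Type} (N : X → ℝ) (A : Set X) : Prop := ∃ C : ℝ, ∀ x ∈ A, N x ≤ C

/-- the set `A` is uniformly separated for `N` -/
def UnifSep {X : Type} [AddCommGroup X] (N : X → ℝ) (A : Set X) : Prop :=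
  ∃ δ : ℝ, 0 < δ ∧ ∀ x ∈ A, ∀ y ∈ A, x ≠ y → δ ≤ N (x - y)

/-- the set `B` is equivalent to the unit vector basis of `ℓ_p` -/
def EquivLp (𝕜 : Type) {X : Type} [RCLike 𝕜] [AddCommGroup X] [Module 𝕜 X] (p : ℝ) (N : X → ℝ)
    (B : Set X) : Prop :=
  ∃ c C : ℝ, 0 < c ∧ ∀ F : Finset X, (↑F : Set X) ⊆ B → ∀ a : X → 𝕜,
    c * (∑ x ∈ F, ‖a x‖ ^ p) ^ (1 / p) ≤ N (∑ x ∈ F, a x • x) ∧
      N (∑ x ∈ F, a x • x) ≤ C * (∑ x ∈ F, ‖a x‖ ^ p) ^ (1 / p)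

/-- the sequence `x` is equivalent to the unit vector basis of `ℓ_p` -/
def EquivLpSeq (𝕜 : Type) {X : Type} [RCLike 𝕜] [AddCommGroup X] [Module 𝕜 X] (p : ℝ) (N : X → ℝ)
    (x : ℕ → X) : Prop :=
  ∃ c C : ℝ, 0 < c ∧ ∀ a : ℕ →₀ 𝕜,
    c * (∑ n ∈ a.support, ‖a n‖ ^ p) ^ (1 / p) ≤ N (∑ n ∈ a.support, a n • x n) ∧
      N (∑ n ∈ a.support, a n • x n) ≤ C * (∑ n ∈ a.support, ‖a n‖ ^ p) ^ (1 / p)

/-- the Schur `p`-property, with subsets -/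
def SchurP (𝕜 : Type) {X : Type} [RCLike 𝕜] [AddCommGroup X] [Module 𝕜 X] (p : ℝ)
    (N : X → ℝ) : Prop :=
  ∀ A : Set X, A.Infinite → Bdd N A → UnifSep N A → ∃ B ⊆ A, B.Infinite ∧ EquivLp 𝕜 p N B

/-- the Schur `p`-property, with sequences -/
def SchurPSeq (𝕜 : Type) {X : Type} [RCLike 𝕜] [AddCommGroup X] [Module 𝕜 X] (p : ℝ)
    (N : X → ℝ) : Prop :=
  ∀ A : Set X, A.Infinite → Bdd N A → UnifSep N A →
    ∃ x : ℕ → X, (∀ n, x n ∈ A) ∧ EquivLpSeq 𝕜 p N x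

section

variable {𝕜 : Type} [RCLike 𝕜] {Γ : Type} (D : Q96.SchurP.Data 𝕜 Γ)

/-- the quasi-norm -/
noncomputable def NN (x : D.Sp) : ℝ := ‖x‖ ^ (1 / D.p)

lemma pinv_pos : 0 < 1 / D.p := by have := D.hp; positivity

lemma NN_nonneg (x : D.Sp) : 0 ≤ NN D x := Real.rpow_nonneg (norm_nonneg _) _

lemma NN_pow (x : D.Sp) : NN D x ^ D.p = ‖x‖ := by
  unfold NN
  rw [← Real.rpow_mul (norm_nonneg _), one_div_mul_cancel D.hp.ne', Real.rpow_one]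

lemma norm_lt_of_NN_lt (x : D.Sp) {ε : ℝ} (hε : 0 ≤ ε) (h : NN D x < ε ^ (1 / D.p)) :
    ‖x‖ < ε := by
  have := Real.rpow_lt_rpow (NN_nonneg D x) h D.hp
  rwa [NN_pow, ← Real.rpow_mul hε, one_div_mul_cancel D.hp.ne', Real.rpow_one] at this

theorem isQuasiBanach : IsQuasiBanach 𝕜 (NN D) where
  nonneg := NN_nonneg D
  eq_zero := fun x hx => by
    have h1 := NN_pow D x
    rw [hx, Real.zero_rpow D.hp.ne'] at h1
    exact norm_eq_zero.mp h1.symm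
  smul := fun a x => by
    unfold NN
    rw [D.norm_smul_sp, Real.mul_rpow (Real.rpow_nonneg (norm_nonneg _) _) (norm_nonneg _),
      ← Real.rpow_mul (norm_nonneg _), mul_one_div_cancel D.hp.ne', Real.rpow_one]
  quasi := by
    refine ⟨2 ^ (1 / D.p), fun x y => ?_⟩
    unfold NN
    have key : ∀ s t : ℝ, 0 ≤ s → s ≤ t → (s + t) ^ (1 / D.p) ≤
        2 ^ (1 / D.p) * (s ^ (1 / D.p) + t ^ (1 / D.p)) := by
      intro s t hs hst
      have h1 : (s + t) ^ (1 / D.p) ≤ (2 * t) ^ (1 / D.p) :=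
        Real.rpow_le_rpow (by linarith) (by linarith) (pinv_pos D).le
      rw [Real.mul_rpow (by norm_num) (hs.trans hst)] at h1
      refine le_trans h1 (mul_le_mul_of_nonneg_left ?_ (Real.rpow_nonneg (by norm_num) _))
      have := Real.rpow_nonneg hs (1 / D.p)
      linarith
    have h1 : ‖x + y‖ ^ (1 / D.p) ≤ (‖x‖ + ‖y‖) ^ (1 / D.p) :=
      Real.rpow_le_rpow (norm_nonneg _) (norm_add_le _ _) (pinv_pos D).le
    refine le_trans h1 ?_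
    rcases le_total ‖x‖ ‖y‖ with h | h
    · exact key _ _ (norm_nonneg _) h
    · rw [add_comm, add_comm (‖x‖ ^ (1 / D.p))]
      exact key _ _ (norm_nonneg _) h
  complete := fun s hs => by
    have hc : CauchySeq s := by
      rw [Metric.cauchySeq_iff]
      intro ε hε
      obtain ⟨n0, hn0⟩ := hs (ε ^ (1 / D.p)) (Real.rpow_pos_of_pos hε _)
      refine ⟨n0, fun m hm n hn => ?_⟩
      rw [dist_eq_norm]
      exact norm_lt_of_NN_lt D _ hε.le (hn0 m hm n hn)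
    obtain ⟨x, hx⟩ := cauchySeq_tendsto_of_complete hc
    refine ⟨x, fun ε hε => ?_⟩
    obtain ⟨n0, hn0⟩ := (Metric.tendsto_atTop.mp hx) (ε ^ D.p) (Real.rpow_pos_of_pos hε _)
    refine ⟨n0, fun n hn => ?_⟩
    have h1 := hn0 n hn
    rw [dist_eq_norm] at h1
    have h2 := Real.rpow_lt_rpow (norm_nonneg _) h1 (pinv_pos D)
    rwa [← Real.rpow_mul hε.le, mul_one_div_cancel D.hp.ne', Real.rpow_one] at h2

/-- the Schur property, common form -/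
lemma exists_good (A : Set D.Sp) (hA : A.Infinite) (hb : Bdd (NN D) A) (hs : UnifSep (NN D) A) :
    ∃ f : ℕ → D.Sp, Function.Injective f ∧ (∀ n, f n ∈ A) ∧ ∃ c C : ℝ, 0 < c ∧
      ∀ (s : Finset ℕ) (a : ℕ → 𝕜),
        c * (∑ n ∈ s, ‖a n‖ ^ D.p) ^ (1 / D.p) ≤ NN D (∑ n ∈ s, a n • f n) ∧
          NN D (∑ n ∈ s, a n • f n) ≤ C * (∑ n ∈ s, ‖a n‖ ^ D.p) ^ (1 / D.p) := by
  obtain ⟨C, hC⟩ := hb
  obtain ⟨δ, hδ, hsep⟩ := hs
  have hC' : ∀ x ∈ A, ‖x‖ ≤ (max C 0) ^ D.p := by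
    intro x hx
    rw [← NN_pow D x]
    exact Real.rpow_le_rpow (NN_nonneg D x) (le_trans (hC x hx) (le_max_left _ _)) D.hp.le
  have hsep' : ∀ x ∈ A, ∀ y ∈ A, x ≠ y → δ ^ D.p ≤ ‖x - y‖ := by
    intro x hx y hy hxy
    rw [← NN_pow D (x - y)]
    exact Real.rpow_le_rpow hδ.le (hsep x hx y hy hxy) D.hp.le
  obtain ⟨f, hf, hfA, c, hc, hlow⟩ := D.schur A hA _ hC' _ (Real.rpow_pos_of_pos hδ _) hsep'
  refine ⟨f, hf, hfA, c ^ (1 / D.p), ((max C 0) ^ D.p) ^ (1 / D.p),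
    Real.rpow_pos_of_pos hc _, fun s a => ?_⟩
  have hs0 : 0 ≤ ∑ n ∈ s, ‖a n‖ ^ D.p :=
    Finset.sum_nonneg fun _ _ => Real.rpow_nonneg (norm_nonneg _) _
  constructor
  · rw [← Real.mul_rpow hc.le hs0]
    exact Real.rpow_le_rpow (mul_nonneg hc.le hs0) (hlow s a) (pinv_pos D).le
  · rw [← Real.mul_rpow (Real.rpow_nonneg (le_max_right _ _) _) hs0, mul_comm]
    exact Real.rpow_le_rpow (norm_nonneg _)
      (D.norm_sum_smul_le s a f _ fun n _ => hC' _ (hfA n)) (pinv_pos D).le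

theorem schurPSeq : SchurPSeq 𝕜 D.p (NN D) := by
  intro A hA hb hs
  obtain ⟨f, _, hfA, c, C, hc, h⟩ := exists_good D A hA hb hs
  exact ⟨f, hfA, c, C, hc, fun a => h a.support a⟩

theorem schurP : SchurP 𝕜 D.p (NN D) := by
  classical
  intro A hA hb hs
  obtain ⟨f, hf, hfA, c, C, hc, h⟩ := exists_good D A hA hb hs
  refine ⟨Set.range f, by rintro _ ⟨n, rfl⟩; exact hfA n, Set.infinite_range_of_injective hf, c, C,
    hc, fun F hF a => ?_⟩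
  set s : Finset ℕ := F.preimage f hf.injOn with hs'
  have hFs : F = s.map ⟨f, hf⟩ := by
    ext x
    rw [Finset.mem_map]
    constructor
    · intro hx
      obtain ⟨n, rfl⟩ := hF hx
      exact ⟨n, Finset.mem_preimage.mpr hx, rfl⟩
    · rintro ⟨n, hn, rfl⟩
      exact Finset.mem_preimage.mp hn
  have h1 := h s (fun n => a (f n))
  rw [hFs, Finset.sum_map, Finset.sum_map]
  exact h1

end

end Q96.QuasiBanach
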