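import Pool.Agent.Q96.RotNum

/-! Integrals over the circle for the first approach times of two rotation orbits. -/

namespace Q96.Rot

open MeasureTheory Set

theorem bdd_int {f : ℝ → ℝ} (hf : Measurable f) {C : ℝ} (hC : ∀ x, |f x| ≤ C) (a b : ℝ) :
    IntervalIntegrable f volume a b := by
  rw [intervalIntegrable_iff]
  refine Measure.integrableOn_of_bounded (M := C) ?_ hf.aestronglyMeasurable ?_
  · rw [uIoc]; simp
  · exact Filter.Eventually.of_forall hC

theorem shift {f : ℝ → ℝ} (hf : Function.Periodic f 1) (s : ℝ) :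
    ∫ x in (0 : ℝ)..1, f (x + s) = ∫ x in (0 : ℝ)..1, f x := by
  rw [intervalIntegral.integral_comp_add_right]
  have := hf.intervalIntegral_add_eq s 0
  rw [zero_add] at this
  rw [zero_add, add_comm 1 s]
  exact this

theorem scale {g : ℝ → ℝ} (i : ℕ) (hi : 1 ≤ i) (hg : Function.Periodic g (i : ℝ))
    (hm : Measurable g) {C : ℝ} (hC : ∀ x, |g x| ≤ C) :
    ∫ a in (0 : ℝ)..1, g (i * a) = (1 / (i : ℝ)) *
      ∑ p ∈ Finset.range i, ∫ t in (-(1 / 2) : ℝ)..(1 / 2), g (t + p) := by
  have hi0 : (i : ℝ) ≠ 0 := by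
    have : 0 < i := hi
    positivity
  have hper : Function.Periodic (fun a : ℝ => g (i * a)) 1 := by
    intro a
    have : (i : ℝ) * (a + 1) = i * a + i := by ring
    simp only [this]
    exact hg _
  have h1 := shift hper (-(1 / (2 * (i : ℝ))))
  rw [← h1]
  have h2 : ∀ x : ℝ, (i : ℝ) * (x + -(1 / (2 * (i : ℝ)))) = i * x - 1 / 2 := by
    intro x; field_simp; ring
  simp only [h2]
  have hinv : (i : ℝ)⁻¹ = 1 / (i : ℝ) := (one_div _).symm
  rw [intervalIntegral.integral_comp_mul_sub _ hi0, smul_eq_mul, hinv]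
  congr 1
  have h3 := intervalIntegral.sum_integral_adjacent_intervals (f := g) (μ := volume)
    (a := fun k : ℕ => (k : ℝ) - 1 / 2) (n := i) (fun k _ => bdd_int hm hC _ _)
  have e1 : (i : ℝ) * 0 - 1 / 2 = ((0 : ℕ) : ℝ) - 1 / 2 := by push_cast; ring
  have e2 : (i : ℝ) * 1 - 1 / 2 = (i : ℝ) - 1 / 2 := by ring
  rw [e1, e2, ← h3]
  refine Finset.sum_congr rfl (fun k _ => ?_)
  rw [intervalIntegral.integral_comp_add_right]
  congr 1
  · push_cast; ring
  · push_cast; ring

theorem half_eq {f : ℝ → ℝ} (hf : Function.Periodic f 1) :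
    ∫ x in (-(1 / 2) : ℝ)..(1 / 2), f x = ∫ x in (0 : ℝ)..1, f x := by
  have := hf.intervalIntegral_add_eq (-(1 / 2)) 0
  rw [zero_add] at this
  rw [← this]
  norm_num

theorem scale_one {g : ℝ → ℝ} (i : ℕ) (hi : 1 ≤ i) (hg : Function.Periodic g 1)
    (hm : Measurable g) {C : ℝ} (hC : ∀ x, |g x| ≤ C) :
    ∫ a in (0 : ℝ)..1, g (i * a) = ∫ x in (0 : ℝ)..1, g x := by
  have hgi : Function.Periodic g (i : ℝ) := by
    have := hg.nat_mul i
    rwa [mul_one] at this
  rw [scale i hi hgi hm hC]
  have h1 : ∀ p ∈ Finset.range i, ∫ t in (-(1 / 2) : ℝ)..(1 / 2), g (t + p) =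
      ∫ x in (0 : ℝ)..1, g x := by
    intro p _
    have : ∀ t : ℝ, g (t + p) = g t := by
      intro t
      have h := hg.nat_mul p t
      rwa [mul_one] at h
    simp only [this]
    exact half_eq hg
  rw [Finset.sum_congr rfl h1, Finset.sum_const, Finset.card_range, nsmul_eq_mul]
  have hi0 : (i : ℝ) ≠ 0 := by
    have : 0 < i := hi
    positivity
  field_simp

/-- indicator of a half-open arc -/
noncomputable def J (α β x : ℝ) : ℝ := if α ≤ Int.fract x ∧ Int.fract x < β then 1 else 0

/-- indicator of the arc `[0, e)` -/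
noncomputable def I (e x : ℝ) : ℝ := if Int.fract x < e then 1 else 0

theorem J_meas (α β : ℝ) : Measurable (J α β) := by
  unfold J
  refine Measurable.ite ?_ measurable_const measurable_const
  exact (measurableSet_le measurable_const measurable_fract).inter
    (measurableSet_lt measurable_fract measurable_const)

theorem I_meas (e : ℝ) : Measurable (I e) := by
  unfold I
  refine Measurable.ite ?_ measurable_const measurable_const
  exact measurableSet_lt measurable_fract measurable_const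

theorem I_nonneg (e x : ℝ) : 0 ≤ I e x := by unfold I; split_ifs <;> norm_num

theorem I_le_one (e x : ℝ) : I e x ≤ 1 := by unfold I; split_ifs <;> norm_num

theorem I_abs (e x : ℝ) : |I e x| ≤ 1 := by
  rw [abs_of_nonneg (I_nonneg _ _)]; exact I_le_one _ _

theorem J_nonneg (α β x : ℝ) : 0 ≤ J α β x := by unfold J; split_ifs <;> norm_num

theorem J_le_one (α β x : ℝ) : J α β x ≤ 1 := by unfold J; split_ifs <;> norm_num

theorem I_int (e x : ℝ) (n : ℤ) : I e (x + n) = I e x := by
  unfold I; rw [Int.fract_add_intCast]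

theorem J_int (α β x : ℝ) (n : ℤ) : J α β (x + n) = J α β x := by
  unfold J; rw [Int.fract_add_intCast]

theorem I_per (e : ℝ) : Function.Periodic (I e) 1 := by
  intro x
  have := I_int e x 1
  rwa [Int.cast_one] at this

theorem J_integral (α β : ℝ) (hα : 0 ≤ α) (hβ : β ≤ 1) :
    ∫ x in (0 : ℝ)..1, J α β x = max 0 (β - α) := by
  have h1 : ∫ x in (0 : ℝ)..1, J α β x =
      ∫ x in (0 : ℝ)..1, (Ico α β).indicator (fun _ => (1 : ℝ)) x := by
    refine intervalIntegral.integral_congr_Ioo_of_le (by norm_num) ?_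
    intro x hx
    have hx' : Int.fract x = x := Int.fract_eq_self.2 ⟨hx.1.le, hx.2⟩
    simp only [J, hx', indicator, mem_Ico]
  rw [h1, intervalIntegral.integral_of_le (by norm_num), ← integral_Ico_eq_integral_Ioc,
    setIntegral_indicator measurableSet_Ico]
  have h2 : Ico (0 : ℝ) 1 ∩ Ico α β = Ico α β := by
    ext x; simp only [mem_inter_iff, mem_Ico]
    constructor
    · exact fun h => h.2
    · exact fun h => ⟨⟨by linarith, by linarith⟩, h⟩
  rw [h2]
  simp only [integral_const, smul_eq_mul, mul_one, measureReal_restrict_apply_univ]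
  rw [Real.volume_real_Ico, max_comm]

theorem I_eq_J (e x : ℝ) : I e x = J 0 e x := by
  unfold I J
  simp [Int.fract_nonneg]

theorem I_integral (e : ℝ) (h0 : 0 ≤ e) (h1 : e ≤ 1) : ∫ x in (0 : ℝ)..1, I e x = e := by
  simp only [I_eq_J]
  rw [J_integral 0 e le_rfl h1, sub_zero, max_eq_right h0]

theorem J_count (α β : ℝ) (L : ℕ) (hL : 1 ≤ L) (t : ℝ) (hαβ : α ≤ β) :
    ∑ s ∈ Finset.range L, J α β (t + s / L) ≤ L * (β - α) + 1 := by
  classical
  have hL0 : (0 : ℝ) < L := by exact_mod_cast hL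
  set P := (Finset.range L).filter
    (fun s : ℕ => α ≤ Int.fract (t + (s : ℝ) / L) ∧ Int.fract (t + (s : ℝ) / L) < β) with hP
  have h1 : ∑ s ∈ Finset.range L, J α β (t + s / L) = (P.card : ℝ) := by
    rw [hP, Finset.card_filter]
    push_cast
    refine Finset.sum_congr rfl (fun s _ => ?_)
    unfold J
    split_ifs <;> simp
  rw [h1]
  set f0 := Int.fract ((L : ℝ) * t) with hf0
  have hz : ∀ s : ℕ, (L : ℝ) * Int.fract (t + (s : ℝ) / L) =
      ((⌊(L : ℝ) * t⌋ + s - L * ⌊t + (s : ℝ) / L⌋ : ℤ) : ℝ) + f0 := by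
    intro s
    rw [Int.fract]
    have : (L : ℝ) * t = ⌊(L : ℝ) * t⌋ + f0 := (Int.floor_add_fract _).symm
    push_cast
    have h2 : (L : ℝ) * (t + (s : ℝ) / L - ⌊t + (s : ℝ) / L⌋) =
      L * t + s - L * ⌊t + (s : ℝ) / L⌋ := by field_simp
    rw [h2]
    linarith
  have hinj : Set.InjOn (fun s : ℕ => (⌊(L : ℝ) * t⌋ + s - L * ⌊t + (s : ℝ) / L⌋ : ℤ))
      (P : Set ℕ) := by
    intro s hs s' hs' h
    have hs1 : s < L := by
      have := (Finset.mem_filter.1 hs).1
      exact Finset.mem_range.1 this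
    have hs2 : s' < L := by
      have := (Finset.mem_filter.1 hs').1
      exact Finset.mem_range.1 this
    simp only at h
    have h3 : (s : ℤ) ≡ s' [ZMOD L] := by
      rw [Int.modEq_iff_dvd]
      refine ⟨⌊t + (s' : ℝ) / L⌋ - ⌊t + (s : ℝ) / L⌋, ?_⟩
      linarith
    have h4 : s ≡ s' [MOD L] := by exact_mod_cast (Int.natCast_modEq_iff.1 h3)
    exact Nat.ModEq.eq_of_lt_of_lt h4 hs1 hs2
  have hmap : ∀ s ∈ P, (⌊(L : ℝ) * t⌋ + s - L * ⌊t + (s : ℝ) / L⌋ : ℤ) ∈
      Finset.Ico ⌈L * α - f0⌉ ⌈L * β - f0⌉ := by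
    intro s hs
    have h2 := (Finset.mem_filter.1 hs).2
    have h3 := hz s
    rw [Finset.mem_Ico, Int.ceil_le, Int.lt_ceil]
    constructor
    · have : (L : ℝ) * α ≤ L * Int.fract (t + (s : ℝ) / L) :=
        mul_le_mul_of_nonneg_left h2.1 hL0.le
      rw [h3] at this
      linarith
    · have : (L : ℝ) * Int.fract (t + (s : ℝ) / L) < L * β :=
        mul_lt_mul_of_pos_left h2.2 hL0
      rw [h3] at this
      linarith
  have hcard : P.card ≤ (Finset.Ico ⌈L * α - f0⌉ ⌈L * β - f0⌉).card :=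
    Finset.card_le_card_of_injOn _ hmap hinj
  rw [Int.card_Ico] at hcard
  have h5 : (P.card : ℝ) ≤ (((⌈L * β - f0⌉ - ⌈L * α - f0⌉).toNat : ℕ) : ℝ) := by
    exact_mod_cast hcard
  refine le_trans h5 ?_
  have h6 : L * α ≤ L * β := mul_le_mul_of_nonneg_left hαβ hL0.le
  have h7 : ⌈L * α - f0⌉ ≤ ⌈L * β - f0⌉ := Int.ceil_le_ceil (by linarith)
  have h8 : (((⌈L * β - f0⌉ - ⌈L * α - f0⌉).toNat : ℕ) : ℝ) =
      (⌈L * β - f0⌉ : ℝ) - ⌈L * α - f0⌉ := by
    have : (((⌈L * β - f0⌉ - ⌈L * α - f0⌉).toNat : ℕ) : ℤ) = ⌈L * β - f0⌉ - ⌈L * α - f0⌉ :=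
      Int.toNat_of_nonneg (by omega)
    exact_mod_cast this
  rw [h8]
  have h9 := Int.ceil_lt_add_one (L * β - f0)
  have h10 := Int.le_ceil (L * α - f0)
  linarith

/-- tent function -/
noncomputable def hx (e z : ℝ) : ℝ := max 0 (e - |z - round z|)

/-- indicator that the distance to the nearest integer is less than `e` -/
noncomputable def nr (e z : ℝ) : ℝ := if |z - round z| < e then 1 else 0

theorem arc {e : ℝ} (he : e ≤ 1 / 2) (x z : ℝ) :
    I e x * I e (x + z) = J (max 0 (-(z - round z))) (min e (e - (z - round z))) x := by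
  set y := z - round z with hy
  have hy2 : |y| ≤ 1 / 2 := abs_sub_round z
  rw [abs_le] at hy2
  have hfr : Int.fract (x + z) = Int.fract (Int.fract x + y) := by
    have : x + z = (Int.fract x + y) + ((⌊x⌋ + round z : ℤ) : ℝ) := by
      push_cast
      have := Int.floor_add_fract x
      rw [hy]; linarith
    rw [this, Int.fract_add_intCast]
  have hx0 := Int.fract_nonneg x
  unfold I J
  rw [hfr]
  by_cases h1 : Int.fract x < e
  · by_cases h2 : 0 ≤ Int.fract x + y
    · have h3 : Int.fract (Int.fract x + y) = Int.fract x + y :=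
        Int.fract_eq_self.2 ⟨h2, by linarith⟩
      rw [h3, if_pos h1]
      by_cases h4 : Int.fract x + y < e
      · rw [if_pos h4, if_pos, one_mul]
        exact ⟨max_le hx0 (by linarith), lt_min h1 (by linarith)⟩
      · rw [if_neg h4, if_neg, mul_zero]
        rintro ⟨_, h5⟩
        have := lt_of_lt_of_le h5 (min_le_right _ _)
        linarith
    · have h3 : Int.fract (Int.fract x + y) = Int.fract x + y + 1 := by
        have : Int.fract (Int.fract x + y) = Int.fract (Int.fract x + y + ((1 : ℤ) : ℝ)) := by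
          rw [Int.fract_add_intCast]
        rw [this]
        push_cast
        exact Int.fract_eq_self.2 ⟨by linarith, by linarith⟩
      rw [h3, if_neg (show ¬ (Int.fract x + y + 1 < e) by linarith), mul_zero, if_neg]
      rintro ⟨h5, _⟩
      have := le_trans (le_max_right _ _) h5
      linarith
  · rw [if_neg h1, zero_mul, if_neg]
    rintro ⟨_, h5⟩
    exact h1 (lt_of_lt_of_le h5 (min_le_left _ _))

theorem tent_eq (e y : ℝ) : max 0 (min e (e - y) - max 0 (-y)) = max 0 (e - |y|) := by
  rcases le_total 0 y with h | h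
  · rw [max_eq_left (show -y ≤ 0 by linarith), min_eq_right (by linarith), abs_of_nonneg h,
      sub_zero]
  · rw [max_eq_right (show 0 ≤ -y by linarith), min_eq_left (by linarith), abs_of_nonpos h]

theorem arc_integral {e : ℝ} (he : e ≤ 1 / 2) (z : ℝ) :
    ∫ x in (0 : ℝ)..1, I e x * I e (x + z) = hx e z := by
  simp only [arc he]
  rw [J_integral _ _ (le_max_left _ _) (le_trans (min_le_left _ _) (by linarith)), tent_eq]
  rfl

theorem arc_count {e : ℝ} (he : e ≤ 1 / 2) (L : ℕ) (hL : 1 ≤ L) (t z : ℝ) :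
    ∑ s ∈ Finset.range L, I e (t + s / L) * I e (t + s / L + z) ≤ L * hx e z + nr e z := by
  simp only [arc he]
  have h0 := tent_eq e (z - round z)
  by_cases h : |z - round z| < e
  · have h1 : max 0 (-(z - round z)) ≤ min e (e - (z - round z)) := by
      rw [max_eq_right (show 0 ≤ e - |z - round z| by linarith)] at h0
      have h2 : 0 ≤ max 0 (min e (e - (z - round z)) - max 0 (-(z - round z))) := le_max_left _ _
      by_contra h3
      rw [not_le] at h3
      rw [max_eq_left (by linarith)] at h0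
      linarith
    refine le_trans (J_count _ _ L hL t h1) ?_
    have h2 : min e (e - (z - round z)) - max 0 (-(z - round z)) ≤ hx e z := by
      unfold hx; rw [← h0]; exact le_max_right _ _
    have h3 : nr e z = 1 := by unfold nr; rw [if_pos h]
    rw [h3]
    have hL0 : (0 : ℝ) ≤ L := by positivity
    have := mul_le_mul_of_nonneg_left h2 hL0
    linarith
  · have h1 : ∀ s ∈ Finset.range L, J (max 0 (-(z - round z))) (min e (e - (z - round z)))
        (t + s / L) = 0 := by
      intro s _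
      unfold J
      rw [if_neg]
      rintro ⟨h2, h3⟩
      have h4 : max 0 (min e (e - (z - round z)) - max 0 (-(z - round z))) = 0 := by
        rw [h0]; exact max_eq_left (by linarith)
      have h5 := le_of_max_le_right (le_of_eq h4)
      linarith
    rw [Finset.sum_eq_zero h1]
    have : 0 ≤ hx e z := le_max_left _ _
    have : 0 ≤ nr e z := by unfold nr; split_ifs <;> norm_num
    positivity

end Q96.Rot
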