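import Pool.Agent.Q96.RotPsi

/-! Deterministic part and assembly for the first approach times of two rotation orbits. -/

namespace Q96.Rot

open MeasureTheory Set

theorem I_eq_one {e x : ℝ} : I e x = 1 ↔ Int.fract x < e := by
  unfold I; split_ifs with h <;> simp [h]

theorem sub_hit {e : ℝ} (he : e ≤ 1 / 2) (t z : ℝ) (g : ℕ) (hg : 1 ≤ g)
    (h1 : Int.fract t < e) (h2 : Int.fract (t + z) < e) (hd : (g : ℤ) ∣ round z) :
    Int.fract (t + z / g) < e := by
  have h3 : I e t * I e (t + z) = 1 := by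
    rw [I_eq_one.2 h1, I_eq_one.2 h2, one_mul]
  rw [arc he] at h3
  unfold J at h3
  split_ifs at h3 with h4
  · obtain ⟨h5, h6⟩ := h4
    have h7 := le_trans (le_max_right _ _) h5
    have h8 := lt_of_lt_of_le h6 (min_le_right _ _)
    obtain ⟨r, hr⟩ := hd
    have hg0 : (0 : ℝ) < g := by exact_mod_cast hg
    set y := z - round z with hy
    have hz : t + z / g = (Int.fract t + y / g) + ((⌊t⌋ + r : ℤ) : ℝ) := by
      have h9 : z = y + g * r := by
        have : ((round z : ℤ) : ℝ) = g * r := by rw [hr]; push_cast; ring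
        rw [hy, this]; ring
      have h10 := Int.floor_add_fract t
      have h11 : z / g = y / g + r := by
        rw [h9, add_div, mul_div_cancel_left₀ _ hg0.ne']
      rw [h11]; push_cast; linarith
    have hg1 : (1 : ℝ) ≤ g := by exact_mod_cast hg
    have h0 := Int.fract_nonneg t
    have hlow : 0 ≤ Int.fract t + y / g := by
      have : Int.fract t + y / g = ((g - 1) * Int.fract t + (Int.fract t + y)) / g := by
        field_simp; ring
      rw [this]
      refine div_nonneg (add_nonneg (mul_nonneg (by linarith) h0) (by linarith)) hg0.le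
    have hup : Int.fract t + y / g < e := by
      have : Int.fract t + y / g = ((g - 1) * Int.fract t + (Int.fract t + y)) / g := by
        field_simp; ring
      rw [this, div_lt_iff₀ hg0]
      have h12 : (g - 1) * Int.fract t ≤ (g - 1) * e :=
        mul_le_mul_of_nonneg_left h1.le (by linarith)
      linarith
    rw [hz, Int.fract_add_intCast, Int.fract_eq_self.2 ⟨hlow, by linarith⟩]
    exact hup
  · norm_num at h3

theorem pr_eq_zero_imp (i : ℕ) (hi : 1 ≤ i) (z : ℝ) (h : pr i z ≠ 1) :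
    ∃ g : ℕ, 2 ≤ g ∧ g ∣ i ∧ (g : ℤ) ∣ round z := by
  unfold pr at h
  split_ifs at h with h1
  · exact absurd rfl h
  · refine ⟨Nat.gcd (Nat.gcd i 30) (round z).natAbs, ?_, ?_, ?_⟩
    · have h2 : 0 < Nat.gcd (Nat.gcd i 30) (round z).natAbs :=
        Nat.gcd_pos_of_pos_left _ (Nat.gcd_pos_of_pos_left _ hi)
      have h3 : Nat.gcd (Nat.gcd i 30) (round z).natAbs ≠ 1 := h1
      omega
    · exact dvd_trans (Nat.gcd_dvd_left _ _) (Nat.gcd_dvd_left _ _)
    · exact Int.natCast_dvd.2 (Nat.gcd_dvd_right _ _)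

/-- the pairs with `i + k < M` -/
def La (M : ℕ) : Finset (ℕ × ℕ) :=
  (Finset.Ico 1 M ×ˢ Finset.Ico 1 M).filter (fun x => x.1 + x.2 < M)

theorem La_sub (M : ℕ) : La M ⊆ Finset.Ico 1 M ×ˢ Finset.Ico 1 M := Finset.filter_subset _ _

open Classical in
/-- indicator of a hit before `M` -/
noncomputable def V (e : ℝ) (M : ℕ) (a c : ℝ) : ℝ :=
  if ∃ k : ℕ, 1 ≤ k ∧ k < M ∧ Int.fract (k * a + c) < e then 1 else 0

theorem V_nonneg (e : ℝ) (M : ℕ) (a c : ℝ) : 0 ≤ V e M a c := by
  unfold V; split_ifs <;> norm_num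

theorem V_le_one (e : ℝ) (M : ℕ) (a c : ℝ) : V e M a c ≤ 1 := by
  unfold V; split_ifs <;> norm_num

theorem V_ge {e : ℝ} (he : e ≤ 1 / 2) (M : ℕ) (a c : ℝ) :
    ∑ k ∈ Finset.Ico 1 M, I e (k * a + c) - ∑ x ∈ La M, rho e x.1 x.2 a c ≤ V e M a c := by
  classical
  set Hs := (Finset.Ico 1 M).filter (fun k : ℕ => Int.fract ((k : ℝ) * a + c) < e) with hHs
  have h1 : ∑ k ∈ Finset.Ico 1 M, I e (k * a + c) = (Hs.card : ℝ) := by
    rw [hHs, Finset.card_filter]
    push_cast
    refine Finset.sum_congr rfl (fun k _ => ?_)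
    unfold I
    split_ifs <;> simp
  have hmem : ∀ k, k ∈ Hs ↔ (1 ≤ k ∧ k < M) ∧ Int.fract ((k : ℝ) * a + c) < e := by
    intro k; rw [hHs, Finset.mem_filter, Finset.mem_Ico]
  rw [h1]
  rcases Finset.eq_empty_or_nonempty Hs with hE | hN
  · rw [hE]
    have h2 : 0 ≤ ∑ x ∈ La M, rho e x.1 x.2 a c :=
      Finset.sum_nonneg (fun x _ => rho_nonneg _ _ _ _ _)
    have h3 := V_nonneg e M a c
    simp only [Finset.card_empty, Nat.cast_zero]
    linarith
  · have hV : V e M a c = 1 := by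
      unfold V
      rw [if_pos]
      obtain ⟨k, hk⟩ := hN
      rw [hmem] at hk
      exact ⟨k, hk.1.1, hk.1.2, hk.2⟩
    rw [hV]
    set K := Hs.max' hN with hK
    have hKm : K ∈ Hs := Finset.max'_mem _ _
    -- the next hit
    have hex : ∀ k ∈ Hs.erase K, ∃ i, 1 ≤ i ∧ k + i ∈ Hs := by
      intro k hk
      rw [Finset.mem_erase] at hk
      have h2 : k ≤ K := Finset.le_max' _ _ hk.2
      have h3 : k < K := lt_of_le_of_ne h2 hk.1
      exact ⟨K - k, by omega, by rwa [Nat.add_sub_cancel' h2]⟩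
    have hnext : ∀ k ∈ Hs.erase K, ∃ i, (i, k) ∈ La M ∧ rho e i k a c = 1 := by
      intro k hk
      have hkH : k ∈ Hs := Finset.mem_of_mem_erase hk
      have hx := hex k hk
      set i := Nat.find hx with hi
      have hi1 : 1 ≤ i ∧ k + i ∈ Hs := Nat.find_spec hx
      have hmin : ∀ j, j < i → ¬ (1 ≤ j ∧ k + j ∈ Hs) := fun j hj => Nat.find_min hx hj
      have hk2 := (hmem k).1 hkH
      have hki := (hmem (k + i)).1 hi1.2
      have e1 : ((k + i : ℕ) : ℝ) * a + c = k * a + c + i * a := by push_cast; ring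
      rw [e1] at hki
      refine ⟨i, ?_, ?_⟩
      · unfold La
        rw [Finset.mem_filter, Finset.mem_product, Finset.mem_Ico, Finset.mem_Ico]
        simp only
        omega
      · unfold rho
        rw [I_eq_one.2 hk2.2, I_eq_one.2 hki.2, one_mul, one_mul]
        by_contra hpr
        obtain ⟨g, hg2, hgi, hgr⟩ := pr_eq_zero_imp i hi1.1 _ hpr
        obtain ⟨j, hj⟩ := hgi
        have h5 := sub_hit he (k * a + c) (i * a) g (by omega) hk2.2 hki.2 hgr
        have hj1 : 1 ≤ j := by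
          rcases Nat.eq_zero_or_pos j with h | h
          · rw [h, mul_zero] at hj; omega
          · exact h
        have hji : j < i := by
          rw [hj]
          calc j = 1 * j := (one_mul j).symm
            _ < g * j := Nat.mul_lt_mul_of_pos_right (by omega) hj1
        have hg0 : (g : ℝ) ≠ 0 := by
          have : 0 < g := by omega
          positivity
        have e2 : (i : ℝ) * a / g = j * a := by
          have : (i : ℝ) = g * j := by exact_mod_cast hj
          rw [this]; field_simp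
        rw [e2] at h5
        refine hmin j hji ⟨hj1, ?_⟩
        rw [hmem]
        refine ⟨by omega, ?_⟩
        have e3 : ((k + j : ℕ) : ℝ) * a + c = k * a + c + j * a := by push_cast; ring
        rw [e3]; exact h5
    choose! nx hnx using hnext
    have h6 : ((Hs.erase K).card : ℝ) ≤ ∑ x ∈ La M, rho e x.1 x.2 a c := by
      calc ((Hs.erase K).card : ℝ) = ∑ k ∈ Hs.erase K, (1 : ℝ) := by simp
        _ = ∑ k ∈ Hs.erase K, rho e (nx k) k a c :=
            Finset.sum_congr rfl (fun k hk => (hnx k hk).2.symm)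
        _ = ∑ x ∈ (Hs.erase K).image (fun k => (nx k, k)), rho e x.1 x.2 a c := by
            rw [Finset.sum_image]
            intro k _ k' _ h
            exact (Prod.mk.inj h).2
        _ ≤ _ := by
            refine Finset.sum_le_sum_of_subset_of_nonneg ?_ (fun x _ _ => rho_nonneg _ _ _ _ _)
            intro x hx
            rw [Finset.mem_image] at hx
            obtain ⟨k, hk, rfl⟩ := hx
            exact (hnx k hk).1
    rw [Finset.card_erase_of_mem hKm] at h6
    have h7 : 1 ≤ Hs.card := Finset.card_pos.2 hN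
    rw [Nat.cast_sub h7] at h6
    push_cast at h6
    linarith

open Classical in
/-- indicator of no return up to time `M` -/
noncomputable def T (e : ℝ) (M : ℕ) (c : ℝ) : ℝ :=
  if ∀ m : ℕ, 1 ≤ m → m ≤ M → e ≤ Int.fract (m * c) then 1 else 0

theorem T_nonneg (e : ℝ) (M : ℕ) (c : ℝ) : 0 ≤ T e M c := by
  unfold T; split_ifs <;> norm_num

theorem T_le_one (e : ℝ) (M : ℕ) (c : ℝ) : T e M c ≤ 1 := by
  unfold T; split_ifs <;> norm_num

theorem T_anti (e : ℝ) {M N : ℕ} (h : M ≤ N) (c : ℝ) : T e N c ≤ T e M c := by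
  unfold T
  split_ifs with h1 h2
  · exact le_rfl
  · exact absurd (fun m hm hm2 => h1 m hm (le_trans hm2 h)) h2
  · norm_num
  · exact le_rfl

theorem T_ge {e : ℝ} (he0 : 0 < e) (he : e ≤ 1 / 2) (M : ℕ) (c : ℝ) :
    1 - ∑ m ∈ Finset.Ico 1 (M + 1), pr m (m * c) * I e (m * c) ≤ T e M c := by
  classical
  have hnn : ∀ m ∈ Finset.Ico 1 (M + 1), 0 ≤ pr m (m * c) * I e (m * c) :=
    fun m _ => mul_nonneg (pr_nonneg _ _) (I_nonneg _ _)
  unfold T
  split_ifs with h
  · have := Finset.sum_nonneg hnn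
    linarith
  · push Not at h
    have hx : ∃ m : ℕ, 1 ≤ m ∧ m ≤ M ∧ Int.fract ((m : ℝ) * c) < e := h
    set m := Nat.find hx with hm
    obtain ⟨h1, h2, h3⟩ : 1 ≤ m ∧ m ≤ M ∧ Int.fract ((m : ℝ) * c) < e := Nat.find_spec hx
    have hmin : ∀ j, j < m → ¬ (1 ≤ j ∧ j ≤ M ∧ Int.fract ((j : ℝ) * c) < e) :=
      fun j hj => Nat.find_min hx hj
    have h4 : pr m (m * c) = 1 := by
      by_contra hpr
      obtain ⟨g, hg2, hgi, hgr⟩ := pr_eq_zero_imp m h1 _ hpr
      obtain ⟨j, hj⟩ := hgi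
      have h5 := sub_hit he 0 (m * c) g (by omega) (by rw [Int.fract_zero]; exact he0)
        (by rw [zero_add]; exact h3) hgr
      have hj1 : 1 ≤ j := by
        rcases Nat.eq_zero_or_pos j with h | h
        · rw [h, mul_zero] at hj; omega
        · exact h
      have hji : j < m := by
        rw [hj]
        calc j = 1 * j := (one_mul j).symm
          _ < g * j := Nat.mul_lt_mul_of_pos_right (by omega) hj1
      have hg0 : (g : ℝ) ≠ 0 := by
        have : 0 < g := by omega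
        positivity
      have e2 : (m : ℝ) * c / g = j * c := by
        have : (m : ℝ) = g * j := by exact_mod_cast hj
        rw [this]; field_simp
      rw [e2, zero_add] at h5
      exact hmin j hji ⟨hj1, by omega, h5⟩
    have h5 : pr m (m * c) * I e (m * c) = 1 := by rw [h4, I_eq_one.2 h3, one_mul]
    have h6 := Finset.single_le_sum (f := fun m : ℕ => pr m (m * c) * I e (m * c)) hnn
      (Finset.mem_Ico.2 ⟨h1, by omega⟩ : m ∈ Finset.Ico 1 (M + 1))
    rw [h5] at h6
    linarith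

theorem T_meas (e : ℝ) (M : ℕ) : Measurable (T e M) := by
  unfold T
  refine Measurable.ite ?_ measurable_const measurable_const
  have : {c : ℝ | ∀ m : ℕ, 1 ≤ m → m ≤ M → e ≤ Int.fract ((m : ℝ) * c)} =
      ⋂ m : ℕ, {c : ℝ | 1 ≤ m → m ≤ M → e ≤ Int.fract ((m : ℝ) * c)} := by
    ext c; simp
  rw [this]
  refine MeasurableSet.iInter (fun m => ?_)
  by_cases h : 1 ≤ m ∧ m ≤ M
  · have : {c : ℝ | 1 ≤ m → m ≤ M → e ≤ Int.fract ((m : ℝ) * c)} =
        {c : ℝ | e ≤ Int.fract ((m : ℝ) * c)} := by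
      ext c; simp [h.1, h.2]
    rw [this]
    exact measurableSet_le measurable_const
      (measurable_fract.comp (measurable_id.const_mul _))
  · have : {c : ℝ | 1 ≤ m → m ≤ M → e ≤ Int.fract ((m : ℝ) * c)} = univ := by
      ext c
      simp only [mem_ofPred_eq, mem_univ, iff_true]
      intro h1 h2
      exact absurd ⟨h1, h2⟩ h
    rw [this]
    exact MeasurableSet.univ

theorem T_integral {e : ℝ} (he0 : 0 < e) (he : e ≤ 1 / 2) (M : ℕ) :
    1 - e * (16 / 25 * (M + 1) + 30) ≤ ∫ c in (0 : ℝ)..1, T e M c := by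
  have hTa : ∀ c, |T e M c| ≤ 1 := fun c => by
    rw [abs_of_nonneg (T_nonneg _ _ _)]; exact T_le_one _ _ _
  have hmm : ∀ m : ℕ, Measurable (fun c : ℝ => pr m (m * c) * I e (m * c)) := fun m =>
    ((pr_meas m).comp (measurable_id.const_mul _)).mul
      ((I_meas e).comp (measurable_id.const_mul _))
  have hma : ∀ (m : ℕ) (c : ℝ), |pr m (m * c) * I e (m * c)| ≤ 1 := by
    intro m c
    rw [abs_mul]
    calc _ ≤ (1 : ℝ) * 1 := mul_le_mul (pr_abs _ _) (I_abs e _) (abs_nonneg _) (by norm_num)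
      _ = 1 := one_mul 1
  have hii : IntervalIntegrable
      (fun c : ℝ => ∑ m ∈ Finset.Ico 1 (M + 1), pr m (m * c) * I e (m * c)) volume 0 1 :=
    ii_sum _ (fun m _ => bdd_int (hmm m) (hma m) _ _)
  have h1 : ∫ c in (0 : ℝ)..1, (1 - ∑ m ∈ Finset.Ico 1 (M + 1), pr m (m * c) * I e (m * c)) ≤
      ∫ c in (0 : ℝ)..1, T e M c :=
    intervalIntegral.integral_mono (by norm_num) (intervalIntegrable_const.sub hii)
      (bdd_int (T_meas e M) hTa _ _) (T_ge he0 he M)
  refine le_trans ?_ h1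
  rw [intervalIntegral.integral_sub intervalIntegrable_const hii,
    intervalIntegral.integral_const,
    intervalIntegral.integral_finsetSum
      (f := fun (m : ℕ) (c : ℝ) => pr m (m * c) * I e (m * c))
      (fun m _ => bdd_int (hmm m) (hma m) _ _)]
  have h2 : ∀ m ∈ Finset.Ico 1 (M + 1), ∫ c in (0 : ℝ)..1, pr m (m * c) * I e (m * c) =
      w m * e := by
    intro m hm
    rw [Finset.mem_Ico] at hm
    rw [scale_pr m hm.1 (I_per e) (I_meas e) (I_abs e), I_integral e he0.le (by linarith)]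
  rw [Finset.sum_congr rfl h2, ← Finset.sum_mul]
  have h3 : ∑ m ∈ Finset.Ico 1 (M + 1), w m ≤ 16 / 25 * (M + 1) + 30 := by
    have := sum_w_le (M + 1)
    push_cast at this
    refine le_trans ?_ this
    exact Finset.sum_le_sum_of_subset_of_nonneg
      (fun m hm => by rw [Finset.mem_Ico] at hm; rw [Finset.mem_range]; exact hm.2)
      (fun m _ _ => w_nonneg m)
  have h4 := mul_le_mul_of_nonneg_right h3 he0.le
  simp only [sub_zero, one_smul]
  linarith

theorem V_meas (e : ℝ) (M : ℕ) : Measurable (fun z : ℝ × ℝ => V e M z.1 z.2) := by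
  unfold V
  refine Measurable.ite ?_ measurable_const measurable_const
  have : {z : ℝ × ℝ | ∃ k : ℕ, 1 ≤ k ∧ k < M ∧ Int.fract ((k : ℝ) * z.1 + z.2) < e} =
      ⋃ k : ℕ, {z : ℝ × ℝ | 1 ≤ k ∧ k < M ∧ Int.fract ((k : ℝ) * z.1 + z.2) < e} := by
    ext z; simp
  rw [this]
  refine MeasurableSet.iUnion (fun k => ?_)
  by_cases h : 1 ≤ k ∧ k < M
  · have : {z : ℝ × ℝ | 1 ≤ k ∧ k < M ∧ Int.fract ((k : ℝ) * z.1 + z.2) < e} =
        {z : ℝ × ℝ | Int.fract ((k : ℝ) * z.1 + z.2) < e} := by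
      ext z; simp [h.1, h.2]
    rw [this]
    exact measurableSet_lt (measurable_fract.comp
      ((measurable_fst.const_mul _).add measurable_snd)) measurable_const
  · have : {z : ℝ × ℝ | 1 ≤ k ∧ k < M ∧ Int.fract ((k : ℝ) * z.1 + z.2) < e} = ∅ := by
      ext z
      simp only [mem_ofPred_eq, mem_empty_iff_false, iff_false]
      rintro ⟨h1, h2, _⟩
      exact h ⟨h1, h2⟩
    rw [this]
    exact MeasurableSet.empty

theorem V_int_ge {e : ℝ} (he0 : 0 < e) (he : e ≤ 1 / 2) (M : ℕ) (hM : 1 ≤ M) (c : ℝ) :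
    ((M : ℝ) - 1) * e - SS e (La M) c ≤ ∫ a in (0 : ℝ)..1, V e M a c := by
  have hVm : Measurable (fun a => V e M a c) :=
    (V_meas e M).comp (measurable_id.prodMk measurable_const)
  have hVa : ∀ a, |V e M a c| ≤ 1 := fun a => by
    rw [abs_of_nonneg (V_nonneg _ _ _ _)]; exact V_le_one _ _ _ _
  have hIm : ∀ k : ℕ, Measurable (fun a : ℝ => I e (k * a + c)) := fun k =>
    (I_meas e).comp ((measurable_id.const_mul _).add_const _)
  have hrm : ∀ x : ℕ × ℕ, Measurable (fun a => rho e x.1 x.2 a c) := fun x =>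
    (rho_meas e x.1 x.2).comp (measurable_id.prodMk measurable_const)
  have i1 : IntervalIntegrable (fun a => ∑ k ∈ Finset.Ico 1 M, I e (k * a + c)) volume 0 1 :=
    ii_sum _ (fun k _ => bdd_int (hIm k) (fun a => I_abs e _) _ _)
  have i2 : IntervalIntegrable (fun a => ∑ x ∈ La M, rho e x.1 x.2 a c) volume 0 1 :=
    ii_sum _ (fun x _ => bdd_int (hrm x) (fun a => rho_abs e _ _ _ _) _ _)
  have h1 : ∫ a in (0 : ℝ)..1, (∑ k ∈ Finset.Ico 1 M, I e (k * a + c) -
      ∑ x ∈ La M, rho e x.1 x.2 a c) ≤ ∫ a in (0 : ℝ)..1, V e M a c :=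
    intervalIntegral.integral_mono (by norm_num) (i1.sub i2) (bdd_int hVm hVa _ _)
      (fun a => V_ge he M a c)
  refine le_trans (le_of_eq ?_) h1
  rw [intervalIntegral.integral_sub i1 i2,
    intervalIntegral.integral_finsetSum (f := fun (k : ℕ) (a : ℝ) => I e (k * a + c))
      (fun k _ => bdd_int (hIm k) (fun a => I_abs e _) _ _),
    intervalIntegral.integral_finsetSum (f := fun (x : ℕ × ℕ) (a : ℝ) => rho e x.1 x.2 a c)
      (fun x _ => bdd_int (hrm x) (fun a => rho_abs e _ _ _ _) _ _)]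
  congr 1
  have h2 : ∀ k ∈ Finset.Ico 1 M, ∫ a in (0 : ℝ)..1, I e (k * a + c) = e := by
    intro k hk
    rw [Finset.mem_Ico] at hk
    have hper : Function.Periodic (fun x => I e (x + c)) 1 := by
      intro x
      simp only
      rw [add_right_comm, I_per e]
    have h3 := scale_one (g := fun x => I e (x + c)) k hk.1 hper
      ((I_meas e).comp (measurable_id.add_const _)) (C := 1) (fun x => I_abs e _)
    rw [h3, shift (I_per e), I_integral e he0.le (by linarith)]
  rw [Finset.sum_congr rfl h2, Finset.sum_const, Nat.card_Ico, nsmul_eq_mul, Nat.cast_sub hM]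
  push_cast
  rfl

theorem sum_range_cast (n : ℕ) : ∑ k ∈ Finset.range n, (k : ℝ) = n * (n - 1) / 2 := by
  induction n with
  | zero => simp
  | succ n ih => rw [Finset.sum_range_succ, ih]; push_cast; ring

theorem SS_mean_le {e : ℝ} (he0 : 0 < e) (he : e ≤ 1 / 2) (M : ℕ) (hM : 1 ≤ M) :
    ∫ c in (0 : ℝ)..1, SS e (La M) c ≤ e ^ 2 * (8 / 25 * M ^ 2 + 30 * M) := by
  have hLa : ∀ x ∈ La M, 1 ≤ x.1 := by
    intro x hx
    have := La_sub M hx
    rw [Finset.mem_product, Finset.mem_Ico] at this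
    exact this.1.1
  rw [SS_integral he0.le he (La M) hLa, ← Finset.sum_mul, mul_comm]
  refine mul_le_mul_of_nonneg_left ?_ (by positivity)
  have h1 : ∑ x ∈ La M, w x.1 ≤ ∑ k ∈ Finset.Ico 1 M, ∑ i ∈ Finset.range (M - k), w i := by
    unfold La
    rw [Finset.sum_filter, Finset.sum_product_right]
    refine Finset.sum_le_sum (fun k _ => ?_)
    rw [← Finset.sum_filter]
    refine Finset.sum_le_sum_of_subset_of_nonneg ?_ (fun i _ _ => w_nonneg i)
    intro i hi
    rw [Finset.mem_filter] at hi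
    rw [Finset.mem_range]
    have := hi.2
    simp only at this
    omega
  refine le_trans h1 ?_
  have h2 : ∀ k ∈ Finset.Ico 1 M, ∑ i ∈ Finset.range (M - k), w i ≤
      16 / 25 * ((M : ℝ) - k) + 30 := by
    intro k hk
    rw [Finset.mem_Ico] at hk
    have := sum_w_le (M - k)
    rwa [Nat.cast_sub hk.2.le] at this
  refine le_trans (Finset.sum_le_sum h2) ?_
  have h3 : ∑ k ∈ Finset.Ico 1 M, (k : ℝ) = M * (M - 1) / 2 := by
    have h4 := sum_range_cast M
    rw [Finset.range_eq_Ico, Finset.sum_eq_sum_Ico_succ_bot (by omega)] at h4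
    simpa using h4
  rw [Finset.sum_add_distrib, ← Finset.mul_sum, Finset.sum_sub_distrib, h3, Finset.sum_const,
    Finset.sum_const, Nat.card_Ico, nsmul_eq_mul, nsmul_eq_mul, Nat.cast_sub hM]
  push_cast
  have : (1 : ℝ) ≤ M := by exact_mod_cast hM
  nlinarith

/-- the truncated no-return indicator -/
noncomputable def TT (e : ℝ) (m r l : ℕ) (c : ℝ) : ℝ := if l ≤ r then T e (l * m) c else 0

theorem TT_meas (e : ℝ) (m r l : ℕ) : Measurable (TT e m r l) := by
  unfold TT
  split_ifs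
  · exact T_meas e _
  · exact measurable_const

theorem TT_nonneg (e : ℝ) (m r l : ℕ) (c : ℝ) : 0 ≤ TT e m r l c := by
  unfold TT; split_ifs
  · exact T_nonneg _ _ _
  · exact le_rfl

theorem TT_le_one (e : ℝ) (m r l : ℕ) (c : ℝ) : TT e m r l c ≤ 1 := by
  unfold TT; split_ifs
  · exact T_le_one _ _ _
  · norm_num

theorem TT_abs (e : ℝ) (m r l : ℕ) (c : ℝ) : |TT e m r l c| ≤ 1 := by
  rw [abs_of_nonneg (TT_nonneg _ _ _ _ _)]; exact TT_le_one _ _ _ _ _

theorem TT_anti (e : ℝ) (m r l : ℕ) (c : ℝ) : TT e m r (l + 1) c ≤ TT e m r l c := by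
  unfold TT
  by_cases h : l + 1 ≤ r
  · rw [if_pos h, if_pos (by omega)]
    exact T_anti e (Nat.mul_le_mul_right m (Nat.le_succ l)) c
  · rw [if_neg h]
    split_ifs
    · exact T_nonneg _ _ _
    · exact le_rfl

/-- the winning condition: the orbit of `c` by `a` hits strictly before the return of `c` -/
def Win (e a c : ℝ) : Prop :=
  ∃ k : ℕ, 1 ≤ k ∧ Int.fract (k * a + c) < e ∧ ∀ m : ℕ, 1 ≤ m → m ≤ k + 1 →
    e ≤ Int.fract (m * c)

open Classical in
/-- indicator of winning -/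
noncomputable def F (e a c : ℝ) : ℝ := if Win e a c then 1 else 0

theorem F_nonneg (e a c : ℝ) : 0 ≤ F e a c := by unfold F; split_ifs <;> norm_num

theorem F_le_one (e a c : ℝ) : F e a c ≤ 1 := by unfold F; split_ifs <;> norm_num

theorem F_abs (e a c : ℝ) : |F e a c| ≤ 1 := by
  rw [abs_of_nonneg (F_nonneg _ _ _)]; exact F_le_one _ _ _

theorem Win_measSet (e : ℝ) : MeasurableSet {z : ℝ × ℝ | Win e z.1 z.2} := by
  have : {z : ℝ × ℝ | Win e z.1 z.2} =
      ⋃ k : ℕ, {z : ℝ × ℝ | 1 ≤ k ∧ Int.fract (k * z.1 + z.2) < e ∧ ∀ m : ℕ, 1 ≤ m →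
        m ≤ k + 1 → e ≤ Int.fract (m * z.2)} := by
    ext z; simp [Win]
  rw [this]
  refine MeasurableSet.iUnion (fun k => ?_)
  have h2 : {z : ℝ × ℝ | 1 ≤ k ∧ Int.fract (k * z.1 + z.2) < e ∧ ∀ m : ℕ, 1 ≤ m →
        m ≤ k + 1 → e ≤ Int.fract (m * z.2)} =
      {_z : ℝ × ℝ | 1 ≤ k} ∩ ({z : ℝ × ℝ | Int.fract (k * z.1 + z.2) < e} ∩
        ⋂ m : ℕ, ({_z : ℝ × ℝ | ¬ (1 ≤ m ∧ m ≤ k + 1)} ∪
          {z : ℝ × ℝ | e ≤ Int.fract (m * z.2)})) := by
    ext z
    simp only [mem_ofPred_eq, mem_inter_iff, mem_iInter, mem_union]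
    constructor
    · rintro ⟨h1, h2, h3⟩
      refine ⟨h1, h2, fun m => ?_⟩
      by_cases h : 1 ≤ m ∧ m ≤ k + 1
      · exact Or.inr (h3 m h.1 h.2)
      · exact Or.inl h
    · rintro ⟨h1, h2, h3⟩
      refine ⟨h1, h2, fun m hm1 hm2 => ?_⟩
      rcases h3 m with h | h
      · exact absurd ⟨hm1, hm2⟩ h
      · exact h
  rw [h2]
  refine MeasurableSet.inter (MeasurableSet.const _) (MeasurableSet.inter ?_ ?_)
  · exact measurableSet_lt (measurable_fract.comp
      ((measurable_fst.const_mul _).add measurable_snd)) measurable_const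
  · refine MeasurableSet.iInter (fun m => MeasurableSet.union (MeasurableSet.const _) ?_)
    exact measurableSet_le measurable_const
      (measurable_fract.comp (measurable_snd.const_mul _))

theorem F_meas (e : ℝ) : Measurable (fun z : ℝ × ℝ => F e z.1 z.2) := by
  unfold F
  exact Measurable.ite (Win_measSet e) measurable_const measurable_const

theorem F_ge (e : ℝ) (m r : ℕ) (a c : ℝ) :
    ∑ l ∈ Finset.range r, (TT e m r (l + 1) c - TT e m r (l + 2) c) * V e ((l + 1) * m) a c ≤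
      F e a c := by
  classical
  unfold F
  split_ifs with h
  · calc ∑ l ∈ Finset.range r, (TT e m r (l + 1) c - TT e m r (l + 2) c) * V e ((l + 1) * m) a c
        ≤ ∑ l ∈ Finset.range r, (TT e m r (l + 1) c - TT e m r (l + 1 + 1) c) := by
          refine Finset.sum_le_sum (fun l _ => ?_)
          have h1 := TT_anti e m r (l + 1) c
          have h2 := V_le_one e ((l + 1) * m) a c
          calc _ ≤ (TT e m r (l + 1) c - TT e m r (l + 2) c) * 1 :=
                mul_le_mul_of_nonneg_left h2 (by linarith)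
            _ = _ := mul_one _
      _ = TT e m r (0 + 1) c - TT e m r (r + 1) c :=
          Finset.sum_range_sub' (fun l => TT e m r (l + 1) c) r
      _ ≤ 1 := by
          have h1 := TT_le_one e m r (0 + 1) c
          have h2 := TT_nonneg e m r (r + 1) c
          linarith
  · refine Finset.sum_nonpos (fun l hl => ?_)
    rw [Finset.mem_range] at hl
    by_cases hV : ∃ k : ℕ, 1 ≤ k ∧ k < (l + 1) * m ∧ Int.fract (k * a + c) < e
    · obtain ⟨k, hk1, hk2, hk3⟩ := hV
      have hT : TT e m r (l + 1) c = 0 := by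
        unfold TT
        rw [if_pos (by omega)]
        unfold T
        rw [if_neg]
        intro h1
        exact h ⟨k, hk1, hk3, fun m' hm1 hm2 => h1 m' hm1 (by omega)⟩
      have h1 := TT_anti e m r (l + 1) c
      have h2 := TT_nonneg e m r (l + 2) c
      have h3 : TT e m r (l + 2) c = 0 := le_antisymm (by rw [← hT]; exact h1) h2
      rw [hT, h3]; simp
    · unfold V
      rw [if_neg hV, mul_zero]

theorem abel (t g : ℕ → ℝ) (n : ℕ) :
    ∑ l ∈ Finset.range n, (t (l + 1) - t (l + 2)) * g (l + 1) =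
      ∑ l ∈ Finset.range n, t (l + 1) * (g (l + 1) - g l) + t 1 * g 0 - t (n + 1) * g n := by
  induction n with
  | zero => simp
  | succ n ih => rw [Finset.sum_range_succ, Finset.sum_range_succ, ih]; ring

/-- the winning probability -/
noncomputable def P (e : ℝ) : ℝ := ∫ c in (0 : ℝ)..1, ∫ a in (0 : ℝ)..1, F e a c

theorem P_ge {e : ℝ} (he0 : 0 < e) (he : e ≤ 1 / 2) (m r : ℕ) (hm : 1 ≤ m)
    (hmr : (r : ℝ) * (m * e) ≤ 25 / 16) (lam : ℝ) (hlam : 0 < lam) :
    ∑ l ∈ Finset.range r, (1 - 16 / 25 * (l + 1) * (m * e) - 31 * e) *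
      (m * e - 8 / 25 * (m * e) ^ 2 * (2 * l + 1)) -
      r * (48 * e + lam + 4400 * (e * (1 + Real.log (2 / e)) ^ 5) / lam) ≤ P e := by
  set u : ℝ := m * e with hu
  have hu0 : 0 < u := by
    have : (0 : ℝ) < m := by exact_mod_cast hm
    positivity
  set t : ℕ → ℝ := fun l => ∫ c in (0 : ℝ)..1, TT e m r l c with ht
  have tint : ∀ l, IntervalIntegrable (TT e m r l) volume 0 1 := fun l =>
    bdd_int (TT_meas e m r l) (TT_abs e m r l) _ _
  have tanti : ∀ l, t (l + 1) ≤ t l := fun l =>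
    intervalIntegral.integral_mono (by norm_num) (tint _) (tint _) (TT_anti e m r l)
  have t0 : ∀ l, 0 ≤ t l := fun l => int_nonneg (TT_nonneg e m r l)
  have t1 : ∀ l, t l ≤ 1 := fun l => le_trans (le_abs_self _) (int_abs_le (TT_abs e m r l))
  set B : ℝ := 1 + Real.log (2 / e) with hB
  -- step 1: reduce to the c-integral
  have hVm : ∀ l : ℕ, Measurable (fun c => ∫ a in (0 : ℝ)..1, V e ((l + 1) * m) a c) :=
    fun l => meas_int (V_meas e _)
  have hVa : ∀ (l : ℕ) (a c : ℝ), |V e ((l + 1) * m) a c| ≤ 1 := fun l a c => by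
    rw [abs_of_nonneg (V_nonneg _ _ _ _)]; exact V_le_one _ _ _ _
  have hDm : ∀ l : ℕ, Measurable (fun c => TT e m r (l + 1) c - TT e m r (l + 2) c) :=
    fun l => (TT_meas e m r (l + 1)).sub (TT_meas e m r (l + 2))
  have hD0 : ∀ (l : ℕ) (c : ℝ), 0 ≤ TT e m r (l + 1) c - TT e m r (l + 2) c := fun l c => by
    have := TT_anti e m r (l + 1) c
    linarith
  have hD1 : ∀ (l : ℕ) (c : ℝ), TT e m r (l + 1) c - TT e m r (l + 2) c ≤ 1 := fun l c => by
    have h1 := TT_le_one e m r (l + 1) c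
    have h2 := TT_nonneg e m r (l + 2) c
    linarith
  have hDa : ∀ (l : ℕ) (c : ℝ), |TT e m r (l + 1) c - TT e m r (l + 2) c| ≤ 1 := fun l c => by
    rw [abs_of_nonneg (hD0 l c)]; exact hD1 l c
  have hDS : ∀ l : ℕ, IntervalIntegrable (fun c => (TT e m r (l + 1) c - TT e m r (l + 2) c) *
      SS e (La ((l + 1) * m)) c) volume 0 1 := by
    intro l
    refine bdd_int (f := fun c => (TT e m r (l + 1) c - TT e m r (l + 2) c) *
      SS e (La ((l + 1) * m)) c) (C := 1 * (La ((l + 1) * m)).card)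
      ((hDm l).mul (SS_meas e _)) ?_ _ _
    intro c
    rw [abs_mul]
    exact mul_le_mul (hDa l c) (SS_abs e _ c) (abs_nonneg _) (by norm_num)
  have hDc : ∀ l : ℕ, IntervalIntegrable (fun c => TT e m r (l + 1) c - TT e m r (l + 2) c)
      volume 0 1 := fun l => (tint _).sub (tint _)
  have hDint : ∀ l : ℕ, ∫ c in (0 : ℝ)..1, (TT e m r (l + 1) c - TT e m r (l + 2) c) =
      t (l + 1) - t (l + 2) := fun l => intervalIntegral.integral_sub (tint _) (tint _)
  have s1 : ∑ l ∈ Finset.range r, ∫ c in (0 : ℝ)..1,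
      (TT e m r (l + 1) c - TT e m r (l + 2) c) *
        (((((l + 1) * m : ℕ) : ℝ) - 1) * e - SS e (La ((l + 1) * m)) c) ≤ P e := by
    have hli : ∀ l : ℕ, IntervalIntegrable (fun c => (TT e m r (l + 1) c - TT e m r (l + 2) c) *
        (((((l + 1) * m : ℕ) : ℝ) - 1) * e - SS e (La ((l + 1) * m)) c)) volume 0 1 := by
      intro l
      have h1 : (fun c => (TT e m r (l + 1) c - TT e m r (l + 2) c) *
        (((((l + 1) * m : ℕ) : ℝ) - 1) * e - SS e (La ((l + 1) * m)) c)) =
        fun c => (TT e m r (l + 1) c - TT e m r (l + 2) c) *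
          ((((l + 1) * m : ℕ) : ℝ) - 1) * e - (TT e m r (l + 1) c - TT e m r (l + 2) c) *
          SS e (La ((l + 1) * m)) c := by funext c; ring
      rw [h1]
      exact (((hDc l).mul_const _).mul_const _).sub (hDS l)
    rw [← intervalIntegral.integral_finsetSum
      (f := fun (l : ℕ) c => (TT e m r (l + 1) c - TT e m r (l + 2) c) *
        (((((l + 1) * m : ℕ) : ℝ) - 1) * e - SS e (La ((l + 1) * m)) c)) (fun l _ => hli l)]
    unfold P
    refine intervalIntegral.integral_mono (by norm_num) (ii_sum _ (fun l _ => hli l)) ?_ ?_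
    · exact bdd_int (meas_int (F_meas e)) (fun c => int_abs_le (fun a => F_abs e a c)) _ _
    · intro c
      simp only
      have h1 : ∑ l ∈ Finset.range r, (TT e m r (l + 1) c - TT e m r (l + 2) c) *
          ∫ a in (0 : ℝ)..1, V e ((l + 1) * m) a c ≤ ∫ a in (0 : ℝ)..1, F e a c := by
        have hVi : ∀ l : ℕ, IntervalIntegrable (fun a => (TT e m r (l + 1) c -
            TT e m r (l + 2) c) * V e ((l + 1) * m) a c) volume 0 1 := fun l =>
          (bdd_int ((V_meas e _).comp (measurable_id.prodMk measurable_const))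
            (fun a => hVa l a c) _ _).const_mul _
        have h2 : ∑ l ∈ Finset.range r, (TT e m r (l + 1) c - TT e m r (l + 2) c) *
          ∫ a in (0 : ℝ)..1, V e ((l + 1) * m) a c = ∫ a in (0 : ℝ)..1,
            ∑ l ∈ Finset.range r, (TT e m r (l + 1) c - TT e m r (l + 2) c) *
              V e ((l + 1) * m) a c := by
          rw [intervalIntegral.integral_finsetSum (f := fun (l : ℕ) a =>
            (TT e m r (l + 1) c - TT e m r (l + 2) c) * V e ((l + 1) * m) a c)
            (fun l _ => hVi l)]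
          refine Finset.sum_congr rfl (fun l _ => ?_)
          rw [intervalIntegral.integral_const_mul]
        rw [h2]
        refine intervalIntegral.integral_mono (by norm_num) (ii_sum _ (fun l _ => hVi l)) ?_
          (fun a => F_ge e m r a c)
        exact bdd_int ((F_meas e).comp (measurable_id.prodMk measurable_const))
          (fun a => F_abs e a c) _ _
      refine le_trans (Finset.sum_le_sum (fun l _ => ?_)) h1
      refine mul_le_mul_of_nonneg_left ?_ (hD0 l c)
      exact V_int_ge he0 he ((l + 1) * m) (Nat.mul_pos (Nat.succ_pos l) hm) c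
  refine le_trans ?_ s1
  -- step 2: each term
  have s2 : ∀ l ∈ Finset.range r, (t (l + 1) - t (l + 2)) *
      (((l : ℝ) + 1) * u - 8 / 25 * (((l : ℝ) + 1) * u) ^ 2) -
      (48 * e + lam + 4400 * (e * B ^ 5) / lam) ≤ ∫ c in (0 : ℝ)..1,
      (TT e m r (l + 1) c - TT e m r (l + 2) c) *
        (((((l + 1) * m : ℕ) : ℝ) - 1) * e - SS e (La ((l + 1) * m)) c) := by
    intro l hl
    rw [Finset.mem_range] at hl
    set M := (l + 1) * m with hM
    have hM1 : 1 ≤ M := Nat.mul_pos (Nat.succ_pos l) hm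
    have h1 : ∫ c in (0 : ℝ)..1, (TT e m r (l + 1) c - TT e m r (l + 2) c) *
        (((M : ℝ) - 1) * e - SS e (La M) c) =
        (t (l + 1) - t (l + 2)) * (((M : ℝ) - 1) * e) -
        ∫ c in (0 : ℝ)..1, (TT e m r (l + 1) c - TT e m r (l + 2) c) * SS e (La M) c := by
      rw [← hDint l, ← intervalIntegral.integral_mul_const,
        ← intervalIntegral.integral_sub ((hDc l).mul_const _) (hDS l)]
      congr 1
      funext c
      ring
    rw [h1]
    have h2 := decorr he0.le he (La M) M (La_sub M) _ (hDm l) (hD0 l) (hD1 l) lam hlam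
    rw [hDint l] at h2
    have h3 := SS_mean_le he0 he M hM1
    have hd0 : 0 ≤ t (l + 1) - t (l + 2) := by
      have := tanti (l + 1)
      linarith
    have hd1 : t (l + 1) - t (l + 2) ≤ 1 := by
      have h4 := t1 (l + 1)
      have h5 := t0 (l + 2)
      linarith
    have hMe : (M : ℝ) * e = ((l : ℝ) + 1) * u := by rw [hM, hu]; push_cast; ring
    have hMe0 : 0 ≤ (M : ℝ) * e := by positivity
    have hMe2 : (M : ℝ) * e ≤ 25 / 16 := by
      rw [hMe]
      refine le_trans (mul_le_mul_of_nonneg_right ?_ hu0.le) hmr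
      exact_mod_cast hl
    -- the mean
    have h4 : (t (l + 1) - t (l + 2)) * ∫ c in (0 : ℝ)..1, SS e (La M) c ≤
        (t (l + 1) - t (l + 2)) * (e ^ 2 * (8 / 25 * M ^ 2 + 30 * M)) :=
      mul_le_mul_of_nonneg_left h3 hd0
    have h5 : e ^ 2 * (8 / 25 * (M : ℝ) ^ 2 + 30 * M) =
        8 / 25 * ((M : ℝ) * e) ^ 2 + 30 * e * (M * e) := by ring
    have h6 : ((M : ℝ) - 1) * e = M * e - e := by ring
    have h7 : (t (l + 1) - t (l + 2)) * (e + 30 * e * ((M : ℝ) * e)) ≤ 48 * e := by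
      have h8 : e + 30 * e * ((M : ℝ) * e) ≤ 48 * e := by nlinarith
      have h9 : 0 ≤ e + 30 * e * ((M : ℝ) * e) := by positivity
      calc (t (l + 1) - t (l + 2)) * (e + 30 * e * ((M : ℝ) * e))
          ≤ 1 * (e + 30 * e * ((M : ℝ) * e)) := mul_le_mul_of_nonneg_right hd1 h9
        _ ≤ 48 * e := by linarith
    -- the variance
    have hMpos : (0 : ℝ) < M := by exact_mod_cast hM1
    have h8 : H M ≤ B := by
      refine le_trans (H_le M hM1) ?_
      rw [hB]
      have : Real.log M ≤ Real.log (2 / e) := by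
        refine Real.log_le_log hMpos ?_
        rw [le_div_iff₀ he0]; linarith
      linarith
    have h9 : 2 * e ^ 3 * ((30 * M * H M) ^ 2 * H M ^ 3) ≤ 4400 * (e * B ^ 5) := by
      have hH := H_nonneg M
      have h10 : 2 * e ^ 3 * ((30 * M * H M) ^ 2 * H M ^ 3) =
          1800 * e * ((M : ℝ) * e) ^ 2 * H M ^ 5 := by ring
      rw [h10]
      have h11 : H M ^ 5 ≤ B ^ 5 := pow_le_pow_left₀ hH h8 5
      have h12 : ((M : ℝ) * e) ^ 2 ≤ (25 / 16) ^ 2 := pow_le_pow_left₀ hMe0 hMe2 2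
      have hB5 : 0 ≤ B ^ 5 := le_trans (pow_nonneg hH 5) h11
      calc 1800 * e * ((M : ℝ) * e) ^ 2 * H M ^ 5 ≤ 1800 * e * (25 / 16) ^ 2 * B ^ 5 := by
            refine mul_le_mul ?_ h11 (pow_nonneg hH 5) (by positivity)
            exact mul_le_mul_of_nonneg_left h12 (by positivity)
        _ ≤ 4400 * (e * B ^ 5) := by nlinarith [mul_nonneg he0.le hB5]
    have h13 : 2 * e ^ 3 * ((30 * M * H M) ^ 2 * H M ^ 3) / lam ≤
        4400 * (e * B ^ 5) / lam := div_le_div_of_nonneg_right h9 hlam.le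
    have h14 : (t (l + 1) - t (l + 2)) * (((M : ℝ) - 1) * e) -
        (t (l + 1) - t (l + 2)) * (e ^ 2 * (8 / 25 * M ^ 2 + 30 * M)) =
        (t (l + 1) - t (l + 2)) * (((l : ℝ) + 1) * u - 8 / 25 * (((l : ℝ) + 1) * u) ^ 2) -
        (t (l + 1) - t (l + 2)) * (e + 30 * e * ((M : ℝ) * e)) := by
      rw [h5, h6, hMe]; ring
    linarith
  have s3 := Finset.sum_le_sum s2
  refine le_trans ?_ s3
  rw [Finset.sum_sub_distrib, Finset.sum_const, Finset.card_range, nsmul_eq_mul]
  refine sub_le_sub_right ?_ _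
  -- step 3: Abel summation
  have h1 := abel t (fun l => (l : ℝ) * u - 8 / 25 * ((l : ℝ) * u) ^ 2) r
  have htr : t (r + 1) = 0 := by
    have h2 : ∀ c, TT e m r (r + 1) c = 0 := fun c => by
      unfold TT; rw [if_neg (Nat.not_succ_le_self r)]
    simp only [ht, h2, intervalIntegral.integral_zero]
  have h2 : ∑ l ∈ Finset.range r, (t (l + 1) - t (l + 2)) *
      (((l : ℝ) + 1) * u - 8 / 25 * (((l : ℝ) + 1) * u) ^ 2) =
      ∑ l ∈ Finset.range r, t (l + 1) * (u - 8 / 25 * u ^ 2 * (2 * l + 1)) := by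
    rw [htr] at h1
    have h3 : ∑ l ∈ Finset.range r, (t (l + 1) - t (l + 2)) *
      (((l : ℝ) + 1) * u - 8 / 25 * (((l : ℝ) + 1) * u) ^ 2) =
      ∑ l ∈ Finset.range r, (t (l + 1) - t (l + 2)) *
        (fun l : ℕ => (l : ℝ) * u - 8 / 25 * ((l : ℝ) * u) ^ 2) (l + 1) := by
      refine Finset.sum_congr rfl (fun l _ => ?_)
      simp only
      push_cast
      ring
    rw [h3, h1]
    simp only [Nat.cast_zero, zero_mul, sub_zero]
    have h4 : t 1 * (0 - 8 / 25 * (0 : ℝ) ^ 2) = 0 := by norm_num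
    rw [h4, add_zero]
    refine Finset.sum_congr rfl (fun l _ => ?_)
    push_cast
    ring
  rw [h2]
  refine Finset.sum_le_sum (fun l hl => ?_)
  rw [Finset.mem_range] at hl
  have hlr : ((l : ℝ) + 1) * u ≤ 25 / 16 := by
    refine le_trans (mul_le_mul_of_nonneg_right ?_ hu0.le) hmr
    exact_mod_cast hl
  refine mul_le_mul_of_nonneg_right ?_ ?_
  · have h3 : t (l + 1) = ∫ c in (0 : ℝ)..1, T e ((l + 1) * m) c := by
      have h4 : ∀ c, TT e m r (l + 1) c = T e ((l + 1) * m) c := fun c => by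
        unfold TT; rw [if_pos (by omega)]
      simp only [ht, h4]
    rw [h3]
    refine le_trans ?_ (T_integral he0 he ((l + 1) * m))
    push_cast
    have h5 : e * (16 / 25 * (((l : ℝ) + 1) * m + 1) + 30) =
        16 / 25 * ((l + 1) * (m * e)) + e * (16 / 25 + 30) := by ring
    rw [h5, ← hu]
    nlinarith
  · have h3 : 8 / 25 * u ^ 2 * (2 * (l : ℝ) + 1) = u * (8 / 25 * (2 * (((l : ℝ) + 1) * u) - u)) := by
      ring
    rw [h3]
    have h4 : 8 / 25 * (2 * (((l : ℝ) + 1) * u) - u) ≤ 1 := by linarith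
    nlinarith

/-- limit of the grid sums -/
theorem grid_sum (n : ℕ) : ∑ j ∈ Finset.range n, (j : ℝ) * (2 * j + 1) = n * (n - 1) * (4 * n + 1) / 6 := by
  induction n with
  | zero => simp
  | succ n ih => rw [Finset.sum_range_succ, ih]; push_cast; ring

theorem grid_val (r : ℕ) (hr : 1 ≤ r) :
    ∑ l ∈ Finset.range r, (1 - 16 / 25 * ((l : ℝ) + 1) * (25 / 16 / r) - 31 * 0) *
      (25 / 16 / r - 8 / 25 * (25 / 16 / (r : ℝ)) ^ 2 * (2 * l + 1)) =
      25 / 48 - 25 / 64 / r - 25 / 192 / (r : ℝ) ^ 2 := by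
  have hr0 : (r : ℝ) ≠ 0 := by
    have : 0 < r := hr
    positivity
  rw [← Finset.sum_range_reflect]
  have h1 : ∀ j ∈ Finset.range r, (1 - 16 / 25 * (((r - 1 - j : ℕ) : ℝ) + 1) * (25 / 16 / r) -
      31 * 0) * (25 / 16 / r - 8 / 25 * (25 / 16 / (r : ℝ)) ^ 2 *
        (2 * ((r - 1 - j : ℕ) : ℝ) + 1)) =
      25 / 32 / (r : ℝ) ^ 3 * ((j : ℝ) * (2 * j + 1)) := by
    intro j hj
    rw [Finset.mem_range] at hj
    rw [Nat.cast_sub (by omega), Nat.cast_sub hr]
    push_cast
    field_simp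
    ring
  rw [Finset.sum_congr rfl h1, ← Finset.mul_sum, grid_sum]
  field_simp
  ring

open Filter Topology

theorem log_tendsto :
    Tendsto (fun e : ℝ => e * (1 + Real.log (2 / e)) ^ 5) (𝓝[>] 0) (𝓝 0) := by
  have h1 := Real.tendsto_pow_log_div_mul_add_atTop (1 / (2 * Real.exp 1)) 0 5 (by positivity)
  have h2 : Tendsto (fun e : ℝ => (2 * Real.exp 1) * e⁻¹) (𝓝[>] 0) atTop :=
    tendsto_inv_nhdsGT_zero.const_mul_atTop (by positivity)
  have h3 := h1.comp h2
  refine h3.congr' ?_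
  filter_upwards [self_mem_nhdsWithin] with e he
  have he0 : (0 : ℝ) < e := he
  simp only [Function.comp]
  have h4 : Real.log (2 * Real.exp 1 * e⁻¹) = 1 + Real.log (2 / e) := by
    have : 2 * Real.exp 1 * e⁻¹ = Real.exp 1 * (2 / e) := by ring
    rw [this, Real.log_mul (Real.exp_pos 1).ne' (by positivity), Real.log_exp]
  rw [h4]
  have h5 : 1 / (2 * Real.exp 1) * (2 * Real.exp 1 * e⁻¹) + 0 = e⁻¹ := by
    have := (Real.exp_pos 1).ne'
    field_simp
    ring
  rw [h5, div_inv_eq_mul, mul_comm]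

theorem P_liminf (η : ℝ) (hη : 0 < η) : ∀ᶠ e in 𝓝[>] (0 : ℝ), 25 / 48 - η ≤ P e := by
  -- choose the grid
  obtain ⟨r, hr1, hr2⟩ : ∃ r : ℕ, 1 ≤ r ∧ 25 / 64 / (r : ℝ) + 25 / 192 / (r : ℝ) ^ 2 < η / 3 := by
    have h1 : Tendsto (fun r : ℕ => 25 / 64 / (r : ℝ) + 25 / 192 / (r : ℝ) ^ 2) atTop
        (𝓝 (0 + 0)) := by
      refine Tendsto.add (tendsto_const_div_atTop_nhds_zero_nat _) ?_
      refine Tendsto.div_atTop tendsto_const_nhds ?_
      exact (tendsto_pow_atTop (by norm_num)).comp tendsto_natCast_atTop_atTop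
    rw [add_zero] at h1
    have h2 := (h1.eventually (gt_mem_nhds (show (0 : ℝ) < η / 3 by positivity))).and
      (eventually_ge_atTop 1)
    obtain ⟨r, hr⟩ := h2.exists
    exact ⟨r, hr.2, hr.1⟩
  have hr0 : (0 : ℝ) < r := by exact_mod_cast hr1
  set lam : ℝ := η / (3 * r) with hlam
  have hlam0 : 0 < lam := by positivity
  set m : ℝ → ℕ := fun e => ⌊25 / 16 / r * e⁻¹⌋₊ with hm
  have hinv : Tendsto (fun e : ℝ => e⁻¹) (𝓝[>] 0) atTop := tendsto_inv_nhdsGT_zero
  have hmt : Tendsto (fun e : ℝ => (m e : ℝ) * e) (𝓝[>] 0) (𝓝 (25 / 16 / r)) := by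
    have h1 := (tendsto_nat_floor_mul_div_atTop (R := ℝ) (a := 25 / 16 / r)
      (by positivity)).comp hinv
    refine h1.congr (fun e => ?_)
    simp only [Function.comp, hm, div_inv_eq_mul]
  have he : Tendsto (fun e : ℝ => e) (𝓝[>] 0) (𝓝 0) := tendsto_id.mono_left nhdsWithin_le_nhds
  have hlim : Tendsto (fun e : ℝ => ∑ l ∈ Finset.range r,
      (1 - 16 / 25 * ((l : ℝ) + 1) * (m e * e) - 31 * e) *
      (m e * e - 8 / 25 * (m e * e) ^ 2 * (2 * l + 1)) -
      r * (48 * e + lam + 4400 * (e * (1 + Real.log (2 / e)) ^ 5) / lam)) (𝓝[>] 0)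
      (𝓝 (∑ l ∈ Finset.range r, (1 - 16 / 25 * ((l : ℝ) + 1) * (25 / 16 / r) - 31 * 0) *
      (25 / 16 / r - 8 / 25 * (25 / 16 / (r : ℝ)) ^ 2 * (2 * l + 1)) -
      r * (48 * 0 + lam + 4400 * 0 / lam))) := by
    refine Tendsto.sub (tendsto_finsetSum _ (fun l _ => ?_)) ?_
    · refine Tendsto.mul ?_ ?_
      · exact (tendsto_const_nhds.sub (hmt.const_mul _)).sub (he.const_mul _)
      · exact hmt.sub (((hmt.pow 2).const_mul _).mul_const _)
    · exact (((he.const_mul _).add tendsto_const_nhds).add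
        ((log_tendsto.const_mul _).div_const _)).const_mul _
  rw [grid_val r hr1] at hlim
  have hval : 25 / 48 - η < 25 / 48 - 25 / 64 / (r : ℝ) - 25 / 192 / (r : ℝ) ^ 2 -
      r * (48 * 0 + lam + 4400 * 0 / lam) := by
    have : (r : ℝ) * (48 * 0 + lam + 4400 * 0 / lam) = η / 3 := by
      rw [hlam]; field_simp; ring
    rw [this]
    linarith
  have hev := hlim.eventually (lt_mem_nhds hval)
  have hsmall : ∀ᶠ e : ℝ in 𝓝[>] 0, e ≤ 1 / 2 :=
    (he.eventually (gt_mem_nhds (show (0 : ℝ) < 1 / 2 by norm_num))).mono (fun _ h => h.le)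
  have hbig : ∀ᶠ e : ℝ in 𝓝[>] 0, 1 ≤ m e := by
    have h1 : ∀ᶠ e : ℝ in 𝓝[>] 0, (0 : ℝ) < m e * e := hmt.eventually (lt_mem_nhds (by positivity))
    filter_upwards [h1] with e h
    by_contra h2
    have h3 : m e = 0 := by omega
    rw [h3] at h
    simp at h
  filter_upwards [hev, hsmall, hbig, self_mem_nhdsWithin] with e h1 h2 h3 h4
  have he0 : (0 : ℝ) < e := h4
  refine le_trans h1.le (P_ge he0 h2 (m e) r h3 ?_ lam hlam0)
  have h5 : (m e : ℝ) ≤ 25 / 16 / r * e⁻¹ := Nat.floor_le (by positivity)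
  calc (r : ℝ) * (m e * e) ≤ r * ((25 / 16 / r * e⁻¹) * e) := by
        refine mul_le_mul_of_nonneg_left (mul_le_mul_of_nonneg_right h5 he0.le) hr0.le
    _ = 25 / 16 := by field_simp

end Q96.Rot
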