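import Mathlib

/-! Number theory for the first approach times of two rotation orbits. -/

namespace Q96.Rot

open Finset

/-- truncated harmonic sum -/
noncomputable def H (M : ℕ) : ℝ := ∑ j ∈ Ico 1 M, (1 : ℝ) / j

theorem H_nonneg (M : ℕ) : 0 ≤ H M := by
  unfold H; positivity

theorem H_le (M : ℕ) (hM : 1 ≤ M) : H M ≤ 1 + Real.log M := by
  have h := harmonic_le_one_add_log M
  refine le_trans ?_ h
  unfold H harmonic
  push_cast
  rw [Finset.sum_Ico_eq_sum_range]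
  calc ∑ k ∈ range (M - 1), (1 : ℝ) / ((1 + k : ℕ) : ℝ)
      = ∑ k ∈ range (M - 1), ((k : ℝ) + 1)⁻¹ := by
        refine Finset.sum_congr rfl (fun k _ => ?_)
        push_cast
        rw [one_div, add_comm]
    _ ≤ ∑ k ∈ range M, ((k : ℝ) + 1)⁻¹ :=
        Finset.sum_le_sum_of_subset_of_nonneg
          (Finset.range_subset_range.2 (by omega)) (fun _ _ _ => by positivity)

/-- reciprocal lcm sum -/
theorem sum_inv_lcm (M : ℕ) :
    ∑ q ∈ Ico 1 M, ∑ q' ∈ Ico 1 M, (1 : ℝ) / (Nat.lcm q q' : ℕ) ≤ H M ^ 3 := by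
  have key : ∀ q ∈ Ico 1 M, ∀ q' ∈ Ico 1 M, (1 : ℝ) / (Nat.lcm q q' : ℕ) ≤
      ∑ d ∈ Ico 1 M, (d : ℝ) * ((if d ∣ q then (1 : ℝ) / q else 0) *
        (if d ∣ q' then (1 : ℝ) / q' else 0)) := by
    intro q hq q' hq'
    rw [Finset.mem_Ico] at hq hq'
    have hg : Nat.gcd q q' ∈ Ico 1 M := by
      rw [Finset.mem_Ico]
      refine ⟨Nat.gcd_pos_of_pos_left _ (by omega), ?_⟩
      exact lt_of_le_of_lt (Nat.gcd_le_left _ (by omega)) hq.2
    have h1 : (1 : ℝ) / (Nat.lcm q q' : ℕ) = (Nat.gcd q q' : ℝ) *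
        ((if Nat.gcd q q' ∣ q then (1 : ℝ) / q else 0) *
          (if Nat.gcd q q' ∣ q' then (1 : ℝ) / q' else 0)) := by
      rw [if_pos (Nat.gcd_dvd_left _ _), if_pos (Nat.gcd_dvd_right _ _)]
      have h2 : (Nat.gcd q q' : ℝ) * (Nat.lcm q q' : ℝ) = q * q' := by
        exact_mod_cast Nat.gcd_mul_lcm q q'
      have hq0 : (q : ℝ) ≠ 0 := by
        have : 0 < q := by omega
        positivity
      have hq0' : (q' : ℝ) ≠ 0 := by
        have : 0 < q' := by omega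
        positivity
      have hl0 : (Nat.lcm q q' : ℝ) ≠ 0 := by
        have : 0 < Nat.lcm q q' := Nat.lcm_pos (by omega) (by omega)
        positivity
      field_simp
      linarith
    rw [h1]
    exact Finset.single_le_sum (f := fun d : ℕ => (d : ℝ) * ((if d ∣ q then (1 : ℝ) / q else 0) *
        (if d ∣ q' then (1 : ℝ) / q' else 0))) (fun d _ => by positivity) hg
  have hmul : ∀ d ∈ Ico 1 M, ∑ q ∈ Ico 1 M, (if d ∣ q then (1 : ℝ) / q else 0) ≤ (1 / d) * H M := by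
    intro d hd
    rw [Finset.mem_Ico] at hd
    unfold H
    rw [Finset.mul_sum, ← Finset.sum_filter]
    have himg : (Ico 1 M).filter (fun q => d ∣ q) ⊆ (Ico 1 M).image (fun j => d * j) := by
      intro q hq
      rw [Finset.mem_filter, Finset.mem_Ico] at hq
      obtain ⟨j, rfl⟩ := hq.2
      rw [Finset.mem_image]
      refine ⟨j, ?_, rfl⟩
      rw [Finset.mem_Ico]
      constructor
      · rcases Nat.eq_zero_or_pos j with h | h
        · subst h; omega
        · exact h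
      · have : j ≤ d * j := Nat.le_mul_of_pos_left j (by omega)
        omega
    calc ∑ q ∈ (Ico 1 M).filter (fun q => d ∣ q), (1 : ℝ) / q
        ≤ ∑ q ∈ (Ico 1 M).image (fun j => d * j), (1 : ℝ) / q :=
          Finset.sum_le_sum_of_subset_of_nonneg himg (fun _ _ _ => by positivity)
      _ = ∑ j ∈ Ico 1 M, (1 : ℝ) / ((d * j : ℕ) : ℝ) := by
          rw [Finset.sum_image]
          intro x _ y _ hxy
          exact Nat.eq_of_mul_eq_mul_left (by omega) hxy
      _ = ∑ j ∈ Ico 1 M, 1 / (d : ℝ) * (1 / (j : ℝ)) := by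
          refine Finset.sum_congr rfl (fun j _ => ?_)
          push_cast
          rw [one_div_mul_one_div]
  calc ∑ q ∈ Ico 1 M, ∑ q' ∈ Ico 1 M, (1 : ℝ) / (Nat.lcm q q' : ℕ)
      ≤ ∑ q ∈ Ico 1 M, ∑ q' ∈ Ico 1 M, ∑ d ∈ Ico 1 M, (d : ℝ) *
        ((if d ∣ q then (1 : ℝ) / q else 0) * (if d ∣ q' then (1 : ℝ) / q' else 0)) :=
        Finset.sum_le_sum (fun q hq => Finset.sum_le_sum (fun q' hq' => key q hq q' hq'))
    _ = ∑ d ∈ Ico 1 M, (d : ℝ) * ((∑ q ∈ Ico 1 M, (if d ∣ q then (1 : ℝ) / q else 0)) *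
        (∑ q' ∈ Ico 1 M, (if d ∣ q' then (1 : ℝ) / q' else 0))) := by
        symm
        calc ∑ d ∈ Ico 1 M, (d : ℝ) * ((∑ q ∈ Ico 1 M, (if d ∣ q then (1 : ℝ) / q else 0)) *
              (∑ q' ∈ Ico 1 M, (if d ∣ q' then (1 : ℝ) / q' else 0)))
            = ∑ d ∈ Ico 1 M, ∑ q ∈ Ico 1 M, ∑ q' ∈ Ico 1 M, (d : ℝ) *
              ((if d ∣ q then (1 : ℝ) / q else 0) * (if d ∣ q' then (1 : ℝ) / q' else 0)) := by
              refine Finset.sum_congr rfl (fun d _ => ?_)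
              rw [Finset.sum_mul_sum, Finset.mul_sum]
              refine Finset.sum_congr rfl (fun q _ => ?_)
              rw [Finset.mul_sum]
          _ = ∑ q ∈ Ico 1 M, ∑ d ∈ Ico 1 M, ∑ q' ∈ Ico 1 M, (d : ℝ) *
              ((if d ∣ q then (1 : ℝ) / q else 0) * (if d ∣ q' then (1 : ℝ) / q' else 0)) :=
              Finset.sum_comm
          _ = _ := Finset.sum_congr rfl (fun q _ => Finset.sum_comm)
    _ ≤ ∑ d ∈ Ico 1 M, (1 / (d : ℝ)) * H M ^ 2 := by
        refine Finset.sum_le_sum (fun d hd => ?_)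
        have h1 := hmul d hd
        have h0 : 0 ≤ ∑ q ∈ Ico 1 M, (if d ∣ q then (1 : ℝ) / q else 0) :=
          Finset.sum_nonneg (fun _ _ => by positivity)
        have hd0 : (0 : ℝ) < d := by
          rw [Finset.mem_Ico] at hd
          exact_mod_cast (by omega : 0 < d)
        calc (d : ℝ) * ((∑ q ∈ Ico 1 M, (if d ∣ q then (1 : ℝ) / q else 0)) *
              (∑ q' ∈ Ico 1 M, (if d ∣ q' then (1 : ℝ) / q' else 0)))
            ≤ (d : ℝ) * (((1 / d) * H M) * ((1 / d) * H M)) :=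
              mul_le_mul_of_nonneg_left (mul_le_mul h1 h1 h0 (le_trans h0 h1)) hd0.le
          _ = (1 / (d : ℝ)) * H M ^ 2 := by field_simp
    _ = H M ^ 3 := by
        rw [← Finset.sum_mul]
        unfold H; ring

/-- number of `k ∈ [1, M)` with `f ∣ 30 k` -/
theorem card_dvd_thirty (M f : ℕ) (hf : 1 ≤ f) :
    (((Ico 1 M).filter (fun k => f ∣ 30 * k)).card : ℝ) ≤ 30 * M / f := by
  obtain ⟨f', hf'⟩ : Nat.gcd f 30 ∣ f := Nat.gcd_dvd_left _ _
  have hg : 1 ≤ Nat.gcd f 30 := Nat.gcd_pos_of_pos_left _ hf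
  have hg30 : Nat.gcd f 30 ≤ 30 := Nat.gcd_le_right _ (by norm_num)
  have hf1 : 1 ≤ f' := by
    rcases Nat.eq_zero_or_pos f' with h | h
    · rw [h] at hf'; omega
    · exact h
  have hsub : (Ico 1 M).filter (fun k => f ∣ 30 * k) ⊆ (Ioc 0 M).filter (fun k => f' ∣ k) := by
    intro k hk
    rw [Finset.mem_filter, Finset.mem_Ico] at hk
    rw [Finset.mem_filter, Finset.mem_Ioc]
    refine ⟨by omega, ?_⟩
    have h1 : Nat.gcd f 30 * f' ∣ Nat.gcd f 30 * ((30 / Nat.gcd f 30) * k) := by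
      rw [← hf', ← mul_assoc, Nat.mul_div_cancel' (Nat.gcd_dvd_right _ _)]
      exact hk.2
    have h2 : f' ∣ (30 / Nat.gcd f 30) * k := Nat.dvd_of_mul_dvd_mul_left (by omega) h1
    have h3 : Nat.Coprime f' (30 / Nat.gcd f 30) := by
      have := Nat.coprime_div_gcd_div_gcd (m := f) (n := 30) (by omega)
      have h4 : f / Nat.gcd f 30 = f' := Nat.div_eq_of_eq_mul_right (by omega) hf'
      rwa [h4] at this
    exact h3.dvd_of_dvd_mul_left h2
  have h1 : ((Ico 1 M).filter (fun k => f ∣ 30 * k)).card ≤ M / f' := by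
    refine le_trans (Finset.card_le_card hsub) ?_
    rw [Nat.Ioc_filter_dvd_card_eq_div]
  have h2 : ((M / f' : ℕ) : ℝ) ≤ (M : ℝ) / f' := Nat.cast_div_le
  have hfR : (f : ℝ) = (Nat.gcd f 30 : ℝ) * f' := by exact_mod_cast hf'
  have hf'0 : (0 : ℝ) < f' := by exact_mod_cast hf1
  have hf0 : (0 : ℝ) < f := by exact_mod_cast hf
  calc (((Ico 1 M).filter (fun k => f ∣ 30 * k)).card : ℝ) ≤ ((M / f' : ℕ) : ℝ) := by
        exact_mod_cast h1
    _ ≤ (M : ℝ) / f' := h2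
    _ ≤ 30 * M / f := by
        rw [div_le_div_iff₀ hf'0 hf0, hfR]
        have : (Nat.gcd f 30 : ℝ) ≤ 30 := by exact_mod_cast hg30
        have hM : (0 : ℝ) ≤ M * f' := by positivity
        nlinarith

/-- the period denominator -/
def qq (i k : ℕ) : ℕ := i / Nat.gcd i (30 * k)

theorem sum_pairs (M : ℕ) (F : ℕ → ℝ) (hF : ∀ q, 0 ≤ F q) :
    ∑ x ∈ Ico 1 M ×ˢ Ico 1 M, F (qq x.1 x.2) ≤ 30 * M * H M * ∑ q ∈ Ico 1 M, F q := by
  classical
  have hinj : Set.InjOn (fun x : ℕ × ℕ => (qq x.1 x.2, (Nat.gcd x.1 (30 * x.2), x.2)))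
      ((Ico 1 M ×ˢ Ico 1 M : Finset (ℕ × ℕ)) : Set (ℕ × ℕ)) := by
    rintro ⟨i, k⟩ _ ⟨i', k'⟩ _ h
    simp only [Prod.mk.injEq, qq] at h
    obtain ⟨h1, h2, h3⟩ := h
    have e1 : i = Nat.gcd i (30 * k) * (i / Nat.gcd i (30 * k)) :=
      (Nat.mul_div_cancel' (Nat.gcd_dvd_left _ _)).symm
    have e2 : i' = Nat.gcd i' (30 * k') * (i' / Nat.gcd i' (30 * k')) :=
      (Nat.mul_div_cancel' (Nat.gcd_dvd_left _ _)).symm
    rw [Prod.mk.injEq]
    exact ⟨by rw [e1, e2, h1, h2], h3⟩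
  calc ∑ x ∈ Ico 1 M ×ˢ Ico 1 M, F (qq x.1 x.2)
      = ∑ y ∈ (Ico 1 M ×ˢ Ico 1 M).image
          (fun x : ℕ × ℕ => (qq x.1 x.2, (Nat.gcd x.1 (30 * x.2), x.2))), F y.1 := by
        rw [Finset.sum_image hinj]
    _ ≤ ∑ y ∈ Ico 1 M ×ˢ ((Ico 1 M ×ˢ Ico 1 M).filter (fun z => z.1 ∣ 30 * z.2)), F y.1 := by
        refine Finset.sum_le_sum_of_subset_of_nonneg ?_ (fun _ _ _ => hF _)
        intro y hy
        rw [Finset.mem_image] at hy
        obtain ⟨⟨i, k⟩, hx, rfl⟩ := hy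
        rw [Finset.mem_product, Finset.mem_Ico, Finset.mem_Ico] at hx
        simp only at hx
        have hg : 1 ≤ Nat.gcd i (30 * k) := Nat.gcd_pos_of_pos_left _ (by omega)
        have hgi : Nat.gcd i (30 * k) ≤ i := Nat.gcd_le_left _ (by omega)
        have hq1 : 1 ≤ qq i k := Nat.div_pos hgi (by omega)
        have hq2 : qq i k ≤ i := Nat.div_le_self _ _
        simp only [Finset.mem_product, Finset.mem_filter, Finset.mem_Ico]
        refine ⟨⟨hq1, by omega⟩, ⟨⟨hg, by omega⟩, hx.2⟩, Nat.gcd_dvd_right _ _⟩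
    _ = (((Ico 1 M ×ˢ Ico 1 M).filter (fun z => z.1 ∣ 30 * z.2)).card : ℝ) *
          ∑ q ∈ Ico 1 M, F q := by
        rw [Finset.sum_product, Finset.mul_sum]
        refine Finset.sum_congr rfl (fun q _ => ?_)
        simp only [Finset.sum_const, nsmul_eq_mul]
    _ ≤ 30 * M * H M * ∑ q ∈ Ico 1 M, F q := by
        refine mul_le_mul_of_nonneg_right ?_ (Finset.sum_nonneg (fun _ _ => hF _))
        have h1 : (((Ico 1 M ×ˢ Ico 1 M).filter (fun z => z.1 ∣ 30 * z.2)).card : ℝ) =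
            ∑ f ∈ Ico 1 M, (((Ico 1 M).filter (fun k => f ∣ 30 * k)).card : ℝ) := by
          rw [Finset.card_filter, Finset.sum_product]
          push_cast
          refine Finset.sum_congr rfl (fun f _ => ?_)
          rw [Finset.card_filter]
          push_cast
          rfl
        rw [h1]
        unfold H
        rw [Finset.mul_sum]
        refine Finset.sum_le_sum (fun f hf => ?_)
        rw [Finset.mem_Ico] at hf
        refine le_trans (card_dvd_thirty M f hf.1) (le_of_eq ?_)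
        ring

/-- the double sum in the variance bound -/
theorem sum_inv_lcm_pairs (M : ℕ) (Λ : Finset (ℕ × ℕ)) (hΛ : Λ ⊆ Ico 1 M ×ˢ Ico 1 M) :
    ∑ x ∈ Λ, ∑ y ∈ Λ, (1 : ℝ) / (Nat.lcm (qq x.1 x.2) (qq y.1 y.2) : ℕ) ≤
      (30 * M * H M) ^ 2 * H M ^ 3 := by
  have hH := H_nonneg M
  have hc : 0 ≤ 30 * (M : ℝ) * H M := by positivity
  calc ∑ x ∈ Λ, ∑ y ∈ Λ, (1 : ℝ) / (Nat.lcm (qq x.1 x.2) (qq y.1 y.2) : ℕ)
      ≤ ∑ x ∈ Ico 1 M ×ˢ Ico 1 M, ∑ y ∈ Ico 1 M ×ˢ Ico 1 M,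
          (1 : ℝ) / (Nat.lcm (qq x.1 x.2) (qq y.1 y.2) : ℕ) := by
        refine le_trans (Finset.sum_le_sum (fun x _ =>
          Finset.sum_le_sum_of_subset_of_nonneg hΛ (fun _ _ _ => by positivity))) ?_
        exact Finset.sum_le_sum_of_subset_of_nonneg hΛ
          (fun _ _ _ => Finset.sum_nonneg (fun _ _ => by positivity))
    _ ≤ 30 * M * H M * ∑ q ∈ Ico 1 M, ∑ y ∈ Ico 1 M ×ˢ Ico 1 M,
          (1 : ℝ) / (Nat.lcm q (qq y.1 y.2) : ℕ) :=
        sum_pairs M (fun q => ∑ y ∈ Ico 1 M ×ˢ Ico 1 M,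
          (1 : ℝ) / (Nat.lcm q (qq y.1 y.2) : ℕ))
          (fun q => Finset.sum_nonneg (fun _ _ => by positivity))
    _ ≤ 30 * M * H M * ∑ q ∈ Ico 1 M, (30 * M * H M * ∑ q' ∈ Ico 1 M,
          (1 : ℝ) / (Nat.lcm q q' : ℕ)) := by
        refine mul_le_mul_of_nonneg_left (Finset.sum_le_sum (fun q _ => ?_)) hc
        exact sum_pairs M (fun q' => (1 : ℝ) / (Nat.lcm q q' : ℕ)) (fun q' => by positivity)
    _ = (30 * M * H M) ^ 2 * ∑ q ∈ Ico 1 M, ∑ q' ∈ Ico 1 M, (1 : ℝ) / (Nat.lcm q q' : ℕ) := by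
        rw [← Finset.mul_sum]; ring
    _ ≤ (30 * M * H M) ^ 2 * H M ^ 3 :=
        mul_le_mul_of_nonneg_left (sum_inv_lcm M) (by positivity)

/-- the proportion of admissible residues -/
noncomputable def w (i : ℕ) : ℝ := (Nat.totient (Nat.gcd i 30) : ℝ) / (Nat.gcd i 30 : ℝ)

theorem w_nonneg (i : ℕ) : 0 ≤ w i := by unfold w; positivity

theorem w_le_one (i : ℕ) : w i ≤ 1 := by
  unfold w
  have h : 0 < Nat.gcd i 30 := Nat.gcd_pos_of_pos_right _ (by norm_num)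
  rw [div_le_one (by exact_mod_cast h)]
  exact_mod_cast Nat.totient_le _

theorem count_coprime (d : ℕ) (n : ℕ) :
    ((range (d * n)).filter (fun p => Nat.Coprime d p)).card = n * Nat.totient d := by
  induction n with
  | zero => simp
  | succ n ih =>
    have h1 : range (d * (n + 1)) = range (d * n) ∪ Ico (d * n) (d * n + d) := by
      ext x; simp only [Finset.mem_union, Finset.mem_range, Finset.mem_Ico]
      rw [Nat.mul_succ]; omega
    rw [h1, Finset.filter_union, Finset.card_union_of_disjoint, ih,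
      Nat.filter_coprime_Ico_eq_totient]
    · ring
    · rw [Finset.disjoint_left]
      intro x hx hx'
      simp only [Finset.mem_filter, Finset.mem_range, Finset.mem_Ico] at hx hx'
      omega

theorem count_w (i : ℕ) (hi : 1 ≤ i) :
    (((range i).filter (fun p => Nat.Coprime (Nat.gcd i 30) p)).card : ℝ) = i * w i := by
  obtain ⟨n, hn⟩ : Nat.gcd i 30 ∣ i := Nat.gcd_dvd_left _ _
  have h : 0 < Nat.gcd i 30 := Nat.gcd_pos_of_pos_right _ (by norm_num)
  have hR : (Nat.gcd i 30 : ℝ) ≠ 0 := by exact_mod_cast h.ne'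
  have h1 := count_coprime (Nat.gcd i 30) n
  rw [← hn] at h1
  rw [h1]
  unfold w
  have hi' : (i : ℝ) = (Nat.gcd i 30 : ℝ) * n := by exact_mod_cast hn
  push_cast
  rw [mul_div_assoc', eq_div_iff hR, hi']
  ring

theorem sum_w_block (j : ℕ) : ∑ r ∈ range 30, w (30 * j + r) = 96 / 5 := by
  have h1 : ∀ r, w (30 * j + r) = w r := by
    intro r
    unfold w
    have : Nat.gcd (30 * j + r) 30 = Nat.gcd r 30 := by
      rw [add_comm, Nat.gcd_add_mul_left_left]
    rw [this]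
  simp_rw [h1]
  unfold w
  have h2 : ∑ r ∈ range 30, ((Nat.totient (Nat.gcd r 30) : ℚ) / (Nat.gcd r 30 : ℚ)) = 96 / 5 := by
    decide +kernel
  have h3 := congrArg (fun x : ℚ => (x : ℝ)) h2
  push_cast at h3
  exact h3

theorem sum_w_mul (n : ℕ) : ∑ i ∈ range (30 * n), w i = n * (96 / 5) := by
  induction n with
  | zero => simp
  | succ n ih =>
    rw [Nat.mul_succ, Finset.sum_range_add, ih, sum_w_block]
    push_cast; ring

theorem sum_w_le (n : ℕ) : ∑ i ∈ range n, w i ≤ 16 / 25 * n + 30 := by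
  have h1 : n = 30 * (n / 30) + n % 30 := (Nat.div_add_mod n 30).symm
  have h2 : ∑ i ∈ range n, w i = ∑ i ∈ range (30 * (n / 30) + n % 30), w i := by rw [← h1]
  rw [h2, Finset.sum_range_add, sum_w_mul]
  have h3 : ∑ x ∈ range (n % 30), w (30 * (n / 30) + x) ≤ 30 := by
    calc ∑ x ∈ range (n % 30), w (30 * (n / 30) + x) ≤ ∑ x ∈ range (n % 30), (1 : ℝ) :=
          Finset.sum_le_sum (fun _ _ => w_le_one _)
      _ = ((n % 30 : ℕ) : ℝ) := by simp
      _ ≤ 30 := by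
          have : n % 30 ≤ 30 := by omega
          exact_mod_cast this
  have h4 : (30 : ℝ) * ((n / 30 : ℕ) : ℝ) ≤ n := by
    exact_mod_cast Nat.mul_div_le n 30
  nlinarith

end Q96.Rot
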