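import Pool.Agent.Q96.RotInt

/-! The pair functions for the first approach times of two rotation orbits. -/

namespace Q96.Rot

open MeasureTheory Set

theorem meas_int {F : ℝ × ℝ → ℝ} (hF : Measurable F) :
    Measurable (fun c => ∫ a in (0 : ℝ)..1, F (a, c)) := by
  have h : (fun c => ∫ a in (0 : ℝ)..1, F (a, c)) =
      fun c => ∫ a in Ioc (0 : ℝ) 1, F (a, c) := by
    funext c; rw [intervalIntegral.integral_of_le (by norm_num)]
  rw [h]
  have h1 : StronglyMeasurable (fun z : ℝ × ℝ => F (z.2, z.1)) :=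
    (hF.comp measurable_swap).stronglyMeasurable
  exact (h1.integral_prod_right' (ν := volume.restrict (Ioc (0 : ℝ) 1))).measurable

theorem fub {F : ℝ × ℝ → ℝ} (hF : Measurable F) {C : ℝ} (hC : ∀ z, |F z| ≤ C) :
    ∫ c in (0 : ℝ)..1, ∫ a in (0 : ℝ)..1, F (a, c) =
      ∫ a in (0 : ℝ)..1, ∫ c in (0 : ℝ)..1, F (a, c) := by
  simp only [intervalIntegral.integral_of_le (show (0 : ℝ) ≤ 1 by norm_num)]
  refine integral_integral_swap ?_
  refine Integrable.of_bound (C := C) ?_ (Filter.Eventually.of_forall ?_)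
  · exact (hF.comp measurable_swap).aestronglyMeasurable
  · intro z; exact hC _

theorem int_abs_le {f : ℝ → ℝ} {C : ℝ} (hC : ∀ x, |f x| ≤ C) :
    |∫ a in (0 : ℝ)..1, f a| ≤ C := by
  have := intervalIntegral.norm_integral_le_of_norm_le_const (a := (0 : ℝ)) (b := 1) (f := f)
    (C := C) (fun x _ => hC x)
  simpa using this

theorem int_nonneg {f : ℝ → ℝ} (h : ∀ x, 0 ≤ f x) : 0 ≤ ∫ a in (0 : ℝ)..1, f a :=
  intervalIntegral.integral_nonneg (by norm_num) (fun x _ => h x)

theorem int_mono {f g : ℝ → ℝ} (hf : Measurable f) (hg : Measurable g) {C D : ℝ}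
    (hC : ∀ x, |f x| ≤ C) (hD : ∀ x, |g x| ≤ D) (h : ∀ x, f x ≤ g x) :
    ∫ a in (0 : ℝ)..1, f a ≤ ∫ a in (0 : ℝ)..1, g a :=
  intervalIntegral.integral_mono (by norm_num) (bdd_int hf hC _ _) (bdd_int hg hD _ _) h

theorem ii_sum {ι : Type*} (S : Finset ι) {f : ι → ℝ → ℝ}
    (h : ∀ s ∈ S, IntervalIntegrable (f s) volume 0 1) :
    IntervalIntegrable (fun c => ∑ s ∈ S, f s c) volume 0 1 := by
  have h1 := IntervalIntegrable.sum S h
  have h2 : (∑ s ∈ S, f s) = fun c => ∑ s ∈ S, f s c := by funext c; simp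
  rwa [h2] at h1

/-- admissibility indicator -/
noncomputable def pr (i : ℕ) (t : ℝ) : ℝ :=
  if Nat.Coprime (Nat.gcd i 30) (round t).natAbs then 1 else 0

theorem pr_nonneg (i : ℕ) (t : ℝ) : 0 ≤ pr i t := by unfold pr; split_ifs <;> norm_num

theorem pr_le_one (i : ℕ) (t : ℝ) : pr i t ≤ 1 := by unfold pr; split_ifs <;> norm_num

theorem coprime_iff (d : ℕ) (z : ℤ) : Nat.Coprime d z.natAbs ↔ IsCoprime (d : ℤ) z := by
  rw [Int.isCoprime_iff_gcd_eq_one]
  rfl

theorem pr_add (i : ℕ) (t : ℝ) (n : ℤ) (hn : ((Nat.gcd i 30 : ℕ) : ℤ) ∣ n) :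
    pr i (t + n) = pr i t := by
  unfold pr
  obtain ⟨m, rfl⟩ := hn
  rw [round_add_intCast]
  have : Nat.Coprime (Nat.gcd i 30) (round t + ((Nat.gcd i 30 : ℕ) : ℤ) * m).natAbs ↔
      Nat.Coprime (Nat.gcd i 30) (round t).natAbs := by
    rw [coprime_iff, coprime_iff, IsCoprime.add_mul_left_right_iff]
  simp only [this]

theorem round_meas : Measurable (fun t : ℝ => round t) := by
  have : (fun t : ℝ => round t) = fun t : ℝ => ⌊t + 1 / 2⌋ := by
    funext t; exact round_eq t
  rw [this]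
  exact Int.measurable_floor.comp (measurable_id.add_const _)

theorem pr_meas (i : ℕ) : Measurable (pr i) := by
  unfold pr
  refine Measurable.ite ?_ measurable_const measurable_const
  exact round_meas (MeasurableSet.of_discrete
    (s := {z : ℤ | Nat.Coprime (Nat.gcd i 30) z.natAbs}))

theorem pr_abs (i : ℕ) (t : ℝ) : |pr i t| ≤ 1 := by
  rw [abs_of_nonneg (pr_nonneg _ _)]; exact pr_le_one _ _

theorem scale_pr {h : ℝ → ℝ} (i : ℕ) (hi : 1 ≤ i) (hp : Function.Periodic h 1)
    (hm : Measurable h) {C : ℝ} (hC : ∀ x, |h x| ≤ C) :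
    ∫ a in (0 : ℝ)..1, pr i (i * a) * h (i * a) = w i * ∫ x in (0 : ℝ)..1, h x := by
  have hC0 : 0 ≤ C := le_trans (abs_nonneg _) (hC 0)
  have hi0 : (i : ℝ) ≠ 0 := by
    have : 0 < i := hi
    positivity
  have hg : Function.Periodic (fun t => pr i t * h t) (i : ℝ) := by
    intro t
    have h1 : pr i (t + i) = pr i t := by
      have := pr_add i t (i : ℤ) (by exact_mod_cast Nat.gcd_dvd_left i 30)
      rwa [Int.cast_natCast] at this
    have h2 : h (t + i) = h t := by
      have h := hp.nat_mul i t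
      rwa [mul_one] at h
    simp only [h1, h2]
  rw [scale (g := fun t => pr i t * h t) i hi hg ((pr_meas i).mul hm) (C := C)
    (fun x => by
      rw [abs_mul]
      calc |pr i x| * |h x| ≤ 1 * C := mul_le_mul (pr_abs i x) (hC x) (abs_nonneg _) (by norm_num)
        _ = C := one_mul C)]
  have h1 : ∀ p ∈ Finset.range i, ∫ t in (-(1 / 2) : ℝ)..(1 / 2), pr i (t + p) * h (t + p) =
      (if Nat.Coprime (Nat.gcd i 30) p then (1 : ℝ) else 0) * ∫ x in (0 : ℝ)..1, h x := by
    intro p _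
    rw [← half_eq hp, ← intervalIntegral.integral_const_mul]
    refine intervalIntegral.integral_congr_Ioo_of_le (by norm_num) ?_
    intro t ht
    have h2 : h (t + p) = h t := by
      have h := hp.nat_mul p t
      rwa [mul_one] at h
    have h3 : round (t + (p : ℝ)) = (p : ℤ) := by
      rw [round_add_natCast, round_eq_zero_iff.2 ⟨ht.1.le, ht.2⟩, zero_add]
    simp only [h2, pr, h3, Int.natAbs_natCast]
  rw [Finset.sum_congr rfl h1, ← Finset.sum_mul, ← mul_assoc]
  congr 1
  have h4 : ∑ p ∈ Finset.range i, (if Nat.Coprime (Nat.gcd i 30) p then (1 : ℝ) else 0) =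
      i * w i := by
    rw [← count_w i hi, Finset.card_filter]
    push_cast
    rfl
  rw [h4]
  field_simp

theorem nr_le {e : ℝ} (he : e ≤ 1 / 2) (z : ℝ) : nr e z ≤ I e z + I e (z + e) := by
  unfold nr
  split_ifs with h
  · rw [abs_lt] at h
    by_cases h1 : 0 ≤ z - round z
    · have h2 : Int.fract z = z - round z := by
        have : z = (z - round z) + ((round z : ℤ) : ℝ) := by ring
        rw [this, Int.fract_add_intCast]
        have h3 : Int.fract (z - round z) = z - round z :=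
          Int.fract_eq_self.2 ⟨h1, by linarith⟩
        rw [h3]
        ring_nf
      have h3 : I e z = 1 := by unfold I; rw [h2, if_pos h.2]
      rw [h3]
      linarith [I_nonneg e (z + e)]
    · have h2 : Int.fract (z + e) = z - round z + e := by
        have : z + e = (z - round z + e) + ((round z : ℤ) : ℝ) := by ring
        rw [this, Int.fract_add_intCast]
        exact Int.fract_eq_self.2 ⟨by linarith, by linarith⟩
      have h3 : I e (z + e) = 1 := by unfold I; rw [h2, if_pos (by linarith)]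
      rw [h3]
      linarith [I_nonneg e z]
  · exact add_nonneg (I_nonneg _ _) (I_nonneg _ _)

theorem nn_meas : Measurable (fun z : ℝ => |z - round z|) := by
  have : Measurable (fun z : ℝ => ((round z : ℤ) : ℝ)) := measurable_from_top.comp round_meas
  exact (measurable_id.sub this).abs

theorem nr_meas (e : ℝ) : Measurable (nr e) := by
  unfold nr
  exact Measurable.ite (measurableSet_lt nn_meas measurable_const) measurable_const
    measurable_const

theorem hx_meas (e : ℝ) : Measurable (hx e) := by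
  unfold hx
  exact measurable_const.max (measurable_const.sub nn_meas)

theorem nr_nonneg (e z : ℝ) : 0 ≤ nr e z := by unfold nr; split_ifs <;> norm_num

theorem nr_abs (e z : ℝ) : |nr e z| ≤ 1 := by
  rw [abs_of_nonneg (nr_nonneg _ _)]; unfold nr; split_ifs <;> norm_num

theorem hx_nonneg (e z : ℝ) : 0 ≤ hx e z := le_max_left _ _

theorem hx_abs {e : ℝ} (he : 0 ≤ e) (he2 : e ≤ 1 / 2) (z : ℝ) : |hx e z| ≤ 1 := by
  rw [abs_of_nonneg (hx_nonneg _ _)]
  unfold hx
  refine max_le (by norm_num) ?_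
  linarith [abs_nonneg (z - round z)]

theorem nn_per (z : ℝ) : |(z + 1) - round (z + 1)| = |z - round z| := by
  rw [round_add_one]; push_cast; ring_nf

theorem hx_per (e : ℝ) : Function.Periodic (hx e) 1 := by
  intro z; unfold hx; rw [nn_per]

theorem nr_per (e : ℝ) : Function.Periodic (nr e) 1 := by
  intro z; unfold nr; rw [nn_per]

theorem nr_integral {e : ℝ} (he : 0 ≤ e) (he2 : e ≤ 1 / 2) :
    ∫ z in (0 : ℝ)..1, nr e z ≤ 2 * e := by
  have h1 : ∫ z in (0 : ℝ)..1, nr e z ≤ ∫ z in (0 : ℝ)..1, (I e z + I e (z + e)) := by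
    refine int_mono (nr_meas e) ((I_meas e).add ((I_meas e).comp (measurable_id.add_const e)))
      (C := 1) (D := 2) (nr_abs e) ?_ (nr_le he2)
    intro x
    refine le_trans (abs_add_le _ _) ?_
    linarith [I_abs e x, I_abs e (x + e)]
  refine le_trans h1 (le_of_eq ?_)
  have h2 : ∫ z in (0 : ℝ)..1, (I e z + I e (z + e)) =
      (∫ z in (0 : ℝ)..1, I e z) + ∫ z in (0 : ℝ)..1, I e (z + e) :=
    intervalIntegral.integral_add (bdd_int (I_meas e) (I_abs e) _ _)
      (bdd_int (f := fun z => I e (z + e)) ((I_meas e).comp (measurable_id.add_const e))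
        (fun x => I_abs e (x + e)) _ _)
  rw [h2, shift (I_per e), I_integral e he (by linarith)]
  ring

theorem hx_integral {e : ℝ} (he : 0 ≤ e) (he2 : e ≤ 1 / 2) :
    ∫ z in (0 : ℝ)..1, hx e z = e ^ 2 := by
  have h1 : ∀ z, hx e z = ∫ x in (0 : ℝ)..1, I e x * I e (x + z) :=
    fun z => (arc_integral he2 z).symm
  simp only [h1]
  rw [fub (F := fun p => I e p.1 * I e (p.1 + p.2))
    (((I_meas e).comp measurable_fst).mul ((I_meas e).comp (measurable_fst.add measurable_snd)))
    (C := 1) (fun z => by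
      rw [abs_mul]
      calc |I e z.1| * |I e (z.1 + z.2)| ≤ 1 * 1 :=
            mul_le_mul (I_abs _ _) (I_abs _ _) (abs_nonneg _) (by norm_num)
        _ = 1 := one_mul 1)]
  have h2 : ∀ a : ℝ, ∫ c in (0 : ℝ)..1, I e a * I e (a + c) = I e a * e := by
    intro a
    rw [intervalIntegral.integral_const_mul]
    congr 1
    have : ∀ c : ℝ, I e (a + c) = I e (c + a) := fun c => by rw [add_comm]
    simp only [this]
    rw [shift (I_per e), I_integral e he (by linarith)]
  simp only [h2]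
  rw [intervalIntegral.integral_mul_const, I_integral e he (by linarith)]
  ring

/-- the integrand of the pair function -/
noncomputable def rho (e : ℝ) (i k : ℕ) (a c : ℝ) : ℝ :=
  I e (k * a + c) * I e (k * a + c + i * a) * pr i (i * a)

/-- the pair function -/
noncomputable def psi (e : ℝ) (i k : ℕ) (c : ℝ) : ℝ := ∫ a in (0 : ℝ)..1, rho e i k a c

theorem rho_nonneg (e : ℝ) (i k : ℕ) (a c : ℝ) : 0 ≤ rho e i k a c :=
  mul_nonneg (mul_nonneg (I_nonneg _ _) (I_nonneg _ _)) (pr_nonneg _ _)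

theorem rho_le_one (e : ℝ) (i k : ℕ) (a c : ℝ) : rho e i k a c ≤ 1 := by
  unfold rho
  calc I e (k * a + c) * I e (k * a + c + i * a) * pr i (i * a) ≤ (1 * 1) * 1 :=
        mul_le_mul (mul_le_mul (I_le_one _ _) (I_le_one _ _) (I_nonneg _ _) (by norm_num))
          (pr_le_one _ _) (pr_nonneg _ _) (by norm_num)
    _ = 1 := by norm_num

theorem rho_abs (e : ℝ) (i k : ℕ) (a c : ℝ) : |rho e i k a c| ≤ 1 := by
  rw [abs_of_nonneg (rho_nonneg _ _ _ _ _)]; exact rho_le_one _ _ _ _ _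

theorem rho_meas (e : ℝ) (i k : ℕ) : Measurable (fun z : ℝ × ℝ => rho e i k z.1 z.2) := by
  unfold rho
  refine Measurable.mul (Measurable.mul ((I_meas e).comp ?_) ((I_meas e).comp ?_))
    ((pr_meas i).comp ?_)
  · exact (measurable_fst.const_mul _).add measurable_snd
  · exact ((measurable_fst.const_mul _).add measurable_snd).add (measurable_fst.const_mul _)
  · exact measurable_fst.const_mul _

theorem psi_meas (e : ℝ) (i k : ℕ) : Measurable (psi e i k) :=
  meas_int (rho_meas e i k)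

theorem psi_nonneg (e : ℝ) (i k : ℕ) (c : ℝ) : 0 ≤ psi e i k c :=
  int_nonneg (fun a => rho_nonneg e i k a c)

theorem psi_abs (e : ℝ) (i k : ℕ) (c : ℝ) : |psi e i k c| ≤ 1 :=
  int_abs_le (fun a => rho_abs e i k a c)

theorem psi_integral {e : ℝ} (he : 0 ≤ e) (he2 : e ≤ 1 / 2) (i k : ℕ) (hi : 1 ≤ i) :
    ∫ c in (0 : ℝ)..1, psi e i k c = w i * e ^ 2 := by
  unfold psi
  rw [fub (F := fun z => rho e i k z.1 z.2) (rho_meas e i k) (C := 1)
    (fun z => rho_abs e i k z.1 z.2)]
  have h1 : ∀ a : ℝ, ∫ c in (0 : ℝ)..1, rho e i k a c = pr i (i * a) * hx e (i * a) := by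
    intro a
    unfold rho
    rw [intervalIntegral.integral_mul_const, mul_comm, ← arc_integral he2]
    congr 1
    have hper : Function.Periodic (fun x => I e x * I e (x + i * a)) 1 := by
      intro x
      have h1 := I_per e x
      have h2 := I_per e (x + i * a)
      simp only
      rw [h1, show x + 1 + (i : ℝ) * a = x + i * a + 1 by ring, h2]
    have h2 := shift hper (k * a)
    rw [← h2]
    congr 1
    funext c
    rw [add_comm c]
  simp only [h1]
  rw [scale_pr i hi (hx_per e) (hx_meas e) (hx_abs he he2), hx_integral he he2]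

theorem psi_per_one (e : ℝ) (i k : ℕ) : Function.Periodic (psi e i k) 1 := by
  intro c
  unfold psi
  congr 1
  funext a
  unfold rho
  rw [show (k : ℝ) * a + (c + 1) = k * a + c + 1 by ring,
    show (k : ℝ) * a + c + 1 + i * a = k * a + c + i * a + 1 by ring]
  rw [I_per e, I_per e]

theorem psi_per_two (e : ℝ) (i k : ℕ) (hi : 1 ≤ i) :
    Function.Periodic (psi e i k) (30 * k / i) := by
  intro c
  have hi0 : (i : ℝ) ≠ 0 := by
    have : 0 < i := hi
    positivity
  have hper : Function.Periodic (fun a => rho e i k a c) 1 := by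
    intro a
    simp only [rho]
    have e1 : (k : ℝ) * (a + 1) + c = k * a + c + ((k : ℤ) : ℝ) := by push_cast; ring
    have e2 : (k : ℝ) * a + c + ((k : ℤ) : ℝ) + i * (a + 1) = k * a + c + i * a +
      ((k + i : ℤ) : ℝ) := by push_cast; ring
    have e3 : (i : ℝ) * (a + 1) = i * a + ((i : ℤ) : ℝ) := by push_cast; ring
    rw [e1, e2, e3, I_int, I_int, pr_add]
    exact_mod_cast Nat.gcd_dvd_left i 30
  have h1 := shift hper (30 / (i : ℝ))
  unfold psi
  rw [← h1]
  congr 1
  funext a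
  unfold rho
  have e1 : (k : ℝ) * a + (c + 30 * k / i) = k * (a + 30 / i) + c := by field_simp; ring
  have e2 : (k : ℝ) * (a + 30 / i) + c + i * (a + 30 / i) =
      k * (a + 30 / i) + c + i * a + ((30 : ℤ) : ℝ) := by
    push_cast; field_simp; ring
  have e3 : (i : ℝ) * (a + 30 / i) = i * a + ((30 : ℤ) : ℝ) := by push_cast; field_simp
  rw [e1, e2, e3, I_int, pr_add]
  exact_mod_cast Nat.gcd_dvd_right i 30

theorem qq_pos (i k : ℕ) (hi : 1 ≤ i) : 1 ≤ qq i k :=
  Nat.div_pos (Nat.gcd_le_left _ hi) (Nat.gcd_pos_of_pos_left _ hi)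

theorem psi_per (e : ℝ) (i k : ℕ) (hi : 1 ≤ i) (n : ℤ) (c : ℝ) :
    psi e i k (c + n / qq i k) = psi e i k c := by
  have hi0 : (i : ℝ) ≠ 0 := by
    have : 0 < i := hi
    positivity
  have hg : 0 < Nat.gcd i (30 * k) := Nat.gcd_pos_of_pos_left _ hi
  have hq : ((qq i k : ℕ) : ℝ) = i / (Nat.gcd i (30 * k) : ℝ) := by
    unfold qq
    rw [Nat.cast_div (Nat.gcd_dvd_left _ _) (by exact_mod_cast hg.ne')]
  have hb : ((Nat.gcd i (30 * k) : ℕ) : ℝ) =
      i * (Nat.gcdA i (30 * k) : ℝ) + 30 * k * (Nat.gcdB i (30 * k) : ℝ) := by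
    have := Nat.gcd_eq_gcd_ab i (30 * k)
    have h2 := congrArg (fun z : ℤ => (z : ℝ)) this
    push_cast at h2
    exact h2
  have h1 : c + n / qq i k = c + ((n * Nat.gcdB i (30 * k) : ℤ) : ℝ) * (30 * k / i) +
      ((n * Nat.gcdA i (30 * k) : ℤ) : ℝ) * 1 := by
    rw [hq, hb]
    push_cast
    field_simp
    ring
  rw [h1, (psi_per_one e i k).int_mul, (psi_per_two e i k hi).int_mul]

/-- pointwise average over a fine grid -/
theorem psi_avg {e : ℝ} (he : 0 ≤ e) (he2 : e ≤ 1 / 2) (i k : ℕ) (hi : 1 ≤ i) (L : ℕ)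
    (hL : 1 ≤ L) (c : ℝ) :
    ∑ s ∈ Finset.range L, psi e i k (c + s / L) ≤ L * (w i * e ^ 2) + 2 * e := by
  have hm : ∀ c' : ℝ, Measurable (fun a => rho e i k a c') := fun c' =>
    (rho_meas e i k).comp (measurable_id.prodMk measurable_const)
  have h1 : ∑ s ∈ Finset.range L, psi e i k (c + s / L) =
      ∫ a in (0 : ℝ)..1, ∑ s ∈ Finset.range L, rho e i k a (c + s / L) := by
    unfold psi
    rw [intervalIntegral.integral_finsetSum]
    intro s _
    exact bdd_int (hm _) (fun a => rho_abs e i k a _) _ _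
  have hia : Measurable (fun a : ℝ => (i : ℝ) * a) := measurable_id.const_mul _
  have h2 : ∀ a : ℝ, ∑ s ∈ Finset.range L, rho e i k a (c + s / L) ≤
      (L * hx e (i * a) + nr e (i * a)) * pr i (i * a) := by
    intro a
    unfold rho
    rw [← Finset.sum_mul]
    refine mul_le_mul_of_nonneg_right ?_ (pr_nonneg _ _)
    have := arc_count he2 L hL (k * a + c) (i * a)
    refine le_trans (le_of_eq ?_) this
    refine Finset.sum_congr rfl (fun s _ => ?_)
    rw [add_assoc ((k : ℝ) * a) c]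
  rw [h1]
  have hL0 : (0 : ℝ) ≤ L := by positivity
  calc ∫ a in (0 : ℝ)..1, ∑ s ∈ Finset.range L, rho e i k a (c + s / L)
      ≤ ∫ a in (0 : ℝ)..1, (L * hx e (i * a) + nr e (i * a)) * pr i (i * a) := by
        refine int_mono (Finset.measurable_sum _ (fun s _ => hm _)) ?_ (C := L) (D := L + 1)
          ?_ ?_ h2
        · exact ((((hx_meas e).comp hia).const_mul _).add ((nr_meas e).comp hia)).mul
            ((pr_meas i).comp hia)
        · intro a
          refine le_trans (Finset.abs_sum_le_sum_abs _ _) ?_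
          calc ∑ s ∈ Finset.range L, |rho e i k a (c + s / L)| ≤ ∑ s ∈ Finset.range L, (1 : ℝ) :=
                Finset.sum_le_sum (fun s _ => rho_abs _ _ _ _ _)
            _ = L := by simp
        · intro a
          rw [abs_mul]
          calc |L * hx e (i * a) + nr e (i * a)| * |pr i (i * a)| ≤ (L + 1) * 1 := by
                refine mul_le_mul ?_ (pr_abs _ _) (abs_nonneg _) (by positivity)
                refine le_trans (abs_add_le _ _) ?_
                rw [abs_mul, abs_of_nonneg hL0]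
                have h3 := mul_le_mul_of_nonneg_left (hx_abs he he2 (i * a)) hL0
                have h4 := nr_abs e (i * a)
                linarith
            _ = L + 1 := by ring
    _ = L * (w i * e ^ 2) + w i * ∫ z in (0 : ℝ)..1, nr e z := by
        have h3 : ∀ a : ℝ, (L * hx e (i * a) + nr e (i * a)) * pr i (i * a) =
            L * (pr i (i * a) * hx e (i * a)) + pr i (i * a) * nr e (i * a) := by
          intro a; ring
        simp only [h3]
        have hm1 : Measurable (fun a : ℝ => pr i (i * a) * hx e (i * a)) :=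
          ((pr_meas i).comp hia).mul ((hx_meas e).comp hia)
        have hm2 : Measurable (fun a : ℝ => pr i (i * a) * nr e (i * a)) :=
          ((pr_meas i).comp hia).mul ((nr_meas e).comp hia)
        have hb1 : ∀ a : ℝ, |pr i (i * a) * hx e (i * a)| ≤ 1 := by
          intro a
          rw [abs_mul]
          calc _ ≤ (1 : ℝ) * 1 :=
                mul_le_mul (pr_abs _ _) (hx_abs he he2 _) (abs_nonneg _) (by norm_num)
            _ = 1 := one_mul 1
        have hb2 : ∀ a : ℝ, |pr i (i * a) * nr e (i * a)| ≤ 1 := by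
          intro a
          rw [abs_mul]
          calc _ ≤ (1 : ℝ) * 1 :=
                mul_le_mul (pr_abs _ _) (nr_abs e _) (abs_nonneg _) (by norm_num)
            _ = 1 := one_mul 1
        rw [intervalIntegral.integral_add ((bdd_int hm1 hb1 _ _).const_mul _)
          (bdd_int hm2 hb2 _ _), intervalIntegral.integral_const_mul,
          scale_pr i hi (hx_per e) (hx_meas e) (hx_abs he he2), hx_integral he he2,
          scale_pr i hi (nr_per e) (nr_meas e) (nr_abs e)]
    _ ≤ L * (w i * e ^ 2) + 2 * e := by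
        have h3 : 0 ≤ ∫ z in (0 : ℝ)..1, nr e z := int_nonneg (nr_nonneg e)
        have h4 := nr_integral he he2
        have h5 : w i * ∫ z in (0 : ℝ)..1, nr e z ≤ 1 * ∫ z in (0 : ℝ)..1, nr e z :=
          mul_le_mul_of_nonneg_right (w_le_one i) h3
        linarith

theorem cov {e : ℝ} (he : 0 ≤ e) (he2 : e ≤ 1 / 2) (i k i' k' : ℕ) (hi : 1 ≤ i)
    (hi' : 1 ≤ i') :
    ∫ c in (0 : ℝ)..1, psi e i k c * psi e i' k' c ≤
      (w i * e ^ 2 + 2 * e / (Nat.lcm (qq i k) (qq i' k') : ℕ)) * (w i' * e ^ 2) := by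
  set q := qq i k with hq
  set q' := qq i' k' with hq'
  have hq1 : 1 ≤ q := qq_pos i k hi
  have hq1' : 1 ≤ q' := qq_pos i' k' hi'
  set L := Nat.lcm q q' with hL
  have hL1 : 1 ≤ L := Nat.lcm_pos hq1 hq1'
  have hLR : (L : ℝ) ≠ 0 := by
    have : 0 < L := hL1
    positivity
  have hqR : (q : ℝ) ≠ 0 := by
    have : 0 < q := hq1
    positivity
  have hqR' : (q' : ℝ) ≠ 0 := by
    have : 0 < q' := hq1'
    positivity
  -- translation invariance
  have key : ∀ s ∈ Finset.range L, ∫ c in (0 : ℝ)..1, psi e i k (c + s / L) * psi e i' k' c =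
      ∫ c in (0 : ℝ)..1, psi e i k c * psi e i' k' c := by
    intro s _
    obtain ⟨x, hx⟩ : q ∣ L := Nat.dvd_lcm_left _ _
    obtain ⟨y, hy⟩ : q' ∣ L := Nat.dvd_lcm_right _ _
    have hxy : Nat.Coprime x y := by
      have hx' : x = q' / Nat.gcd q q' := by
        have h1 : q * x = q * (q' / Nat.gcd q q') := by
          rw [← hx, hL, Nat.lcm, Nat.mul_div_assoc _ (Nat.gcd_dvd_right _ _)]
        exact Nat.eq_of_mul_eq_mul_left (by omega) h1
      have hy' : y = q / Nat.gcd q q' := by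
        have h1 : q' * y = q' * (q / Nat.gcd q q') := by
          rw [← hy, hL, Nat.lcm, mul_comm q q', Nat.mul_div_assoc _ (Nat.gcd_dvd_left _ _)]
        exact Nat.eq_of_mul_eq_mul_left (by omega) h1
      rw [hx', hy']
      exact (Nat.coprime_div_gcd_div_gcd (Nat.gcd_pos_of_pos_left _ hq1)).symm
    have hb : (1 : ℝ) = x * (Nat.gcdA x y : ℝ) + y * (Nat.gcdB x y : ℝ) := by
      have h1 := Nat.gcd_eq_gcd_ab x y
      rw [hxy] at h1
      have h2 := congrArg (fun z : ℤ => (z : ℝ)) h1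
      push_cast at h2
      exact h2
    have hxL : (L : ℝ) = q * x := by exact_mod_cast hx
    have hyL : (L : ℝ) = q' * y := by exact_mod_cast hy
    have hx0 : (x : ℝ) ≠ 0 := by
      intro h; rw [h, mul_zero] at hxL; exact hLR hxL
    have hy0 : (y : ℝ) ≠ 0 := by
      intro h; rw [h, mul_zero] at hyL; exact hLR hyL
    have hs : (s : ℝ) / L = ((s * Nat.gcdA x y : ℤ) : ℝ) / q +
        ((s * Nat.gcdB x y : ℤ) : ℝ) / q' := by
      have h1 : (s : ℝ) / L = s * (x * (Nat.gcdA x y : ℝ) + y * (Nat.gcdB x y : ℝ)) / L := by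
        rw [← hb, mul_one]
      rw [h1, mul_add, add_div]
      congr 1
      · rw [hxL]; push_cast; field_simp
      · rw [hyL]; push_cast; field_simp
    have hper : Function.Periodic (fun c => psi e i k c * psi e i' k' c) 1 := by
      intro c
      simp only [psi_per_one e i k c, psi_per_one e i' k' c]
    rw [← shift hper (((s * Nat.gcdB x y : ℤ) : ℝ) / q')]
    congr 1
    funext c
    rw [psi_per e i' k' hi', hs, ← add_assoc, add_right_comm, psi_per e i k hi]
  have hint : ∀ s : ℕ, IntervalIntegrable (fun c => psi e i k (c + s / L) * psi e i' k' c)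
      volume 0 1 := by
    intro s
    refine bdd_int (C := 1) ?_ ?_ _ _
    · exact ((psi_meas e i k).comp (measurable_id.add_const _)).mul (psi_meas e i' k')
    · intro c
      rw [abs_mul]
      calc _ ≤ (1 : ℝ) * 1 := mul_le_mul (psi_abs _ _ _ _) (psi_abs _ _ _ _) (abs_nonneg _)
            (by norm_num)
        _ = 1 := one_mul 1
  have h1 : (L : ℝ) * ∫ c in (0 : ℝ)..1, psi e i k c * psi e i' k' c =
      ∫ c in (0 : ℝ)..1, (∑ s ∈ Finset.range L, psi e i k (c + s / L)) * psi e i' k' c := by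
    simp only [Finset.sum_mul]
    rw [intervalIntegral.integral_finsetSum (fun s _ => hint s), Finset.sum_congr rfl key]
    simp
  have h2 : ∫ c in (0 : ℝ)..1, (∑ s ∈ Finset.range L, psi e i k (c + s / L)) * psi e i' k' c ≤
      ∫ c in (0 : ℝ)..1, (L * (w i * e ^ 2) + 2 * e) * psi e i' k' c := by
    refine intervalIntegral.integral_mono (by norm_num) ?_ ?_ ?_
    · simp only [Finset.sum_mul]
      exact ii_sum _ (fun s _ => hint s)
    · exact (bdd_int (psi_meas e i' k') (psi_abs e i' k') _ _).const_mul _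
    · intro c
      exact mul_le_mul_of_nonneg_right (psi_avg he he2 i k hi L hL1 c) (psi_nonneg _ _ _ _)
  rw [intervalIntegral.integral_const_mul, psi_integral he he2 i' k' hi'] at h2
  have h3 : (L : ℝ) * ∫ c in (0 : ℝ)..1, psi e i k c * psi e i' k' c ≤
      L * ((w i * e ^ 2 + 2 * e / L) * (w i' * e ^ 2)) := by
    rw [h1]
    refine le_trans h2 (le_of_eq ?_)
    field_simp
  exact le_of_mul_le_mul_left h3 (by positivity)

/-- the sum of the pair functions -/
noncomputable def SS (e : ℝ) (Λ : Finset (ℕ × ℕ)) (c : ℝ) : ℝ := ∑ x ∈ Λ, psi e x.1 x.2 c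

theorem SS_meas (e : ℝ) (Λ : Finset (ℕ × ℕ)) : Measurable (SS e Λ) :=
  Finset.measurable_sum _ (fun x _ => psi_meas e x.1 x.2)

theorem SS_abs (e : ℝ) (Λ : Finset (ℕ × ℕ)) (c : ℝ) : |SS e Λ c| ≤ Λ.card := by
  unfold SS
  refine le_trans (Finset.abs_sum_le_sum_abs _ _) ?_
  calc ∑ x ∈ Λ, |psi e x.1 x.2 c| ≤ ∑ x ∈ Λ, (1 : ℝ) :=
        Finset.sum_le_sum (fun x _ => psi_abs _ _ _ _)
    _ = Λ.card := by simp

theorem SS_integral {e : ℝ} (he : 0 ≤ e) (he2 : e ≤ 1 / 2) (Λ : Finset (ℕ × ℕ))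
    (hΛ : ∀ x ∈ Λ, 1 ≤ x.1) :
    ∫ c in (0 : ℝ)..1, SS e Λ c = ∑ x ∈ Λ, w x.1 * e ^ 2 := by
  have hint : ∀ x ∈ Λ, IntervalIntegrable (psi e x.1 x.2) volume 0 1 :=
    fun x _ => bdd_int (psi_meas e x.1 x.2) (psi_abs e x.1 x.2) _ _
  have h1 : ∫ c in (0 : ℝ)..1, SS e Λ c = ∑ x ∈ Λ, ∫ c in (0 : ℝ)..1, psi e x.1 x.2 c := by
    unfold SS
    exact intervalIntegral.integral_finsetSum hint
  rw [h1]
  exact Finset.sum_congr rfl (fun x hx => psi_integral he he2 x.1 x.2 (hΛ x hx))

/-- second moment -/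
theorem SS_sq {e : ℝ} (he : 0 ≤ e) (he2 : e ≤ 1 / 2) (Λ : Finset (ℕ × ℕ)) (M : ℕ)
    (hΛ : Λ ⊆ Finset.Ico 1 M ×ˢ Finset.Ico 1 M) :
    ∫ c in (0 : ℝ)..1, SS e Λ c ^ 2 ≤ (∫ c in (0 : ℝ)..1, SS e Λ c) ^ 2 +
      2 * e ^ 3 * ((30 * M * H M) ^ 2 * H M ^ 3) := by
  have hΛ1 : ∀ x ∈ Λ, 1 ≤ x.1 := by
    intro x hx
    have := hΛ hx
    rw [Finset.mem_product, Finset.mem_Ico] at this
    exact this.1.1
  have h1 : ∫ c in (0 : ℝ)..1, SS e Λ c ^ 2 =
      ∑ x ∈ Λ, ∑ y ∈ Λ, ∫ c in (0 : ℝ)..1, psi e x.1 x.2 c * psi e y.1 y.2 c := by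
    unfold SS
    simp only [sq, Finset.sum_mul_sum]
    have hint : ∀ x y : ℕ × ℕ, IntervalIntegrable
        (fun c => psi e x.1 x.2 c * psi e y.1 y.2 c) volume 0 1 := by
      intro x y
      refine bdd_int (f := fun c => psi e x.1 x.2 c * psi e y.1 y.2 c) (C := 1)
        ((psi_meas e x.1 x.2).mul (psi_meas e y.1 y.2)) ?_ _ _
      intro c
      rw [abs_mul]
      calc _ ≤ (1 : ℝ) * 1 := mul_le_mul (psi_abs _ _ _ _) (psi_abs _ _ _ _) (abs_nonneg _)
            (by norm_num)
        _ = 1 := one_mul 1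
    have h2 : ∫ c in (0 : ℝ)..1, ∑ x ∈ Λ, ∑ y ∈ Λ, psi e x.1 x.2 c * psi e y.1 y.2 c =
        ∑ x ∈ Λ, ∫ c in (0 : ℝ)..1, ∑ y ∈ Λ, psi e x.1 x.2 c * psi e y.1 y.2 c :=
      intervalIntegral.integral_finsetSum
        (f := fun (x : ℕ × ℕ) c => ∑ y ∈ Λ, psi e x.1 x.2 c * psi e y.1 y.2 c)
        (fun x _ => ii_sum _ (fun y _ => hint x y))
    rw [h2]
    refine Finset.sum_congr rfl (fun x _ => ?_)
    exact intervalIntegral.integral_finsetSum
      (f := fun (y : ℕ × ℕ) c => psi e x.1 x.2 c * psi e y.1 y.2 c) (fun y _ => hint x y)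
  rw [h1]
  calc ∑ x ∈ Λ, ∑ y ∈ Λ, ∫ c in (0 : ℝ)..1, psi e x.1 x.2 c * psi e y.1 y.2 c
      ≤ ∑ x ∈ Λ, ∑ y ∈ Λ, ((w x.1 * e ^ 2) * (w y.1 * e ^ 2) +
          2 * e ^ 3 * ((1 : ℝ) / (Nat.lcm (qq x.1 x.2) (qq y.1 y.2) : ℕ))) := by
        refine Finset.sum_le_sum (fun x hx => Finset.sum_le_sum (fun y hy => ?_))
        refine le_trans (cov he he2 x.1 x.2 y.1 y.2 (hΛ1 x hx) (hΛ1 y hy)) ?_
        rw [add_mul]
        have h2 : 0 ≤ 2 * e / ((Nat.lcm (qq x.1 x.2) (qq y.1 y.2) : ℕ) : ℝ) := by positivity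
        have h3 : w y.1 * e ^ 2 ≤ 1 * e ^ 2 :=
          mul_le_mul_of_nonneg_right (w_le_one _) (by positivity)
        have h4 := mul_le_mul_of_nonneg_left h3 h2
        have h5 : 2 * e / ((Nat.lcm (qq x.1 x.2) (qq y.1 y.2) : ℕ) : ℝ) * (1 * e ^ 2) =
          2 * e ^ 3 * ((1 : ℝ) / (Nat.lcm (qq x.1 x.2) (qq y.1 y.2) : ℕ)) := by ring
        linarith
    _ = (∑ x ∈ Λ, w x.1 * e ^ 2) ^ 2 +
          2 * e ^ 3 * ∑ x ∈ Λ, ∑ y ∈ Λ, (1 : ℝ) / (Nat.lcm (qq x.1 x.2) (qq y.1 y.2) : ℕ) := by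
        simp only [Finset.sum_add_distrib, Finset.mul_sum]
        rw [pow_two (∑ x ∈ Λ, w x.1 * e ^ 2), Finset.sum_mul_sum]
    _ ≤ _ := by
        rw [SS_integral he he2 Λ hΛ1]
        have := sum_inv_lcm_pairs M Λ hΛ
        have h2 : 0 ≤ 2 * e ^ 3 := by positivity
        have := mul_le_mul_of_nonneg_left this h2
        linarith

/-- decorrelation from an arbitrary weight -/
theorem decorr {e : ℝ} (he : 0 ≤ e) (he2 : e ≤ 1 / 2) (Λ : Finset (ℕ × ℕ)) (M : ℕ)
    (hΛ : Λ ⊆ Finset.Ico 1 M ×ˢ Finset.Ico 1 M) (D : ℝ → ℝ) (hD : Measurable D)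
    (hD0 : ∀ c, 0 ≤ D c) (hD1 : ∀ c, D c ≤ 1) (l : ℝ) (hl : 0 < l) :
    ∫ c in (0 : ℝ)..1, D c * SS e Λ c ≤
      (∫ c in (0 : ℝ)..1, D c) * (∫ c in (0 : ℝ)..1, SS e Λ c) +
      l + 2 * e ^ 3 * ((30 * M * H M) ^ 2 * H M ^ 3) / l := by
  set m := ∫ c in (0 : ℝ)..1, SS e Λ c with hm
  have hpt : ∀ c, D c * SS e Λ c ≤ D c * m + (l + (SS e Λ c - m) ^ 2 / l) := by
    intro c
    have h1 : D c * (SS e Λ c - m) ≤ l + (SS e Λ c - m) ^ 2 / l := by
      have h2 : D c * (SS e Λ c - m) ≤ |SS e Λ c - m| := by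
        refine le_trans (le_abs_self _) ?_
        rw [abs_mul, abs_of_nonneg (hD0 c)]
        calc D c * |SS e Λ c - m| ≤ 1 * |SS e Λ c - m| :=
              mul_le_mul_of_nonneg_right (hD1 c) (abs_nonneg _)
          _ = _ := one_mul _
      have h3 : |SS e Λ c - m| ≤ l + (SS e Λ c - m) ^ 2 / l := by
        rw [← sq_abs (SS e Λ c - m)]
        have h4 := abs_nonneg (SS e Λ c - m)
        set y := |SS e Λ c - m|
        rw [← sub_nonneg]
        have : l + y ^ 2 / l - y = ((2 * l - y) ^ 2 + 3 * y ^ 2) / (4 * l) := by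
          field_simp; ring
        rw [this]; positivity
      linarith
    linarith
  have hDa : ∀ c, |D c| ≤ 1 := fun c => by rw [abs_of_nonneg (hD0 c)]; exact hD1 c
  have i1 : IntervalIntegrable (fun c => D c * SS e Λ c) volume 0 1 := by
    refine bdd_int (f := fun c => D c * SS e Λ c) (C := 1 * Λ.card)
      (hD.mul (SS_meas e Λ)) ?_ _ _
    intro c
    rw [abs_mul]
    exact mul_le_mul (hDa c) (SS_abs e Λ c) (abs_nonneg _) (by norm_num)
  have i2 : IntervalIntegrable D volume 0 1 := bdd_int hD hDa _ _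
  have i3 : IntervalIntegrable (SS e Λ) volume 0 1 := bdd_int (SS_meas e Λ) (SS_abs e Λ) _ _
  have i4 : IntervalIntegrable (fun c => SS e Λ c ^ 2) volume 0 1 := by
    refine bdd_int (C := (Λ.card : ℝ) ^ 2) ((SS_meas e Λ).pow_const 2) ?_ _ _
    intro c
    rw [abs_pow]
    exact pow_le_pow_left₀ (abs_nonneg _) (SS_abs e Λ c) 2
  have i5 : IntervalIntegrable (fun c => (SS e Λ c - m) ^ 2) volume 0 1 := by
    have : (fun c => (SS e Λ c - m) ^ 2) = fun c => SS e Λ c ^ 2 - 2 * m * SS e Λ c + m ^ 2 := by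
      funext c; ring
    rw [this]
    exact (i4.sub (i3.const_mul _)).add intervalIntegrable_const
  have hvar : ∫ c in (0 : ℝ)..1, (SS e Λ c - m) ^ 2 ≤
      2 * e ^ 3 * ((30 * M * H M) ^ 2 * H M ^ 3) := by
    have h1 : ∫ c in (0 : ℝ)..1, (SS e Λ c - m) ^ 2 = (∫ c in (0 : ℝ)..1, SS e Λ c ^ 2) - m ^ 2 := by
      have h2 : ∀ c, (SS e Λ c - m) ^ 2 = SS e Λ c ^ 2 - 2 * m * SS e Λ c + m ^ 2 := by
        intro c; ring
      simp only [h2]
      rw [intervalIntegral.integral_add (i4.sub (i3.const_mul _)) intervalIntegrable_const,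
        intervalIntegral.integral_sub i4 (i3.const_mul _), intervalIntegral.integral_const_mul,
        intervalIntegral.integral_const, ← hm]
      simp only [sub_zero, one_smul]
      ring
    rw [h1]
    have := SS_sq he he2 Λ M hΛ
    rw [← hm] at this
    linarith
  calc ∫ c in (0 : ℝ)..1, D c * SS e Λ c
      ≤ ∫ c in (0 : ℝ)..1, (D c * m + (l + (SS e Λ c - m) ^ 2 / l)) :=
        intervalIntegral.integral_mono (by norm_num) i1
          ((i2.mul_const _).add (intervalIntegrable_const.add (i5.div_const _))) hpt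
    _ = (∫ c in (0 : ℝ)..1, D c) * m + (l + (∫ c in (0 : ℝ)..1, (SS e Λ c - m) ^ 2) / l) := by
        rw [intervalIntegral.integral_add (i2.mul_const _)
          (intervalIntegrable_const.add (i5.div_const _)),
          intervalIntegral.integral_add intervalIntegrable_const (i5.div_const _),
          intervalIntegral.integral_mul_const, intervalIntegral.integral_div,
          intervalIntegral.integral_const]
        simp only [sub_zero, one_smul]
    _ ≤ _ := by
        have := div_le_div_of_nonneg_right hvar hl.le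
        linarith

end Q96.Rot
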