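import Mathlib

/-! Green's identity for real parts of entire functions on a triangle, by slices. -/

open MeasureTheory Set

namespace Pool.Agent.Q96.SkGreen

/-- the open standard simplex in `ℝ × ℝ` -/
def Dl : Set (ℝ × ℝ) := {p | 0 < p.1 ∧ 0 < p.2 ∧ p.1 + p.2 < 1}

lemma Dl_meas : MeasurableSet Dl := by
  have : Dl = {p : ℝ × ℝ | 0 < p.1} ∩ ({p | 0 < p.2} ∩ {p | p.1 + p.2 < 1}) := by
    ext p; simp [Dl]
  rw [this]
  refine (measurableSet_lt measurable_const measurable_fst).inter
    ((measurableSet_lt measurable_const measurable_snd).inter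
      (measurableSet_lt (measurable_fst.add measurable_snd) measurable_const))

lemma Dl_sub : Dl ⊆ Icc (0 : ℝ) 1 ×ˢ Icc (0 : ℝ) 1 := by
  rintro ⟨s, t⟩ ⟨h1, h2, h3⟩
  simp only at h1 h2 h3
  exact ⟨⟨h1.le, by simp only; linarith⟩, ⟨h2.le, by simp only; linarith⟩⟩

lemma Dl_int {g : ℝ × ℝ → ℝ} (hg : Continuous g) : IntegrableOn g Dl volume := by
  have hc : IsCompact (Icc (0 : ℝ) 1 ×ˢ Icc (0 : ℝ) 1) := isCompact_Icc.prod isCompact_Icc
  exact (hg.continuousOn.integrableOn_compact hc).mono_set Dl_sub

lemma slice (g : ℝ → ℝ) (t : ℝ) :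
    (∫ s, (Ioo (0 : ℝ) (1 - t)).indicator g s) * (Ioo (0 : ℝ) 1).indicator (fun _ => (1 : ℝ)) t =
      (Ioo (0 : ℝ) 1).indicator (fun t => ∫ s in (0 : ℝ)..(1 - t), g s) t := by
  by_cases ht : t ∈ Ioo (0 : ℝ) 1
  · rw [indicator_of_mem ht, indicator_of_mem ht, mul_one, integral_indicator measurableSet_Ioo,
      intervalIntegral.integral_of_le (by linarith [ht.2]), integral_Ioc_eq_integral_Ioo]
  · rw [indicator_of_notMem ht, indicator_of_notMem ht, mul_zero]

lemma tri1 {g : ℝ × ℝ → ℝ} (hg : Continuous g) :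
    ∫ p in Dl, g p = ∫ t in (0 : ℝ)..1, ∫ s in (0 : ℝ)..(1 - t), g (s, t) := by
  have hi : Integrable (Dl.indicator g) (volume : Measure (ℝ × ℝ)) :=
    (integrable_indicator_iff Dl_meas).2 (Dl_int hg)
  rw [← integral_indicator Dl_meas]
  have h1 : ∫ p, Dl.indicator g p = ∫ t, ∫ s, Dl.indicator g (s, t) := by
    have := integral_prod_symm (μ := (volume : Measure ℝ)) (ν := (volume : Measure ℝ))
      (Dl.indicator g) (by rw [← Measure.volume_eq_prod]; exact hi)
    rw [← Measure.volume_eq_prod] at this
    exact this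
  rw [h1, intervalIntegral.integral_of_le (by norm_num), integral_Ioc_eq_integral_Ioo,
    ← integral_indicator measurableSet_Ioo]
  refine integral_congr_ae (Filter.Eventually.of_forall fun t => ?_)
  simp only
  by_cases ht : t ∈ Ioo (0 : ℝ) 1
  · rw [indicator_of_mem ht, intervalIntegral.integral_of_le (by linarith [ht.2]),
      integral_Ioc_eq_integral_Ioo, ← integral_indicator measurableSet_Ioo]
    refine integral_congr_ae (Filter.Eventually.of_forall fun s => ?_)
    simp only
    by_cases hs : s ∈ Ioo (0 : ℝ) (1 - t)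
    · rw [indicator_of_mem hs, indicator_of_mem]
      exact ⟨hs.1, ht.1, by simp only; linarith [hs.2]⟩
    · rw [indicator_of_notMem hs, indicator_of_notMem]
      rintro ⟨h1, h2, h3⟩
      exact hs ⟨h1, by simp only at h3; linarith⟩
  · rw [indicator_of_notMem ht]
    have : ∀ s, Dl.indicator g (s, t) = 0 := by
      intro s
      rw [indicator_of_notMem]
      rintro ⟨h1, h2, h3⟩
      simp only at h1 h2 h3
      exact ht ⟨h2, by linarith⟩
    simp [this]

lemma tri2 {g : ℝ × ℝ → ℝ} (hg : Continuous g) :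
    ∫ p in Dl, g p = ∫ s in (0 : ℝ)..1, ∫ t in (0 : ℝ)..(1 - s), g (s, t) := by
  have h := tri1 (g := fun p => g (p.2, p.1)) (by fun_prop)
  rw [← h]
  have hm : MeasurePreserving (Prod.swap : ℝ × ℝ → ℝ × ℝ) volume volume :=
    Measure.measurePreserving_swap
  have he : MeasurableEmbedding (Prod.swap : ℝ × ℝ → ℝ × ℝ) :=
    (MeasurableEquiv.prodComm (α := ℝ) (β := ℝ)).measurableEmbedding
  rw [← hm.setIntegral_preimage_emb he]
  have : (Prod.swap : ℝ × ℝ → ℝ × ℝ) ⁻¹' Dl = Dl := by
    ext ⟨s, t⟩
    simp only [mem_preimage, Prod.swap_prod_mk, Dl, mem_ofPred_eq]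
    constructor <;> rintro ⟨h1, h2, h3⟩ <;> exact ⟨h2, h1, by linarith⟩
  rw [this]
  rfl

/-- the affine parametrisation -/
def ph (a A B : ℂ) (s t : ℝ) : ℂ := a + s * A + t * B

/-- flux through the side from `p` to `q` -/
noncomputable def side (H K' : ℂ → ℂ) (p q : ℂ) : ℝ :=
  ∫ t in (0 : ℝ)..1, (H (p + t * (q - p))).re * (K' (p + t * (q - p)) * (q - p)).im

lemma hasDeriv_s {F : ℂ → ℂ} (hF : Differentiable ℂ F) (a A B : ℂ) (s t : ℝ) :
    HasDerivAt (fun s : ℝ => F (ph a A B s t)) (deriv F (ph a A B s t) * A) s := by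
  have h1 : HasDerivAt (fun s : ℝ => ph a A B s t) A s := by
    unfold ph
    have : HasDerivAt (fun s : ℝ => (s : ℂ)) 1 s := Complex.ofRealCLM.hasDerivAt
    simpa using ((this.mul_const A).const_add a).add_const (t * B)
  exact (hF (ph a A B s t)).hasDerivAt.comp s h1

lemma hasDeriv_t {F : ℂ → ℂ} (hF : Differentiable ℂ F) (a A B : ℂ) (s t : ℝ) :
    HasDerivAt (fun t : ℝ => F (ph a A B s t)) (deriv F (ph a A B s t) * B) t := by
  have h1 : HasDerivAt (fun t : ℝ => ph a A B s t) B t := by
    unfold ph
    have : HasDerivAt (fun s : ℝ => (s : ℂ)) 1 t := Complex.ofRealCLM.hasDerivAt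
    simpa using (this.mul_const B).const_add (a + s * A)
  exact (hF (ph a A B s t)).hasDerivAt.comp t h1

lemma re_deriv {f : ℝ → ℂ} {f' : ℂ} {x : ℝ} (h : HasDerivAt f f' x) :
    HasDerivAt (fun x => (f x).re) f'.re x :=
  Complex.reCLM.hasFDerivAt.comp_hasDerivAt x h

lemma im_deriv {f : ℝ → ℂ} {f' : ℂ} {x : ℝ} (h : HasDerivAt f f' x) :
    HasDerivAt (fun x => (f x).im) f'.im x :=
  Complex.imCLM.hasFDerivAt.comp_hasDerivAt x h

lemma alg (p q A B : ℂ) :
    (p * A).re * (q * B).im - (p * B).re * (q * A).im =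
      ((starRingEnd ℂ) A * B).im * (q * (starRingEnd ℂ) p).re := by
  simp only [Complex.mul_re, Complex.mul_im, Complex.conj_re, Complex.conj_im]
  ring

theorem green_simplex {H K : ℂ → ℂ} (hH : Differentiable ℂ H) (hK : Differentiable ℂ K)
    (a A B : ℂ) :
    ∫ p in Dl, ((starRingEnd ℂ) A * B).im *
        (deriv K (ph a A B p.1 p.2) * (starRingEnd ℂ) (deriv H (ph a A B p.1 p.2))).re =
      side H (deriv K) a (a + A) + side H (deriv K) (a + A) (a + B) +
        side H (deriv K) (a + B) a := by
  have hH' : Differentiable ℂ (deriv H) := fun z =>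
    ((hH.contDiff (n := 2)).differentiable_deriv_two z)
  have hK' : Differentiable ℂ (deriv K) := fun z =>
    ((hK.contDiff (n := 2)).differentiable_deriv_two z)
  have hK'' : Continuous (deriv (deriv K)) := (hK'.contDiff (n := 1)).continuous_deriv le_rfl
  have hHc := hH.continuous
  have hKc := hK.continuous
  have hHc' := hH'.continuous
  have hKc' := hK'.continuous
  have hphc : Continuous (fun p : ℝ × ℝ => ph a A B p.1 p.2) := by unfold ph; fun_prop
  -- the two derivative terms
  set g1 : ℝ × ℝ → ℝ := fun p =>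
    (deriv H (ph a A B p.1 p.2) * A).re * (deriv K (ph a A B p.1 p.2) * B).im +
      (H (ph a A B p.1 p.2)).re * (deriv (deriv K) (ph a A B p.1 p.2) * A * B).im with hg1
  set g2 : ℝ × ℝ → ℝ := fun p =>
    (deriv H (ph a A B p.1 p.2) * B).re * (deriv K (ph a A B p.1 p.2) * A).im +
      (H (ph a A B p.1 p.2)).re * (deriv (deriv K) (ph a A B p.1 p.2) * B * A).im with hg2
  have c1 : Continuous g1 := by
    rw [hg1]
    refine Continuous.add (Continuous.mul ?_ ?_) (Continuous.mul ?_ ?_)
    · exact Complex.continuous_re.comp ((hHc'.comp hphc).mul continuous_const)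
    · exact Complex.continuous_im.comp ((hKc'.comp hphc).mul continuous_const)
    · exact Complex.continuous_re.comp (hHc.comp hphc)
    · exact Complex.continuous_im.comp
        (((hK''.comp hphc).mul continuous_const).mul continuous_const)
  have c2 : Continuous g2 := by
    rw [hg2]
    refine Continuous.add (Continuous.mul ?_ ?_) (Continuous.mul ?_ ?_)
    · exact Complex.continuous_re.comp ((hHc'.comp hphc).mul continuous_const)
    · exact Complex.continuous_im.comp ((hKc'.comp hphc).mul continuous_const)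
    · exact Complex.continuous_re.comp (hHc.comp hphc)
    · exact Complex.continuous_im.comp
        (((hK''.comp hphc).mul continuous_const).mul continuous_const)
  have hsplit : ∀ p : ℝ × ℝ, ((starRingEnd ℂ) A * B).im *
        (deriv K (ph a A B p.1 p.2) * (starRingEnd ℂ) (deriv H (ph a A B p.1 p.2))).re =
      g1 p - g2 p := by
    intro p
    rw [← alg, hg1, hg2]
    simp only
    have : deriv (deriv K) (ph a A B p.1 p.2) * A * B =
        deriv (deriv K) (ph a A B p.1 p.2) * B * A := by ring
    rw [this]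
    ring
  simp_rw [hsplit]
  rw [integral_sub (Dl_int c1) (Dl_int c2), tri1 c1, tri2 c2]
  -- FTC in slices
  have f1 : ∀ t : ℝ, ∫ s in (0 : ℝ)..(1 - t), g1 (s, t) =
      (H (ph a A B (1 - t) t)).re * (deriv K (ph a A B (1 - t) t) * B).im -
        (H (ph a A B 0 t)).re * (deriv K (ph a A B 0 t) * B).im := by
    intro t
    have := intervalIntegral.integral_eq_sub_of_hasDerivAt
      (f := fun s : ℝ => (H (ph a A B s t)).re * (deriv K (ph a A B s t) * B).im)
      (f' := fun s => g1 (s, t)) (a := 0) (b := 1 - t) (fun s _ => ?_)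
      (Continuous.intervalIntegrable (by fun_prop) _ _)
    · rw [this]
    · have h1 := re_deriv (hasDeriv_s hH a A B s t)
      have h2 := im_deriv ((hasDeriv_s hK' a A B s t).mul_const B)
      exact h1.mul h2
  have f2 : ∀ s : ℝ, ∫ t in (0 : ℝ)..(1 - s), g2 (s, t) =
      (H (ph a A B s (1 - s))).re * (deriv K (ph a A B s (1 - s)) * A).im -
        (H (ph a A B s 0)).re * (deriv K (ph a A B s 0) * A).im := by
    intro s
    have := intervalIntegral.integral_eq_sub_of_hasDerivAt
      (f := fun t : ℝ => (H (ph a A B s t)).re * (deriv K (ph a A B s t) * A).im)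
      (f' := fun t => g2 (s, t)) (a := 0) (b := 1 - s) (fun t _ => ?_)
      (Continuous.intervalIntegrable (by fun_prop) _ _)
    · rw [this]
    · have h1 := re_deriv (hasDeriv_t hH a A B s t)
      have h2 := im_deriv ((hasDeriv_t hK' a A B s t).mul_const A)
      exact h1.mul h2
  simp_rw [f1, f2]
  have hcont : ∀ (F : ℝ → ℂ) (C : ℂ), Continuous F →
      Continuous (fun t => (H (F t)).re * (deriv K (F t) * C).im) := by
    intro F C hF
    exact (Complex.continuous_re.comp (hHc.comp hF)).mul
      (Complex.continuous_im.comp ((hKc'.comp hF).mul continuous_const))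
  have p1 : Continuous (fun t : ℝ => ph a A B (1 - t) t) := by unfold ph; fun_prop
  have p2 : Continuous (fun t : ℝ => ph a A B 0 t) := by unfold ph; fun_prop
  have p3 : Continuous (fun t : ℝ => ph a A B t (1 - t)) := by unfold ph; fun_prop
  have p4 : Continuous (fun t : ℝ => ph a A B t 0) := by unfold ph; fun_prop
  rw [intervalIntegral.integral_sub ((hcont _ B p1).intervalIntegrable _ _)
      ((hcont _ B p2).intervalIntegrable _ _),
    intervalIntegral.integral_sub ((hcont _ A p3).intervalIntegrable _ _)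
      ((hcont _ A p4).intervalIntegrable _ _)]
  -- identify the sides
  have e3 : ∫ s in (0 : ℝ)..1, (H (ph a A B s (1 - s))).re * (deriv K (ph a A B s (1 - s)) * A).im =
      ∫ t in (0 : ℝ)..1, (H (ph a A B (1 - t) t)).re * (deriv K (ph a A B (1 - t) t) * A).im := by
    have := intervalIntegral.integral_comp_sub_left
      (fun s : ℝ => (H (ph a A B s (1 - s))).re * (deriv K (ph a A B s (1 - s)) * A).im)
      (a := 0) (b := 1) 1
    simp only [sub_zero, sub_self, sub_sub_cancel] at this
    exact this.symm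
  have s1 : side H (deriv K) a (a + A) =
      ∫ s in (0 : ℝ)..1, (H (ph a A B s 0)).re * (deriv K (ph a A B s 0) * A).im := by
    unfold side
    refine intervalIntegral.integral_congr fun t _ => ?_
    have e : a + t * (a + A - a) = ph a A B t 0 := by unfold ph; push_cast; ring
    have e' : a + A - a = A := by ring
    rw [e, e']
  have s2 : side H (deriv K) (a + A) (a + B) =
      ∫ t in (0 : ℝ)..1, (H (ph a A B (1 - t) t)).re *
        (deriv K (ph a A B (1 - t) t) * (B - A)).im := by
    unfold side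
    refine intervalIntegral.integral_congr fun t _ => ?_
    have e : a + A + t * (a + B - (a + A)) = ph a A B (1 - t) t := by unfold ph; push_cast; ring
    have e' : a + B - (a + A) = B - A := by ring
    rw [e, e']
  have s3 : side H (deriv K) (a + B) a =
      - ∫ t in (0 : ℝ)..1, (H (ph a A B 0 t)).re * (deriv K (ph a A B 0 t) * B).im := by
    have := intervalIntegral.integral_comp_sub_left
      (fun t : ℝ => (H (ph a A B 0 t)).re * (deriv K (ph a A B 0 t) * B).im)
      (a := 0) (b := 1) 1
    simp only [sub_zero, sub_self] at this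
    rw [← this, ← intervalIntegral.integral_neg]
    unfold side
    refine intervalIntegral.integral_congr fun t _ => ?_
    have e : a + B + t * (a - (a + B)) = ph a A B 0 (1 - t) := by unfold ph; push_cast; ring
    have e' : a - (a + B) = -B := by ring
    rw [e, e', mul_neg, Complex.neg_im]
    ring
  rw [s1, s2, s3, e3]
  have s4 : ∫ t in (0 : ℝ)..1, (H (ph a A B (1 - t) t)).re *
        (deriv K (ph a A B (1 - t) t) * (B - A)).im =
      (∫ t in (0 : ℝ)..1, (H (ph a A B (1 - t) t)).re * (deriv K (ph a A B (1 - t) t) * B).im) -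
      ∫ t in (0 : ℝ)..1, (H (ph a A B (1 - t) t)).re * (deriv K (ph a A B (1 - t) t) * A).im := by
    rw [← intervalIntegral.integral_sub ((hcont _ B p1).intervalIntegrable _ _)
      ((hcont _ A p1).intervalIntegrable _ _)]
    refine intervalIntegral.integral_congr fun t _ => ?_
    simp only [mul_sub, Complex.sub_im]
  rw [s4]
  ring

end Pool.Agent.Q96.SkGreen
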