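import Mathlib
import Pool.Agent.Q96.SkGreen

/-! The open triangle with vertices `a`, `a + A`, `a + B`: parametrisation, area integral,
frontier and boundary integral. -/

open MeasureTheory Set

namespace Pool.Agent.Q96.SkTri

open SkGreen

/-- linear part of the parametrisation -/
noncomputable def Lm (A B : ℂ) : ℂ →L[ℝ] ℂ :=
  Complex.reCLM.smulRight A + Complex.imCLM.smulRight B

lemma Lm_apply (A B w : ℂ) : Lm A B w = (w.re : ℂ) * A + (w.im : ℂ) * B := by
  simp [Lm]

lemma Lm_det (A B : ℂ) : (Lm A B).det = ((starRingEnd ℂ) A * B).im := by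
  rw [ContinuousLinearMap.det, ← LinearMap.det_toMatrix Complex.basisOneI, Matrix.det_fin_two]
  simp only [LinearMap.toMatrix_apply, Complex.coe_basisOneI, Complex.coe_basisOneI_repr]
  simp [Lm]
  ring

/-- closed and open standard simplices in `ℂ` -/
def Dc : Set ℂ := {w | 0 ≤ w.re ∧ 0 ≤ w.im ∧ w.re + w.im ≤ 1}
def Do : Set ℂ := {w | 0 < w.re ∧ 0 < w.im ∧ w.re + w.im < 1}

lemma Dc_convex : Convex ℝ Dc := by
  intro x hx y hy s t hs ht hst
  obtain ⟨x1, x2, x3⟩ := hx
  obtain ⟨y1, y2, y3⟩ := hy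
  refine ⟨?_, ?_, ?_⟩
  · simp only [Complex.add_re, Complex.real_smul, Complex.re_ofReal_mul]
    positivity
  · simp only [Complex.add_im, Complex.real_smul, Complex.im_ofReal_mul]
    positivity
  · simp only [Complex.add_im, Complex.add_re, Complex.real_smul, Complex.re_ofReal_mul,
      Complex.im_ofReal_mul]
    nlinarith

lemma hull_std : convexHull ℝ {(0 : ℂ), 1, Complex.I} = Dc := by
  apply Subset.antisymm
  · refine convexHull_min ?_ Dc_convex
    intro w hw
    simp only [mem_insert_iff, mem_singleton_iff] at hw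
    rcases hw with rfl | rfl | rfl <;> simp [Dc]
  · rintro w ⟨h1, h2, h3⟩
    have hz : (0 : ℂ) ∈ convexHull ℝ {(0 : ℂ), 1, Complex.I} := subset_convexHull _ _ (by simp)
    have h1' : (1 : ℂ) ∈ convexHull ℝ {(0 : ℂ), 1, Complex.I} := subset_convexHull _ _ (by simp)
    have hI : (Complex.I : ℂ) ∈ convexHull ℝ {(0 : ℂ), 1, Complex.I} :=
      subset_convexHull _ _ (by simp)
    have hc := convex_convexHull ℝ {(0 : ℂ), 1, Complex.I}
    have := hc.sum_mem (t := (Finset.univ : Finset (Fin 3)))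
      (w := ![1 - w.re - w.im, w.re, w.im]) (z := ![0, 1, Complex.I]) ?_ ?_ ?_
    · rw [Fin.sum_univ_three] at this
      simp only [Matrix.cons_val_zero, Matrix.cons_val_one, Matrix.cons_val,
        smul_zero, zero_add, Complex.real_smul, mul_one] at this
      rwa [Complex.re_add_im] at this
    · intro i _
      fin_cases i
      · simp; linarith
      · simpa using h1
      · simpa using h2
    · rw [Fin.sum_univ_three]
      simp only [Matrix.cons_val_zero, Matrix.cons_val_one, Matrix.cons_val]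
      ring
    · intro i _
      fin_cases i
      · simpa using hz
      · simpa using h1'
      · simpa using hI

lemma Do_open : IsOpen Do := by
  have : Do = {w : ℂ | 0 < w.re} ∩ ({w | 0 < w.im} ∩ {w | w.re + w.im < 1}) := by
    ext w; simp [Do]
  rw [this]
  exact (isOpen_lt continuous_const Complex.continuous_re).inter
    ((isOpen_lt continuous_const Complex.continuous_im).inter
      (isOpen_lt (Complex.continuous_re.add Complex.continuous_im) continuous_const))

lemma Dc_closed : IsClosed Dc := by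
  have : Dc = {w : ℂ | 0 ≤ w.re} ∩ ({w | 0 ≤ w.im} ∩ {w | w.re + w.im ≤ 1}) := by
    ext w; simp [Dc]
  rw [this]
  exact (isClosed_le continuous_const Complex.continuous_re).inter
    ((isClosed_le continuous_const Complex.continuous_im).inter
      (isClosed_le (Complex.continuous_re.add Complex.continuous_im) continuous_const))

lemma Dc_interior : interior Dc = Do := by
  apply Subset.antisymm
  · intro w hw
    have hnh : interior Dc ∈ nhds w := isOpen_interior.mem_nhds hw
    have key : ∀ d : ℂ, ∃ ε : ℝ, 0 < ε ∧ w + (ε : ℂ) * d ∈ Dc := by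
      intro d
      have hcont : ContinuousAt (fun ε : ℝ => w + (ε : ℂ) * d) 0 := by fun_prop
      have h0 : (fun ε : ℝ => w + (ε : ℂ) * d) 0 = w := by simp
      have hev : ∀ᶠ ε : ℝ in nhds 0, w + (ε : ℂ) * d ∈ interior Dc := by
        apply hcont.eventually
        rw [h0]
        exact hnh
      obtain ⟨δ, hδ, hball⟩ := Metric.eventually_nhds_iff.1 hev
      refine ⟨δ / 2, by positivity, interior_subset (hball ?_)⟩
      simp only [Real.dist_eq, sub_zero]
      rw [abs_of_pos (by positivity)]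
      linarith
    obtain ⟨ε, hε, h1, h2, -⟩ := key (-1 - Complex.I)
    obtain ⟨η, hη, -, -, h3⟩ := key (1 + Complex.I)
    simp only [Complex.add_re, Complex.add_im, Complex.re_ofReal_mul, Complex.im_ofReal_mul,
      Complex.sub_re, Complex.sub_im, Complex.neg_re, Complex.neg_im, Complex.one_re,
      Complex.one_im, Complex.I_re, Complex.I_im] at h1 h2 h3
    exact ⟨by linarith, by linarith, by linarith⟩
  · exact interior_maximal (fun w hw => ⟨hw.1.le, hw.2.1.le, hw.2.2.le⟩) Do_open

lemma Dc_sdiff : Dc \ Do = segment ℝ (0 : ℂ) 1 ∪ segment ℝ (1 : ℂ) Complex.I ∪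
    segment ℝ Complex.I (0 : ℂ) := by
  ext w
  simp only [mem_sdiff, mem_union, segment_eq_image, mem_image, mem_Icc]
  constructor
  · rintro ⟨⟨h1, h2, h3⟩, h4⟩
    by_cases c2 : w.im = 0
    · left; left
      refine ⟨w.re, ⟨h1, by linarith⟩, ?_⟩
      apply Complex.ext <;> simp [c2]
    · by_cases c1 : w.re = 0
      · right
        refine ⟨1 - w.im, ⟨by linarith, by linarith⟩, ?_⟩
        apply Complex.ext <;> simp [c1]
      · left; right
        have c3 : w.re + w.im = 1 := by
          by_contra hne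
          exact h4 ⟨lt_of_le_of_ne h1 (Ne.symm c1), lt_of_le_of_ne h2 (Ne.symm c2),
            lt_of_le_of_ne h3 hne⟩
        refine ⟨w.im, ⟨h2, by linarith⟩, ?_⟩
        apply Complex.ext
        · simp; linarith
        · simp
  · rintro ((⟨t, ⟨ht0, ht1⟩, rfl⟩ | ⟨t, ⟨ht0, ht1⟩, rfl⟩) | ⟨t, ⟨ht0, ht1⟩, rfl⟩)
    · refine ⟨⟨by simp [ht0], by simp, by simp [ht1]⟩, ?_⟩
      rintro ⟨-, h, -⟩
      simp at h
    · refine ⟨⟨by simp [ht1], by simp [ht0], by simp⟩, ?_⟩
      rintro ⟨-, -, h⟩
      simp at h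
    · refine ⟨⟨by simp, by simp [ht1], by simp [ht0]⟩, ?_⟩
      rintro ⟨h, -, -⟩
      simp at h

section
variable {a A B : ℂ} (hJ : ((starRingEnd ℂ) A * B).im ≠ 0)

/-- the parametrisation as a homeomorphism -/
noncomputable def fh (a : ℂ) {A B : ℂ} (hJ : ((starRingEnd ℂ) A * B).im ≠ 0) : ℂ ≃ₜ ℂ :=
  (ContinuousLinearMap.toContinuousLinearEquivOfDetNeZero (Lm A B)
    (by rw [Lm_det]; exact hJ)).toHomeomorph.trans (Homeomorph.addLeft a)

lemma fh_apply (w : ℂ) : fh a hJ w = ph a A B w.re w.im := by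
  have : fh a hJ w = a + Lm A B w := rfl
  rw [this, Lm_apply, ph, add_assoc]

/-- the affine map -/
noncomputable def fa (a A B : ℂ) : ℂ →ᵃ[ℝ] ℂ :=
  (Lm A B).toLinearMap.toAffineMap + AffineMap.const ℝ ℂ a

lemma fa_apply (a A B w : ℂ) : fa a A B w = a + Lm A B w := by
  simp [fa, add_comm]

lemma fa_eq : (fa a A B : ℂ → ℂ) = fh a hJ := by
  funext w
  rw [fa_apply]
  rfl

/-- the open triangle -/
def tri (a b c : ℂ) : Set ℂ := interior (convexHull ℝ {a, b, c})

lemma hull_eq : convexHull ℝ {a, a + A, a + B} = fh a hJ '' Dc := by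
  rw [← hull_std, ← fa_eq hJ, AffineMap.image_convexHull]
  congr 1
  rw [image_insert_eq, image_pair, fa_apply, fa_apply, fa_apply, Lm_apply, Lm_apply, Lm_apply]
  simp

lemma tri_eq : tri a (a + A) (a + B) = fh a hJ '' Do := by
  rw [tri, hull_eq hJ, ← (fh a hJ).image_interior, Dc_interior]

include hJ in
lemma tri_eq' : tri a (a + A) (a + B) = (fun w : ℂ => ph a A B w.re w.im) '' Do := by
  rw [tri_eq hJ]
  congr 1
  funext w
  exact fh_apply hJ w

lemma Do_convex : Convex ℝ Do := by
  rw [← Dc_interior]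
  exact Dc_convex.interior

lemma closure_Do : closure Do = Dc := by
  rw [← Dc_interior, Dc_convex.closure_interior_eq_closure_of_nonempty_interior,
    Dc_closed.closure_eq]
  rw [Dc_interior]
  exact ⟨1 / 4 + 1 / 4 * Complex.I, by norm_num [Do]⟩

include hJ in
lemma frontier_tri : frontier (tri a (a + A) (a + B)) =
    segment ℝ a (a + A) ∪ segment ℝ (a + A) (a + B) ∪ segment ℝ (a + B) a := by
  rw [tri_eq hJ, ← (fh a hJ).image_frontier, Do_open.frontier_eq, closure_Do, Dc_sdiff,
    image_union, image_union, ← fa_eq hJ, image_segment, image_segment, image_segment,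
    fa_apply, fa_apply, fa_apply, Lm_apply, Lm_apply, Lm_apply]
  simp

include hJ in
/-- the area integral over the triangle -/
lemma area_int {g : ℂ → ℝ} :
    ∫ z in tri a (a + A) (a + B), g z =
      ∫ p in Dl, |((starRingEnd ℂ) A * B).im| * g (ph a A B p.1 p.2) := by
  rw [tri_eq hJ]
  have hder : ∀ x ∈ Do, HasFDerivWithinAt (fh a hJ : ℂ → ℂ) (Lm A B) Do x := by
    intro x _
    have h1 : (fh a hJ : ℂ → ℂ) = fun w => a + Lm A B w := rfl
    rw [h1]
    exact ((Lm A B).hasFDerivAt.const_add a).hasFDerivWithinAt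
  rw [integral_image_eq_integral_abs_det_fderiv_smul volume Do_open.measurableSet hder
    (fh a hJ).injective.injOn]
  simp only [Lm_det, smul_eq_mul]
  have hm := Complex.volume_preserving_equiv_real_prod
  rw [← hm.setIntegral_preimage_emb Complex.measurableEquivRealProd.measurableEmbedding]
  have hpre : (Complex.measurableEquivRealProd : ℂ → ℝ × ℝ) ⁻¹' Dl = Do := by
    ext w
    simp [Dl, Do, Complex.measurableEquivRealProd]
  rw [hpre]
  refine setIntegral_congr_fun Do_open.measurableSet fun w _ => ?_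
  simp only [fh_apply]
  rfl

lemma seg_image {p q : ℂ} (hpq : p ≠ q) :
    segment ℝ p q = (fun r : ℝ => p + (r : ℂ) * ((q - p) / ‖q - p‖)) '' Icc 0 ‖q - p‖ := by
  have hd : 0 < ‖q - p‖ := norm_pos_iff.2 (sub_ne_zero.2 (Ne.symm hpq))
  have hd' : ((‖q - p‖ : ℝ) : ℂ) ≠ 0 := by exact_mod_cast hd.ne'
  rw [segment_eq_image_lineMap]
  ext z
  simp only [mem_image, mem_Icc, AffineMap.lineMap_apply, vsub_eq_sub, vadd_eq_add,
    Complex.real_smul]
  constructor
  · rintro ⟨t, ⟨h0, h1⟩, rfl⟩
    refine ⟨t * ‖q - p‖, ⟨by positivity, by nlinarith⟩, ?_⟩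
    push_cast
    field_simp
    ring
  · rintro ⟨r, ⟨h0, h1⟩, rfl⟩
    refine ⟨r / ‖q - p‖, ⟨by positivity, by rwa [div_le_one hd]⟩, ?_⟩
    push_cast
    field_simp
    ring

lemma seg_int {p q : ℂ} (hpq : p ≠ q) {g : ℂ → ℝ} :
    ∫ z in segment ℝ p q, g z ∂μH[1] = ‖q - p‖ * ∫ t in (0 : ℝ)..1, g (p + t * (q - p)) := by
  have hd : 0 < ‖q - p‖ := norm_pos_iff.2 (sub_ne_zero.2 (Ne.symm hpq))
  have hd' : ((‖q - p‖ : ℝ) : ℂ) ≠ 0 := by exact_mod_cast hd.ne'
  set e : ℂ := (q - p) / ‖q - p‖ with he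
  have hne : ‖e‖ = 1 := by
    rw [he, norm_div, Complex.norm_real, norm_norm, div_self hd.ne']
  set io : ℝ → ℂ := fun r => p + (r : ℂ) * e with hio
  have hiso : Isometry io := by
    refine Isometry.of_dist_eq fun x y => ?_
    rw [hio, dist_eq_norm, dist_eq_norm]
    have : p + (x : ℂ) * e - (p + (y : ℂ) * e) = ((x - y : ℝ) : ℂ) * e := by push_cast; ring
    rw [this, norm_mul, hne, mul_one, Complex.norm_real]
  have hmap := hiso.map_hausdorffMeasure (d := 1) (Or.inl (by norm_num))
  rw [hausdorffMeasure_real] at hmap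
  rw [seg_image hpq]
  have h1 : ∫ z in io '' Icc 0 ‖q - p‖, g z ∂μH[1] =
      ∫ z in io '' Icc 0 ‖q - p‖, g z ∂(Measure.map io volume) := by
    rw [hmap, Measure.restrict_restrict_of_subset (image_subset_range _ _)]
  have h2 : MeasurableEmbedding io := hiso.isClosedEmbedding.measurableEmbedding
  rw [h1, h2.setIntegral_map, preimage_image_eq _ hiso.injective, integral_Icc_eq_integral_Ioc,
    ← intervalIntegral.integral_of_le hd.le]
  have h3 := intervalIntegral.integral_comp_mul_right (a := 0) (b := 1)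
    (fun r : ℝ => g (io r)) hd.ne'
  simp only [zero_mul, one_mul, smul_eq_mul] at h3
  have h4 : ∀ t : ℝ, io (t * ‖q - p‖) = p + t * (q - p) := by
    intro t
    rw [hio, he]
    push_cast
    field_simp
  simp only [h4] at h3
  rw [h3, ← mul_assoc, mul_inv_cancel₀ hd.ne', one_mul]

include hJ in
lemma vert_ne : a ≠ a + A ∧ a + A ≠ a + B ∧ a + B ≠ a := by
  refine ⟨?_, ?_, ?_⟩
  · intro h
    have : A = 0 := by linear_combination -h
    simp [this] at hJ
  · intro h
    have : A = B := by linear_combination h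
    rw [this, ← Complex.normSq_eq_conj_mul_self] at hJ
    simp at hJ
  · intro h
    have : B = 0 := by linear_combination h
    simp [this] at hJ

lemma mem_seg_std {x y w : ℂ} (h : w ∈ segment ℝ x y) :
    ∃ t : ℝ, 0 ≤ t ∧ t ≤ 1 ∧ w.re = (1 - t) * x.re + t * y.re ∧
      w.im = (1 - t) * x.im + t * y.im := by
  rw [segment_eq_image] at h
  obtain ⟨t, ⟨h0, h1⟩, rfl⟩ := h
  exact ⟨t, h0, h1, by simp, by simp⟩

include hJ in
lemma bdry_int {g : ℂ → ℝ} (hg : Continuous g) :
    ∫ z in frontier (tri a (a + A) (a + B)), g z ∂μH[1] =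
      ‖a + A - a‖ * (∫ t in (0 : ℝ)..1, g (a + t * (a + A - a))) +
      ‖a + B - (a + A)‖ * (∫ t in (0 : ℝ)..1, g (a + A + t * (a + B - (a + A)))) +
      ‖a - (a + B)‖ * (∫ t in (0 : ℝ)..1, g (a + B + t * (a - (a + B)))) := by
  obtain ⟨v1, v2, v3⟩ := vert_ne (a := a) hJ
  have hfin : ∀ p q : ℂ, IntegrableOn g (segment ℝ p q) μH[1] := by
    intro p q
    have hcomp : IsCompact (segment ℝ p q) := by
      rw [segment_eq_image_lineMap]
      exact isCompact_Icc.image (by fun_prop)
    obtain ⟨M, hM⟩ := hcomp.exists_bound_of_continuousOn hg.continuousOn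
    refine Measure.integrableOn_of_bounded (M := M) ?_ hg.aestronglyMeasurable ?_
    · rw [hausdorffMeasure_segment]
      exact edist_ne_top _ _
    · exact (ae_restrict_iff' hcomp.measurableSet).2 (Filter.Eventually.of_forall hM)
  have hms : ∀ p q : ℂ, MeasurableSet (segment ℝ p q) := by
    intro p q
    have hcomp : IsCompact (segment ℝ p q) := by
      rw [segment_eq_image_lineMap]
      exact isCompact_Icc.image (by fun_prop)
    exact hcomp.measurableSet
  have hnsc : NullSingletonClass (μH[1] : Measure ℂ) :=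
    Measure.nullSingletonClass_hausdorff ℂ (by norm_num)
  have e0 : fh a hJ 0 = a := by rw [fh_apply]; simp [ph]
  have e1 : fh a hJ 1 = a + A := by rw [fh_apply]; simp [ph]
  have eI : fh a hJ Complex.I = a + B := by rw [fh_apply]; simp [ph]
  have hseg : ∀ x y : ℂ, segment ℝ (fh a hJ x) (fh a hJ y) = fh a hJ '' segment ℝ x y := by
    intro x y
    rw [← fa_eq hJ, image_segment]
  have hs1 : segment ℝ a (a + A) = fh a hJ '' segment ℝ 0 1 := by rw [← hseg, e0, e1]
  have hs2 : segment ℝ (a + A) (a + B) = fh a hJ '' segment ℝ 1 Complex.I := by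
    rw [← hseg, e1, eI]
  have hs3 : segment ℝ (a + B) a = fh a hJ '' segment ℝ Complex.I 0 := by rw [← hseg, eI, e0]
  have i12 : segment ℝ a (a + A) ∩ segment ℝ (a + A) (a + B) ⊆ {a + A} := by
    rw [hs1, hs2, ← image_inter (fh a hJ).injective]
    rintro _ ⟨w, ⟨hw1, hw2⟩, rfl⟩
    obtain ⟨t, ht0, ht1, r1, r2⟩ := mem_seg_std hw1
    obtain ⟨s, hs0, hs1, r3, r4⟩ := mem_seg_std hw2
    simp at r1 r2 r3 r4
    have : w = 1 := Complex.ext (by simp; linarith) (by simp; linarith)
    rw [this, e1]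
    simp
  have i3 : (segment ℝ a (a + A) ∪ segment ℝ (a + A) (a + B)) ∩ segment ℝ (a + B) a ⊆
      {a, a + B} := by
    rw [hs1, hs2, hs3, ← image_union, ← image_inter (fh a hJ).injective]
    rintro _ ⟨w, ⟨hw1, hw2⟩, rfl⟩
    obtain ⟨s, hs0, hs1, r3, r4⟩ := mem_seg_std hw2
    simp at r3 r4
    rcases hw1 with hw1 | hw1
    · obtain ⟨t, ht0, ht1, r1, r2⟩ := mem_seg_std hw1
      simp at r1 r2
      have : w = 0 := Complex.ext (by simp; linarith) (by simp; linarith)
      rw [this, e0]
      simp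
    · obtain ⟨t, ht0, ht1, r1, r2⟩ := mem_seg_std hw1
      simp at r1 r2
      have : w = Complex.I := Complex.ext (by simp; linarith) (by simp; linarith)
      rw [this, eI]
      simp
  have z12 : AEDisjoint (μH[1] : Measure ℂ) (segment ℝ a (a + A))
      (segment ℝ (a + A) (a + B)) := by
    rw [AEDisjoint]
    exact measure_mono_null i12 (measure_singleton _)
  have z3 : AEDisjoint (μH[1] : Measure ℂ)
      (segment ℝ a (a + A) ∪ segment ℝ (a + A) (a + B)) (segment ℝ (a + B) a) := by
    rw [AEDisjoint]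
    refine measure_mono_null i3 ?_
    exact (Set.toFinite {a, a + B}).measure_zero _
  rw [frontier_tri hJ, setIntegral_union₀ z3 (hms _ _).nullMeasurableSet
      ((hfin _ _).union (hfin _ _)) (hfin _ _),
    setIntegral_union₀ z12 (hms _ _).nullMeasurableSet (hfin _ _) (hfin _ _),
    seg_int v1, seg_int v2, seg_int v3]

end

end Pool.Agent.Q96.SkTri
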