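import Mathlib
import Pool.Agent.Q96.SkTri

/-! Upper bounds for Steklov eigenvalues (min-max) of a triangle from a family of exact
eigenfunctions which are real parts of entire functions. -/

open MeasureTheory Set

namespace Pool.Agent.Q96.SkUp

open SkGreen SkTri

/-- the min-max value -/
noncomputable def stk (Ω : Set ℂ) (k : ℕ) : ℝ :=
  sInf {s : ℝ | ∃ V : Submodule ℝ (ℂ → ℝ), (∀ u ∈ V, ContDiff ℝ 1 u) ∧
    Module.finrank ℝ V = k + 1 ∧ (∀ u ∈ V, u ≠ 0 → 0 < ∫ z in frontier Ω, u z ^ 2 ∂μH[1]) ∧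
    s = sSup {t : ℝ | ∃ u ∈ V, u ≠ 0 ∧
      t = (∫ z in Ω, ‖fderiv ℝ u z‖ ^ 2) / ∫ z in frontier Ω, u z ^ 2 ∂μH[1]}}

/-- integral over one side -/
noncomputable def sd (p q : ℂ) (u v : ℂ → ℝ) : ℝ :=
  ‖q - p‖ * ∫ t in (0 : ℝ)..1, u (p + t * (q - p)) * v (p + t * (q - p))

/-- the boundary form -/
noncomputable def bb (a A B : ℂ) (u v : ℂ → ℝ) : ℝ :=
  sd a (a + A) u v + sd (a + A) (a + B) u v + sd (a + B) a u v

lemma sd_sum {ι : Type} (s : Finset ι) (p q : ℂ) (c : ι → ℝ) (u : ι → ℂ → ℝ) (v : ℂ → ℝ)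
    (hu : ∀ i, Continuous (u i)) (hv : Continuous v) :
    sd p q (fun z => ∑ i ∈ s, c i * u i z) v = ∑ i ∈ s, c i * sd p q (u i) v := by
  unfold sd
  simp_rw [Finset.sum_mul]
  rw [intervalIntegral.integral_finsetSum]
  · rw [Finset.mul_sum]
    refine Finset.sum_congr rfl fun i _ => ?_
    have : ∀ t : ℝ, c i * u i (p + t * (q - p)) * v (p + t * (q - p)) =
        c i * (u i (p + t * (q - p)) * v (p + t * (q - p))) := fun t => by ring
    simp_rw [this]
    rw [intervalIntegral.integral_const_mul]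
    ring
  · intro i _
    have := hu i
    exact Continuous.intervalIntegrable (by fun_prop) _ _

lemma sd_comm (p q : ℂ) (u v : ℂ → ℝ) : sd p q u v = sd p q v u := by
  unfold sd
  simp_rw [mul_comm (u _) (v _)]

lemma bb_comm (a A B : ℂ) (u v : ℂ → ℝ) : bb a A B u v = bb a A B v u := by
  unfold bb
  rw [sd_comm, sd_comm _ _ u v, sd_comm _ _ u v]

lemma bb_sum {ι : Type} (s : Finset ι) (a A B : ℂ) (c : ι → ℝ) (u : ι → ℂ → ℝ) (v : ℂ → ℝ)
    (hu : ∀ i, Continuous (u i)) (hv : Continuous v) :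
    bb a A B (fun z => ∑ i ∈ s, c i * u i z) v = ∑ i ∈ s, c i * bb a A B (u i) v := by
  unfold bb
  rw [sd_sum s _ _ c u v hu hv, sd_sum s _ _ c u v hu hv, sd_sum s _ _ c u v hu hv,
    ← Finset.sum_add_distrib, ← Finset.sum_add_distrib]
  refine Finset.sum_congr rfl fun i _ => by ring

lemma bb_sum2 {ι : Type} (s : Finset ι) (a A B : ℂ) (c d : ι → ℝ) (u : ι → ℂ → ℝ)
    (hu : ∀ i, Continuous (u i)) :
    bb a A B (fun z => ∑ i ∈ s, c i * u i z) (fun z => ∑ i ∈ s, d i * u i z) =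
      ∑ i ∈ s, ∑ j ∈ s, c i * d j * bb a A B (u i) (u j) := by
  have hc : Continuous (fun z => ∑ i ∈ s, d i * u i z) := by
    refine continuous_finsetSum _ fun i _ => ?_
    exact continuous_const.mul (hu i)
  rw [bb_sum s a A B c u _ hu hc]
  refine Finset.sum_congr rfl fun i _ => ?_
  rw [bb_comm, bb_sum s a A B d u _ hu (hu i), Finset.mul_sum]
  refine Finset.sum_congr rfl fun j _ => ?_
  rw [bb_comm a A B (u j)]
  ring

lemma sd_self_nonneg (p q : ℂ) (u : ℂ → ℝ) : 0 ≤ sd p q u u := by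
  unfold sd
  refine mul_nonneg (norm_nonneg _) ?_
  refine intervalIntegral.integral_nonneg (by norm_num) fun t _ => mul_self_nonneg _

lemma bb_self_nonneg (a A B : ℂ) (u : ℂ → ℝ) : 0 ≤ bb a A B u u := by
  unfold bb
  have := sd_self_nonneg a (a + A) u
  have := sd_self_nonneg (a + A) (a + B) u
  have := sd_self_nonneg (a + B) a u
  linarith

lemma sd_self_zero {p q : ℂ} (hpq : p ≠ q) {u : ℂ → ℝ} (hu : Continuous u)
    (h : sd p q u u = 0) : ∀ t ∈ Icc (0 : ℝ) 1, u (p + t * (q - p)) = 0 := by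
  by_contra hne
  push Not at hne
  obtain ⟨t, ht, hne⟩ := hne
  have hd : 0 < ‖q - p‖ := norm_pos_iff.2 (sub_ne_zero.2 (Ne.symm hpq))
  have : 0 < ∫ t in (0 : ℝ)..1, u (p + t * (q - p)) * u (p + t * (q - p)) := by
    refine intervalIntegral.integral_pos (by norm_num) ?_ (fun x _ => mul_self_nonneg _)
      ⟨t, ht, ?_⟩
    · exact Continuous.continuousOn (by fun_prop)
    · exact mul_self_pos.2 hne
  unfold sd at h
  have := mul_pos hd this
  linarith

lemma bb_self_zero {a A B : ℂ} (hJ : ((starRingEnd ℂ) A * B).im ≠ 0) {u : ℂ → ℝ}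
    (hu : Continuous u) (h : bb a A B u u = 0) :
    (∀ t ∈ Icc (0 : ℝ) 1, u (a + t * (a + A - a)) = 0) ∧
    (∀ t ∈ Icc (0 : ℝ) 1, u (a + A + t * (a + B - (a + A))) = 0) ∧
    (∀ t ∈ Icc (0 : ℝ) 1, u (a + B + t * (a - (a + B))) = 0) := by
  obtain ⟨v1, v2, v3⟩ := vert_ne (a := a) hJ
  have h1 := sd_self_nonneg a (a + A) u
  have h2 := sd_self_nonneg (a + A) (a + B) u
  have h3 := sd_self_nonneg (a + B) a u
  unfold bb at h
  exact ⟨sd_self_zero v1 hu (by linarith), sd_self_zero v2 hu (by linarith),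
    sd_self_zero v3 hu (by linarith)⟩

lemma sd_zero_left {p q : ℂ} {u v : ℂ → ℝ} (h : ∀ t ∈ Icc (0 : ℝ) 1, u (p + t * (q - p)) = 0) :
    sd p q u v = 0 := by
  unfold sd
  have : ∫ t in (0 : ℝ)..1, u (p + t * (q - p)) * v (p + t * (q - p)) =
      ∫ t in (0 : ℝ)..1, (0 : ℝ) := by
    refine intervalIntegral.integral_congr fun t ht => ?_
    rw [uIcc_of_le (by norm_num)] at ht
    rw [h t ht, zero_mul]
  rw [this]
  simp

/-- an eigenfunction of the triangle: the real part of an entire function -/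
structure IsEig (a A B : ℂ) (H : ℂ → ℂ) (l : ℝ) : Prop where
  diff : Differentiable ℂ H
  s1 : ∀ t ∈ Icc (0 : ℝ) 1, (deriv H (a + t * (a + A - a)) * (a + A - a)).im =
    l * ‖a + A - a‖ * (H (a + t * (a + A - a))).re
  s2 : ∀ t ∈ Icc (0 : ℝ) 1, (deriv H (a + A + t * (a + B - (a + A))) * (a + B - (a + A))).im =
    l * ‖a + B - (a + A)‖ * (H (a + A + t * (a + B - (a + A)))).re
  s3 : ∀ t ∈ Icc (0 : ℝ) 1, (deriv H (a + B + t * (a - (a + B))) * (a - (a + B))).im =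
    l * ‖a - (a + B)‖ * (H (a + B + t * (a - (a + B)))).re

/-- real part -/
def rp (H : ℂ → ℂ) : ℂ → ℝ := fun z => (H z).re

lemma rp_cont {H : ℂ → ℂ} (h : Differentiable ℂ H) : Continuous (rp H) :=
  Complex.continuous_re.comp h.continuous

lemma side_eig {H K : ℂ → ℂ} {p q : ℂ} {v : ℂ → ℝ}
    (h : ∀ t ∈ Icc (0 : ℝ) 1, (deriv K (p + t * (q - p)) * (q - p)).im =
      ‖q - p‖ * v (p + t * (q - p))) :
    side H (deriv K) p q = sd p q (rp H) v := by
  unfold side sd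
  rw [← intervalIntegral.integral_const_mul]
  refine intervalIntegral.integral_congr fun t ht => ?_
  rw [uIcc_of_le (by norm_num)] at ht
  rw [h t ht, rp]
  ring

/-- energy form -/
noncomputable def ee (Ω : Set ℂ) (H K : ℂ → ℂ) : ℝ :=
  ∫ z in Ω, (deriv K z * (starRingEnd ℂ) (deriv H z)).re

lemma ee_comm (Ω : Set ℂ) (H K : ℂ → ℂ) : ee Ω H K = ee Ω K H := by
  unfold ee
  refine integral_congr_ae (Filter.Eventually.of_forall fun z => ?_)
  simp only [Complex.mul_re, Complex.conj_re, Complex.conj_im]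
  ring

section
variable {a A B : ℂ} (hJ : 0 < ((starRingEnd ℂ) A * B).im)

include hJ in
lemma green {H K : ℂ → ℂ} (hH : Differentiable ℂ H) (hK : Differentiable ℂ K) {v : ℂ → ℝ}
    (s1 : ∀ t ∈ Icc (0 : ℝ) 1, (deriv K (a + t * (a + A - a)) * (a + A - a)).im =
      ‖a + A - a‖ * v (a + t * (a + A - a)))
    (s2 : ∀ t ∈ Icc (0 : ℝ) 1, (deriv K (a + A + t * (a + B - (a + A))) *
      (a + B - (a + A))).im = ‖a + B - (a + A)‖ * v (a + A + t * (a + B - (a + A))))
    (s3 : ∀ t ∈ Icc (0 : ℝ) 1, (deriv K (a + B + t * (a - (a + B))) * (a - (a + B))).im =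
      ‖a - (a + B)‖ * v (a + B + t * (a - (a + B)))) :
    ee (tri a (a + A) (a + B)) H K = bb a A B (rp H) v := by
  unfold ee
  rw [area_int hJ.ne', abs_of_pos hJ, green_simplex hH hK, bb, side_eig s1,
    side_eig s2, side_eig s3]

lemma fderiv_rp {K : ℂ → ℂ} (hK : Differentiable ℂ K) (z : ℂ) :
    ‖fderiv ℝ (rp K) z‖ ^ 2 = (deriv K z * (starRingEnd ℂ) (deriv K z)).re := by
  have h1 : HasFDerivAt K ((ContinuousLinearMap.toSpanSingleton ℂ (deriv K z)).restrictScalars ℝ)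
      z := ((hK z).hasDerivAt.hasFDerivAt).restrictScalars ℝ
  have h2 := (Complex.reCLM.hasFDerivAt (x := K z)).comp z h1
  have h3 : fderiv ℝ (rp K) z = Complex.reCLM.comp
      ((ContinuousLinearMap.toSpanSingleton ℂ (deriv K z)).restrictScalars ℝ) := h2.fderiv
  have h4 : (deriv K z * (starRingEnd ℂ) (deriv K z)).re = ‖deriv K z‖ ^ 2 := by
    rw [Complex.mul_conj, Complex.normSq_eq_norm_sq, Complex.ofReal_re]
  rw [h4, h3]
  congr 1
  apply le_antisymm
  · refine ContinuousLinearMap.opNorm_le_bound _ (norm_nonneg _) fun w => ?_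
    simp only [ContinuousLinearMap.coe_comp, Function.comp_apply,
      ContinuousLinearMap.coe_restrictScalars', ContinuousLinearMap.toSpanSingleton_apply,
      Complex.reCLM_apply, smul_eq_mul]
    calc ‖(w * deriv K z).re‖ ≤ ‖w * deriv K z‖ := Complex.abs_re_le_norm _
      _ = ‖deriv K z‖ * ‖w‖ := by rw [norm_mul, mul_comm]
  · by_cases h0 : deriv K z = 0
    · rw [h0, norm_zero]
      positivity
    · have hn : 0 < ‖deriv K z‖ := norm_pos_iff.2 h0
      have := (Complex.reCLM.comp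
        ((ContinuousLinearMap.toSpanSingleton ℂ (deriv K z)).restrictScalars ℝ)).le_opNorm
        ((starRingEnd ℂ) (deriv K z))
      simp only [ContinuousLinearMap.coe_comp, Function.comp_apply,
        ContinuousLinearMap.coe_restrictScalars', ContinuousLinearMap.toSpanSingleton_apply,
        Complex.reCLM_apply, smul_eq_mul, RCLike.norm_conj] at this
      rw [mul_comm ((starRingEnd ℂ) (deriv K z)), Complex.mul_conj, Complex.ofReal_re,
        Complex.normSq_eq_norm_sq, Real.norm_eq_abs, abs_of_nonneg (by positivity), sq] at this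
      exact le_of_mul_le_mul_right this hn

include hJ in
lemma green_eig {H K : ℂ → ℂ} {l : ℝ} (hH : Differentiable ℂ H) (hK : IsEig a A B K l) :
    ee (tri a (a + A) (a + B)) H K = l * bb a A B (rp H) (rp K) := by
  have h := green hJ (v := fun z => l * rp K z) hH hK.diff
    (fun t ht => by rw [hK.s1 t ht, rp]; ring) (fun t ht => by rw [hK.s2 t ht, rp]; ring)
    (fun t ht => by rw [hK.s3 t ht, rp]; ring)
  rw [h, bb_comm]
  have := bb_sum (ι := Unit) Finset.univ a A B (fun _ => l) (fun _ => rp K) (rp H)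
    (fun _ => rp_cont hK.diff) (rp_cont hH)
  simp only [Finset.univ_unique, Finset.sum_singleton] at this
  rw [this, bb_comm]

include hJ in
lemma orth {H K : ℂ → ℂ} {l m : ℝ} (hH : IsEig a A B H l) (hK : IsEig a A B K m)
    (hlm : l ≠ m) : bb a A B (rp H) (rp K) = 0 := by
  have h1 := green_eig hJ hH.diff hK
  have h2 := green_eig hJ hK.diff hH
  rw [ee_comm, h1, bb_comm a A B (rp K)] at h2
  have : (m - l) * bb a A B (rp H) (rp K) = 0 := by linarith
  rcases mul_eq_zero.1 this with h | h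
  · exact absurd (by linarith) hlm
  · exact h

/-- the combination -/
def cmb (H : ℕ → ℂ → ℂ) (s : Finset ℕ) (c : ℕ → ℝ) : ℂ → ℝ :=
  fun z => ∑ i ∈ s, c i * rp (H i) z

lemma cmb_cont {H : ℕ → ℂ → ℂ} (hE : ∀ i, Differentiable ℂ (H i)) (s : Finset ℕ) (c : ℕ → ℝ) :
    Continuous (cmb H s c) :=
  continuous_finsetSum _ fun i _ => continuous_const.mul (rp_cont (hE i))

/-- the entire function of a combination -/
def cmbK (H : ℕ → ℂ → ℂ) (s : Finset ℕ) (c : ℕ → ℝ) : ℂ → ℂ :=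
  fun z => ∑ i ∈ s, (c i : ℂ) * H i z

lemma rp_cmbK (H : ℕ → ℂ → ℂ) (s : Finset ℕ) (c : ℕ → ℝ) : rp (cmbK H s c) = cmb H s c := by
  funext z
  simp [rp, cmbK, cmb, Complex.re_sum]

lemma cmbK_diff {H : ℕ → ℂ → ℂ} (hE : ∀ i, Differentiable ℂ (H i)) (s : Finset ℕ) (c : ℕ → ℝ) :
    Differentiable ℂ (cmbK H s c) := by
  unfold cmbK
  refine Differentiable.fun_sum fun i _ => (differentiable_const _).mul (hE i)

lemma cmbK_deriv {H : ℕ → ℂ → ℂ} (hE : ∀ i, Differentiable ℂ (H i)) (s : Finset ℕ) (c : ℕ → ℝ)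
    (z : ℂ) : deriv (cmbK H s c) z = ∑ i ∈ s, (c i : ℂ) * deriv (H i) z := by
  unfold cmbK
  rw [deriv_fun_sum (A := fun i z => (c i : ℂ) * H i z) fun i _ =>
    (differentiable_const (c i : ℂ) z).mul (hE i z)]
  refine Finset.sum_congr rfl fun i _ => ?_
  rw [deriv_const_mul _ ((hE i) z)]

include hJ in
lemma energy {H : ℕ → ℂ → ℂ} {l : ℕ → ℝ} (hE : ∀ i, IsEig a A B (H i) (l i)) (s : Finset ℕ)
    (c : ℕ → ℝ) :
    ∫ z in tri a (a + A) (a + B), ‖fderiv ℝ (cmb H s c) z‖ ^ 2 =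
      bb a A B (cmb H s c) (cmb H s (fun i => l i * c i)) := by
  have hd := fun i => (hE i).diff
  have h1 : ∀ z, ‖fderiv ℝ (cmb H s c) z‖ ^ 2 =
      (deriv (cmbK H s c) z * (starRingEnd ℂ) (deriv (cmbK H s c) z)).re := by
    intro z
    rw [← rp_cmbK, fderiv_rp (cmbK_diff hd s c)]
  simp_rw [h1]
  have h2 := green (a := a) hJ (H := cmbK H s c) (K := cmbK H s c) (v := cmb H s (fun i => l i * c i))
    (cmbK_diff hd s c) (cmbK_diff hd s c) ?_ ?_ ?_
  · rw [rp_cmbK] at h2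
    exact h2
  · intro t ht
    rw [cmbK_deriv hd, Finset.sum_mul, Complex.im_sum, cmb, Finset.mul_sum]
    refine Finset.sum_congr rfl fun i _ => ?_
    rw [mul_assoc, Complex.im_ofReal_mul, (hE i).s1 t ht, rp]
    ring
  · intro t ht
    rw [cmbK_deriv hd, Finset.sum_mul, Complex.im_sum, cmb, Finset.mul_sum]
    refine Finset.sum_congr rfl fun i _ => ?_
    rw [mul_assoc, Complex.im_ofReal_mul, (hE i).s2 t ht, rp]
    ring
  · intro t ht
    rw [cmbK_deriv hd, Finset.sum_mul, Complex.im_sum, cmb, Finset.mul_sum]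
    refine Finset.sum_congr rfl fun i _ => ?_
    rw [mul_assoc, Complex.im_ofReal_mul, (hE i).s3 t ht, rp]
    ring

lemma bb_cmb {H : ℕ → ℂ → ℂ} (hE : ∀ i, Differentiable ℂ (H i)) (s r : Finset ℕ)
    (c d : ℕ → ℝ) :
    bb a A B (cmb H s c) (cmb H r d) =
      ∑ i ∈ s, ∑ j ∈ r, c i * d j * bb a A B (rp (H i)) (rp (H j)) := by
  have e1 := bb_sum s a A B c (fun i => rp (H i)) _ (fun i => rp_cont (hE i))
    (cmb_cont hE r d)
  rw [show cmb H s c = fun z => ∑ i ∈ s, c i * rp (H i) z from rfl, e1]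
  refine Finset.sum_congr rfl fun i _ => ?_
  rw [bb_comm, show cmb H r d = fun z => ∑ i ∈ r, d i * rp (H i) z from rfl,
    bb_sum r a A B d (fun i => rp (H i)) _ (fun i => rp_cont (hE i))
    (rp_cont (hE i)), Finset.mul_sum]
  refine Finset.sum_congr rfl fun j _ => ?_
  rw [bb_comm a A B (rp (H j))]
  ring

include hJ in
lemma energy_le {H : ℕ → ℂ → ℂ} {l : ℕ → ℝ} (hE : ∀ i, IsEig a A B (H i) (l i)) (s : Finset ℕ)
    (c : ℕ → ℝ) {Λ : ℝ} (hl : ∀ i ∈ s, l i ≤ Λ) :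
    ∫ z in tri a (a + A) (a + B), ‖fderiv ℝ (cmb H s c) z‖ ^ 2 ≤
      Λ * bb a A B (cmb H s c) (cmb H s c) := by
  have hd := fun i => (hE i).diff
  rw [energy hJ hE, bb_cmb hd, bb_cmb hd]
  have key : Λ * (∑ i ∈ s, ∑ j ∈ s, c i * c j * bb a A B (rp (H i)) (rp (H j))) -
      ∑ i ∈ s, ∑ j ∈ s, c i * (l j * c j) * bb a A B (rp (H i)) (rp (H j)) =
      bb a A B (cmb H s (fun i => Real.sqrt (Λ - l i) * c i))
        (cmb H s (fun i => Real.sqrt (Λ - l i) * c i)) := by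
    rw [bb_cmb hd, Finset.mul_sum, ← Finset.sum_sub_distrib]
    refine Finset.sum_congr rfl fun i hi => ?_
    rw [Finset.mul_sum, ← Finset.sum_sub_distrib]
    refine Finset.sum_congr rfl fun j hj => ?_
    by_cases hij : l i = l j
    · rw [hij]
      have h1 : Real.sqrt (Λ - l j) * Real.sqrt (Λ - l j) = Λ - l j :=
        Real.mul_self_sqrt (by linarith [hl j hj])
      linear_combination (-c i * c j * bb a A B (rp (H i)) (rp (H j))) * h1
    · rw [orth hJ (hE i) (hE j) hij]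
      ring
  have := bb_self_nonneg a A B (cmb H s (fun i => Real.sqrt (Λ - l i) * c i))
  linarith

include hJ in
lemma cmb_inj {H : ℕ → ℂ → ℂ} {l : ℕ → ℝ} (hE : ∀ i, IsEig a A B (H i) (l i))
    (hnd : ∀ (s : Finset ℕ) (c : ℕ → ℝ) (μ : ℝ), (∀ i ∈ s, l i = μ) →
      bb a A B (cmb H s c) (cmb H s c) = 0 → ∀ i ∈ s, c i = 0)
    (s : Finset ℕ) (c : ℕ → ℝ) (h : bb a A B (cmb H s c) (cmb H s c) = 0) :
    ∀ i ∈ s, c i = 0 := by
  classical
  have hd := fun i => (hE i).diff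
  intro i hi
  refine hnd (s.filter (fun j => l j = l i)) c (l i) (fun j hj => (Finset.mem_filter.1 hj).2) ?_
    i (Finset.mem_filter.2 ⟨hi, rfl⟩)
  have h1 : bb a A B (cmb H s c) (cmb H (s.filter (fun j => l j = l i)) c) = 0 := by
    obtain ⟨z1, z2, z3⟩ := bb_self_zero hJ.ne' (cmb_cont hd s c) h
    unfold bb
    rw [sd_zero_left z1, sd_zero_left z2, sd_zero_left z3]
    norm_num
  rw [bb_comm, bb_cmb hd] at h1
  rw [bb_cmb hd, ← h1]
  refine Finset.sum_congr rfl fun j hj => ?_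
  refine Finset.sum_subset (Finset.filter_subset _ _) fun m hm hm' => ?_
  rw [orth hJ (hE j) (hE m), mul_zero]
  rw [(Finset.mem_filter.1 hj).2]
  intro he
  exact hm' (Finset.mem_filter.2 ⟨hm, he.symm⟩)

lemma bdry_bb (hJ' : ((starRingEnd ℂ) A * B).im ≠ 0) {u : ℂ → ℝ} (hu : Continuous u) :
    ∫ z in frontier (tri a (a + A) (a + B)), u z ^ 2 ∂μH[1] = bb a A B u u := by
  rw [bdry_int hJ' (by fun_prop)]
  unfold bb sd
  simp_rw [sq]

include hJ in
theorem stk_le {H : ℕ → ℂ → ℂ} {l : ℕ → ℝ} (hE : ∀ i, IsEig a A B (H i) (l i))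
    (hnd : ∀ (s : Finset ℕ) (c : ℕ → ℝ) (μ : ℝ), (∀ i ∈ s, l i = μ) →
      bb a A B (cmb H s c) (cmb H s c) = 0 → ∀ i ∈ s, c i = 0)
    (k : ℕ) {Λ : ℝ} (hl : ∀ i ≤ k, l i ≤ Λ) :
    stk (tri a (a + A) (a + B)) k ≤ Λ := by
  have hd := fun i => (hE i).diff
  have hinj := cmb_inj hJ hE hnd (Finset.range (k + 1))
  have hlin : LinearIndependent ℝ (fun i : Fin (k + 1) => rp (H i)) := by
    rw [Fintype.linearIndependent_iff]
    intro g hg i
    have h0 : cmb H (Finset.range (k + 1)) (fun j => if h : j < k + 1 then g ⟨j, h⟩ else 0) =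
        0 := by
      rw [← hg]
      funext z
      rw [cmb, Finset.sum_apply, Finset.sum_range]
      refine Finset.sum_congr rfl fun j _ => ?_
      rw [dif_pos j.2]
      rfl
    have h1 := hinj (fun j => if h : j < k + 1 then g ⟨j, h⟩ else 0) (by
      rw [h0]
      unfold bb sd
      simp) i (Finset.mem_range.2 i.2)
    rwa [dif_pos i.2] at h1
  set V : Submodule ℝ (ℂ → ℝ) := Submodule.span ℝ (range (fun i : Fin (k + 1) => rp (H i)))
    with hV
  have hmem : ∀ u ∈ V, ∃ c : ℕ → ℝ, u = cmb H (Finset.range (k + 1)) c := by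
    intro u hu
    rw [hV, Submodule.mem_span_range_iff_exists_fun] at hu
    obtain ⟨g, rfl⟩ := hu
    refine ⟨fun j => if h : j < k + 1 then g ⟨j, h⟩ else 0, ?_⟩
    funext z
    rw [cmb, Finset.sum_apply, Finset.sum_range]
    refine Finset.sum_congr rfl fun j _ => ?_
    rw [dif_pos j.2]
    rfl
  have hpos : ∀ u ∈ V, u ≠ 0 →
      0 < ∫ z in frontier (tri a (a + A) (a + B)), u z ^ 2 ∂μH[1] := by
    intro u hu hu0
    obtain ⟨c, rfl⟩ := hmem u hu
    rw [bdry_bb hJ.ne' (cmb_cont hd _ c)]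
    refine lt_of_le_of_ne (bb_self_nonneg _ _ _ _) fun h => hu0 ?_
    have := hinj c h.symm
    funext z
    rw [cmb]
    refine Finset.sum_eq_zero fun i hi => ?_
    rw [this i hi, zero_mul]
  have hnn : ∀ s ∈ {s : ℝ | ∃ V : Submodule ℝ (ℂ → ℝ), (∀ u ∈ V, ContDiff ℝ 1 u) ∧
    Module.finrank ℝ V = k + 1 ∧ (∀ u ∈ V, u ≠ 0 →
      0 < ∫ z in frontier (tri a (a + A) (a + B)), u z ^ 2 ∂μH[1]) ∧
    s = sSup {t : ℝ | ∃ u ∈ V, u ≠ 0 ∧
      t = (∫ z in tri a (a + A) (a + B), ‖fderiv ℝ u z‖ ^ 2) /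
        ∫ z in frontier (tri a (a + A) (a + B)), u z ^ 2 ∂μH[1]}}, 0 ≤ s := by
    rintro s ⟨W, -, -, hW, rfl⟩
    refine Real.sSup_nonneg ?_
    rintro t ⟨u, hu, hu0, rfl⟩
    refine div_nonneg ?_ (hW u hu hu0).le
    exact integral_nonneg fun z => by positivity
  refine (csInf_le ⟨0, hnn⟩ ⟨V, ?_, ?_, hpos, rfl⟩).trans ?_
  · intro u hu
    obtain ⟨c, rfl⟩ := hmem u hu
    rw [← rp_cmbK]
    have h1 : ContDiff ℂ 1 (cmbK H (Finset.range (k + 1)) c) :=
      (cmbK_diff hd _ c).contDiff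
    exact Complex.reCLM.contDiff.comp (h1.restrict_scalars ℝ)
  · rw [hV, finrank_span_eq_card hlin, Fintype.card_fin]
  · refine csSup_le ?_ ?_
    · refine ⟨_, rp (H 0), Submodule.subset_span ⟨0, rfl⟩, ?_, rfl⟩
      exact hlin.ne_zero (0 : Fin (k + 1))
    · rintro t ⟨u, hu, hu0, rfl⟩
      have hp := hpos u hu hu0
      rw [div_le_iff₀ hp]
      obtain ⟨c, rfl⟩ := hmem u hu
      rw [bdry_bb hJ.ne' (cmb_cont hd _ c)]
      exact energy_le hJ hE _ c fun i hi => hl i (by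
        have := Finset.mem_range.1 hi
        omega)

end

end Pool.Agent.Q96.SkUp
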