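import Mathlib
import Pool.Agent.Q96.SkUp

/-! Explicit Steklov eigenfunctions of an equilateral triangle. -/

open MeasureTheory Set

namespace Pool.Agent.Q96.SkEig

open SkGreen SkTri SkUp

/-- the primitive cube root of unity -/
noncomputable def om : ℂ := ⟨-1 / 2, Real.sqrt 3 / 2⟩

lemma om_re : om.re = -1 / 2 := rfl
lemma om_im : om.im = Real.sqrt 3 / 2 := rfl

lemma s3 : Real.sqrt 3 * Real.sqrt 3 = 3 := Real.mul_self_sqrt (by norm_num)

lemma s3c : ((Real.sqrt 3 : ℝ) : ℂ) * ((Real.sqrt 3 : ℝ) : ℂ) = 3 := by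
  rw [← Complex.ofReal_mul, s3]; norm_num

lemma om_eq : om = -1 / 2 + (Real.sqrt 3 : ℂ) / 2 * Complex.I := by
  apply Complex.ext
  · simp [om_re]
  · simp [om_im]

lemma om_sum : 1 + om + om ^ 2 = 0 := by
  rw [om_eq]
  have := s3c
  linear_combination (Complex.I ^ 2 / 4) * this + 3 / 4 * Complex.I_sq

lemma om3 : om ^ 3 = 1 := by
  linear_combination (om - 1) * om_sum

lemma om_conj : (starRingEnd ℂ) om = om ^ 2 := by
  have h : om ^ 2 = -1 - om := by linear_combination om_sum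
  rw [h]
  apply Complex.ext
  · rw [Complex.conj_re, Complex.sub_re, om_re]
    norm_num
  · rw [Complex.conj_im, Complex.sub_im, om_im]
    norm_num

lemma om_norm : ‖om‖ = 1 := by
  have : ‖om‖ ^ 3 = 1 := by rw [← norm_pow, om3, norm_one]
  exact (pow_eq_one_iff_of_nonneg (norm_nonneg _) (by norm_num)).1 this

/-- the boundary condition on the reference triangle (inradius one) -/
structure BC (G : ℂ → ℂ) (l : ℝ) : Prop where
  diff : Differentiable ℂ G
  b0 : ∀ y : ℝ, (deriv G (1 + y * Complex.I)).re = l * (G (1 + y * Complex.I)).re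
  b1 : ∀ y : ℝ, (deriv G (om * (1 + y * Complex.I)) * om).re =
    l * (G (om * (1 + y * Complex.I))).re
  b2 : ∀ y : ℝ, (deriv G (om ^ 2 * (1 + y * Complex.I)) * om ^ 2).re =
    l * (G (om ^ 2 * (1 + y * Complex.I))).re

/-- edge vectors of the triangle with centroid `m` and scale `r` -/
noncomputable def vA (r : ℂ) : ℂ := 2 * r * (1 - om)
noncomputable def vB (r : ℂ) : ℂ := 2 * r * (1 - om ^ 2)

lemma J_pos {r : ℂ} (hr : r ≠ 0) : 0 < ((starRingEnd ℂ) (vA r) * vB r).im := by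
  have h1 : (starRingEnd ℂ) (vA r) * vB r = ((12 * Complex.normSq r : ℝ) : ℂ) * (-om ^ 2) := by
    rw [vA, vB, map_mul, map_mul, map_sub, om_conj, map_one, Complex.conj_ofNat]
    push_cast
    rw [← Complex.normSq_eq_conj_mul_self.symm]
    have := om_sum
    linear_combination (4 * (starRingEnd ℂ r) * r * (1 + om ^ 2 - om)) * this
  rw [h1, Complex.im_ofReal_mul]
  have h2 : (-om ^ 2).im = Real.sqrt 3 / 2 := by
    have : -om ^ 2 = 1 + om := by linear_combination -om_sum
    rw [this]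
    simp [om_im]
  rw [h2]
  have := Complex.normSq_pos.2 hr
  positivity

lemma two_i : om ^ 2 - om = -(Real.sqrt 3 : ℂ) * Complex.I := by
  have : om ^ 2 = -1 - om := by linear_combination om_sum
  rw [this, om_eq]
  ring

/-- side a → b -/
lemma e1 (m r : ℂ) : (m - 2 * r) + vA r - (m - 2 * r) =
    2 * (Real.sqrt 3 : ℂ) * Complex.I * (r * om ^ 2) := by
  rw [vA]
  have h1 := two_i
  have h2 := om3
  have h3 := om_sum
  linear_combination (-2 * r * om ^ 2) * h1 + (2 * r * (om - 1)) * h2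

lemma e2 (m r : ℂ) : (m - 2 * r) + vB r - (m - 2 * r + vA r) =
    2 * (Real.sqrt 3 : ℂ) * Complex.I * r := by
  rw [vA, vB]
  have h1 := two_i
  linear_combination (-2 * r) * h1

lemma e3 (m r : ℂ) : (m - 2 * r) - (m - 2 * r + vB r) =
    2 * (Real.sqrt 3 : ℂ) * Complex.I * (r * om) := by
  rw [vB]
  have h1 := two_i
  have h2 := om3
  linear_combination (-2 * r * om) * h1 + (2 * r) * h2

lemma nrm (r w : ℂ) (hw : ‖w‖ = 1) : ‖2 * (Real.sqrt 3 : ℂ) * Complex.I * (r * w)‖ =
    2 * Real.sqrt 3 * ‖r‖ := by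
  simp [hw, abs_of_nonneg (Real.sqrt_nonneg 3)]

lemma bc_side {G : ℂ → ℂ} {l : ℝ} (hG : Differentiable ℂ G) {m r w : ℂ} (hr : r ≠ 0)
    (hw : ‖w‖ = 1) {z : ℂ} {y : ℝ} (hz : (z - m) / r = w * (1 + y * Complex.I))
    (h : (deriv G (w * (1 + y * Complex.I)) * w).re = l * (G (w * (1 + y * Complex.I))).re) :
    (deriv (fun z => G ((z - m) / r)) z * (2 * (Real.sqrt 3 : ℂ) * Complex.I * (r * w))).im =
      l / ‖r‖ * ‖2 * (Real.sqrt 3 : ℂ) * Complex.I * (r * w)‖ * (G ((z - m) / r)).re := by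
  have hn : ‖r‖ ≠ 0 := norm_ne_zero_iff.2 hr
  have hd : deriv (fun z => G ((z - m) / r)) z = deriv G ((z - m) / r) * (1 / r) := by
    have h1 : HasDerivAt (fun z : ℂ => (z - m) / r) (1 / r) z :=
      ((hasDerivAt_id z).sub_const m).div_const r
    exact ((hG _).hasDerivAt.comp z h1).deriv
  rw [hd, nrm r w hw, hz]
  have : deriv G (w * (1 + y * Complex.I)) * (1 / r) *
      (2 * (Real.sqrt 3 : ℂ) * Complex.I * (r * w)) =
      ((2 * Real.sqrt 3 : ℝ) : ℂ) * ((deriv G (w * (1 + y * Complex.I)) * w) * Complex.I) := by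
    push_cast
    field_simp
  rw [this, Complex.im_ofReal_mul, Complex.mul_I_im, h]
  field_simp

theorem isEig_of_BC {G : ℂ → ℂ} {l : ℝ} (hG : BC G l) {m r : ℂ} (hr : r ≠ 0) :
    IsEig (m - 2 * r) (vA r) (vB r) (fun z => G ((z - m) / r)) (l / ‖r‖) := by
  have hom2 : ‖om ^ 2‖ = 1 := by rw [norm_pow, om_norm, one_pow]
  refine ⟨?_, ?_, ?_, ?_⟩
  · exact hG.diff.comp (by fun_prop)
  · intro t _
    rw [e1 m r]
    refine bc_side (y := Real.sqrt 3 * (2 * t - 1)) hG.diff hr hom2 ?_ (hG.b2 _)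
    rw [div_eq_iff hr]
    have h1 := two_i
    have h2 := om3
    push_cast
    linear_combination (r * om ^ 2) * h1 + (-r * (om - 1)) * h2 - r * om_sum
  · intro t _
    rw [e2 m r]
    have := bc_side (G := G) (l := l) (m := m) (r := r) (w := 1)
      (z := m - 2 * r + vA r + t * (2 * (Real.sqrt 3 : ℂ) * Complex.I * r))
      (y := Real.sqrt 3 * (2 * t - 1)) hG.diff hr (by simp) ?_ (by
        simpa using hG.b0 (Real.sqrt 3 * (2 * t - 1)))
    · simpa using this
    · rw [div_eq_iff hr, vA]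
      have h1 := two_i
      push_cast
      linear_combination (r) * h1 - r * om_sum
  · intro t _
    rw [e3 m r]
    refine bc_side (y := Real.sqrt 3 * (2 * t - 1)) hG.diff hr om_norm ?_ (hG.b1 _)
    rw [div_eq_iff hr, vB]
    have h1 := two_i
    have h2 := om3
    push_cast
    linear_combination (r * om) * h1 - r * h2 - r * om_sum

lemma bc_const : BC (fun _ => 1) 0 := by
  refine ⟨differentiable_const _, ?_, ?_, ?_⟩ <;> intro y <;> simp

lemma bc_cubic : BC (fun z => z ^ 3 + 2) 1 := by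
  have hd : ∀ z : ℂ, deriv (fun z : ℂ => z ^ 3 + 2) z = 3 * z ^ 2 := by
    intro z
    simp
  have hbase : ∀ y : ℝ, (3 * (1 + y * Complex.I) ^ 2 : ℂ).re =
      1 * ((1 + y * Complex.I) ^ 3 + 2 : ℂ).re := by
    intro y
    simp only [pow_succ, pow_zero, one_mul, Complex.mul_re, Complex.mul_im, Complex.add_re,
      Complex.add_im, Complex.one_re, Complex.one_im, Complex.ofReal_re, Complex.ofReal_im,
      Complex.I_re, Complex.I_im, Complex.re_ofNat, Complex.im_ofNat]
    ring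
  refine ⟨by fun_prop, ?_, ?_, ?_⟩
  · intro y
    rw [hd]
    exact hbase y
  · intro y
    rw [hd]
    have h1 : 3 * (om * (1 + y * Complex.I)) ^ 2 * om = 3 * (1 + y * Complex.I) ^ 2 := by
      linear_combination (3 * (1 + y * Complex.I) ^ 2) * om3
    have h2 : (om * (1 + y * Complex.I)) ^ 3 + 2 = (1 + y * Complex.I) ^ 3 + 2 := by
      linear_combination ((1 + y * Complex.I) ^ 3) * om3
    rw [h1, h2]
    exact hbase y
  · intro y
    rw [hd]
    have h1 : 3 * (om ^ 2 * (1 + y * Complex.I)) ^ 2 * om ^ 2 = 3 * (1 + y * Complex.I) ^ 2 := by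
      linear_combination (3 * (1 + y * Complex.I) ^ 2) * (om ^ 3 + 1) * om3
    have h2 : (om ^ 2 * (1 + y * Complex.I)) ^ 3 + 2 = (1 + y * Complex.I) ^ 3 + 2 := by
      linear_combination ((1 + y * Complex.I) ^ 3) * (om ^ 3 + 1) * om3
    rw [h1, h2]
    exact hbase y

/-- the Bethe ansatz function -/
noncomputable def GG (ka E : ℝ) (ch ga : ℂ) : ℂ → ℂ := fun z =>
  ga * (Complex.exp (ka * z) + ch * Complex.exp (ka * (om * z)) +
    ch ^ 2 * Complex.exp (ka * (om ^ 2 * z))) +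
  (starRingEnd ℂ) ga * E * (Complex.exp (-(ka * z)) + ch * Complex.exp (-(ka * (om ^ 2 * z))) +
    ch ^ 2 * Complex.exp (-(ka * (om * z))))

noncomputable def GG' (ka E : ℝ) (ch ga : ℂ) : ℂ → ℂ := fun z =>
  ga * (ka * Complex.exp (ka * z) + ch * (ka * om * Complex.exp (ka * (om * z))) +
    ch ^ 2 * (ka * om ^ 2 * Complex.exp (ka * (om ^ 2 * z)))) -
  (starRingEnd ℂ) ga * E * (ka * Complex.exp (-(ka * z)) +
    ch * (ka * om ^ 2 * Complex.exp (-(ka * (om ^ 2 * z)))) +
    ch ^ 2 * (ka * om * Complex.exp (-(ka * (om * z)))))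

lemma exp_deriv (c z : ℂ) : HasDerivAt (fun z : ℂ => Complex.exp (c * z)) (c * Complex.exp (c * z)) z := by
  have h1 : HasDerivAt (fun z : ℂ => c * z) c z := by
    simpa using (hasDerivAt_id z).const_mul c
  have := h1.cexp
  rwa [mul_comm] at this

lemma GG_hasDeriv (ka E : ℝ) (ch ga z : ℂ) : HasDerivAt (GG ka E ch ga) (GG' ka E ch ga z) z := by
  have h := fun c => exp_deriv c z
  have e : GG ka E ch ga = fun z =>
      ga * (Complex.exp (ka * z) + ch * Complex.exp ((ka * om) * z) +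
    ch ^ 2 * Complex.exp ((ka * om ^ 2) * z)) +
  (starRingEnd ℂ) ga * E * (Complex.exp ((-ka) * z) + ch * Complex.exp ((-(ka * om ^ 2)) * z) +
    ch ^ 2 * Complex.exp ((-(ka * om)) * z)) := by
    funext z
    rw [GG]
    ring_nf
  rw [e]
  have h1 := (((h ka).add ((h (ka * om)).const_mul ch)).add
    ((h (ka * om ^ 2)).const_mul (ch ^ 2))).const_mul ga
  have h2 := (((h (-ka)).add ((h (-(ka * om ^ 2))).const_mul ch)).add
    ((h (-(ka * om))).const_mul (ch ^ 2))).const_mul ((starRingEnd ℂ) ga * E)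
  refine (h1.add h2).congr_deriv ?_
  rw [GG']
  ring_nf

lemma GG_diff (ka E : ℝ) (ch ga : ℂ) : Differentiable ℂ (GG ka E ch ga) := fun z =>
  (GG_hasDeriv ka E ch ga z).differentiableAt

lemma GG_deriv (ka E : ℝ) (ch ga : ℂ) : deriv (GG ka E ch ga) = GG' ka E ch ga := by
  funext z
  exact (GG_hasDeriv ka E ch ga z).deriv

/-- the quantisation conditions -/
structure QC (ka l E : ℝ) (ch : ℂ) : Prop where
  c3 : ch ^ 3 = 1
  cj : (starRingEnd ℂ) ch = ch ^ 2
  q0 : (ka - l) * Real.exp (2 * ka) = E * (ka + l)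
  q1 : (ka * om - l) * Complex.exp (2 * (ka * om)) = E * ch * (ka * om + l)

lemma QC.q2 {ka l E : ℝ} {ch : ℂ} (h : QC ka l E ch) :
    (ka * om ^ 2 - l) * Complex.exp (2 * (ka * om ^ 2)) = E * ch ^ 2 * (ka * om ^ 2 + l) := by
  have := congrArg (starRingEnd ℂ) h.q1
  simp only [map_mul, map_sub, map_add, Complex.conj_ofReal, om_conj, h.cj, ← Complex.exp_conj,
    Complex.conj_ofNat] at this
  exact this

lemma QC.q0' {ka l E : ℝ} {ch : ℂ} (h : QC ka l E ch) :
    ((ka : ℂ) - l) * Complex.exp (2 * ka) = E * (ka + l) := by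
  have := congrArg (fun x : ℝ => (x : ℂ)) h.q0
  push_cast at this
  exact this

lemma GG_rot {ka E : ℝ} {ch : ℂ} (c3 : ch ^ 3 = 1) (cj : (starRingEnd ℂ) ch = ch ^ 2) (ga z : ℂ) :
    GG ka E ch ga (om * z) = GG ka E ch (ga * ch ^ 2) z := by
  rw [GG, GG]
  have h1 : om * (om * z) = om ^ 2 * z := by ring
  have h2 : om ^ 2 * (om * z) = z := by linear_combination z * om3
  simp only [h1, h2, map_mul, map_pow, cj]
  generalize Complex.exp (ka * z) = x0
  generalize Complex.exp (ka * (om * z)) = x1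
  generalize Complex.exp (ka * (om ^ 2 * z)) = x2
  generalize Complex.exp (-(ka * z)) = y0
  generalize Complex.exp (-(ka * (om * z))) = y1
  generalize Complex.exp (-(ka * (om ^ 2 * z))) = y2
  linear_combination (-ga * (x1 + ch * x2) - (starRingEnd ℂ) ga * E *
    (ch * y0 + ch ^ 2 * y2 + (ch ^ 3 + 1) * y1)) * c3

lemma GG'_rot {ka E : ℝ} {ch : ℂ} (c3 : ch ^ 3 = 1) (cj : (starRingEnd ℂ) ch = ch ^ 2)
    (ga z : ℂ) :
    GG' ka E ch ga (om * z) * om = GG' ka E ch (ga * ch ^ 2) z := by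
  rw [GG', GG']
  have h1 : om * (om * z) = om ^ 2 * z := by ring
  have h2 : om ^ 2 * (om * z) = z := by linear_combination z * om3
  simp only [h1, h2, map_mul, map_pow, cj]
  generalize Complex.exp (ka * z) = x0
  generalize Complex.exp (ka * (om * z)) = x1
  generalize Complex.exp (ka * (om ^ 2 * z)) = x2
  generalize Complex.exp (-(ka * z)) = y0
  generalize Complex.exp (-(ka * (om * z))) = y1
  generalize Complex.exp (-(ka * (om ^ 2 * z))) = y2
  linear_combination (-ga * ka * (om * x1 + ch * om ^ 2 * x2) + (starRingEnd ℂ) ga * E * ka *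
    (ch * y0 + ch ^ 2 * om ^ 2 * y2 + (ch ^ 3 + 1) * om * y1)) * c3 +
    (ga * ch ^ 2 * ka * x0 - (starRingEnd ℂ) ga * E * ch * ka * y0) * om3

lemma side0 {ka l E : ℝ} {ch : ℂ} (h : QC ka l E ch) (ga : ℂ) (y : ℝ) :
    (GG' ka E ch ga (1 + y * Complex.I)).re = l * (GG ka E ch ga (1 + y * Complex.I)).re := by
  set z : ℂ := 1 + y * Complex.I with hz
  have hzc : (starRingEnd ℂ) z = 2 - z := by
    rw [hz, map_add, map_mul, Complex.conj_ofReal, Complex.conj_I, map_one]
    ring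
  set X : ℂ := (ka + l) * Complex.exp (-(ka * z)) +
    ch * ((ka * om ^ 2 + l) * Complex.exp (-(ka * (om ^ 2 * z)))) +
    ch ^ 2 * ((ka * om + l) * Complex.exp (-(ka * (om * z)))) with hX
  set P : ℂ := ga * ((ka - l) * Complex.exp (ka * z) +
    ch * ((ka * om - l) * Complex.exp (ka * (om * z))) +
    ch ^ 2 * ((ka * om ^ 2 - l) * Complex.exp (ka * (om ^ 2 * z)))) with hP
  have hdiff : GG' ka E ch ga z - l * GG ka E ch ga z = P - (starRingEnd ℂ) ga * E * X := by
    rw [GG', GG, hP, hX]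
    ring
  have hconjX : (starRingEnd ℂ) X = (ka + l) * Complex.exp (-(ka * (2 - z))) +
    ch ^ 2 * ((ka * om + l) * Complex.exp (-(ka * (om * (2 - z))))) +
    ch * ((ka * om ^ 2 + l) * Complex.exp (-(ka * (om ^ 2 * (2 - z))))) := by
    have ho : (om ^ 2) ^ 2 = om := by linear_combination om * om3
    have hc : (ch ^ 2) ^ 2 = ch := by linear_combination ch * h.c3
    rw [hX]
    simp only [map_mul, map_add, map_pow, Complex.conj_ofReal, om_conj, h.cj,
      ← Complex.exp_conj, map_neg, hzc, ho, hc]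
  have hPX : P = ga * E * (starRingEnd ℂ) X := by
    rw [hP, hconjX]
    have x0 : Complex.exp (-(ka * (2 - z))) * Complex.exp (2 * ka) = Complex.exp (ka * z) := by
      rw [← Complex.exp_add]; ring_nf
    have x1 : Complex.exp (-(ka * (om * (2 - z)))) * Complex.exp (2 * (ka * om)) =
        Complex.exp (ka * (om * z)) := by
      rw [← Complex.exp_add]; ring_nf
    have x2 : Complex.exp (-(ka * (om ^ 2 * (2 - z)))) * Complex.exp (2 * (ka * om ^ 2)) =
        Complex.exp (ka * (om ^ 2 * z)) := by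
      rw [← Complex.exp_add]; ring_nf
    rw [← x0, ← x1, ← x2]
    have hq0 := h.q0'
    have hq1 := h.q1
    have hq2 := h.q2
    have hc3 := h.c3
    generalize Complex.exp (-(ka * (2 - z))) = u0 at *
    generalize Complex.exp (-(ka * (om * (2 - z)))) = u1 at *
    generalize Complex.exp (-(ka * (om ^ 2 * (2 - z)))) = u2 at *
    linear_combination (ga * u0) * hq0 + (ga * ch * u1) * hq1 + (ga * ch ^ 2 * u2) * hq2 +
      (ga * E * ch * u2 * (ka * om ^ 2 + l)) * hc3
  have hre : (GG' ka E ch ga z - l * GG ka E ch ga z).re = 0 := by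
    rw [hdiff, Complex.sub_re, hPX]
    have : (starRingEnd ℂ) ((starRingEnd ℂ) ga * E * X) = ga * E * (starRingEnd ℂ) X := by
      simp
    rw [← this, Complex.conj_re, sub_self]
  rw [Complex.sub_re, Complex.re_ofReal_mul] at hre
  linarith

theorem bc_GG {ka l E : ℝ} {ch : ℂ} (h : QC ka l E ch) (ga : ℂ) : BC (GG ka E ch ga) l := by
  refine ⟨GG_diff _ _ _ _, ?_, ?_, ?_⟩
  · intro y
    rw [GG_deriv]
    exact side0 h ga y
  · intro y
    rw [GG_deriv, GG'_rot h.c3 h.cj, GG_rot h.c3 h.cj]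
    exact side0 h _ y
  · intro y
    rw [GG_deriv]
    have e : om ^ 2 * (1 + y * Complex.I) = om * (om * (1 + y * Complex.I)) := by ring
    have e2 : om ^ 2 = om * om := by ring
    rw [e, e2, ← mul_assoc, GG'_rot h.c3 h.cj, GG'_rot h.c3 h.cj, GG_rot h.c3 h.cj,
      GG_rot h.c3 h.cj]
    exact side0 h _ y

end Pool.Agent.Q96.SkEig
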