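import Mathlib
import Pool.Agent.Q96.SkEig

/-! Nondegeneracy of the Bethe ansatz functions on a side. -/

open MeasureTheory Set

namespace Pool.Agent.Q96.SkNd

open SkEig

/-- three exponentials on the side -/
noncomputable def FF (ka : ℝ) (c0 c1 c2 : ℂ) (y : ℝ) : ℂ :=
  c0 * Complex.exp (ka * (1 + y * Complex.I)) + c1 * Complex.exp (ka * (om * (1 + y * Complex.I)))
    + c2 * Complex.exp (ka * (om ^ 2 * (1 + y * Complex.I)))

lemma FF_deriv (ka : ℝ) (c0 c1 c2 : ℂ) (y : ℝ) :
    HasDerivAt (FF ka c0 c1 c2) (FF ka (c0 * (ka * Complex.I)) (c1 * (ka * om * Complex.I))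
      (c2 * (ka * om ^ 2 * Complex.I)) y) y := by
  have h0 : HasDerivAt (fun y : ℝ => (y : ℂ)) 1 y := Complex.ofRealCLM.hasDerivAt
  have h : ∀ w : ℂ, HasDerivAt (fun y : ℝ => Complex.exp (ka * (w * (1 + y * Complex.I))))
      (Complex.exp (ka * (w * (1 + y * Complex.I))) * (ka * w * Complex.I)) y := by
    intro w
    have h1 : HasDerivAt (fun y : ℝ => (ka : ℂ) * (w * (1 + y * Complex.I)))
        (ka * w * Complex.I) y := by
      have := (((h0.mul_const Complex.I).const_add 1).const_mul w).const_mul (ka : ℂ)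
      refine this.congr_deriv ?_
      ring
    exact h1.cexp
  have e : FF ka c0 c1 c2 = fun y : ℝ =>
      c0 * Complex.exp (ka * (1 * (1 + y * Complex.I))) +
      c1 * Complex.exp (ka * (om * (1 + y * Complex.I)))
    + c2 * Complex.exp (ka * (om ^ 2 * (1 + y * Complex.I))) := by
    funext y
    rw [FF, one_mul]
  rw [e]
  refine ((((h 1).const_mul c0).add ((h om).const_mul c1)).add
    ((h (om ^ 2)).const_mul c2)).congr_deriv ?_
  rw [FF]
  simp only [one_mul, mul_one]
  ring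

lemma FF_step {ka r : ℝ} {c0 c1 c2 : ℂ} (h : ∀ y ∈ Ioo (-r) r, (FF ka c0 c1 c2 y).re = 0) :
    ∀ y ∈ Ioo (-r) r, (FF ka (c0 * (ka * Complex.I)) (c1 * (ka * om * Complex.I))
      (c2 * (ka * om ^ 2 * Complex.I)) y).re = 0 := by
  intro y hy
  have h1 := Complex.reCLM.hasFDerivAt.comp_hasDerivAt y (FF_deriv ka c0 c1 c2 y)
  have h2 : HasDerivAt (Complex.reCLM ∘ FF ka c0 c1 c2) 0 y := by
    have : (Complex.reCLM ∘ FF ka c0 c1 c2) =ᶠ[nhds y] fun _ => (0 : ℝ) := by
      filter_upwards [isOpen_Ioo.mem_nhds hy] with x hx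
      exact h x hx
    exact (hasDerivAt_const y (0 : ℝ)).congr_of_eventuallyEq this
  exact h1.unique h2

lemma FF_zero {ka r : ℝ} (hka : 0 < ka) (hr : 0 < r) {c0 c1 c2 : ℂ}
    (h : ∀ y ∈ Ioo (-r) r, (FF ka c0 c1 c2 y).re = 0) : c0 = 0 := by
  have h1 := FF_step h
  have h2 := FF_step h1
  have h3 := FF_step h2
  have h4 := FF_step h3
  have h5 := FF_step h4
  have hz : (0 : ℝ) ∈ Ioo (-r) r := ⟨by linarith, hr⟩
  have g0 := h 0 hz
  have g1 := h1 0 hz
  have g2 := h2 0 hz
  have g3 := h3 0 hz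
  have g4 := h4 0 hz
  have g5 := h5 0 hz
  simp only [FF, Complex.ofReal_zero, zero_mul, add_zero, mul_one] at g0 g1 g2 g3 g4 g5
  set D0 : ℂ := c0 * Complex.exp ka with hD0
  set D1 : ℂ := c1 * Complex.exp (ka * om) with hD1
  set D2 : ℂ := c2 * Complex.exp (ka * om ^ 2) with hD2
  have hk3 : (0 : ℝ) < ka ^ 3 := by positivity
  have key : ∀ S S' : ℂ, S.re = 0 → S'.re = 0 → S' = ((ka ^ 3 : ℝ) : ℂ) * (-Complex.I * S) →
      S = 0 := by
    intro S S' hS hS' he
    rw [he, Complex.re_ofReal_mul] at hS'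
    have : (-Complex.I * S).re = S.im := by simp
    rw [this] at hS'
    have him : S.im = 0 := by
      rcases mul_eq_zero.1 hS' with h | h
      · exact absurd h hk3.ne'
      · exact h
    exact Complex.ext hS him
  have hI3 : Complex.I ^ 3 = -Complex.I := by
    rw [pow_succ, Complex.I_sq]; ring
  have S0 := key _ _ g0 g3 (by
    push_cast
    linear_combination (ka ^ 3 * (D0 + D1 + D2)) * hI3 + (ka ^ 3 * Complex.I ^ 3 * (D1 +
      D2 * (om ^ 3 + 1))) * om3)
  have S1 := key _ _ g1 g4 (by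
    push_cast
    linear_combination (ka ^ 4 * Complex.I * (D0 + om * D1 + om ^ 2 * D2)) * hI3 +
      (ka ^ 4 * Complex.I ^ 4 * (D1 * om + D2 * om ^ 2 * (om ^ 3 + 1))) * om3)
  have S2 := key _ _ g2 g5 (by
    push_cast
    linear_combination (ka ^ 5 * Complex.I ^ 2 * (D0 + om ^ 2 * D1 + om ^ 4 * D2)) * hI3 +
      (ka ^ 5 * Complex.I ^ 5 * (D1 * om ^ 2 + D2 * om ^ 4 * (om ^ 3 + 1))) * om3)
  have hkc : (ka : ℂ) ≠ 0 := by exact_mod_cast hka.ne'
  have T1 : D0 + om * D1 + om ^ 2 * D2 = 0 := by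
    have : (ka * Complex.I) * (D0 + om * D1 + om ^ 2 * D2) = 0 := by
      linear_combination S1
    rcases mul_eq_zero.1 this with h | h
    · exact absurd h (mul_ne_zero hkc Complex.I_ne_zero)
    · exact h
  have T2 : D0 + om ^ 2 * D1 + om ^ 4 * D2 = 0 := by
    have : (ka * Complex.I) ^ 2 * (D0 + om ^ 2 * D1 + om ^ 4 * D2) = 0 := by
      linear_combination S2
    rcases mul_eq_zero.1 this with h | h
    · exact absurd h (pow_ne_zero 2 (mul_ne_zero hkc Complex.I_ne_zero))
    · exact h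
  have T0 : D0 + D1 + D2 = 0 := by linear_combination S0
  have hD : D0 = 0 := by
    have hs := om_sum
    have h3 := om3
    linear_combination (1 / 3) * T0 + (1 / 3) * T1 + (1 / 3) * T2 - (1 / 3) * (D1 + D2) * hs -
      (1 / 3) * (D2 * om) * h3
  rw [hD0] at hD
  rcases mul_eq_zero.1 hD with h | h
  · exact h
  · exact absurd h (Complex.exp_ne_zero _)

theorem nd {ka l E : ℝ} {ch : ℂ} (hka : 0 < ka) (h : QC ka l E ch) {ga : ℂ} {r : ℝ}
    (hr : 0 < r) (hz : ∀ y ∈ Ioo (-r) r, (GG ka E ch ga (1 + y * Complex.I)).re = 0) :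
    ga = 0 := by
  have hcc : (ch ^ 2) ^ 2 = ch := by linear_combination ch * h.c3
  have hoo : (om ^ 2) ^ 2 = om := by linear_combination om * om3
  have key : ∀ y : ℝ, (GG ka E ch ga (1 + y * Complex.I)).re =
      (FF ka (ga * (1 + E * Complex.exp (-(2 * ka))))
        (ga * (ch + E * ch ^ 2 * Complex.exp (-(2 * (ka * om)))))
        (ga * (ch ^ 2 + E * ch * Complex.exp (-(2 * (ka * om ^ 2))))) y).re := by
    intro y
    set z : ℂ := 1 + y * Complex.I with hz'
    have hzc : (starRingEnd ℂ) z = 2 - z := by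
      rw [hz', map_add, map_mul, Complex.conj_ofReal, Complex.conj_I, map_one]
      ring
    have hcj : (starRingEnd ℂ) ((starRingEnd ℂ) ga * E * (Complex.exp (-(ka * z)) +
        ch * Complex.exp (-(ka * (om ^ 2 * z))) + ch ^ 2 * Complex.exp (-(ka * (om * z))))) =
        ga * E * (Complex.exp (-(ka * (2 - z))) + ch ^ 2 * Complex.exp (-(ka * (om * (2 - z)))) +
          ch * Complex.exp (-(ka * (om ^ 2 * (2 - z))))) := by
      simp only [map_mul, map_add, map_pow, Complex.conj_ofReal, om_conj, h.cj, Complex.conj_conj,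
        ← Complex.exp_conj, map_neg, hzc, hoo, hcc]
    have x0 : Complex.exp (-(ka * (2 - z))) = Complex.exp (ka * z) * Complex.exp (-(2 * ka)) := by
      rw [← Complex.exp_add]; ring_nf
    have x1 : Complex.exp (-(ka * (om * (2 - z)))) =
        Complex.exp (ka * (om * z)) * Complex.exp (-(2 * (ka * om))) := by
      rw [← Complex.exp_add]; ring_nf
    have x2 : Complex.exp (-(ka * (om ^ 2 * (2 - z)))) =
        Complex.exp (ka * (om ^ 2 * z)) * Complex.exp (-(2 * (ka * om ^ 2))) := by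
      rw [← Complex.exp_add]; ring_nf
    rw [GG, Complex.add_re, ← Complex.conj_re ((starRingEnd ℂ) ga * E * _), hcj,
      ← Complex.add_re, x0, x1, x2, FF, ← hz']
    congr 1
    ring
  have h0 : ga * (1 + E * Complex.exp (-(2 * ka))) = 0 := by
    refine FF_zero (r := r) (c1 := ga * (ch + E * ch ^ 2 * Complex.exp (-(2 * (ka * om)))))
      (c2 := ga * (ch ^ 2 + E * ch * Complex.exp (-(2 * (ka * om ^ 2))))) hka hr (fun y hy => ?_)
    rw [← key y]
    exact hz y hy
  rcases mul_eq_zero.1 h0 with h1 | h1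
  · exact h1
  · exfalso
    have h2 : (1 + E * Real.exp (-(2 * ka)) : ℝ) = 0 := by
      have : ((1 + E * Real.exp (-(2 * ka)) : ℝ) : ℂ) = 0 := by
        push_cast
        exact h1
      exact_mod_cast this
    have h3 := h.q0
    have h4 : Real.exp (2 * ka) * Real.exp (-(2 * ka)) = 1 := by
      rw [← Real.exp_add]; simp
    have h5 : 2 * ka = 0 := by
      linear_combination (ka + l) * h2 + (Real.exp (-(2 * ka))) * h3 - (ka - l) * h4
    linarith

end Pool.Agent.Q96.SkNd
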