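import Mathlib
import Pool.Agent.Q96.SkNd

/-! Solutions of the quantisation conditions and their bounds. -/

open MeasureTheory Set

namespace Pool.Agent.Q96.SkNum

open SkEig

/-- three times kappa -/
noncomputable def K3 (t : ℝ) : ℝ :=
  Real.log (1 + t) - Real.log (1 - t) +
    (Real.log (1 + t + t ^ 2) - Real.log (1 - t + t ^ 2)) / 2

noncomputable def ph (t : ℝ) : ℝ := Real.pi / 2 + Real.arctan ((t - 1 / t) / Real.sqrt 3)

noncomputable def Th (t : ℝ) : ℝ := K3 t / Real.sqrt 3 + ph t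

lemma sq3_pos : 0 < Real.sqrt 3 := by positivity

lemma sq3_lo : (1.732 : ℝ) < Real.sqrt 3 := by
  rw [Real.lt_sqrt (by norm_num)]; norm_num

lemma sq3_hi : Real.sqrt 3 < (1.7321 : ℝ) := by
  rw [Real.sqrt_lt' (by norm_num)]; norm_num

lemma p1 (t : ℝ) : 0 < 1 + t + t ^ 2 := by nlinarith [sq_nonneg (t + 1 / 2)]
lemma p2 (t : ℝ) : 0 < 1 - t + t ^ 2 := by nlinarith [sq_nonneg (t - 1 / 2)]

lemma exp_K3 {t : ℝ} (ht : 0 < t) (h1 : t ≠ 1) :
    Real.exp (-K3 t) * ((1 + t) * Real.sqrt (1 + t + t ^ 2)) =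
      |1 - t| * Real.sqrt (1 - t + t ^ 2) := by
  have hne : (1 - t) ≠ 0 := sub_ne_zero.2 (Ne.symm h1)
  have habs : 0 < |1 - t| := abs_pos.2 hne
  have e1 : Real.exp (Real.log (1 + t)) = 1 + t := Real.exp_log (by linarith)
  have e2 : Real.exp (Real.log (1 - t)) = |1 - t| := by
    rw [← Real.log_abs, Real.exp_log habs]
  have e3 : Real.exp (Real.log (1 + t + t ^ 2) / 2) = Real.sqrt (1 + t + t ^ 2) := by
    rw [Real.exp_half, Real.exp_log (p1 t)]
  have e4 : Real.exp (Real.log (1 - t + t ^ 2) / 2) = Real.sqrt (1 - t + t ^ 2) := by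
    rw [Real.exp_half, Real.exp_log (p2 t)]
  have : -K3 t = Real.log (1 - t) + Real.log (1 - t + t ^ 2) / 2 - Real.log (1 + t) -
      Real.log (1 + t + t ^ 2) / 2 := by
    rw [K3]; ring
  rw [this, Real.exp_sub, Real.exp_sub, Real.exp_add, e1, e2, e3, e4]
  have : 0 < Real.sqrt (1 + t + t ^ 2) := Real.sqrt_pos.2 (p1 t)
  field_simp

lemma trig {t : ℝ} (ht : 0 < t) :
    Real.sqrt (1 + t + t ^ 2) * Real.sqrt (1 - t + t ^ 2) * Real.cos (ph t) = 1 - t ^ 2 ∧
    Real.sqrt (1 + t + t ^ 2) * Real.sqrt (1 - t + t ^ 2) * Real.sin (ph t) =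
      Real.sqrt 3 * t := by
  set R := Real.sqrt (1 + t + t ^ 2) with hR
  set S := Real.sqrt (1 - t + t ^ 2) with hS
  have hRp : 0 < R := Real.sqrt_pos.2 (p1 t)
  have hSp : 0 < S := Real.sqrt_pos.2 (p2 t)
  have hR2 : R ^ 2 = 1 + t + t ^ 2 := Real.sq_sqrt (p1 t).le
  have hS2 : S ^ 2 = 1 - t + t ^ 2 := Real.sq_sqrt (p2 t).le
  have h3 := sq3_pos
  have h32 : Real.sqrt 3 ^ 2 = 3 := Real.sq_sqrt (by norm_num)
  set x := (t - 1 / t) / Real.sqrt 3 with hx
  have hx2 : Real.sqrt (1 + x ^ 2) = R * S / (Real.sqrt 3 * t) := by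
    rw [Real.sqrt_eq_iff_mul_self_eq (by positivity) (by positivity), hx]
    field_simp
    rw [hR2, hS2, h32]
    ring
  have hc : Real.cos (ph t) = -(x / Real.sqrt (1 + x ^ 2)) := by
    rw [ph, add_comm, Real.cos_add_pi_div_two, Real.sin_arctan]
  have hs : Real.sin (ph t) = 1 / Real.sqrt (1 + x ^ 2) := by
    rw [ph, add_comm, Real.sin_add_pi_div_two, Real.cos_arctan]
  rw [hc, hs, hx2, hx]
  constructor
  · field_simp
    ring
  · field_simp

theorem qc_of {t : ℝ} (ht : 0 < t) (h1 : t ≠ 1) {ch : ℂ} (c3 : ch ^ 3 = 1)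
    (cj : (starRingEnd ℂ) ch = ch ^ 2)
    (hch : ((|1 - t| : ℝ) : ℂ) * Complex.exp (Th t * Complex.I) = (1 - t) * ch) :
    QC (K3 t / 3) (t * (K3 t / 3)) (Real.exp (2 * (K3 t / 3)) * ((1 - t) / (1 + t))) ch := by
  have ht1 : (1 + t) ≠ 0 := by linarith
  refine ⟨c3, cj, ?_, ?_⟩
  · field_simp
  · set ka := K3 t / 3 with hka
    obtain ⟨tc, ts⟩ := trig ht
    set R := Real.sqrt (1 + t + t ^ 2) with hR
    set S := Real.sqrt (1 - t + t ^ 2) with hS
    have hRp : 0 < R := Real.sqrt_pos.2 (p1 t)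
    have hSp : 0 < S := Real.sqrt_pos.2 (p2 t)
    have hS2 : S ^ 2 = 1 - t + t ^ 2 := Real.sq_sqrt (p2 t).le
    have hexp := exp_K3 ht h1
    rw [← hR, ← hS] at hexp
    have ht1c : (1 + t : ℂ) ≠ 0 := by exact_mod_cast ht1
    have hRc : (R : ℂ) ≠ 0 := by exact_mod_cast hRp.ne'
    -- the number N
    have hN : (om - t) * (om ^ 2 + t) = (R : ℂ) * S * Complex.exp (ph t * Complex.I) := by
      have e1 : Complex.exp (ph t * Complex.I) = (Real.cos (ph t) : ℂ) +
          (Real.sin (ph t) : ℂ) * Complex.I := by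
        rw [Complex.exp_mul_I, Complex.ofReal_cos, Complex.ofReal_sin]
      have e2 : (R : ℂ) * S * (Real.cos (ph t) : ℂ) = 1 - t ^ 2 := by exact_mod_cast tc
      have e3 : (R : ℂ) * S * (Real.sin (ph t) : ℂ) = Real.sqrt 3 * t := by exact_mod_cast ts
      rw [e1]
      linear_combination om3 - t * two_i - e2 - Complex.I * e3
    have hD : (om + t) * (om ^ 2 + t) = (S : ℂ) ^ 2 := by
      have : (S : ℂ) ^ 2 = 1 - t + t ^ 2 := by exact_mod_cast hS2
      rw [this]
      linear_combination om3 + t * om_sum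
    have hexp2 : Complex.exp (2 * (ka * om)) =
        (Real.exp (2 * ka) : ℂ) * ((Real.exp (-K3 t) : ℂ) *
          Complex.exp ((K3 t / Real.sqrt 3 : ℝ) * Complex.I)) := by
      rw [Complex.ofReal_exp, Complex.ofReal_exp, ← Complex.exp_add, ← Complex.exp_add]
      congr 1
      have h3 : ((Real.sqrt 3 : ℝ) : ℂ) ≠ 0 := by exact_mod_cast sq3_pos.ne'
      have h33 := s3c
      rw [om_eq, hka]
      push_cast
      field_simp
      linear_combination ((K3 t : ℂ) * Complex.I) * h33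
    have hTh : Complex.exp ((K3 t / Real.sqrt 3 : ℝ) * Complex.I) *
        Complex.exp (ph t * Complex.I) = Complex.exp (Th t * Complex.I) := by
      rw [← Complex.exp_add, Th]
      push_cast
      ring_nf
    have hcx : (Real.exp (-K3 t) : ℂ) * ((1 + t) * R) = (|1 - t| : ℝ) * S := by exact_mod_cast hexp
    -- conclude after multiplying by (om^2 + t)
    have hne : (om ^ 2 + t) ≠ 0 := by
      intro h0
      rw [h0, mul_zero] at hD
      have : (S : ℂ) ≠ 0 := by exact_mod_cast hSp.ne'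
      exact this (pow_eq_zero_iff (two_ne_zero) |>.1 hD.symm)
    have hfin : (om - t) * Complex.exp (2 * (ka * om)) * (1 + t) =
        (Real.exp (2 * ka) : ℂ) * (1 - t) * ch * (om + t) := by
      apply mul_right_cancel₀ hne
      have lhs : (om - t) * Complex.exp (2 * (ka * om)) * (1 + t) * (om ^ 2 + t) =
          (Real.exp (2 * ka) : ℂ) * (S ^ 2 * ((|1 - t| : ℝ) * Complex.exp (Th t * Complex.I))) := by
        rw [← hTh]
        calc (om - t) * Complex.exp (2 * (ka * om)) * (1 + t) * (om ^ 2 + t)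
            = ((om - t) * (om ^ 2 + t)) * Complex.exp (2 * (ka * om)) * (1 + t) := by ring
          _ = _ := by
            rw [hN, hexp2]
            linear_combination ((Real.exp (2 * ka) : ℂ) * S * Complex.exp (ph t * Complex.I) *
              Complex.exp ((K3 t / Real.sqrt 3 : ℝ) * Complex.I)) * hcx
      rw [lhs, hch]
      linear_combination (-(Real.exp (2 * ka) : ℂ) * (1 - t) * ch) * hD
    have : (ka * om - (t * ka : ℝ)) * Complex.exp (2 * (ka * om)) * (1 + t) =
        (Real.exp (2 * ka) * ((1 - t) / (1 + t)) : ℝ) * ch * (ka * om + (t * ka : ℝ)) *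
          (1 + t) := by
      rw [Complex.ofReal_mul (Real.exp (2 * ka))]
      generalize Complex.exp (2 * (ka * om)) = X at hfin ⊢
      generalize ((Real.exp (2 * ka) : ℝ) : ℂ) = Y at hfin ⊢
      push_cast
      field_simp
      linear_combination (ka : ℂ) * hfin
    exact mul_right_cancel₀ ht1c this

end Pool.Agent.Q96.SkNum
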