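import Mathlib
import Pool.Agent.Q96.SkNum

/-! Existence of the solutions by the intermediate value theorem, with bounds. -/

open MeasureTheory Set

namespace Pool.Agent.Q96.SkIvt

open SkEig SkNum

lemma ph_nonneg (t : ℝ) : 0 ≤ ph t := by
  have := Real.neg_pi_div_two_lt_arctan ((t - 1 / t) / Real.sqrt 3)
  rw [ph]
  linarith

lemma K3_ge {t : ℝ} (ht : 0 < t) : -Real.log (1 - t) ≤ K3 t := by
  rw [K3]
  have h1 : 0 ≤ Real.log (1 + t) := Real.log_nonneg (by linarith)
  have h2 : Real.log (1 - t + t ^ 2) ≤ Real.log (1 + t + t ^ 2) :=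
    Real.log_le_log (p2 t) (by linarith)
  linarith

lemma K3_le {t : ℝ} (ht : 0 < t) : K3 t ≤ Real.log (1 + t) - Real.log (1 - t) +
    Real.log 3 / 2 := by
  rw [K3]
  have h2 : Real.log (1 + t + t ^ 2) ≤ Real.log (3 * (1 - t + t ^ 2)) :=
    Real.log_le_log (p1 t) (by nlinarith [sq_nonneg (t - 1)])
  rw [Real.log_mul (by norm_num) (p2 t).ne'] at h2
  linarith

lemma K3_pos {t : ℝ} (ht : 0 < t) (h2 : t < 2) : 0 < K3 t := by
  rw [K3]
  have h1 : 0 < Real.log (1 + t) := Real.log_pos (by linarith)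
  have h2 : Real.log (1 - t + t ^ 2) ≤ Real.log (1 + t + t ^ 2) :=
    Real.log_le_log (p2 t) (by linarith)
  have h3 : Real.log (1 - t) ≤ 0 := by
    rw [← Real.log_abs]
    refine Real.log_nonpos (abs_nonneg _) ?_
    rw [abs_le]
    constructor <;> linarith
  linarith

lemma Th_ge {t τ : ℝ} (ht : 0 < t) (h1 : t ≠ 1) (h : |1 - t| ≤ Real.exp (-(Real.sqrt 3 * τ))) :
    τ ≤ Th t := by
  have h0 : 0 < |1 - t| := abs_pos.2 (sub_ne_zero.2 (Ne.symm h1))
  have h2 := Real.log_le_log h0 h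
  rw [Real.log_abs, Real.log_exp] at h2
  have h3 := K3_ge ht
  have h4 := ph_nonneg t
  have h5 : τ ≤ K3 t / Real.sqrt 3 := by
    rw [le_div_iff₀ sq3_pos]
    linarith
  rw [Th]
  linarith

lemma Th_cont {s : Set ℝ} (h0 : ∀ t ∈ s, 0 < t) (h1 : ∀ t ∈ s, t ≠ 1) : ContinuousOn Th s := by
  unfold Th K3 ph
  have c1 : ContinuousOn (fun t : ℝ => Real.log (1 + t)) s :=
    ContinuousOn.log (by fun_prop) fun t ht => by have := h0 t ht; linarith
  have c2 : ContinuousOn (fun t : ℝ => Real.log (1 - t)) s :=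
    ContinuousOn.log (by fun_prop) fun t ht => sub_ne_zero.2 (Ne.symm (h1 t ht))
  have c3 : ContinuousOn (fun t : ℝ => Real.log (1 + t + t ^ 2)) s :=
    ContinuousOn.log (by fun_prop) fun t _ => (p1 t).ne'
  have c4 : ContinuousOn (fun t : ℝ => Real.log (1 - t + t ^ 2)) s :=
    ContinuousOn.log (by fun_prop) fun t _ => (p2 t).ne'
  have c5 : ContinuousOn (fun t : ℝ => Real.pi / 2 + Real.arctan ((t - 1 / t) / Real.sqrt 3)) s := by
    refine continuousOn_const.add ?_
    refine Real.continuous_arctan.comp_continuousOn ?_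
    refine ContinuousOn.div_const ?_ _
    refine continuousOn_id.sub ?_
    exact continuousOn_const.div continuousOn_id fun t ht => (h0 t ht).ne'
  exact (((c1.sub c2).add ((c3.sub c4).div_const 2)).div_const _).add c5

lemma ivt_lo {t1 τ : ℝ} (h0 : 0 < t1) (h1 : t1 < 1) (h : Th t1 ≤ τ) :
    ∃ t, t1 ≤ t ∧ t < 1 ∧ Th t = τ := by
  set e := Real.exp (-(Real.sqrt 3 * τ)) with he
  have hep : 0 < e := Real.exp_pos _
  set t2 := max t1 (1 - e) with ht2
  have h12 : t1 ≤ t2 := le_max_left _ _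
  have h21 : t2 < 1 := max_lt h1 (by linarith)
  have h2e : 1 - e ≤ t2 := le_max_right _ _
  have hT2 : τ ≤ Th t2 := Th_ge (by linarith) h21.ne (by
    rw [abs_of_pos (by linarith), ← he]; linarith)
  have hc : ContinuousOn Th (Icc t1 t2) := Th_cont (fun t ht => by linarith [ht.1])
    fun t ht => (lt_of_le_of_lt ht.2 h21).ne
  obtain ⟨t, ht, hTt⟩ := intermediate_value_Icc h12 hc ⟨h, hT2⟩
  exact ⟨t, ht.1, lt_of_le_of_lt ht.2 h21, hTt⟩

lemma ivt_hi {t1 τ : ℝ} (h1 : 1 < t1) (h : Th t1 ≤ τ) :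
    ∃ t, 1 < t ∧ t ≤ t1 ∧ Th t = τ := by
  set e := Real.exp (-(Real.sqrt 3 * τ)) with he
  have hep : 0 < e := Real.exp_pos _
  set t2 := min t1 (1 + e) with ht2
  have h12 : t2 ≤ t1 := min_le_left _ _
  have h21 : 1 < t2 := lt_min h1 (by linarith)
  have h2e : t2 ≤ 1 + e := min_le_right _ _
  have hT2 : τ ≤ Th t2 := Th_ge (by linarith) h21.ne' (by
    rw [abs_of_neg (by linarith), ← he]; linarith)
  have hc : ContinuousOn Th (Icc t2 t1) := Th_cont (fun t ht => by linarith [ht.1])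
    fun t ht => (lt_of_lt_of_le h21 ht.1).ne'
  obtain ⟨t, ht, hTt⟩ := intermediate_value_Icc' h12 hc ⟨h, hT2⟩
  exact ⟨t, lt_of_lt_of_le h21 ht.1, ht.2, hTt⟩

/-- the normalised eigenvalue -/
noncomputable def nu (t : ℝ) : ℝ := 6 * Real.sqrt 3 / Real.pi * (t * (K3 t / 3))

lemma nu_eq {t q : ℝ} (h : Th t = Real.pi * (q + 3) / 6) :
    nu t = t * (q - 6 / Real.pi * Real.arctan ((t - 1 / t) / Real.sqrt 3)) := by
  have h3 := sq3_pos
  have h33 : Real.sqrt 3 * Real.sqrt 3 = 3 := s3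
  have hK : K3 t = Real.sqrt 3 * (Real.pi * (q + 3) / 6 - ph t) := by
    rw [← h, Th]
    field_simp
    ring
  have hpi := Real.pi_pos
  rw [nu, hK, ph]
  have : 6 * Real.sqrt 3 / Real.pi * (t * (Real.sqrt 3 * (Real.pi * (q + 3) / 6 -
      (Real.pi / 2 + Real.arctan ((t - 1 / t) / Real.sqrt 3))) / 3)) =
      6 * (Real.sqrt 3 * Real.sqrt 3) / Real.pi * (t * ((Real.pi * (q + 3) / 6 -
      (Real.pi / 2 + Real.arctan ((t - 1 / t) / Real.sqrt 3))) / 3)) := by ring
  rw [this, h33]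
  field_simp
  ring

lemma arctan_le {x : ℝ} (hx : 0 ≤ x) : Real.arctan x ≤ x := by
  have h0 : 0 ≤ Real.arctan x := by
    rw [← Real.arctan_zero]; exact Real.arctan_mono hx
  have h1 := Real.le_tan h0 (Real.arctan_lt_pi_div_two x)
  rwa [Real.tan_arctan] at h1

lemma C_le : 6 / (Real.pi * Real.sqrt 3) ≤ 1.11 := by
  have h1 := Real.pi_gt_d6
  have h2 := sq3_lo
  rw [div_le_iff₀ (by positivity)]
  nlinarith

/-- bound below one -/
lemma nu_lt {t q : ℝ} (h0 : 0 < t) (h1 : t < 1) (h : Th t = Real.pi * (q + 3) / 6) :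
    t * q ≤ nu t ∧ nu t ≤ t * q + 1.11 * (1 - t ^ 2) := by
  have hpi := Real.pi_pos
  have h3 := sq3_pos
  rw [nu_eq h]
  have hx : (t - 1 / t) / Real.sqrt 3 = -((1 / t - t) / Real.sqrt 3) := by ring
  have hx0 : 0 ≤ (1 / t - t) / Real.sqrt 3 := by
    have : 1 ≤ 1 / t := by rw [le_div_iff₀ h0]; linarith
    apply div_nonneg _ h3.le
    linarith
  rw [hx, Real.arctan_neg]
  have ha := arctan_le hx0
  have ha0 : 0 ≤ Real.arctan ((1 / t - t) / Real.sqrt 3) := by
    rw [← Real.arctan_zero]; exact Real.arctan_mono hx0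
  constructor
  · have : 0 ≤ t * (6 / Real.pi * Real.arctan ((1 / t - t) / Real.sqrt 3)) := by positivity
    linarith
  · have e1 : t * (6 / Real.pi * Real.arctan ((1 / t - t) / Real.sqrt 3)) ≤
        t * (6 / Real.pi * ((1 / t - t) / Real.sqrt 3)) := by gcongr
    have e2 : t * (6 / Real.pi * ((1 / t - t) / Real.sqrt 3)) =
        6 / (Real.pi * Real.sqrt 3) * (1 - t ^ 2) := by
      field_simp
    have e3 : 6 / (Real.pi * Real.sqrt 3) * (1 - t ^ 2) ≤ 1.11 * (1 - t ^ 2) := by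
      have := C_le
      have : 0 ≤ 1 - t ^ 2 := by nlinarith
      nlinarith [C_le]
    linarith

/-- bound above one -/
lemma nu_gt {t q : ℝ} (h1 : 1 < t) (h : Th t = Real.pi * (q + 3) / 6) :
    t * q - 1.11 * (t ^ 2 - 1) ≤ nu t ∧ nu t ≤ t * q := by
  have h0 : 0 < t := by linarith
  have hpi := Real.pi_pos
  have h3 := sq3_pos
  rw [nu_eq h]
  have hx0 : 0 ≤ (t - 1 / t) / Real.sqrt 3 := by
    have : 1 / t ≤ 1 := by rw [div_le_iff₀ h0]; linarith
    apply div_nonneg _ h3.le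
    linarith
  have ha := arctan_le hx0
  have ha0 : 0 ≤ Real.arctan ((t - 1 / t) / Real.sqrt 3) := by
    rw [← Real.arctan_zero]; exact Real.arctan_mono hx0
  constructor
  · have e1 : t * (6 / Real.pi * Real.arctan ((t - 1 / t) / Real.sqrt 3)) ≤
        t * (6 / Real.pi * ((t - 1 / t) / Real.sqrt 3)) := by gcongr
    have e2 : t * (6 / Real.pi * ((t - 1 / t) / Real.sqrt 3)) =
        6 / (Real.pi * Real.sqrt 3) * (t ^ 2 - 1) := by
      field_simp
    have e3 : 6 / (Real.pi * Real.sqrt 3) * (t ^ 2 - 1) ≤ 1.11 * (t ^ 2 - 1) := by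
      have : 0 ≤ t ^ 2 - 1 := by nlinarith
      nlinarith [C_le]
    linarith
  · have : 0 ≤ t * (6 / Real.pi * Real.arctan ((t - 1 / t) / Real.sqrt 3)) := by positivity
    linarith

/-! ### the three families -/

lemma sol1 : ∃ t : ℝ, 1 / 2 ≤ t ∧ t < 1 ∧ Th t = Real.pi * (1 + 3) / 6 := by
  apply ivt_lo (by norm_num) (by norm_num)
  have hpi := Real.pi_gt_d6
  have h3 := sq3_pos
  have h3l := sq3_lo
  have h33 : Real.sqrt 3 * Real.sqrt 3 = 3 := s3
  have hK : K3 (1 / 2) ≤ Real.sqrt 3 * (Real.pi / 3) := by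
    have e : K3 (1 / 2) = Real.log 21 / 2 := by
      rw [K3]
      have a1 : (1 : ℝ) + 1 / 2 = 3 / 2 := by norm_num
      have a2 : (1 : ℝ) - 1 / 2 = 1 / 2 := by norm_num
      have a3 : (1 : ℝ) + 1 / 2 + (1 / 2) ^ 2 = 7 / 4 := by norm_num
      have a4 : (1 : ℝ) - 1 / 2 + (1 / 2) ^ 2 = 3 / 4 := by norm_num
      rw [a3, a4, a1, a2, Real.log_div, Real.log_div, Real.log_div, Real.log_div, Real.log_one]
      · have : (21 : ℝ) = 3 * 7 := by norm_num
        rw [this, Real.log_mul (by norm_num) (by norm_num)]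
        ring
      all_goals norm_num
    have e2 : Real.log 21 ≤ 5 * Real.log 2 := by
      have : (5 : ℝ) * Real.log 2 = Real.log (2 ^ 5) := by rw [Real.log_pow]; norm_num
      rw [this]
      exact Real.log_le_log (by norm_num) (by norm_num)
    have e3 := Real.log_two_lt_d9
    rw [e]
    nlinarith
  have hph : ph (1 / 2) ≤ Real.pi / 3 := by
    have e1 : ((1 / 2 : ℝ) - 1 / (1 / 2)) / Real.sqrt 3 ≤ -(1 / Real.sqrt 3) := by
      rw [neg_eq_neg_one_mul, ← mul_div_assoc, div_le_div_iff_of_pos_right h3]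
      norm_num
    have e2 := Real.arctan_mono e1
    rw [Real.arctan_neg] at e2
    have e3 : Real.arctan (1 / Real.sqrt 3) = Real.pi / 6 := by
      rw [← Real.tan_pi_div_six, Real.arctan_tan] <;> linarith [Real.pi_pos]
    rw [e3] at e2
    rw [ph]
    linarith
  rw [Th]
  have : K3 (1 / 2) / Real.sqrt 3 ≤ Real.pi / 3 := by
    rw [div_le_iff₀ h3]
    linarith
  linarith

lemma logs : Real.log 2 < 0.6932 ∧ Real.log 3 / 2 < 0.6932 := by
  have h := Real.log_two_lt_d9
  have h2 : Real.log 3 ≤ 2 * Real.log 2 := by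
    have : (2 : ℝ) * Real.log 2 = Real.log (2 ^ 2) := by rw [Real.log_pow]; norm_num
    rw [this]
    exact Real.log_le_log (by norm_num) (by norm_num)
  constructor <;> linarith

lemma s3pi : 0.9068 ≤ Real.sqrt 3 * Real.pi / 6 := by
  have := Real.pi_gt_d6
  have := sq3_lo
  nlinarith

lemma solA (n : ℕ) : ∃ t : ℝ, 1 - 1 / (2 * (4 * n + 5)) ≤ t ∧ t < 1 ∧
    Th t = Real.pi * ((4 * n + 5 : ℝ) + 3) / 6 := by
  set q : ℝ := 4 * n + 5 with hq
  have hn : (0 : ℝ) ≤ n := n.cast_nonneg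
  have hq5 : 5 ≤ q := by rw [hq]; linarith
  set t1 : ℝ := 1 - 1 / (2 * q) with ht1
  have hd : 1 / (2 * q) ≤ 1 / 10 := by
    apply one_div_le_one_div_of_le (by norm_num); linarith
  have hd0 : 0 < 1 / (2 * q) := by positivity
  have h0 : 0 < t1 := by linarith
  have h1 : t1 < 1 := by linarith
  apply ivt_lo h0 h1
  have h3 := sq3_pos
  have hK : K3 t1 ≤ Real.sqrt 3 * (Real.pi * q / 6) := by
    have e1 := K3_le h0
    have e2 : Real.log (1 + t1) ≤ Real.log 2 := Real.log_le_log (by linarith) (by linarith)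
    have e3 : -Real.log (1 - t1) = Real.log (2 * q) := by
      have : 1 - t1 = (2 * q)⁻¹ := by rw [ht1]; ring
      rw [this, Real.log_inv, neg_neg]
    have e4 : Real.log (2 * q) ≤ 4 * Real.log 2 + (q - 5) / 5 := by
      have a1 : 2 * q = 10 * (q / 5) := by ring
      have a2 : Real.log 10 ≤ 4 * Real.log 2 := by
        have : (4 : ℝ) * Real.log 2 = Real.log (2 ^ 4) := by rw [Real.log_pow]; norm_num
        rw [this]
        exact Real.log_le_log (by norm_num) (by norm_num)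
      have a3 : Real.log (q / 5) ≤ q / 5 - 1 := Real.log_le_sub_one_of_pos (by positivity)
      rw [a1, Real.log_mul (by norm_num) (by positivity)]
      linarith
    obtain ⟨l1, l2⟩ := logs
    have hs := s3pi
    have hs2 : 0.9068 * q ≤ Real.sqrt 3 * (Real.pi * q / 6) := by
      have : Real.sqrt 3 * (Real.pi * q / 6) = Real.sqrt 3 * Real.pi / 6 * q := by ring
      rw [this]
      exact mul_le_mul_of_nonneg_right hs (by linarith)
    linarith
  have hph : ph t1 ≤ Real.pi / 2 := by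
    rw [ph]
    have : Real.arctan ((t1 - 1 / t1) / Real.sqrt 3) ≤ 0 := by
      rw [← Real.arctan_zero]
      apply Real.arctan_mono
      have : 1 ≤ 1 / t1 := by rw [le_div_iff₀ h0]; linarith
      exact div_nonpos_of_nonpos_of_nonneg (by linarith) h3.le
    linarith
  rw [Th]
  have : K3 t1 / Real.sqrt 3 ≤ Real.pi * q / 6 := by
    rw [div_le_iff₀ h3]
    linarith
  linarith

lemma solB (n : ℕ) : ∃ t : ℝ, 1 < t ∧ t ≤ 1 + 1 / (10 * 4 ^ n * (4 * n + 7)) ∧
    Th t = Real.pi * ((4 * n + 7 : ℝ) + 3) / 6 := by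
  set q : ℝ := 4 * n + 7 with hq
  have hn : (0 : ℝ) ≤ n := n.cast_nonneg
  have hq5 : 7 ≤ q := by rw [hq]; linarith
  have h4n : (1 : ℝ) ≤ 4 ^ n := one_le_pow₀ (by norm_num)
  set e : ℝ := 1 / (10 * 4 ^ n * q) with he
  have he0 : 0 < e := by positivity
  have hel : e ≤ 1 / 70 := by
    apply one_div_le_one_div_of_le (by norm_num)
    nlinarith
  have h0 : (0 : ℝ) < 1 + e := by linarith
  apply ivt_hi (by linarith)
  have h3 := sq3_pos
  have h3l := sq3_lo
  have hK : K3 (1 + e) + 2 * e ≤ Real.sqrt 3 * (Real.pi * q / 6) := by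
    have e1 := K3_le h0
    have e2 : Real.log (1 + (1 + e)) - Real.log (1 - (1 + e)) ≤
        8 * Real.log 2 + n * (2 * Real.log 2) + (q - 7) / 7 := by
      have a1 : Real.log (1 - (1 + e)) = -(Real.log (10 * 4 ^ n * q)) := by
        have : 1 - (1 + e) = -((10 * 4 ^ n * q)⁻¹) := by rw [he]; ring
        rw [this, Real.log_neg_eq_log, Real.log_inv]
      have a2 : 10 * 4 ^ n * q = 70 * (4 ^ n * (q / 7)) := by ring
      have a3 : Real.log (q / 7) ≤ q / 7 - 1 := Real.log_le_sub_one_of_pos (by positivity)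
      have a4 : Real.log ((4 : ℝ) ^ n) = n * (2 * Real.log 2) := by
        have : (4 : ℝ) = 2 ^ 2 := by norm_num
        rw [Real.log_pow, this, Real.log_pow]
        norm_num
      have a5 : Real.log (1 + (1 + e)) + Real.log 70 ≤ 8 * Real.log 2 := by
        have : (8 : ℝ) * Real.log 2 = Real.log (2 ^ 8) := by rw [Real.log_pow]; norm_num
        rw [this, ← Real.log_mul (by linarith) (by norm_num)]
        exact Real.log_le_log (by nlinarith) (by nlinarith)
      rw [a1, a2, Real.log_mul (by norm_num) (by positivity),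
        Real.log_mul (by positivity) (by positivity), a4]
      linarith
    obtain ⟨l1, l2⟩ := logs
    have hs := s3pi
    have hs2 : 0.9068 * q ≤ Real.sqrt 3 * (Real.pi * q / 6) := by
      have : Real.sqrt 3 * (Real.pi * q / 6) = Real.sqrt 3 * Real.pi / 6 * q := by ring
      rw [this]
      exact mul_le_mul_of_nonneg_right hs (by linarith)
    have l3 : n * (2 * Real.log 2) ≤ n * 1.3864 :=
      mul_le_mul_of_nonneg_left (by linarith) hn
    rw [hq] at *
    linarith
  have hph : ph (1 + e) ≤ Real.pi / 2 + 2 * e / Real.sqrt 3 := by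
    rw [ph]
    have hx0 : 0 ≤ ((1 + e) - 1 / (1 + e)) / Real.sqrt 3 := by
      have : 1 / (1 + e) ≤ 1 := by rw [div_le_iff₀ h0]; linarith
      apply div_nonneg _ h3.le
      linarith
    have h1 := arctan_le hx0
    have h2 : ((1 + e) - 1 / (1 + e)) / Real.sqrt 3 ≤ 2 * e / Real.sqrt 3 := by
      apply div_le_div_of_nonneg_right _ h3.le
      have : 1 - e ≤ 1 / (1 + e) := by
        rw [le_div_iff₀ h0]
        nlinarith
      linarith
    linarith
  rw [Th]
  have : K3 (1 + e) / Real.sqrt 3 + 2 * e / Real.sqrt 3 ≤ Real.pi * q / 6 := by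
    rw [← add_div, div_le_iff₀ h3]
    linarith
  linarith

end Pool.Agent.Q96.SkIvt
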