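import Mathlib
import Pool.Agent.Q96.SkIvt

/-! The whole family of eigenfunctions and the bound on the min-max values. -/

open MeasureTheory Set

namespace Pool.Agent.Q96.SkFam

open SkGreen SkTri SkUp SkEig SkNd SkNum SkIvt

lemma exp_om : Complex.exp ((2 * Real.pi / 3 : ℝ) * Complex.I) = om := by
  rw [Complex.exp_mul_I, ← Complex.ofReal_cos, ← Complex.ofReal_sin]
  have h1 : Real.cos (2 * Real.pi / 3) = -1 / 2 := by
    have : 2 * Real.pi / 3 = Real.pi - Real.pi / 3 := by ring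
    rw [this, Real.cos_pi_sub, Real.cos_pi_div_three]
    norm_num
  have h2 : Real.sin (2 * Real.pi / 3) = Real.sqrt 3 / 2 := by
    have : 2 * Real.pi / 3 = Real.pi - Real.pi / 3 := by ring
    rw [this, Real.sin_pi_sub, Real.sin_pi_div_three]
  rw [h1, h2, om_eq]
  push_cast
  ring

lemma exp_om_pow (p : ℕ) : Complex.exp ((2 * Real.pi / 3 * p : ℝ) * Complex.I) = om ^ p := by
  rw [← exp_om, ← Complex.exp_nat_mul]
  push_cast
  ring_nf

lemma ch3 (p : ℕ) : (om ^ p) ^ 3 = 1 := by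
  rw [← pow_mul, mul_comm, pow_mul, om3, one_pow]

lemma chj (p : ℕ) : (starRingEnd ℂ) (om ^ p) = (om ^ p) ^ 2 := by
  rw [map_pow, om_conj, ← pow_mul, ← pow_mul, mul_comm]

lemma fam1 : ∃ (ka l E : ℝ) (ch : ℂ), 0 < ka ∧ QC ka l E ch ∧ 0 < l ∧
    6 * Real.sqrt 3 / Real.pi * l ≤ 1.34 := by
  obtain ⟨t, h0, h1, hT⟩ := sol1
  have hK : 0 < K3 t := K3_pos (by linarith) (by linarith)
  refine ⟨K3 t / 3, t * (K3 t / 3), _, om ^ 1, by positivity,
    qc_of (by linarith) h1.ne (ch3 1) (chj 1) ?_, by positivity, ?_⟩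
  · rw [abs_of_pos (by linarith), hT]
    have : Real.pi * (1 + 3) / 6 = 2 * Real.pi / 3 * (1 : ℕ) := by
      push_cast; ring
    rw [this, exp_om_pow]
    push_cast
    rfl
  · have := (nu_lt (by linarith) h1 hT).2
    rw [nu] at this
    nlinarith [sq_nonneg (t - 0.45)]

lemma famj (j : ℕ) : ∃ (ka l E : ℝ) (ch : ℂ), 0 < ka ∧ QC ka l E ch ∧
    (2 * j + 5 : ℝ) - 1 / 2 ≤ 6 * Real.sqrt 3 / Real.pi * l ∧
    6 * Real.sqrt 3 / Real.pi * l ≤ (2 * j + 5 : ℝ) + 1 / 5 * (1 / 2) ^ j := by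
  rcases Nat.even_or_odd' j with ⟨n, rfl | rfl⟩
  · obtain ⟨t, h0, h1, hT⟩ := solA n
    have hn : (0 : ℝ) ≤ n := n.cast_nonneg
    have hd : 1 / (2 * (4 * n + 5 : ℝ)) ≤ 1 / 10 := by
      apply one_div_le_one_div_of_le (by norm_num); linarith
    have htp : 0 < t := by linarith
    have hK : 0 < K3 t := K3_pos htp (by linarith)
    have hnu := nu_lt htp h1 hT
    refine ⟨K3 t / 3, t * (K3 t / 3), _, om ^ (n + 2), by positivity,
      qc_of htp h1.ne (ch3 _) (chj _) ?_, ?_, ?_⟩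
    · rw [abs_of_pos (by linarith), hT]
      have : Real.pi * ((4 * n + 5 : ℝ) + 3) / 6 = 2 * Real.pi / 3 * (n + 2 : ℕ) := by
        push_cast; ring
      rw [this, exp_om_pow]
      push_cast
      rfl
    · rw [nu] at hnu
      have : (4 * n + 5 : ℝ) * (1 - 1 / (2 * (4 * n + 5))) ≤ (4 * n + 5) * t := by
        apply mul_le_mul_of_nonneg_left h0; linarith
      have e : (4 * n + 5 : ℝ) * (1 - 1 / (2 * (4 * n + 5))) = 4 * n + 5 - 1 / 2 := by
        field_simp
      push_cast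
      linarith [hnu.1]
    · rw [nu] at hnu
      have hp : (0 : ℝ) < (1 / 2) ^ (2 * n) := by positivity
      have e : t * (4 * n + 5) + 1.11 * (1 - t ^ 2) ≤ 4 * n + 5 := by nlinarith
      push_cast
      linarith [hnu.2]
  · obtain ⟨t, h1, h0, hT⟩ := solB n
    have hn : (0 : ℝ) ≤ n := n.cast_nonneg
    have h4n : (1 : ℝ) ≤ 4 ^ n := one_le_pow₀ (by norm_num)
    have hd : 1 / (10 * 4 ^ n * (4 * n + 7 : ℝ)) ≤ 1 / 70 := by
      apply one_div_le_one_div_of_le (by norm_num); nlinarith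
    have htp : 0 < t := by linarith
    have hK : 0 < K3 t := K3_pos htp (by linarith)
    have hnu := nu_gt h1 hT
    refine ⟨K3 t / 3, t * (K3 t / 3), _, om ^ (n + 1), by positivity,
      qc_of htp h1.ne' (ch3 _) (chj _) ?_, ?_, ?_⟩
    · rw [abs_of_neg (by linarith), hT]
      have : Real.pi * ((4 * n + 7 : ℝ) + 3) / 6 = Real.pi + 2 * Real.pi / 3 * (n + 1 : ℕ) := by
        push_cast; ring
      rw [this, Complex.ofReal_add, add_mul, Complex.exp_add, exp_om_pow, Complex.exp_pi_mul_I]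
      push_cast
      ring
    · rw [nu] at hnu
      have e : (4 * n + 7 : ℝ) ≤ t * (4 * n + 7) - 1.11 * (t ^ 2 - 1) := by nlinarith
      push_cast
      linarith [hnu.1]
    · rw [nu] at hnu
      have : (4 * n + 7 : ℝ) * t ≤ (4 * n + 7) * (1 + 1 / (10 * 4 ^ n * (4 * n + 7))) := by
        apply mul_le_mul_of_nonneg_left h0; linarith
      have e : (4 * n + 7 : ℝ) * (1 + 1 / (10 * 4 ^ n * (4 * n + 7))) =
          4 * n + 7 + 1 / 5 * (1 / 2) ^ (2 * n + 1) := by
        have e4 : ((1 : ℝ) / 2) ^ (2 * n + 1) = 1 / 2 * (1 / 4 ^ n) := by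
          rw [pow_succ, pow_mul, show ((1 : ℝ) / 2) ^ 2 = 1 / 4 by norm_num, one_div_pow]
          ring
        rw [e4]
        field_simp
        ring
      push_cast
      linarith [hnu.2]

/-- group of an index -/
def grp (k : ℕ) : ℕ := if k = 0 then 0 else if k ≤ 2 then 1 else if k = 3 then 2 else k / 2 + 1

/-- second member of a pair -/
def od (k : ℕ) : Prop := k = 2 ∨ (4 ≤ k ∧ k % 2 = 1)

instance (k : ℕ) : Decidable (od k) := by unfold od; infer_instance

/-- coefficient -/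
noncomputable def gam (k : ℕ) : ℂ := if od k then Complex.I else 1

lemma grp_inj {i j : ℕ} (h : grp i = grp j) (ho : od i ↔ od j) : i = j := by
  unfold grp od at *
  split_ifs at h <;> omega

lemma grp_mono : Monotone grp := by
  intro i j h
  unfold grp
  split_ifs <;> omega

/-- data of the eigenfunctions -/
structure Data where
  ka : ℕ → ℝ
  l : ℕ → ℝ
  E : ℕ → ℝ
  ch : ℕ → ℂ
  ka0 : ∀ p, 0 < ka p
  qc : ∀ p, QC (ka p) (l p) (E p) (ch p)
  l0 : 0 < l 0
  l0' : 6 * Real.sqrt 3 / Real.pi * l 0 ≤ 1.34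
  lo : ∀ j : ℕ, (2 * j + 5 : ℝ) - 1 / 2 ≤ 6 * Real.sqrt 3 / Real.pi * l (j + 1)
  hi : ∀ j : ℕ, 6 * Real.sqrt 3 / Real.pi * l (j + 1) ≤ (2 * j + 5 : ℝ) + 1 / 5 * (1 / 2) ^ j

lemma exists_data : Nonempty Data := by
  obtain ⟨ka1, l1, E1, ch1, a1, a2, a3, a4⟩ := fam1
  choose ka l E ch b1 b2 b3 b4 using famj
  exact ⟨{
    ka := fun p => match p with | 0 => ka1 | j + 1 => ka j
    l := fun p => match p with | 0 => l1 | j + 1 => l j
    E := fun p => match p with | 0 => E1 | j + 1 => E j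
    ch := fun p => match p with | 0 => ch1 | j + 1 => ch j
    ka0 := fun p => match p with | 0 => a1 | j + 1 => b1 j
    qc := fun p => match p with | 0 => a2 | j + 1 => b2 j
    l0 := a3
    l0' := a4
    lo := b3
    hi := b4 }⟩

variable (D : Data)

/-- function with group `g` -/
noncomputable def HH (g : ℕ) (ga : ℂ) : ℂ → ℂ :=
  match g with
  | 0 => fun _ => ga
  | 1 => GG (D.ka 0) (D.E 0) (D.ch 0) ga
  | 2 => fun z => ga * (z ^ 3 + 2)
  | j + 3 => GG (D.ka (j + 1)) (D.E (j + 1)) (D.ch (j + 1)) ga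

/-- eigenvalue of the group `g` -/
noncomputable def La (g : ℕ) : ℝ :=
  match g with
  | 0 => 0
  | 1 => D.l 0
  | 2 => 1
  | j + 3 => D.l (j + 1)

lemma HH_bc (g : ℕ) (ga : ℂ) (h : g = 0 ∨ g = 2 → ga = 1) : BC (HH D g ga) (La D g) := by
  match g with
  | 0 =>
    rw [h (Or.inl rfl)]
    exact bc_const
  | 1 => exact bc_GG (D.qc 0) ga
  | 2 =>
    rw [h (Or.inr rfl)]
    have : HH D 2 1 = fun z => z ^ 3 + 2 := by
      funext z
      simp [HH]
    rw [this]
    exact bc_cubic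
  | j + 3 => exact bc_GG (D.qc (j + 1)) ga

lemma GG_lin (ka E : ℝ) (ch : ℂ) (s : Finset ℕ) (c : ℕ → ℝ) (ga : ℕ → ℂ) (z : ℂ) :
    GG ka E ch (∑ i ∈ s, (c i : ℂ) * ga i) z = ∑ i ∈ s, (c i : ℂ) * GG ka E ch (ga i) z := by
  simp only [GG, map_sum, map_mul, Complex.conj_ofReal, Finset.sum_mul]
  rw [← Finset.sum_add_distrib]
  refine Finset.sum_congr rfl fun i _ => by ring

lemma HH_lin (g : ℕ) (s : Finset ℕ) (c : ℕ → ℝ) (ga : ℕ → ℂ) (z : ℂ) :
    HH D g (∑ i ∈ s, (c i : ℂ) * ga i) z = ∑ i ∈ s, (c i : ℂ) * HH D g (ga i) z := by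
  match g with
  | 0 => rfl
  | 1 => exact GG_lin _ _ _ s c ga z
  | 2 =>
    simp only [HH, Finset.sum_mul]
    refine Finset.sum_congr rfl fun i _ => by ring
  | j + 3 => exact GG_lin _ _ _ s c ga z

lemma HH_nd (g : ℕ) (ga : ℂ) (h : g = 0 ∨ g = 2 → ga.im = 0) {r : ℝ} (hr : 0 < r)
    (hz : ∀ y ∈ Ioo (-r) r, (HH D g ga (1 + y * Complex.I)).re = 0) : ga = 0 := by
  match g with
  | 0 =>
    have h1 := hz 0 ⟨by linarith, hr⟩
    simp only [HH] at h1
    exact Complex.ext h1 (h (Or.inl rfl))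
  | 1 => exact nd (D.ka0 0) (D.qc 0) hr hz
  | 2 =>
    have h1 := hz 0 ⟨by linarith, hr⟩
    simp only [HH, Complex.ofReal_zero, zero_mul, add_zero, one_pow] at h1
    have h2 : ga.re = 0 := by
      simp at h1
      rcases h1 with h1 | h1
      · exact h1
      · norm_num at h1
    exact Complex.ext h2 (h (Or.inr rfl))
  | j + 3 => exact nd (D.ka0 (j + 1)) (D.qc (j + 1)) hr hz

lemma cpos : 0 < 6 * Real.sqrt 3 / Real.pi := by
  have := Real.pi_pos
  have := sq3_pos
  positivity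

lemma nu3 : 3.3 ≤ 6 * Real.sqrt 3 / Real.pi * 1 ∧ 6 * Real.sqrt 3 / Real.pi * 1 ≤ 3.31 := by
  have h1 := Real.pi_gt_d6
  have h2 := Real.pi_lt_d6
  have h3 := sq3_lo
  have h4 := sq3_hi
  have hp := Real.pi_pos
  rw [mul_one]
  constructor
  · rw [le_div_iff₀ hp]; nlinarith
  · rw [div_le_iff₀ hp]; nlinarith

lemma La_strictMono : StrictMono (La D) := by
  apply strictMono_nat_of_lt_succ
  have hc := cpos
  have key : ∀ x y : ℝ, 6 * Real.sqrt 3 / Real.pi * x < 6 * Real.sqrt 3 / Real.pi * y → x < y :=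
    fun x y h => lt_of_mul_lt_mul_left h hc.le
  intro g
  match g with
  | 0 => exact D.l0
  | 1 =>
    apply key
    have := nu3.1
    have := D.l0'
    simp only [La]
    linarith
  | 2 =>
    apply key
    have := nu3.2
    have := D.lo 0
    simp only [La]
    norm_num at this ⊢
    norm_num at *
    linarith
  | j + 3 =>
    apply key
    have h1 := D.hi j
    have h2 := D.lo (j + 1)
    have h3 : ((1 : ℝ) / 2) ^ j ≤ 1 := pow_le_one₀ (by norm_num) (by norm_num)
    simp only [La]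
    push_cast at h2
    linarith

/-- the family on the triangle -/
noncomputable def fam (m r : ℂ) (k : ℕ) : ℂ → ℂ :=
  fun z => HH D (grp k) (gam k) ((z - m) / r)

lemma gam_spec (k : ℕ) (h : grp k = 0 ∨ grp k = 2) : gam k = 1 := by
  have : ¬ od k := by
    intro ho
    unfold od at ho
    rcases ho with rfl | ⟨h4, h5⟩
    · simp [grp] at h
    · have : grp k = k / 2 + 1 := by
        unfold grp
        split_ifs <;> omega
      omega
  rw [gam, if_neg this]

lemma fam_eig {m r : ℂ} (hr : r ≠ 0) (k : ℕ) :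
    IsEig (m - 2 * r) (vA r) (vB r) (fam D m r k) (La D (grp k) / ‖r‖) :=
  isEig_of_BC (HH_bc D (grp k) (gam k) (gam_spec k)) hr

lemma gam_re (k : ℕ) : (gam k).re = if od k then 0 else 1 := by
  unfold gam; split_ifs <;> simp

lemma gam_im (k : ℕ) : (gam k).im = if od k then 1 else 0 := by
  unfold gam; split_ifs <;> simp

lemma fam_nd {m r : ℂ} (hr : r ≠ 0) (s : Finset ℕ) (c : ℕ → ℝ) (μ : ℝ)
    (hs : ∀ i ∈ s, La D (grp i) / ‖r‖ = μ)
    (hb : bb (m - 2 * r) (vA r) (vB r) (cmb (fam D m r) s c) (cmb (fam D m r) s c) = 0) :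
    ∀ i ∈ s, c i = 0 := by
  intro i hi
  have hn : ‖r‖ ≠ 0 := norm_ne_zero_iff.2 hr
  have hg : ∀ j ∈ s, grp j = grp i := by
    intro j hj
    have h1 := (hs j hj).trans (hs i hi).symm
    rw [div_left_inj' hn] at h1
    exact (La_strictMono D).injective h1
  have hgi : ∀ j ∈ s, ∀ k ∈ s, (od j ↔ od k) → j = k := fun j hj k hk h =>
    grp_inj ((hg j hj).trans (hg k hk).symm) h
  set ga : ℂ := ∑ j ∈ s, (c j : ℂ) * gam j with hga
  have hcmb : ∀ z, cmb (fam D m r) s c z = (HH D (grp i) ga ((z - m) / r)).re := by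
    intro z
    rw [hga, HH_lin, cmb, Complex.re_sum]
    refine Finset.sum_congr rfl fun j hj => ?_
    rw [rp, fam, hg j hj, Complex.re_ofReal_mul]
  have hcont := cmb_cont (fun k => (fam_eig D (m := m) hr k).diff) s c
  have hz := (bb_self_zero (J_pos hr).ne' hcont hb).2.1
  have hgz : ga = 0 := by
    refine HH_nd D (grp i) ga ?_ sq3_pos ?_
    · intro h
      rw [hga, Complex.im_sum]
      refine Finset.sum_eq_zero fun j hj => ?_
      rw [Complex.im_ofReal_mul, gam_spec j (by rw [hg j hj]; exact h)]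
      simp
    · intro y hy
      have h3 := sq3_pos
      have ht : (y / Real.sqrt 3 + 1) / 2 ∈ Icc (0 : ℝ) 1 := by
        have h1 : -1 ≤ y / Real.sqrt 3 := by
          rw [le_div_iff₀ h3]; linarith [hy.1]
        have h2 : y / Real.sqrt 3 ≤ 1 := by
          rw [div_le_iff₀ h3]; linarith [hy.2]
        constructor <;> linarith
      have h1 := hz _ ht
      rw [hcmb, e2] at h1
      have h2 : ((m - 2 * r + vA r + ((y / Real.sqrt 3 + 1) / 2 : ℝ) *
          (2 * (Real.sqrt 3 : ℂ) * Complex.I * r)) - m) / r = 1 + y * Complex.I := by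
        have h3c : ((Real.sqrt 3 : ℝ) : ℂ) ≠ 0 := by exact_mod_cast h3.ne'
        rw [div_eq_iff hr, vA]
        push_cast
        have h4 := two_i
        have h5 : (y : ℂ) / (Real.sqrt 3 : ℂ) * (Real.sqrt 3 : ℂ) = y := by field_simp
        linear_combination r * h4 - r * om_sum + r * Complex.I * h5
      rw [h2] at h1
      exact h1
  have hre : ∑ j ∈ s, c j * (if od j then 0 else 1) = 0 := by
    have := congrArg Complex.re hgz
    rw [hga, Complex.re_sum] at this
    simp only [Complex.re_ofReal_mul, gam_re, Complex.zero_re] at this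
    exact this
  have him : ∑ j ∈ s, c j * (if od j then 1 else 0) = 0 := by
    have := congrArg Complex.im hgz
    rw [hga, Complex.im_sum] at this
    simp only [Complex.im_ofReal_mul, gam_im, Complex.zero_im] at this
    exact this
  by_cases ho : od i
  · rw [Finset.sum_eq_single i] at him
    · simpa [ho] using him
    · intro j hj hji
      have : ¬ od j := fun h => hji (hgi j hj i hi ⟨fun _ => ho, fun _ => h⟩)
      simp [this]
    · exact fun h => absurd hi h
  · rw [Finset.sum_eq_single i] at hre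
    · simpa [ho] using hre
    · intro j hj hji
      have : od j := by
        by_contra h
        exact hji (hgi j hj i hi ⟨fun h' => absurd h' h, fun h' => absurd h' ho⟩)
      simp [this]
    · exact fun h => absurd hi h

theorem stk_bound {m r : ℂ} (hr : r ≠ 0) (k : ℕ) :
    stk (tri (m - 2 * r) (m - 2 * r + vA r) (m - 2 * r + vB r)) k ≤ La D (grp k) / ‖r‖ := by
  refine stk_le (J_pos hr) (fam_eig D (m := m) hr) (fun s c μ hs hb => fam_nd D hr s c μ hs hb) k
    fun i hi => ?_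
  exact div_le_div_of_nonneg_right ((La_strictMono D).monotone (grp_mono hi)) (norm_nonneg _)

/-! ### the sum -/

noncomputable def NN (k : ℕ) : ℝ := 6 * Real.sqrt 3 / Real.pi * La D (grp k)

lemma NN_one : NN D 1 ≤ 1.34 := D.l0'
lemma NN_two : NN D 2 ≤ 1.34 := D.l0'
lemma NN_three : NN D 3 ≤ 3.31 := nu3.2

lemma NN_pair (j : ℕ) : NN D (2 * j + 4) ≤ (2 * j + 5 : ℝ) + 1 / 5 * (1 / 2) ^ j ∧
    NN D (2 * j + 5) ≤ (2 * j + 5 : ℝ) + 1 / 5 * (1 / 2) ^ j := by
  have g1 : grp (2 * j + 4) = j + 3 := by unfold grp; split_ifs <;> omega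
  have g2 : grp (2 * j + 5) = j + 3 := by unfold grp; split_ifs <;> omega
  unfold NN
  rw [g1, g2]
  exact ⟨D.hi j, D.hi j⟩

lemma sum_odd (j : ℕ) : ∑ k ∈ Finset.Icc 1 (2 * j + 3), NN D k ≤
    2 * (j : ℝ) ^ 2 + 8 * j + 5.99 + 0.8 * (1 - (1 / 2) ^ j) := by
  induction j with
  | zero =>
    have : Finset.Icc 1 (2 * 0 + 3) = {1, 2, 3} := by decide
    rw [this, Finset.sum_insert (by decide), Finset.sum_insert (by decide), Finset.sum_singleton]
    have h1 := NN_one D
    have h2 := NN_two D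
    have h3 := NN_three D
    norm_num
    norm_num at h1 h2 h3
    linarith
  | succ j ih =>
    have e : 2 * (j + 1) + 3 = (2 * j + 3) + 1 + 1 := by ring
    rw [e, Finset.sum_Icc_succ_top (by omega), Finset.sum_Icc_succ_top (by omega)]
    obtain ⟨h1, h2⟩ := NN_pair D j
    have e1 : 2 * j + 3 + 1 = 2 * j + 4 := by ring
    have e2 : 2 * j + 4 + 1 = 2 * j + 5 := by ring
    have e3 : ((1 : ℝ) / 2) ^ (j + 1) = (1 / 2) ^ j * (1 / 2) := pow_succ _ _
    rw [e1, e2, e3]
    push_cast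
    nlinarith

/-- twice the sum of the ceilings -/
lemma ceil_odd (j : ℕ) : (∑ k ∈ Finset.Icc 1 (2 * j + 1), ((k + 1) / 2 : ℕ)) = (j + 1) ^ 2 := by
  induction j with
  | zero => decide
  | succ j ih =>
    have e : 2 * (j + 1) + 1 = (2 * j + 1) + 1 + 1 := by ring
    rw [e, Finset.sum_Icc_succ_top (by omega), Finset.sum_Icc_succ_top (by omega), ih]
    have e1 : (2 * j + 1 + 1 + 1) / 2 = j + 1 := by omega
    have e2 : (2 * j + 1 + 1 + 1 + 1) / 2 = j + 2 := by omega
    rw [e1, e2]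
    ring

theorem sum_lt (n : ℕ) (hn : 1 ≤ n) :
    ∑ k ∈ Finset.Icc 1 n, NN D k < 2 * ((∑ k ∈ Finset.Icc 1 n, ((k + 1) / 2 : ℕ) : ℕ) : ℝ) := by
  have h1 := NN_one D
  have h2 := NN_two D
  by_cases hn1 : n = 1
  · subst hn1
    norm_num
    norm_num at h1
    linarith
  by_cases hn2 : n = 2
  · subst hn2
    have : Finset.Icc 1 2 = {1, 2} := by decide
    rw [this, Finset.sum_insert (by decide), Finset.sum_singleton,
      Finset.sum_insert (by decide), Finset.sum_singleton]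
    norm_num
    norm_num at h1 h2
    linarith
  rcases Nat.even_or_odd' n with ⟨p, rfl | rfl⟩
  · obtain ⟨j, rfl⟩ : ∃ j, p = j + 2 := ⟨p - 2, by omega⟩
    have e : 2 * (j + 2) = (2 * j + 3) + 1 := by ring
    have e' : 2 * j + 3 = 2 * (j + 1) + 1 := by ring
    have s1 := Finset.sum_Icc_succ_top (show 1 ≤ 2 * j + 3 + 1 by omega) (NN D)
    have s2 := Finset.sum_Icc_succ_top (show 1 ≤ 2 * j + 3 + 1 by omega)
      (fun k => ((k + 1) / 2 : ℕ))
    rw [e, s1, s2]
    have h := sum_odd D j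
    have hp := (NN_pair D j).1
    have hc := ceil_odd (j + 1)
    rw [← e'] at hc
    rw [hc]
    have e2 : (2 * j + 3 + 1 + 1) / 2 = j + 2 := by omega
    rw [e2]
    have hpow : (0 : ℝ) < (1 / 2) ^ j := by positivity
    have e3 : 2 * j + 3 + 1 = 2 * j + 4 := by ring
    rw [e3]
    push_cast
    nlinarith
  · obtain ⟨j, rfl⟩ : ∃ j, p = j + 1 := ⟨p - 1, by omega⟩
    have e' : 2 * (j + 1) + 1 = 2 * j + 3 := by ring
    have h := sum_odd D j
    have hc := ceil_odd (j + 1)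
    rw [hc, e']
    have hpow : (0 : ℝ) < (1 / 2) ^ j := by positivity
    push_cast
    nlinarith

end Pool.Agent.Q96.SkFam
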